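import Pool.Agent.Mg.Fdb74b1.G2780a2
import Pool.Agent.MP_db74b1_al.ExcStmt
import Mathlib

section

set_option autoImplicit false

namespace Pool.Agent.MP_db74b1_al.Exc

theorem AH_congr {G H : Type} [Group G] [Group H] (f : G ≃* H) (h : AH G) : AH H := by
  intro x y z hx hy hE
  obtain ⟨x, rfl⟩ := f.surjective x
  obtain ⟨y, rfl⟩ := f.surjective y
  obtain ⟨z, rfl⟩ := f.surjective z
  have hc : ∀ p q : G, IsConj (f p) (f q) ↔ IsConj p q := fun p q =>
    ⟨fun h => by simpa using f.symm.toMonoidHom.map_isConj h, fun h => f.toMonoidHom.map_isConj h⟩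
  refine h x y z (fun h => hx (by simp [h])) (fun h => hy (by simp [h])) ?_
  ext g
  have := Set.ext_iff.1 hE (f g)
  simp only [Set.mem_ofPred_eq, f.surjective.exists, hc, ← map_mul, f.injective.eq_iff] at this
  exact this

theorem AHZ_congr {G H : Type} [Group G] [Group H] (f : G ≃* H) (h : AHZ G) : AHZ H := by
  refine AH_congr (QuotientGroup.congr (Subgroup.center G) (Subgroup.center H) f ?_) h
  ext y
  obtain ⟨x, rfl⟩ := f.surjective y
  rw [show f x ∈ Subgroup.map (f : G →* H) (Subgroup.center G) ↔ x ∈ Subgroup.center G from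
    Subgroup.mem_map_iff_mem (f := (f : G →* H)) f.injective, Subgroup.mem_center_iff,
    Subgroup.mem_center_iff, f.surjective.forall]
  simp only [← map_mul, f.injective.eq_iff]

variable {K : Type} [Field K]

def toP (K : Type) [Field K] : Aut K →* Equiv.Perm (L K) where
  toFun g := g.toEquiv
  map_one' := rfl
  map_mul' _ _ := rfl

theorem toP_inj : Function.Injective (toP K) := fun _ _ h => LinearEquiv.toEquiv_injective h

theorem toP_x (α : Root) (t : K) : toP K (x α t) = xp α t := by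
  ext1 v; exact (xf_eq α.1 t v).symm

theorem chevP_eq (n : ℕ) (b : Bool) (τ : K →+* K) : (chev n b τ).map (toP K) = chevP n b τ := by
  rw [chev, chevP, MonoidHom.map_closure]
  congr 1
  ext g
  constructor
  · rintro ⟨_, ⟨α, β, t, h1, h2, ⟨h3, h4, rfl⟩ | ⟨h3, rfl⟩⟩, rfl⟩
    · exact ⟨α, β, t, h1, h2, Or.inl ⟨h3, h4, toP_x α t⟩⟩
    · exact ⟨α, β, t, h1, h2, Or.inr ⟨h3, by rw [map_mul, toP_x, toP_x]⟩⟩
  · rintro ⟨α, β, t, h1, h2, ⟨h3, h4, rfl⟩ | ⟨h3, rfl⟩⟩
    · exact ⟨_, ⟨α, β, t, h1, h2, Or.inl ⟨h3, h4, rfl⟩⟩, toP_x α t⟩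
    · exact ⟨_, ⟨α, β, t, h1, h2, Or.inr ⟨h3, rfl⟩⟩, by rw [map_mul, toP_x, toP_x]⟩

theorem exceptional (n : ℕ) (b : Bool) (τ : K →+* K)
    (h : (b = false ∧ τ = RingHom.id K ∧ (n = 6 ∨ n = 7 ∨ n = 8)) ∨
      (b = true ∧ n = 6 ∧ τ.comp τ = RingHom.id K))
    (hr : ∃ r : K, τ r = r ∧ r ≠ 0 ∧ r ≠ 1) : AHZ (chevP n b τ) := by
  obtain ⟨r, h1, h2, h3⟩ := hr
  rw [← chevP_eq]
  exact AHZ_congr (Subgroup.equivMapOfInjective _ _ toP_inj)
    (Cfg.final ⟨n, b, τ, h.imp (fun h => ⟨h.1, fun t => by rw [h.2.1]; rfl, h.2.2⟩)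
      fun h => ⟨h.1, h.2.1, fun t => RingHom.congr_fun h.2.2 t⟩⟩ h1 h2 h3)

end Pool.Agent.MP_db74b1_al.Exc

end

section

set_option autoImplicit false

namespace Pool.Agent.MP_db74b1_al.Lt

namespace Sep

variable {K : Type} [Field K]

/-- The monomial characters. -/
def chi (θ : K →+* K) (x : Fin 5 × Fin 3) : K →* K where
  toFun t := t ^ x.1.1 * θ t ^ x.2.1
  map_one' := by simp
  map_mul' a b := by
    rw [map_mul, mul_pow, mul_pow]
    ring

theorem card_cases [Finite K] (h2 : (2 : K) = 0) (hK : 8 < Nat.card K) :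
    Nat.card K = 16 ∨ 32 ≤ Nat.card K := by
  classical
  cases nonempty_fintype K
  have : CharP K 2 := CharTwo.of_one_ne_zero_of_two_eq_zero one_ne_zero h2
  obtain ⟨n, -, hn⟩ := FiniteField.card K 2
  rw [Nat.card_eq_fintype_card, hn] at hK ⊢
  rcases Nat.lt_or_ge (n : ℕ) 4 with h | h
  · have := Nat.pow_le_pow_right (by norm_num : 0 < 2) (Nat.lt_succ_iff.1 h)
    omega
  · rcases h.eq_or_lt with h | h
    · left
      rw [← h]
      rfl
    · right
      exact Nat.pow_le_pow_right (by norm_num : 0 < 2) h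

theorem chi_inj [Finite K] (θ : K →+* K) (h : ∀ t, θ (θ t) = t ^ 2) (hK : 8 < Nat.card K) :
    Function.Injective (chi θ) := by
  classical
  have h2 : (2 : K) = 0 := by
    have h1 := h 2
    rw [map_ofNat, map_ofNat] at h1
    have h3 : (2 : K) * (2 - 1) = 0 := by linear_combination -h1
    rcases mul_eq_zero.1 h3 with h4 | h4
    · exact h4
    · exact absurd (by linear_combination h4 : (1 : K) = 0) one_ne_zero
  have hc := card_cases h2 hK
  cases nonempty_fintype K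
  rintro ⟨i, j⟩ ⟨i', j'⟩ hx
  have key : ∀ t : Kˣ, t ^ (((i.1 : ℤ) - i'.1) ^ 2 - 2 * ((j.1 : ℤ) - j'.1) ^ 2).natAbs = 1 := by
    intro t
    have e1 : (t : K) ^ i.1 * θ t ^ j.1 = (t : K) ^ i'.1 * θ t ^ j'.1 := DFunLike.congr_fun hx (t : K)
    have e2 := congrArg θ e1
    rw [map_mul, map_mul, map_pow, map_pow, map_pow, map_pow, h] at e2
    set u : Kˣ := Units.map (θ : K →* K) t with hu
    have f1 : t ^ i.1 * u ^ j.1 = t ^ i'.1 * u ^ j'.1 := Units.ext (by simpa [hu] using e1)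
    have f2 : u ^ i.1 * (t ^ 2) ^ j.1 = u ^ i'.1 * (t ^ 2) ^ j'.1 :=
      Units.ext (by simpa [hu] using e2)
    have g1 := congrArg Additive.ofMul f1
    have g2 := congrArg Additive.ofMul f2
    simp only [ofMul_mul, ofMul_pow, ← natCast_zsmul] at g1 g2
    have g3 : (((i.1 : ℤ) - i'.1) ^ 2 - 2 * ((j.1 : ℤ) - j'.1) ^ 2) • Additive.ofMul t = 0 := by
      linear_combination (norm := module) ((i.1 : ℤ) - i'.1) • g1 - ((j.1 : ℤ) - j'.1) • g2
    rw [pow_natAbs_eq_one]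
    exact g3
  rw [FiniteField.forall_pow_eq_one_iff, ← Nat.card_eq_fintype_card] at key
  have hi := i.2
  have hi' := i'.2
  have hj := j.2
  have hj' := j'.2
  have h0 : i.1 = i'.1 ∧ j.1 = j'.1 := by
    generalize Nat.card K = q at key hc
    generalize i.1 = a at *
    generalize i'.1 = a' at *
    generalize j.1 = b at *
    generalize j'.1 = b' at *
    rcases hc with rfl | hc
    · interval_cases a <;> interval_cases a' <;> interval_cases b <;> interval_cases b' <;>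
        simp_all
    · by_contra hne
      have h1 : (((a : ℤ) - a') ^ 2 - 2 * ((b : ℤ) - b') ^ 2).natAbs ≠ 0 ∧
          (((a : ℤ) - a') ^ 2 - 2 * ((b : ℤ) - b') ^ 2).natAbs ≤ 16 := by
        clear key
        interval_cases a <;> interval_cases a' <;> interval_cases b <;> interval_cases b' <;>
          simp_all
      have := Nat.le_of_dvd (Nat.pos_of_ne_zero h1.1) key
      omega
  exact Prod.ext (Fin.ext h0.1) (Fin.ext h0.2)

theorem mem_of_sum [Finite K] (θ : K →+* K) (h : ∀ t, θ (θ t) = t ^ 2) (hK : 8 < Nat.card K)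
    {A : Type} [AddCommGroup A] [Module K A] (Y : Submodule K A) (ψ : Fin 5 × Fin 3 → A)
    (hψ : ∀ t : K, ∑ x, (t ^ x.1.1 * θ t ^ x.2.1) • ψ x ∈ Y) (x : Fin 5 × Fin 3) : ψ x ∈ Y := by
  by_contra hx
  obtain ⟨f, hf, hY⟩ := Submodule.exists_dual_map_eq_bot_of_notMem hx inferInstance
  have hl := (linearIndependent_monoidHom K K).comp (chi θ) (chi_inj θ h hK)
  refine hf (Fintype.linearIndependent_iff.1 hl (fun y => f (ψ y)) ?_ x)
  funext t
  have h1 : f (∑ x, (t ^ x.1.1 * θ t ^ x.2.1) • ψ x) = 0 := by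
    rw [← Submodule.mem_bot K, ← hY]
    exact Submodule.mem_map_of_mem (hψ t)
  rw [map_sum] at h1
  rw [Finset.sum_apply, Pi.zero_apply, ← h1]
  refine Finset.sum_congr rfl fun y _ => ?_
  rw [map_smul, smul_eq_mul, mul_comm]
  rfl

variable {A : Type} [Ring A] [Algebra K A]

/-- The outer coefficients. -/
def nn (A1 A2 E1 E2 M : A) : Fin 5 → A :=
  ![M, A1 * M + M * A2, E1 * M + A1 * M * A2 + M * E2, E1 * M * A2 + A1 * M * E2, E1 * M * E2]

/-- The inner coefficients. -/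
def mm (φ C1 C2 : A) : Fin 3 → A := ![φ, C1 * φ + φ * C2, C1 * φ * C2]

theorem expand (φ A1 A2 E1 E2 C1 C2 : A) (s r : K) :
    (1 + s • A1 + s ^ 2 • E1) * (1 + r • C1) * φ * ((1 + r • C2) * (1 + s • A2 + s ^ 2 • E2)) - φ
      = ∑ x : Fin 5 × Fin 3, (s ^ x.1.1 * r ^ x.2.1) •
        (nn A1 A2 E1 E2 (mm φ C1 C2 x.2) x.1 - if x = (0, 0) then φ else 0) := by
  rw [Fintype.sum_prod_type]
  simp only [Fin.sum_univ_five, Fin.sum_univ_three, nn, mm]
  simp [mul_add, add_mul, mul_assoc]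
  module

end Sep

theorem sep {K : Type} [Field K] [Finite K] (θ : K →+* K) (h : ∀ t, θ (θ t) = t ^ 2)
    (hK : 8 < Nat.card K) {A : Type} [Ring A] [Algebra K A] (Y : Submodule K A)
    (φ A1 A2 E1 E2 C1 C2 : A)
    (hφ : ∀ t : K, (1 + t • A1 + t ^ 2 • E1) * (1 + θ t • C1) * φ *
      ((1 + θ t • C2) * (1 + t • A2 + t ^ 2 • E2)) - φ ∈ Y) (s r : K) :
    (1 + s • A1 + s ^ 2 • E1) * (1 + r • C1) * φ * ((1 + r • C2) * (1 + s • A2 + s ^ 2 • E2)) - φ
      ∈ Y := by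
  rw [Sep.expand]
  refine Y.sum_mem fun x _ => Y.smul_mem _ ?_
  refine Sep.mem_of_sum θ h hK Y (fun x => Sep.nn A1 A2 E1 E2 (Sep.mm φ C1 C2 x.2) x.1 -
    if x = (0, 0) then φ else 0) (fun t => ?_) x
  rw [← Sep.expand]
  exact hφ t

end Pool.Agent.MP_db74b1_al.Lt

end

section

set_option autoImplicit false

namespace Pool.Agent.MP_db74b1_al.Lt

namespace S8

theorem two {K : Type} [Field K] (θ : K →+* K) (h : ∀ t, θ (θ t) = t ^ 2) : (2 : K) = 0 := by
  have := h 2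
  rw [map_ofNat, map_ofNat] at this
  linear_combination -this

theorem coeffs {K A : Type} [Field K] [Finite K] [AddCommGroup A] [Module K A] (Y : Submodule K A)
    {n : ℕ} (hn : n ≤ Nat.card K) (f : Fin n → A) (hf : ∀ t : K, ∑ i, t ^ i.1 • f i ∈ Y)
    (i : Fin n) : f i ∈ Y := by
  classical
  by_contra hi
  obtain ⟨φ, h1, h2⟩ := Submodule.exists_dual_map_eq_bot_of_notMem hi inferInstance
  have := Fintype.ofFinite K
  obtain ⟨u⟩ : Nonempty (Fin n ↪ K) := Function.Embedding.nonempty_of_card_le (by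
    rwa [Fintype.card_fin, ← Nat.card_eq_fintype_card])
  have h3 := Matrix.eq_zero_of_forall_index_sum_pow_mul_eq_zero (f := u) (v := fun i => φ (f i))
    u.injective fun j => by
      have h4 : φ (∑ i, u j ^ i.1 • f i) = 0 := by
        have : φ (∑ i, u j ^ i.1 • f i) ∈ Y.map φ := ⟨_, hf _, rfl⟩
        rwa [h2, Submodule.mem_bot] at this
      simpa only [map_sum, map_smul, smul_eq_mul] using h4
  exact h1 (congrFun h3 i)

theorem pow_card' {K : Type} [Field K] [Finite K] (t : K) : t ^ Nat.card K = t := by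
  have := Fintype.ofFinite K
  rw [Nat.card_eq_fintype_card]
  exact FiniteField.pow_card t

end S8

theorem card_cases {K : Type} [Field K] [Finite K] (θ : K →+* K) (h : ∀ t, θ (θ t) = t ^ 2)
    (hK : 2 < Nat.card K) : Nat.card K = 8 ∨ 8 < Nat.card K := by
  classical
  have h2 := S8.two θ h
  have := Fintype.ofFinite K
  have hc : CharP K 2 := (CharP.charP_iff_prime_eq_zero Nat.prime_two).2 (by exact_mod_cast h2)
  obtain ⟨k, -, hk⟩ := FiniteField.card K 2
  rw [← Nat.card_eq_fintype_card] at hk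
  have h4 : Nat.card K ≠ 4 := fun h4 => by
    obtain ⟨t, -, ht⟩ := Finset.exists_mem_notMem_of_card_lt_card (s := ({0, 1} : Finset K))
      (t := Finset.univ) (by
        rw [Finset.card_univ, ← Nat.card_eq_fintype_card]
        exact Finset.card_le_two.trans_lt hK)
    simp only [Finset.mem_insert, Finset.mem_singleton, not_or] at ht
    have e1 := S8.pow_card' t
    rw [h4] at e1
    have e0 : t * (t - 1) ≠ 0 := mul_ne_zero ht.1 (sub_ne_zero.2 ht.2)
    have e2 : t ^ 2 + t + 1 = 0 := mul_left_cancel₀ e0 (by linear_combination e1)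
    have e3 := congrArg θ e2
    rw [map_add, map_add, map_pow, map_one, map_zero] at e3
    have e4 : (θ t - t) * (θ t - (t + 1)) = 0 := by
      linear_combination e3 + e2 + (-θ t * t - θ t - 1) * h2
    have e5 := h t
    rcases mul_eq_zero.1 e4 with e6 | e6 <;> rw [sub_eq_zero] at e6
    · rw [e6, e6] at e5
      exact e0 (by linear_combination -e5)
    · rw [e6, map_add, map_one, e6] at e5
      exact e0 (by linear_combination -e5 + h2)
  rw [hk] at hK h4 ⊢
  obtain ⟨k, hk0⟩ := k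
  change 2 < 2 ^ k at hK
  change 2 ^ k ≠ 4 at h4
  change 2 ^ k = 8 ∨ 8 < 2 ^ k
  rcases Nat.lt_or_ge k 4 with h5 | h5
  · interval_cases k <;> simp_all
  · right
    calc 8 < 2 ^ 4 := by norm_num
      _ ≤ 2 ^ k := Nat.pow_le_pow_right (by norm_num) h5

theorem th8 {K : Type} [Field K] [Finite K] (θ : K →+* K) (h : ∀ t, θ (θ t) = t ^ 2)
    (hK : Nat.card K = 8) (t : K) : θ t = t ^ 4 := by
  have h2 := S8.two θ h
  have e1 := S8.pow_card' t
  rw [hK] at e1
  have e5 := h t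
  have key : (θ t - t) * (θ t - t ^ 2) * (θ t - t ^ 4) = 0 → θ t = t ^ 4 := fun e => by
    rcases mul_eq_zero.1 e with e | e
    · rcases mul_eq_zero.1 e with e | e <;> rw [sub_eq_zero] at e
      · rw [e, e] at e5
        rw [e]
        linear_combination (t ^ 2 + t + 1) * e5
      · rw [e, map_pow, e] at e5
        rw [e]
        linear_combination -e5
    · exact sub_eq_zero.1 e
  have e2 : t * (t + 1) * (t ^ 3 + t + 1) * (t ^ 3 + t ^ 2 + 1) = 0 := by
    linear_combination e1 + (t ^ 7 + t ^ 6 + 2 * t ^ 5 + 2 * t ^ 4 + t ^ 3 + t ^ 2 + t) * h2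
  rcases mul_eq_zero.1 e2 with e | e
  · rcases mul_eq_zero.1 e with e | e
    · rcases mul_eq_zero.1 e with e | e
      · simp [e]
      · have : t = 1 := by linear_combination e - h2
        simp [this]
    · have e3 := congrArg θ e
      rw [map_add, map_add, map_pow, map_one, map_zero] at e3
      apply key
      generalize θ t = u at e3
      grind
  · have e3 := congrArg θ e
    rw [map_add, map_add, map_pow, map_pow, map_one, map_zero] at e3
    apply key
    generalize θ t = u at e3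
    grind

theorem sep8 {K : Type} [Field K] [Finite K] (θ : K →+* K) (h : ∀ t, θ (θ t) = t ^ 2)
    (hK : Nat.card K = 8) {A : Type} [Ring A] [Algebra K A] (Y : Submodule K A) (φ A1 E C : A)
    (hEC : E * C = 0) (hCE : C * E = 0)
    (hφ : ∀ t : K, (1 + t • A1 + t ^ 2 • E) * (1 + θ t • C) * φ *
      ((1 + θ t • C) * (1 + t • A1 + t ^ 2 • E)) - φ ∈ Y) :
    A1 * φ + φ * A1 + C * φ * C ∈ Y ∧
      E * φ + A1 * φ * A1 + φ * E + (A1 * (C * φ * C) + C * φ * C * A1) ∈ Y ∧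
      E * φ * A1 + A1 * φ * E + A1 * (C * φ * C) * A1 ∈ Y ∧
      E * φ * E + (C * φ + φ * C) ∈ Y ∧
      A1 * (C * φ + φ * C) + (C * φ + φ * C) * A1 ∈ Y ∧
      E * (C * φ + φ * C) + A1 * (C * φ + φ * C) * A1 + (C * φ + φ * C) * E ∈ Y ∧
      E * (C * φ + φ * C) * A1 + A1 * (C * φ + φ * C) * E ∈ Y := by
  have e1 : ∀ x, E * (C * x) = 0 := fun x => by rw [← mul_assoc, hEC, zero_mul]
  have key := S8.coeffs Y hK.ge ![0, A1 * φ + φ * A1 + C * φ * C,
    E * φ + A1 * φ * A1 + φ * E + (A1 * (C * φ * C) + C * φ * C * A1),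
    E * φ * A1 + A1 * φ * E + A1 * (C * φ * C) * A1, E * φ * E + (C * φ + φ * C),
    A1 * (C * φ + φ * C) + (C * φ + φ * C) * A1,
    E * (C * φ + φ * C) + A1 * (C * φ + φ * C) * A1 + (C * φ + φ * C) * E,
    E * (C * φ + φ * C) * A1 + A1 * (C * φ + φ * C) * E] fun t => by
      have e8 := S8.pow_card' t
      rw [hK] at e8
      have := hφ t
      rw [th8 θ h hK] at this
      convert this using 1
      rw [Fin.sum_univ_eight]
      change t ^ 0 • _ + t ^ 1 • _ + t ^ 2 • _ + t ^ 3 • _ + t ^ 4 • _ + t ^ 5 • _ + t ^ 6 • _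
        + t ^ 7 • _ = _
      simp only [Matrix.cons_val, mul_add, add_mul, mul_assoc, one_mul, mul_one,
        smul_mul_assoc, mul_smul_comm, e1, hEC, hCE, smul_zero, mul_zero, add_zero, zero_add,
        smul_add]
      linear_combination (norm := module) (-e8) • (C * (φ * C)) + (-t * e8) • (A1 * (C * (φ * C)))
        + (-t * e8) • (C * (φ * (C * A1))) + (-t ^ 2 * e8) • (A1 * (C * (φ * (C * A1))))
  exact ⟨key 1, key 2, key 3, key 4, key 5, key 6, key 7⟩

namespace S8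

variable {K A : Type} [Field K] [Ring A] [Algebra K A] {P Q : Submodule K A}

/-- The bracket with `D` maps `P` into `Q`. -/
def Ad (P Q : Submodule K A) (D : A) : Prop := ∀ φ ∈ P, D * φ + φ * D ∈ Q

/-- A twisted one-parameter family, up to scaling, whose conjugation action moves `P` by `Q`. -/
def Fm (θ : K →+* K) (P Q : Submodule K A) (A1 E C : A) : Prop :=
  E * C = 0 ∧ C * E = 0 ∧ ∃ c d : K, c ≠ 0 ∧ d ≠ 0 ∧ ∀ φ ∈ P, ∀ t : K,
    (1 + (c * t) • A1 + (c * t) ^ 2 • E) * (1 + (d * θ t) • C) * φ *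
      ((1 + (d * θ t) • C) * (1 + (c * t) • A1 + (c * t) ^ 2 • E)) - φ ∈ Q

theorem dbl (h2 : (2 : K) = 0) (x : A) : x + x = 0 := by
  rw [← two_smul K x, h2, zero_smul]

theorem Ad.smul {D : A} (c : K) (h : Ad P Q D) : Ad P Q (c • D) := fun φ hφ => by
  rw [smul_mul_assoc, mul_smul_comm, ← smul_add]
  exact Q.smul_mem c (h φ hφ)

theorem Ad_smul {D : A} {c : K} (hc : c ≠ 0) : Ad P Q (c • D) ↔ Ad P Q D :=
  ⟨fun h => by simpa only [smul_smul, inv_mul_cancel₀ hc, one_smul] using h.smul c⁻¹, .smul c⟩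

theorem L5 (h2 : (2 : K) = 0) (hQ : Q ≤ P) {D D' : A} (h : Ad P Q D) (h' : Ad P Q D') :
    Ad P Q (D * D' + D' * D) := fun φ hφ => by
  convert Q.add_mem (h _ (hQ (h' φ hφ))) (h' _ (hQ (h φ hφ))) using 1
  simp only [mul_add, add_mul, mul_assoc]
  linear_combination (norm := abel) -dbl h2 (D * (φ * D')) - dbl h2 (D' * (φ * D))

variable [Finite K] {θ : K →+* K}

theorem Fm.comp (h : ∀ t, θ (θ t) = t ^ 2) (hK : Nat.card K = 8) {A1 E C : A}
    (F : Fm θ P Q A1 E C) : ∃ c d : K, c ≠ 0 ∧ d ≠ 0 ∧ ∀ φ ∈ P,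
      c • (A1 * φ + φ * A1) + d ^ 2 • (C * φ * C) ∈ Q ∧
      c ^ 2 • (E * φ + A1 * φ * A1 + φ * E)
        + (c * d ^ 2) • (A1 * (C * φ * C) + C * φ * C * A1) ∈ Q ∧
      c ^ 3 • (E * φ * A1 + A1 * φ * E) + (c ^ 2 * d ^ 2) • (A1 * (C * φ * C) * A1) ∈ Q ∧
      c ^ 4 • (E * φ * E) + d • (C * φ + φ * C) ∈ Q := by
  obtain ⟨h1, h2, c, d, hc, hd, h3⟩ := F
  refine ⟨c, d, hc, hd, fun φ hφ => ?_⟩
  obtain ⟨k1, k2, k3, k4, -⟩ := sep8 θ h hK Q φ (c • A1) (c ^ 2 • E) (d • C)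
    (by simp [h1]) (by simp [h2]) fun t => by
      simpa only [smul_smul, mul_comm t, mul_comm (θ t), mul_pow, mul_comm (t ^ 2)] using h3 φ hφ t
  simp only [smul_mul_assoc, mul_smul_comm, smul_smul] at k1 k2 k3 k4
  refine ⟨?_, ?_, ?_, ?_⟩
  · convert k1 using 1; module
  · convert k2 using 1; module
  · convert k3 using 1; module
  · convert k4 using 1; module

theorem L2 (h : ∀ t, θ (θ t) = t ^ 2) (hK : Nat.card K = 8) (hQ : Q ≤ P) {A1 E C : A}
    (F : Fm θ P Q A1 E C) (hA : Ad P Q A1) (hC : Ad P Q C) (s : K) {φ : A} (hφ : φ ∈ P) :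
    (1 + s • A1 + s ^ 2 • E) * φ * (1 + s • A1 + s ^ 2 • E) - φ ∈ Q ∧
      (1 + s • C) * φ * (1 + s • C) - φ ∈ Q := by
  obtain ⟨c, d, hc, hd, k⟩ := F.comp h hK
  have b2 : ∀ φ ∈ P, C * φ * C ∈ Q := fun φ hφ =>
    (Q.smul_mem_iff (pow_ne_zero 2 hd)).1
      ((Q.add_mem_iff_right (Q.smul_mem c (hA φ hφ))).1 (k φ hφ).1)
  have a4 : E * φ * E ∈ Q := (Q.smul_mem_iff (pow_ne_zero 4 hc)).1
      ((Q.add_mem_iff_left (Q.smul_mem d (hC φ hφ))).1 (k φ hφ).2.2.2)
  have a2 : ∀ φ ∈ P, E * φ + A1 * φ * A1 + φ * E ∈ Q := fun φ hφ =>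
    (Q.smul_mem_iff (pow_ne_zero 2 hc)).1
      ((Q.add_mem_iff_left (Q.smul_mem _ (hA _ (hQ (b2 φ hφ))))).1 (k φ hφ).2.1)
  have a3 : E * φ * A1 + A1 * φ * E ∈ Q := by
    have := a2 _ (hQ (b2 φ hφ))
    rw [← mul_assoc E, ← mul_assoc E, F.1, mul_assoc _ C E, F.2.1, zero_mul, zero_mul, mul_zero,
      zero_add, add_zero] at this
    exact (Q.smul_mem_iff (pow_ne_zero 3 hc)).1
      ((Q.add_mem_iff_left (Q.smul_mem _ this)).1 (k φ hφ).2.2.1)
  constructor
  · convert Q.add_mem (Q.add_mem (Q.add_mem (Q.smul_mem s (hA φ hφ)) (Q.smul_mem (s ^ 2) (a2 φ hφ)))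
      (Q.smul_mem (s ^ 3) a3)) (Q.smul_mem (s ^ 4) a4) using 1
    simp only [mul_add, add_mul, one_mul, mul_one, smul_mul_assoc, mul_smul_comm]
    module
  · convert Q.add_mem (Q.smul_mem s (hC φ hφ)) (Q.smul_mem (s ^ 2) (b2 φ hφ)) using 1
    simp only [mul_add, add_mul, one_mul, mul_one, smul_mul_assoc, mul_smul_comm]
    module

theorem L3 (h : ∀ t, θ (θ t) = t ^ 2) (hK : Nat.card K = 8) (hQ : Q ≤ P) {A1 E C A1' E' C' : A}
    (F : Fm θ P Q A1 E C) (F' : Fm θ P Q A1' E' C') (h1 : E * C' = 0) (h2 : C' * E = 0)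
    (h3 : E' * C = 0) (h4 : C * E' = 0) (h5 : E * E' = 0) (h6 : E' * E = 0) :
    Ad P Q (C * C' + C' * C) := fun φ hφ => by
  obtain ⟨c, d, -, hd, k⟩ := F.comp h hK
  obtain ⟨c', d', -, hd', k'⟩ := F'.comp h hK
  have z : ∀ {x y : A}, x * y = 0 → ∀ w, x * (y * w) = 0 := fun e w => by
    rw [← mul_assoc, e, zero_mul]
  rw [← Q.smul_mem_iff (mul_ne_zero hd hd')]
  convert Q.add_mem (k _ (hQ (k' φ hφ).2.2.2)).2.2.2 (k' _ (hQ (k φ hφ).2.2.2)).2.2.2 using 1
  simp only [mul_add, add_mul, mul_assoc, smul_mul_assoc, mul_smul_comm, z h1, z h2, z h3, z h4,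
    z h5, z h6, h1, h2, h3, h4, mul_zero, smul_zero, zero_add]
  linear_combination (norm := module) (-(d * d') * two θ h) • (C * (φ * C'))
    + (-(d * d') * two θ h) • (C' * (φ * C))

theorem L4 (h : ∀ t, θ (θ t) = t ^ 2) (hK : Nat.card K = 8) (hQ : Q ≤ P) {A1 E C D : A}
    (F : Fm θ P Q A1 E C) (hD : Ad P Q D) (hc : D * C = C * D) :
    Ad P Q (D * A1 + A1 * D) := fun φ hφ => by
  obtain ⟨c, d, hc0, -, k⟩ := F.comp h hK
  have z : ∀ w, D * (C * w) = C * (D * w) := fun w => by rw [← mul_assoc, hc, mul_assoc]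
  rw [← Q.smul_mem_iff hc0]
  convert Q.add_mem (hD _ (hQ (k φ hφ).1)) (k _ (hQ (hD φ hφ))).1 using 1
  simp only [mul_add, add_mul, mul_assoc, smul_mul_assoc, mul_smul_comm, z, hc]
  linear_combination (norm := module) (-c * two θ h) • (D * (φ * A1))
    + (-c * two θ h) • (A1 * (φ * D)) + (-d ^ 2 * two θ h) • (C * (D * (φ * C)))
    + (-d ^ 2 * two θ h) • (C * (φ * (C * D)))

end S8

end Pool.Agent.MP_db74b1_al.Lt

end
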