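import Pool.Agent.Mg.Fdb74b1.Gac2122

set_option autoImplicit false

namespace Pool.Agent.MP_db74b1_al.Exc

def houtB (j : B8) (x : Lat) : ℤ :=
  cond j.a 0 (x 0) + cond j.b 0 (x 1) + cond j.c 0 (x 2) + cond j.d 0 (x 3)
    + cond j.e 0 (x 4) + cond j.f 0 (x 5) + cond j.g 0 (x 6) + cond j.h 0 (x 7)

def cnt (j : B8) (i : Fin 8) : ℕ :=
  allL.countP fun x => decide (Sp 7 x ∧ cv x i = 1 ∧ houtB j x = 0)

def allV (j : B8) (ν : V8) (P : V8 → Bool) : Bool :=
  posV.all fun x => !(spV 7 x && houtV j x == houtV j ν && eqJ j (svV false x) (svV false ν)) || P x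

def witB : List V8 := posV.take 7 ++ [⟨1,1,2,3,2,1,1,0⟩]

theorem witB_ok : ∀ ν ∈ witB, ipx ν.l ν.l = 2 ∧ Sp 7 ν.l := by decide +kernel

def thV : V8 := ⟨2,2,3,4,3,2,1,0⟩

theorem fin7 : ∀ a b c d e f g : Bool, (a && b && c && d && e && f && g) = true ∨
    (∃ i : Fin 8, i.1 < 7 ∧ cnt ⟨a, b, c, d, e, f, g, false⟩ i % 2 = 1) ∨
    (∃ ν ∈ witB, 0 < houtV ⟨a, b, c, d, e, f, g, false⟩ ν ∧
      allV ⟨a, b, c, d, e, f, g, false⟩ ν (fun _ => false) = true) ∨
    (houtV ⟨a, b, c, d, e, f, g, false⟩ thV % 2 = 1 ∧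
      allV ⟨a, b, c, d, e, f, g, false⟩ thV (fun x => eqV x thV) = true) := by decide +kernel

theorem allL_nodup : allL.Nodup := by decide +kernel

theorem allL_root : ∀ x ∈ allL, ipx x x = 2 := by decide +kernel

theorem allV_spec {J : Fin 8 → Bool} {ν : V8} {P : V8 → Bool} (h : allV (B8.of J) ν P = true)
    {x : Lat} (hx : ip x x = 2) (h0 : 0 ≤ x) (hs : Sp 7 x) (ho : hout J x = hout J ν.l)
    (hj : ∀ i, J i = true → sv false x i = -sv false ν.l i) : ∃ v : V8, v.l = x ∧ P v = true := by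
  have hm := mem_posL hx h0
  rw [posL_eq] at hm
  obtain ⟨v, hv, rfl⟩ := List.mem_map.1 hm
  have h7 := List.all_eq_true.1 h v hv
  rw [spV_of hs, houtV_eq, houtV_eq, ho, eqJ_of (by rwa [svV_l, svV_l])] at h7
  exact ⟨v, rfl, by simpa using h7⟩

theorem sum_root {K : Type} [Field K] (p : Lat → Prop) [DecidablePred p] :
    ∑ α : Root, (if p α.1 then (1 : K) else 0) = (allL.countP fun x => decide (p x) : ℕ) := by
  rw [← Finset.sum_subtype allL.toFinset (p := fun x => ip x x = 2)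
    (fun x => ⟨fun h => rt (allL_root x (List.mem_toFinset.1 h)),
      fun h => List.mem_toFinset.2 (mem_allL h)⟩) (fun x => if p x then (1 : K) else 0),
    List.sum_toFinset _ allL_nodup]
  generalize allL = S
  induction S with
  | nil => simp
  | cons x S ih =>
    rw [List.map_cons, List.sum_cons, ih, List.countP_cons]
    by_cases h : p x <;> simp [h, add_comm]

end Pool.Agent.MP_db74b1_al.Exc
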