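import Pool.Agent.MP_db74b1_al.LtDefs
import Pool.Agent.Mg.Fdb74b1.G44f60e

set_option autoImplicit false

namespace Pool.Agent.MP_db74b1_al.Lt
open Pool.Agent.MP_db74b1_al.Exc
open Pool.Agent.MP_db74b1_al.Exc.Cfg

variable {K : Type} [Field K] {c : Cfg K}

/-- the 26-dimensional module -/
noncomputable def M26 (hτ : ∀ t, c.τ t = t) : Submodule K (L K) := c.V.map (1 - Cfg.stl hτ)

theorem M26_le (hτ : ∀ t, c.τ t = t) : M26 hτ ≤ c.V := by
  rintro _ ⟨v, hv, rfl⟩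
  exact sub_mem hv (st_mem hv)

theorem M26_G (hτ : ∀ t, c.τ t = t) : ∀ g ∈ c.G, ∀ v ∈ M26 hτ, g v ∈ M26 hτ := by
  rintro g hg _ ⟨v, hv, rfl⟩
  refine ⟨g v, G_mem hg hv, ?_⟩
  change g v - c.st (g v) = g (v - c.st v)
  rw [map_sub, G_st hg hv]

namespace F4a

theorem step1k {a b : Aut K} (ha : a ∈ c.G) (hb : b ∈ c.G) {r : K} (hr : c.τ r = r)
    (hr0 : r ≠ 0) (hr1 : r ≠ 1) {M : Submodule K (L K)} {k : K}
    (hk : ∀ a' b', c.Cj a a' → c.Cj b b' → TW M (a' * b' : Aut K) = k)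
    (hG : ∀ g ∈ c.G, ∀ v ∈ M, g v ∈ M) (D : En K) (A : L K →ₗ[K] En K) {e1 e2 : L K}
    (he1 : e1 ∈ c.V) (he2 : e2 ∈ c.V) (hD : ∀ v ∈ c.V, D v ∈ M)
    (hDG : ∀ g ∈ c.G, ∀ v ∈ c.V, g (D v) = D (g v))
    (hU : ∀ s t, c.τ s = s → c.τ t = t → ∃ U ∈ c.G, ∀ m ∈ M,
      U m = m + A (s • e1 + t • e2) m + gf (s • e1 + t • e2) m • D (s • e1 + t • e2) ∧
      U⁻¹ m = m - A (s • e1 + t • e2) m + gf (s • e1 + t • e2) m • D (s • e1 + t • e2))
    (hS : ∀ t, c.τ t = t → ∃ p ∈ c.G, p e1 = e1 + t • e2 ∧ p e2 = e2) :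
    (∀ a', c.Cj a a' → gf e2 (a' (D e2)) = 0) ∨ ∀ b', c.Cj b b' → gf e2 (b' (D e2)) = 0 := by
  have hF : ∀ s, (s = 0 ∨ s = 1 ∨ s = r) → c.τ s = s := by
    rintro s (rfl | rfl | rfl) <;> simp [hr]
  have key : ∀ a' b', c.Cj a a' → c.Cj b b' →
      gf e1 (a' (D e1)) * gf e2 (b' (D e2)) + (gf e1 (a' (D e2)) + gf e2 (a' (D e1))) *
        (gf e1 (b' (D e2)) + gf e2 (b' (D e1))) + gf e2 (a' (D e2)) * gf e1 (b' (D e1)) = 0 := by
    intro a' b' ha' hb'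
    refine step1_abs (M := M) (a' : En K) (b' : En K) (A e1) (A e2) (D e1) (D e2) (gf e1) (gf e2)
      (hG _ (ha'.mem ha) _ (hD _ he1)) (hG _ (ha'.mem ha) _ (hD _ he2)) hr0 hr1 (k := k)
      fun s t hs ht => ?_
    obtain ⟨U, hU1, hU2⟩ := hU s t (hF s hs) (hF t ht)
    rw [← hk a' _ ha' (hb'.trans ⟨U, hU1, rfl⟩)]
    refine TW_congr fun m hm => ?_
    have h1 := hG _ (inv_mem hU1) m hm
    have h2 := (hU2 _ (hG _ (hb'.mem hb) _ h1)).1
    have h3 := (hU2 m hm).2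
    simp only [map_add, map_smul] at h2 h3
    change a' _ = a' (U (b' (U⁻¹ m)))
    rw [h2, h3]
    simp
  by_contra hc
  push Not at hc
  obtain ⟨⟨a', ha', h1⟩, b', hb', h2⟩ := hc
  have k2 : ∀ t, (t = 0 ∨ t = 1 ∨ t = r) →
      gf e1 (a' (D e1)) * gf e2 (b' (D e2)) + (gf e1 (a' (D e2)) + gf e2 (a' (D e1))) *
        (gf e1 (b' (D e2)) + gf e2 (b' (D e1)) + 2 * t * gf e2 (b' (D e2))) + gf e2 (a' (D e2)) *
        (gf e1 (b' (D e1)) + t * (gf e1 (b' (D e2)) + gf e2 (b' (D e1)))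
          + t ^ 2 * gf e2 (b' (D e2))) = 0 := by
    intro t ht
    obtain ⟨p, hp, h3, h4⟩ := hS t (hF t ht)
    have h5 := key a' _ ha' (hb'.trans ⟨p⁻¹, inv_mem hp, rfl⟩)
    simp only [inv_inv, LinearEquiv.mul_apply, gf_inv (G_aut (inv_mem hp)), hDG p hp _ he1,
      hDG p hp _ he2, h3, h4, map_add, map_smul, LinearMap.add_apply, LinearMap.smul_apply,
      smul_eq_mul] at h5
    linear_combination h5
  have hr2 : r ^ 2 - r ≠ 0 := by
    rw [show r ^ 2 - r = r * (r - 1) by ring]; exact mul_ne_zero hr0 (sub_ne_zero.2 hr1)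
  apply mul_ne_zero hr2 (mul_ne_zero h1 h2)
  linear_combination (r - 1) * k2 0 (by simp) - r * k2 1 (by simp) + k2 r (by simp)

theorem Y_poly (hτ : ∀ t, c.τ t = t) {α : Exc.Lat} (hα : c.R α) (hs : sg c.b α ≠ α) (t : K)
    (m : L K) : c.Y α t m = m + t • (ad α + ad (sg c.b α) : En K) m
      + t ^ 2 • (ad α * ad (sg c.b α) + (co (-sg c.b α)).smulRight (e (sg c.b α))
        + (co (-α)).smulRight (e α) : En K) m := by
  have h0 := hα.orth hs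
  have hne : -α ≠ sg c.b α := fun h => by
    rw [← h, ip_neg_right, hα.1] at h0; omega
  have h1 : ∀ m : L K, co (-α) (ad (sg c.b α) m) = 0 := fun m => by
    rw [co_ad, if_neg hne, co_of_not (β := -α - sg c.b α), mul_zero, ite_self]
    rw [norm_sub, norm_neg, ip_neg_left, h0, hα.1, hα.sg.1]; decide
  rw [Y_mov hs, hτ, LinearEquiv.mul_apply, X_apply hα.1, X_apply hα.sg.1]
  simp only [map_add, map_smul, h1, ad_e_nn hα.1 hα.sg.1 h0.ge, co_e_ne hne,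
    LinearMap.add_apply, LinearMap.smulRight_apply, Module.End.mul_apply, smul_eq_mul]
  module

end F4a

theorem short_TC (hb : c.b = true) (hτ : ∀ t, c.τ t = t) {a b : Aut K} (ha : a ∈ c.G)
    (hb' : b ∈ c.G) {r : K} (hr0 : r ≠ 0) (hr1 : r ≠ 1) (k : K)
    (h : ∀ a' b', c.Cj a a' → c.Cj b b' → TW (M26 hτ) (a' * b' : Aut K) = k) :
    c.QS a ∨ c.QS b := by
  have hk := k0_R hb
  have hn := n6_of_b hb
  have h5 : (5 : Fin 8).1 < c.n := by rw [hn]; decide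
  have hμ : c.R (k0 - Exc.a 5) := by rw [R, hn, ip_x]; decide
  have hm5 : sg c.b (Exc.a 5) ≠ Exc.a 5 := by rw [hb]; decide
  have hs5 : sg c.b (Exc.a 5) = Exc.a 0 := by rw [hb]; decide
  have hQ : ∀ g ∈ c.G, (∀ g', c.Cj g g' → gf (e k0) (g' ((1 - stl hτ) (e k0))) = 0) → c.QS g := by
    rintro g _ hg _ ⟨p, hp, s, rfl⟩
    have := hg _ ⟨p⁻¹, inv_mem hp, rfl⟩
    rw [inv_inv, LinearEquiv.mul_apply, LinearEquiv.mul_apply, gf_inv (G_aut (inv_mem hp)),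
      inv_inv] at this
    rw [map_smulₛₗ c.st, hτ, G_st hp (e_mem hk.2), ← smul_sub, ← map_sub]
    change gf _ (g (p (e k0 - c.st (e k0)))) = 0 at this
    simp only [map_smul, this, LinearMap.smul_apply, smul_zero]
  have hDG : ∀ g ∈ c.G, ∀ v ∈ c.V, g ((1 - stl hτ) v) = (1 - stl hτ) (g v) := fun g hg v hv => by
    change g (v - c.st v) = g v - c.st (g v)
    rw [map_sub, G_st hg hv]
  refine (F4a.step1k ha hb' (hτ r) hr0 hr1 (M := c.V.map (1 - stl hτ)) h (M26_G hτ) (1 - stl hτ)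
    (br ∘ₗ (1 + stl hτ)) (e_mem hμ.2) (e_mem hk.2) (fun v hv => ⟨v, hv, rfl⟩) hDG
    (fun s t _ _ => ?_) fun t _ => ?_).imp (hQ a ha) (hQ b hb')
  · have ho : c.Orb k0 (s • e (k0 - Exc.a 5) + t • e k0) := by
      by_cases ht : t = 0
      · rw [ht, zero_smul, add_zero]
        exact (orb_short hb hμ (by rw [hb]; decide)).smul s
      · refine ⟨c.Y (-Exc.a 5) (s / t * eps (-Exc.a 5) k0), Y_mem (R_a h5).neg
          (Al_fix (hτ _) _), t, ?_⟩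
        rw [Y_mov (by rw [hb]; decide), LinearEquiv.mul_apply, X_e_nn (R_a h5).neg.sg.1 hk.1
          (by rw [hb, ip_x]; decide), X_e_m1 (R_a h5).neg.1 hk.1 (by rw [ip_x]; decide),
          mul_assoc, eps_cast_mul_self, neg_add_eq_sub, smul_add, smul_smul, add_comm]
        congr 2; field_simp
    obtain ⟨p, hp, q, e1⟩ := ho
    rw [e1]
    have key : ∀ q : K, ∀ m ∈ c.V.map (1 - stl hτ), (p * c.Y k0 q * p⁻¹) m =
        m + br (q • p (e k0) + c.st (q • p (e k0))) m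
          + gf (q • p (e k0)) m • (q • p (e k0) - c.st (q • p (e k0))) := by
      rintro q _ ⟨v, hv, rfl⟩
      have hq := c.V.smul_mem q (e_mem hk.2)
      rw [LinearEquiv.mul_apply, LinearEquiv.mul_apply, hDG _ (inv_mem hp) v hv]
      change p (c.Y k0 q (p⁻¹ v - c.st (p⁻¹ v))) = _
      have aux : ∀ x ∈ c.V, ∀ m, p (m + br (x + c.st x) m + gf x m • (x - c.st x)) =
          p m + br (p x + c.st (p x)) (p m) + gf (p x) (p m) • (p x - c.st (p x)) := fun x hx m => by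
        rw [map_add p, map_add p, map_smul p, map_sub p, (G_aut hp).1, (G_aut hp).2, map_add p,
          G_st hp hx]
      rw [Y_k0_M hb hτ q (G_mem (inv_mem hp) hv), aux _ hq, G_st (inv_mem hp) hv, ← map_sub p⁻¹,
        app_inv, map_smul p]
      rfl
    refine ⟨p * c.Y k0 q * p⁻¹, mul_mem (mul_mem hp (Y_mem hk (Al_fix (hτ _) _))) (inv_mem hp),
      fun m hm => ⟨key q m hm, ?_⟩⟩
    rw [show (p * c.Y k0 q * p⁻¹)⁻¹ = p * (c.Y k0 q)⁻¹ * p⁻¹ by group, Y_inv hk, key _ m hm]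
    simp [stl_apply, hτ]
    module
  · refine ⟨c.Y (Exc.a 5) (t * eps (Exc.a 5) (k0 - Exc.a 5)), Y_mem (R_a h5) (Al_fix (hτ _) _),
      ?_, ?_⟩ <;> rw [Y_mov hm5, hs5, LinearEquiv.mul_apply]
    · rw [X_e_nn (root_a 0) hμ.1 (by rw [ip_x]; decide), X_e_m1 (root_a 5) hμ.1
        (by rw [ip_x]; decide), mul_assoc, eps_cast_mul_self, mul_one, add_sub_cancel]
    · rw [X_e_nn (root_a 0) hk.1 (by rw [ip_x]; decide), X_e_nn (root_a 5) hk.1
        (by rw [ip_x]; decide)]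

theorem QS_struct (hb : c.b = true) (hτ : ∀ t, c.τ t = t) {g : Aut K} (hg : g ∈ c.G)
    (hq : c.QS g) : c.Triv g ∨ ∃ (μ : K) (g' : Aut K), μ ≠ 0 ∧ c.Cj g g' ∧ c.Eqv g' (X (a 1) μ) := by
  obtain ⟨p, hp, m', w', u', H', e'⟩ := exists_MP hg
  have hc : c.Cj g (m' * u') := ⟨p, hp, e'⟩
  have hs' := hc.QS hb hq
  rcases H'.short_struct hb hs' with h1 | ⟨j0, j1, j2, j3, j4, j5⟩
  · exact Or.inl (hc.symm.triv h1)
  right
  obtain ⟨μ, b2, hμ, c2, q2⟩ := FB.struct ⟨hb, hτ, j0, j1, j2, j3, j4, j5⟩ H' hs'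
  have hθ := R6 hb (x := th 6) (by decide)
  have h1 := R6 hb (x := Exc.a 1) (by decide)
  have f1 : sg c.b (Exc.a 1) = Exc.a 1 := by rw [hb]; decide
  obtain ⟨g1, hg1, r, e1⟩ := orb_long h1 f1
  rw [n6_of_b hb] at e1
  have hr : r ≠ 0 := by
    rintro rfl
    have := congrArg (co (Exc.a 1)) e1
    simp [co_e_self h1.1] at this
  have q1 := q2.conj hg1
  rw [conj_X (G_aut hg1) hθ.1 h1.1 (c := r⁻¹) (by rw [e1, smul_smul, inv_mul_cancel₀ hr, one_smul])]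
    at q1
  exact ⟨r⁻¹ * μ, g1 * b2 * g1⁻¹, mul_ne_zero (inv_ne_zero hr) hμ,
    (hc.trans c2).trans ⟨g1, hg1, rfl⟩, q1⟩

theorem not_QS_short (hb : c.b = true) {t : K} (ht : t ≠ 0) : ¬ c.QS (c.Y (a 0) t) := fun hq => by
  have h0 := R6 hb (x := a 0) (by decide)
  have h5 := R6 hb (x := a 5) (by decide)
  have hs : sg c.b (a 0) = a 5 := by rw [hb]; decide
  have hm : sg c.b (a 0) ≠ a 0 := by rw [hb]; decide
  have h := hq _ (orb_short hb h0.neg (by rw [hb]; decide))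
  have hst : c.st (e (-a 0)) = e (-a 5) := by rw [st_e h0.neg.2, sg_neg, hs]
  rw [hst, Y_mov hm, hs, LinearEquiv.mul_apply, map_sub,
    X_e_nn h5.1 h0.neg.1 (by rw [ip_x]; decide), X_e_m2 h5.1, gf_e h0.neg.1, neg_neg] at h
  simp only [map_add, map_sub, map_smul, X_e_m2 h0.1, X_hv h0.1,
    X_e_nn h0.1 h5.neg.1 (by rw [ip_x]; decide), X_e_nn h0.1 h5.1 (by rw [ip_x]; decide),
    show ip (a 5) (a 0) = 0 by rw [ip_x]; decide, co_e_self h0.1, co_hv] at h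
  repeat rw [co_e_ne (by decide)] at h
  simp [ht] at h

theorem poly_short (hb : c.b = true) (hτ : ∀ t, c.τ t = t) {r : K} (hr0 : r ≠ 0) (hr1 : r ≠ 1)
    {α : Exc.Lat} (hα : c.R α) (hs : sg c.b α ≠ α) : ∃ A E : Module.End K (M26 hτ), ∀ (t : K)
      (m : M26 hτ), c.Y α t m = ((1 + t • A + t ^ 2 • E : Module.End K (M26 hτ)) m : L K) := by
  have _ := hb
  have hY := F4a.Y_poly hτ hα hs
  generalize (ad α + ad (sg c.b α) : En K) = A0 at hY
  generalize (ad α * ad (sg c.b α) + (co (-sg c.b α)).smulRight (e (sg c.b α))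
    + (co (-α)).smulRight (e α) : En K) = E0 at hY
  have hr2 : r ^ 2 - r ≠ 0 := by
    rw [show r ^ 2 - r = r * (r - 1) by ring]; exact mul_ne_zero hr0 (sub_ne_zero.2 hr1)
  have hG : ∀ t, ∀ m ∈ M26 hτ, c.Y α t m ∈ M26 hτ := fun t =>
    M26_G hτ _ (Y_mem hα (Al_fix (hτ t) _))
  have hE : ∀ m ∈ M26 hτ, E0 m ∈ M26 hτ := fun m hm => by
    have h1 : (r ^ 2 - r) • E0 m = (c.Y α r m - m) - r • (c.Y α 1 m - m) := by
      rw [hY, hY]; module
    have h2 : (r ^ 2 - r) • E0 m ∈ M26 hτ := by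
      rw [h1]
      exact sub_mem (sub_mem (hG r m hm) hm) ((M26 hτ).smul_mem _ (sub_mem (hG 1 m hm) hm))
    exact ((M26 hτ).smul_mem_iff hr2).1 h2
  have hA : ∀ m ∈ M26 hτ, A0 m ∈ M26 hτ := fun m hm => by
    have h1 : A0 m = c.Y α 1 m - m - E0 m := by rw [hY]; module
    rw [h1]
    exact sub_mem (sub_mem (hG 1 m hm) hm) (hE m hm)
  refine ⟨A0.restrict hA, E0.restrict hE, fun t m => ?_⟩
  rw [hY]
  rfl

theorem poly_long (hb : c.b = true) (hτ : ∀ t, c.τ t = t)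
    {α : Exc.Lat} (hα : c.R α) (hs : sg c.b α = α) : ∃ C : Module.End K (M26 hτ), ∀ (t : K)
      (m : M26 hτ), X α t m = ((1 + t • C : Module.End K (M26 hτ)) m : L K) := by
  have _ := hb
  have h1 : ∀ m ∈ M26 hτ, co (-α) m = 0 := by
    rintro _ ⟨v, _, rfl⟩
    have := co_st hα.neg v
    rw [sg_neg, hs, hτ] at this
    change co (-α) (v - c.st v) = 0
    rw [map_sub, this, sub_self]
  have hX : ∀ t : K, ∀ m ∈ M26 hτ, X α t m = m + t • ad α m := fun t m hm => by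
    rw [X_apply hα.1, h1 m hm, mul_zero, zero_smul, add_zero]
  have hC : ∀ m ∈ M26 hτ, ad α m ∈ M26 hτ := fun m hm => by
    have h2 : ad α m = X α (1 : K) m - m := by rw [hX 1 m hm]; module
    rw [h2]
    exact sub_mem (M26_G hτ _ (Y_fix hs (1 : K) ▸ Y_mem hα (Al_one _)) m hm) hm
  refine ⟨(ad α).restrict hC, fun t m => ?_⟩
  rw [hX t m m.2]
  rfl

end Pool.Agent.MP_db74b1_al.Lt
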