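import Pool.Agent.MP_db74b1_al.LtDefs
import Pool.Agent.Mg.Fdb74b1.G7e4531
import Pool.Agent.Mg.Fdb74b1.G91bbbe
import Pool.Agent.Mg.Fdb74b1.Gb9c26b

section

set_option autoImplicit false

namespace Pool.Agent.MP_db74b1_al.Lt
open Pool.Agent.MP_db74b1_al.Exc

namespace F4m

section abs

variable {K A Γ : Type} [Field K] [Ring A] [Algebra K A] [Group Γ]

/-- Conjugation by `x` moves `P` only by elements of `Q`. -/
def Good (ρ : Γ →* A) (P Q : Submodule K A) (x : Γ) : Prop := ∀ φ ∈ P, ρ x * φ * ρ x⁻¹ - φ ∈ Q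

theorem Good.mul {ρ : Γ →* A} {P Q : Submodule K A} (h : Q ≤ P) {x y : Γ} (hx : Good ρ P Q x)
    (hy : Good ρ P Q y) : Good ρ P Q (x * y) := fun φ hφ => by
  have h1 := hy φ hφ
  have h2 := Q.add_mem (hx _ (by simpa using P.add_mem (h h1) hφ : ρ y * φ * ρ y⁻¹ ∈ P)) h1
  simpa only [sub_add_sub_cancel, mul_inv_rev, map_mul, mul_assoc] using h2

/-- The subgroup of good elements. -/
def St (ρ : Γ →* A) (P Q : Submodule K A) (h : Q ≤ P) : Subgroup Γ where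
  carrier := {x | Good ρ P Q x ∧ Good ρ P Q x⁻¹}
  mul_mem' hx hy := ⟨hx.1.mul h hy.1, by rw [mul_inv_rev]; exact hy.2.mul h hx.2⟩
  one_mem' := ⟨fun φ _ => by simp, fun φ _ => by simp⟩
  inv_mem' hx := ⟨hx.2, by rw [inv_inv]; exact hx.1⟩

theorem exists_St [Finite K] (θ : K →+* K) (h : ∀ t, θ (θ t) = t ^ 2) (hK : 8 < Nat.card K)
    (ρ : Γ →* A) (tr : A →ₗ[K] K) (H : Subgroup Γ) (x y : Γ) (k : K)
    (hk : ∀ p ∈ H, ∀ q ∈ H, tr (ρ (p * x * p⁻¹ * (q * y * q⁻¹))) = k) :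
    ∃ S : Subgroup Γ, (∀ g ∈ S, tr (ρ (x * (g * y * g⁻¹))) = k) ∧ ∀ (u w : K → Γ) (A1 E C : A),
      (∀ t, ρ (u t) = 1 + t • A1 + t ^ 2 • E) → (∀ t, ρ (w t) = 1 + t • C) →
      (∀ t, (u t)⁻¹ = u t) → (∀ t, (w t)⁻¹ = w t) → u 0 = 1 → w 0 = 1 →
      (∀ t, u t * w (θ t) ∈ H) → ∀ s, u s ∈ S ∧ w s ∈ S := by
  let P : Submodule K A := Submodule.span K {φ | ∃ q ∈ H, φ = ρ (q * y * q⁻¹)}
  let Q : Submodule K A := P ⊓ ⨅ p : H,
    LinearMap.ker (tr ∘ₗ LinearMap.mulLeft K (ρ (p.1 * x * p.1⁻¹)))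
  have hQ : ∀ φ, φ ∈ Q ↔ φ ∈ P ∧ ∀ p ∈ H, tr (ρ (p * x * p⁻¹) * φ) = 0 := fun φ => by
    simp only [Q, Submodule.mem_inf, Submodule.mem_iInf, LinearMap.mem_ker, LinearMap.comp_apply,
      LinearMap.mulLeft_apply, Subtype.forall]
  have hH : ∀ g ∈ H, Good ρ P Q g := fun g hg φ hφ => by
    induction hφ using Submodule.span_induction with
    | mem φ hφ =>
      obtain ⟨q, hq, rfl⟩ := hφ
      have e : ρ g * ρ (q * y * q⁻¹) * ρ g⁻¹ = ρ (g * q * y * (g * q)⁻¹) := by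
        rw [← map_mul, ← map_mul]
        congr 1
        group
      rw [e, hQ]
      refine ⟨P.sub_mem (Submodule.subset_span ⟨_, H.mul_mem hg hq, rfl⟩)
        (Submodule.subset_span ⟨_, hq, rfl⟩), fun p hp => ?_⟩
      rw [mul_sub, map_sub, ← map_mul, ← map_mul, hk p hp _ (H.mul_mem hg hq), hk p hp q hq,
        sub_self]
    | zero => simp
    | add φ ψ _ _ h1 h2 =>
      convert Q.add_mem h1 h2 using 1
      rw [mul_add, add_mul]
      abel
    | smul r φ _ h1 =>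
      convert Q.smul_mem r h1 using 1
      rw [mul_smul_comm, smul_mul_assoc, smul_sub]
  refine ⟨St ρ P Q inf_le_left, fun g hg => ?_, fun u w A1 E C hu hw iu iw u0 w0 hm s => ?_⟩
  · have h1 := ((hQ _).1 (hg.1 (ρ y) (Submodule.subset_span ⟨1, H.one_mem, by simp⟩))).2 1 H.one_mem
    have h2 := hk 1 H.one_mem 1 H.one_mem
    simp only [one_mul, inv_one, mul_one, mul_sub, map_sub, ← map_mul] at h1 h2
    rw [← h2]
    exact sub_eq_zero.1 h1
  · have key : ∀ s r, Good ρ P Q (u s * w r) := fun s r φ hφ => by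
      have := sep θ h hK Q φ A1 A1 E E C C (fun t => by
        have := hH _ (hm t) φ hφ
        rwa [mul_inv_rev, iu, iw, map_mul, map_mul, hu, hw] at this) s r
      rwa [mul_inv_rev, iu, iw, map_mul, map_mul, hu, hw]
    have h1 := key s 0
    have h2 := key 0 s
    rw [w0, mul_one] at h1
    rw [u0, one_mul] at h2
    exact ⟨⟨h1, (iu s).symm ▸ h1⟩, h2, (iw s).symm ▸ h2⟩

end abs

variable {K : Type} [Field K]

/-- The configuration of type `F₄`. -/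
def c4 (K : Type) [Field K] : Cfg K := ⟨6, true, RingHom.id K, Or.inr ⟨rfl, rfl, fun _ => rfl⟩⟩

theorem c4τ (t : K) : (c4 K).τ t = t := rfl

/-- A sign. -/
def ε (b : Bool) (x : Exc.Lat) : Exc.Lat := if b then x else -x

theorem sr_eq (b : Bool) (j : Fin 8) : sr b j = ε b (a j) := by
  cases b
  · simp [sr, ε, ← a_eq, Pi.single_neg]
  · simp [sr, ε, ← a_eq]

theorem sg_ε (b : Bool) (x : Exc.Lat) : sg true (ε b x) = ε b (sg true x) := by cases b <;> rfl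

theorem ip_ε (b : Bool) (x y : Exc.Lat) : ip (ε b x) (ε b y) = ip x y := by
  cases b <;> simp [ε, ip_neg_left, ip_neg_right]

theorem w_ε (b : Bool) (w : W) (x : Exc.Lat) : w (ε b x) = ε b (w x) := by cases b <;> simp [ε]

theorem ε_inj {b : Bool} {x y : Exc.Lat} : ε b x = ε b y ↔ x = y := by cases b <;> simp [ε]

theorem ε_neg (b : Bool) (x : Exc.Lat) : ε b (-x) = ε (!b) x := by cases b <;> simp [ε]

theorem R_ε {x : Exc.Lat} (h : (c4 K).R x) (b : Bool) : (c4 K).R (ε b x) := by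
  cases b
  exacts [h.neg, h]

theorem Ra (j : Fin 8) (h : j.1 < 6) (b : Bool) : (c4 K).R (ε b (a j)) := R_ε (Cfg.R_a h) b

theorem fix_ε {x : Exc.Lat} (h : sg true x = x) (b : Bool) : sg (c4 K).b (ε b x) = ε b x :=
  (sg_ε b x).trans (congrArg _ h)

theorem mov_ε {x : Exc.Lat} (h : sg true x ≠ x) (b : Bool) : sg (c4 K).b (ε b x) ≠ ε b x :=
  fun e => h (ε_inj.1 ((sg_ε b x).symm.trans e))

/-- Index of the short simple root. -/
def js (b : Bool) : Fin 8 := if b then 0 else 2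

/-- Index of the long simple root. -/
def jl (b : Bool) : Fin 8 := if b then 1 else 3

theorem js_lt : ∀ b, (js b).1 < 6 := by decide
theorem jl_lt : ∀ b, (jl b).1 < 6 := by decide
theorem js_mov : ∀ b, sg true (a (js b)) ≠ a (js b) := by decide
theorem jl_fix : ∀ b, sg true (a (jl b)) = a (jl b) := by decide

theorem X_xf {α : Exc.Lat} (h : ip α α = 2) (t : K) : ⇑(X α t) = xf α t :=
  funext fun v => (X_xl h t v).trans (xf_eq α t v).symm

theorem s_eq (i : Bool × Bool) (t : K) : ⇑((c4 K).Y (ε i.1 (a (js i.2))) t) = f4s i t := by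
  have hR := Ra (K := K) _ (js_lt i.2) i.1
  rw [Cfg.Y_mov (mov_ε (js_mov _) _)]
  change ⇑(X _ t) ∘ ⇑(X _ t) = _
  rw [X_xf hR.1, X_xf hR.sg.1]
  obtain ⟨b, b'⟩ := i
  change _ ∘ xf (sg true _) t = _
  rw [sg_ε, sg_a]
  cases b' <;> simp only [f4s, sr_eq] <;> rfl

theorem l_eq (i : Bool × Bool) (t : K) : ⇑((c4 K).Y (ε i.1 (a (jl i.2))) t) = f4l i t := by
  rw [Cfg.Y_fix (fix_ε (jl_fix _) _), X_xf (Ra (K := K) _ (jl_lt i.2) i.1).1]
  obtain ⟨b, b'⟩ := i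
  cases b' <;> simp only [f4l, sr_eq] <;> rfl

theorem le_of {S : Subgroup (Aut K)} (hs : ∀ b b' t, (c4 K).Y (ε b (a (js b'))) t ∈ S)
    (hl : ∀ b b' t, (c4 K).Y (ε b (a (jl b'))) t ∈ S) : (c4 K).G ≤ S := by
  have h1 : ∀ b b' t, (c4 K).Y (ε b (a (pm true (js b')))) t ∈ S := fun b b' t => by
    have := Cfg.Y_sg (Ra (K := K) _ (js_lt b') b) (Cfg.Al_fix (c4τ t) _)
    rw [← sg_a, ← sg_ε]
    exact this.symm ▸ hs b b' t
  have h2 : ∀ i : Fin 8, i.1 < 6 → ∃ b, i = js b ∨ i = jl b ∨ i = pm true (js b) := by decide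
  refine G_le_simple fun i hi t _ => ?_
  obtain ⟨b, rfl | rfl | rfl⟩ := h2 i hi
  exacts [⟨hs true b t, hs false b t⟩, ⟨hl true b t, hl false b t⟩, ⟨h1 true b t, h1 false b t⟩]

theorem gen_eq : gen (f4s (K := K)) f4l = (c4 K).G := by
  refine le_antisymm ((Subgroup.closure_le _).2 ?_) (le_of (fun b b' t => ?_) fun b b' t => ?_)
  · rintro g ⟨i, t, e | e⟩
    · rw [← s_eq, DFunLike.coe_fn_eq] at e
      exact e ▸ Cfg.Y_mem (Ra _ (js_lt _) _) (Cfg.Al_fix rfl _)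
    · rw [← l_eq, DFunLike.coe_fn_eq] at e
      exact e ▸ Cfg.Y_mem (Ra _ (jl_lt _) _) (Cfg.Al_fix rfl _)
  · exact Subgroup.subset_closure ⟨(b, b'), t, Or.inl (s_eq (b, b') t)⟩
  · exact Subgroup.subset_closure ⟨(b, b'), t, Or.inr (l_eq (b, b') t)⟩

/-- Root elements as members of the group. -/
noncomputable def yg {α : Exc.Lat} (h : (c4 K).R α) (t : K) : (c4 K).G :=
  ⟨(c4 K).Y α t, Cfg.Y_mem h (Cfg.Al_fix rfl _)⟩

theorem yg_zero {α : Exc.Lat} (h : (c4 K).R α) : yg h 0 = 1 := Subtype.ext (Cfg.Y_zero α)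

theorem yg_inv (h2 : (2 : K) = 0) {α : Exc.Lat} (h : (c4 K).R α) (t : K) : (yg h t)⁻¹ = yg h t :=
  Subtype.ext ((Cfg.Y_inv h t).trans (by
    rw [show -t = t by linear_combination -t * h2]
    rfl))

/-- The action on the 26-dimensional module. -/
noncomputable def rho (K : Type) [Field K] : (c4 K).G →* Module.End K (M26 (c4τ (K := K))) where
  toFun g := g.1.toLinearMap.restrict (M26_G c4τ g.1 g.2)
  map_one' := rfl
  map_mul' _ _ := rfl

theorem TW_rho (g : (c4 K).G) : TW (M26 c4τ) g.1 = LinearMap.trace K _ (rho K g) := by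
  change LinearMap.trace K _ _ = _
  congr 1
  ext1 v
  exact Subtype.ext (prj_apply _ (M26_G c4τ g.1 g.2 v.1 v.2))

theorem move {S : Subgroup (Aut K)} {m : Aut K} {w : W} (hm : (c4 K).Mon m w) (hS : m ∈ S)
    {α : Exc.Lat} (hα : (c4 K).R α) (h : ∀ t, (c4 K).Y α t ∈ S) (t : K) :
    (c4 K).Y (w α) t ∈ S := by
  obtain ⟨s, hs, e⟩ := hm.mono α hα.1
  have := S.mul_mem (S.mul_mem hS (h (s⁻¹ * t))) (S.inv_mem hS)
  rwa [hm.conjY hα e, mul_inv_cancel_left₀ hs] at this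

theorem move' {S : Subgroup (Aut K)} {m : Aut K} {w : W} (hm : (c4 K).Mon m w)
    {α : Exc.Lat} (hα : (c4 K).R α) (h : ∀ t, m * (c4 K).Y α t * m⁻¹ ∈ S) (t : K) :
    (c4 K).Y (w α) t ∈ S := by
  obtain ⟨s, hs, e⟩ := hm.mono α hα.1
  have := h (s⁻¹ * t)
  rwa [hm.conjY hα e, mul_inv_cancel_left₀ hs] at this

theorem comm_of {α β : Exc.Lat} (hα : (c4 K).R α) (hβ : (c4 K).R β) (h1 : sg true α ≠ α)
    (h2 : sg true β = β) (h : 0 ≤ ip α β) (s t : K) :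
    Commute ((c4 K).Y α s) ((c4 K).Y β t) := by
  rw [Cfg.Y_mov h1, Cfg.Y_fix h2]
  refine Commute.mul_left (X_comm hα.1 hβ.1 h _ _) (X_comm hα.sg.1 hβ.1 ?_ _ _)
  rw [(c4 K).ip_sg' hα.2 hβ.2]
  exact h.trans_eq (congrArg _ h2.symm)

theorem NY_one (α : Exc.Lat) :
    (c4 K).NY α 1 = (c4 K).Y α 1 * (c4 K).Y (-α) 1 * (c4 K).Y α 1 := by rw [Cfg.NY, inv_one]

theorem R2 : (c4 K).R (a 2) := Ra 2 (by decide) true

theorem R3 : (c4 K).R (a 3) := Ra 3 (by decide) true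

theorem w32 : (c4 K).wY (a 3) (a 2) = a 2 + a 3 := by
  rw [Cfg.wY_fix R3 (jl_fix false), ip_x]
  decide

theorem w23 : (c4 K).wY (a 2) (a 3) = a 2 + a 3 + a 4 := by
  rw [Cfg.wY_mov R2 (js_mov false), ip_x, ip_x]
  change _ - _ - ipx _ (sg true _) • sg true _ = _
  decide

theorem n2 : (c4 K).Mon ((c4 K).NY (a 2) 1) ((c4 K).wY (a 2)) :=
  Cfg.NY_Mon R2 one_ne_zero (Cfg.Al_one _)

theorem n3 : (c4 K).Mon ((c4 K).NY (a 3) 1) ((c4 K).wY (a 3)) :=
  Cfg.NY_Mon R3 one_ne_zero (Cfg.Al_one _)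

theorem Rbe : (c4 K).R (a 2 + a 3) := w32 (K := K) ▸ n3.R R2

theorem Rga : (c4 K).R (a 2 + a 3 + a 4) := w23 (K := K) ▸ n2.R R3

theorem wbg : (c4 K).wY (a 2 + a 3) (a 2 + a 3 + a 4) = -a 3 := by
  rw [Cfg.wY_mov Rbe (show sg true _ ≠ _ by decide), ip_x, ip_x]
  change _ - _ - ipx _ (sg true _) • sg true _ = _
  decide

theorem wgb : (c4 K).wY (a 2 + a 3 + a 4) (a 2 + a 3) = -sg true (a 2) := by
  rw [Cfg.wY_fix Rga (show sg true _ = _ by decide), ip_x]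
  decide

theorem le_of' {S : Subgroup (Aut K)} (h0 : ∀ b t, (c4 K).Y (ε b (a 0)) t ∈ S)
    (h1 : ∀ b t, (c4 K).Y (ε b (a 1)) t ∈ S) (hb : ∀ b t, (c4 K).Y (ε b (a 2 + a 3)) t ∈ S)
    (hg : ∀ b t, (c4 K).Y (ε b (a 2 + a 3 + a 4)) t ∈ S) : (c4 K).G ≤ S := by
  have m1 : (c4 K).NY (a 2 + a 3) 1 ∈ S :=
    S.mul_mem (S.mul_mem (hb true _) (hb false _)) (hb true _)
  have m2 : (c4 K).NY (a 2 + a 3 + a 4) 1 ∈ S :=
    S.mul_mem (S.mul_mem (hg true _) (hg false _)) (hg true _)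
  refine le_of (fun b b' t => ?_) fun b b' t => ?_
  · cases b'
    · have := move (Cfg.NY_Mon Rga one_ne_zero (Cfg.Al_one _)) m2 (R_ε Rbe !b) (hb !b) t
      rw [w_ε, wgb, ε_neg, Bool.not_not, ← sg_ε] at this
      exact Cfg.Y_sg (Ra (K := K) 2 (by decide) b) (Cfg.Al_fix (c4τ t) _) ▸ this
    · exact h0 b t
  · cases b'
    · have := move (Cfg.NY_Mon Rbe one_ne_zero (Cfg.Al_one _)) m1 (R_ε Rga !b) (hg !b) t
      rwa [w_ε, wbg, ε_neg, Bool.not_not] at this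
    · exact h1 b t

theorem main [Finite K] (θ : K →+* K) (h : ∀ t, θ (θ t) = t ^ 2) (hK : 8 < Nat.card K)
    (σ : (c4 K).G →* (c4 K).G) (hσ : ∀ g, σ (σ g) = g)
    (hs : ∀ (g : (c4 K).G) i t, ⇑g.1 = f4s i t → ⇑(σ g).1 = f4l i (θ t)) :
    AH (σ.eqLocus (MonoidHom.id _)) := by
  have h2 : (2 : K) = 0 := by
    have := h 2
    rw [map_ofNat, map_ofNat] at this
    linear_combination -this
  obtain ⟨r, hr0, hr1⟩ : ∃ r : K, r ≠ 0 ∧ r ≠ 1 := by
    classical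
    have := Fintype.ofFinite K
    obtain ⟨r, -, hr⟩ := Finset.exists_mem_notMem_of_card_lt_card (s := ({0, 1} : Finset K))
      (t := Finset.univ) (by
        rw [Finset.card_univ, ← Nat.card_eq_fintype_card]
        exact Finset.card_le_two.trans_lt (by omega))
    exact ⟨r, by simpa using hr⟩
  have sl : ∀ b b' t, σ (yg (Ra _ (js_lt b') b) t) = yg (Ra _ (jl_lt b') b) (θ t) := fun b b' t =>
    Subtype.ext (DFunLike.coe_injective
      ((hs _ (b, b') t (s_eq (b, b') t)).trans (l_eq (b, b') _).symm))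
  have ls : ∀ b b' t, σ (yg (Ra _ (jl_lt b') b) (θ t)) = yg (Ra _ (js_lt b') b) t :=
    fun b b' t => by rw [← sl, hσ]
  have fin : ∀ x : (c4 K).G, σ x = x → (c4 K).QS x.1 → x = 1 := fun x hx hq => by
    rcases QS_struct rfl c4τ x.2 hq with h3 | ⟨μ, g', hμ, ⟨p, hp, rfl⟩, h3⟩
    · exact Subtype.ext (triv_eq_one rfl c4τ h2 x.2 h3)
    obtain ⟨t, rfl⟩ := Finite.surjective_of_injective θ.injective μ
    have e1 : (yg (Ra _ (jl_lt true) true) (θ t)).1 = X (a 1) (θ t) :=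
      Cfg.Y_fix (c := c4 K) (jl_fix true) _
    have e2 : (⟨p, hp⟩ * x * ⟨p, hp⟩⁻¹ : (c4 K).G) = yg (Ra _ (jl_lt true) true) (θ t) := by
      rw [← inv_mul_eq_one]
      refine Subtype.ext (triv_eq_one rfl c4τ h2 (Subtype.prop _) fun v hv => ?_)
      have := h3 v hv
      rw [← e1] at this
      exact (congrArg _ this.symm).trans (inv_app _ v)
    have e3 := congrArg σ e2
    rw [map_mul, map_mul, map_inv, hx, ls] at e3
    exact absurd (Cfg.Cj.QS rfl ⟨_, (σ ⟨p, hp⟩).2, congrArg Subtype.val e3⟩ hq)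
      (not_QS_short rfl fun e => hμ (by rw [e, map_zero]))
  intro x y z hx hy hE
  have hk : ∀ p ∈ σ.eqLocus (MonoidHom.id _), ∀ q ∈ σ.eqLocus (MonoidHom.id _),
      LinearMap.trace K _ (rho K (p * x.1 * p⁻¹ * (q * y.1 * q⁻¹))) =
        LinearMap.trace K _ (rho K z.1) := fun p hp q hq => by
    obtain ⟨g, hg⟩ := isConj_iff.1 ((Set.ext_iff.1 hE _).1 ⟨_, _,
      isConj_iff.2 ⟨⟨p, hp⟩, rfl⟩, isConj_iff.2 ⟨⟨q, hq⟩, rfl⟩, rfl⟩)
    have e : g.1 * z.1 * g.1⁻¹ = p * x.1 * p⁻¹ * (q * y.1 * q⁻¹) := congrArg Subtype.val hg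
    rw [← e, map_mul, LinearMap.trace_mul_comm, ← map_mul, inv_mul_cancel_left]
  obtain ⟨S, hS, hf⟩ := exists_St (A := Module.End K (M26 (c4τ (K := K)))) θ h hK (rho K)
    (LinearMap.trace K _) _ x.1 y.1 _ hk
  have fam : ∀ b b' (m m' : (c4 K).G), σ m = m' → (∀ s t, Commute
      (m * yg (Ra _ (js_lt b') b) s * m⁻¹) (m' * yg (Ra _ (jl_lt b') b) t * m'⁻¹)) → ∀ s,
      m * yg (Ra _ (js_lt b') b) s * m⁻¹ ∈ S ∧ m' * yg (Ra _ (jl_lt b') b) s * m'⁻¹ ∈ S := by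
    intro b b' m m' e hc
    obtain ⟨A1, E, h3⟩ := poly_short rfl c4τ hr0 hr1 (Ra (K := K) _ (js_lt b') b)
      (mov_ε (js_mov _) _)
    obtain ⟨C, h4⟩ := poly_long rfl c4τ (Ra (K := K) _ (jl_lt b') b) (fix_ε (jl_fix _) _)
    have h5 : ∀ t, rho K (yg (Ra _ (js_lt b') b) t) = 1 + t • A1 + t ^ 2 • E := fun t =>
      LinearMap.ext fun v => Subtype.ext (h3 t v)
    have h6 : ∀ t, rho K (yg (Ra _ (jl_lt b') b) t) = 1 + t • C := fun t =>
      LinearMap.ext fun v => Subtype.ext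
        ((congrArg (fun g : Aut K => g v.1) (Cfg.Y_fix (fix_ε (jl_fix _) _) t)).trans (h4 t v))
    have h7 : ∀ g, rho K g * rho K g⁻¹ = 1 := fun g => by rw [← map_mul, mul_inv_cancel, map_one]
    refine hf _ _ (rho K m * A1 * rho K m⁻¹) (rho K m * E * rho K m⁻¹) (rho K m' * C * rho K m'⁻¹)
      (fun t => ?_) (fun t => ?_) (fun t => ?_) (fun t => ?_) (by simp [yg_zero])
      (by simp [yg_zero]) fun t => ?_
    · simp only [map_mul, h5, mul_add, add_mul, mul_one, h7, mul_smul_comm, smul_mul_assoc]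
    · simp only [map_mul, h6, mul_add, add_mul, mul_one, h7, mul_smul_comm, smul_mul_assoc]
    · simp only [mul_inv_rev, inv_inv, yg_inv h2, mul_assoc]
    · simp only [mul_inv_rev, inv_inv, yg_inv h2, mul_assoc]
    · have e' : σ m' = m := by rw [← e, hσ]
      change σ _ = _
      simp only [map_mul, map_inv, e, e', sl, ls]
      exact (hc _ _).symm
  have f1 := fun b => fam b true 1 1 (map_one σ) fun s t => by
    simp only [one_mul, inv_one, mul_one]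
    exact Subtype.ext (comm_of (Ra _ (js_lt true) b) (Ra _ (jl_lt true) b)
      (mov_ε (K := K) (js_mov _) _) (fix_ε (K := K) (jl_fix _) _)
      (by rw [ip_ε, ip_x]; decide) s t)
  have e23 : σ ⟨_, n3.mem⟩ = ⟨_, n2.mem⟩ := by
    have e1 := ls true false 1
    have e2 := ls false false 1
    rw [map_one] at e1 e2
    have e3 : (⟨_, n3.mem⟩ : (c4 K).G) = yg (Ra _ (jl_lt false) true) 1 *
        yg (Ra _ (jl_lt false) false) 1 * yg (Ra _ (jl_lt false) true) 1 :=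
      Subtype.ext (NY_one _)
    rw [e3, map_mul, map_mul, e1, e2]
    exact Subtype.ext (NY_one _).symm
  have f2 := fun b => fam b false _ _ e23 fun s t => by
    obtain ⟨s1, -, e1⟩ := (n3 (K := K)).mono _ (Ra (K := K) 2 (by decide) b).1
    obtain ⟨s2, -, e2⟩ := (n2 (K := K)).mono _ (Ra (K := K) 3 (by decide) b).1
    have e3 := n3.conjY (Ra 2 (by decide) b) e1 s
    have e4 := n2.conjY (Ra 3 (by decide) b) e2 t
    rw [w_ε, w32] at e3
    rw [w_ε, w23] at e4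
    have := comm_of (R_ε Rbe b) (R_ε Rga b) (mov_ε (K := K) (by decide) _)
      (fix_ε (K := K) (by decide) _) (by rw [ip_ε, ip_x]; decide) (s1 * s) (s2 * t)
    rw [← e3, ← e4] at this
    exact Subtype.ext this
  have top : (c4 K).G ≤ S.map (c4 K).G.subtype := by
    refine le_of' (fun b t => ⟨_, (f1 b t).1, by simp; rfl⟩)
      (fun b t => ⟨_, (f1 b t).2, by simp; rfl⟩) (fun b t => ?_) fun b t => ?_
    · have := move' (S := S.map (c4 K).G.subtype) n3 (Ra 2 (by decide) b)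
        (fun t => ⟨_, (f2 b t).1, rfl⟩) t
      rwa [w_ε, w32] at this
    · have := move' (S := S.map (c4 K).G.subtype) n2 (Ra 3 (by decide) b)
        (fun t => ⟨_, (f2 b t).2, rfl⟩) t
      rwa [w_ε, w23] at this
  rcases short_TC rfl c4τ x.1.2 y.1.2 hr0 hr1 (LinearMap.trace K _ (rho K z.1)) (by
    rintro _ _ ⟨p, hp, rfl⟩ ⟨q, hq, rfl⟩
    obtain ⟨g, hg, e⟩ := top (mul_mem (inv_mem hp) hq)
    have e' : g = (⟨p, hp⟩ : (c4 K).G)⁻¹ * ⟨q, hq⟩ := Subtype.ext e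
    have e1 := TW_rho (⟨p, hp⟩ * (x.1 * (g * y.1 * g⁻¹)) * (⟨p, hp⟩ : (c4 K).G)⁻¹)
    rw [map_mul, LinearMap.trace_mul_comm, ← map_mul, inv_mul_cancel_left, hS g hg] at e1
    rw [← e1, e']
    congr 2
    simp only [Subgroup.coe_mul, Subgroup.coe_inv]
    group) with h3 | h3
  · exact hx (Subtype.ext (fin _ x.2 h3))
  · exact hy (Subtype.ext (fin _ y.2 h3))

end F4m

theorem f4_AH {K : Type} [Field K] [Finite K] (θ : K →+* K) (h : ∀ t, θ (θ t) = t ^ 2)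
    (hK : 8 < Nat.card K) (G : Type) [Group G] (hG : IsSR G (f4s (K := K)) f4l θ) : AH G := by
  rw [IsSR, F4m.gen_eq] at hG
  obtain ⟨σ, h1, h2, ⟨e⟩⟩ := hG
  exact AH_congr e.symm (F4m.main θ h hK σ h1 h2)

end Pool.Agent.MP_db74b1_al.Lt

end

section

set_option autoImplicit false

namespace Pool.Agent.MP_db74b1_al.Lt
open Pool.Agent.MP_db74b1_al.Exc

namespace F8
open F4m S8 F4b

section abs

variable {K A Γ : Type} [Field K] [Ring A] [Algebra K A] [Group Γ]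

theorem exists_PQ (ρ : Γ →* A) (tr : A →ₗ[K] K) (H : Subgroup Γ) (x y : Γ) (k : K)
    (hk : ∀ p ∈ H, ∀ q ∈ H, tr (ρ (p * x * p⁻¹ * (q * y * q⁻¹))) = k) :
    ∃ (P Q : Submodule K A) (hQ : Q ≤ P), H ≤ St ρ P Q hQ ∧
      ∀ g ∈ St ρ P Q hQ, tr (ρ (x * (g * y * g⁻¹))) = k := by
  let P : Submodule K A := Submodule.span K {φ | ∃ q ∈ H, φ = ρ (q * y * q⁻¹)}
  let Q : Submodule K A := P ⊓ ⨅ p : H,
    LinearMap.ker (tr ∘ₗ LinearMap.mulLeft K (ρ (p.1 * x * p.1⁻¹)))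
  have hQ : ∀ φ, φ ∈ Q ↔ φ ∈ P ∧ ∀ p ∈ H, tr (ρ (p * x * p⁻¹) * φ) = 0 := fun φ => by
    simp only [Q, Submodule.mem_inf, Submodule.mem_iInf, LinearMap.mem_ker, LinearMap.comp_apply,
      LinearMap.mulLeft_apply, Subtype.forall]
  have hH : ∀ g ∈ H, Good ρ P Q g := fun g hg φ hφ => by
    induction hφ using Submodule.span_induction with
    | mem φ hφ =>
      obtain ⟨q, hq, rfl⟩ := hφ
      have e : ρ g * ρ (q * y * q⁻¹) * ρ g⁻¹ = ρ (g * q * y * (g * q)⁻¹) := by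
        rw [← map_mul, ← map_mul]
        congr 1
        group
      rw [e, hQ]
      refine ⟨P.sub_mem (Submodule.subset_span ⟨_, H.mul_mem hg hq, rfl⟩)
        (Submodule.subset_span ⟨_, hq, rfl⟩), fun p hp => ?_⟩
      rw [mul_sub, map_sub, ← map_mul, ← map_mul, hk p hp _ (H.mul_mem hg hq), hk p hp q hq,
        sub_self]
    | zero => simp
    | add φ ψ _ _ h1 h2 =>
      convert Q.add_mem h1 h2 using 1
      rw [mul_add, add_mul]
      abel
    | smul r φ _ h1 =>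
      convert Q.smul_mem r h1 using 1
      rw [mul_smul_comm, smul_mul_assoc, smul_sub]
  refine ⟨P, Q, inf_le_left, fun g hg => ⟨hH g hg, hH _ (H.inv_mem hg)⟩, fun g hg => ?_⟩
  have h1 := ((hQ _).1 (hg.1 (ρ y) (Submodule.subset_span ⟨1, H.one_mem, by simp⟩))).2 1 H.one_mem
  have h2 := hk 1 H.one_mem 1 H.one_mem
  simp only [one_mul, inv_one, mul_one, mul_sub, map_sub, ← map_mul] at h1 h2
  rw [← h2]
  exact sub_eq_zero.1 h1

theorem Ad_conj {ρ : Γ →* A} {P Q : Submodule K A} {hQ : Q ≤ P} {g : Γ} (hg : g ∈ St ρ P Q hQ)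
    {D : A} (h : Ad P Q D) : Ad P Q (ρ g * D * ρ g⁻¹) := fun φ hφ => by
  have h1 : ρ g⁻¹ * φ * ρ g ∈ P := by simpa using P.add_mem (hQ (hg.2 φ hφ)) hφ
  have h2 := h _ h1
  have h3 := Q.add_mem (hg.1 _ (hQ h2)) h2
  rw [sub_add_cancel] at h3
  have e : ρ g * ρ g⁻¹ = 1 := by rw [← map_mul, mul_inv_cancel, map_one]
  convert h3 using 1
  simp only [mul_add, add_mul, mul_assoc, e, mul_one]
  rw [← mul_assoc (ρ g) (ρ g⁻¹), e, one_mul]

end abs

variable {K : Type} [Field K]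

/-- The 26-dimensional module. -/
noncomputable abbrev M (K : Type) [Field K] : Submodule K (L K) := M26 (c4τ (K := K))

/-- Compression of an operator to the module. -/
noncomputable def res (D : En K) : Module.End K (M K) := prj _ ∘ₗ D ∘ₗ (M K).subtype

theorem res_app {D : En K} {m : M K} (h : D m ∈ M K) : (res D m : L K) = D m := prj_apply _ h

/-- Long roots. -/
def Lo (l : Exc.Lat) : Prop := ipx l l = 2 ∧ Sp 6 l ∧ sg true l = l

/-- Short roots. -/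
def Sh (s : Exc.Lat) : Prop := ipx s s = 2 ∧ Sp 6 s ∧ sg true s ≠ s

instance (l : Exc.Lat) : Decidable (Lo l) := by unfold Lo; infer_instance

instance (s : Exc.Lat) : Decidable (Sh s) := by unfold Sh; infer_instance

theorem Lo.R {l : Exc.Lat} (h : Lo l) : (c4 K).R l := ⟨rt h.1, h.2.1⟩

theorem Sh.R {s : Exc.Lat} (h : Sh s) : (c4 K).R s := ⟨rt h.1, h.2.1⟩

/-- Long root operator. -/
noncomputable def Cc (K : Type) [Field K] (l : Exc.Lat) : Module.End K (M K) := res (ad l)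

/-- Short root operator, linear term. -/
noncomputable def Aa (K : Type) [Field K] (s : Exc.Lat) : Module.End K (M K) :=
  res (ad s + ad (sg true s))

/-- Short root operator, quadratic term. -/
noncomputable def Ee (K : Type) [Field K] (s : Exc.Lat) : Module.End K (M K) :=
  res ((co (-s)).smulRight (e s + e (sg true s)))

theorem Cc_app {l : Exc.Lat} (h : Lo l) (m : M K) : (Cc K l m : L K) = ad l m := res_app (by
  obtain ⟨_, v, hv, rfl⟩ := m
  refine ⟨ad l v, Cfg.ad_mem h.R hv, ?_⟩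
  change ad l v - (c4 K).st (ad l v) = ad l (v - (c4 K).st v)
  rw [Cfg.st_ad h.R hv, map_sub]
  exact congrArg (fun x => ad l v - ad x ((c4 K).st v)) h.2.2)

theorem Aa_app {s : Exc.Lat} (h : Sh s) (m : M K) :
    (Aa K s m : L K) = ad s m + ad (sg true s) m := res_app (by
  obtain ⟨_, v, hv, rfl⟩ := m
  refine ⟨ad s v + ad (sg true s) v,
    add_mem (Cfg.ad_mem h.R hv) (Cfg.ad_mem (h.R (K := K)).sg hv), ?_⟩
  have e1 : (c4 K).st (ad s v) = ad (sg true s) ((c4 K).st v) := Cfg.st_ad h.R hv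
  have e2 : (c4 K).st (ad (sg true s) v) = ad (sg true (sg true s)) ((c4 K).st v) :=
    Cfg.st_ad (h.R (K := K)).sg hv
  change ad s v + ad (sg true s) v - (c4 K).st (ad s v + ad (sg true s) v) =
    ad s (v - (c4 K).st v) + ad (sg true s) (v - (c4 K).st v)
  rw [map_add, e1, e2, sg_sg, map_sub, map_sub]
  abel)

theorem Ee_app (h2 : (2 : K) = 0) {s : Exc.Lat} (h : Sh s) (m : M K) :
    (Ee K s m : L K) = co (-s) (m : L K) • (e s + e (sg true s)) := res_app (by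
  refine (M K).smul_mem _ ⟨e s, Cfg.e_mem h.2.1, ?_⟩
  have e1 : (c4 K).st (e s) = e (sg true s) := Cfg.st_e h.2.1
  change e s - (c4 K).st _ = _
  rw [e1]
  linear_combination (norm := module) -add_self2 h2 (e (sg true s) : L K))

theorem co_M {s : Exc.Lat} (h : (c4 K).R s) (m : M K) :
    co (-sg true s) (m : L K) = -co (-s) (m : L K) := by
  obtain ⟨_, v, hv, rfl⟩ := m
  have e1 : co (-sg true s) ((c4 K).st v) = co (-s) v := Cfg.co_st h.neg v
  have e2 : co (sg true (sg true (-s))) ((c4 K).st v) = co (-sg true s) v := Cfg.co_st h.neg.sg v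
  rw [sg_sg] at e2
  change co _ (v - (c4 K).st v) = -co _ (v - (c4 K).st v)
  rw [map_sub, map_sub, e1, e2, neg_sub]

theorem ad_ad_M {s : Exc.Lat} (hs : Sh s) (m : M K) : ad s (ad (sg true s) (m : L K)) = 0 := by
  obtain ⟨_, v, hv', rfl⟩ := m
  have hk := hs.R (K := K)
  have hk' : ip (sg true s) (sg true s) = 2 := hk.sg.1
  have h0 : ip s (sg true s) = 0 := hk.orth hs.2.2
  have key : ∀ β, (c4 K).R β → sg true β ≠ β → ad s (ad (sg true s) (e β : L K)) = 0 := by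
    intro β hβ hm
    rcases ip_cases hk' hβ.1 with rfl | h | h
    · rw [ad_e_m2 hk', map_neg, ad_hv, ip_comm, h0]; simp
    · rw [ad_e_m1 hk' hβ.1 h, map_smul, ad_e_nn hk.1 ((root_add hk' hβ.1).2 h), smul_zero]
      rw [ip_add_right, h0, zero_add]
      rcases ip_cases hk.1 hβ.1 with rfl | h1 | h1
      · rw [ip_neg_right, ip_comm, h0] at h; omega
      · exfalso
        have r := (root_add hk.1 hβ.1).2 h1
        have r' : ip (sg true (s + β)) (sg true (s + β)) = 2 :=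
          ((c4 K).ip_sg (hk.2.add hβ.2) (hk.2.add hβ.2)).trans r
        have i1 : ip β (sg true β) = 0 := hβ.orth hm
        have i2 : ip (sg true s) β = ip s (sg true β) := (c4 K).ip_sg' hk.2 hβ.2
        have z : s + β + sg true (s + β) = 0 := by
          apply ip_self_eq_zero
          rw [norm_add, r, r', sg_add, ip_add_left, ip_add_right, ip_add_right, h0, i1, ← i2,
            ip_comm β, h]
          rfl
        have z' := congrArg ht z
        rw [ht_add, ht_sg, ht_zero] at z'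
        have := root_ht_pos r (pos_of_ht r (by omega))
        omega
      · exact h1
    · rw [ad_e_nn hk' hβ.1 h, map_zero]
  refine Cfg.V_ind (P := fun v => ad s (ad (sg true s) (v - (c4 K).st v)) = 0)
    (fun v w _ _ h1 h2 => ?_) (fun r v _ h1 => ?_) (fun i _ => ?_) (fun β hβ => ?_) hv'
  · rw [map_add, add_sub_add_comm, map_add, map_add, h1, h2, add_zero]
  · rw [map_smulₛₗ, c4τ, ← smul_sub, map_smul, map_smul, h1, smul_zero]
  · rw [Cfg.st_hv, ← hv_sub, ad_hv, map_smul, ad_e_nn hk.1 hk' h0.ge, smul_zero]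
  · have e1 : (c4 K).st (e β) = e (sg true β) := Cfg.st_e hβ.2
    rw [e1]
    by_cases h : sg true β = β
    · simp [h]
    · rw [map_sub, map_sub, key β hβ h, key (sg true β) hβ.sg (by rw [sg_sg]; exact Ne.symm h),
        sub_zero]

theorem rho_l {l : Exc.Lat} (h : Lo l) (t : K) :
    rho K (yg h.R t) = 1 + t • Cc K l := by
  ext1 m
  apply Subtype.ext
  have h3 : co (-l) (m : L K) = 0 := by
    obtain ⟨_, v, _, rfl⟩ := m
    have : co (-sg true l) ((c4 K).st v) = co (-l) v := Cfg.co_st (h.R (K := K)).neg v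
    rw [h.2.2] at this
    change co (-l) (v - (c4 K).st v) = 0
    rw [map_sub, this, sub_self]
  change (c4 K).Y l t m = m + t • (Cc K l m : L K)
  rw [Cfg.Y_fix h.2.2, X_apply (rt h.1), h3, Cc_app h, mul_zero, zero_smul, add_zero]

theorem rho_s (h2 : (2 : K) = 0) {s : Exc.Lat} (h : Sh s) (t : K) :
    rho K (yg h.R t) = 1 + t • Aa K s + t ^ 2 • Ee K s := by
  ext1 m
  apply Subtype.ext
  change (c4 K).Y s t m = m + t • (Aa K s m : L K) + t ^ 2 • (Ee K s m : L K)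
  rw [F4a.Y_poly c4τ h.R h.2.2, Aa_app h, Ee_app h2 h]
  change _ + t • (ad s (m : L K) + ad (sg true s) m) + t ^ 2 • (ad s (ad (sg true s) (m : L K)) +
    co (-sg true s) (m : L K) • e (sg true s) + co (-s) (m : L K) • e s) = _
  rw [ad_ad_M h, co_M h.R]
  linear_combination (norm := module)
    -add_self2 h2 ((t ^ 2 * co (-s) (m : L K)) • (e (sg true s) : L K))

theorem jac1 (h2 : (2 : K) = 0) {α β : Exc.Lat} (hα : ip α α = 2) (hβ : ip β β = 2)
    (h : ip α β = -1) (v : L K) : ad α (ad β v) + ad β (ad α v) = ad (α + β) v := by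
  have := jac_ee hα hβ v
  rw [ad_e_m1 hα hβ h, eps2 h2, one_smul, br_e ((root_add hα hβ).2 h)] at this
  linear_combination (norm := module) this + add_self2 h2 (ad β (ad α v))

theorem CC1 (h2 : (2 : K) = 0) {l l' : Exc.Lat} (h : Lo l) (h' : Lo l') (h'' : Lo (l + l'))
    (i : ipx l l' = -1) : Cc K l * Cc K l' + Cc K l' * Cc K l = Cc K (l + l') := by
  ext1 m
  apply Subtype.ext
  change (Cc K l (Cc K l' m) : L K) + Cc K l' (Cc K l m) = _
  simp only [Cc_app h, Cc_app h', Cc_app h'']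
  exact jac1 h2 (rt h.1) (rt h'.1) ((ip_x _ _).trans i) _

theorem CC0 {l l' : Exc.Lat} (h : Lo l) (h' : Lo l') (i : 0 ≤ ipx l l') :
    Cc K l * Cc K l' = Cc K l' * Cc K l := by
  ext1 m
  apply Subtype.ext
  change (Cc K l (Cc K l' m) : L K) = Cc K l' (Cc K l m)
  simp only [Cc_app h, Cc_app h']
  have := jac_ee (rt h.1) (rt h'.1) (m : L K)
  rwa [ad_e_nn (rt h.1) (rt h'.1) (ip_x l l' ▸ i), map_zero, LinearMap.zero_apply, sub_eq_zero]
    at this

theorem ip_ls {l s : Exc.Lat} (h : Lo l) (h' : Sh s) : ip l (sg true s) = ipx l s := by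
  rw [← ip_x, ← (c4 ℚ).ip_sg h.2.1 h'.2.1]
  exact congrArg (ip · _) h.2.2.symm

theorem CA1 (h2 : (2 : K) = 0) {l s : Exc.Lat} (h : Lo l) (h' : Sh s) (h'' : Sh (l + s))
    (i : ipx l s = -1) : Cc K l * Aa K s + Aa K s * Cc K l = Aa K (l + s) := by
  ext1 m
  apply Subtype.ext
  change (Cc K l (Aa K s m) : L K) + Aa K s (Cc K l m) = _
  simp only [Cc_app h, Aa_app h', Aa_app h'', map_add]
  rw [sg_add, h.2.2, ← jac1 h2 (rt h.1) (rt h'.1) ((ip_x _ _).trans i),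
    ← jac1 h2 (β := sg true s) (rt h.1) (h'.R (K := K)).sg.1 ((ip_ls h h').trans i)]
  abel

theorem EC0 (h2 : (2 : K) = 0) {l s : Exc.Lat} (h : Lo l) (h' : Sh s) (i : 0 ≤ ipx l s) :
    Ee K s * Cc K l = 0 ∧ Cc K l * Ee K s = 0 := by
  constructor <;> ext1 m <;> apply Subtype.ext
  · change (Ee K s (Cc K l m) : L K) = 0
    have hne : -s ≠ l := fun e => h'.2.2 (neg_inj.1 (by rw [← sg_neg, e, h.2.2]))
    rw [Ee_app h2 h', Cc_app h, co_ad, if_neg hne, co_of_not (β := -s - l), mul_zero, ite_self,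
      zero_smul]
    rw [norm_sub, norm_neg, ip_neg_left, ip_comm s l, rt h.1, rt h'.1, ip_x]
    omega
  · change (Cc K l (Ee K s m) : L K) = 0
    have i' : ip (sg true s) (sg true s) = 2 := (h'.R (K := K)).sg.1
    rw [Cc_app h, Ee_app h2 h', map_smul, map_add, ad_e_nn (rt h.1) (rt h'.1) (ip_x l s ▸ i),
      ad_e_nn (rt h.1) i' (ip_ls h h' ▸ i), add_zero, smul_zero]

theorem EE0 (h2 : (2 : K) = 0) {s s' : Exc.Lat} (h : Sh s) (h' : Sh s') (i : -s ≠ s')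
    (i' : -s ≠ sg true s') : Ee K s * Ee K s' = 0 := by
  ext1 m
  apply Subtype.ext
  change (Ee K s (Ee K s' m) : L K) = 0
  rw [Ee_app h2 h, Ee_app h2 h', map_smul, map_add, co_e_ne i, co_e_ne i', add_zero, smul_zero,
    zero_smul]

theorem N1_m1 (h2 : (2 : K) = 0) {α β : Exc.Lat} (hα : ip α α = 2) (hβ : ip β β = 2)
    (h : ip α β = -1) : N1 α (1 : K) (e β) = e (α + β) := by
  obtain ⟨s, -, h1⟩ := N1_e (K := K) hα hβ one_ne_zero
  have h3 := N1_one (K := K) hα (root_neg hβ) (by rw [ip_neg_right, h]; rfl) one_ne_zero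
  rw [rf_apply hα, ip_comm, h, show β - (-1 : ℤ) • α = α + β by module] at h1
  have := aut_neg (mul_mem (mul_mem (X_aut _ _) (X_aut _ _)) (X_aut _ _)) hβ
    ((root_add hα hβ).2 h) h1 h3
  rw [eps2 h2, inv_one, mul_one, mul_one] at this
  rw [h1, this, one_smul]

theorem braid (h2 : (2 : K) = 0) {α β : Exc.Lat} (hα : ip α α = 2) (hβ : ip β β = 2)
    (h : ip α β = -1) : N1 α (1 : K) * N1 β 1 * N1 α 1 = N1 β 1 * N1 α 1 * N1 β 1 := by
  have h' : ip β α = -1 := by rw [ip_comm, h]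
  have au : ∀ γ, N1 γ (1 : K) ∈ AutG K := fun γ =>
    mul_mem (mul_mem (X_aut _ _) (X_aut _ _)) (X_aut _ _)
  have r := (root_add hβ hα).2 h'
  have e1 : (N1 α (1 : K) * N1 β (1 : K)) (e α) = (1 : K) • e β := by
    rw [LinearEquiv.mul_apply, N1_m1 h2 hβ hα h', N1_one hα r (by rw [ip_add_right]; omega)
      one_ne_zero, eps2 h2, inv_one, mul_one, add_sub_cancel_right]
  have e2 : (N1 α (1 : K) * N1 β (1 : K)) (e (-α)) = (1 : K) • e (-β) := by
    rw [LinearEquiv.mul_apply, N1_one hβ (root_neg hα) (by rw [ip_neg_right]; omega) one_ne_zero,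
      eps2 h2, inv_one, mul_one, map_smul, show -α - β = -(β + α) by abel,
      N1_m1 h2 hα (root_neg r) (by rw [ip_neg_right, ip_add_right]; omega),
      show α + -(β + α) = -β by abel]
  have c1 := conj_X (mul_mem (au α) (au β)) hα hβ e1 1
  have c2 := conj_X (mul_mem (au α) (au β)) (root_neg hα) (root_neg hβ) e2 1⁻¹
  rw [one_mul] at c1 c2
  rw [mul_assoc (N1 β 1)]
  generalize N1 α (1 : K) * N1 β (1 : K) = g at c1 c2 ⊢
  rw [N1, N1, ← c1, ← c2]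
  group

theorem braid4 (h2 : (2 : K) = 0) : (c4 K).NY (a 3) 1 * (c4 K).NY (a 2) 1 * (c4 K).NY (a 3) 1 *
    (c4 K).NY (a 2) 1 = (c4 K).NY (a 2) 1 * (c4 K).NY (a 3) 1 * (c4 K).NY (a 2) 1 *
      (c4 K).NY (a 3) 1 := by
  have e4 : sg (c4 K).b (a 2) = a 4 := sg_a true 2
  rw [Cfg.NY_fix (jl_fix false), Cfg.NY_mov R2 (js_mov false), e4, c4τ]
  have b1 := braid h2 (root_a 2) (root_a 3) (by rw [ip_x]; decide)
  have b2 := braid h2 (root_a 4) (root_a 3) (by rw [ip_x]; decide)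
  have cm : ∀ b b' (s t : K), Commute (X (ε b (a 2)) s) (X (ε b' (a 4)) t) := fun b b' =>
    X_comm (Ra (K := K) 2 (by decide) b).1 (Ra (K := K) 4 (by decide) b').1
      (by rw [ip_x]; revert b b'; decide)
  have cn : ∀ b s, Commute (X (ε b (a 2)) s) (N1 (a 4) (1 : K)) := fun b s =>
    ((cm b true _ _).mul_right (cm b false _ _)).mul_right (cm b true _ _)
  have b3 : N1 (a 2) (1 : K) * N1 (a 4) 1 = N1 (a 4) 1 * N1 (a 2) 1 :=
    ((cn true _).mul_left (cn false _)).mul_left (cn true _)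
  change N1 (a 3) 1 * _ * N1 (a 3) 1 * _ = _ * N1 (a 3) 1 * _ * N1 (a 3) 1
  generalize N1 (a 2) (1 : K) = x at *
  generalize N1 (a 3) (1 : K) = y at *
  generalize N1 (a 4) (1 : K) = z at *
  calc y * (x * z) * y * (x * z) = y * x * z * y * (x * z) := by group
    _ = y * x * (z * y * z) * x := by rw [b3]; group
    _ = (y * x * y) * z * y * x := by rw [b2]; group
    _ = x * y * (x * z) * y * x := by rw [← b1]; group
    _ = x * y * z * (x * y * x) := by rw [b3]; group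
    _ = x * (y * z * y) * x * y := by rw [b1]; group
    _ = x * z * y * (z * x) * y := by rw [← b2]; group
    _ = _ := by rw [← b3]

end F8

end Pool.Agent.MP_db74b1_al.Lt

end

section

set_option autoImplicit false

namespace Pool.Agent.MP_db74b1_al.Lt
open Pool.Agent.MP_db74b1_al.Exc

namespace F8
open F4m S8 F4b

variable {K : Type} [Field K]

theorem conj_lin {A Γ : Type} [Ring A] [Algebra K A] [Group Γ] (ρ : Γ →* A) {g u u' : Γ} {C C' : A}
    {c : K} (h1 : ρ u = 1 + (1 : K) • C) (h2 : ρ u' = 1 + c • C') (h3 : g * u * g⁻¹ = u') :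
    ρ g * C * ρ g⁻¹ = c • C' := by
  have e4 := congrArg ρ h3
  rwa [map_mul, map_mul, h1, h2, one_smul, mul_add, add_mul, mul_one, ← map_mul,
    mul_inv_cancel, map_one, add_right_inj] at e4

/-- A twisted family of root elements lies in `S`. -/
def Fam (θ : K →+* K) (S : Subgroup (Aut K)) (s l : Exc.Lat) : Prop :=
  ∃ c d : K, c ≠ 0 ∧ d ≠ 0 ∧ ∀ t, (c4 K).Y s (c * t) * (c4 K).Y l (d * θ t) ∈ S

theorem Fam.conj {θ : K →+* K} {S : Subgroup (Aut K)} {m : Aut K} {w : W} (hm : (c4 K).Mon m w)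
    (hS : m ∈ S) {s l : Exc.Lat} (F : Fam θ S s l) {f : Exc.Lat → Exc.Lat} (hf : ∀ x, w x = f x)
    (s' l' : Exc.Lat) (hd : Sh s ∧ Lo l ∧ f s = s' ∧ f l = l') : Fam θ S s' l' := by
  obtain ⟨hs, hl, rfl, rfl⟩ := hd
  obtain ⟨c, d, hc, hd, F⟩ := F
  obtain ⟨c', hc', e1⟩ := hm.mono s (rt hs.1)
  obtain ⟨d', hd', e2⟩ := hm.mono l (rt hl.1)
  refine ⟨c' * c, d' * d, mul_ne_zero hc' hc, mul_ne_zero hd' hd, fun t => ?_⟩
  rw [mul_assoc, mul_assoc, ← hf, ← hf, ← hm.conjY hs.R e1, ← hm.conjY hl.R e2]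
  convert S.mul_mem (S.mul_mem hS (F t)) (S.inv_mem hS) using 1
  group

/-- Reflection in a long root. -/
def r1 (α x : Exc.Lat) : Exc.Lat := x - ipx x α • α

/-- Reflection in a short root. -/
def r2 (α x : Exc.Lat) : Exc.Lat := x - ipx x α • α - ipx x (sg true α) • sg true α

theorem w_l {l : Exc.Lat} (h : Lo l) (x : Exc.Lat) : (c4 K).wY l x = r1 l x := by
  rw [Cfg.wY_fix h.R h.2.2, ip_x, r1]

theorem w_s {s : Exc.Lat} (h : Sh s) (x : Exc.Lat) : (c4 K).wY s x = r2 s x := by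
  rw [Cfg.wY_mov h.R h.2.2, ip_x, ip_x]
  rfl

theorem n0 : (c4 K).Mon ((c4 K).NY (a 0) 1) ((c4 K).wY (a 0)) :=
  Cfg.NY_Mon (Sh.R (by decide)) one_ne_zero (Cfg.Al_one _)

theorem n1 : (c4 K).Mon ((c4 K).NY (a 1) 1) ((c4 K).wY (a 1)) :=
  Cfg.NY_Mon (Lo.R (by decide)) one_ne_zero (Cfg.Al_one _)

/-- The good elements, as automorphisms. -/
noncomputable def SS (P Q : Submodule K (Module.End K (M K))) (hQ : Q ≤ P) : Subgroup (Aut K) :=
  (St (A := Module.End K (M K)) (rho K) P Q hQ).map (c4 K).G.subtype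

section chain

variable {θ : K →+* K} (h : ∀ t, θ (θ t) = t ^ 2) (hK : Nat.card K = 8)
  {P Q : Submodule K (Module.End K (M K))} {hQ : Q ≤ P}
include h

theorem Fam.fm {s l : Exc.Lat} (F : Fam θ (SS P Q hQ) s l)
    (hs : Sh s) (hl : Lo l) (i : 0 ≤ ipx l s) : Fm θ P Q (Aa K s) (Ee K s) (Cc K l) := by
  have h2 := two θ h
  obtain ⟨c, d, hc, hd, F⟩ := F
  refine ⟨(EC0 h2 hl hs i).1, (EC0 h2 hl hs i).2, c, d, hc, hd, fun φ hφ t => ?_⟩
  obtain ⟨g, hg, e⟩ := F t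
  obtain rfl : g = yg hs.R (c * t) * yg hl.R (d * θ t) := Subtype.ext e
  have := hg.1 φ hφ
  rwa [mul_inv_rev, yg_inv h2, yg_inv h2, map_mul, map_mul, rho_s h2 hs, rho_l hl] at this

omit h in
theorem adC {m : Aut K} {w : W} (hm : (c4 K).Mon m w)
    (hS : m ∈ SS P Q hQ) {l : Exc.Lat} (hA : Ad P Q (Cc K l))
    {f : Exc.Lat → Exc.Lat} (hf : ∀ x, w x = f x) (l' : Exc.Lat)
    (hd : Lo l ∧ Lo l' ∧ f l = l') : Ad P Q (Cc K l') := by
  obtain ⟨hl, hl', e⟩ := hd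
  obtain ⟨g, hg, rfl⟩ := hS
  obtain ⟨c, hc, e1⟩ := hm.mono l (rt hl.1)
  have e2 := hm.conjY hl.R e1 1
  rw [hf, e, mul_one] at e2
  have e3 : g * yg hl.R 1 * g⁻¹ = yg hl'.R c := Subtype.ext e2
  have e4 := conj_lin (A := Module.End K (M K)) (rho K) (rho_l hl 1) (rho_l hl' c) e3
  exact (Ad_smul hc).1 (e4 ▸ Ad_conj hg hA)

include hQ in
theorem adCC {l l' : Exc.Lat} (hA : Ad P Q (Cc K l)) (hA' : Ad P Q (Cc K l')) (l'' : Exc.Lat)
    (hd : Lo l ∧ Lo l' ∧ Lo l'' ∧ ipx l l' = -1 ∧ l + l' = l'') : Ad P Q (Cc K l'') := by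
  obtain ⟨h1, h2, h3, h4, rfl⟩ := hd
  exact CC1 (two θ h) h1 h2 h3 h4 ▸ L5 (two θ h) hQ hA hA'

include hQ in
theorem adCA {l s : Exc.Lat} (hA : Ad P Q (Cc K l)) (hA' : Ad P Q (Aa K s)) (s' : Exc.Lat)
    (hd : Lo l ∧ Sh s ∧ Sh s' ∧ ipx l s = -1 ∧ l + s = s') : Ad P Q (Aa K s') := by
  obtain ⟨h1, h2, h3, h4, rfl⟩ := hd
  exact CA1 (two θ h) h1 h2 h3 h4 ▸ L5 (two θ h) hQ hA hA'

variable [Finite K]
include hK

theorem adL3 {s l s' l' : Exc.Lat} (F : Fam θ (SS P Q hQ) s l)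
    (F' : Fam θ (SS P Q hQ) s' l') (l'' : Exc.Lat)
    (hd : (Sh s ∧ Lo l ∧ Sh s' ∧ Lo l' ∧ Lo l'') ∧ (0 ≤ ipx l s ∧ 0 ≤ ipx l' s' ∧ 0 ≤ ipx l' s ∧
      0 ≤ ipx l s' ∧ ipx l l' = -1 ∧ l + l' = l'') ∧ -s ≠ s' ∧ -s ≠ sg true s' ∧ -s' ≠ s ∧
      -s' ≠ sg true s) : Ad P Q (Cc K l'') := by
  obtain ⟨⟨h1, h2, h3, h4, h5⟩, ⟨i1, i2, i3, i4, i5, rfl⟩, n1, n2, n3, n4⟩ := hd
  have t := two θ h
  exact CC1 t h2 h4 h5 i5 ▸ L3 h hK hQ (F.fm h h1 h2 i1) (F'.fm h h3 h4 i2) (EC0 t h4 h1 i3).1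
    (EC0 t h4 h1 i3).2 (EC0 t h2 h3 i4).1 (EC0 t h2 h3 i4).2 (EE0 t h1 h3 n1 n2) (EE0 t h3 h1 n3 n4)

theorem adL4 {s l D : Exc.Lat} (F : Fam θ (SS P Q hQ) s l)
    (hA : Ad P Q (Cc K D)) (s' : Exc.Lat)
    (hd : Sh s ∧ Lo l ∧ Lo D ∧ Sh s' ∧ 0 ≤ ipx l s ∧ 0 ≤ ipx D l ∧ ipx D s = -1 ∧ D + s = s') :
    Ad P Q (Aa K s') := by
  obtain ⟨h1, h2, h3, h4, i1, i2, i3, rfl⟩ := hd
  exact CA1 (two θ h) h3 h1 h4 i3 ▸ L4 h hK hQ (F.fm h h1 h2 i1) hA (CC0 h3 h2 i2)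

theorem adL2 {s l : Exc.Lat} (F : Fam θ (SS P Q hQ) s l)
    (hA : Ad P Q (Aa K s)) (hC : Ad P Q (Cc K l)) (hd : Sh s ∧ Lo l ∧ 0 ≤ ipx l s) (t : K) :
    (c4 K).Y s t ∈ SS P Q hQ ∧
      (c4 K).Y l t ∈ SS P Q hQ := by
  obtain ⟨hs, hl, i⟩ := hd
  have h2 := two θ h
  have k := fun φ (hφ : φ ∈ P) => L2 h hK hQ (F.fm h hs hl i) hA hC t hφ
  have g1 : Good (A := Module.End K (M K)) (rho K) P Q (yg hs.R t) := fun φ hφ => by
    rw [yg_inv h2, rho_s h2 hs]; exact (k φ hφ).1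
  have g2 : Good (A := Module.End K (M K)) (rho K) P Q (yg hl.R t) := fun φ hφ => by
    rw [yg_inv h2, rho_l hl]; exact (k φ hφ).2
  exact ⟨⟨_, ⟨g1, (yg_inv h2 _ t).symm ▸ g1⟩, rfl⟩, _, ⟨g2, (yg_inv h2 _ t).symm ▸ g2⟩, rfl⟩

theorem chain8 (F0 : ∀ b, Fam θ (SS P Q hQ) (ε b (a 0)) (ε b (a 1)))
    (Fg : ∀ b, Fam θ (SS P Q hQ) (ε b (a 2 + a 3))
      (ε b (a 2 + a 3 + a 4)))
    (hA : (c4 K).NY (a 0) 1 * (c4 K).NY (a 1) 1 ∈ SS P Q hQ)
    (hB : (c4 K).NY (a 2) 1 * (c4 K).NY (a 3) 1 * (c4 K).NY (a 2) 1 * (c4 K).NY (a 3) 1 ∈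
      SS P Q hQ) :
    (c4 K).G ≤ SS P Q hQ := by
  have mA := (n0 (K := K)).mul n1
  have mB := (((n2 (K := K)).mul n3).mul n2).mul n3
  have wA : ∀ x, ((c4 K).wY (a 0) * (c4 K).wY (a 1)) x = (fun x => r2 (a 0) (r1 (a 1) x)) x :=
    fun x => by rw [LinearEquiv.mul_apply, w_l (show Lo (a 1) by decide),
      w_s (show Sh (a 0) by decide)]
  have wB : ∀ x, ((c4 K).wY (a 2) * (c4 K).wY (a 3) * (c4 K).wY (a 2) * (c4 K).wY (a 3)) x =
      (fun x => r2 (a 2) (r1 (a 3) (r2 (a 2) (r1 (a 3) x)))) x := fun x => by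
    simp only [LinearEquiv.mul_apply, w_l (show Lo (a 3) by decide), w_s (show Sh (a 2) by decide)]
  have F3 := fun b => (Fg b).conj mA hA wA (ε b (v8 1 1 1 1 0 0 0 0)) (ε b (v8 1 1 1 1 1 1 0 0))
    (by revert b; decide +kernel)
  have F2 := fun b => (F3 b).conj mB hB wB (ε b (v8 1 1 2 2 1 0 0 0)) (ε b (v8 1 1 2 3 2 1 0 0))
    (by revert b; decide +kernel)
  have F1 := fun b => (F2 b).conj mA hA wA (ε b (v8 1 1 2 2 1 1 0 0)) (ε b (v8 1 2 2 3 2 1 0 0))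
    (by revert b; decide +kernel)
  have Cg := fun b => adL3 h hK (F1 b) (F0 !b) (ε b (v8 1 1 2 3 2 1 0 0))
    (by revert b; decide +kernel)
  have Ct := fun b => adC mA hA (Cg b) wA (ε b (v8 1 2 2 3 2 1 0 0))
    (by revert b; decide +kernel)
  have Cl := fun b => adC mB hB (Cg b) wB (ε b (v8 1 1 1 1 1 1 0 0))
    (by revert b; decide +kernel)
  have Cga := fun b => adC mA hA (Cl b) wA (ε b (a 2 + a 3 + a 4)) (by revert b; decide +kernel)
  have C1 := fun b => adCC h (hQ := hQ) (Ct b) (Cg !b) (ε b (a 1)) (by revert b; decide +kernel)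
  have Cs := fun b => adCC h (hQ := hQ) (Cl b) (C1 !b) (ε b (v8 1 0 1 1 1 1 0 0))
    (by revert b; decide +kernel)
  have Ae := fun b => adL4 h hK (F1 b) (Cs !b) (ε b (v8 0 1 1 1 0 0 0 0))
    (by revert b; decide +kernel)
  have Ab := fun b => adCA h (hQ := hQ) (C1 !b) (Ae b) (ε b (a 2 + a 3))
    (by revert b; decide +kernel)
  have Au := fun b => adL4 h hK (F0 b) (Cs !b) (ε (!b) (v8 0 0 1 1 1 1 0 0))
    (by revert b; decide +kernel)
  have A0 := fun b => adCA h (hQ := hQ) (Cs b) (Au b) (ε b (a 0)) (by revert b; decide +kernel)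
  have k0 := fun b => adL2 h hK (F0 b) (A0 b) (C1 b) (by revert b; decide +kernel)
  have k1 := fun b => adL2 h hK (Fg b) (Ab b) (Cga b) (by revert b; decide +kernel)
  exact le_of' (fun b t => (k0 b t).1) (fun b t => (k0 b t).2) (fun b t => (k1 b t).1)
    fun b t => (k1 b t).2

end chain

theorem main [Finite K] (θ : K →+* K) (h : ∀ t, θ (θ t) = t ^ 2) (hK : Nat.card K = 8)
    (σ : (c4 K).G →* (c4 K).G) (hσ : ∀ g, σ (σ g) = g)
    (hs : ∀ (g : (c4 K).G) i t, ⇑g.1 = f4s i t → ⇑(σ g).1 = f4l i (θ t)) :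
    AH (σ.eqLocus (MonoidHom.id _)) := by
  have h2 := two θ h
  obtain ⟨r, hr0, hr1⟩ : ∃ r : K, r ≠ 0 ∧ r ≠ 1 := by
    classical
    have := Fintype.ofFinite K
    obtain ⟨r, -, hr⟩ := Finset.exists_mem_notMem_of_card_lt_card (s := ({0, 1} : Finset K))
      (t := Finset.univ) (by
        rw [Finset.card_univ, ← Nat.card_eq_fintype_card]
        exact Finset.card_le_two.trans_lt (by omega))
    exact ⟨r, by simpa using hr⟩
  have sl : ∀ b b' t, σ (yg (Ra _ (js_lt b') b) t) = yg (Ra _ (jl_lt b') b) (θ t) := fun b b' t =>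
    Subtype.ext (DFunLike.coe_injective
      ((hs _ (b, b') t (s_eq (b, b') t)).trans (l_eq (b, b') _).symm))
  have ls : ∀ b b' t, σ (yg (Ra _ (jl_lt b') b) (θ t)) = yg (Ra _ (js_lt b') b) t :=
    fun b b' t => by rw [← sl, hσ]
  have fin : ∀ x : (c4 K).G, σ x = x → (c4 K).QS x.1 → x = 1 := fun x hx hq => by
    rcases QS_struct rfl c4τ x.2 hq with h3 | ⟨μ, g', hμ, ⟨p, hp, rfl⟩, h3⟩
    · exact Subtype.ext (triv_eq_one rfl c4τ h2 x.2 h3)
    obtain ⟨t, rfl⟩ := Finite.surjective_of_injective θ.injective μ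
    have e1 : (yg (Ra _ (jl_lt true) true) (θ t)).1 = X (a 1) (θ t) :=
      Cfg.Y_fix (c := c4 K) (jl_fix true) _
    have e2 : (⟨p, hp⟩ * x * ⟨p, hp⟩⁻¹ : (c4 K).G) = yg (Ra _ (jl_lt true) true) (θ t) := by
      rw [← inv_mul_eq_one]
      refine Subtype.ext (triv_eq_one rfl c4τ h2 (Subtype.prop _) fun v hv => ?_)
      have := h3 v hv
      rw [← e1] at this
      exact (congrArg _ this.symm).trans (inv_app _ v)
    have e3 := congrArg σ e2
    rw [map_mul, map_mul, map_inv, hx, ls] at e3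
    exact absurd (Cfg.Cj.QS rfl ⟨_, (σ ⟨p, hp⟩).2, congrArg Subtype.val e3⟩ hq)
      (not_QS_short rfl fun e => hμ (by rw [e, map_zero]))
  intro x y z hx hy hE
  have hk : ∀ p ∈ σ.eqLocus (MonoidHom.id _), ∀ q ∈ σ.eqLocus (MonoidHom.id _),
      LinearMap.trace K _ (rho K (p * x.1 * p⁻¹ * (q * y.1 * q⁻¹))) =
        LinearMap.trace K _ (rho K z.1) := fun p hp q hq => by
    obtain ⟨g, hg⟩ := isConj_iff.1 ((Set.ext_iff.1 hE _).1 ⟨_, _,
      isConj_iff.2 ⟨⟨p, hp⟩, rfl⟩, isConj_iff.2 ⟨⟨q, hq⟩, rfl⟩, rfl⟩)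
    have e : g.1 * z.1 * g.1⁻¹ = p * x.1 * p⁻¹ * (q * y.1 * q⁻¹) := congrArg Subtype.val hg
    rw [← e, map_mul, LinearMap.trace_mul_comm, ← map_mul, inv_mul_cancel_left]
  obtain ⟨P, Q, hQ, hH, hS⟩ := exists_PQ (A := Module.End K (M K)) (rho K)
    (LinearMap.trace K _) _ x.1 y.1 _ hk
  have fam : ∀ b b' (m m' : (c4 K).G), σ m = m' → (∀ s t, Commute
      (m * yg (Ra _ (js_lt b') b) s * m⁻¹) (m' * yg (Ra _ (jl_lt b') b) t * m'⁻¹)) → ∀ t,
      m * yg (Ra _ (js_lt b') b) t * m⁻¹ * (m' * yg (Ra _ (jl_lt b') b) (θ t) * m'⁻¹) ∈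
        St (A := Module.End K (M K)) (rho K) P Q hQ := fun b b' m m' e hc t => hH (by
    have e' : σ m' = m := by rw [← e, hσ]
    change σ _ = _
    simp only [map_mul, map_inv, e, e', sl, ls]
    exact (hc _ _).symm)
  have cm : ∀ b b' s t, Commute ((c4 K).Y (ε b (a 0)) s) ((c4 K).Y (ε b' (a 1)) t) :=
    fun b b' => F4m.comm_of (Ra _ (js_lt true) b) (Ra _ (jl_lt true) b')
      (mov_ε (K := K) (js_mov true) _) (fix_ε (K := K) (jl_fix true) _) (by rw [ip_x]; revert b b'; decide)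
  have f1 := fun b => fam b true 1 1 (map_one σ) fun s t => by
    simp only [one_mul, inv_one, mul_one]
    exact Subtype.ext (cm b b s t)
  have sN : ∀ b, σ ⟨_, (Cfg.NY_Mon (Ra _ (jl_lt b) true) one_ne_zero (Cfg.Al_one _)).mem⟩ =
      ⟨_, (Cfg.NY_Mon (Ra _ (js_lt b) true) one_ne_zero (Cfg.Al_one _)).mem⟩ := fun b => by
    have e1 := ls true b 1
    have e2 := ls false b 1
    rw [map_one] at e1 e2
    have e3 : (⟨_, (Cfg.NY_Mon (Ra _ (jl_lt b) true) one_ne_zero (Cfg.Al_one _)).mem⟩ : (c4 K).G) =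
        yg (Ra _ (jl_lt b) true) 1 * yg (Ra _ (jl_lt b) false) 1 * yg (Ra _ (jl_lt b) true) 1 :=
      Subtype.ext (NY_one _)
    rw [e3, map_mul, map_mul, e1, e2]
    exact Subtype.ext (NY_one _).symm
  have e23 : σ ⟨_, n3.mem⟩ = ⟨_, n2.mem⟩ := sN false
  have e01 : σ ⟨_, n1.mem⟩ = ⟨_, n0.mem⟩ := sN true
  have e32 : σ ⟨_, n2.mem⟩ = ⟨_, n3.mem⟩ := by rw [← e23, hσ]
  have e10 : σ ⟨_, n0.mem⟩ = ⟨_, n1.mem⟩ := by rw [← e01, hσ]
  have hm : ∀ g : (c4 K).G, σ g = g → g.1 ∈ SS P Q hQ := fun g hg => ⟨g, hH hg, rfl⟩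
  have top : (c4 K).G ≤ SS P Q hQ := by
    refine chain8 h hK (fun b => ⟨1, 1, one_ne_zero, one_ne_zero, fun t => ⟨_, f1 b t, ?_⟩⟩)
      (fun b => ?_) ?_ ?_
    · simp only [one_mul, inv_one, mul_one]
      rfl
    · obtain ⟨s1, hs1, e1⟩ := (n3 (K := K)).mono _ (Ra (K := K) 2 (by decide) b).1
      obtain ⟨s2, hs2, e2⟩ := (n2 (K := K)).mono _ (Ra (K := K) 3 (by decide) b).1
      have e3 := n3.conjY (Ra 2 (by decide) b) e1
      have e4 := n2.conjY (Ra 3 (by decide) b) e2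
      rw [w_ε, w32] at e3
      rw [w_ε, w23] at e4
      refine ⟨s1, s2, hs1, hs2, fun t => ⟨_, fam b false _ _ e23 (fun s t => ?_) t, ?_⟩⟩
      · have := comm_of (R_ε Rbe b) (R_ε Rga b) (mov_ε (K := K) (by decide) _)
          (fix_ε (K := K) (by decide) _) (by rw [ip_ε, ip_x]; decide) (s1 * s) (s2 * t)
        rw [← e3, ← e4] at this
        exact Subtype.ext this
      · rw [← e3, ← e4]
        rfl
    · have cn : ∀ b s, Commute ((c4 K).Y (ε b (a 0)) s) ((c4 K).NY (a 1) 1) := fun b s =>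
        ((cm b true _ _).mul_right (cm b false _ _)).mul_right (cm b true _ _)
      have cn' : Commute ((c4 K).NY (a 0) 1) ((c4 K).NY (a 1) 1) :=
        ((cn true _).mul_left (cn false _)).mul_left (cn true _)
      simpa only [Subgroup.coe_mul] using hm (⟨_, n0.mem⟩ * ⟨_, n1.mem⟩) (by
        rw [map_mul, e01, e10]
        exact Subtype.ext (by simpa only [Subgroup.coe_mul] using cn'.symm.eq))
    · simpa only [Subgroup.coe_mul] using hm
        (⟨_, n2.mem⟩ * ⟨_, n3.mem⟩ * ⟨_, n2.mem⟩ * ⟨_, n3.mem⟩) (by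
          rw [map_mul, map_mul, map_mul, e23, e32]
          exact Subtype.ext (by simpa only [Subgroup.coe_mul] using braid4 h2))
  rcases short_TC rfl c4τ x.1.2 y.1.2 hr0 hr1 (LinearMap.trace K _ (rho K z.1)) (by
    rintro _ _ ⟨p, hp, rfl⟩ ⟨q, hq, rfl⟩
    obtain ⟨g, hg, e⟩ := top (mul_mem (inv_mem hp) hq)
    have e' : g = (⟨p, hp⟩ : (c4 K).G)⁻¹ * ⟨q, hq⟩ := Subtype.ext e
    have e1 := TW_rho (⟨p, hp⟩ * (x.1 * (g * y.1 * g⁻¹)) * (⟨p, hp⟩ : (c4 K).G)⁻¹)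
    rw [map_mul, LinearMap.trace_mul_comm, ← map_mul, inv_mul_cancel_left, hS g hg] at e1
    rw [← e1, e']
    congr 2
    simp only [Subgroup.coe_mul, Subgroup.coe_inv]
    group) with h3 | h3
  · exact hx (Subtype.ext (fin _ x.2 h3))
  · exact hy (Subtype.ext (fin _ y.2 h3))

end F8

theorem f4_AH' {K : Type} [Field K] [Finite K] (θ : K →+* K) (h : ∀ t, θ (θ t) = t ^ 2)
    (hK : 2 < Nat.card K) (G : Type) [Group G] (hG : IsSR G (f4s (K := K)) f4l θ) : AH G := by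
  rcases card_cases θ h hK with h8 | h8
  · rw [IsSR, F4m.gen_eq] at hG
    obtain ⟨σ, h1, h2, ⟨e⟩⟩ := hG
    exact AH_congr e.symm (F8.main θ h h8 σ h1 h2)
  · exact f4_AH θ h h8 G hG

end Pool.Agent.MP_db74b1_al.Lt

end
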