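import Pool.Agent.Mg.Fdb74b1.Gde7978

section

/-! Orthogonal groups, geometry. -/

set_option autoImplicit false
set_option linter.unusedSectionVars false
set_option linter.unnecessarySeqFocus false

namespace Pool.Agent.MP_db74b1_al
open Module Submodule
open scoped commutatorElement

variable {F V : Type} [Field F] [AddCommGroup V] [Module F V]

/-- the isometry group of a quadratic form -/
def orthGroup (Q : QuadraticForm F V) : Subgroup (End F V)ˣ where
  carrier := {g | ∀ x, Q (g.val x) = Q x}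
  mul_mem' := fun {a b} ha hb x => by
    rw [Units.val_mul, End.mul_apply, ha, hb]
  one_mem' := fun _ => rfl
  inv_mem' := fun {a} ha x => by
    rw [← ha, ← End.mul_apply, Units.mul_inv, End.one_apply]

variable [Finite F] [FiniteDimensional F V]

/-- orthogonal data -/
structure OD (Q : QuadraticForm F V) (B : V →ₗ[F] V →ₗ[F] F) (G : Subgroup (End F V)ˣ) : Prop where
  pol : ∀ x y, Q (x + y) = Q x + Q y + B x y
  nd : ∀ y, (∀ x, B x y = 0) → y = 0
  mem : G = ⁅orthGroup Q, orthGroup Q⁆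
  dim : 7 ≤ finrank F V

lemma Qsmul (Q : QuadraticForm F V) (c : F) (x : V) : Q (c • x) = c ^ 2 * Q x := by
  rw [Q.map_smul, smul_eq_mul, pow_two]

lemma mem_perp {B : V →ₗ[F] V →ₗ[F] F} {R : Submodule F V} {z : V} :
    z ∈ LinearMap.BilinForm.orthogonal B R ↔ ∀ w ∈ R, B w z = 0 := Iff.rfl

lemma fperp (B : V →ₗ[F] V →ₗ[F] F) (R : Submodule F V) :
    finrank F V ≤ finrank F R + finrank F (LinearMap.BilinForm.orthogonal B R) := by
  have := LinearMap.BilinForm.finrank_add_finrank_orthogonal' (B := B) R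
  omega

lemma span1_perp {σ : F →+* F} {B : V →ₗ[F] V →ₛₗ[σ] F} {u x : V} (h : B u x = 0) :
    ∀ w ∈ span F {u}, B w x = 0 := by
  intro w hw
  obtain ⟨d, rfl⟩ := mem_span_singleton.mp hw
  simp [h]

lemma span2_perp {σ : F →+* F} {B : V →ₗ[F] V →ₛₗ[σ] F} {u v x : V} (h : B u x = 0)
    (h' : B v x = 0) : ∀ w ∈ span F {u, v}, B w x = 0 := by
  intro w hw
  obtain ⟨s, t, rfl⟩ := mem_span_pair.mp hw
  simp [h, h']

lemma m1 (u : V) : u ∈ span F {u} := mem_span_singleton_self u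
lemma m21 (u v : V) : u ∈ span F {u, v} := subset_span (by simp)
lemma m22 (u v : V) : v ∈ span F {u, v} := subset_span (by simp)
lemma m31 (u v w : V) : u ∈ span F {u, v, w} := subset_span (by simp)
lemma m32 (u v w : V) : v ∈ span F {u, v, w} := subset_span (by simp)
lemma m33 (u v w : V) : w ∈ span F {u, v, w} := subset_span (by simp)

namespace OD
variable {Q : QuadraticForm F V} {B : V →ₗ[F] V →ₗ[F] F} {G : Subgroup (End F V)ˣ} (D : OD Q B G)
include D

lemma symm (x y : V) : B y x = B x y := by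
  have h1 := D.pol x y
  have h2 := D.pol y x
  rw [add_comm y x] at h2
  linear_combination h1 - h2

lemma self (x : V) : B x x = 2 * Q x := by
  have h1 := D.pol x x
  rw [← two_smul F x, Qsmul] at h1
  linear_combination -h1

lemma self0 {x : V} (h : Q x = 0) : B x x = 0 := by rw [D.self, h, mul_zero]

lemma flip0 {x y : V} (h : B x y = 0) : B y x = 0 := by rw [D.symm, h]

lemma Qsub (x y : V) : Q (x - y) = Q x + Q y - B x y := by
  rw [sub_eq_add_neg, D.pol, Q.map_neg, map_neg]; ring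

lemma nd' (x : V) (h : ∀ y, B x y = 0) : x = 0 := D.nd x fun y => D.flip0 (h y)

lemma isoO {g : (End F V)ˣ} (hg : g ∈ orthGroup Q) (x y : V) : B (g.val x) (g.val y) = B x y := by
  have h1 := D.pol (g.val x) (g.val y)
  rw [← map_add, hg, hg, hg, D.pol] at h1
  linear_combination -h1

lemma le {g : (End F V)ˣ} (hg : g ∈ G) : g ∈ orthGroup Q := by
  rw [D.mem] at hg
  exact Subgroup.commutator_le_self _ hg

lemma isoQ {g : (End F V)ˣ} (hg : g ∈ G) (x : V) : Q (g.val x) = Q x := D.le hg x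

lemma iso {g : (End F V)ˣ} (hg : g ∈ G) (x y : V) : B (g.val x) (g.val y) = B x y :=
  D.isoO (D.le hg) x y

lemma adj {a : (End F V)ˣ} (ha : a ∈ G) (x y : V) : B (a.val x) y = B x (a⁻¹.val y) := by
  rw [← D.iso ha x (a⁻¹.val y), app_inv]

lemma det {g : (End F V)ˣ} (hg : g ∈ G) : LinearMap.det g.val = 1 := by
  rw [D.mem] at hg
  let φ : (End F V)ˣ →* Fˣ := Units.map (LinearMap.det : End F V →* F)
  have : ⁅orthGroup Q, orthGroup Q⁆ ≤ φ.ker := by
    rw [Subgroup.commutator_le]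
    intro g _ h _
    rw [MonoidHom.mem_ker, map_commutatorElement, commutatorElement_eq_one_iff_mul_comm, mul_comm]
  exact congrArg Units.val (MonoidHom.mem_ker.mp (this hg))

lemma refl_sq {n : V} (hn : Q n ≠ 0) :
    (1 - (Q n)⁻¹ • op B n n) * (1 - (Q n)⁻¹ • op B n n) = 1 := by
  ext x
  simp [D.self]
  match_scalars <;> field_simp <;> ring

/-- the reflection in a nonsingular vector -/
def refl {n : V} (hn : Q n ≠ 0) : (End F V)ˣ :=
  ⟨1 - (Q n)⁻¹ • op B n n, 1 - (Q n)⁻¹ • op B n n, D.refl_sq hn, D.refl_sq hn⟩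

lemma refl_app {n : V} (hn : Q n ≠ 0) (x : V) :
    (D.refl hn).val x = x - ((Q n)⁻¹ * B x n) • n := by
  simp [refl, smul_smul]

lemma refl_inv {n : V} (hn : Q n ≠ 0) : (D.refl hn)⁻¹ = D.refl hn := rfl

lemma refl_mem {n : V} (hn : Q n ≠ 0) : D.refl hn ∈ orthGroup Q := by
  intro x
  rw [D.refl_app, D.Qsub, Qsmul]
  simp
  field_simp
  ring

lemma eich_mul {e p p' : V} (he : Q e = 0) (hp : B e p = 0) (hp' : B e p' = 0) :
    (1 + op B e p - op B p e - Q p • op B e e) * (1 + op B e p' - op B p' e - Q p' • op B e e) =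
      (1 + op B e (p + p') - op B (p + p') e - Q (p + p') • op B e e) := by
  ext x
  simp [D.self0 he, hp, D.flip0 hp', D.pol, D.symm p p']
  module

/-- Eichler transformation -/
def eich {e p : V} (he : Q e = 0) (hp : B e p = 0) : (End F V)ˣ :=
  ⟨1 + op B e p - op B p e - Q p • op B e e, 1 + op B e (-p) - op B (-p) e - Q (-p) • op B e e,
    by rw [D.eich_mul he hp (by simp [hp])]; ext x; simp,
    by rw [D.eich_mul he (by simp [hp]) hp]; ext x; simp⟩

lemma eich_app {e p : V} (he : Q e = 0) (hp : B e p = 0) (x : V) :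
    (D.eich he hp).val x = x + B x p • e - B x e • p - (Q p * B x e) • e := by
  simp [eich, smul_smul]

lemma eich_inv_app {e p : V} (he : Q e = 0) (hp : B e p = 0) (x : V) :
    (D.eich he hp)⁻¹.val x = x - B x p • e + B x e • p - (Q p * B x e) • e := by
  show (1 + op B e (-p) - op B (-p) e - Q (-p) • op B e e : End F V) x = _
  simp [smul_smul, Q.map_neg, sub_eq_add_neg]

lemma eich_memO {e p : V} (he : Q e = 0) (hp : B e p = 0) : D.eich he hp ∈ orthGroup Q := by
  intro x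
  rw [D.eich_app]
  simp [D.Qsub, D.pol, Qsmul, he, hp, D.flip0 hp, D.self0 he]
  ring

lemma UNIV {W R : Submodule F V} (h : finrank F R + 2 ≤ finrank F W)
    (hW : ∀ z ∈ W, z ∉ R → ∃ z' ∈ W, B z z' ≠ 0) (d : F) : ∃ z ∈ W, Q z = d := by
  obtain ⟨z1, h1, z2, h2, h3⟩ := out2 h
  obtain ⟨x, y, t, hne, e⟩ := cw3 (Q z1) (Q z2) (-d) (B z1 z2) 0 0
  have hz : Q (x • z1 + y • z2) = d * t ^ 2 := by
    simp [D.pol, Qsmul]
    linear_combination e
  have hm : x • z1 + y • z2 ∈ W := add_mem (smul_mem _ _ h1) (smul_mem _ _ h2)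
  by_cases ht : t = 0
  · obtain ⟨z', k1, k2⟩ := hW _ hm (fun hh => hne ⟨(h3 x y hh).1, (h3 x y hh).2, ht⟩)
    generalize x • z1 + y • z2 = z at hz hm k2
    refine ⟨((d - Q z') / B z z') • z + z', add_mem (smul_mem _ _ hm) k1, ?_⟩
    simp [D.pol, Qsmul, hz, ht, k2]
  · refine ⟨t⁻¹ • (x • z1 + y • z2), smul_mem _ _ hm, ?_⟩
    rw [Qsmul, hz]
    field_simp

lemma SING {W R : Submodule F V} (h : finrank F R + 3 ≤ finrank F W) :
    ∃ e ∈ W, e ∉ R ∧ Q e = 0 := by
  obtain ⟨z1, h1, z2, h2, z3, h3, h4⟩ := out3 h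
  obtain ⟨x, y, t, hne, e⟩ := cw3 (Q z1) (Q z2) (Q z3) (B z1 z2) (B z1 z3) (B z2 z3)
  refine ⟨x • z1 + y • z2 + t • z3, add_mem (add_mem (smul_mem _ _ h1) (smul_mem _ _ h2))
    (smul_mem _ _ h3), fun hh => hne (h4 x y t hh), ?_⟩
  simp [D.pol, Qsmul]
  linear_combination e

lemma univ_perp (R : Submodule F V) (h : 2 * finrank F R + 2 ≤ finrank F V) (d : F) :
    ∃ z, (∀ w ∈ R, B w z = 0) ∧ Q z = d := by
  have := fperp B R
  exact D.UNIV (W := LinearMap.BilinForm.orthogonal B R) (R := R) (by omega) (fun z _ hz => by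
    obtain ⟨z', k1, k2⟩ := sep B D.nd hz
    exact ⟨z', k2, by simp [k1]⟩) d

lemma sing_perp (R : Submodule F V) (h : 2 * finrank F R + 3 ≤ finrank F V) :
    ∃ z, (∀ w ∈ R, B w z = 0) ∧ z ∉ R ∧ Q z = 0 := by
  have := fperp B R
  exact D.SING (W := LinearMap.BilinForm.orthogonal B R) (R := R) (by omega)

lemma eich_mem1 {e n : V} (he : Q e = 0) (hp : B e n = 0) (hn : Q n ≠ 0) : D.eich he hp ∈ G := by
  have hne : n ∉ span F {e} := by
    rw [nmem1]; rintro c rfl; simp [Qsmul, he] at hn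
  obtain ⟨z, k1, k2⟩ := sep B D.nd hne
  have k2 := k2 e (m1 e)
  have k3 : B e (-Q n • z) = 0 := by simp [k2]
  have : D.eich he hp = ⁅D.refl hn, D.eich he k3⁆ := by
    rw [commutatorElement_def, D.refl_inv]
    apply Units.ext
    ext x
    simp only [Units.val_mul, End.mul_apply, D.eich_app, D.eich_inv_app, D.refl_app]
    simp [D.self0 he, hp, D.flip0 hp, k1, k2, D.flip0 k2, D.symm n z, D.self n, D.self z, Qsmul]
    match_scalars <;> field_simp <;> ring
  rw [this]
  exact D.mem.ge (Subgroup.commutator_mem_commutator (D.refl_mem hn) (D.eich_memO he k3))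

lemma eich_mem {e p : V} (he : Q e = 0) (hp : B e p = 0) : D.eich he hp ∈ G := by
  by_cases hq : Q p = 0
  swap
  · exact D.eich_mem1 he hp hq
  have := fs2 (F := F) e p
  have := D.dim
  obtain ⟨n, k1, k2⟩ := D.univ_perp (span F {e, p}) (by omega) 1
  have k3 := k1 e (m21 _ _)
  have k4 := k1 p (m22 _ _)
  have k5 : B e (p + n) = 0 := by simp [hp, k3]
  have k6 : B e (-n) = 0 := by simp [k3]
  have : D.eich he hp = D.eich he k5 * D.eich he k6 := by
    apply Units.ext
    simp only [Units.val_mul, eich, D.eich_mul he k5 k6, add_neg_cancel_right]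
  rw [this]
  exact G.mul_mem (D.eich_mem1 he k5 (by simp [D.pol, hq, k2, k4]))
    (D.eich_mem1 he k6 (by simp [Q.map_neg, k2]))

lemma N_sq {u v : V} (hu : Q u = 0) (hv : Q v = 0) (h : B u v = 0) :
    (op B u v - op B v u) * (op B u v - op B v u) = 0 := by
  ext w
  simp [h, D.flip0 h, D.self0 hu, D.self0 hv]

lemma N_mem {u v : V} (hu : Q u = 0) (hv : Q v = 0) (h : B u v = 0) :
    unip _ (D.N_sq hu hv h) ∈ G := by
  have : unip _ (D.N_sq hu hv h) = D.eich hu h := by
    apply Units.ext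
    simp [eich, hv, add_sub_assoc]
  rw [this]
  exact D.eich_mem hu h

lemma step0 {W : Submodule F V} {x x' e : V} (he : Q e = 0) (h1 : B x e = 1) (h2 : B x' e = 1)
    (hq : Q x = Q x') (h3 : ∀ w ∈ W, B w e = 0) (h4 : ∀ w ∈ W, B w x = B w x') :
    ∃ g ∈ G, (∀ w ∈ W, g.val w = w) ∧ g.val x = x' := by
  have hp : B e (x - x') = 0 := by simp [D.symm x e, D.symm x' e, h1, h2]
  refine ⟨_, D.eich_mem he hp, fun w hw => ?_, ?_⟩
  · simp [D.eich_app, h3 w hw, h4 w hw]
  · simp [D.eich_app, h1, D.Qsub, D.self, hq]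
    module

lemma step1 {W : Submodule F V} (hd : 2 * finrank F W + 4 ≤ finrank F V) {x x' : V}
    (h : B x x' ≠ 0) (k : Q x = 0) (k' : Q x' = 0) (h1 : ∀ w ∈ W, B w x = 0)
    (h2 : ∀ w ∈ W, B w x' = 0) : ∃ g ∈ G, (∀ w ∈ W, g.val w = w) ∧ g.val x = x' := by
  have f1 := fperp B (W ⊔ span F {x} ⊔ span F {x'})
  have f2 := fsup W x
  have f3 := fsup (W ⊔ span F {x}) x'
  have mx : x ∈ W ⊔ span F {x} ⊔ span F {x'} := mem_sup_left (mem_sup_right (m1 x))
  have mx' : x' ∈ W ⊔ span F {x} ⊔ span F {x'} := mem_sup_right (m1 x')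
  obtain ⟨z, hz, hq⟩ := D.UNIV (W := LinearMap.BilinForm.orthogonal B (W ⊔ span F {x} ⊔ span F {x'}))
    (R := W) (by omega) (fun z hz hz' => by
      have : z ∉ W ⊔ span F {x} ⊔ span F {x'} := by
        intro hh
        obtain ⟨y, hy, y', hy', rfl⟩ := mem_sup.mp hh
        obtain ⟨w, hw, y1, hy1, rfl⟩ := mem_sup.mp hy
        obtain ⟨s, rfl⟩ := mem_span_singleton.mp hy1
        obtain ⟨t, rfl⟩ := mem_span_singleton.mp hy'
        have e1 := hz x mx
        have e2 := hz x' mx'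
        simp [D.flip0 (h1 w hw), D.flip0 (h2 w hw), D.self0 k, D.self0 k', h, D.symm x x'] at e1 e2
        apply hz'
        simpa [e1, e2] using hw
      obtain ⟨z', k1, k2⟩ := sep B D.nd this
      exact ⟨z', k2, by simp [k1]⟩) (-(B x x')⁻¹)
  have e1 : B x z = 0 := hz x mx
  have e2 : B x' z = 0 := hz x' mx'
  refine D.step0 (e := (B x x')⁻¹ • (x + x') + z) ?_ ?_ ?_ (by rw [k, k']) (fun w hw => ?_)
    (fun w hw => by rw [h1 w hw, h2 w hw])
  · rw [D.pol, Qsmul, D.pol, k, k', hq]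
    simp [e1, e2]
    field_simp
    ring
  · simp [D.self0 k, e1, h]
  · simp [D.self0 k', e2, h, D.symm x x']
  · have : B w z = 0 := hz w (mem_sup_left (mem_sup_left hw))
    simp [h1 w hw, h2 w hw, this]

lemma step {W : Submodule F V} (hd : 2 * finrank F W + 4 ≤ finrank F V) {x x' : V}
    (hx : x ∉ W) (hx' : x' ∉ W) (k : Q x = 0) (k' : Q x' = 0) (h1 : ∀ w ∈ W, B w x = 0)
    (h2 : ∀ w ∈ W, B w x' = 0) : ∃ g ∈ G, (∀ w ∈ W, g.val w = w) ∧ g.val x = x' := by
  by_cases h : B x x' = 0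
  swap
  · exact D.step1 hd h k k' h1 h2
  obtain ⟨z, k1, k2, k3⟩ := sep2 B D.nd hx hx'
  have j1 : Q (z - (Q z / B x z) • x) = 0 := by
    simp [D.Qsub, Qsmul, k, D.symm x z, k1]
  have j2 : ∀ w ∈ W, B w (z - (Q z / B x z) • x) = 0 := fun w hw => by simp [k3 w hw, h1 w hw]
  obtain ⟨g, hg, e1, e2⟩ := D.step1 hd (x := x) (x' := z - (Q z / B x z) • x)
    (by simpa [D.self0 k] using k1) k j1 h1 j2
  obtain ⟨g', hg', e1', e2'⟩ := D.step1 hd (x := z - (Q z / B x z) • x) (x' := x')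
    (by simpa [h, D.symm x' z] using k2) j1 k' j2 h2
  exact ⟨g' * g, G.mul_mem hg' hg, fun w hw => by simp [e1 w hw, e1' w hw],
    by rw [Units.val_mul, End.mul_apply, e2, e2']⟩

lemma normstep {y y' : V} (hy : y ≠ 0) (hy' : y' ∉ span F {y}) (hq : Q y = Q y') :
    ∃ g ∈ G, g.val y = y' := by
  have := fs2 (F := F) y y'
  have := D.dim
  obtain ⟨e, k1, k2, k3⟩ := D.sing_perp (span F {y, y'}) (by omega)
  have i1 : y ∉ span F {y', e} := by
    rw [nmem2]
    intro c d hcd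
    by_cases hd : d = 0
    · exact nmem1.mp (nmem1_swap hy hy') c (by simp [hcd, hd])
    · apply k2
      rw [← smul_mem_iff _ hd, mem_span_pair]
      exact ⟨1, -c, by linear_combination (norm := module) hcd⟩
  have i2 : y' ∉ span F {y, e} := by
    rw [nmem2]
    intro c d hcd
    by_cases hd : d = 0
    · exact nmem1.mp hy' c (by simp [hcd, hd])
    · apply k2
      rw [← smul_mem_iff _ hd, mem_span_pair]
      exact ⟨-c, 1, by linear_combination (norm := module) hcd⟩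
  obtain ⟨z1, a1, a2⟩ := sep B D.nd i1
  obtain ⟨z2, b1, b2⟩ := sep B D.nd i2
  obtain ⟨z3, c1, c2⟩ := sep B D.nd k2
  have hz : B y (z1 + z2 + z3) = 1 ∧ B y' (z1 + z2 + z3) = 1 ∧ B e (z1 + z2 + z3) = 1 := by
    simp [a1, b1, c1, a2 y' (m21 _ _), a2 e (m22 _ _), b2 y (m21 _ _), b2 e (m22 _ _),
      c2 y (m21 _ _), c2 y' (m22 _ _)]
  generalize z1 + z2 + z3 = z at hz
  obtain ⟨g, hg, -, e1⟩ := D.step0 (W := ⊥) (x := y) (x' := y') (e := z - Q z • e)
    (by simp [D.Qsub, Qsmul, k3, D.symm e z, hz]) (by simp [hz, k1 y (m21 _ _)])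
    (by simp [hz, k1 y' (m22 _ _)]) hq (by simp) (by simp)
  exact ⟨g, hg, e1⟩

lemma SPANrel {W : Submodule F V} (ψ : V →ₗ[F] F) {e f : V} (he : e ∈ W) (hf : f ∈ W)
    (k : Q e = 0) (k1 : B e f = 1) (h : ∀ v ∈ W, Q v = 0 → ψ v = 0) : ∀ x ∈ W, ψ x = 0 := by
  have key : ∀ x ∈ W, B e x ≠ 0 → ψ x = 0 := by
    intro x hx hne
    have := h (x - (Q x / B e x) • e) (sub_mem hx (smul_mem _ _ he)) (by
      simp [D.Qsub, Qsmul, k, D.symm e x, hne])
    simpa [h e he k] using this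
  intro x hx
  by_cases hne : B e x = 0
  · have := key (x + f) (add_mem hx hf) (by simp [hne, k1])
    simpa [key f hf (by simp [k1])] using this
  · exact key x hx hne

lemma SPAN (u : V) (ψ : V →ₗ[F] F) (h : ∀ v, B u v = 0 → Q v = 0 → ψ v = 0) :
    ∀ x, B u x = 0 → ψ x = 0 := by
  have := fs1 (F := F) u
  have := D.dim
  obtain ⟨e, k1, k2, k3⟩ := D.sing_perp (span F {u}) (by omega)
  obtain ⟨f, j1, j2⟩ := sep B D.nd k2
  exact D.SPANrel (W := LinearMap.ker (B u)) ψ (k1 u (m1 u)) (j2 u (m1 u)) k3 j1 h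

lemma SC1 {u y : V} (h : ∀ v, B u v = 0 → Q v = 0 → B y v = 0) : y ∈ span F {u} := by
  by_contra hh
  obtain ⟨z, h1, h2⟩ := sep B D.nd hh
  rw [D.SPAN u (B y) h z (h2 u (m1 u))] at h1
  exact zero_ne_one h1

lemma SC2 (M : End F V) (h : ∀ u, Q u = 0 → M u ∈ span F {u}) : ∃ c : F, M = c • 1 := by
  have := D.dim
  have key : ∀ (u v : V) (c : F), Q u = 0 → Q v = 0 → B u v = 0 → u ≠ 0 → v ∉ span F {u} →
      (M u = c • u ↔ M v = c • v) := by
    intro u v c hu hv huv hu0 hv'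
    obtain ⟨s, hs⟩ := mem_span_singleton.mp (h u hu)
    obtain ⟨t, ht⟩ := mem_span_singleton.mp (h v hv)
    obtain ⟨r, hr⟩ := mem_span_singleton.mp (h (u + v) (by simp [D.pol, hu, hv, huv]))
    rw [map_add, ← hs, ← ht] at hr
    obtain ⟨e1, e2⟩ := indep_pair hu0 hv' (c := r - s) (d := r - t)
      (by linear_combination (norm := module) hr)
    have e3 : s = t := by linear_combination e2 - e1
    rw [← hs, ← ht, e3, (smul_left_injective F hu0).eq_iff,
      (smul_left_injective F (ne_zero_of_nmem hv')).eq_iff]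
  obtain ⟨u, -, hu0, hu⟩ := D.SING (W := ⊤) (R := ⊥) (by simp; omega)
  have hu0 : u ≠ 0 := by simpa using hu0
  obtain ⟨c, hc⟩ := mem_span_singleton.mp (h u hu)
  have all : ∀ v, Q v = 0 → M v = c • v := by
    intro v hv
    by_cases hv0 : v = 0
    · simp [hv0]
    have := fs2 (F := F) u v
    obtain ⟨w, k1, k2, k3⟩ := D.sing_perp (span F {u, v}) (by omega)
    have e1 := (key u w c hu k3 (k1 u (m21 _ _)) hu0 (fun hh => k2 (span_mono (by simp) hh))).mp
      hc.symm
    exact (key v w c hv k3 (k1 v (m22 _ _)) hv0 (fun hh => k2 (span_mono (by simp) hh))).mpr e1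
  refine ⟨c, ?_⟩
  ext x
  rw [← sub_eq_zero]
  apply D.nd
  intro y
  exact D.SPAN 0 (B y ∘ₗ (M - c • 1)) (fun v _ hv => by simp [all v hv]) x (by simp)

lemma SC (M : End F V) (h : ∀ u v, Q u = 0 → Q v = 0 → B u v = 0 → B (M u) v = 0) :
    ∃ c : F, M = c • 1 :=
  D.SC2 M fun u hu => D.SC1 fun v huv hv => h u v hu hv huv

lemma center (c : (End F V)ˣ) (hc : c ∈ G) (h : ∀ g ∈ G, g * c = c * g) :
    ∃ z ∈ {z : F | z ^ 2 = 1 ∧ z ^ finrank F V = 1}, c.val = z • 1 := by
  have hd := D.dim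
  have key : ∀ u v, Q u = 0 → Q v = 0 → B u v = 0 → v ∉ span F {u} → c.val u ∈ span F {u, v} := by
    intro u v hu hv huv hv'
    obtain ⟨z, k1, k2⟩ := sep B D.nd hv'
    have h4 := congrArg (fun g : (End F V)ˣ => g.val z) (h _ (D.N_mem hu hv huv))
    simp [D.symm v z, D.symm u z, k1, k2 u (m1 u)] at h4
    rw [← h4]
    exact sub_mem (smul_mem _ _ (m21 _ _)) (smul_mem _ _ (m22 _ _))
  obtain ⟨z, hz⟩ := D.SC2 c.val (fun u hu => by
    have := fs1 (F := F) u
    obtain ⟨v, k1, k2, k3⟩ := D.sing_perp (span F {u}) (by omega)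
    have := fs2 (F := F) u v
    obtain ⟨w, j1, j2, j3⟩ := D.sing_perp (span F {u, v}) (by omega)
    obtain ⟨s, t, e1⟩ := mem_span_pair.mp (key u v hu k3 (k1 u (m1 u)) k2)
    obtain ⟨s', t', e2⟩ := mem_span_pair.mp (key u w hu j3 (j1 u (m21 _ _))
      (fun hh => j2 (span_mono (by simp) hh)))
    have : t' = 0 := by
      by_contra ht
      apply j2
      rw [← smul_mem_iff _ ht, mem_span_pair]
      exact ⟨s - s', t, by linear_combination (norm := module) e1 - e2⟩
    rw [← e2, this, zero_smul, add_zero]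
    exact smul_mem _ _ (m1 u))
  refine ⟨z, ⟨?_, ?_⟩, hz⟩
  · obtain ⟨n, -, hn⟩ := D.univ_perp ⊥ (by simp; omega) 1
    have := D.isoQ hc n
    simpa [hz, Qsmul, hn] using this
  · have := D.det hc
    rw [hz, LinearMap.det_smul] at this
    simpa using this

end OD

end Pool.Agent.MP_db74b1_al

end

section

/-! Orthogonal groups, frames and first reductions. -/

set_option autoImplicit false
set_option linter.unusedSectionVars false

namespace Pool.Agent.MP_db74b1_al
open Module Submodule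

variable {F V : Type} [Field F] [AddCommGroup V] [Module F V] [Finite F] [FiniteDimensional F V]

/-- totally singular frame of length two -/
structure Fr2 (Q : QuadraticForm F V) (B : V →ₗ[F] V →ₗ[F] F) (u v : V) : Prop where
  qu : Q u = 0
  qv : Q v = 0
  uv : B u v = 0
  ne : u ≠ 0
  ind : v ∉ span F {u}

/-- totally singular frame of length three -/
structure Fr3 (Q : QuadraticForm F V) (B : V →ₗ[F] V →ₗ[F] F) (u v w : V) : Prop where
  f2 : Fr2 Q B u v
  qw : Q w = 0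
  uw : B u w = 0
  vw : B v w = 0
  ind : w ∉ span F {u, v}

/-- the quadratic term of the trace for orthogonal groups -/
def Qo (B : V →ₗ[F] V →ₗ[F] F) (a b : End F V) (u v u' v' : V) : F :=
  B (a u) v * B (b u') v' + B (a v) u * B (b v') u' - B (a u) u * B (b v') v' -
    B (a v) v * B (b u') u'

/-- its polar form -/
def Po (B : V →ₗ[F] V →ₗ[F] F) (a b : End F V) (u v w u' v' w' : V) : F :=
  B (a u) v * B (b u') w' + B (a u) w * B (b u') v' + B (a v) u * B (b w') u' +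
    B (a w) u * B (b v') u' - B (a u) u * (B (b v') w' + B (b w') v') -
    (B (a v) w + B (a w) v) * B (b u') u'

/-- the form of `a` vanishes on singular vectors -/
def Alt (Q : QuadraticForm F V) (B : V →ₗ[F] V →ₗ[F] F) (a : End F V) : Prop :=
  ∀ u, Q u = 0 → B (a u) u = 0

/-- the form of `a` is symmetric on totally singular planes -/
def Sym (Q : QuadraticForm F V) (B : V →ₗ[F] V →ₗ[F] F) (a : End F V) : Prop :=
  ∀ u v, Q u = 0 → Q v = 0 → B u v = 0 → B (a u) v = B (a v) u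

lemma Fr3.indep {Q : QuadraticForm F V} {B : V →ₗ[F] V →ₗ[F] F} {u v w : V} (h : Fr3 Q B u v w)
    {x y z : F} (e : x • u + y • v + z • w = 0) : x = 0 ∧ y = 0 ∧ z = 0 := by
  have hz : z = 0 := by
    by_contra hz
    apply h.ind
    rw [← smul_mem_iff _ hz, mem_span_pair]
    exact ⟨-x, -y, by linear_combination (norm := module) -e⟩
  rw [hz, zero_smul, add_zero] at e
  exact ⟨(indep_pair h.f2.ne h.f2.ind e).1, (indep_pair h.f2.ne h.f2.ind e).2, hz⟩

namespace OD
variable {Q : QuadraticForm F V} {B : V →ₗ[F] V →ₗ[F] F} {G : Subgroup (End F V)ˣ} (D : OD Q B G)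
include D

lemma fr2_tr {u v : V} (h : Fr2 Q B u v) {a b c d : F} (hd : a * d - b * c ≠ 0) :
    Fr2 Q B (a • u + b • v) (c • u + d • v) := by
  refine ⟨by simp [D.pol, Qsmul, h.qu, h.qv, h.uv], by simp [D.pol, Qsmul, h.qu, h.qv, h.uv],
    by simp [D.self0 h.qu, D.self0 h.qv, h.uv, D.flip0 h.uv], fun e => hd ?_, nmem1.mpr fun s e => hd ?_⟩
  · obtain ⟨e1, e2⟩ := indep_pair h.ne h.ind e
    simp [e1, e2]
  · obtain ⟨e1, e2⟩ := indep_pair h.ne h.ind (c := c - s * a) (d := d - s * b)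
      (by linear_combination (norm := module) e)
    linear_combination a * e2 - b * e1

lemma fr3_tr {u v w : V} (h : Fr3 Q B u v w) {s a1 a2 a3 b1 b2 b3 : F} (hs : s ≠ 0)
    (hd : a2 * b3 - a3 * b2 ≠ 0) :
    Fr3 Q B (s • u) (a1 • u + a2 • v + a3 • w) (b1 • u + b2 • v + b3 • w) := by
  have z1 := D.self0 h.f2.qu
  have z2 := D.self0 h.f2.qv
  have z3 := D.self0 h.qw
  have z4 := D.flip0 h.f2.uv
  have z5 := D.flip0 h.uw
  have z6 := D.flip0 h.vw
  refine ⟨⟨by simp [Qsmul, h.f2.qu], by simp [D.pol, Qsmul, h.f2.qu, h.f2.qv, h.qw, h.f2.uv, h.uw, h.vw],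
    by simp [z1, h.f2.uv, h.uw], smul_ne_zero hs h.f2.ne, nmem1.mpr fun t e => hd ?_⟩,
    by simp [D.pol, Qsmul, h.f2.qu, h.f2.qv, h.qw, h.f2.uv, h.uw, h.vw],
    by simp [z1, h.f2.uv, h.uw], by simp [z1, z2, z3, z4, z5, z6, h.f2.uv, h.uw, h.vw],
    nmem2.mpr fun t r e => hd ?_⟩
  · obtain ⟨-, e2, e3⟩ := h.indep (x := a1 - t * s) (y := a2) (z := a3)
      (by linear_combination (norm := module) e)
    simp [e2, e3]
  · obtain ⟨-, e2, e3⟩ := h.indep (x := b1 - t * s - r * a1) (y := b2 - r * a2) (z := b3 - r * a3)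
      (by linear_combination (norm := module) e)
    linear_combination a2 * e3 - a3 * e2

lemma ext2 {u : V} (hu : Q u = 0) (hu0 : u ≠ 0) : ∃ v, Fr2 Q B u v := by
  have := fs1 (F := F) u
  have := D.dim
  obtain ⟨v, k1, k2, k3⟩ := D.sing_perp (span F {u}) (by omega)
  exact ⟨v, hu, k3, k1 u (m1 u), hu0, k2⟩

lemma ext3 {u v : V} (h : Fr2 Q B u v) : ∃ w, Fr3 Q B u v w := by
  have := fs2 (F := F) u v
  have := D.dim
  obtain ⟨w, k1, k2, k3⟩ := D.sing_perp (span F {u, v}) (by omega)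
  exact ⟨w, h, k3, k1 u (m21 _ _), k1 v (m22 _ _), k2⟩

lemma T1 {x x' : V} (hx : x ≠ 0) (hx' : x' ≠ 0) (k : Q x = 0) (k' : Q x' = 0) :
    ∃ g ∈ G, g.val x = x' := by
  have := D.dim
  obtain ⟨g, hg, -, e⟩ := D.step (W := ⊥) (by simp; omega) (by simpa using hx) (by simpa using hx')
    k k' (by simp) (by simp)
  exact ⟨g, hg, e⟩

lemma T2 {u v u' v' : V} (h : Fr2 Q B u v) (h' : Fr2 Q B u' v') :
    ∃ g ∈ G, g.val u' = u ∧ g.val v' = v := by
  obtain ⟨g, hg, e⟩ := D.T1 h'.ne h.ne h'.qu h.qu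
  have h1 : g.val v' ∉ span F {u} := by
    rw [nmem1]
    intro c hc
    apply nmem1.mp h'.ind c
    rw [← inv_app g v', hc, ← e, map_smul, inv_app]
  have := fs1 (F := F) u
  have := D.dim
  obtain ⟨g', hg', e1, e2⟩ := D.step (W := span F {u}) (by omega) h1 h.ind
    (by rw [D.isoQ hg, h'.qv]) h.qv (span1_perp (by rw [← e, D.iso hg, h'.uv])) (span1_perp h.uv)
  exact ⟨g' * g, G.mul_mem hg' hg, by simp [e, e1 u (m1 u)], by simp [e2]⟩

lemma T3 (h8 : 8 ≤ finrank F V) {u v w u' v' w' : V} (h : Fr3 Q B u v w) (h' : Fr3 Q B u' v' w') :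
    ∃ g ∈ G, g.val u' = u ∧ g.val v' = v ∧ g.val w' = w := by
  obtain ⟨g, hg, e, e'⟩ := D.T2 h.f2 h'.f2
  have h1 : g.val w' ∉ span F {u, v} := by
    rw [nmem2]
    intro c d hc
    apply nmem2.mp h'.ind c d
    rw [← inv_app g w', hc, ← e, ← e', map_add, map_smul, map_smul, inv_app, inv_app]
  have := fs2 (F := F) u v
  obtain ⟨g', hg', e1, e2⟩ := D.step (W := span F {u, v}) (by omega) h1 h.ind
    (by rw [D.isoQ hg, h'.qw]) h.qw
    (span2_perp (by rw [← e, D.iso hg, h'.uw]) (by rw [← e', D.iso hg, h'.vw]))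
    (span2_perp h.uw h.vw)
  exact ⟨g' * g, G.mul_mem hg' hg, by simp [e, e1 u (m21 _ _)], by simp [e', e1 v (m22 _ _)],
    by simp [e2]⟩

lemma conjB {g b : (End F V)ˣ} (hg : g ∈ G) (x y : V) :
    B (b.val x) y = B ((g * b * g⁻¹).val (g.val x)) (g.val y) := by
  rw [conj_app, D.iso hg]

lemma alt_skew {a : End F V} (h : Alt Q B a) {u v : V} (hu : Q u = 0) (hv : Q v = 0)
    (huv : B u v = 0) : B (a v) u = - B (a u) v := by
  have := h (u + v) (by simp [D.pol, hu, hv, huv])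
  simp only [map_add, LinearMap.add_apply, h u hu, h v hv] at this
  linear_combination this

lemma alt_frame {a : End F V} (h : Alt Q B a) (na : NS a) : ∃ u v, Fr2 Q B u v ∧ B (a u) v ≠ 0 := by
  obtain ⟨u, v, hu, hv, huv, hA⟩ : ∃ u v, Q u = 0 ∧ Q v = 0 ∧ B u v = 0 ∧ B (a u) v ≠ 0 := by
    by_contra hh
    push Not at hh
    obtain ⟨c, hc⟩ := D.SC _ hh
    exact na c hc
  refine ⟨u, v, ⟨hu, hv, huv, by rintro rfl; simp at hA, nmem1.mpr ?_⟩, hA⟩
  rintro c rfl
  simp [h u hu] at hA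

omit D in
lemma sym_of_frames {a : End F V} (h : ∀ u v, Fr2 Q B u v → B (a u) v = B (a v) u) :
    Sym Q B a := by
  intro u v hu hv huv
  by_cases hu0 : u = 0
  · simp [hu0]
  by_cases hv' : v ∈ span F {u}
  · obtain ⟨c, rfl⟩ := mem_span_singleton.mp hv'
    simp
  exact h u v ⟨hu, hv, huv, hu0, hv'⟩

lemma alt_sc {a : (End F V)ˣ} (ha : a ∈ G) (h : Alt Q B a.val) :
    ∃ l : F, a.val + (1 : F) • a⁻¹.val = l • 1 := by
  apply D.SC
  intro u v hu hv huv
  simp [D.symm v (a⁻¹.val u), ← D.adj ha, D.alt_skew h hu hv huv]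

lemma sym_sc {a : (End F V)ˣ} (ha : a ∈ G) (h : Sym Q B a.val) :
    ∃ l : F, a.val + (-1 : F) • a⁻¹.val = l • 1 := by
  apply D.SC
  intro u v hu hv huv
  simp [D.symm v (a⁻¹.val u), ← D.adj ha, h u v hu hv huv]

variable {Z : Set F} {a b : (End F V)ˣ} {e : End F V} (h : Bad G Z a b e)
include h

lemma frame {u p : V} (hu : Q u = 0) (hp : Q p = 0) (hup : B u p = 0) : ∃ ζ ∈ Z,
    tr (a.val * b.val) + (B ((b.val * a.val - a.val * b.val) u) p -
      B ((b.val * a.val - a.val * b.val) p) u) - Qo B a.val b.val u p u p = ζ * tr e := by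
  obtain ⟨ζ, hζ, h1, -⟩ := h.tr_unip _ _ (D.N_mem hu hp hup)
  refine ⟨ζ, hζ, ?_⟩
  rw [← h1, tr_expand]
  generalize b.val * a.val - a.val * b.val = L
  simp only [op, mul_sub, sub_mul, mul_rk, map_sub, map_smul, tr_rk, LinearMap.flip_apply, rk_apply,
    smul_eq_mul, Qo]
  ring

lemma pairs2 (ha : a ∈ G) (hb : b ∈ G) {u v u' v' : V} (f : Fr2 Q B u v) (f' : Fr2 Q B u' v') :
    ∃ T l : F, (∀ α β : F, (2 : F) = 0 → a.val + (1 : F) • a⁻¹.val = α • 1 →
        b.val + (1 : F) • b⁻¹.val = β • 1 → l = 0) ∧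
      ∀ x : F, ∃ ζ ∈ Z, T + l * x - Qo B a.val b.val u v u' v' * x ^ 2 = ζ * tr e := by
  obtain ⟨g, hg, e1, e2⟩ := D.T2 f f'
  have e3 : Qo B a.val b.val u v u' v' = Qo B a.val (g * b * g⁻¹).val u v u v := by
    simp only [Qo, D.conjB (b := b) hg, e1, e2]
  refine ⟨tr (a.val * (g * b * g⁻¹).val),
    B (((g * b * g⁻¹).val * a.val - a.val * (g * b * g⁻¹).val) u) v -
      B (((g * b * g⁻¹).val * a.val - a.val * (g * b * g⁻¹).val) v) u, ?_, fun x => ?_⟩
  · intro α β h2 k1 k2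
    have k2 := conj_sc (g := g) k2
    have hb' : g * b * g⁻¹ ∈ G := G.mul_mem (G.mul_mem hg hb) (G.inv_mem hg)
    generalize g * b * g⁻¹ = b' at k2 hb'
    have ia : ∀ x, a⁻¹.val x = α • x - a.val x := fun x => by
      have := LinearMap.congr_fun k1 x
      simp only [one_smul, LinearMap.add_apply, LinearMap.smul_apply, End.one_apply] at this
      rw [← this]; abel
    have ib : ∀ x, b'⁻¹.val x = β • x - b'.val x := fun x => by
      have := LinearMap.congr_fun k2 x
      simp only [one_smul, LinearMap.add_apply, LinearMap.smul_apply, End.one_apply] at this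
      rw [← this]; abel
    have f1 : B (a.val (b'.val v)) u = B v (b'⁻¹.val (a⁻¹.val u)) := by rw [D.adj ha, D.adj hb']
    have f2 : B (b'.val (a.val v)) u = B v (a⁻¹.val (b'⁻¹.val u)) := by rw [D.adj hb', D.adj ha]
    rw [D.symm _ v] at f1 f2
    simp only [ia, ib, map_sub, map_smul, smul_eq_mul, f.uv, LinearMap.sub_apply,
      LinearMap.smul_apply] at f1 f2
    simp only [LinearMap.sub_apply, End.mul_apply, map_sub, f1, f2]
    linear_combination (B (b'.val (a.val u)) v - B (a.val (b'.val u)) v) * h2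
  · obtain ⟨ζ, hζ, k⟩ := D.frame (h.conjR hg) f.qu (p := x • v) (by simp [Qsmul, f.qv])
      (by simp [f.uv])
    refine ⟨ζ, hζ, ?_⟩
    rw [← k, e3]
    simp only [Qo, map_smul, LinearMap.smul_apply, smul_eq_mul]
    ring

lemma D3 (h8 : 8 ≤ finrank F V) (hZ : ∀ z ∈ Z, z ≠ 0) {u v w u' v' w' : V} (f : Fr3 Q B u v w)
    (f' : Fr3 Q B u' v' w') : Po B a.val b.val u v w u' v' w' ^ 2 =
      4 * Qo B a.val b.val u v u' v' * Qo B a.val b.val u w u' w' := by
  obtain ⟨g, hg, e1, e2, e3⟩ := D.T3 h8 f f'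
  simp only [Po, Qo, D.conjB (b := b) hg, e1, e2, e3]
  have h' := h.conjR hg
  generalize g * b * g⁻¹ = b' at h'
  apply D2 (c := tr (a.val * b'.val)) (t := tr e)
    (l1 := B ((b'.val * a.val - a.val * b'.val) u) v - B ((b'.val * a.val - a.val * b'.val) v) u)
    (l2 := B ((b'.val * a.val - a.val * b'.val) u) w - B ((b'.val * a.val - a.val * b'.val) w) u)
  intro x y
  obtain ⟨ζ, hζ, k⟩ := D.frame h' f.f2.qu (p := x • v + y • w)
    (by simp [D.pol, Qsmul, f.f2.qv, f.qw, f.vw]) (by simp [f.f2.uv, f.uw])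
  refine ⟨ζ, hZ ζ hζ, ?_⟩
  rw [← k]
  simp only [Qo, map_smul, map_add, LinearMap.add_apply, LinearMap.smul_apply, smul_eq_mul]
  ring

omit h in
lemma redTZ0 (na : NS a.val)
    (H : ∀ u v u' v', Fr2 Q B u v → Fr2 Q B u' v' → Qo B a.val b.val u v u' v' = 0)
    (hA : Alt Q B a.val) : Sym Q B b.val := by
  obtain ⟨u, v, f, hne⟩ := D.alt_frame hA na
  apply sym_of_frames
  intro u' v' f'
  have := H u v u' v' f f'
  simp only [Qo, hA u f.qu, hA v f.qv, D.alt_skew hA f.qu f.qv f.uv] at this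
  apply mul_left_cancel₀ hne
  linear_combination this

lemma redTZ (h3 : 2 < Nat.card F) (hZ : ∀ z ∈ Z, z = 1) (ha : a ∈ G) (hb : b ∈ G) (na : NS a.val)
    (nb : NS b.val) : (Alt Q B a.val ∧ Sym Q B b.val) ∨ (Alt Q B b.val ∧ Sym Q B a.val) := by
  obtain ⟨θ, h0, h1⟩ := exists_third h3
  have H : ∀ u v u' v', Fr2 Q B u v → Fr2 Q B u' v' → Qo B a.val b.val u v u' v' = 0 := by
    intro u v u' v' f f'
    obtain ⟨T, l, -, k⟩ := D.pairs2 h ha hb f f'
    obtain ⟨z1, j1, i1⟩ := k 0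
    obtain ⟨z2, j2, i2⟩ := k 1
    obtain ⟨z3, j3, i3⟩ := k θ
    rw [hZ _ j1] at i1
    rw [hZ _ j2] at i2
    rw [hZ _ j3] at i3
    apply mul_left_cancel₀ (mul_ne_zero h0 (sub_ne_zero.mpr h1))
    linear_combination θ * i2 - i3 - (θ - 1) * i1
  by_cases hA : Alt Q B a.val
  · exact Or.inl ⟨hA, D.redTZ0 na H hA⟩
  by_cases hB : Alt Q B b.val
  · refine Or.inr ⟨hB, D.redTZ0 nb (fun u v u' v' f f' => ?_) hB⟩
    rw [← H u' v' u v f' f]
    simp only [Qo]; ring
  exfalso
  simp only [Alt, not_forall] at hA hB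
  obtain ⟨u, hu, hA⟩ := hA
  obtain ⟨u', hu', hB⟩ := hB
  obtain ⟨v, f⟩ := D.ext2 hu (by rintro rfl; simp at hA)
  obtain ⟨v', f'⟩ := D.ext2 hu' (by rintro rfl; simp at hB)
  have key := fun c : F => H _ _ u' v' (D.fr2_tr f (a := 1) (b := 0) (c := c) (d := 1) (by simp)) f'
  simp only [Qo, map_add, map_smul, LinearMap.add_apply, LinearMap.smul_apply, smul_eq_mul] at key
  apply mul_ne_zero (mul_ne_zero hA hB) (mul_ne_zero h0 (sub_ne_zero.mpr h1))
  linear_combination θ * key 1 - key θ - (θ - 1) * key 0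

lemma P2 (h2 : (2 : F) = 0) (h8 : 8 ≤ finrank F V) (hZ : ∀ z ∈ Z, z ≠ 0) {u v w u' v' w' : V}
    (f : Fr3 Q B u v w) (f' : Fr3 Q B u' v' w') : Po B a.val b.val u v w u' v' w' = 0 := by
  have := D.D3 h h8 hZ f f'
  apply pow_eq_zero_iff two_ne_zero |>.mp
  rw [this]
  linear_combination (2 * Qo B a.val b.val u v u' v' * Qo B a.val b.val u w u' w') * h2

lemma red2a (h2 : (2 : F) = 0) (h8 : 8 ≤ finrank F V) (hZ : ∀ z ∈ Z, z ≠ 0) {u' : V}
    (hu' : Q u' = 0) (hB : B (b.val u') u' ≠ 0) : Sym Q B a.val := by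
  apply sym_of_frames
  intro u v f
  obtain ⟨w, f3⟩ := D.ext3 f
  obtain ⟨v', f'⟩ := D.ext2 hu' (by rintro rfl; simp at hB)
  obtain ⟨w', f3'⟩ := D.ext3 f'
  have key := fun c d : F => D.P2 h h2 h8 hZ (D.fr3_tr f3 (s := 1) (a1 := c) (a2 := 1) (a3 := 0)
    (b1 := 0) (b2 := d) (b3 := 1) one_ne_zero (by simp)) f3'
  simp only [Po, map_add, map_smul, LinearMap.add_apply, LinearMap.smul_apply, smul_eq_mul] at key
  apply mul_left_cancel₀ hB
  linear_combination key 1 0 + key 0 1 - key 1 1 - key 0 0 - B (a.val v) u * B (b.val u') u' * h2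

lemma red2b (h2 : (2 : F) = 0) (h8 : 8 ≤ finrank F V) (hZ : ∀ z ∈ Z, z ≠ 0) (na : NS a.val)
    (hA : Alt Q B a.val) : Sym Q B b.val := by
  obtain ⟨u, v, f, hne⟩ := D.alt_frame hA na
  obtain ⟨w, f3⟩ := D.ext3 f
  apply sym_of_frames
  intro u' v' f'
  obtain ⟨w', f3'⟩ := D.ext3 f'
  have key := fun d : F => D.P2 h h2 h8 hZ (D.fr3_tr f3 (s := 1) (a1 := 0) (a2 := 1) (a3 := 0)
    (b1 := 0) (b2 := d) (b3 := 1) one_ne_zero (by simp)) f3'
  simp only [Po, map_add, map_smul, LinearMap.add_apply, LinearMap.smul_apply, smul_eq_mul,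
    hA u f.qu, hA v f.qv, D.alt_skew hA f.qu f.qv f.uv] at key
  apply mul_left_cancel₀ hne
  linear_combination key 1 - key 0

lemma red2 (h2 : (2 : F) = 0) (h8 : 8 ≤ finrank F V) (hZ : ∀ z ∈ Z, z = 1) (ha : a ∈ G) (hb : b ∈ G)
    (na : NS a.val) (nb : NS b.val) :
    (Alt Q B a.val ∧ Sym Q B b.val) ∨ (Alt Q B b.val ∧ Sym Q B a.val) := by
  have hZ' : ∀ z ∈ Z, z ≠ 0 := fun z hz => by rw [hZ z hz]; exact one_ne_zero
  by_cases hA : Alt Q B a.val
  · exact Or.inl ⟨hA, D.red2b h h2 h8 hZ' na hA⟩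
  by_cases hB : Alt Q B b.val
  · exact Or.inr ⟨hB, D.red2b h.swap h2 h8 hZ' nb hB⟩
  exfalso
  simp only [Alt, not_forall] at hA hB
  obtain ⟨u, hu, hA⟩ := hA
  obtain ⟨u', hu', hB⟩ := hB
  have sa := D.red2a h h2 h8 hZ' hu' hB
  have sb := D.red2a h.swap h2 h8 hZ' hu hA
  have m1 : (-1 : F) = 1 := by linear_combination -h2
  obtain ⟨α, hα⟩ := D.sym_sc ha sa
  obtain ⟨β, hβ⟩ := D.sym_sc hb sb
  rw [m1] at hα hβ
  have H : ∀ u v u' v', Fr2 Q B u v → Fr2 Q B u' v' → Qo B a.val b.val u v u' v' = 0 := by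
    intro u v u' v' f f'
    obtain ⟨T, l, k0, k⟩ := D.pairs2 h ha hb f f'
    obtain ⟨z1, j1, i1⟩ := k 0
    obtain ⟨z2, j2, i2⟩ := k 1
    rw [hZ _ j1] at i1
    rw [hZ _ j2, k0 α β h2 hα hβ] at i2
    linear_combination i1 - i2
  obtain ⟨v, f⟩ := D.ext2 hu (by rintro rfl; simp at hA)
  obtain ⟨v', f'⟩ := D.ext2 hu' (by rintro rfl; simp at hB)
  have key := fun c : F => H _ _ u' v' (D.fr2_tr f (a := 1) (b := 0) (c := c) (d := 1) (by simp)) f'
  simp only [Qo, map_add, map_smul, LinearMap.add_apply, LinearMap.smul_apply, smul_eq_mul,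
    sa u v f.qu f.qv f.uv, sb u' v' f'.qu f'.qv f'.uv] at key
  apply mul_ne_zero hA hB
  linear_combination key 0 - key 1 +
    (B (a.val u) u * B (b.val v') u' - B (a.val v) u * B (b.val u') u') * h2

end OD

end Pool.Agent.MP_db74b1_al

end

section

/-! Orthogonal groups, reductions in odd characteristic and the `c2` identity. -/

set_option autoImplicit false
set_option linter.unusedSectionVars false
set_option linter.unusedSimpArgs false

namespace Pool.Agent.MP_db74b1_al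
open Module Submodule

variable {F V : Type} [Field F] [AddCommGroup V] [Module F V] [Finite F] [FiniteDimensional F V]

/-- degenerate Gram matrices on totally singular planes -/
def Gdeg (Q : QuadraticForm F V) (B : V →ₗ[F] V →ₗ[F] F) (a : End F V) : Prop :=
  ∀ u v, Q u = 0 → Q v = 0 → B u v = 0 → B (a u) u * B (a v) v = B (a u) v ^ 2

lemma four_ne (h2 : (2 : F) ≠ 0) : (4 : F) ≠ 0 := by
  have : (4 : F) = 2 * 2 := by norm_num
  rw [this]; exact mul_ne_zero h2 h2

lemma eight_ne (h2 : (2 : F) ≠ 0) : (8 : F) ≠ 0 := by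
  have : (8 : F) = 2 * 4 := by norm_num
  rw [this]; exact mul_ne_zero h2 (four_ne h2)

namespace OD
variable {Q : QuadraticForm F V} {B : V →ₗ[F] V →ₗ[F] F} {G : Subgroup (End F V)ˣ} (D : OD Q B G)
include D

lemma norm2 (h2 : (2 : F) ≠ 0) (a : End F V) {u v : V} (f : Fr2 Q B u v) (hu : B (a u) u ≠ 0) :
    ∃ c : F, Fr2 Q B u (c • u + v) ∧ B (a u) (c • u + v) + B (a (c • u + v)) u = 0 := by
  refine ⟨-(B (a u) v + B (a v) u) / (2 * B (a u) u), ?_, ?_⟩
  · simpa using D.fr2_tr f (a := 1) (b := 0) (c := -(B (a u) v + B (a v) u) / (2 * B (a u) u))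
      (d := 1) (by simp)
  · simp only [map_add, map_smul, LinearMap.add_apply, LinearMap.smul_apply, smul_eq_mul]
    field_simp
    ring

lemma K0 (h2 : (2 : F) ≠ 0) {a : End F V} (h : ¬ Sym Q B a) : ∃ u v w, Fr3 Q B u v w ∧
    B (a u) v ≠ 0 ∧ B (a v) u = - B (a u) v ∧ B (a w) u = B (a u) w := by
  have : ∃ u v, Fr2 Q B u v ∧ B (a u) v ≠ 0 ∧ B (a v) u = - B (a u) v := by
    obtain ⟨u, v, f, hne⟩ : ∃ u v, Fr2 Q B u v ∧ B (a u) v ≠ B (a v) u := by
      by_contra hh
      push Not at hh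
      exact h (sym_of_frames hh)
    have key : ∀ u v, Fr2 Q B u v → B (a u) v ≠ B (a v) u → B (a u) u ≠ 0 →
        ∃ u v, Fr2 Q B u v ∧ B (a u) v ≠ 0 ∧ B (a v) u = - B (a u) v := by
      intro u v f hne hu
      obtain ⟨c, f', k⟩ := D.norm2 h2 a f hu
      refine ⟨u, c • u + v, f', fun hh => hne ?_, by linear_combination k⟩
      simp only [map_add, map_smul, LinearMap.add_apply, LinearMap.smul_apply, smul_eq_mul] at k hh
      linear_combination 2 * hh - k
    by_cases h1 : B (a u) u = 0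
    swap
    · exact key u v f hne h1
    by_cases h3 : B (a u) v + B (a v) u = 0
    · exact ⟨u, v, f, fun hh => hne (by linear_combination 2 * hh - h3), by linear_combination h3⟩
    by_cases h4 : B (a v) v = 0
    · refine key _ _ (D.fr2_tr f (a := 1) (b := 1) (c := 0) (d := 1) (by simp)) ?_ ?_
      · simpa using hne
      · simpa [h1, h4, add_comm] using h3
    · refine key _ _ (D.fr2_tr f (a := 0) (b := 1) (c := 1) (d := 0) (by simp)) ?_ ?_
      · simpa using hne.symm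
      · simpa using h4
  obtain ⟨u, v, f, k1, k2⟩ := this
  obtain ⟨w, f3⟩ := D.ext3 f
  refine ⟨u, v, ((B (a w) u - B (a u) w) / (2 * B (a u) v)) • v + w, ?_, k1, k2, ?_⟩
  · simpa using D.fr3_tr f3 (s := 1) (a1 := 0) (a2 := 1) (a3 := 0) (b1 := 0)
      (b2 := (B (a w) u - B (a u) w) / (2 * B (a u) v)) (b3 := 1) one_ne_zero (by simp)
  · simp only [map_add, map_smul, LinearMap.add_apply, LinearMap.smul_apply, smul_eq_mul, k2]
    field_simp
    ring

variable {Z : Set F} {a b : (End F V)ˣ} {e : End F V} (h : Bad G Z a b e)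
include h

section odd
variable (h2 : (2 : F) ≠ 0) (h8 : 8 ≤ finrank F V) (hZ : ∀ z ∈ Z, z ≠ 0)
include h2 h8 hZ

lemma I1 {u v u' v' : V} (f : Fr2 Q B u v) (f' : Fr2 Q B u' v') (hA : B (a.val u) u ≠ 0)
    (hB : B (b.val u') u' ≠ 0) (s : B (a.val u) v + B (a.val v) u = 0)
    (s' : B (b.val u') v' + B (b.val v') u' = 0) : B (a.val u) v * B (b.val u') v' = 0 ∧
      B (a.val u) u * B (b.val v') v' + B (a.val v) v * B (b.val u') u' = 0 := by
  obtain ⟨w, f3⟩ := D.ext3 f
  obtain ⟨w', f3'⟩ := D.ext3 f'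
  have e1 : B (a.val v) u = - B (a.val u) v := by linear_combination s
  have e2 : B (b.val v') u' = - B (b.val u') v' := by linear_combination s'
  have key := fun (t c : F) (ht : t ≠ 0) => D.D3 h h8 hZ (D.fr3_tr f3 (s := t) (a1 := 0) (a2 := 1)
    (a3 := 0) (b1 := c) (b2 := 0) (b3 := 1) ht (by simp)) f3'
  simp only [Po, Qo, map_add, map_smul, LinearMap.add_apply, LinearMap.smul_apply, smul_eq_mul,
    e1, e2] at key
  have hne := mul_ne_zero (eight_ne h2) (mul_ne_zero hA hB)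
  have k1 : 2 * (B (a.val u) v * B (b.val u') v') -
      (B (a.val u) u * B (b.val v') v' + B (a.val v) v * B (b.val u') u') = 0 := by
    apply mul_left_cancel₀ hne
    linear_combination key 1 1 one_ne_zero + key 1 (-1) one_ne_zero - 2 * key 1 0 one_ne_zero
  have k2 : -2 * (B (a.val u) v * B (b.val u') v') -
      (B (a.val u) u * B (b.val v') v' + B (a.val v) v * B (b.val u') u') = 0 := by
    apply mul_left_cancel₀ hne
    have hn : (-1 : F) ≠ 0 := by simp
    linear_combination key (-1) 1 hn + key (-1) (-1) hn - 2 * key (-1) 0 hn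
  constructor
  · apply mul_left_cancel₀ (four_ne h2)
    linear_combination k1 - k2
  · apply mul_left_cancel₀ h2
    linear_combination -k1 - k2

lemma gdeg (hA : ¬ Alt Q B a.val) (hS : Sym Q B b.val) : Gdeg Q B b.val := by
  simp only [Alt, not_forall] at hA
  obtain ⟨u, hu, hA⟩ := hA
  obtain ⟨v0, f0⟩ := D.ext2 hu (by rintro rfl; simp at hA)
  obtain ⟨c, f, s1⟩ := D.norm2 h2 a.val f0 hA
  generalize c • u + v0 = v at f s1
  obtain ⟨w0, f3⟩ := D.ext3 f
  obtain ⟨d, -, s2⟩ := D.norm2 h2 a.val (D.fr3_tr f3 (s := 1) (a1 := 0) (a2 := 0) (a3 := 1)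
    (b1 := 0) (b2 := 1) (b3 := 0) one_ne_zero (by simp)).f2 (by simpa using hA)
  simp only [one_smul, zero_smul, zero_add] at s2
  have key : ∀ y z, Q y = 0 → Q z = 0 → B y z = 0 → B (b.val y) y ≠ 0 →
      B (b.val y) y * B (b.val z) z = B (b.val y) z ^ 2 := by
    intro y z hy hz hyz hne
    by_cases hz' : z ∈ span F {y}
    · obtain ⟨c, rfl⟩ := mem_span_singleton.mp hz'
      simp; ring
    obtain ⟨t, f', s'⟩ := D.norm2 h2 b.val ⟨hy, hz, hyz, by rintro rfl; simp at hne, hz'⟩ hne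
    have k := fun (x1 x2 y1 y2 : F) (hx : x1 * y2 - x2 * y1 ≠ 0) => (D.I1 h h2 h8 hZ
      (D.fr3_tr f3 (s := 1) (a1 := x2 * d) (a2 := x1) (a3 := x2) (b1 := 0) (b2 := y1) (b3 := y2)
        one_ne_zero hx).f2 f' (by simpa using hA) hne (by
          simp only [map_add, map_smul, LinearMap.add_apply, LinearMap.smul_apply, smul_eq_mul]
            at s2 ⊢
          linear_combination x1 * s1 + x2 * s2) s').2
    have k1 := k 1 0 0 1 (by simp)
    have k2 := k 0 1 1 0 (by simp)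
    have k3 := k 1 1 0 1 (by simp)
    have k4 := k 1 (-1) 0 1 (by simp)
    have k5 : B (b.val (t • y + z)) (t • y + z) = 0 := by
      apply mul_left_cancel₀ (mul_ne_zero h2 hA)
      generalize B (b.val (t • y + z)) (t • y + z) = X at k1 k2 k3 k4
      simp only [map_add, map_smul, LinearMap.add_apply, LinearMap.smul_apply, smul_eq_mul]
        at k1 k2 k3 k4
      linear_combination 2 * k1 + 2 * k2 - k3 - k4
    simp only [map_add, map_smul, LinearMap.add_apply, LinearMap.smul_apply, smul_eq_mul,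
      ← hS y z hy hz hyz] at k5 s'
    apply mul_left_cancel₀ (four_ne h2)
    linear_combination 4 * B (b.val y) y * k5 - (2 * B (b.val y) z + 2 * t * B (b.val y) y) * s'
  intro y z hy hz hyz
  by_cases h1 : B (b.val y) y = 0
  swap
  · exact key y z hy hz hyz h1
  by_cases h3 : B (b.val z) z = 0
  · by_contra hne
    have h5 : B (b.val y) z ≠ 0 := by
      intro hh; apply hne; rw [h1, hh]; ring
    have := key (y + z) z (by simp [D.pol, hy, hz, hyz]) hz (by simp [hyz, D.self0 hz]) (by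
      simp only [map_add, LinearMap.add_apply, h1, h3, ← hS y z hy hz hyz]
      intro hh; apply mul_ne_zero h2 h5; linear_combination hh)
    simp only [map_add, LinearMap.add_apply, h1, h3] at this
    apply hne
    rw [h1]
    linear_combination this
  · have := key z y hz hy (D.flip0 hyz) h3
    rw [← hS y z hy hz hyz] at this
    linear_combination this

lemma skew1 {u v w u' v' w' : V} (f : Fr3 Q B u v w) (f' : Fr3 Q B u' v' w')
    (k1 : B (a.val u) v ≠ 0) (k2 : B (a.val v) u = - B (a.val u) v)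
    (k3 : B (a.val w) u = B (a.val u) w) (j1 : B (b.val u') v' ≠ 0)
    (j2 : B (b.val v') u' = - B (b.val u') v') (j3 : B (b.val w') u' = B (b.val u') w')
    (hA : B (a.val u) u = 0) : False := by
  have hne := mul_ne_zero k1 j1
  have hn : (-1 : F) ≠ 0 := by simp
  by_cases hB : B (b.val u') u' = 0
  · have key := fun (c : F) (hc : c ≠ 0) => D.D3 h h8 hZ (D.fr3_tr f (s := 1) (a1 := 0) (a2 := 1)
      (a3 := 0) (b1 := 0) (b2 := 0) (b3 := c) one_ne_zero (by simpa using hc))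
      (D.fr3_tr f' (s := 1) (a1 := 0) (a2 := 0) (a3 := 1) (b1 := 0) (b2 := 1) (b3 := 0) one_ne_zero
        (by simp))
    simp only [Po, Qo, map_add, map_smul, LinearMap.add_apply, LinearMap.smul_apply, smul_eq_mul,
      k2, k3, j2, j3, hA, hB] at key
    have e1 : 2 * (B (a.val u) v * B (b.val u') v' + B (a.val u) w * B (b.val u') w') = 0 :=
      pow_eq_zero_iff two_ne_zero |>.mp (by linear_combination key 1 one_ne_zero)
    have e2 : 2 * (B (a.val u) v * B (b.val u') v' - B (a.val u) w * B (b.val u') w') = 0 :=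
      pow_eq_zero_iff two_ne_zero |>.mp (by linear_combination key (-1) hn)
    exact mul_ne_zero (four_ne h2) hne (by linear_combination e1 + e2)
  · obtain ⟨t, ht⟩ : ∃ t : F, t * B (b.val u') u' = - B (b.val u') w' :=
      ⟨- B (b.val u') w' / B (b.val u') u', by field_simp⟩
    have key := fun (s c : F) (hs : s ≠ 0) => D.D3 h h8 hZ (D.fr3_tr f (s := s) (a1 := 0) (a2 := 1)
      (a3 := c) (b1 := 0) (b2 := 0) (b3 := 1) hs (by simp))
      (D.fr3_tr f' (s := 1) (a1 := t) (a2 := 0) (a3 := 1) (b1 := 0) (b2 := 1) (b3 := 0) one_ne_zero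
        (by simp))
    simp only [Po, Qo, map_add, map_smul, LinearMap.add_apply, LinearMap.smul_apply, smul_eq_mul,
      k2, k3, j2, j3, hA, one_mul, ht, zero_mul, add_zero, zero_add, neg_add_cancel, mul_zero] at key
    have hne' := mul_ne_zero (mul_ne_zero (eight_ne h2) hne) hB
    have e1 : B (a.val v) w + B (a.val w) v = 0 := by
      apply mul_left_cancel₀ hne'
      linear_combination key (-1) 0 hn - key 1 0 one_ne_zero
    have e2 : B (a.val v) w + B (a.val w) v + 2 * B (a.val w) w = 0 := by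
      apply mul_left_cancel₀ hne'
      linear_combination key (-1) 1 hn - key 1 1 one_ne_zero
    have e3 : B (a.val w) w = 0 := by
      apply mul_left_cancel₀ h2
      linear_combination e2 - e1
    have := key 1 0 one_ne_zero
    simp only [e3, zero_mul, add_zero, zero_add, e1] at this
    apply mul_ne_zero (four_ne h2) (pow_ne_zero 2 hne)
    linear_combination this

lemma skewskew : Sym Q B a.val ∨ Sym Q B b.val := by
  by_contra hh
  push Not at hh
  obtain ⟨u, v, w, f, k1, k2, k3⟩ := D.K0 h2 hh.1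
  obtain ⟨u', v', w', f', j1, j2, j3⟩ := D.K0 h2 hh.2
  by_cases hA : B (a.val u) u = 0
  · exact D.skew1 h h2 h8 hZ f f' k1 k2 k3 j1 j2 j3 hA
  by_cases hB : B (b.val u') u' = 0
  · exact D.skew1 h.swap h2 h8 hZ f' f j1 j2 j3 k1 k2 k3 hB
  exact mul_ne_zero k1 j1 (D.I1 h h2 h8 hZ f.f2 f'.f2 hA hB (by linear_combination k2)
    (by linear_combination j2)).1

end odd

lemma GO0 (hZ : ∀ z ∈ Z, z ^ 2 = 1) (ha : a ∈ G) (hA : Alt Q B a.val) {l : F}
    (hl : a.val + (1 : F) • a⁻¹.val = l • 1) (hbs : ∀ x y, B (b.val x) y = B x (b.val y))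
    (hbb : ∀ x, b.val (b.val x) = x) {u v : V} {ε : F} (hε : ε ^ 2 = 1) (hbu : b.val u = ε • u)
    (hu : Q u = 0) (hv : Q v = 0) (huv : B u v = 0) :
    (B (b.val (a.val u)) v - ε * B (a.val u) v) ^ 2 =
      B (b.val (a.val u)) (a.val u) * B (b.val v) v := by
  obtain ⟨y, hy⟩ : ∃ y, y = a.val u := ⟨_, rfl⟩
  obtain ⟨w, hw⟩ : ∃ w, w = a⁻¹.val v := ⟨_, rfl⟩
  obtain ⟨ξ, hξ⟩ : ∃ ξ, ξ = B y v := ⟨_, rfl⟩
  rw [← hy, ← hξ]
  have ia : ∀ x, a⁻¹.val x = l • x - a.val x := fun x => by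
    have := LinearMap.congr_fun hl x
    simp only [one_smul, LinearMap.add_apply, LinearMap.smul_apply, End.one_apply] at this
    rw [← this]; abel
  have hav : a.val v = l • v - w := by rw [hw, ia]; abel
  have hau : a⁻¹.val u = l • u - y := by rw [ia, hy]
  have t1 : B u u = 0 := D.self0 hu
  have t2 : B v u = 0 := D.flip0 huv
  have t3 : B v v = 0 := D.self0 hv
  have t4 : B y u = 0 := by rw [hy]; exact hA u hu
  have t5 : B w u = ξ := by rw [hw, D.symm, ← D.adj ha, ← hy, hξ]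
  have t6 : B w v = 0 := by rw [hw, D.symm, ← D.adj ha]; exact hA v hv
  have t7 : ∀ x, B (b.val x) u = ε * B x u := fun x => by rw [hbs, hbu]; simp
  have t8 : ∀ x z, B (b.val z) x = B (b.val x) z := fun x z => by rw [hbs, D.symm]
  have t9 : ∀ x, B (a.val x) u = l * B x u - B x y := fun x => by rw [D.adj ha, hau]; simp
  have t10 : ∀ x, B (a.val x) v = B x w := fun x => by rw [D.adj ha, hw]
  obtain ⟨Y, hY⟩ : ∃ Y : End F V, Y = op B u w - op B w u + op B v y - op B y v := ⟨_, rfl⟩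
  obtain ⟨N, hN⟩ : ∃ N : End F V, N = op B u v - op B v u := ⟨_, rfl⟩
  have key : ∀ s : F, c2 (a.val * b.val + s • (Y * b.val) + (-(s ^ 2 * ξ)) • (N * b.val)) = c2 e := by
    intro s
    have hv' : Q (s • v) = 0 := by simp [Qsmul, hv]
    have huv' : B u (s • v) = 0 := by simp [huv]
    obtain ⟨z, hz, -, k⟩ := (h.conjL (D.N_mem hu hv' huv')).tr
    rw [hZ z hz, one_mul] at k
    rw [← k]
    congr 1
    rw [← smul_mul_assoc, ← smul_mul_assoc, ← add_mul, ← add_mul]
    congr 1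
    ext x
    simp [hY, hN, ← hy, hav, t1, t2, t3, t4, t5, t6, t9, t10, huv, ← hξ]
    module
  have p1 : c2 (Y * b.val) = - ξ ^ 2 - B (b.val y) v ^ 2 + B (b.val y) y * B (b.val v) v := by
    simp only [hY, op, sub_mul, add_mul, rk_mul, c2_add, c2_sub, c2_rk, pp, tr_rk, mul_rk, rk_apply,
      map_add, map_sub, map_smul, LinearMap.comp_apply, LinearMap.flip_apply, smul_eq_mul,
      LinearMap.add_apply, LinearMap.sub_apply, hbu, LinearMap.smul_apply, t7, t1, t2, t4, t5, huv,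
      D.symm w u, D.symm y u, t8 y v]
    linear_combination (-ξ ^ 2) * hε
  have p2 : c2 (N * b.val) = 0 := by
    simp only [hN, op, sub_mul, rk_mul, c2_sub, c2_rk, pp, tr_rk, mul_rk, rk_apply,
      map_smul, LinearMap.comp_apply, LinearMap.flip_apply, smul_eq_mul,
      hbu, LinearMap.smul_apply, t7, t1, t2, huv]
    ring
  have p3 : pp (Y * b.val) (N * b.val) = 0 := by
    simp only [hY, hN, op, sub_mul, add_mul, mul_sub, rk_mul, pp, tr_rk, mul_rk, rk_apply,
      map_add, map_sub, map_smul, LinearMap.comp_apply, LinearMap.flip_apply, smul_eq_mul,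
      hbu, LinearMap.smul_apply, t7, t1, t2, t4, t5, huv,
      D.symm w u, D.symm y u]
    ring
  have p4 : pp (a.val * b.val) (N * b.val) = -2 * ε * B (b.val y) v := by
    simp only [hN, op, sub_mul, mul_sub, rk_mul, pp, tr_rk, mul_rk, End.mul_apply,
      map_sub, map_smul, LinearMap.comp_apply, LinearMap.flip_apply, smul_eq_mul,
      hbu, LinearMap.smul_apply, t7, t9, t2, huv, ← hy, t8 y v]
    ring
  have p5 : ∃ m, pp (a.val * b.val) (Y * b.val) = 2 * m := by
    refine ⟨l * ξ - ε * B (b.val y) w - B (a.val (b.val v)) (b.val y), ?_⟩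
    have e1 : B (b.val (a.val (b.val y))) v = l * ξ - B (a.val (b.val v)) (b.val y) := by
      rw [hbs, D.adj ha, ia, map_sub, map_smul, hbs, hbb, ← hξ, D.symm, smul_eq_mul]
    have e2 : B (b.val (a.val (b.val v))) y = B (a.val (b.val v)) (b.val y) := hbs _ _
    simp only [hY, op, sub_mul, add_mul, mul_sub, mul_add, rk_mul, pp, tr_rk, mul_rk, End.mul_apply,
      map_add, map_sub, map_smul, LinearMap.comp_apply, LinearMap.flip_apply, smul_eq_mul,
      hbu, LinearMap.smul_apply, t7, t9, t5, ← hy, t8 y v, t8 y w, D.symm w u, e1, e2]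
    linear_combination (l * ξ) * hε
  obtain ⟨m, p5⟩ := p5
  have expand : ∀ s : F, c2 (a.val * b.val) + 2 * m * s - s ^ 2 *
      ((B (b.val y) v - ε * ξ) ^ 2 - B (b.val y) y * B (b.val v) v) = c2 e := by
    intro s
    rw [← key s, c2_add, c2_add, c2_smul, c2_smul, p1, p2]
    simp only [pp, add_mul, mul_smul_comm, smul_mul_assoc, map_add, map_smul, smul_eq_mul] at p3 p4 p5 ⊢
    linear_combination (-s) * p5 + (s ^ 2 * ξ) * p4 + s ^ 3 * ξ * p3 - s ^ 2 * ξ ^ 2 * hε
  have e0 := expand 0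
  have e1 := expand 1
  have e2 := expand (-1)
  by_cases h2 : (2 : F) = 0
  · linear_combination e0 - e1 + m * h2
  · apply mul_left_cancel₀ h2
    linear_combination 2 * e0 - e1 - e2

lemma GO (hZ : ∀ z ∈ Z, z ^ 2 = 1) (ha : a ∈ G) (na : NS a.val) (hA : Alt Q B a.val)
    (hb : b ∈ G) (hbb : ∀ x, b.val (b.val x) = x) {u y v : V} {ε : F} (hε : ε ^ 2 = 1)
    (hbu : b.val u = ε • u) (hu0 : u ≠ 0) (hu : Q u = 0) (hy : Q y = 0) (huy : B u y = 0)
    (hv : Q v = 0) (huv : B u v = 0) :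
    (B (b.val y) v - ε * B y v) ^ 2 = B (b.val y) y * B (b.val v) v := by
  by_cases hy' : y ∈ span F {u}
  · obtain ⟨c, rfl⟩ := mem_span_singleton.mp hy'
    simp [hbu, huv, D.self0 hu]
  obtain ⟨l, hl⟩ := D.alt_sc ha hA
  obtain ⟨x, hx, hx'⟩ : ∃ x, Q x = 0 ∧ a.val x ∉ span F {x} := by
    by_contra hh
    push Not at hh
    obtain ⟨c, hc⟩ := D.SC2 _ hh
    exact na c hc
  obtain ⟨g, hg, e1, e2⟩ := D.T2 (u := x) (v := a.val x) ⟨hx, by rw [D.isoQ ha, hx],
    D.flip0 (hA x hx), by rintro rfl; simp at hx', hx'⟩ ⟨hu, hy, huy, hu0, hy'⟩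
  have hb' : g * b * g⁻¹ ∈ G := G.mul_mem (G.mul_mem hg hb) (G.inv_mem hg)
  have hbb' : ∀ x, (g * b * g⁻¹).val ((g * b * g⁻¹).val x) = x := fun x => by simp [hbb]
  have := D.GO0 (h.conjR hg) hZ ha hA hl (fun x y => by rw [← D.iso hb', hbb']) hbb' (u := x)
    (v := g.val v) hε (by rw [← e1, conj_app, hbu, map_smul]) hx (by rw [D.isoQ hg, hv])
    (by rw [← e1, D.iso hg, huv])
  rw [← e2] at this
  simpa only [conj_app, D.iso hg] using this

end OD

end Pool.Agent.MP_db74b1_al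

end

section

/-! The Dickson invariant: in characteristic two reflections are not in the commutator subgroup. -/

set_option autoImplicit false
set_option linter.unusedSectionVars false

namespace Pool.Agent.MP_db74b1_al
open Module Submodule
open scoped commutatorElement

variable {F V : Type} [Field F] [AddCommGroup V] [Module F V] [Finite F] [FiniteDimensional F V]

lemma sum_symm_zero (h2 : (2 : F) = 0) {n : ℕ} (s : Fin n → Fin n → F) (hs : ∀ i j, s i j = s j i)
    (hd : ∀ i, s i i = 0) : ∑ i, ∑ j, s i j = 0 := by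
  have h1 : ∑ i, ∑ j, s i j = ∑ i, ∑ j, (if i < j then s i j else 0) +
      ∑ i, ∑ j, (if j < i then s i j else 0) := by
    simp only [← Finset.sum_add_distrib]
    refine Finset.sum_congr rfl fun i _ => Finset.sum_congr rfl fun j _ => ?_
    rcases lt_trichotomy i j with h | h | h
    · simp [h, not_lt.mpr h.le]
    · subst h; simp [hd]
    · simp [h, not_lt.mpr h.le]
  have h3 : ∑ i, ∑ j, (if j < i then s i j else 0) = ∑ i, ∑ j, (if i < j then s i j else 0) := by
    rw [Finset.sum_comm]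
    refine Finset.sum_congr rfl fun i _ => Finset.sum_congr rfl fun j _ => ?_
    rw [hs]
  rw [h1, h3, ← two_mul, h2, zero_mul]

namespace OD
variable {Q : QuadraticForm F V} {B : V →ₗ[F] V →ₗ[F] F} {G : Subgroup (End F V)ˣ} (D : OD Q B G)
include D

lemma dual_basis : ∃ f : Fin (finrank F V) → V, ∀ i x, (finBasis F V).repr x i = B x (f i) := by
  choose f hf using fun i => rep B D.nd ((finBasis F V).coord i)
  exact ⟨f, hf⟩

lemma tr_symm (h2 : (2 : F) = 0) (Γ : End F V) (h : ∀ x y, B (Γ x) y = B (Γ y) x) : tr Γ = 0 := by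
  obtain ⟨f, hf⟩ := D.dual_basis
  have e1 : ∀ i, mat Γ i i = ∑ j, B (f i) (f j) * B (Γ (finBasis F V i)) (finBasis F V j) := by
    intro i
    rw [mat, LinearMap.toMatrix_apply, hf]
    conv_lhs => rw [← (finBasis F V).sum_repr (f i), map_sum]
    simp [hf]
  rw [tr_mat]
  simp only [e1]
  apply sum_symm_zero h2
  · intro i j
    rw [D.symm (f i), h]
  · intro i
    rw [D.self, h2]; ring

lemma alt_split (δ : V →ₗ[F] V →ₗ[F] F) (h : ∀ x, δ x x = 0) :
    ∃ Γ : End F V, ∀ x y, δ x y = B (Γ x) y - B (Γ y) x := by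
  obtain ⟨f, hf⟩ := D.dual_basis
  have sk : ∀ x y, δ y x = - δ x y := by
    intro x y
    have := h (x + y)
    simp only [map_add, LinearMap.add_apply, h] at this
    linear_combination this
  let e := finBasis F V
  let Γ : End F V := ∑ i, ∑ j, (if i < j then δ (e i) (e j) else 0) • rk (f j) (e.coord i)
  have e1 : ∀ k l, B (Γ (e k)) (e l) = if k < l then δ (e k) (e l) else 0 := by
    intro k l
    have e2 : ∀ j, B (f j) (e l) = if l = j then 1 else 0 := by
      intro j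
      rw [D.symm, ← hf]
      simp [e, Finsupp.single_apply]
    simp only [Γ, LinearMap.sum_apply, LinearMap.smul_apply, rk_apply, map_sum, map_smul, e2,
      Basis.coord_apply, Basis.repr_self, Finsupp.single_apply, smul_eq_mul]
    simp
  refine ⟨Γ, fun x y => ?_⟩
  have : δ = B ∘ₗ Γ - (B ∘ₗ Γ).flip := by
    apply LinearMap.ext_basis e e
    intro k l
    simp only [LinearMap.sub_apply, LinearMap.comp_apply, LinearMap.flip_apply, e1]
    rcases lt_trichotomy k l with h' | h' | h'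
    · simp [h', not_lt.mpr h'.le]
    · subst h'; simp [h]
    · simp [h', not_lt.mpr h'.le, sk (e l)]
  rw [this]
  rfl

theorem dickson (h2 : (2 : F) = 0) {n : V} (hn : Q n ≠ 0) : D.refl hn ∉ G := by
  obtain ⟨β, hβ⟩ := LinearMap.BilinMap.toQuadraticMap_surjective Q
  have b1 : ∀ x, β x x = Q x := fun x => by rw [← hβ]; rfl
  have b2 : ∀ x y, B x y = β x y + β y x := by
    intro x y
    have := D.pol x y
    simp only [← b1, map_add, LinearMap.add_apply] at this
    linear_combination -this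
  let Dk : (End F V)ˣ → F → Prop := fun g d => ∃ Γ : End F V,
    (∀ x y, β (g.val x) (g.val y) - β x y = B (Γ x) y - B (Γ y) x) ∧ tr Γ = d
  have uniq : ∀ g d d', Dk g d → Dk g d' → d = d' := by
    rintro g d d' ⟨Γ, h1, rfl⟩ ⟨Γ', h1', rfl⟩
    rw [← sub_eq_zero, ← map_sub]
    apply D.tr_symm h2
    intro x y
    simp only [LinearMap.sub_apply, map_sub]
    linear_combination h1' x y - h1 x y
  have ex : ∀ g : orthGroup Q, ∃ d, Dk g d := by
    intro g
    obtain ⟨Γ, hΓ⟩ := D.alt_split (β.compl₁₂ g.1.val g.1.val - β) (fun x => by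
      simp [b1, g.2 x])
    exact ⟨_, Γ, hΓ, rfl⟩
  have mul : ∀ g h d d', h ∈ orthGroup Q → Dk g d → Dk h d' → Dk (g * h) (d + d') := by
    rintro g h d d' hh ⟨Γ, h1, rfl⟩ ⟨Γ', h1', rfl⟩
    refine ⟨h⁻¹.val * Γ * h⁻¹⁻¹.val + Γ', fun x y => ?_, by rw [map_add, tr_conj]⟩
    have e1 : ∀ x y, B (h⁻¹.val (Γ (h.val x))) y = B (Γ (h.val x)) (h.val y) := fun x y => by
      rw [← D.isoO hh, app_inv]
    simp only [Units.val_mul, End.mul_apply, LinearMap.add_apply, map_add, inv_inv, e1]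
    linear_combination h1 (h.val x) (h.val y) + h1' x y
  choose d hd using ex
  let φ : orthGroup Q →* Multiplicative F := MonoidHom.mk' (fun g => Multiplicative.ofAdd (d g))
    (fun g h => by
      rw [← ofAdd_add]
      exact congrArg _ (uniq _ _ _ (hd (g * h)) (mul _ _ _ _ h.2 (hd g) (hd h))))
  have hle : ⁅orthGroup Q, orthGroup Q⁆ ≤ φ.ker.map (orthGroup Q).subtype := by
    rw [Subgroup.commutator_le]
    intro g hg h hh
    refine ⟨⁅(⟨g, hg⟩ : orthGroup Q), (⟨h, hh⟩ : orthGroup Q)⁆, ?_, rfl⟩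
    show φ _ = 1
    rw [map_commutatorElement, commutatorElement_eq_one_iff_mul_comm, mul_comm]
  intro hr
  obtain ⟨g, hg, e1⟩ := hle (D.mem.le hr)
  have e2 : d g = 0 := hg
  have e3 : Dk g 1 := by
    have e4 : (g : (End F V)ˣ) = D.refl hn := e1
    refine ⟨rk n ((Q n)⁻¹ • β.flip n), fun x y => ?_, by simp [tr_rk, b1, hn]⟩
    rw [e4]
    simp [D.refl_app, b1, b2]
    field_simp
    linear_combination (β y n * β n x - β x n * β n y) * h2
  exact one_ne_zero (uniq _ _ _ e3 (e2 ▸ hd g))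

end OD

end Pool.Agent.MP_db74b1_al

end
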