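import Pool.Agent.Mg.Fdb74b1.Gbd1aaf
import Pool.Agent.Mg.Fdb74b1.G96ada0

section

set_option autoImplicit false

namespace Pool.Agent.MP_db74b1_al.Exc

variable {K : Type} [Field K]

theorem a_nonneg (i : Fin 8) : 0 ≤ a i := fun j => by simp only [a, Pi.zero_apply]; split_ifs <;> omega

theorem a_inj : ∀ i j : Fin 8, a i = a j ↔ i = j := by decide

theorem not_neg_nonneg {x : Lat} (h : ip x x = 2) (h0 : 0 ≤ x) : ¬ 0 ≤ -x := fun h' =>
  root_ne_zero h (le_antisymm (neg_nonneg.1 h') h0)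

theorem neg_nonneg_of {x : Lat} (h : ip x x = 2) (h0 : ¬ 0 ≤ x) : 0 ≤ -x :=
  neg_nonneg.2 ((root_dich h).resolve_left h0)

theorem ht_eq_one (x : Lat) {y : Lat} (h1 : 0 ≤ y) (hy : ip y y = 2) :
    ht x < ht (y + x) := by
  rw [ht_add]; have := root_ht_pos hy h1; omega

namespace Cfg

variable (c : Cfg K)

def Pos (β : Lat) : Prop := Sp c.n β ∧ 0 ≤ β

def U : Subgroup (Aut K) := c.G ⊓ Ucl K c.Pos

def Ui (i : Fin 8) (β : Lat) : Prop := c.Pos β ∧ β ≠ a i ∧ β ≠ a (pm c.b i)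

variable {c}

theorem Pos.sg {β : Lat} (h : c.Pos β) : c.Pos (sg c.b β) := ⟨c.Sp_sg h.1, sg_nonneg h.2⟩

theorem Pos.add {β γ : Lat} (h : c.Pos β) (h' : c.Pos γ) : c.Pos (β + γ) :=
  ⟨h.1.add h'.1, add_nonneg h.2 h'.2⟩

theorem Pos_a {i : Fin 8} (hi : i.1 < c.n) : c.Pos (a i) := ⟨Sp_a hi, a_nonneg i⟩

theorem Ui.sg {i : Fin 8} {β : Lat} (h : c.Ui i β) : c.Ui i (sg c.b β) :=
  ⟨h.1.sg, fun h' => h.2.2 (by rw [← sg_a, ← h', sg_sg]),
    fun h' => h.2.1 (by rw [← sg_a, sg_inj] at h'; exact h')⟩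

theorem Y_mem_U {α : Lat} (h : c.R α) (h0 : 0 ≤ α) {t : K} (ht : c.Al α t) : c.Y α t ∈ c.U :=
  ⟨Y_mem h ht, Y_mem_Ucl (A := c.Pos) ⟨h.2, h0⟩ (Pos.sg ⟨h.2, h0⟩) t⟩

theorem Ui_le (i : Fin 8) : Ucl K (c.Ui i) ≤ Ucl K c.Pos := Ucl_mono fun _ _ h => h.1

theorem Ui_add {i : Fin 8} {ζ β : Lat} (hζ : c.Pos ζ) (hζ' : ip ζ ζ = 2) (h : c.Ui i β)
    (hβ : ip β β = 2) : c.Ui i (ζ + β) := by
  have h1 := ht_eq_one β hζ.2 hζ'
  have h2 := root_ht_pos hβ h.1.2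
  refine ⟨hζ.add h.1, fun h' => ?_, fun h' => ?_⟩ <;> rw [h', ht_a] at h1 <;> omega

theorem peel_i {i : Fin 8} (hi : i.1 < c.n) {u : Aut K} (hu : u ∈ c.U) :
    ∃ t, c.Al (a i) t ∧ ∃ u' ∈ Ucl K (c.Ui i), u = c.Y (a i) t * u' := by
  obtain ⟨t, h1, h2, _⟩ := peelY htL (R_a hi) (A := c.Ui i) (by rw [htL_apply, ht_a]; omega)
    (ht_sg _ _) (fun β h _ => by rw [sg_a]; unfold Ui; tauto) (fun β h hβ => ⟨by
      have := root_ht_pos hβ h.1.2
      rw [htL_apply, htL_apply, ht_a]; omega, h.2.1, by rw [sg_a]; exact h.2.2,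
      fun _ => Ui_add (Pos_a hi) (root_a i) h hβ,
      fun _ => Ui_add (Pos_a hi).sg (R_a hi).sg.1 h hβ⟩) hu.1 hu.2
  exact ⟨t, h1, h2⟩

theorem Ui_conj_Y {i : Fin 8} (hi : i.1 < c.n) (s : K) {u : Aut K} (hu : u ∈ Ucl K (c.Ui i)) :
    c.Y (a i) s * u * (c.Y (a i) s)⁻¹ ∈ Ucl K (c.Ui i) :=
  Ucl_conj_Y (R_a hi) (fun _ h hβ => ⟨fun h' => not_neg_nonneg (root_a i) (a_nonneg i) (h' ▸ h.1.2),
      fun _ => Ui_add (Pos_a hi) (root_a i) h hβ⟩)
    (fun _ h hβ => ⟨fun h' => not_neg_nonneg (R_a hi).sg.1 (Pos_a hi).sg.2 (h' ▸ h.1.2),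
      fun _ => Ui_add (Pos_a hi).sg (R_a hi).sg.1 h hβ⟩) s hu

theorem wY_coord {i : Fin 8} (hi : i.1 < c.n) (x : Lat) {j : Fin 8} (h1 : j ≠ i)
    (h2 : j ≠ pm c.b i) : c.wY (a i) x j = x j := by
  by_cases h : sg c.b (a i) = a i
  · simp [wY_fix (R_a hi) h, a, h1]
  · rw [wY_mov (R_a hi) h, sg_a]; simp [a, h1, h2]

theorem ht_wY {i : Fin 8} (hi : i.1 < c.n) (x : Lat) :
    (0 < sv c.b x i → ht (c.wY (a i) x) < ht x) ∧ (sv c.b x i < 0 → ht x < ht (c.wY (a i) x)) := by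
  by_cases h : sg c.b (a i) = a i
  · have h1 : pm c.b i = i := by rwa [sg_a, a_inj] at h
    rw [wY_fix (R_a hi) h, ht_sub, ht_smul, ht_a, sv, h1, ip_a]
    constructor <;> intro <;> omega
  · rw [wY_mov (R_a hi) h, ht_sub, ht_sub, ht_smul, ht_smul, sg_a, ht_a, ht_a, sv, ip_a, ip_a]
    constructor <;> intro <;> omega

theorem n_Mon {i : Fin 8} (hi : i.1 < c.n) : c.Mon (c.NY (a i) 1) (c.wY (a i)) :=
  NY_Mon (R_a hi) one_ne_zero (Al_one _)

theorem wY_sg_self {α : Lat} (hα : c.R α) : c.wY α (sg c.b α) = -sg c.b α := by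
  rw [(NY_Mon hα one_ne_zero (Al_one _)).sg hα, wY_self hα, sg_neg]

theorem wY_Ui {i : Fin 8} (hi : i.1 < c.n) {β : Lat} (h : c.Ui i β) (hβ : ip β β = 2) :
    c.Ui i (c.wY (a i) β) := by
  have hR := (n_Mon hi).R ⟨hβ, h.1.1⟩
  refine ⟨⟨hR.2, ?_⟩, fun h' => ?_, fun h' => ?_⟩
  · by_contra h1
    have h2 := neg_nonneg_of hR.1 h1
    rcases supp_two β (mem_posL hβ h.1.2) c.b i (fun j h3 h4 => by
      have h5 := h2 j
      have h6 := h.1.2 j
      simp only [Pi.neg_apply, wY_coord hi β h3 h4, Pi.zero_apply] at h5 h6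
      omega) with h3 | h3
    · exact h.2.1 (funext h3)
    · exact h.2.2 (funext h3)
  · have := congrArg (c.wY (a i)) h'
    rw [wY_wY (R_a hi), wY_self (R_a hi)] at this
    exact not_neg_nonneg (root_a i) (a_nonneg i) (this ▸ h.1.2)
  · have := congrArg (c.wY (a i)) h'
    rw [wY_wY (R_a hi), ← sg_a, wY_sg_self (R_a hi)] at this
    exact not_neg_nonneg (R_a hi).sg.1 (Pos_a hi).sg.2 (this ▸ h.1.2)

theorem Ui_conj {i : Fin 8} (hi : i.1 < c.n) {m : Aut K} (hm : c.Mon m (c.wY (a i))) {u : Aut K}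
    (hu : u ∈ Ucl K (c.Ui i)) : m * u * m⁻¹ ∈ Ucl K (c.Ui i) :=
  hm.conjU (fun _ h hβ => wY_Ui hi h hβ) hu

theorem desc {x : Lat} (hx : c.R x) (h0 : 0 ≤ x) : ∃ i : Fin 8, i.1 < c.n ∧ 0 < x i ∧ 0 < sv c.b x i := by
  have key : ∃ i, 0 < x i ∧ 0 < sv c.b x i := by
    rcases c.ok with ⟨hb, _, _⟩ | ⟨hb, hn, _⟩
    · rw [hb]; exact desc0 x (mem_posL hx.1 h0)
    · rw [hb]; exact desc1 x (mem_posL hx.1 h0) (hn ▸ hx.2)
  obtain ⟨i, h1, h2⟩ := key
  exact ⟨i, not_le.1 fun h => by rw [hx.2 i h] at h1; omega, h1, h2⟩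

theorem sv_neg (b : Bool) (x : Lat) (i : Fin 8) : sv b (-x) i = -sv b x i := by
  simp only [sv, ← ip_a, ip_neg_left]; ring

/-- Induction over roots: from positive roots to all roots. -/
theorem root_ind {p : Lat → Prop} (h0 : ∀ α, c.R α → 0 ≤ α → p α)
    (h1 : ∀ α (i : Fin 8), i.1 < c.n → c.R α → p (c.wY (a i) α) → p α) {α : Lat} (hα : c.R α) :
    p α := by
  induction' hk : (-ht α).toNat using Nat.strong_induction_on with k ih generalizing α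
  by_cases h : 0 ≤ α
  · exact h0 α hα h
  · obtain ⟨i, hi, _, h3⟩ := desc hα.neg (neg_nonneg_of hα.1 h)
    have h4 := (ht_wY hi α).2 (by rw [sv_neg] at h3; omega)
    have h5 := root_ht_neg hα.1 h
    exact h1 α i hi hα (ih _ (by omega) ((n_Mon hi).R hα) rfl)

def Br (g : Aut K) : Prop := ∃ u1 ∈ c.U, ∃ m w, c.Mon m w ∧ ∃ u2 ∈ c.U, g = u1 * m * u2

theorem Y_swap {m : Aut K} {w : W} (hm : c.Mon m w) {α : Lat} (hα : c.R α) {t : K}
    (ht : c.Al α t) : ∃ t', c.Al (w⁻¹ α) t' ∧ c.Y (w⁻¹ α) t' = m⁻¹ * c.Y α t * m := by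
  obtain ⟨t', h1, _, h2⟩ := hm.inv.conjY' hα ht
  exact ⟨t', h1, by rw [h2]; group⟩

theorem mem_U {u : Aut K} (h1 : u ∈ c.G) (h2 : u ∈ Ucl K c.Pos) : u ∈ c.U := ⟨h1, h2⟩
theorem U_G {u : Aut K} (h : u ∈ c.U) : u ∈ c.G := h.1
theorem U_P {u : Aut K} (h : u ∈ c.U) : u ∈ Ucl K c.Pos := h.2

theorem conj_Ui_mem {i : Fin 8} (hi : i.1 < c.n) {m0 : Aut K} (h0 : c.Mon m0 (c.wY (a i)))
    {u : Aut K} (hG : u ∈ c.G) (hu : u ∈ Ucl K (c.Ui i)) {r : K} (hr : c.Al (a i) r) :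
    m0 * (c.Y (a i) r * u * (c.Y (a i) r)⁻¹) * m0⁻¹ ∈ c.U :=
  mem_U (mul_mem (mul_mem h0.mem (mul_mem (mul_mem (Y_mem (R_a hi) hr) hG)
    (inv_mem (Y_mem (R_a hi) hr)))) (inv_mem h0.mem)) (Ui_le i (Ui_conj hi h0 (Ui_conj_Y hi r hu)))

theorem peel_i' {i : Fin 8} (hi : i.1 < c.n) {u : Aut K} (hu : u ∈ c.U) :
    ∃ t, c.Al (a i) t ∧ ∃ u' ∈ Ucl K (c.Ui i), u' ∈ c.G ∧ u = c.Y (a i) t * u' := by
  obtain ⟨t, ht, u', hu', h⟩ := peel_i hi hu
  refine ⟨t, ht, u', hu', ?_, h⟩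
  have := mul_mem (inv_mem (Y_mem (R_a hi) ht)) (U_G hu)
  rwa [h, inv_mul_cancel_left] at this

theorem Br_n {i : Fin 8} (hi : i.1 < c.n) {m0 : Aut K} (h0 : c.Mon m0 (c.wY (a i))) {g : Aut K}
    (hg : c.Br g) : c.Br (m0 * g) := by
  obtain ⟨u1, hu1, m, w, hm, u2, hu2, rfl⟩ := hg
  obtain ⟨t, ht, u', hu', hG, rfl⟩ := peel_i' hi hu1
  have hR := R_a hi
  have h1 := conj_Ui_mem hi h0 hG hu' ht
  by_cases h : 0 ≤ w⁻¹ (a i)
  · obtain ⟨t', h2, h3⟩ := Y_swap hm hR ht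
    refine ⟨_, h1, _, _, h0.mul hm, _, mul_mem (Y_mem_U (hm.inv.R hR) h h2) hu2, ?_⟩
    rw [h3]; group
  · by_cases ht0 : t = 0
    · refine ⟨_, h1, _, _, h0.mul hm, _, hu2, ?_⟩
      rw [ht0, Y_zero]; group
    obtain ⟨r1, r2, h', h2, h3, h4, h5⟩ := rank_one hR h0 ht0 ht
    obtain ⟨t', h6, h7⟩ := Y_swap hm hR.neg h3
    refine ⟨_, mul_mem h1 (Y_mem_U hR (a_nonneg i) h2), _, _, h4.mul hm, _,
      mul_mem (Y_mem_U (hm.inv.R hR.neg) ?_ h6) hu2, ?_⟩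
    · rw [map_neg]; exact neg_nonneg_of (hm.inv.R hR).1 h
    · have h8 : c.Y (a i) r1 = m0 * c.Y (a i) t * (c.Y (-a i) r2)⁻¹ * h'⁻¹ := by rw [h5]; group
      rw [h7, h8]; group

theorem bruhat {g : Aut K} (hg : g ∈ c.G) : c.Br g := by
  refine G_induction ⟨1, one_mem _, 1, 1, Mon.one, 1, one_mem _, by simp⟩
    (fun α t g hα ht hg => ?_) hg
  revert t g
  refine root_ind (p := fun α => ∀ t g, c.Al α t → c.Br g → c.Br (c.Y α t * g))
    (fun α hα h0 t g ht hg => ?_) (fun α i hi hα ih t g ht hg => ?_) hα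
  · obtain ⟨u1, hu1, m, w, hm, u2, hu2, rfl⟩ := hg
    exact ⟨_, mul_mem (Y_mem_U hα h0 ht) hu1, m, w, hm, u2, hu2, by group⟩
  · obtain ⟨t', h1, _, h2⟩ := (n_Mon hi).conjY' hα ht
    have h3 := (n_Mon hi).inv
    rw [wY_inv (R_a hi)] at h3
    have := Br_n hi h3 (ih t' _ h1 (Br_n hi (n_Mon hi) hg))
    rwa [← mul_assoc (c.Y _ t'), ← h2, mul_assoc, inv_mul_cancel_left] at this

def P (w : W) : ℤ := ht (w rho)

theorem Mon.P_inv {m : Aut K} {w : W} (h : c.Mon m w) : P w⁻¹ = P w := by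
  rw [P, P, ← ip_rho, ← ip_rho, ← h.iso, W_app_inv, ip_comm]

theorem Mon.P_ge {m : Aut K} {w : W} (h : c.Mon m w) : -ip rho rho ≤ P w := by
  have := ip_self_nonneg (rho + w rho)
  rw [norm_add, h.iso, ip_rho (w rho)] at this
  unfold P; omega

theorem Mon.P_mul {m : Aut K} {w : W} (h : c.Mon m w) {i : Fin 8} (hi : i.1 < c.n)
    (h0 : 0 ≤ w (a i)) : P (w * c.wY (a i)) < P w := by
  have h1 := root_ht_pos (h.root (root_a i)) h0
  unfold P
  rw [LinearEquiv.mul_apply]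
  by_cases h' : Exc.sg c.b (a i) = a i
  · rw [wY_fix (R_a hi) h', ip_rho, ht_a, one_smul, map_sub, ht_sub]; omega
  · rw [wY_mov (R_a hi) h', ip_rho, ip_rho, ht_sg, ht_a, one_smul, one_smul, map_sub, map_sub,
      ht_sub, ht_sub, h.sg (R_a hi), ht_sg]; omega

theorem Mon.P_mul' {m : Aut K} {w : W} (h : c.Mon m w) {i : Fin 8} (hi : i.1 < c.n)
    (h0 : 0 ≤ w⁻¹ (a i)) : P (c.wY (a i) * w) < P w := by
  rw [← ((n_Mon hi).mul h).P_inv, ← h.P_inv, mul_inv_rev, wY_inv (R_a hi)]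
  exact h.inv.P_mul hi h0

variable (c)

def Low (g : Aut K) (k : ℤ) : Prop := ∀ h ∈ c.G, ∀ u1 ∈ c.U, ∀ m w, c.Mon m w → ∀ u2 ∈ c.U,
  h * g * h⁻¹ = u1 * m * u2 → k ≤ P w

structure MP (m : Aut K) (w : W) (u : Aut K) : Prop where
  mon : c.Mon m w
  mem : u ∈ c.U
  low : c.Low (m * u) (P w)

variable {c}

theorem Low.conj {g : Aut K} {k : ℤ} (hl : c.Low g k) {h : Aut K} (hh : h ∈ c.G) :
    c.Low (h * g * h⁻¹) k := fun h' hh' u1 hu1 m w hm u2 hu2 e =>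
  hl (h' * h) (mul_mem hh' hh) u1 hu1 m w hm u2 hu2 (by rw [← e]; group)

theorem exists_MP {g : Aut K} (hg : g ∈ c.G) :
    ∃ h ∈ c.G, ∃ m w u, c.MP m w u ∧ h * g * h⁻¹ = m * u := by
  obtain ⟨k, ⟨h, hh, u1, hu1, m, w, hm, u2, hu2, e, rfl⟩, hk⟩ := Int.exists_least_of_bdd
    (P := fun k => ∃ h ∈ c.G, ∃ u1 ∈ c.U, ∃ m w, c.Mon m w ∧ ∃ u2 ∈ c.U,
      h * g * h⁻¹ = u1 * m * u2 ∧ k = P w) ⟨-ip rho rho, by
        rintro k ⟨_, _, _, _, m, w, hm, _, _, _, rfl⟩; exact hm.P_ge⟩ (by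
        obtain ⟨u1, hu1, m, w, hm, u2, hu2, e⟩ := bruhat hg
        exact ⟨_, 1, one_mem _, u1, hu1, m, w, hm, u2, hu2, by simpa using e, rfl⟩)
  have hl : c.Low g (P w) := fun h hh u1 hu1 m w hm u2 hu2 e =>
    hk _ ⟨h, hh, u1, hu1, m, w, hm, u2, hu2, e, rfl⟩
  have e2 : u1⁻¹ * h * g * (u1⁻¹ * h)⁻¹ = m * (u2 * u1) := by
    rw [show u1⁻¹ * h * g * (u1⁻¹ * h)⁻¹ = u1⁻¹ * (h * g * h⁻¹) * u1 by group, e]; group
  have hh' := mul_mem (inv_mem (U_G hu1)) hh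
  exact ⟨_, hh', m, w, _, ⟨hm, mul_mem hu2 hu1, e2 ▸ hl.conj hh'⟩, e2⟩

theorem low_contra {m : Aut K} {w : W} (hm : c.Mon m w) {i : Fin 8} (hi : i.1 < c.n)
    (h0 : 0 ≤ w (a i)) {g : Aut K} (hl : c.Low g (P w)) {m0 : Aut K}
    (hm0 : c.Mon m0 (c.wY (a i))) {h u1 u2 : Aut K} (hh : h ∈ c.G) (hu1 : u1 ∈ c.U)
    (hu2 : u2 ∈ c.U) {r : K} (hr : r ≠ 0) (ha : c.Al (a i) r)
    (hneg : ¬ 0 ≤ (w * c.wY (a i))⁻¹ (a i))
    (e : h * g * h⁻¹ = u1 * (m0 * c.Y (a i) r) * (m * m0⁻¹) * u2) : False := by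
  have hR := R_a hi
  have h3 := hm0.inv
  rw [wY_inv hR] at h3
  have hM := hm.mul h3
  obtain ⟨r1, r2, h', h2, h3, h4, h5⟩ := rank_one hR hm0 hr ha
  obtain ⟨t', h6, h7⟩ := Y_swap hM hR.neg h3
  have := hl h hh _ (mul_mem hu1 (Y_mem_U hR (a_nonneg i) h2)) _ _ (h4.mul hM) _
    (mul_mem (Y_mem_U (hM.inv.R hR.neg) (by
      rw [map_neg]; exact neg_nonneg_of (hM.inv.R hR).1 hneg) h6) hu2) (by
      rw [e, h5, h7]; group)
  rw [one_mul] at this
  have := hm.P_mul hi h0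
  omega

theorem MP.star {m u : Aut K} {w : W} (H : c.MP m w u) {i : Fin 8} (hi : i.1 < c.n)
    (h0 : 0 ≤ w (a i)) : u ∈ Ucl K (c.Ui i) ∧ ((w (a i) = a i ∧ m (e (a i)) = e (a i)) ∨
      (sg c.b (a i) ≠ a i ∧ (∀ t, c.τ t = t) ∧ w (a i) = sg c.b (a i) ∧
        m (e (a i)) = e (sg c.b (a i)))) := by
  obtain ⟨hm, hu, hl⟩ := H
  obtain ⟨t, ht, u', hu', hG, rfl⟩ := peel_i' hi hu
  have hR := R_a hi
  have h1 := n_Mon hi
  set m0 := c.NY (a i) 1
  have h1' := h1.inv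
  rw [wY_inv hR] at h1'
  obtain ⟨s, hs, h2⟩ := hm.mono _ hR.1
  have hc : ∀ r, c.Al (a i) r → m0 * c.Y (a i) r ∈ c.G := fun r hr => mul_mem h1.mem (Y_mem hR hr)
  have key : ∀ r, m0 * c.Y (a i) r * (m * (c.Y (a i) t * u')) * (m0 * c.Y (a i) r)⁻¹ =
      m0 * c.Y (a i) r * c.Y (w (a i)) (s * (t + -r)) * (m * m0⁻¹) *
        (m0 * (c.Y (a i) r * u' * (c.Y (a i) r)⁻¹) * m0⁻¹) := fun r => by
    rw [← hm.conjY hR h2, add_comm, ← Y_add hR, ← Y_inv hR]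
    have := Y_add hR t r
    rw [add_comm, ← Y_add hR] at this
    have h3 : c.Y (a i) t = c.Y (a i) r * c.Y (a i) t * (c.Y (a i) r)⁻¹ := by rw [← this]; group
    conv_rhs => rw [h3]
    group
  have hB : ∀ f : K → K, (∀ x, c.Al (a i) x → c.Al (a i) (f x) ∧
      c.Y (w (a i)) (s * x) = c.Y (a i) (f x)) → ¬ 0 ≤ (w * c.wY (a i))⁻¹ (a i) →
      ∀ r, c.Al (a i) r → r + f (t + -r) = 0 := fun f hf hneg r hr => by
    by_contra h3
    obtain ⟨h4, h5⟩ := hf _ (ht.add hr.neg)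
    refine low_contra hm hi h0 hl h1 (hc r hr) (one_mem _) (conj_Ui_mem hi h1 hG hu' hr) h3
      (hr.add h4) hneg ?_
    rw [key, h5, ← Y_add hR]; group
  by_cases e1 : w (a i) = a i
  · have h3 := hB (fun x => s * x) (fun x hx => ⟨e1 ▸ hm.Al_mul hR hs h2 hx, by rw [e1]⟩) (by
      rw [mul_inv_rev, wY_inv hR, LinearEquiv.mul_apply, ← e1, W_inv_app, e1, wY_self hR]
      exact not_neg_nonneg hR.1 (a_nonneg i))
    have h4 : t = 0 := by simpa [hs] using h3 0 (Al_zero _)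
    have h5 : s = 1 := by have := h3 1 (Al_one _); rw [h4] at this; linear_combination -this
    rw [h4, Y_zero, one_mul]
    exact ⟨hu', Or.inl ⟨e1, by rw [h2, h5, e1, one_smul]⟩⟩
  by_cases e2 : w (a i) = sg c.b (a i)
  · have hmov : sg c.b (a i) ≠ a i := e2 ▸ e1
    have hal : ∀ x, c.Al (a i) x := fun x h => absurd h hmov
    have h3 := hB (fun x => c.τ (s * x)) (fun x _ => ⟨hal _, by
      rw [e2, ← Y_sg hR (hal _), c.ττ]⟩) (by
      have : w⁻¹ (a i) = sg c.b (a i) := by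
        rw [← w.injective.eq_iff, W_app_inv, hm.sg hR, e2, sg_sg]
      rw [mul_inv_rev, wY_inv hR, LinearEquiv.mul_apply, this, wY_sg_self hR]
      exact not_neg_nonneg hR.sg.1 (Pos_a hi).sg.2)
    have h4 : t = 0 := by simpa [hs] using h3 0 (Al_zero _)
    have h5 : c.τ s = 1 := by
      have := h3 1 (Al_one _); rw [h4] at this; simp at this; linear_combination -this
    have h6 : s = 1 := by rw [← c.ττ s, h5, map_one]
    rw [h4, Y_zero, one_mul]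
    refine ⟨hu', Or.inr ⟨hmov, fun r => ?_, e2, by rw [h2, h6, e2, one_smul]⟩⟩
    have := h3 r (hal r); rw [h4, h6] at this; simp at this; linear_combination -this
  exfalso
  have hUi : c.Ui i (w (a i)) := ⟨⟨hm.Sp hR.2, h0⟩, e1, by rwa [← sg_a]⟩
  have hY : ∀ r, c.Al (a i) r → m0 * (c.Y (a i) r * c.Y (w (a i)) (s * (t + -r)) *
      (c.Y (a i) r)⁻¹) * m0⁻¹ ∈ c.U := fun r hr =>
    conj_Ui_mem hi h1 (Y_mem (hm.R hR) (hm.Al_mul hR hs h2 (ht.add hr.neg)))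
      (Y_mem_Ucl hUi hUi.sg _) hr
  by_cases h3 : 0 ≤ (w * c.wY (a i))⁻¹ (a i)
  · have h4 := hl _ (hc 0 (Al_zero _)) _ (hY 0 (Al_zero _)) _ _ (h1.mul (hm.mul h1')) _
      (conj_Ui_mem hi h1 hG hu' (Al_zero _)) (by rw [key, Y_zero]; group)
    have h5 := (hm.mul h1').P_mul' hi h3
    have h6 := hm.P_mul hi h0
    omega
  · exact low_contra hm hi h0 hl h1 (hc 1 (Al_one _)) (hY 1 (Al_one _))
      (conj_Ui_mem hi h1 hG hu' (Al_one _)) one_ne_zero (Al_one _) h3 (by rw [key]; group)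

end Cfg

end Pool.Agent.MP_db74b1_al.Exc

end

section

set_option autoImplicit false

namespace Pool.Agent.MP_db74b1_al.Exc

variable {K : Type} [Field K]

theorem lat_sum' (x : Lat) : x = ∑ j, x j • a j := by
  rw [Fin.sum_univ_eight]; exact lat_sum x

theorem lat_lin {M : Type} [AddCommGroup M] (f g : Lat →+ M) (x : Lat)
    (h : ∀ j, x j ≠ 0 → f (a j) = g (a j)) : f x = g x := by
  rw [lat_sum' x, map_sum, map_sum]
  refine Finset.sum_congr rfl fun j _ => ?_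
  by_cases hj : x j = 0
  · simp [hj]
  · rw [map_zsmul, map_zsmul, h j hj]

theorem hout_sum (J : Fin 8 → Bool) (x : Lat) : hout J x = ∑ j, cond (J j) 0 (x j) := by
  rw [Fin.sum_univ_eight]; rfl

def houtL (J : Fin 8 → Bool) : Lat →+ ℤ := AddMonoidHom.mk' (hout J) fun x y => by
  rw [hout_sum, hout_sum, hout_sum, ← Finset.sum_add_distrib]
  exact Finset.sum_congr rfl fun j _ => by cases J j <;> simp

theorem houtL_apply (J : Fin 8 → Bool) (x : Lat) : houtL J x = hout J x := rfl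

theorem hout_neg (J : Fin 8 → Bool) (x : Lat) : hout J (-x) = -hout J x := map_neg (houtL J) x

theorem hout_a (J : Fin 8 → Bool) (i : Fin 8) : hout J (a i) = cond (J i) 0 1 := by
  rw [hout_sum, Finset.sum_eq_single i]
  · simp [a]
  · intro j _ hj; cases J j <;> simp [a, hj]
  · simp

theorem hout_mono (J : Fin 8 → Bool) {x y : Lat} (h : x ≤ y) : hout J x ≤ hout J y := by
  rw [hout_sum, hout_sum]
  exact Finset.sum_le_sum fun j _ => by cases J j <;> simp [h j]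

theorem hout_zero (J : Fin 8 → Bool) : hout J 0 = 0 := map_zero (houtL J)

theorem hout_nonneg (J : Fin 8 → Bool) {x : Lat} (h : 0 ≤ x) : 0 ≤ hout J x :=
  hout_zero J ▸ hout_mono J h

theorem hout_eq_zero {J : Fin 8 → Bool} {x : Lat} (h : 0 ≤ x) (h0 : hout J x ≤ 0) {j : Fin 8}
    (hj : x j ≠ 0) : J j = true := by
  have h1 : ∀ i ∈ Finset.univ, 0 ≤ cond (J i) 0 (x i) := fun i _ => by
    have := h i; cases J i <;> simp_all
  have h2 := (Finset.sum_eq_zero_iff_of_nonneg h1).1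
    (by rw [← hout_sum]; exact le_antisymm h0 (hout_nonneg J h)) j (Finset.mem_univ _)
  cases h3 : J j
  · rw [h3] at h2; exact absurd h2 hj
  · rfl

theorem pos_of_hout {J : Fin 8 → Bool} {x : Lat} (hx : ip x x = 2) (h : 0 < hout J x) : 0 ≤ x := by
  by_contra h1
  have := hout_nonneg J (neg_nonneg_of hx h1)
  rw [hout_neg] at this; omega

theorem pm_false : ∀ i, pm false i = i := by decide

theorem psi_a : ∀ x ∈ posL, Sp 6 x → x 0 + x 5 = 1 → cv x 1 = 0 → cv x 3 = 0 →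
    (cv x 2 = 1 → cv x 4 = 0 → ∀ j, x j = v8 1 1 2 2 1 0 0 0 j) ∧
    (cv x 2 = 0 → cv x 4 = 1 → ∀ j, x j = v8 0 1 1 2 2 1 0 0 j) := by decide +kernel

theorem gen_fix {g : Aut K} (hg : g ∈ AutG K) {c : Cfg K}
    (h : ∀ i : Fin 8, i.1 < c.n → g (e (a i)) = e (a i) ∧ g (e (-a i)) = e (-a i))
    {v : L K} (hv' : v ∈ c.V) : g v = v := by
  have key : ∀ β, c.R β → 0 ≤ β → g (e β) = e β ∧ g (e (-β)) = e (-β) := by
    intro β hβ h0
    induction' hk : (ht β).toNat using Nat.strong_induction_on with k ih generalizing β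
    obtain ⟨i, h1, h2⟩ := desc0 β (mem_posL hβ.1 h0)
    have hi : i.1 < c.n := not_le.1 fun h => by rw [hβ.2 i h] at h1; omega
    by_cases h3 : β = a i
    · rw [h3]; exact h i hi
    have h4 : ip β (a i) = 1 := by
      have := ip_le_one hβ.1 (root_a i) h3
      have h5 : pm false i = i := pm_false i
      rw [sv, h5, ← ip_a] at h2; omega
    have h5 := (root_sub hβ.1 (root_a i)).2 h4
    have h6 := root_ht_pos hβ.1 h0
    have h7 : ht (β - a i) = ht β - 1 := by rw [ht_sub, ht_a]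
    obtain ⟨h8, h9⟩ := ih (ht (β - a i)).toNat (by omega) _ ⟨h5, hβ.2.sub (Sp_a hi)⟩
      (pos_of_ht h5 (by omega)) rfl
    have e1 : ip (a i) (β - a i) = -1 := by rw [ip_sub_right, ip_comm, h4, root_a]; rfl
    have e2 : ip (-a i) (-(β - a i)) = -1 := by rw [ip_neg_left, ip_neg_right, neg_neg, e1]
    have k1 := aut_step hg (root_a i) h5 (root_a i) h5 e1 e1 (h i hi).1 (c := 1)
      (by rw [h8, one_smul])
    have k2 := aut_step hg (root_neg (root_a i)) (root_neg h5) (root_neg (root_a i)) (root_neg h5)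
      e2 e2 (h i hi).2 (c := 1) (by rw [h9, one_smul])
    rw [one_mul, eps_cast_mul_self, one_smul] at k1 k2
    rw [add_sub_cancel] at k1
    rw [← neg_add, add_sub_cancel] at k2
    exact ⟨k1, k2⟩
  refine Cfg.V_ind (P := fun v => g v = v) (fun v w _ _ h1 h2 => by rw [map_add, h1, h2])
    (fun r v _ h1 => by rw [map_smul, h1]) (fun i hi => ?_) (fun β hβ => ?_) hv'
  · exact aut_hv hg (root_a i) (root_a i) (c := 1) (d := 1) (by rw [(h i hi).1, one_smul])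
      (by rw [(h i hi).2, one_smul])
  · by_cases h0 : 0 ≤ β
    · exact (key β hβ h0).1
    · simpa using (key _ hβ.neg (neg_nonneg_of hβ.1 h0)).2

namespace Cfg

variable (c : Cfg K)

theorem th_R : c.R (th c.n) := by
  rcases c.ok with ⟨_, _, h | h | h⟩ | ⟨_, h, _⟩ <;> rw [R, h, ip_x] <;> decide

theorem th_sg : sg c.b (th c.n) = th c.n := by
  rcases c.ok with ⟨h, _, _⟩ | ⟨h', h, _⟩
  · rw [h, sg_false]
  · rw [h, h']; decide

theorem th_pos (i : Fin 8) (hi : i.1 < c.n) : 0 < th c.n i := by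
  revert i
  rcases c.ok with ⟨_, _, h | h | h⟩ | ⟨_, h, _⟩ <;> rw [h] <;> decide

theorem th_nonneg : 0 ≤ th c.n := by
  change ∀ i, (0 : ℤ) ≤ th c.n i
  rcases c.ok with ⟨_, _, h | h | h⟩ | ⟨_, h, _⟩ <;> rw [h] <;> decide

theorem ht_th : ht (th c.n) ≤ 29 := by
  rcases c.ok with ⟨_, _, h | h | h⟩ | ⟨_, h, _⟩ <;> rw [h] <;> decide

open Classical in
noncomputable def Jw (w : W) : Fin 8 → Bool := fun i => decide (i.1 < c.n ∧ 0 ≤ w (a i))

variable {c}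

theorem R.le_th {x : Lat} (hx : c.R x) : x ≤ th c.n := by
  by_cases h0 : 0 ≤ x
  · have hm := mem_posL hx.1 h0
    have hs := hx.2
    rcases c.ok with ⟨_, _, h | h | h⟩ | ⟨_, h, _⟩ <;> rw [h] at hs ⊢
    · exact le_th6 x hm hs
    · exact le_th7 x hm hs
    · exact le_th8 x hm
    · exact le_th6 x hm hs
  · exact ((root_dich hx.1).resolve_left h0).trans c.th_nonneg

theorem R.ht_le {x : Lat} (hx : c.R x) : ht x ≤ ht (th c.n) := by
  have := ht_nonneg (sub_nonneg.2 hx.le_th)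
  rw [ht_sub] at this; omega

theorem Jw_iff {w : W} {i : Fin 8} : c.Jw w i = true ↔ i.1 < c.n ∧ 0 ≤ w (a i) := by simp [Jw]

theorem Mon.J_pm {m : Aut K} {w : W} (h : c.Mon m w) {i : Fin 8} (hi : c.Jw w i = true) :
    c.Jw w (pm c.b i) = true := by
  rw [Jw_iff] at hi ⊢
  exact ⟨(c.pm_lt i).2 hi.1, by rw [← sg_a, h.sg (R_a hi.1)]; exact sg_nonneg hi.2⟩

theorem Mon.J_pm_eq {m : Aut K} {w : W} (h : c.Mon m w) (i : Fin 8) :
    c.Jw w (pm c.b i) = c.Jw w i := by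
  rw [Bool.eq_iff_iff]
  exact ⟨fun h' => by simpa [pm_pm] using h.J_pm h', h.J_pm⟩

theorem Mon.neg_of {m : Aut K} {w : W} (h : c.Mon m w) {α : Lat} (hα : ip α α = 2) {s : K}
    (h1 : m (e α) = s • e (w α)) : m (e (-α)) = s⁻¹ • e (-w α) := by
  obtain ⟨s', _, h2⟩ := h.mono _ (root_neg hα)
  rw [h2, map_neg, eq_inv_of_mul_eq_one_right (aut_neg h.aut hα (h.root hα) h1 h2)]

theorem MP.w_J {m u : Aut K} {w : W} (H : c.MP m w u) {i : Fin 8} (hi : c.Jw w i = true) :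
    w (a i) = a i ∨ w (a i) = a (pm c.b i) := by
  rw [Jw_iff] at hi
  rcases (H.star hi.1 hi.2).2 with h | h
  · exact Or.inl h.1
  · exact Or.inr (by rw [h.2.2.1, sg_a])

theorem MP.e_J {m u : Aut K} {w : W} (H : c.MP m w u) {i : Fin 8} (hi : c.Jw w i = true) :
    m (e (a i)) = e (w (a i)) := by
  rw [Jw_iff] at hi
  rcases (H.star hi.1 hi.2).2 with h | h
  · rw [h.1, h.2]
  · rw [h.2.2.1, h.2.2.2]

theorem MP.e_J' {m u : Aut K} {w : W} (H : c.MP m w u) {i : Fin 8} (hi : c.Jw w i = true) :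
    m (e (-a i)) = e (-w (a i)) := by
  rw [H.mon.neg_of (root_a i) (s := 1) (by rw [H.e_J hi, one_smul]), inv_one, one_smul]

theorem MP.w_sum {m u : Aut K} {w : W} (H : c.MP m w u) {i : Fin 8} (hi : c.Jw w i = true) :
    w (a i) + w (a (pm c.b i)) = a i + a (pm c.b i) := by
  have h1 := H.mon.sg (R_a (Jw_iff.1 hi).1)
  rw [sg_a] at h1
  rcases H.w_J hi with h | h
  · rw [h1, h, sg_a]
  · rw [h1, h, sg_a, pm_pm, add_comm]

theorem MP.hout_w {m u : Aut K} {w : W} (H : c.MP m w u) {x : Lat} (hx : Sp c.n x) :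
    hout (c.Jw w) (w x) = -hout (c.Jw w) x := by
  set J := c.Jw w
  have h1 : ∀ j, J j = true → hout J (w (a j)) = 0 := fun j hj => by
    rcases H.w_J hj with h | h
    · rw [h, hout_a, hj]; rfl
    · rw [h, hout_a, show J (pm c.b j) = true from H.mon.J_pm hj]; rfl
  let D : Lat →+ ℤ := -((houtL J).comp w.toLinearMap.toAddMonoidHom) - houtL J
  have hD : ∀ x, D x = -hout J (w x) - hout J x := fun x => rfl
  have h2 : ∀ i : Fin 8, i.1 < c.n → 0 ≤ D (a i) := fun i hi => by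
    rw [hD, hout_a]
    cases hJ : J i
    · have h3 : ¬ 0 ≤ w (a i) := fun h => by
        rw [show J i = true from Jw_iff.2 ⟨hi, h⟩] at hJ; exact absurd hJ (by simp)
      have h4 := neg_nonneg_of (H.mon.root (root_a i)) h3
      by_contra h5
      have h6 : hout J (-w (a i)) ≤ 0 := by rw [hout_neg]; simp at h5; omega
      let w2 : Lat →+ Lat := (w * w).toLinearMap.toAddMonoidHom
      have h7 := lat_lin w2 (AddMonoidHom.id _) (-w (a i)) (fun j hj => by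
        have h8 := hout_eq_zero h4 h6 hj
        change w (w (a j)) = a j
        rcases H.w_J h8 with h | h
        · rw [h, h]
        · have := H.w_sum h8
          rw [h, add_comm, add_right_cancel_iff] at this
          rw [h, this])
      have h8 := lat_lin ((houtL J).comp w.toLinearMap.toAddMonoidHom) 0 (-w (a i))
        (fun j hj => h1 j (hout_eq_zero h4 h6 hj))
      change w (w (-w (a i))) = -w (a i) at h7
      change hout J (w (-w (a i))) = 0 at h8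
      rw [← map_neg w (a i), w.injective.eq_iff, map_neg w (a i)] at h7
      rw [h7, hout_neg, hout_a, hJ] at h8
      simp at h8
    · rw [h1 i hJ]; simp
  have h3 : D (th c.n) ≤ 0 := by
    have := hout_mono J (H.mon.R c.th_R).neg.le_th
    rw [hout_neg] at this
    rw [hD]; omega
  have h4 : ∀ i ∈ Finset.univ, 0 ≤ th c.n i • D (a i) := fun i _ => by
    by_cases hi : i.1 < c.n
    · exact mul_nonneg (c.th_nonneg i) (h2 i hi)
    · rw [c.th_R.2 i (by omega)]; simp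
  have h5 : ∀ i : Fin 8, i.1 < c.n → D (a i) = 0 := fun i hi => by
    rw [lat_sum' (th c.n), map_sum] at h3
    simp only [map_zsmul] at h3
    have := (Finset.sum_eq_zero_iff_of_nonneg h4).1 (le_antisymm h3 (Finset.sum_nonneg h4)) i
      (Finset.mem_univ _)
    exact (mul_eq_zero.1 this).resolve_left (c.th_pos i hi).ne'
  have h6 := lat_lin D 0 x fun j hj => h5 j (not_le.1 fun h => hj (hx j h))
  rw [hD] at h6
  simp only [AddMonoidHom.zero_apply] at h6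
  omega

theorem MP.phi {m u : Aut K} {w : W} (H : c.MP m w u) {ν : Lat} (hν : c.R ν)
    (h0 : 0 < hout (c.Jw w) ν) : c.R (-w ν) ∧ 0 ≤ -w ν ∧ hout (c.Jw w) (-w ν) = hout (c.Jw w) ν ∧
      (sg c.b (-w ν) = -w ν ↔ sg c.b ν = ν) ∧
      ∀ i, c.Jw w i = true → sv c.b (-w ν) i = -sv c.b ν i := by
  have h1 := (H.mon.R hν).neg
  have h2 : hout (c.Jw w) (-w ν) = hout (c.Jw w) ν := by rw [hout_neg, H.hout_w hν.2, neg_neg]
  refine ⟨h1, pos_of_hout h1.1 (h2 ▸ h0), h2, by rw [sg_neg, neg_inj, H.mon.fix_iff hν],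
    fun i hi => ?_⟩
  have := H.mon.iso ν (a i + a (pm c.b i))
  rw [map_add, H.w_sum hi] at this
  rw [sv_neg, sv, sv, ← ip_a, ← ip_a, ← ip_a, ← ip_a, ← ip_add_right, ← ip_add_right, this]

theorem MP.of_main {m u : Aut K} {w : W} (H : c.MP m w u) {lg : Bool} {wit : List V8}
    (hw : ∀ ν ∈ wit, ipx ν.l ν.l = 2 ∧ Sp c.n ν.l ∧ eqV (sgV c.b ν) ν = lg)
    (h : mainV c.n c.b lg wit (B8.of (c.Jw w)) = true) :
    ∃ ν, c.R ν ∧ (sg c.b ν = ν ↔ lg = true) ∧ (w ν = -ν ∨ w ν = -sg c.b ν) := by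
  obtain ⟨ν, h1, h2, h3, h4, h5⟩ := main_spec hw h
  obtain ⟨k1, k2, k3, k4, k5⟩ := H.phi ⟨h1, h2⟩ h4
  refine ⟨ν, ⟨h1, h2⟩, h3, ?_⟩
  simpa only [neg_eq_iff_eq_neg] using h5 _ k1.1 k2 k1.2 (k4.trans h3) k3 k5

theorem J_out {w : W} {i : Fin 8} (hi : c.n ≤ i.1) : c.Jw w i = false := by
  rw [← Bool.not_eq_true, Jw_iff]; omega

theorem MP.long_cases {m u : Aut K} {w : W} (H : c.MP m w u) :
    (∀ i : Fin 8, i.1 < c.n → c.Jw w i = true) ∨ (c.n = 6 ∧ c.Jw w 0 = false ∧ c.Jw w 1 = true ∧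
      c.Jw w 2 = true ∧ c.Jw w 3 = true ∧ c.Jw w 4 = true ∧ c.Jw w 5 = false) ∨
      ∃ ν, c.R ν ∧ sg c.b ν = ν ∧ w ν = -ν := by
  have key : ∀ wit : List V8,
      (∀ ν ∈ wit, ipx ν.l ν.l = 2 ∧ Sp c.n ν.l ∧ eqV (sgV c.b ν) ν = true) →
      mainV c.n c.b true wit (B8.of (c.Jw w)) = true →
      ∃ ν, c.R ν ∧ sg c.b ν = ν ∧ w ν = -ν := fun wit hw h => by
    obtain ⟨ν, h1, h2, h3⟩ := H.of_main hw h
    exact ⟨ν, h1, h2.2 rfl, by rwa [h2.2 rfl, or_self] at h3⟩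
  have h6 : c.n ≤ 6 → c.Jw w 6 = false := fun h => J_out h
  have h7 : c.n ≤ 7 → c.Jw w 7 = false := fun h => J_out h
  have p0 := H.mon.J_pm_eq 0
  have p2 := H.mon.J_pm_eq 2
  generalize c.Jw w = J at *
  rcases c.ok with ⟨hb, _, h | h | h⟩ | ⟨hb, h, _⟩ <;> rw [h, hb] at key <;> rw [h] at h6 h7 ⊢
  · rcases main6 (J 0) (J 1) (J 2) (J 3) (J 4) (J 5) with h1 | h1 | h1
    · left; intro i hi; fin_cases i <;> simp_all
    · right; left; simp_all
    · right; right; rw [hb]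
      exact key wit6 wit6_ok (by rwa [B8.of, h6 (by omega), h7 (by omega)])
  · rcases main7 (J 0) (J 1) (J 2) (J 3) (J 4) (J 5) (J 6) with h1 | h1
    · left; intro i hi; fin_cases i <;> simp_all
    · right; right; rw [hb]
      exact key wit7 wit7_ok (by rwa [B8.of, h7 (by omega)])
  · rcases main8 (J 0) (J 1) (J 2) (J 3) (J 4) (J 5) (J 6) (J 7) with h1 | h1
    · left; intro i hi; fin_cases i <;> simp_all
    · right; right; rw [hb]
      exact key wit8 wit8_ok h1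
  · rw [hb] at p0 p2
    change J 5 = J 0 at p0
    change J 4 = J 2 at p2
    rcases main6l (J 0) (J 1) (J 2) (J 3) with h1 | h1 | h1
    · left; intro i hi; fin_cases i <;> simp_all
    · right; left; simp_all
    · right; right; rw [hb]
      exact key wit6l wit6l_ok (by rwa [B8.of, h6 (by omega), h7 (by omega), p0, p2])

theorem MP.short_cases {m u : Aut K} {w : W} (H : c.MP m w u) (hb : c.b = true) :
    (∀ i : Fin 8, i.1 < c.n → c.Jw w i = true) ∨ (c.Jw w 0 = true ∧ c.Jw w 1 = false ∧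
      c.Jw w 2 = true ∧ c.Jw w 3 = true ∧ c.Jw w 4 = true ∧ c.Jw w 5 = true) ∨
      ∃ ν, c.R ν ∧ sg c.b ν ≠ ν ∧ (w ν = -ν ∨ w ν = -sg c.b ν) := by
  have key : ∀ wit : List V8,
      (∀ ν ∈ wit, ipx ν.l ν.l = 2 ∧ Sp c.n ν.l ∧ eqV (sgV c.b ν) ν = false) →
      mainV c.n c.b false wit (B8.of (c.Jw w)) = true →
      ∃ ν, c.R ν ∧ sg c.b ν ≠ ν ∧ (w ν = -ν ∨ w ν = -sg c.b ν) := fun wit hw h => by
    obtain ⟨ν, h1, h2, h3⟩ := H.of_main hw h
    exact ⟨ν, h1, by simpa using h2, h3⟩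
  have h6 : c.n ≤ 6 → c.Jw w 6 = false := fun h => J_out h
  have h7 : c.n ≤ 7 → c.Jw w 7 = false := fun h => J_out h
  have p0 := H.mon.J_pm_eq 0
  have p2 := H.mon.J_pm_eq 2
  have h : c.n = 6 := by
    rcases c.ok with ⟨h, _⟩ | ⟨_, h, _⟩
    · rw [h] at hb; exact absurd hb (by simp)
    · exact h
  generalize c.Jw w = J at *
  rw [hb] at p0 p2
  change J 5 = J 0 at p0
  change J 4 = J 2 at p2
  rcases main6s (J 0) (J 1) (J 2) (J 3) with h1 | h1 | h1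
  · left; intro i hi; rw [h] at hi; fin_cases i <;> simp_all
  · right; left; simp_all
  · right; right
    refine key wit6s (by rw [h, hb]; exact wit6s_ok) ?_
    rwa [B8.of, h6 (by omega), h7 (by omega), p0, p2, h, hb]

theorem Mon.rho6 {m : Aut K} {w : W} (h : c.Mon m w) (hn : c.n = 6) :
    (2 * w (a 0) 0 + 4 * w (a 2) 0 + 5 * w (a 4) 0 + 4 * w (a 5) 0) % 3 = 2 := by
  have h1 := h.perp (y := v8 2 3 4 6 5 4 3 0) (fun x hx => by
    rw [hn] at hx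
    rw [ip_expand, hx 6 (by decide), hx 7 (by decide)]
    simp [cv, v8])
  have h2 := congrFun h1 0
  rw [lat_sum (v8 2 3 4 6 5 4 3 0)] at h2
  simp only [map_add, map_smul, Pi.add_apply, Pi.smul_apply, smul_eq_mul] at h2
  simp only [v8, a] at h2 ⊢
  simp at h2 ⊢
  omega

theorem MP.no_swap {m u : Aut K} {w : W} (H : c.MP m w u) (hb : c.b = true) (hn : c.n = 6)
    (h0 : c.Jw w 0 = true) (h2 : c.Jw w 2 = true) :
    w (a 0) = a 0 ∧ w (a 2) = a 2 ∧ w (a 4) = a 4 ∧ w (a 5) = a 5 := by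
  have k0 := H.w_sum h0
  have k2 := H.w_sum h2
  have k := H.mon.iso (a 0) (a 2)
  have r := H.mon.rho6 hn
  have j0 := H.w_J h0
  have j2 := H.w_J h2
  rw [hb] at k0 k2 j0 j2
  change _ + w (a 5) = _ + a 5 at k0
  change _ + w (a 4) = _ + a 4 at k2
  change _ ∨ _ = a 5 at j0
  change _ ∨ _ = a 4 at j2
  rcases j0 with j0 | j0 <;> rcases j2 with j2 | j2 <;> simp only [j0, j2, ip_a] at k
  · rw [j0, add_left_cancel_iff] at k0
    rw [j2, add_left_cancel_iff] at k2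
    exact ⟨j0, j2, k2, k0⟩
  · exact absurd k (by decide)
  · exact absurd k (by decide)
  · rw [j0, add_comm, add_right_cancel_iff] at k0
    rw [j2, add_comm, add_right_cancel_iff] at k2
    rw [j0, j2, k0, k2] at r
    exact absurd r (by decide)

theorem MP.w_fix {m u : Aut K} {w : W} (H : c.MP m w u) {i : Fin 8} (hi : c.Jw w i = true)
    (h : pm c.b i = i) : w (a i) = a i := by
  have := H.w_J hi
  rwa [h, or_self] at this

theorem MP.psi {m u : Aut K} {w : W} (H : c.MP m w u) (hn : c.n = 6) (h0 : c.Jw w 0 = false)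
    (h1 : c.Jw w 1 = true) (h2 : c.Jw w 2 = true) (h3 : c.Jw w 3 = true) (h4 : c.Jw w 4 = true)
    (h5 : c.Jw w 5 = false) : c.b = true ∧ (∀ t, c.τ t = t) ∧ w (a 2) = a 4 ∧ w (a 4) = a 2 ∧
      w (a 0) = -v8 0 1 1 2 2 1 0 0 := by
  have e1 := H.w_fix h1 (by cases c.b <;> rfl)
  have e3 := H.w_fix h3 (by cases c.b <;> rfl)
  have key : ∀ i : Fin 8, i = 0 ∨ i = 5 →
      (cv (-w (a i)) 2 = 1 → cv (-w (a i)) 4 = 0 → w (a i) = -v8 1 1 2 2 1 0 0 0) ∧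
      (cv (-w (a i)) 2 = 0 → cv (-w (a i)) 4 = 1 → w (a i) = -v8 0 1 1 2 2 1 0 0) := by
    intro i hi
    have hi' : i.1 < c.n := by rw [hn]; rcases hi with rfl | rfl <;> decide
    have ho : hout (c.Jw w) (a i) = 1 := by
      rw [hout_a]; rcases hi with rfl | rfl
      · rw [h0]; rfl
      · rw [h5]; rfl
    obtain ⟨k1, k2, k3, _, _⟩ := H.phi (R_a hi') (by omega)
    have hs := k1.2
    rw [hn] at hs
    have := psi_a _ (mem_posL k1.1 k2) hs (by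
      rw [ho, hout, h0, h1, h2, h3, h4, h5, hs 6 (by decide), hs 7 (by decide)] at k3
      simpa using k3)
      (by rw [← ip_a, ← e1, ip_neg_left, H.mon.iso, ip_a]; rcases hi with rfl | rfl <;> rfl)
      (by rw [← ip_a, ← e3, ip_neg_left, H.mon.iso, ip_a]; rcases hi with rfl | rfl <;> rfl)
    exact ⟨fun p q => neg_eq_iff_eq_neg.1 (funext (this.1 p q)),
      fun p q => neg_eq_iff_eq_neg.1 (funext (this.2 p q))⟩
  have hfix : w (a 2) = a 2 → w (a 4) = a 4 → False := fun e2 e4 => by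
    have r := H.mon.rho6 hn
    rw [(key 0 (Or.inl rfl)).1 (by rw [← ip_a, ← e2, ip_neg_left, H.mon.iso, ip_a]; rfl)
      (by rw [← ip_a, ← e4, ip_neg_left, H.mon.iso, ip_a]; rfl),
      (key 5 (Or.inr rfl)).2 (by rw [← ip_a, ← e2, ip_neg_left, H.mon.iso, ip_a]; rfl)
      (by rw [← ip_a, ← e4, ip_neg_left, H.mon.iso, ip_a]; rfl), e2, e4] at r
    exact absurd r (by decide)
  have hs := H.w_sum h2
  rcases (H.star (Jw_iff.1 h2).1 (Jw_iff.1 h2).2).2 with ⟨e2, _⟩ | ⟨k1, k2, e2, _⟩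
  · exfalso
    cases hb : c.b
    · exact hfix e2 (H.w_fix h4 (by rw [hb]; rfl))
    · rw [hb, e2, add_left_cancel_iff] at hs
      exact hfix e2 hs
  · have hb : c.b = true := by
      cases hb : c.b
      · rw [hb, sg_false] at k1; exact absurd rfl k1
      · rfl
    rw [sg_a, hb] at e2
    change _ = a 4 at e2
    rw [hb, e2, add_comm] at hs
    change w (a 4) + a 4 = a 2 + a 4 at hs
    rw [add_right_cancel_iff] at hs
    exact ⟨hb, k2, e2, hs, (key 0 (Or.inl rfl)).2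
      (by rw [← ip_a, ← hs, ip_neg_left, H.mon.iso, ip_a]; rfl)
      (by rw [← ip_a, ← e2, ip_neg_left, H.mon.iso, ip_a]; rfl)⟩

end Cfg

end Pool.Agent.MP_db74b1_al.Exc

end

section

set_option autoImplicit false

namespace Pool.Agent.MP_db74b1_al.Exc

variable {K : Type} [Field K]

namespace Cfg

variable (c : Cfg K)

def Cj (g g' : Aut K) : Prop := ∃ h ∈ c.G, h * g * h⁻¹ = g'

def Good (m g : Aut K) (ζ : Lat) : Prop := ∀ u ∈ c.U, c.Cj g (m * u) → H0 ζ u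

def Triv (g : Aut K) : Prop := ∀ v ∈ c.V, g v = v

variable {c}

theorem Cj.refl (g : Aut K) : c.Cj g g := ⟨1, one_mem _, by simp⟩

theorem Cj.trans {g g' g'' : Aut K} (h : c.Cj g g') (h' : c.Cj g' g'') : c.Cj g g'' := by
  obtain ⟨p, hp, rfl⟩ := h
  obtain ⟨q, hq, rfl⟩ := h'
  exact ⟨q * p, mul_mem hq hp, by group⟩

theorem Cj.symm {g g' : Aut K} (h : c.Cj g g') : c.Cj g' g := by
  obtain ⟨p, hp, rfl⟩ := h
  exact ⟨p⁻¹, inv_mem hp, by group⟩

theorem Cj.mem {g g' : Aut K} (h : c.Cj g g') (hg : g ∈ c.G) : g' ∈ c.G := by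
  obtain ⟨p, hp, rfl⟩ := h
  exact mul_mem (mul_mem hp hg) (inv_mem hp)

theorem Cj.triv {g g' : Aut K} (h : c.Cj g g') (hg : c.Triv g) : c.Triv g' := by
  obtain ⟨p, hp, rfl⟩ := h
  intro v hv
  rw [LinearEquiv.mul_apply, LinearEquiv.mul_apply, hg _ (G_mem (inv_mem hp) hv), app_inv]

theorem MP.of_cj {m u u' : Aut K} {w : W} (H : c.MP m w u) (hu : u' ∈ c.U)
    (h : c.Cj (m * u) (m * u')) : c.MP m w u' := by
  obtain ⟨p, hp, e⟩ := h
  exact ⟨H.mon, hu, e ▸ H.low.conj hp⟩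

theorem MP.commY {m u : Aut K} {w : W} (H : c.MP m w u) {j : Fin 8} (hj : c.Jw w j = true) (t : K) :
    m * c.Y (a j) t * m⁻¹ = c.Y (a j) t ∧ m * c.Y (-a j) t * m⁻¹ = c.Y (-a j) t := by
  have hR := R_a (Jw_iff.1 hj).1
  have h1 := H.mon.conjY hR (s := 1) (by rw [H.e_J hj, one_smul]) t
  have h2 := H.mon.conjY hR.neg (s := 1) (by rw [H.e_J' hj, one_smul, map_neg]) t
  rw [one_mul] at h1 h2
  rw [h1, h2, map_neg]
  rcases (H.star (Jw_iff.1 hj).1 (Jw_iff.1 hj).2).2 with h | ⟨_, h3, h4, _⟩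
  · rw [h.1]; exact ⟨rfl, rfl⟩
  · rw [h4, ← sg_neg, ← Y_sg hR (Al_fix (h3 t) _), ← Y_sg hR.neg (Al_fix (h3 t) _), h3 t]
    exact ⟨rfl, rfl⟩

theorem MP.good_step {m u : Aut K} {w : W} (H : c.MP m w u) {j : Fin 8} (hj : c.Jw w j = true)
    {ζ : Lat} (hζ : ip ζ ζ = 2) (h : c.Good m (m * u) (c.wY (a j) ζ)) : c.Good m (m * u) ζ := by
  intro u' hu' hc
  have hi := (Jw_iff.1 hj).1
  have h1 := ((H.of_cj hu' hc).star hi (Jw_iff.1 hj).2).1
  have h2 := n_Mon hi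
  have h3 : m * c.NY (a j) 1 * m⁻¹ = c.NY (a j) 1 := by
    conv_rhs => rw [NY, ← (H.commY hj 1).1, ← (H.commY hj 1⁻¹).2]
    rw [NY]; group
  refine h2.H0 hζ (h _ (mem_U (mul_mem (mul_mem h2.mem (U_G hu')) (inv_mem h2.mem))
    (Ui_le j (Ui_conj hi h2 h1))) (hc.trans ⟨_, h2.mem, ?_⟩))
  rw [show c.NY (a j) 1 * (m * u') * (c.NY (a j) 1)⁻¹ = c.NY (a j) 1 * m * u' * (c.NY (a j) 1)⁻¹
    by group, ← mul_inv_eq_iff_eq_mul.1 h3]
  group

theorem Good.sg {m g : Aut K} {ζ : Lat} (hζ : c.R ζ) (h : c.Good m g ζ) :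
    c.Good m g (sg c.b ζ) := fun u hu hc => H0_sg hζ (U_G hu) (h u hu hc)

theorem H0_of {A : Lat → Prop} (l : Lat →+ ℤ) {ζ : Lat} (hζ : ip ζ ζ = 2) (hl : 0 < l ζ)
    (h : ∀ β, A β → ip β β = 2 → l ζ ≤ l β ∧ β ≠ ζ) {u : Aut K} (hu : u ∈ Ucl K A) : H0 ζ u := by
  ext i
  simpa [X_zero] using H_peel l hζ hl h hu 0 i

theorem MP.good_J {m u : Aut K} {w : W} (H : c.MP m w u) {j : Fin 8} (hj : c.Jw w j = true) :
    c.Good m (m * u) (a j) := fun u' hu' hc =>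
  H0_of htL (root_a j) (by rw [htL_apply, ht_a]; omega) (fun β h hβ => ⟨by
    have := root_ht_pos hβ h.1.2
    rw [htL_apply, htL_apply, ht_a]; omega, h.2.1⟩)
    ((H.of_cj hu' hc).star (Jw_iff.1 hj).1 (Jw_iff.1 hj).2).1

theorem MP.hout_wY {m u : Aut K} {w : W} (H : c.MP m w u) {j : Fin 8} (hj : c.Jw w j = true)
    (x : Lat) : hout (c.Jw w) (c.wY (a j) x) = hout (c.Jw w) x := by
  rw [hout_sum, hout_sum]
  refine Finset.sum_congr rfl fun i _ => ?_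
  cases hi : c.Jw w i
  · rw [wY_coord (Jw_iff.1 hj).1]
    · rintro rfl; rw [hi] at hj; exact absurd hj (by simp)
    · rintro rfl; rw [H.mon.J_pm hj] at hi; exact absurd hi (by simp)
  · rfl

theorem MP.good_ind {m u : Aut K} {w : W} (H : c.MP m w u) (lg : Prop) (k : ℤ)
    (h : ∀ β, c.R β → 0 ≤ β → hout (c.Jw w) β = k → (sg c.b β = β ↔ lg) →
      c.Good m (m * u) β ∨ ∃ j, c.Jw w j = true ∧ 0 < sv c.b β j ∧ 0 ≤ c.wY (a j) β)
    {β : Lat} (hβ : c.R β) (h0 : 0 ≤ β) (hk : hout (c.Jw w) β = k) (hl : sg c.b β = β ↔ lg) :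
    c.Good m (m * u) β := by
  induction' hn : (ht β).toNat using Nat.strong_induction_on with n ih generalizing β
  rcases h β hβ h0 hk hl with h1 | ⟨j, hj, h1, h2⟩
  · exact h1
  · have hi := (Jw_iff.1 hj).1
    have h3 := (ht_wY hi β).1 h1
    have h4 := ht_nonneg h2
    exact H.good_step hj hβ.1 (ih _ (by omega) ((n_Mon hi).R hβ) h2 (by rw [H.hout_wY hj, hk])
      (((n_Mon hi).fix_iff hβ).trans hl) rfl)

theorem MP.good_ind' {m u : Aut K} {w : W} (H : c.MP m w u) (lg : Prop) {k : ℤ} (hk0 : 0 < k)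
    (h : ∀ β, c.R β → 0 ≤ β → hout (c.Jw w) β = k → (sg c.b β = β ↔ lg) →
      c.Good m (m * u) β ∨ ∃ j, c.Jw w j = true ∧ 0 < sv c.b β j)
    {β : Lat} (hβ : c.R β) (hk : hout (c.Jw w) β = k) (hl : sg c.b β = β ↔ lg) :
    c.Good m (m * u) β :=
  H.good_ind lg k (fun β h1 h2 h3 h4 => (h β h1 h2 h3 h4).imp id fun ⟨j, hj, h5⟩ => ⟨j, hj, h5,
    pos_of_hout (J := c.Jw w) ((n_Mon (Jw_iff.1 hj).1).R h1).1 (by rw [H.hout_wY hj]; omega)⟩)
    hβ (pos_of_hout hβ.1 (hk ▸ hk0)) hk hl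

theorem MP.good_zero {m u : Aut K} {w : W} (H : c.MP m w u) {β : Lat} (hβ : c.R β) (h0 : 0 ≤ β)
    (hk : hout (c.Jw w) β = 0) : c.Good m (m * u) β := by
  refine H.good_ind _ 0 (fun β h1 h2 h3 _ => ?_) hβ h0 hk Iff.rfl
  obtain ⟨i, hi, h4, h5⟩ := desc h1 h2
  have hJ := hout_eq_zero h2 h3.le h4.ne'
  by_cases h6 : β = a i
  · left; rw [h6]; exact H.good_J hJ
  by_cases h7 : β = a (pm c.b i)
  · left; rw [h7]; exact H.good_J (H.mon.J_pm hJ)
  exact Or.inr ⟨i, hJ, h5, (wY_Ui hi ⟨⟨h1.2, h2⟩, h6, h7⟩ h1.1).1.2⟩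

theorem MP.b1 {m u : Aut K} {w : W} (H : c.MP m w u) :
    u ∈ Ucl K (fun β => Sp c.n β ∧ 0 < hout (c.Jw w) β) := by
  let l : Lat →+ ℤ := htL + 100 • houtL (c.Jw w)
  have hl : ∀ x, l x = ht x + 100 * hout (c.Jw w) x := fun x => rfl
  refine Ucl_mono (fun β hβ h => ⟨h.1, ?_⟩) (peel_all (c := c) l 50 (fun ζ hζ h1 h2 => ?_)
    (Ucl_mono (fun β hβ h => ⟨h.1, ?_⟩) (U_P H.mem)))
  rotate_left
  · have h1 := R.ht_le ⟨hβ, h.1⟩
    have h2 := c.ht_th
    have h3 := h.2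
    rw [hl] at h3; push_cast at h3; omega
  rotate_right
  · rw [hl] at h1 h2
    have h0 : 0 ≤ ζ := by
      by_contra h3
      have h4 := root_ht_neg hζ.1 h3
      have h5 := hout_nonneg (c.Jw w) (neg_nonneg_of hζ.1 h3)
      rw [hout_neg] at h5; omega
    have h3 := hout_nonneg (c.Jw w) h0
    have h4 := ht_nonneg h0
    exact H.good_zero hζ h0 (by push_cast at h2; omega) u H.mem (Cj.refl _)
  · have h1 := root_ht_pos hβ h.2
    have h2 := hout_nonneg (c.Jw w) h.2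
    rw [hl]; omega

theorem Ucl_empty {A : Lat → Prop} (h : ∀ β, A β → ip β β = 2 → False) {u : Aut K}
    (hu : u ∈ Ucl K A) : u = 1 :=
  Subgroup.mem_bot.1 (Ucl_le (H := ⊥) (fun β _ h1 h2 => (h β h1 h2).elim) hu)

theorem n6_of_b (hb : c.b = true) : c.n = 6 := by
  rcases c.ok with ⟨h, _⟩ | ⟨_, h, _⟩
  · rw [h] at hb; exact absurd hb (by simp)
  · exact h

theorem MP.triv {m u : Aut K} {w : W} (H : c.MP m w u)
    (hJ : ∀ i : Fin 8, i.1 < c.n → c.Jw w i = true) : c.Triv (m * u) := by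
  have hu : u = 1 := Ucl_empty (fun β h _ => by
    have h1 := lat_lin (houtL (c.Jw w)) 0 β fun j hj => by
      rw [houtL_apply, hout_a, hJ j (not_le.1 fun h' => hj (h.1 j h'))]; rfl
    have h2 := h.2
    rw [houtL_apply] at h1
    rw [h1] at h2; simp at h2) H.b1
  have hw : ∀ i : Fin 8, i.1 < c.n → w (a i) = a i := fun i hi => by
    cases hb : c.b
    · exact H.w_fix (hJ i hi) (by rw [hb, pm_false])
    · have hn := n6_of_b hb
      obtain ⟨h0, h2, h4, h5⟩ := H.no_swap hb hn (hJ 0 (by rw [hn]; decide)) (hJ 2 (by rw [hn]; decide))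
      have h1 := H.w_fix (hJ 1 (by rw [hn]; decide)) (by rw [hb]; rfl)
      have h3 := H.w_fix (hJ 3 (by rw [hn]; decide)) (by rw [hb]; rfl)
      rw [hn] at hi
      fin_cases i <;> first | assumption | exact absurd hi (by decide)
  rw [hu, mul_one]
  exact fun v hv => gen_fix H.mon.aut (fun i hi => ⟨by rw [H.e_J (hJ i hi), hw i hi],
    by rw [H.e_J' (hJ i hi), hw i hi]⟩) hv

theorem Triv.comm {g : Aut K} (hg : g ∈ c.G) (h : c.Triv g) {p : Aut K} (hp : p ∈ c.G) :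
    p * g = g * p := by
  have hX : ∀ α t, c.R α → X α t ∈ Subgroup.centralizer {g} := fun α t hα => by
    rw [Subgroup.mem_centralizer_singleton_iff]
    have := conj_X (G_aut hg) hα.1 hα.1 (c := 1) (by rw [h _ (e_mem hα.2), one_smul]) t
    rw [one_mul] at this
    exact (mul_inv_eq_iff_eq_mul.1 this).symm
  refine Subgroup.mem_centralizer_singleton_iff.1 (G_le (fun α t hα _ => ?_) hp)
  unfold Y; split_ifs
  · exact hX _ _ hα
  · exact mul_mem (hX _ _ hα) (hX _ _ hα.sg)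

theorem U_th {u : Aut K} (hu : u ∈ Ucl K c.Pos) : u (e (th c.n)) = e (th c.n) := by
  refine Ucl_induction (p := fun u => u (e (th c.n)) = e (th c.n)) rfl
    (fun β t g h hβ _ hg => ?_) hu
  rw [LinearEquiv.mul_apply, hg]
  rcases ip_cases hβ c.th_R.1 with h1 | h1 | h1
  · exact absurd (h1 ▸ c.th_nonneg) (not_neg_nonneg hβ h.2)
  · have h2 := R.ht_le ⟨(root_add hβ c.th_R.1).2 h1, h.1.add c.th_R.2⟩
    have h3 := ht_eq_one (th c.n) h.2 hβ
    omega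
  · exact X_e_nn hβ c.th_R.1 h1 t

theorem X_th_mem {t : K} (ht : c.τ t = t) : X (th c.n) t ∈ c.G :=
  Y_fix c.th_sg t ▸ Y_mem c.th_R (Al_fix ht _)

theorem triv_of_central {z : Aut K} (hz : z ∈ c.G) (h : ∀ p ∈ c.G, p * z = z * p) : c.Triv z := by
  obtain ⟨p, hp, m, w, u, H, e1⟩ := exists_MP hz
  rw [h p hp, mul_inv_cancel_right] at e1
  have hθ := c.th_R
  obtain ⟨s, _, h1⟩ := H.mon.mono _ hθ.1
  have h2 := conj_X (G_aut hz) hθ.1 (H.mon.root hθ.1) (c := s)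
    (by rw [e1, LinearEquiv.mul_apply, U_th (U_P H.mem), h1]) 1
  rw [← h _ (X_th_mem (map_one _)), mul_inv_cancel_right] at h2
  have h3 : w (th c.n) = th c.n := by
    by_contra h3
    have h4 := congrArg (fun g : Aut K => co (th c.n) (g (e (-th c.n)))) h2
    have h5 : th c.n - w (th c.n) ≠ -th c.n := fun h5 => by
      have h6 := H.mon.root hθ.1
      rw [show w (th c.n) = th c.n + th c.n by rw [← sub_eq_zero, ← neg_eq_zero, ← sub_eq_zero.2 h5]; abel,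
        norm_add, hθ.1] at h6
      omega
    simp only [X_e_m2 hθ.1, X_apply (H.mon.root hθ.1), map_add, map_sub, map_smul, co_hv,
      co_e_self hθ.1, co_e_ne (neg_ne_self hθ.1).symm, co_ad, if_neg (Ne.symm h3),
      co_e_ne (Ne.symm h3), co_e_ne h5] at h4
    simp at h4
  have h4 := H.hout_w hθ.2
  rw [h3] at h4
  rw [e1]
  exact H.triv fun i hi => hout_eq_zero c.th_nonneg (by omega) (c.th_pos i hi).ne'

theorem root_top {p : Lat → Prop} (h0 : p (th c.n)) (hk : c.b = true → p k0 ∧ p (sg c.b k0))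
    (h1 : ∀ α (i : Fin 8), i.1 < c.n → c.R α → p (c.wY (a i) α) → p α) {α : Lat} (hα : c.R α) :
    p α := by
  refine root_ind (fun α hα hα0 => ?_) h1 hα
  induction' hn : (30 - ht α).toNat using Nat.strong_induction_on with n ih generalizing α
  have hm := mem_posL hα.1 hα0
  have hs := hα.2
  have key : p α ∨ ∃ i : Fin 8, i.1 < c.n ∧ sv c.b α i < 0 := by
    rcases c.ok with ⟨hb, _, h | h | h⟩ | ⟨hb, h, _⟩ <;> rw [h] at hs h0 ⊢
    · rw [hb]; exact (up6 α hm hs).imp (fun h => (show α = _ from funext h) ▸ h0) id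
    · rw [hb]; exact (up7 α hm hs).imp (fun h => (show α = _ from funext h) ▸ h0) id
    · rw [hb]; exact (up8 α hm).imp (fun h => (show α = _ from funext h) ▸ h0) id
    · have h2 := hk hb
      rw [hb] at h2 ⊢
      rcases up6t α hm hs with h3 | h3 | h3 | h3
      · exact Or.inl (funext h3 ▸ h0)
      · exact Or.inl (funext h3 ▸ h2.1)
      · exact Or.inl (funext h3 ▸ h2.2)
      · exact Or.inr h3
  rcases key with h2 | ⟨i, hi, h2⟩
  · exact h2
  · have h3 := (ht_wY hi α).2 h2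
    have h4 := (n_Mon hi).R hα
    have h5 := h4.ht_le
    have h6 := c.ht_th
    have h7 := ht_nonneg hα0
    exact h1 α i hi hα (ih _ (by omega) _ h4 (pos_of_ht h4.1 (by omega)) rfl)

variable (c)

def Orb (β : Lat) (x : L K) : Prop := ∃ h ∈ c.G, ∃ r : K, x = r • h (e β)

variable {c}

theorem Orb.self (β : Lat) : c.Orb β (e β) := ⟨1, one_mem _, 1, by simp⟩

theorem Orb.app {β : Lat} {x : L K} (h : c.Orb β x) {g : Aut K} (hg : g ∈ c.G) : c.Orb β (g x) := by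
  obtain ⟨p, hp, r, rfl⟩ := h
  exact ⟨g * p, mul_mem hg hp, r, by rw [map_smul]; rfl⟩

theorem Orb.smul {β : Lat} {x : L K} (h : c.Orb β x) (s : K) : c.Orb β (s • x) := by
  obtain ⟨p, hp, r, rfl⟩ := h
  exact ⟨p, hp, s * r, by rw [smul_smul]⟩

theorem Orb.mem {β : Lat} (hβ : Sp c.n β) {x : L K} (h : c.Orb β x) : x ∈ c.V := by
  obtain ⟨p, hp, r, rfl⟩ := h
  exact c.V.smul_mem _ (G_mem hp (e_mem hβ))

theorem Mon.orb {m : Aut K} {w : W} (h : c.Mon m w) {α β : Lat} (hα : ip α α = 2)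
    (h1 : c.Orb β (e (w α))) : c.Orb β (e α) := by
  obtain ⟨s, _, h2⟩ := h.mono α hα
  have := (h1.smul s).app h.inv.mem
  rwa [← h2, inv_app] at this

theorem orb_long {α : Lat} (hα : c.R α) : sg c.b α = α → c.Orb (th c.n) (e α) :=
  root_top (p := fun α => sg c.b α = α → c.Orb (th c.n) (e α)) (fun _ => Orb.self _)
    (fun hb => by rw [hb]; exact ⟨fun h => absurd h (by decide), fun h => absurd h (by decide)⟩)
    (fun α _ hi hα h h' => (n_Mon hi).orb hα.1 (h (((n_Mon hi).fix_iff hα).2 h'))) hα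

theorem k0_R (hb : c.b = true) : c.R k0 := by
  rw [R, n6_of_b hb, ip_x]; decide

theorem orb_short (hb : c.b = true) {α : Lat} (hα : c.R α) : sg c.b α ≠ α → c.Orb k0 (e α) := by
  refine root_top (p := fun α => sg c.b α ≠ α → c.Orb k0 (e α)) (fun h => absurd c.th_sg h)
    (fun _ => ⟨fun _ => Orb.self _, fun _ => ?_⟩)
    (fun α _ hi hα h h' => (n_Mon hi).orb hα.1 (h fun h2 => h' (((n_Mon hi).fix_iff hα).1 h2))) hα
  have hi : (2 : Fin 8).1 < c.n := by rw [n6_of_b hb]; decide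
  refine (n_Mon hi).orb (k0_R hb).sg.1 ?_
  rw [wY_mov (R_a hi) (by rw [hb]; decide), hb, sg_a, ip_a, ip_a]
  rw [show sg true k0 - cv (sg true k0) 2 • a 2 - cv (sg true k0) (pm true 2) • a (pm true 2) = k0
    by decide]
  exact Orb.self _

theorem MP.co_self {m u : Aut K} {w : W} (H : c.MP m w u) {ν β : Lat} (h : ht β = ht ν) :
    co β (u (e ν)) = co β (e ν) :=
  co_lin htL (ht ν) (fun _ h1 h2 => root_ht_pos h2 h1.2) (van_e (lt_irrefl _)) (U_P H.mem) h.le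

theorem Mon.gf_e {m : Aut K} {w : W} (h : c.Mon m w) {ν : Lat} (hν : ip ν ν = 2) :
    ∃ s : K, s ≠ 0 ∧ ∀ v, gf (e ν) (m v) = s * co (-w⁻¹ ν) v := by
  obtain ⟨s, hs, h1⟩ := h.inv.mono ν hν
  exact ⟨s, hs, fun v => by
    rw [gf_inv h.aut, h1, map_smul, LinearMap.smul_apply, Exc.gf_e (h.inv.root hν), smul_eq_mul]⟩

theorem MP.q_ne {m u : Aut K} {w : W} (H : c.MP m w u) {ν : Lat} (hν : ip ν ν = 2)
    (h : w ν = -ν) : gf (e ν) ((m * u) (e ν)) ≠ 0 := by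
  obtain ⟨s, hs, h1⟩ := H.mon.gf_e hν
  have h2 : -w⁻¹ ν = ν := by
    rw [← map_neg, ← h, W_inv_app]
  rw [LinearEquiv.mul_apply, h1, h2, H.co_self rfl, co_e_self hν, mul_one]
  exact hs

variable (c)

def QL (g : Aut K) : Prop := ∀ x, c.Orb (th c.n) x → gf x (g x) = 0

def QS (g : Aut K) : Prop := ∀ x, c.Orb k0 x → gf x (g (x - c.st x)) = 0

variable {c}

theorem Cj.QL {g g' : Aut K} (h : c.Cj g g') (hg : c.QL g) : c.QL g' := by
  obtain ⟨p, hp, rfl⟩ := h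
  intro x hx
  rw [LinearEquiv.mul_apply, LinearEquiv.mul_apply, gf_inv (G_aut hp)]
  exact hg _ (hx.app (inv_mem hp))

theorem Cj.QS (hb : c.b = true) {g g' : Aut K} (h : c.Cj g g') (hg : c.QS g) : c.QS g' := by
  obtain ⟨p, hp, rfl⟩ := h
  intro x hx
  rw [LinearEquiv.mul_apply, LinearEquiv.mul_apply, gf_inv (G_aut hp), map_sub,
    ← G_st (inv_mem hp) (hx.mem (k0_R hb).2)]
  exact hg _ (hx.app (inv_mem hp))

theorem MP.long_struct {m u : Aut K} {w : W} (H : c.MP m w u) (hq : c.QL (m * u)) :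
    c.Triv (m * u) ∨ (c.b = true ∧ (∀ t, c.τ t = t) ∧ c.Jw w 0 = false ∧ c.Jw w 1 = true ∧
      c.Jw w 2 = true ∧ c.Jw w 3 = true ∧ c.Jw w 4 = true ∧ c.Jw w 5 = false ∧
      w (a 2) = a 4 ∧ w (a 4) = a 2 ∧ w (a 0) = -v8 0 1 1 2 2 1 0 0) := by
  rcases H.long_cases with h | ⟨hn, h0, h1, h2, h3, h4, h5⟩ | ⟨ν, h1, h2, h3⟩
  · exact Or.inl (H.triv h)
  · obtain ⟨k1, k2, k3⟩ := H.psi hn h0 h1 h2 h3 h4 h5
    exact Or.inr ⟨k1, k2, h0, h1, h2, h3, h4, h5, k3⟩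
  · exact absurd (hq _ (orb_long h1 h2)) (H.q_ne h1.1 h3)

theorem MP.short_struct {m u : Aut K} {w : W} (H : c.MP m w u) (hb : c.b = true)
    (hq : c.QS (m * u)) : c.Triv (m * u) ∨ (c.Jw w 0 = true ∧ c.Jw w 1 = false ∧
      c.Jw w 2 = true ∧ c.Jw w 3 = true ∧ c.Jw w 4 = true ∧ c.Jw w 5 = true) := by
  rcases H.short_cases hb with h | h | ⟨ν, h1, h2, h3⟩
  · exact Or.inl (H.triv h)
  · exact Or.inr h
  · exfalso
    have h4 := hq _ (orb_short hb h1 h2)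
    obtain ⟨s, hs, h5⟩ := H.mon.gf_e h1.1
    rw [LinearEquiv.mul_apply, h5, st_e h1.2, map_sub, map_sub] at h4
    rcases h3 with h3 | h3
    · have h6 : -w⁻¹ ν = ν := by rw [← map_neg, ← h3, W_inv_app]
      rw [h6, H.co_self rfl, H.co_self (ht_sg _ _).symm, co_e_self h1.1, co_e_ne h2.symm] at h4
      simp [hs] at h4
    · have h6 : -w⁻¹ ν = sg c.b ν := by
        rw [neg_eq_iff_eq_neg, ← w.injective.eq_iff, W_app_inv, map_neg, H.mon.sg h1, h3, sg_neg,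
          sg_sg, neg_neg]
      rw [h6, H.co_self (ht_sg _ _), H.co_self rfl, co_e_self h1.sg.1, co_e_ne h2] at h4
      simp [hs] at h4

end Cfg

end Pool.Agent.MP_db74b1_al.Exc

end

section

set_option autoImplicit false

namespace Pool.Agent.MP_db74b1_al.Exc

variable {K : Type} [Field K]

abbrev En (K : Type) [Field K] : Type := Module.End K (L K)

noncomputable def prj (M : Submodule K (L K)) : L K →ₗ[K] M :=
  (M.subtype.exists_leftInverse_of_injective M.ker_subtype).choose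

theorem prj_apply (M : Submodule K (L K)) {v : L K} (hv : v ∈ M) : (prj M v : L K) = v := by
  have := LinearMap.congr_fun (M.subtype.exists_leftInverse_of_injective M.ker_subtype).choose_spec
    ⟨v, hv⟩
  exact congrArg Subtype.val this

noncomputable def TW (M : Submodule K (L K)) : En K →ₗ[K] K where
  toFun f := LinearMap.trace K M (prj M ∘ₗ f ∘ₗ M.subtype)
  map_add' f g := by rw [LinearMap.add_comp, LinearMap.comp_add, map_add]
  map_smul' r f := by rw [LinearMap.smul_comp, LinearMap.comp_smul, map_smul]; rfl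

theorem TW_congr {M : Submodule K (L K)} {f g : En K} (h : ∀ v ∈ M, f v = g v) :
    TW M f = TW M g := by
  change LinearMap.trace K M _ = LinearMap.trace K M _
  congr 1
  ext1 v
  simp [h v.1 v.2]

theorem TW_comm {M : Submodule K (L K)} {f g : En K} (hf : ∀ v ∈ M, f v ∈ M)
    (hg : ∀ v ∈ M, g v ∈ M) : TW M (f * g) = TW M (g * f) := by
  have key : ∀ f g : En K, (∀ v ∈ M, g v ∈ M) → prj M ∘ₗ (f * g) ∘ₗ M.subtype =
      (prj M ∘ₗ f ∘ₗ M.subtype) * (prj M ∘ₗ g ∘ₗ M.subtype) := fun f g hg => by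
    ext1 v
    simp [prj_apply M (hg v.1 v.2)]
  change LinearMap.trace K M _ = LinearMap.trace K M _
  rw [key f g hg, key g f hf, LinearMap.trace_mul_comm]

theorem TW_rank {M : Submodule K (L K)} (φ : L K →ₗ[K] K) {y : L K} (hy : y ∈ M) :
    TW M (φ.smulRight y) = φ y := by
  change LinearMap.trace K M _ = _
  have : prj M ∘ₗ φ.smulRight y ∘ₗ M.subtype = (φ ∘ₗ M.subtype).smulRight (prj M y) := by
    ext1 v; simp
  rw [this, LinearMap.trace_smulRight]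
  simp [prj_apply M hy]

theorem step1_abs {M : Submodule K (L K)} (a b A1 A2 : En K) (p1 p2 : L K) (f1 f2 : L K →ₗ[K] K)
    (h1 : a p1 ∈ M) (h2 : a p2 ∈ M) {r k : K} (hr0 : r ≠ 0) (hr1 : r ≠ 1)
    (h : ∀ s t, (s = 0 ∨ s = 1 ∨ s = r) → (t = 0 ∨ t = 1 ∨ t = r) →
      TW M (a * (1 + (s • A1 + t • A2) + (s • f1 + t • f2).smulRight (s • p1 + t • p2)) * b *
        (1 - (s • A1 + t • A2) + (s • f1 + t • f2).smulRight (s • p1 + t • p2))) = k) :
    f1 (a p1) * f2 (b p2) + (f1 (a p2) + f2 (a p1)) * (f1 (b p2) + f2 (b p1))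
      + f2 (a p2) * f1 (b p1) = 0 := by
  let Φ : En K →ₗ[K] En K →ₗ[K] K := LinearMap.mk₂ K (fun x y => TW M (a * x * b * y))
    (fun x x' y => by simp [mul_add, add_mul]) (fun c x y => by simp)
    (fun x y y' => by simp [mul_add]) (fun c x y => by simp)
  have hΦ : ∀ x y, TW M (a * x * b * y) = Φ x y := fun _ _ => rfl
  have hB : ∀ s t : K, (s • f1 + t • f2).smulRight (s • p1 + t • p2) = (s ^ 2) • f1.smulRight p1
      + (s * t) • (f1.smulRight p2 + f2.smulRight p1) + (t ^ 2) • f2.smulRight p2 := fun s t => by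
    refine LinearMap.ext fun v => ?_
    simp only [LinearMap.smulRight_apply, LinearMap.add_apply, LinearMap.smul_apply, smul_eq_mul]
    module
  have hr : ∀ (f f' : L K →ₗ[K] K) (p p' : L K), a p ∈ M →
      Φ (f.smulRight p) (f'.smulRight p') = f (b p') * f' (a p) := fun f f' p p' hp => by
    rw [← hΦ, show a * f.smulRight p * b * f'.smulRight p' = f'.smulRight (f (b p') • a p) by
      refine LinearMap.ext fun v => ?_; simp [smul_smul], TW_rank _ (M.smul_mem _ hp)]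
    simp
  have hc : Φ (f1.smulRight p1) (f2.smulRight p2) + Φ (f1.smulRight p2 + f2.smulRight p1)
      (f1.smulRight p2 + f2.smulRight p1) + Φ (f2.smulRight p2) (f1.smulRight p1) = 0 := by
    simp only [hΦ, hB] at h
    generalize f1.smulRight p2 + f2.smulRight p1 = B12 at *
    generalize f1.smulRight p1 = B11 at *
    generalize f2.smulRight p2 = B22 at *
    simp only [map_add, map_sub, map_smul, LinearMap.add_apply, LinearMap.smul_apply,
      smul_eq_mul] at h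
    have e00 := h 0 0 (by simp) (by simp)
    have e01 := h 0 1 (by simp) (by simp)
    have e02 := h 0 r (by simp) (by simp)
    have e10 := h 1 0 (by simp) (by simp)
    have e11 := h 1 1 (by simp) (by simp)
    have e12 := h 1 r (by simp) (by simp)
    have e20 := h r 0 (by simp) (by simp)
    have e21 := h r 1 (by simp) (by simp)
    have e22 := h r r (by simp) (by simp)
    have hr2 : (r ^ 2 - r) ^ 2 ≠ 0 := pow_ne_zero _ (by
      rw [show r ^ 2 - r = r * (r - 1) by ring]; exact mul_ne_zero hr0 (sub_ne_zero.2 hr1))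
    apply mul_left_cancel₀ hr2
    linear_combination (r - 1) * ((r - 1) * e00 - r * e01 + e02) - r * ((r - 1) * e10 - r * e11 + e12)
      + ((r - 1) * e20 - r * e21 + e22)
  simp only [map_add, LinearMap.add_apply, hr _ _ _ _ h1, hr _ _ _ _ h2] at hc
  linear_combination hc

theorem k0_fix : ∀ x ∈ posL, Sp 6 x → ipx k0 x * ipx (sg true k0) x = 1 → ∀ i, sg true x i = x i := by
  decide +kernel

namespace Cfg

variable (c : Cfg K)

/-- The product of the classes of `a` and `b` lies in one class, up to the centre. -/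
def SC (a b : Aut K) : Prop := ∃ g ∈ c.G, ∀ a' b', c.Cj a a' → c.Cj b b' →
  ∃ z g', c.Triv z ∧ c.Cj g g' ∧ a' * b' = z * g'

variable {c}

theorem SC.trace {a b : Aut K} (h : c.SC a b) {M : Submodule K (L K)} (hM : M ≤ c.V)
    (hG : ∀ g ∈ c.G, ∀ v ∈ M, g v ∈ M) :
    ∃ k, ∀ a' b', c.Cj a a' → c.Cj b b' → TW M (a' * b' : Aut K) = k := by
  obtain ⟨g, hg, h⟩ := h
  refine ⟨TW M g, fun a' b' ha hb => ?_⟩
  obtain ⟨z, _, hz, ⟨p, hp, rfl⟩, e⟩ := h a' b' ha hb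
  have h1 := mul_mem (mul_mem hp hg) (inv_mem hp)
  rw [e, TW_congr (g := ((p * g).toLinearMap * (p⁻¹).toLinearMap : En K))
    fun v hv => hz _ (hM (hG _ h1 v hv)),
    TW_comm (hG _ (mul_mem hp hg)) (hG _ (inv_mem hp))]
  exact TW_congr fun v _ => by simp

theorem step1 {a b : Aut K} (ha : a ∈ c.G) (hb : b ∈ c.G) (h : c.SC a b) {r : K} (hr : c.τ r = r)
    (hr0 : r ≠ 0) (hr1 : r ≠ 1) {M : Submodule K (L K)} (hM : M ≤ c.V)
    (hG : ∀ g ∈ c.G, ∀ v ∈ M, g v ∈ M) (D : En K) (A : L K →ₗ[K] En K) {e1 e2 : L K}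
    (he1 : e1 ∈ c.V) (he2 : e2 ∈ c.V) (hD : ∀ v ∈ c.V, D v ∈ M)
    (hDG : ∀ g ∈ c.G, ∀ v ∈ c.V, g (D v) = D (g v))
    (hU : ∀ s t, c.τ s = s → c.τ t = t → ∃ U ∈ c.G, ∀ m ∈ M,
      U m = m + A (s • e1 + t • e2) m + gf (s • e1 + t • e2) m • D (s • e1 + t • e2) ∧
      U⁻¹ m = m - A (s • e1 + t • e2) m + gf (s • e1 + t • e2) m • D (s • e1 + t • e2))
    (hS : ∀ t, c.τ t = t → ∃ p ∈ c.G, p e1 = e1 + t • e2 ∧ p e2 = e2) :
    (∀ a', c.Cj a a' → gf e2 (a' (D e2)) = 0) ∨ ∀ b', c.Cj b b' → gf e2 (b' (D e2)) = 0 := by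
  obtain ⟨k, hk⟩ := h.trace hM hG
  have hF : ∀ s, (s = 0 ∨ s = 1 ∨ s = r) → c.τ s = s := by
    rintro s (rfl | rfl | rfl) <;> simp [hr]
  have key : ∀ a' b', c.Cj a a' → c.Cj b b' →
      gf e1 (a' (D e1)) * gf e2 (b' (D e2)) + (gf e1 (a' (D e2)) + gf e2 (a' (D e1))) *
        (gf e1 (b' (D e2)) + gf e2 (b' (D e1))) + gf e2 (a' (D e2)) * gf e1 (b' (D e1)) = 0 := by
    intro a' b' ha' hb'
    refine step1_abs (M := M) (a' : En K) (b' : En K) (A e1) (A e2) (D e1) (D e2) (gf e1) (gf e2)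
      (hG _ (ha'.mem ha) _ (hD _ he1)) (hG _ (ha'.mem ha) _ (hD _ he2)) hr0 hr1 (k := k)
      fun s t hs ht => ?_
    obtain ⟨U, hU1, hU2⟩ := hU s t (hF s hs) (hF t ht)
    rw [← hk a' _ ha' (hb'.trans ⟨U, hU1, rfl⟩)]
    refine TW_congr fun m hm => ?_
    have h1 := hG _ (inv_mem hU1) m hm
    have h2 := (hU2 _ (hG _ (hb'.mem hb) _ h1)).1
    have h3 := (hU2 m hm).2
    simp only [map_add, map_smul] at h2 h3
    change a' _ = a' (U (b' (U⁻¹ m)))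
    rw [h2, h3]
    simp
  by_contra hc
  push Not at hc
  obtain ⟨⟨a', ha', h1⟩, b', hb', h2⟩ := hc
  have k2 : ∀ t, (t = 0 ∨ t = 1 ∨ t = r) →
      gf e1 (a' (D e1)) * gf e2 (b' (D e2)) + (gf e1 (a' (D e2)) + gf e2 (a' (D e1))) *
        (gf e1 (b' (D e2)) + gf e2 (b' (D e1)) + 2 * t * gf e2 (b' (D e2))) + gf e2 (a' (D e2)) *
        (gf e1 (b' (D e1)) + t * (gf e1 (b' (D e2)) + gf e2 (b' (D e1)))
          + t ^ 2 * gf e2 (b' (D e2))) = 0 := by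
    intro t ht
    obtain ⟨p, hp, h3, h4⟩ := hS t (hF t ht)
    have h5 := key a' _ ha' (hb'.trans ⟨p⁻¹, inv_mem hp, rfl⟩)
    simp only [inv_inv, LinearEquiv.mul_apply, gf_inv (G_aut (inv_mem hp)), hDG p hp _ he1,
      hDG p hp _ he2, h3, h4, map_add, map_smul, LinearMap.add_apply, LinearMap.smul_apply,
      smul_eq_mul] at h5
    linear_combination h5
  have hr2 : r ^ 2 - r ≠ 0 := by
    rw [show r ^ 2 - r = r * (r - 1) by ring]; exact mul_ne_zero hr0 (sub_ne_zero.2 hr1)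
  apply mul_ne_zero hr2 (mul_ne_zero h1 h2)
  linear_combination (r - 1) * k2 0 (by simp) - r * k2 1 (by simp) + k2 r (by simp)

theorem polar : ∃ k : Fin 8, k.1 < c.n ∧ pm c.b k = k ∧ cv (th c.n) k = 1 := by
  rcases c.ok with ⟨hb, _, h | h | h⟩ | ⟨hb, h, _⟩ <;> rw [h, hb] <;> decide

theorem SC.long {a b : Aut K} (ha : a ∈ c.G) (hb : b ∈ c.G) (h : c.SC a b) {r : K}
    (hr : c.τ r = r) (hr0 : r ≠ 0) (hr1 : r ≠ 1) : c.QL a ∨ c.QL b := by
  obtain ⟨k, hk, h1, h2⟩ := polar (c := c)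
  have hθ := c.th_R
  rw [← ip_a] at h2
  have hμ : c.R (th c.n - Exc.a k) := ⟨(root_sub hθ.1 (root_a k)).2 h2, hθ.2.sub (Sp_a hk)⟩
  have hs : sg c.b (Exc.a k) = Exc.a k := by rw [sg_a, h1]
  have hμs : sg c.b (th c.n - Exc.a k) = th c.n - Exc.a k := by rw [sg_sub, c.th_sg, hs]
  have h3 : ip (th c.n - Exc.a k) (th c.n) = 1 := by rw [ip_sub_left, hθ.1, ip_comm, h2]; rfl
  have hQ : ∀ g ∈ c.G, (∀ g', c.Cj g g' → gf (e (th c.n)) (g' (e (th c.n))) = 0) → c.QL g := by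
    rintro g _ hg _ ⟨p, hp, s, rfl⟩
    have := hg _ ⟨p⁻¹, inv_mem hp, rfl⟩
    rw [inv_inv, LinearEquiv.mul_apply, LinearEquiv.mul_apply, gf_inv (G_aut (inv_mem hp)),
      inv_inv] at this
    simp [this]
  refine (step1 ha hb h hr hr0 hr1 le_rfl (fun g hg v hv => G_mem hg hv) LinearMap.id br
    (e_mem hμ.2) (e_mem hθ.2) (fun v hv => hv) (fun _ _ _ _ => rfl) (fun s t hs' ht => ?_)
    fun t ht => ?_).imp (hQ a ha) (hQ b hb)
  · refine ⟨X _ s * X _ t, mul_mem (Y_fix hμs s ▸ Y_mem hμ (Al_fix hs' _)) (X_th_mem ht),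
      fun m _ => ⟨(ex_collinear hμ.1 hθ.1 h3 s t m).symm, ?_⟩⟩
    rw [mul_inv_rev, X_inv, X_inv, ← X_comm hμ.1 hθ.1 (by omega), ← ex_collinear hμ.1 hθ.1 h3,
      ex, neg_smul, neg_smul, ← neg_add]
    generalize s • (e (th c.n - Exc.a k) : L K) + t • e (th c.n) = x
    simp [sub_eq_add_neg]
  · have h4 : ip (Exc.a k) (th c.n - Exc.a k) = -1 := by
      rw [ip_sub_right, ip_comm, h2, root_a]; rfl
    refine ⟨X (Exc.a k) (t * eps (Exc.a k) (th c.n - Exc.a k)),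
      Y_fix hs _ ▸ Y_mem (R_a hk) (Al_fix (by simp [ht]) _), ?_,
      X_e_nn (root_a k) hθ.1 (by rw [ip_comm]; omega) _⟩
    rw [X_e_m1 (root_a k) hμ.1 h4, mul_assoc, eps_cast_mul_self, mul_one, add_sub_cancel]

/-- The linear version of `st` when the field automorphism is trivial. -/
def stl (hτ : ∀ t, c.τ t = t) : En K where
  toFun := c.st
  map_add' := map_add _
  map_smul' r v := by rw [map_smulₛₗ, hτ]; rfl

theorem stl_apply (hτ : ∀ t, c.τ t = t) (v : L K) : stl hτ v = c.st v := rfl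

theorem k0_mov (hb : c.b = true) : sg c.b k0 ≠ k0 := by rw [hb]; decide

theorem ad_ad_M (hb : c.b = true) (hτ : ∀ t, c.τ t = t) {v : L K} (hv' : v ∈ c.V) :
    ad k0 (ad (sg c.b k0) (v - c.st v)) = 0 := by
  have hk := k0_R hb
  have h0 := hk.orth (k0_mov hb)
  have key : ∀ β, c.R β → sg c.b β ≠ β → ad k0 (ad (sg c.b k0) (e β : L K)) = 0 := by
    intro β hβ hm
    rcases ip_cases hk.sg.1 hβ.1 with rfl | h | h
    · rw [ad_e_m2 hk.sg.1, map_neg, ad_hv, ip_comm, h0]; simp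
    · rw [ad_e_m1 hk.sg.1 hβ.1 h, map_smul, ad_e_nn hk.1 ((root_add hk.sg.1 hβ.1).2 h), smul_zero]
      rw [ip_add_right, h0, zero_add]
      rcases ip_cases hk.1 hβ.1 with rfl | h1 | h1
      · rw [ip_neg_right, ip_comm, h0] at h; omega
      · exfalso
        have hs := hβ.2
        rw [n6_of_b hb] at hs
        rw [hb] at h hm
        by_cases h2 : 0 ≤ β
        · exact hm (funext (k0_fix β (mem_posL hβ.1 h2) hs (by rw [← ip_x, ← ip_x, h, h1]; rfl)))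
        · exact hm (neg_inj.1 (funext (k0_fix (-β) (mem_posL hβ.neg.1 (neg_nonneg_of hβ.1 h2))
            hs.neg (by rw [← ip_x, ← ip_x, ip_neg_right, ip_neg_right, h, h1]; rfl))))
      · exact h1
    · rw [ad_e_nn hk.sg.1 hβ.1 h, map_zero]
  refine V_ind (P := fun v => ad k0 (ad (sg c.b k0) (v - c.st v)) = 0) (fun v w _ _ h1 h2 => ?_)
    (fun r v _ h1 => ?_) (fun i _ => ?_) (fun β hβ => ?_) hv'
  · rw [map_add, add_sub_add_comm, map_add, map_add, h1, h2, add_zero]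
  · rw [map_smulₛₗ, hτ, ← smul_sub, map_smul, map_smul, h1, smul_zero]
  · rw [st_hv, ← hv_sub, ad_hv, map_smul, ad_e_nn hk.1 hk.sg.1 h0.ge, smul_zero]
  · rw [st_e hβ.2]
    by_cases h : sg c.b β = β
    · simp [h]
    · rw [map_sub, map_sub, key β hβ h, key _ hβ.sg (by rw [sg_sg]; exact Ne.symm h), sub_zero]

theorem Y_k0_M (hb : c.b = true) (hτ : ∀ t, c.τ t = t) (r : K) {v : L K} (hv' : v ∈ c.V) :
    c.Y k0 r (v - c.st v) = v - c.st v + br (r • e k0 + c.st (r • e k0)) (v - c.st v)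
      + gf (r • e k0) (v - c.st v) • (r • e k0 - c.st (r • e k0)) := by
  have hk := k0_R hb
  have h0 := hk.orth (k0_mov hb)
  have hne : -k0 ≠ sg c.b k0 := by rw [hb]; decide
  have h1 : ∀ m : L K, co (-k0) (ad (sg c.b k0) m) = 0 := fun m => by
    rw [co_ad, if_neg hne, co_of_not (β := -k0 - sg c.b k0), mul_zero, ite_self]
    rw [norm_sub, norm_neg, ip_neg_left, h0, hk.1, hk.sg.1]; decide
  have h2 : co (-sg c.b k0) (v - c.st v) = -co (-k0) (v - c.st v) := by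
    have e1 := co_st hk.neg v
    have e2 := co_st hk.neg.sg v
    rw [sg_sg, hτ] at e2
    rw [hτ] at e1
    rw [← sg_neg, map_sub, map_sub, e1, e2]; ring
  have h3 := ad_ad_M hb hτ hv'
  generalize v - c.st v = m at *
  rw [Y_mov (k0_mov hb), hτ, LinearEquiv.mul_apply, X_apply hk.1, X_apply hk.sg.1, map_smulₛₗ, hτ,
    st_e hk.2]
  simp only [map_add, map_smul, h1, h2, h3, ad_e_nn hk.1 hk.sg.1 h0.ge, co_e_ne hne,
    LinearMap.add_apply, LinearMap.smul_apply, br_e hk.1, br_e hk.sg.1, gf_e hk.1, smul_eq_mul]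
  module

theorem SC.short {a b : Aut K} (ha : a ∈ c.G) (hb' : b ∈ c.G) (h : c.SC a b) (hb : c.b = true)
    (hτ : ∀ t, c.τ t = t) {r : K} (hr0 : r ≠ 0) (hr1 : r ≠ 1) : c.QS a ∨ c.QS b := by
  have hk := k0_R hb
  have hn := n6_of_b hb
  have h5 : (5 : Fin 8).1 < c.n := by rw [hn]; decide
  have hμ : c.R (k0 - Exc.a 5) := by rw [R, hn, ip_x]; decide
  have hm5 : sg c.b (Exc.a 5) ≠ Exc.a 5 := by rw [hb]; decide
  have hs5 : sg c.b (Exc.a 5) = Exc.a 0 := by rw [hb]; decide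
  have hQ : ∀ g ∈ c.G, (∀ g', c.Cj g g' → gf (e k0) (g' ((1 - stl hτ) (e k0))) = 0) → c.QS g := by
    rintro g _ hg _ ⟨p, hp, s, rfl⟩
    have := hg _ ⟨p⁻¹, inv_mem hp, rfl⟩
    rw [inv_inv, LinearEquiv.mul_apply, LinearEquiv.mul_apply, gf_inv (G_aut (inv_mem hp)),
      inv_inv] at this
    rw [map_smulₛₗ c.st, hτ, G_st hp (e_mem hk.2), ← smul_sub, ← map_sub]
    change gf _ (g (p (e k0 - c.st (e k0)))) = 0 at this
    simp only [map_smul, this, LinearMap.smul_apply, smul_zero]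
  have hDG : ∀ g ∈ c.G, ∀ v ∈ c.V, g ((1 - stl hτ) v) = (1 - stl hτ) (g v) := fun g hg v hv => by
    change g (v - c.st v) = g v - c.st (g v)
    rw [map_sub, G_st hg hv]
  refine (step1 ha hb' h (hτ r) hr0 hr1 (M := c.V.map (1 - stl hτ)) ?_ ?_ (1 - stl hτ)
    (br ∘ₗ (1 + stl hτ)) (e_mem hμ.2) (e_mem hk.2) (fun v hv => ⟨v, hv, rfl⟩) hDG
    (fun s t _ _ => ?_) fun t _ => ?_).imp (hQ a ha) (hQ b hb')
  · rintro _ ⟨v, hv, rfl⟩
    exact sub_mem hv (st_mem hv)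
  · rintro g hg _ ⟨v, hv, rfl⟩
    exact ⟨g v, G_mem hg hv, (hDG g hg v hv).symm⟩
  · have ho : c.Orb k0 (s • e (k0 - Exc.a 5) + t • e k0) := by
      by_cases ht : t = 0
      · rw [ht, zero_smul, add_zero]
        exact (orb_short hb hμ (by rw [hb]; decide)).smul s
      · refine ⟨c.Y (-Exc.a 5) (s / t * eps (-Exc.a 5) k0), Y_mem (R_a h5).neg
          (Al_fix (hτ _) _), t, ?_⟩
        rw [Y_mov (by rw [hb]; decide), LinearEquiv.mul_apply, X_e_nn (R_a h5).neg.sg.1 hk.1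
          (by rw [hb, ip_x]; decide), X_e_m1 (R_a h5).neg.1 hk.1 (by rw [ip_x]; decide),
          mul_assoc, eps_cast_mul_self, neg_add_eq_sub, smul_add, smul_smul, add_comm]
        congr 2; field_simp
    obtain ⟨p, hp, q, e1⟩ := ho
    rw [e1]
    have key : ∀ q : K, ∀ m ∈ c.V.map (1 - stl hτ), (p * c.Y k0 q * p⁻¹) m =
        m + br (q • p (e k0) + c.st (q • p (e k0))) m
          + gf (q • p (e k0)) m • (q • p (e k0) - c.st (q • p (e k0))) := by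
      rintro q _ ⟨v, hv, rfl⟩
      have hq := c.V.smul_mem q (e_mem hk.2)
      rw [LinearEquiv.mul_apply, LinearEquiv.mul_apply, hDG _ (inv_mem hp) v hv]
      change p (c.Y k0 q (p⁻¹ v - c.st (p⁻¹ v))) = _
      have aux : ∀ x ∈ c.V, ∀ m, p (m + br (x + c.st x) m + gf x m • (x - c.st x)) =
          p m + br (p x + c.st (p x)) (p m) + gf (p x) (p m) • (p x - c.st (p x)) := fun x hx m => by
        rw [map_add p, map_add p, map_smul p, map_sub p, (G_aut hp).1, (G_aut hp).2, map_add p,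
          G_st hp hx]
      rw [Y_k0_M hb hτ q (G_mem (inv_mem hp) hv), aux _ hq, G_st (inv_mem hp) hv, ← map_sub p⁻¹,
        app_inv, map_smul p]
      rfl
    refine ⟨p * c.Y k0 q * p⁻¹, mul_mem (mul_mem hp (Y_mem hk (Al_fix (hτ _) _))) (inv_mem hp),
      fun m hm => ⟨key q m hm, ?_⟩⟩
    rw [show (p * c.Y k0 q * p⁻¹)⁻¹ = p * (c.Y k0 q)⁻¹ * p⁻¹ by group, Y_inv hk, key _ m hm]
    simp [stl_apply, hτ]
    module
  · refine ⟨c.Y (Exc.a 5) (t * eps (Exc.a 5) (k0 - Exc.a 5)), Y_mem (R_a h5) (Al_fix (hτ _) _),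
      ?_, ?_⟩ <;> rw [Y_mov hm5, hs5, LinearEquiv.mul_apply]
    · rw [X_e_nn (root_a 0) hμ.1 (by rw [ip_x]; decide), X_e_m1 (root_a 5) hμ.1
        (by rw [ip_x]; decide), mul_assoc, eps_cast_mul_self, mul_one, add_sub_cancel]
    · rw [X_e_nn (root_a 0) hk.1 (by rw [ip_x]; decide), X_e_nn (root_a 5) hk.1
        (by rw [ip_x]; decide)]

end Cfg

end Pool.Agent.MP_db74b1_al.Exc

end

section

set_option autoImplicit false

namespace Pool.Agent.MP_db74b1_al.Exc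

variable {K : Type} [Field K]

def ts : Lat := v8 1 0 1 1 1 1 0 0
def k1 : Lat := v8 1 1 1 2 2 1 0 0
def et : Lat := v8 0 1 1 1 0 0 0 0
def eu : Lat := v8 0 1 0 1 1 0 0 0

theorem fa1 : ∀ x ∈ posL, Sp 6 x → x 0 + x 5 = 1 → (∀ i, x i = a 0 i) ∨ (∀ i, x i = a 5 i) ∨
    ∃ j : Fin 8, (j = 1 ∨ j = 2 ∨ j = 3 ∨ j = 4) ∧ 0 < sv true x j := by decide +kernel
theorem fa2 : ∀ x ∈ posL, Sp 6 x → x 0 + x 5 = 2 → (∀ i, sg true x i = x i) → (∀ i, x i = ts i) ∨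
    ∃ j : Fin 8, (j = 1 ∨ j = 2 ∨ j = 3 ∨ j = 4) ∧ 0 < sv true x j := by decide +kernel
theorem fa2' : ∀ x ∈ posL, Sp 6 x → 1 < x 0 + x 5 → x 0 + x 5 = 2 ∧ ((∀ i, sg true x i = x i) ∨
    (∀ i, x i = k0 i) ∨ ∀ i, x i = k1 i) := by decide +kernel
theorem fa3 : ∀ x ∈ posL, Sp 6 x → 0 < x 0 + x 5 → (∀ i, x i = a 0 i) ∨ (∀ i, x i = a 5 i) ∨
    1 ≤ x 2 + x 4 := by decide +kernel
theorem fa4 : ∀ x ∈ posL, Sp 6 x → 1 < x 0 + x 5 → (∀ i, x i = ts i) ∨ 1 ≤ x 1 := by decide +kernel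

def crd (i : Fin 8) : Lat →+ ℤ := AddMonoidHom.mk' (fun x => x i) fun _ _ => rfl

theorem crd_apply (i : Fin 8) (x : Lat) : crd i x = x i := rfl

theorem eps_ne (x y : Lat) : (eps x y : K) ≠ 0 := fun h => by
  have := eps_cast_mul_self (R := K) x y; rw [h] at this; simp at this

theorem rt {x : Lat} (h : ipx x x = 2) : ip x x = 2 := by rw [ip_x, h]

theorem van_X0 (l : Lat →+ ℤ) (k : ℤ) {α : Lat} (hα : ip α α = 2) (h : l α = 0) (t : K) {v : L K}
    (hv : van (fun β => l β ≤ k) v) : van (fun β => l β ≤ k) (X α t v) := by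
  simpa using (van_X hα (fun _ h => h) (fun β hβ => by rw [map_sub]; omega) t hv).add hv

def wa (x : Lat) : Lat :=
  v8 (-x 5) (x 1 - x 0 - x 5) (x 4 - x 0 - 2 * x 5) (x 3 - 2 * x 0 - 2 * x 5) (x 2 - 2 * x 0 - x 5)
    (-x 0) 0 0

namespace Cfg

variable {c : Cfg K}

theorem R6 (hb : c.b = true) {x : Lat} (h : ipx x x = 2 ∧ Sp 6 x) : c.R x :=
  ⟨rt h.1, n6_of_b hb ▸ h.2⟩

theorem test_co (l : Lat →+ ℤ) (k : ℤ) {ζ : Lat} (hζ : c.R ζ) (h1 : l ζ = 0)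
    (h2 : l (sg c.b ζ) = 0) {A : Lat → Prop} (hA : ∀ α, A α → ip α α = 2 → 1 ≤ l α) {u : Aut K}
    (hu : u ∈ Ucl K A) {x x0 : L K} (hx : van (fun β => l β < k) x)
    (hx0 : van (fun β => l β ≤ k) (x - x0)) (t : K) {β : Lat} (hβ : l β ≤ k) :
    co β ((c.Y ζ t * u) x) = co β (c.Y ζ t x0) := by
  have h3 := (van_lin l k hA hx hu).add hx0
  rw [sub_add_sub_cancel] at h3
  have h4 : van (fun β => l β ≤ k) (c.Y ζ t (u x - x0)) := by
    unfold Y; split_ifs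
    · exact van_X0 l k hζ.1 h1 t h3
    · exact van_X0 l k hζ.1 h1 t (van_X0 l k hζ.sg.1 h2 _ h3)
  have := h4.1 β hβ
  rwa [map_sub, map_sub, sub_eq_zero] at this

theorem Y_e_two (hτ : ∀ t, c.τ t = t) {ζ β : Lat} (hζ : c.R ζ) (hm : sg c.b ζ ≠ ζ)
    (hβ : ip β β = 2) (h1 : ip ζ β = -1) (h2 : ip (sg c.b ζ) β = -1) :
    ∃ p q r : K, r ≠ 0 ∧ ∀ t, c.Y ζ t (e β) = e β + (t * p) • e (ζ + β)
      + (t * q) • e (sg c.b ζ + β) + (t ^ 2 * r) • e (ζ + (sg c.b ζ + β)) := by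
  refine ⟨eps ζ β, eps (sg c.b ζ) β, eps (sg c.b ζ) β * eps ζ (sg c.b ζ + β),
    mul_ne_zero (eps_ne _ _) (eps_ne _ _), fun t => ?_⟩
  rw [Y_mov hm, hτ, LinearEquiv.mul_apply, X_e_m1 hζ.sg.1 hβ h2, map_add, map_smul,
    X_e_m1 hζ.1 hβ h1, X_e_m1 hζ.1 ((root_add hζ.sg.1 hβ).2 h2)
      (by rw [ip_add_right, hζ.orth hm, h1]; rfl)]
  module

theorem Mon.triv_of {m : Aut K} {w : W} (h : c.Mon m w)
    (h1 : ∀ i : Fin 8, i.1 < c.n → m (e (a i)) = e (a i)) : c.Triv m := by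
  refine fun v hv => gen_fix h.aut (fun i hi => ⟨h1 i hi, ?_⟩) hv
  obtain ⟨s, hs, h2⟩ := h.mono _ (root_a i)
  have h3 := (e_inj (h.root (root_a i)) hs (h2.symm.trans ((h1 i hi).trans (one_smul _ _).symm))).1
  rw [h.neg_of (root_a i) (s := 1) (by rw [h3, h1 i hi, one_smul]), h3, inv_one, one_smul]

structure FA (c : Cfg K) (w : W) : Prop where
  hb : c.b = true
  hτ : ∀ t, c.τ t = t
  j0 : c.Jw w 0 = false
  j1 : c.Jw w 1 = true
  j2 : c.Jw w 2 = true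
  j3 : c.Jw w 3 = true
  j4 : c.Jw w 4 = true
  j5 : c.Jw w 5 = false
  w2 : w (a 2) = a 4
  w4 : w (a 4) = a 2
  w0 : w (a 0) = -v8 0 1 1 2 2 1 0 0

theorem FA.hout {w : W} (F : FA c w) {x : Lat} (hx : Sp c.n x) :
    hout (c.Jw w) x = x 0 + x 5 := by
  rw [n6_of_b F.hb] at hx
  rw [Exc.hout, F.j0, F.j1, F.j2, F.j3, F.j4, F.j5, hx 6 (by decide), hx 7 (by decide)]
  simp

theorem FA.mem {w : W} (F : FA c w) {x : Lat} (hx : ip x x = 2) (hs : Sp c.n x)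
    (h : 0 < Exc.hout (c.Jw w) x) : x ∈ posL ∧ Sp 6 x :=
  ⟨mem_posL hx (pos_of_hout hx h), n6_of_b F.hb ▸ hs⟩

theorem FA.J {w : W} (F : FA c w) {j : Fin 8} (h : j = 1 ∨ j = 2 ∨ j = 3 ∨ j = 4) :
    c.Jw w j = true := by
  rcases h with rfl | rfl | rfl | rfl
  exacts [F.j1, F.j2, F.j3, F.j4]

theorem FA.w_eq {m u : Aut K} {w : W} (F : FA c w) (H : c.MP m w u) {x : Lat} (hx : Sp 6 x) :
    w x = wa x := by
  have h1 := H.w_fix F.j1 (by rw [F.hb]; rfl)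
  have h3 := H.w_fix F.j3 (by rw [F.hb]; rfl)
  have h5 := H.mon.sg (R6 F.hb (x := a 0) (by decide))
  rw [F.hb, F.w0, show sg true (a 0) = a 5 by decide] at h5
  rw [lat_sum x]
  simp only [map_add, map_smul, h1, h3, h5, F.w0, F.w2, F.w4, hx 6 (by decide), hx 7 (by decide),
    zero_smul]
  apply lat_ext <;> simp [wa, a, v8, sg, pm] <;> ring

theorem FA.gf_e {m u : Aut K} {w : W} (F : FA c w) (H : c.MP m w u) (ν μ : Lat)
    (h : ipx ν ν = 2 ∧ Sp 6 μ ∧ wa μ = -ν) :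
    ∃ s : K, s ≠ 0 ∧ ∀ v, gf (e ν) (m v) = s * co μ v := by
  obtain ⟨s, hs, h1⟩ := H.mon.gf_e (rt h.1)
  refine ⟨s, hs, fun v => ?_⟩
  rw [h1, ← map_neg, ← h.2.2, ← F.w_eq H h.2.1, W_inv_app]

theorem FA.T1 {m u : Aut K} {w : W} (F : FA c w) (H : c.MP m w u) (hq : c.QL (m * u)) :
    c.Good m (m * u) (a 0) := by
  intro u' hu' hc
  have H' := H.of_cj hu' hc
  have hb := F.hb
  have hζ := R6 hb (x := a 0) (by decide)
  have hs : sg c.b (a 0) = a 5 := by rw [hb]; decide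
  have l0 : Exc.hout (c.Jw w) (a 0) = 1 := by rw [F.hout hζ.2]; rfl
  have l5 : Exc.hout (c.Jw w) (a 5) = 1 := by rw [F.hout (hs ▸ hζ.sg.2)]; rfl
  obtain ⟨t, _, ⟨u1, h1, h2⟩, h3⟩ := peelY (houtL (c.Jw w)) hζ
    (A := fun β => Sp c.n β ∧ 0 < Exc.hout (c.Jw w) β ∧ β ≠ a 0 ∧ β ≠ a 5)
    (by rw [houtL_apply, l0]; omega) (by rw [hs, houtL_apply, houtL_apply, l0, l5])
    (fun β h _ => by rw [hs]; tauto) (fun β h hβ => by
      have k : ∀ ζ, Sp c.n ζ → Exc.hout (c.Jw w) ζ = 1 → Sp c.n (ζ + β) ∧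
          0 < Exc.hout (c.Jw w) (ζ + β) ∧ ζ + β ≠ a 0 ∧ ζ + β ≠ a 5 := fun ζ h1 h2 => by
        have h3 := map_add (houtL (c.Jw w)) ζ β
        have h4 := h.2.1
        simp only [houtL_apply] at h3
        exact ⟨h1.add h.1, by omega, fun h5 => by rw [h5] at h3; omega,
          fun h5 => by rw [h5] at h3; omega⟩
      rw [hs, houtL_apply, houtL_apply, l0]
      exact ⟨h.2.1, h.2.2.1, h.2.2.2, fun _ => k _ hζ.2 l0, fun _ => k _ (hs ▸ hζ.sg.2) l5⟩)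
    (U_G hu') H'.b1
  suffices t = 0 by ext i; rw [h3, this]; simp
  have hz := R6 hb (x := v8 1 0 1 1 1 0 0 0) (by decide)
  have hts := R6 hb (x := -ts) (by decide)
  obtain ⟨p, q, r, hr, h4⟩ := Y_e_two F.hτ hz (by rw [hb]; decide) hts.1 (by rw [ip_x]; decide)
    (by rw [hb, ip_x]; decide)
  have h5 := hc.QL hq _ ((orb_long hts (by rw [hb]; decide)).app (Y_mem hz (Al_one _)))
  obtain ⟨p', q', r', hr', h6⟩ := Y_e_two F.hτ hζ (by rw [hb]; decide) hts.1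
    (by rw [ip_x]; decide) (by rw [hb, ip_x]; decide)
  rw [hb] at h4 h6
  rw [show v8 1 0 1 1 1 0 0 0 + -ts = -a 5 by decide,
    show sg true (v8 1 0 1 1 1 0 0 0) + -ts = -a 0 by decide,
    show v8 1 0 1 1 1 0 0 0 + -a 0 = v8 0 0 1 1 1 0 0 0 by decide] at h4
  have h7 : ∀ β, (crd 2 + crd 4) β ≤ -2 → co β (u' (c.Y (v8 1 0 1 1 1 0 0 0) 1 (e (-ts)))) =
      co β (c.Y (a 0) t (e (-ts))) := fun β hβ => by
    rw [h2]
    refine test_co (crd 2 + crd 4) (-2) hζ rfl (by rw [hs]; rfl) (fun α h hα => ?_) h1 ?_ ?_ t hβ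
    · obtain ⟨k1, k2⟩ := F.mem hα h.1 h.2.1
      rcases fa3 α k1 k2 (F.hout h.1 ▸ h.2.1) with k | k | k
      · exact absurd (funext k) h.2.2.1
      · exact absurd (funext k) h.2.2.2
      · exact k
    · rw [h4]
      exact (((van_e (by decide)).add ((van_e (by decide)).smul _)).add
        ((van_e (by decide)).smul _)).add ((van_e (by decide)).smul _)
    · rw [h4, add_assoc, add_assoc, add_sub_cancel_left]
      exact ((van_e (by decide)).smul _).add (((van_e (by decide)).smul _).add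
        ((van_e (by decide)).smul _))
  obtain ⟨s1, _, g1⟩ := F.gf_e H (-ts) (-th 6) (by decide)
  obtain ⟨s2, _, g2⟩ := F.gf_e H (-a 5) (-v8 1 1 2 2 1 0 0 0) (by decide)
  obtain ⟨s3, _, g3⟩ := F.gf_e H (-a 0) (-v8 0 1 1 2 2 1 0 0) (by decide)
  obtain ⟨s4, hs4, g4⟩ := F.gf_e H (v8 0 0 1 1 1 0 0 0) (-v8 0 0 1 1 1 0 0 0) (by decide)
  rw [LinearEquiv.mul_apply] at h5
  generalize u' (c.Y (v8 1 0 1 1 1 0 0 0) 1 (e (-ts))) = y at h5 h7
  rw [h4] at h5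
  simp only [map_add, map_smul, LinearMap.add_apply, LinearMap.smul_apply, g1, g2, g3, g4] at h5
  rw [h7 _ (by decide), h7 _ (by decide), h7 _ (by decide), h7 _ (by decide), h6,
    show a 0 + (sg true (a 0) + -ts) = -v8 0 0 1 1 1 0 0 0 by decide] at h5
  simp only [map_add, map_smul, co_e_self (rt (x := -v8 0 0 1 1 1 0 0 0) (by decide))] at h5
  repeat rw [co_e_ne (by decide)] at h5
  simpa [hr, hr', hs4] using h5

theorem FA.lev1 {m u : Aut K} {w : W} (F : FA c w) (H : c.MP m w u) (hq : c.QL (m * u)) :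
    u ∈ Ucl K (fun β => Sp c.n β ∧ 1 < Exc.hout (c.Jw w) β) := by
  refine peel_all (c := c) (houtL (c.Jw w)) 1 (fun ζ hζ h1 h2 => ?_) H.b1
  rw [houtL_apply] at h1 h2
  refine H.good_ind' _ one_pos (fun β hβ h0 h3 _ => ?_) hζ (by push_cast at h2; omega) Iff.rfl u
    H.mem (Cj.refl _)
  obtain ⟨k1, k2⟩ := F.mem hβ.1 hβ.2 (by omega)
  rcases fa1 β k1 k2 (F.hout hβ.2 ▸ h3) with k | k | ⟨j, hj, k⟩
  · left; rw [show β = a 0 from funext k]; exact F.T1 H hq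
  · left; rw [show β = a 5 from funext k]
    have := (F.T1 H hq).sg (R6 F.hb (by decide))
    rwa [F.hb, show sg true (a 0) = a 5 by decide] at this
  · exact Or.inr ⟨j, F.J hj, F.hb ▸ k⟩

theorem FA.T2 {m u : Aut K} {w : W} (F : FA c w) (H : c.MP m w u) (hq : c.QL (m * u)) :
    c.Good m (m * u) ts := by
  intro u' hu' hc
  have H' := H.of_cj hu' hc
  have hb := F.hb
  have hζ := R6 hb (x := ts) (by decide)
  have hs : sg c.b ts = ts := by rw [hb]; decide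
  have l0 : Exc.hout (c.Jw w) ts = 2 := by rw [F.hout hζ.2]; rfl
  obtain ⟨t, _, ⟨u1, h1, h2⟩, h3⟩ := peelY (houtL (c.Jw w)) hζ
    (A := fun β => Sp c.n β ∧ 1 < Exc.hout (c.Jw w) β ∧ β ≠ ts)
    (by rw [houtL_apply, l0]; omega) (by rw [hs])
    (fun β h _ => by rw [hs]; tauto) (fun β h hβ => by
      have h3 := map_add (houtL (c.Jw w)) ts β
      have h4 := h.2.1
      simp only [houtL_apply] at h3
      have k : Sp c.n (ts + β) ∧ 1 < Exc.hout (c.Jw w) (ts + β) ∧ ts + β ≠ ts :=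
        ⟨hζ.2.add h.1, by omega, fun h5 => by rw [h5] at h3; omega⟩
      rw [hs, houtL_apply, houtL_apply, l0]
      exact ⟨h.2.1, h.2.2, h.2.2, fun _ => k, fun _ => k⟩)
    (U_G hu') (F.lev1 H' (hc.QL hq))
  suffices t = 0 by ext i; rw [h3, this]; simp
  have hz := k0_R hb
  obtain ⟨p, q, r, hr, h4⟩ := Y_e_two F.hτ hz (k0_mov hb) hζ.neg.1 (by rw [ip_x]; decide)
    (by rw [hb, ip_x]; decide)
  have h5 := hc.QL hq _ ((orb_long hζ.neg (by rw [hb]; decide)).app (Y_mem hz (Al_one _)))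
  rw [hb] at h4
  rw [show k0 + -ts = et by decide, show sg true k0 + -ts = eu by decide,
    show k0 + eu = th 6 by decide] at h4
  have h7 : ∀ β, crd 1 β ≤ 0 → co β (u' (c.Y k0 1 (e (-ts)))) =
      co β (c.Y ts t (e (-ts))) := fun β hβ => by
    rw [h2]
    refine test_co (crd 1) 0 hζ rfl (by rw [hs]; rfl) (fun α h hα => ?_) h1 ?_ ?_ t hβ
    · obtain ⟨k1, k2⟩ := F.mem hα h.1 (by have := h.2.1; omega)
      exact (fa4 α k1 k2 (F.hout h.1 ▸ h.2.1)).resolve_left fun k => h.2.2 (funext k)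
    · rw [h4]
      exact (((van_e (by decide)).add ((van_e (by decide)).smul _)).add
        ((van_e (by decide)).smul _)).add ((van_e (by decide)).smul _)
    · rw [h4, add_assoc, add_assoc, add_sub_cancel_left]
      exact ((van_e (by decide)).smul _).add (((van_e (by decide)).smul _).add
        ((van_e (by decide)).smul _))
  obtain ⟨s1, _, g1⟩ := F.gf_e H (-ts) (-th 6) (by decide)
  obtain ⟨s2, _, g2⟩ := F.gf_e H et (-eu) (by decide)
  obtain ⟨s3, _, g3⟩ := F.gf_e H eu (-et) (by decide)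
  obtain ⟨s4, hs4, g4⟩ := F.gf_e H (th 6) ts (by decide)
  rw [LinearEquiv.mul_apply] at h5
  generalize u' (c.Y k0 1 (e (-ts))) = y at h5 h7
  rw [h4] at h5
  simp only [map_add, map_smul, LinearMap.add_apply, LinearMap.smul_apply, g1, g2, g3, g4] at h5
  rw [h7 _ (by decide), h7 _ (by decide), h7 _ (by decide), h7 _ (by decide), Y_fix hs,
    X_e_m2 hζ.1] at h5
  simp only [map_add, map_sub, map_smul, co_e_self hζ.1, co_hv] at h5
  repeat rw [co_e_ne (by decide)] at h5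
  simpa [hr, hs4] using h5

theorem FA.T3 {m u : Aut K} {w : W} (F : FA c w) (H : c.MP m w u) (hq : c.QL (m * u)) : u = 1 := by
  have hb := F.hb
  have hz := k0_R hb
  have hs : sg c.b k0 = k1 := by rw [hb]; decide
  have l0 : Exc.hout (c.Jw w) k0 = 2 := by rw [F.hout hz.2]; rfl
  have l1 : Exc.hout (c.Jw w) k1 = 2 := by rw [F.hout (hs ▸ hz.sg.2)]; rfl
  have h0 : u ∈ Ucl K (fun β => β = k0 ∨ β = k1) := by
    refine peel_level (c := c) (houtL (c.Jw w)) two_pos (fun β h _ => ?_) (fun β h h' => ?_)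
      (fun ζ h hζ h' => ?_) (F.lev1 H hq)
    · rw [houtL_apply]
      rcases h with (rfl | rfl) | h
      · exact ⟨hz.2, l0.ge⟩
      · exact ⟨hs ▸ hz.sg.2, l1.ge⟩
      · exact h
    · rw [houtL_apply] at h'
      obtain ⟨k1, k2⟩ := F.mem h.1 h.2 (by omega)
      have := (fa2' β k1 k2 (by rw [← F.hout h.2]; omega)).1
      rw [← F.hout h.2] at this; omega
    · obtain ⟨k1, k2⟩ := F.mem hζ h.1 (by have := h.2; omega)
      obtain ⟨k3, k4⟩ := fa2' ζ k1 k2 (F.hout h.1 ▸ h.2)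
      have k5 : sg c.b ζ = ζ := by
        rw [hb]
        exact funext (k4.resolve_right fun k => h' (k.imp funext funext))
      refine H.good_ind' True two_pos (fun β hβ h0 h3 h4 => ?_) ⟨hζ, h.1⟩ (F.hout h.1 ▸ k3)
        (iff_true_intro k5) u H.mem (Cj.refl _)
      obtain ⟨k1, k2⟩ := F.mem hβ.1 hβ.2 (by omega)
      rw [hb] at h4
      rcases fa2 β k1 k2 (F.hout hβ.2 ▸ h3) (congrFun (h4.2 trivial)) with k | ⟨j, hj, k⟩
      · left; rw [show β = ts from funext k]; exact F.T2 H hq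
      · exact Or.inr ⟨j, F.J hj, hb ▸ k⟩
  obtain ⟨t, _, ⟨u1, h1, h2⟩, _⟩ := peelY (houtL (c.Jw w)) hz (A := fun _ => False)
    (by rw [houtL_apply, l0]; omega) (by rw [hs, houtL_apply, houtL_apply, l0, l1])
    (fun β h _ => by rw [hs]; exact Or.inr h) (fun β h => h.elim) (U_G H.mem) h0
  rw [Ucl_empty (fun _ h _ => h) h1, mul_one] at h2
  suffices t = 0 by rw [h2, this, Y_zero]
  have hζ := R6 hb (x := ts) (by decide)
  have hf : sg c.b ts = ts := by rw [hb]; decide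
  have h5 := hq _ ((orb_long hζ.neg (by rw [hb]; decide)).app (Y_mem hζ (Al_one _)))
  obtain ⟨p, q, r, hr, h4⟩ := Y_e_two F.hτ hz (k0_mov hb) hζ.neg.1 (by rw [ip_x]; decide)
    (by rw [hb, ip_x]; decide)
  rw [hb, show k0 + -ts = et by decide, show sg true k0 + -ts = eu by decide,
    show k0 + eu = th 6 by decide] at h4
  have hk1 : ip k1 k1 = 2 := rt (by decide)
  have h6 : c.Y k0 t (Exc.hv ts) = Exc.hv ts - t • e k0 - t • e k1 := by
    rw [Y_mov (k0_mov hb), hs, F.hτ, LinearEquiv.mul_apply, X_hv hk1, map_sub, map_smul, X_hv hz.1,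
      X_e_nn hz.1 hk1 (by rw [ip_x]; decide), show ip ts k0 = 1 by rw [ip_x]; decide,
      show ip ts k1 = 1 by rw [ip_x]; decide]
    simp
  have h7 : c.Y k0 t (e ts) = e ts := by
    rw [Y_mov (k0_mov hb), hs, LinearEquiv.mul_apply, X_e_nn hk1 hζ.1 (by rw [ip_x]; decide),
      X_e_nn hz.1 hζ.1 (by rw [ip_x]; decide)]
  obtain ⟨s1, _, g1⟩ := F.gf_e H (-ts) (-th 6) (by decide)
  obtain ⟨s2, hs2, g2⟩ := F.gf_e H ts (th 6) (by decide)
  have g3 : ∀ v, gf (Exc.hv ts) (m v) = gf (Exc.hv (-th 6)) v := fun v => by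
    rw [← H.mon.aut.2 _ v, H.mon.hv (rt (by decide)), F.w_eq H (by decide),
      show wa (-th 6) = ts by decide]
  rw [Y_fix hf, X_e_m2 hζ.1, LinearEquiv.mul_apply, h2] at h5
  simp only [map_add, map_sub, map_smul, LinearMap.add_apply, LinearMap.sub_apply,
    LinearMap.smul_apply, g1, g2, g3, h4, h6, h7, gf_hv_e, gf_hv_hv, co_hv,
    co_e_self (rt (x := th 6) (by decide)), show ip (-th 6) ts = 0 by rw [ip_x]; decide] at h5
  repeat rw [co_e_ne (by decide)] at h5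
  simpa [hr, hs2] using h5

theorem FA.sq {m u : Aut K} {w : W} (F : FA c w) (H : c.MP m w u) : c.Triv (m * m) := by
  have hb := F.hb
  have e1 := H.e_J F.j1
  have e2 := H.e_J F.j2
  have e3 := H.e_J F.j3
  have e4 := H.e_J F.j4
  rw [H.w_fix F.j1 (by rw [hb]; rfl)] at e1
  rw [H.w_fix F.j3 (by rw [hb]; rfl)] at e3
  rw [F.w2] at e2
  rw [F.w4] at e4
  have h0 := R6 hb (x := a 0) (by decide)
  obtain ⟨s, hs, e0⟩ := H.mon.mono _ h0.1
  have e5 := H.mon.e_sg h0 e0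
  rw [F.w0] at e0 e5
  rw [F.hτ, hb] at e5
  have A := H.mon.aut
  have c1 := aut_step A (root_a _) (rt (by decide)) (root_a _) (rt (by decide))
    (by rw [ip_x]; decide) (by rw [ip_x]; decide) e4 e5
  have c2 := aut_step A (root_a _) (rt (by decide)) (root_a _) (rt (by decide))
    (by rw [ip_x]; decide) (by rw [ip_x]; decide) e3 c1
  have c3 := aut_step A (root_a _) (rt (by decide)) (root_a _) (rt (by decide))
    (by rw [ip_x]; decide) (by rw [ip_x]; decide) e1 c2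
  have c4 := aut_step A (root_a _) (rt (by decide)) (root_a _) (rt (by decide))
    (by rw [ip_x]; decide) (by rw [ip_x]; decide) e2 c3
  have c5 := aut_step A (root_a _) (rt (by decide)) (root_a _) (rt (by decide))
    (by rw [ip_x]; decide) (by rw [ip_x]; decide) e3 c4
  have c6 := aut_step A (root_a _) (rt (by decide)) (root_a _) (rt (by decide))
    (by rw [ip_x]; decide) (by rw [ip_x]; decide) e4 c5
  simp only [mul_assoc, ← Int.cast_mul, eps_x] at c6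
  rw [show a 4 + (a 3 + (a 2 + (a 1 + (a 3 + (a 4 + sg true (a 0)))))) = v8 0 1 1 2 2 1 0 0 by decide,
    show a 2 + (a 3 + (a 4 + (a 1 + (a 3 + (a 2 + sg true (-v8 0 1 1 2 2 1 0 0)))))) =
      wa (v8 0 1 1 2 2 1 0 0) by decide, ← F.w_eq H (by decide)] at c6
  have c7 := H.mon.neg_of (rt (by decide)) c6
  rw [F.w_eq H (by decide), show -wa (v8 0 1 1 2 2 1 0 0) = a 0 by decide] at c7
  have c8 : (m * m) (e (a 0)) = e (a 0) := by
    rw [LinearEquiv.mul_apply, e0, map_smul, c7, smul_smul]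
    generalize hz : (_ * _ : ℤ) = z
    obtain rfl : z = 1 := by rw [← hz]; decide
    simp [hs]
  have hM := H.mon.mul H.mon
  have c9 := hM.e_sg h0 (s := 1) (by
    rw [c8, one_smul, LinearEquiv.mul_apply, F.w0, F.w_eq H (by decide),
      show wa (-v8 0 1 1 2 2 1 0 0) = a 0 by decide])
  rw [LinearEquiv.mul_apply w, F.w0, F.w_eq H (by decide), F.hτ, one_smul, hb,
    show wa (-v8 0 1 1 2 2 1 0 0) = a 0 by decide, show sg true (a 0) = a 5 by decide] at c9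
  refine hM.triv_of fun i hi => ?_
  rw [n6_of_b hb] at hi
  fin_cases i
  · exact c8
  · change m (m (e (a 1))) = _; rw [e1, e1]; rfl
  · change m (m (e (a 2))) = _; rw [e2, e4]; rfl
  · change m (m (e (a 3))) = _; rw [e3, e3]; rfl
  · change m (m (e (a 4))) = _; rw [e4, e2]; rfl
  · exact c9
  · exact absurd hi (by decide)
  · exact absurd hi (by decide)

end Cfg

end Pool.Agent.MP_db74b1_al.Exc

end

section

set_option autoImplicit false

namespace Pool.Agent.MP_db74b1_al.Exc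

variable {K : Type} [Field K]

theorem fb0' : ∀ x ∈ posL, Sp 6 x → x 1 = 1 ∧ cv x 0 = 0 ∧ cv x 2 = 0 → cv x 3 = 1 ∧ cv x 4 = 0 ∧
    cv x 5 = 0 → ∀ i, x i = v8 1 1 2 3 2 1 0 0 i := by decide +kernel
theorem fb0 : ∀ x ∈ posL, Sp 6 x → x 1 = 1 → cv x 0 = 0 → cv x 2 = 0 → cv x 3 = 1 → cv x 4 = 0 →
    cv x 5 = 0 → ∀ i, x i = v8 1 1 2 3 2 1 0 0 i :=
  fun x hx hs h1 h2 h3 h4 h5 h6 => fb0' x hx hs ⟨h1, h2, h3⟩ ⟨h4, h5, h6⟩
theorem fb1 : ∀ x ∈ posL, Sp 6 x → x 1 = 1 → (∀ i, sg true x i = x i) → (∀ i, x i = a 1 i) ∨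
    ∃ j : Fin 8, (j = 0 ∨ j = 2 ∨ j = 3 ∨ j = 4 ∨ j = 5) ∧ 0 < sv true x j := by decide +kernel
theorem fb2 : ∀ x ∈ posL, Sp 6 x → x 1 = 1 → (∀ i, sg true x i = x i) ∨ (∀ i, x i = et i) ∨
    (∀ i, x i = eu i) ∨
    ∃ j : Fin 8, (j = 0 ∨ j = 2 ∨ j = 3 ∨ j = 4 ∨ j = 5) ∧ 0 < sv true x j := by decide +kernel
theorem fb3 : ∀ x ∈ posL, Sp 6 x → 1 < x 1 → ∀ i, x i = th 6 i := by decide +kernel
theorem fb4 : ∀ x ∈ posL, Sp 6 x → 0 < x 1 → (∀ i, x i = a 1 i) ∨ 1 ≤ x 3 := by decide +kernel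
theorem fb5 : ∀ x ∈ posL, Sp 6 x → 0 < x 1 → (1 < x 1 ∨ ¬ ∀ i, sg true x i = x i) →
    (∀ i, x i = et i) ∨ (∀ i, x i = eu i) ∨ 1 ≤ x 0 + x 5 := by decide +kernel

def wb (x : Lat) : Lat := x - x 1 • th 6

theorem gf_ee {α β : Lat} (hα : ip α α = 2) (h : -α ≠ β) : gf (e α : L K) (e β) = 0 := by
  rw [gf_e hα, co_e_ne h]

namespace Cfg

variable {c : Cfg K}

structure FB (c : Cfg K) (w : W) : Prop where
  hb : c.b = true
  hτ : ∀ t, c.τ t = t
  j0 : c.Jw w 0 = true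
  j1 : c.Jw w 1 = false
  j2 : c.Jw w 2 = true
  j3 : c.Jw w 3 = true
  j4 : c.Jw w 4 = true
  j5 : c.Jw w 5 = true

theorem FB.hout {w : W} (F : FB c w) {x : Lat} (hx : Sp c.n x) : hout (c.Jw w) x = x 1 := by
  rw [n6_of_b F.hb] at hx
  rw [Exc.hout, F.j0, F.j1, F.j2, F.j3, F.j4, F.j5, hx 6 (by decide), hx 7 (by decide)]
  simp

theorem FB.mem {w : W} (F : FB c w) {x : Lat} (hx : ip x x = 2) (hs : Sp c.n x)
    (h : 0 < Exc.hout (c.Jw w) x) : x ∈ posL ∧ Sp 6 x :=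
  ⟨mem_posL hx (pos_of_hout hx h), n6_of_b F.hb ▸ hs⟩

theorem FB.J {w : W} (F : FB c w) {j : Fin 8} (h : j = 0 ∨ j = 2 ∨ j = 3 ∨ j = 4 ∨ j = 5) :
    c.Jw w j = true := by
  rcases h with rfl | rfl | rfl | rfl | rfl
  exacts [F.j0, F.j2, F.j3, F.j4, F.j5]

theorem FB.w_eq {m u : Aut K} {w : W} (F : FB c w) (H : c.MP m w u) {x : Lat} (hx : Sp 6 x) :
    w x = wb x := by
  obtain ⟨h0, h2, h4, h5⟩ := H.no_swap F.hb (n6_of_b F.hb) F.j0 F.j2
  have h3 := H.w_fix F.j3 (by rw [F.hb]; rfl)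
  have hR := R6 F.hb (x := a 1) (by decide)
  have l1 : Exc.hout (c.Jw w) (a 1) = 1 := by rw [F.hout hR.2]; rfl
  obtain ⟨k1, k2, k3, _, _⟩ := H.phi hR (by omega)
  have h1 : w (a 1) = -v8 1 1 2 3 2 1 0 0 := neg_eq_iff_eq_neg.1 (funext (fb0 _ (mem_posL k1.1 k2)
    (n6_of_b F.hb ▸ k1.2) (by rw [← F.hout k1.2, k3, l1])
    (by rw [← ip_a, ← h0, ip_neg_left, H.mon.iso, ip_a]; rfl)
    (by rw [← ip_a, ← h2, ip_neg_left, H.mon.iso, ip_a]; rfl)
    (by rw [← ip_a, ← h3, ip_neg_left, H.mon.iso, ip_a]; rfl)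
    (by rw [← ip_a, ← h4, ip_neg_left, H.mon.iso, ip_a]; rfl)
    (by rw [← ip_a, ← h5, ip_neg_left, H.mon.iso, ip_a]; rfl)))
  rw [lat_sum x]
  simp only [map_add, map_smul, h0, h1, h2, h3, h4, h5, hx 6 (by decide), hx 7 (by decide),
    zero_smul]
  apply lat_ext <;> simp [wb, a, v8, th] <;> ring

theorem FB.gf_e {m u : Aut K} {w : W} (F : FB c w) (H : c.MP m w u) (ν μ : Lat)
    (h : ipx ν ν = 2 ∧ Sp 6 μ ∧ wb μ = -ν) :
    ∃ s : K, s ≠ 0 ∧ ∀ v, gf (e ν) (m v) = s * co μ v := by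
  obtain ⟨s, hs, h1⟩ := H.mon.gf_e (rt h.1)
  refine ⟨s, hs, fun v => ?_⟩
  rw [h1, ← map_neg, ← h.2.2, ← F.w_eq H h.2.1, W_inv_app]

theorem FB.T4 {m u : Aut K} {w : W} (F : FB c w) (H : c.MP m w u) (hq : c.QS (m * u)) :
    c.Good m (m * u) (a 1) := by
  intro u' hu' hc
  have H' := H.of_cj hu' hc
  have hb := F.hb
  have hζ := R6 hb (x := a 1) (by decide)
  have hs : sg c.b (a 1) = a 1 := by rw [hb]; decide
  have l0 : Exc.hout (c.Jw w) (a 1) = 1 := by rw [F.hout hζ.2]; rfl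
  obtain ⟨t, _, ⟨u1, h1, h2⟩, h3⟩ := peelY (houtL (c.Jw w)) hζ
    (A := fun β => Sp c.n β ∧ 0 < Exc.hout (c.Jw w) β ∧ β ≠ a 1)
    (by rw [houtL_apply, l0]; omega) (by rw [hs])
    (fun β h _ => by rw [hs]; tauto) (fun β h hβ => by
      have h3 := map_add (houtL (c.Jw w)) (a 1) β
      have h4 := h.2.1
      simp only [houtL_apply] at h3
      have k : Sp c.n (a 1 + β) ∧ 0 < Exc.hout (c.Jw w) (a 1 + β) ∧ a 1 + β ≠ a 1 :=
        ⟨hζ.2.add h.1, by omega, fun h5 => by rw [h5] at h3; omega⟩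
      rw [hs, houtL_apply, houtL_apply, l0]
      exact ⟨h.2.1, h.2.2, h.2.2, fun _ => k, fun _ => k⟩)
    (U_G hu') H'.b1
  suffices t = 0 by ext i; rw [h3, this]; simp
  have hδ := R6 hb (x := v8 0 0 1 1 0 0 0 0) (by decide)
  have hδ' := R6 hb (x := v8 0 0 0 1 1 0 0 0) (by decide)
  have hl := R6 hb (x := v8 1 1 1 1 1 1 0 0) (by decide)
  have h5 := hc.QS hb hq _ ((orb_short hb hδ (by rw [hb]; decide)).app (Y_mem hl (Al_one _)))
  rw [Y_fix (by rw [hb]; decide), X_e_m1 hl.1 hδ.1 (by rw [ip_x]; decide),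
    show v8 1 1 1 1 1 1 0 0 + v8 0 0 1 1 0 0 0 0 = k0 by decide, map_add c.st, map_smulₛₗ c.st,
    st_e hδ.2, st_e (k0_R hb).2, F.hτ, hb, show sg true k0 = k1 by decide,
    show sg true (v8 0 0 1 1 0 0 0 0) = v8 0 0 0 1 1 0 0 0 by decide] at h5
  have hr : (1 * eps (v8 1 1 1 1 1 1 0 0) (v8 0 0 1 1 0 0 0 0) : K) ≠ 0 := by simp [eps_ne]
  generalize (1 * eps (v8 1 1 1 1 1 1 0 0) (v8 0 0 1 1 0 0 0 0) : K) = r at h5 hr
  have h7 : ∀ β, crd 3 β ≤ 1 → co β (u' (e (v8 0 0 1 1 0 0 0 0) + r • e k0 -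
      (e (v8 0 0 0 1 1 0 0 0) + r • e k1))) =
      co β (c.Y (a 1) t (e (v8 0 0 1 1 0 0 0 0) - e (v8 0 0 0 1 1 0 0 0))) := fun β hβ => by
    rw [h2]
    refine test_co (crd 3) 1 hζ rfl (by rw [hs]; rfl) (fun α h hα => ?_) h1 ?_ ?_ t hβ
    · obtain ⟨k1, k2⟩ := F.mem hα h.1 h.2.1
      exact (fb4 α k1 k2 (F.hout h.1 ▸ h.2.1)).resolve_left fun k => h.2.2 (funext k)
    · exact ((van_e (by decide)).add ((van_e (by decide)).smul _)).sub
        ((van_e (by decide)).add ((van_e (by decide)).smul _))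
    · rw [show ∀ p q p' q' : L K, p + q - (p' + q') - (p - p') = q - q' from fun _ _ _ _ => by abel]
      exact ((van_e (by decide)).smul _).sub ((van_e (by decide)).smul _)
  obtain ⟨s1, _, g1⟩ := F.gf_e H (v8 0 0 1 1 0 0 0 0) (-v8 0 0 1 1 0 0 0 0) (by decide)
  obtain ⟨s2, hs2, g2⟩ := F.gf_e H k0 eu (by decide)
  rw [LinearEquiv.mul_apply] at h5
  generalize u' (e (v8 0 0 1 1 0 0 0 0) + r • e k0 - (e (v8 0 0 0 1 1 0 0 0) + r • e k1)) = y
    at h5 h7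
  simp only [map_add, map_smul, LinearMap.add_apply, LinearMap.smul_apply, g1, g2] at h5
  rw [h7 _ (by decide), h7 _ (by decide), Y_fix hs, map_sub,
    X_e_m1 hζ.1 hδ.1 (by rw [ip_x]; decide), X_e_m1 hζ.1 hδ'.1 (by rw [ip_x]; decide),
    show a 1 + v8 0 0 0 1 1 0 0 0 = eu by decide] at h5
  simp only [map_add, map_sub, map_smul, co_e_self (rt (x := eu) (by decide))] at h5
  repeat rw [co_e_ne (by decide)] at h5
  simpa [hr, hs2, eps_ne] using h5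

theorem FB.long1 {m u : Aut K} {w : W} (F : FB c w) (H : c.MP m w u) (hq : c.QS (m * u))
    {ζ : Lat} (hζ : c.R ζ) (h1 : Exc.hout (c.Jw w) ζ = 1) (h2 : sg c.b ζ = ζ) :
    c.Good m (m * u) ζ := by
  refine H.good_ind' True one_pos (fun β hβ h0 h3 h4 => ?_) hζ h1 (iff_true_intro h2)
  obtain ⟨k1, k2⟩ := F.mem hβ.1 hβ.2 (by omega)
  rw [F.hb] at h4
  rcases fb1 β k1 k2 (F.hout hβ.2 ▸ h3) (congrFun (h4.2 trivial)) with k | ⟨j, hj, k⟩
  · left; rw [show β = a 1 from funext k]; exact F.T4 H hq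
  · exact Or.inr ⟨j, F.J hj, F.hb ▸ k⟩

theorem FB.T5 {m u : Aut K} {w : W} (F : FB c w) (H : c.MP m w u) (hq : c.QS (m * u)) :
    c.Good m (m * u) et := by
  intro u' hu' hc
  have H' := H.of_cj hu' hc
  have hb := F.hb
  have hζ := R6 hb (x := et) (by decide)
  have hζ' := R6 hb (x := eu) (by decide)
  have hs : sg c.b et = eu := by rw [hb]; decide
  have l0 : Exc.hout (c.Jw w) et = 1 := by rw [F.hout hζ.2]; rfl
  have l1 : Exc.hout (c.Jw w) eu = 1 := by rw [F.hout hζ'.2]; rfl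
  have h0 : u' ∈ Ucl K (fun β => Sp c.n β ∧ 0 < Exc.hout (c.Jw w) β ∧
      (1 < Exc.hout (c.Jw w) β ∨ sg c.b β ≠ β)) := by
    refine peel_level (c := c) (houtL (c.Jw w)) one_pos (fun β h _ => ?_) (fun β h h' => ?_)
      (fun ζ h hζ h' => ?_) H'.b1
    · rcases h with h | h
      · exact ⟨h.1, h.2.1⟩
      · exact h
    · rw [houtL_apply] at h'
      exact ⟨h.2, by omega, Or.inl h'⟩
    · have h2 := h.2
      refine F.long1 H hq ⟨hζ, h.1⟩ ?_ ?_ u' hu' hc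
      · by_contra h3; exact h' ⟨h.1, h.2, Or.inl (by omega)⟩
      · by_contra h3; exact h' ⟨h.1, h.2, Or.inr h3⟩
  obtain ⟨t, _, ⟨u1, h1, h2⟩, h3⟩ := peelY (houtL (c.Jw w)) hζ
    (A := fun β => (Sp c.n β ∧ 0 < Exc.hout (c.Jw w) β ∧
      (1 < Exc.hout (c.Jw w) β ∨ sg c.b β ≠ β)) ∧ β ≠ et ∧ β ≠ eu)
    (by rw [houtL_apply, l0]; omega) (by rw [hs, houtL_apply, houtL_apply, l0, l1])
    (fun β h _ => by rw [hs]; tauto) (fun β h hβ => by
      have k : ∀ ζ, Sp c.n ζ → Exc.hout (c.Jw w) ζ = 1 → (Sp c.n (ζ + β) ∧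
          0 < Exc.hout (c.Jw w) (ζ + β) ∧ (1 < Exc.hout (c.Jw w) (ζ + β) ∨ sg c.b (ζ + β) ≠ ζ + β))
          ∧ ζ + β ≠ et ∧ ζ + β ≠ eu := fun ζ h1 h2 => by
        have h3 := map_add (houtL (c.Jw w)) ζ β
        have h4 := h.1.2.1
        simp only [houtL_apply] at h3
        exact ⟨⟨h1.add h.1.1, by omega, Or.inl (by omega)⟩, fun h5 => by rw [h5] at h3; omega,
          fun h5 => by rw [h5] at h3; omega⟩
      rw [hs, houtL_apply, houtL_apply, l0]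
      exact ⟨h.1.2.1, h.2.1, h.2.2, fun _ => k _ hζ.2 l0, fun _ => k _ hζ'.2 l1⟩)
    (U_G hu') h0
  suffices t = 0 by ext i; rw [h3, this]; simp
  have hθ := R6 hb (x := th 6) (by decide)
  have h5 := hc.QS hb hq _ ((orb_short hb hζ.neg (by rw [hb]; decide)).app (Y_mem hθ (Al_one _)))
  rw [Y_fix (by rw [hb]; decide), X_e_m1 hθ.1 hζ.neg.1 (by rw [ip_x]; decide),
    show th 6 + -et = k1 by decide, map_add c.st, map_smulₛₗ c.st,
    st_e hζ.neg.2, st_e (R6 hb (x := k1) (by decide)).2, F.hτ, hb, show sg true k1 = k0 by decide,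
    show sg true (-et) = -eu by decide] at h5
  have hr : (1 * eps (th 6) (-et) : K) ≠ 0 := by simp [eps_ne]
  generalize (1 * eps (th 6) (-et) : K) = r at h5 hr
  have h7 : ∀ β, (crd 0 + crd 5) β ≤ 0 → co β (u' (e (-et) + r • e k1 - (e (-eu) + r • e k0))) =
      co β (c.Y et t (e (-et) - e (-eu))) := fun β hβ => by
    rw [h2]
    refine test_co (crd 0 + crd 5) 0 hζ rfl (by rw [hs]; rfl) (fun α h hα => ?_) h1 ?_ ?_ t hβ
    · obtain ⟨k1, k2⟩ := F.mem hα h.1.1 h.1.2.1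
      have k3 := h.1.2.2
      rw [F.hout h.1.1, hb] at k3
      rcases fb5 α k1 k2 (F.hout h.1.1 ▸ h.1.2.1) (k3.imp id fun k4 k5 => k4 (funext k5))
        with k | k | k
      · exact absurd (funext k) h.2.1
      · exact absurd (funext k) h.2.2
      · exact k
    · exact ((van_e (by decide)).add ((van_e (by decide)).smul _)).sub
        ((van_e (by decide)).add ((van_e (by decide)).smul _))
    · rw [show ∀ p q p' q' : L K, p + q - (p' + q') - (p - p') = q - q' from fun _ _ _ _ => by abel]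
      exact ((van_e (by decide)).smul _).sub ((van_e (by decide)).smul _)
  obtain ⟨s1, _, g1⟩ := F.gf_e H (-et) (-k1) (by decide)
  obtain ⟨s2, hs2, g2⟩ := F.gf_e H k1 et (by decide)
  rw [LinearEquiv.mul_apply] at h5
  generalize u' (e (-et) + r • e k1 - (e (-eu) + r • e k0)) = y at h5 h7
  simp only [map_add, map_smul, LinearMap.add_apply, LinearMap.smul_apply, g1, g2] at h5
  rw [h7 _ (by decide), h7 _ (by decide), Y_mov (by rw [hb]; decide), hs,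
    LinearEquiv.mul_apply, map_sub, X_e_nn hζ'.1 hζ.neg.1 (by rw [ip_x]; decide),
    X_e_m2 hζ'.1] at h5
  simp only [map_add, map_sub, map_smul, X_e_m2 hζ.1, X_hv hζ.1,
    X_e_nn hζ.1 hζ'.neg.1 (by rw [ip_x]; decide), X_e_nn hζ.1 hζ'.1 (by rw [ip_x]; decide),
    show ip eu et = 0 by rw [ip_x]; decide, co_e_self hζ.1, co_hv] at h5
  repeat rw [co_e_ne (by decide)] at h5
  simpa [hr, hs2] using h5

theorem FB.u_th {m u : Aut K} {w : W} (F : FB c w) (H : c.MP m w u) (hq : c.QS (m * u)) :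
    ∃ t, u = X (th 6) t := by
  have h0 := peel_all (c := c) (houtL (c.Jw w)) 1 (fun ζ hζ h1 h2 => ?_) H.b1
  · obtain ⟨s, u', h1, h2⟩ := peel (A := fun _ => False) (rt (x := th 6) (by decide))
      (fun β h hβ => by
        have h1 := h.2
        rw [houtL_apply] at h1
        obtain ⟨k1, k2⟩ := F.mem hβ h.1 (by push_cast at h1; omega)
        exact Or.inr (funext (fb3 β k1 k2 (F.hout h.1 ▸ h1)))) (fun β h => h.elim) h0
    exact ⟨s, by rw [h2, Ucl_empty (fun _ h _ => h) h1, mul_one]⟩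
  rw [houtL_apply] at h1 h2
  have h3 : Exc.hout (c.Jw w) ζ = 1 := by push_cast at h2; omega
  by_cases h4 : sg c.b ζ = ζ
  · exact F.long1 H hq hζ h3 h4 u H.mem (Cj.refl _)
  refine H.good_ind' False one_pos (fun β hβ h0 h3 h4 => ?_) hζ h3 (iff_false_intro h4) u
    H.mem (Cj.refl _)
  obtain ⟨k1, k2⟩ := F.mem hβ.1 hβ.2 (by omega)
  rw [F.hb] at h4
  rcases fb2 β k1 k2 (F.hout hβ.2 ▸ h3) with k | k | k | ⟨j, hj, k⟩
  · exact (h4.1 (funext k)).elim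
  · left; rw [show β = et from funext k]; exact F.T5 H hq
  · left; rw [show β = eu from funext k]
    have := (F.T5 H hq).sg (R6 F.hb (by decide))
    rwa [F.hb, show sg true et = eu by decide] at this
  · exact Or.inr ⟨j, F.J hj, F.hb ▸ k⟩

variable (c)

def Eqv (g g' : Aut K) : Prop := ∀ v ∈ c.V, g v = g' v

variable {c}

theorem Eqv.QS (hb : c.b = true) {g g' : Aut K} (h : c.Eqv g g') (hq : c.QS g) : c.QS g' :=
  fun x hx => by
    have h1 := hx.mem (k0_R hb).2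
    rw [← h _ (sub_mem h1 (st_mem h1))]; exact hq x hx

theorem Eqv.conj {g g' p : Aut K} (h : c.Eqv g g') (hp : p ∈ c.G) :
    c.Eqv (p * g * p⁻¹) (p * g' * p⁻¹) := fun v hv => by
  simp only [LinearEquiv.mul_apply, h _ (G_mem (inv_mem hp) hv)]

theorem T6 (hb : c.b = true) {μ η : K} (hμ : μ ≠ 0) (hq : c.QS (X (-th 6) μ * X (th 6) η)) :
    η = 0 := by
  have hk := k0_R hb
  have hk1 := R6 hb (x := k1) (by decide)
  have hθ := R6 hb (x := th 6) (by decide)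
  have h5 := hq _ ((orb_short hb hk.neg (by rw [hb]; decide)).app (Y_mem hk (Al_one _)))
  have hx : c.Y k0 1 (e (-k0)) = e (-k0) - Exc.hv k0 + e k0 := by
    rw [Y_mov (k0_mov hb), LinearEquiv.mul_apply,
      X_e_nn hk.sg.1 hk.neg.1 (by rw [hb, ip_x]; decide), X_e_m2 hk.1, one_smul, one_pow, one_smul]
  have hst : c.st (e (-k0) - Exc.hv k0 + e k0) = e (-k1) - Exc.hv k1 + e k1 := by
    rw [map_add c.st, map_sub c.st, st_e hk.neg.2, st_e hk.2,
      st_hv, hb, show sg true k0 = k1 by decide, show sg true (-k0) = -k1 by decide]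
  simp only [hx, hst, LinearEquiv.mul_apply, gf_inv (X_aut (-th 6) μ), X_inv] at h5
  simp only [map_add, map_sub, X_hv hθ.1, X_hv hθ.neg.1,
    X_e_nn hθ.neg.1 hk.neg.1 (by rw [ip_x]; decide), X_e_m1 hθ.neg.1 hk.1 (by rw [ip_x]; decide),
    X_e_m1 hθ.1 hk.neg.1 (by rw [ip_x]; decide), X_e_m1 hθ.1 hk1.neg.1 (by rw [ip_x]; decide),
    X_e_nn hθ.1 hk.1 (by rw [ip_x]; decide), X_e_nn hθ.1 hk1.1 (by rw [ip_x]; decide),
    show th 6 + -k0 = eu by decide, show th 6 + -k1 = et by decide,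
    show -th 6 + k0 = -eu by decide, show ip k0 (th 6) = 1 by rw [ip_x]; decide,
    show ip k1 (th 6) = 1 by rw [ip_x]; decide, show ip k0 (-th 6) = -1 by rw [ip_x]; decide,
    map_smul, LinearMap.add_apply, LinearMap.sub_apply, LinearMap.smul_apply, gf_hv_e, gf_hv_hv,
    gf_e hk.1, gf_e hk.neg.1, gf_e hθ.neg.1, gf_e (rt (x := -eu) (by decide)), neg_neg, co_hv,
    co_e_self hk.1, co_e_self hk.neg.1, co_e_self hθ.1, co_e_self (rt (x := eu) (by decide)),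
    hk.1, show ip k0 k1 = 0 by rw [ip_x]; decide] at h5
  repeat rw [co_e_ne (by decide)] at h5
  have h6 : μ * η * eps (-th 6) k0 * eps (th 6) (-k0) = 0 := by
    simp only [smul_eq_mul] at h5
    push_cast at h5
    linear_combination -h5
  simpa [hμ, eps_ne] using h6

theorem FB.struct {m u : Aut K} {w : W} (F : FB c w) (H : c.MP m w u) (hq : c.QS (m * u)) :
    ∃ μ g, μ ≠ 0 ∧ c.Cj (m * u) g ∧ c.Eqv g (X (th 6) μ) := by
  have hb := F.hb
  have hθ := R6 hb (x := th 6) (by decide)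
  have hf : sg c.b (th 6) = th 6 := by rw [hb]; decide
  obtain ⟨t, rfl⟩ := F.u_th H hq
  obtain ⟨s, hs, h1⟩ := H.mon.mono _ (root_a 1)
  rw [F.w_eq H (by decide)] at h1
  have hr : s⁻¹ * eps (th 6) (a 1) ≠ 0 := mul_ne_zero (inv_ne_zero hs) (eps_ne _ _)
  set r := s⁻¹ * eps (th 6) (a 1) with hr'
  have hN := NY_Mon hθ hr (Al_fix (F.hτ r) _)
  have h2 := (hN.inv.mul H.mon).triv_of fun i hi => by
    rw [LinearEquiv.mul_apply, ← (c.NY (th 6) r).injective.eq_iff, app_inv, NY_fix hf]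
    by_cases h : i = 1
    · rw [h, h1, N1_one hθ.1 (root_a 1) (by rw [ip_a]; decide) hr,
        show wb (a 1) = a 1 - th 6 by decide, hr']
      congr 1
      have := eps_ne (K := K) (th 6) (a 1)
      field_simp
    · rw [n6_of_b hb] at hi
      have h3 : i = 0 ∨ i = 2 ∨ i = 3 ∨ i = 4 ∨ i = 5 := by revert i; decide
      rw [H.e_J (F.J h3), F.w_eq H (Sp_a hi), N1_zero hθ.1 (root_a i)
        (by rw [ip_a]; revert i; decide), show wb (a i) = a i by revert i; decide]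
  have hX : ∀ x, X (th 6) x ∈ c.G := fun x => Y_fix hf x ▸ Y_mem hθ (Al_fix (F.hτ x) _)
  have h3 : c.Eqv (m * X (th 6) t) (N1 (th 6) r * X (th 6) t) := fun v hv => by
    have := h2 _ (G_mem (hX t) hv)
    rw [LinearEquiv.mul_apply, ← (c.NY (th 6) r).injective.eq_iff, app_inv, NY_fix hf] at this
    exact this
  have h4 := h3.conj (inv_mem (hX r))
  rw [show (X (th 6) r)⁻¹ * (N1 (th 6) r * X (th 6) t) * (X (th 6) r)⁻¹⁻¹ =
    X (-th 6) r⁻¹ * X (th 6) (r + t + r) by rw [N1, ← X_add, ← X_add]; group] at h4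
  have h5 : c.Cj (m * X (th 6) t) _ := ⟨_, inv_mem (hX r), rfl⟩
  rw [T6 hb (inv_ne_zero hr) (h4.QS hb (h5.QS hb hq)), X_zero, mul_one] at h4
  obtain ⟨s', hs', h6⟩ := hN.mono _ hθ.neg.1
  rw [map_neg, wY_self hθ, neg_neg] at h6
  have h7 := h4.conj hN.mem
  rw [conj_X hN.aut hθ.neg.1 hθ.1 h6] at h7
  exact ⟨_, _, mul_ne_zero hs' (inv_ne_zero hr), h5.trans ⟨_, hN.mem, rfl⟩, h7⟩

end Cfg

end Pool.Agent.MP_db74b1_al.Exc

end

section

set_option autoImplicit false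

namespace Pool.Agent.MP_db74b1_al.Exc

variable {K : Type} [Field K]

namespace Cfg

variable {c : Cfg K}

theorem SC.symm {a b : Aut K} (ha : a ∈ c.G) (h : c.SC a b) : c.SC b a := by
  obtain ⟨g, hg, h⟩ := h
  refine ⟨g, hg, fun b' a' hb' ha' => ?_⟩
  obtain ⟨z, g', hz, hg', e⟩ := h a' b' ha' hb'
  have h1 := inv_mem (ha'.mem ha)
  refine ⟨_, _, Cj.triv ⟨_, h1, rfl⟩ hz, hg'.trans ⟨_, h1, rfl⟩, ?_⟩
  rw [show b' * a' = a'⁻¹ * (a' * b') * a' by group, e]; group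

theorem QS_X (hb : c.b = true) (hτ : ∀ t, c.τ t = t) {β : Lat} (hβ : c.R β) (hf : sg c.b β = β)
    {μ : K} (hμ : μ ≠ 0) (hq : c.QS (X β μ)) (ν : K) : c.QS (X β ν) := by
  intro x hx
  have hV := hx.mem (k0_R hb).2
  have h1 : co (-β) (x - c.st x) = 0 := by
    have := co_st hβ.neg x
    rw [sg_neg, hf, hτ] at this
    rw [map_sub, this, sub_self]
  have h2 : gf x (x - c.st x) = 0 := by
    obtain ⟨p, hp, r, rfl⟩ := hx
    have hk := k0_R hb
    rw [map_smulₛₗ c.st, hτ, G_st hp (e_mem hk.2), ← smul_sub, ← map_sub, map_smul, map_smul,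
      LinearMap.smul_apply, (G_aut hp).2, st_e hk.2, map_sub, gf_ee hk.1 (by decide),
      gf_ee hk.1 (by rw [hb]; decide)]
    simp
  have h3 := hq x hx
  simp only [X_apply hβ.1, map_add, map_smul, h1, h2, smul_eq_mul] at h3 ⊢
  have h4 : gf x (ad β (x - c.st x)) = 0 := by simpa [hμ] using h3
  rw [h4]; simp

theorem not_QS (hb : c.b = true) {μ ν : K} (hμ : μ ≠ 0) (hν : ν ≠ 0) :
    ¬ c.QS (X (-ts) μ * X (th 6) ν) := fun hq => by
  have hζ := R6 hb (x := -et) (by decide)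
  have hζ' := R6 hb (x := -eu) (by decide)
  have hθ := R6 hb (x := th 6) (by decide)
  have ht := R6 hb (x := -ts) (by decide)
  have h5 := hq _ (orb_short hb hζ (by rw [hb]; decide))
  have hst : c.st (e (-et)) = e (-eu) := by
    rw [st_e hζ.2, hb, show sg true (-et) = -eu by decide]
  simp only [hst, LinearEquiv.mul_apply, map_sub, map_add, map_smul, gf_e hζ.1, neg_neg,
    X_e_m1 hθ.1 hζ.1 (by rw [ip_x]; decide), X_e_m1 hθ.1 hζ'.1 (by rw [ip_x]; decide),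
    show th 6 + -et = k1 by decide, show th 6 + -eu = k0 by decide,
    X_e_m1 ht.1 hζ.1 (by rw [ip_x]; decide), X_e_m1 ht.1 hζ'.1 (by rw [ip_x]; decide),
    X_e_m1 ht.1 (rt (x := k0) (by decide)) (by rw [ip_x]; decide),
    X_e_m1 ht.1 (rt (x := k1) (by decide)) (by rw [ip_x]; decide),
    show -ts + k0 = et by decide, co_e_self (rt (x := et) (by decide))] at h5
  repeat rw [co_e_ne (by decide)] at h5
  simp [hμ, hν, eps_ne] at h5

theorem sq_eqv {a b b' z g : Aut K} (hb : b ∈ c.G) (hg : g ∈ c.G) (hz : c.Triv z)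
    (e : a * b = z * g) (h : c.Eqv b b') (h2 : c.Triv (a * a)) :
    c.Eqv (g * g) (a * b' * a⁻¹ * b') := fun v hv => by
  have h3 : ∀ v ∈ c.V, g v = a (b' v) := fun v hv => by
    rw [← h v hv, ← hz _ (G_mem hg hv)]
    exact (congrArg (fun p : Aut K => p v) e).symm
  have h4 : b' v ∈ c.V := h v hv ▸ G_mem hb hv
  have h5 : a⁻¹ (b' v) = a (b' v) := by
    rw [← a.injective.eq_iff, app_inv]; exact (h2 _ h4).symm
  simp only [LinearEquiv.mul_apply]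
  rw [h3 _ (G_mem hg hv), h3 v hv, h5]

theorem F4_contra {a b m u : Aut K} {w : W} (hb' : b ∈ c.G) (h : c.SC a b) (ha : c.Cj a (m * u))
    (H : c.MP m w u) (F : FA c w) (hq : c.QL (m * u)) (hs : c.QS b) : c.Triv b := by
  have hb := F.hb
  obtain ⟨p, hp, m', w', u', H', e'⟩ := exists_MP hb'
  have hc : c.Cj b (m' * u') := ⟨p, hp, e'⟩
  have hs' := hc.QS hb hs
  rcases H'.short_struct hb hs' with h1 | ⟨j0, j1, j2, j3, j4, j5⟩
  · exact hc.symm.triv h1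
  exfalso
  obtain ⟨μ, b2, hμ, c2, q2⟩ := FB.struct ⟨hb, F.hτ, j0, j1, j2, j3, j4, j5⟩ H' hs'
  rw [F.T3 H hq, mul_one] at ha
  have hθ := R6 hb (x := th 6) (by decide)
  have h1 := R6 hb (x := Exc.a 1) (by decide)
  have f1 : sg c.b (Exc.a 1) = Exc.a 1 := by rw [hb]; decide
  obtain ⟨g1, hg1, r, e1⟩ := orb_long h1 f1
  rw [n6_of_b hb] at e1
  have hr : r ≠ 0 := by
    rintro rfl
    have := congrArg (co (Exc.a 1)) e1
    simp [co_e_self h1.1] at this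
  have q1 := q2.conj hg1
  rw [conj_X (G_aut hg1) hθ.1 h1.1 (c := r⁻¹) (by rw [e1, smul_smul, inv_mul_cancel₀ hr, one_smul])]
    at q1
  have c2' := hc.trans c2
  have c1 : c.Cj b (g1 * b2 * g1⁻¹) := c2'.trans ⟨g1, hg1, rfl⟩
  obtain ⟨g, hg, h⟩ := h
  obtain ⟨z1, p1, hz1, cp1, k1⟩ := h _ _ ha c1
  obtain ⟨z2, p2, hz2, cp2, k2⟩ := h _ _ ha c2'
  have s1 := sq_eqv (c1.mem hb') (cp1.mem hg) hz1 k1 q1 (F.sq H)
  have s2 := sq_eqv (c2'.mem hb') (cp2.mem hg) hz2 k2 q2 (F.sq H)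
  have e2 := H.e_J F.j1
  rw [H.w_fix F.j1 (by rw [hb]; rfl)] at e2
  rw [conj_X H.mon.aut h1.1 h1.1 (c := 1) (by rw [e2, one_smul]), X_add] at s1
  obtain ⟨s, hs0, e3⟩ := H.mon.mono _ hθ.1
  rw [F.w_eq H (by decide), show wa (th 6) = -ts by decide] at e3
  rw [conj_X H.mon.aut hθ.1 (rt (by decide)) e3] at s2
  have t1 : c.QS (p1 * p1) := Eqv.QS hb (fun v hv => (s1 v hv).symm) (QS_X hb F.hτ h1 f1
    (mul_ne_zero (inv_ne_zero hr) hμ) (q1.QS hb (c1.QS hb hs)) _)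
  obtain ⟨y, hy, rfl⟩ := cp1.symm.trans cp2
  exact not_QS hb (mul_ne_zero hs0 hμ) hμ (s2.QS hb (Cj.QS hb ⟨y, hy, by group⟩ t1))

theorem main_QL {a b : Aut K} (ha : a ∈ c.G) (hb : b ∈ c.G) (h : c.SC a b) {r : K} (hr0 : r ≠ 0)
    (hr1 : r ≠ 1) (hq : c.QL a) : c.Triv a ∨ c.Triv b := by
  obtain ⟨p, hp, m, w, u, H, e⟩ := exists_MP ha
  have hc : c.Cj a (m * u) := ⟨p, hp, e⟩
  rcases H.long_struct (hc.QL hq) with h1 | ⟨k1, k2, j0, j1, j2, j3, j4, j5, k3, k4, k5⟩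
  · exact Or.inl (hc.symm.triv h1)
  rcases h.short ha hb k1 k2 hr0 hr1 with h2 | h2
  · rcases H.short_struct k1 (hc.QS k1 h2) with h1 | h1
    · exact Or.inl (hc.symm.triv h1)
    · rw [j0] at h1; exact absurd h1.1 (by simp)
  · exact Or.inr (F4_contra hb h hc H ⟨k1, k2, j0, j1, j2, j3, j4, j5, k3, k4, k5⟩ (hc.QL hq) h2)

theorem main {a b : Aut K} (ha : a ∈ c.G) (hb : b ∈ c.G) (h : c.SC a b) {r : K} (hr : c.τ r = r)
    (hr0 : r ≠ 0) (hr1 : r ≠ 1) : c.Triv a ∨ c.Triv b := by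
  rcases h.long ha hb hr hr0 hr1 with h1 | h1
  · exact main_QL ha hb h hr0 hr1 h1
  · exact (main_QL hb ha (h.symm ha) hr0 hr1 h1).symm

theorem final (c : Cfg K) {r : K} (hr : c.τ r = r) (hr0 : r ≠ 0) (hr1 : r ≠ 1)
    (x y z : c.G ⧸ Subgroup.center c.G) (hx : x ≠ 1) (hy : y ≠ 1) :
    {g | ∃ a b, IsConj x a ∧ IsConj y b ∧ g = a * b} ≠ {g | IsConj z g} := by
  intro hE
  obtain ⟨a, rfl⟩ := QuotientGroup.mk_surjective x
  obtain ⟨b, rfl⟩ := QuotientGroup.mk_surjective y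
  obtain ⟨g, rfl⟩ := QuotientGroup.mk_surjective z
  have hone : ∀ a : c.G, c.Triv a.1 → (a : c.G ⧸ Subgroup.center c.G) = 1 := fun a h =>
    (QuotientGroup.eq_one_iff _).2 (Subgroup.mem_center_iff.2 fun p =>
      Subtype.ext (h.comm a.2 p.2))
  refine (main a.2 b.2 ⟨g.1, g.2, ?_⟩ hr hr0 hr1).elim (fun h => hx (hone a h))
    fun h => hy (hone b h)
  rintro _ _ ⟨p, hp, rfl⟩ ⟨q, hq, rfl⟩
  let P : c.G := ⟨p, hp⟩
  let Q : c.G := ⟨q, hq⟩
  have h1 : ((P * a * P⁻¹ * (Q * b * Q⁻¹) : c.G) : c.G ⧸ Subgroup.center c.G) ∈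
      {g' : c.G ⧸ Subgroup.center c.G | IsConj (g : c.G ⧸ Subgroup.center c.G) g'} := by
    rw [← hE]
    exact ⟨_, _, isConj_iff.2 ⟨(P : c.G ⧸ Subgroup.center c.G), rfl⟩,
      isConj_iff.2 ⟨(Q : c.G ⧸ Subgroup.center c.G), rfl⟩, rfl⟩
  obtain ⟨s, hs⟩ := isConj_iff.1 h1
  obtain ⟨S, rfl⟩ := QuotientGroup.mk_surjective s
  have h2 : (S * g * S⁻¹)⁻¹ * (P * a * P⁻¹ * (Q * b * Q⁻¹)) ∈ Subgroup.center c.G :=
    QuotientGroup.eq.1 hs
  have h3 := Subgroup.mem_center_iff.1 h2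
  refine ⟨_, (S * g * S⁻¹ : c.G), triv_of_central
    ((S * g * S⁻¹)⁻¹ * (P * a * P⁻¹ * (Q * b * Q⁻¹)) : c.G).2
    (fun t ht => congrArg Subtype.val (h3 ⟨t, ht⟩)), ⟨S, S.2, rfl⟩, ?_⟩
  have h4 := congrArg Subtype.val (h3 (S * g * S⁻¹))
  rw [mul_inv_cancel_left] at h4
  exact h4

end Cfg

end Pool.Agent.MP_db74b1_al.Exc

end
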