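import Pool.Agent.Mg.Fdb74b1.Gde7978

section

/-! Unitary groups, geometry. -/

set_option autoImplicit false
set_option linter.unusedSectionVars false

namespace Pool.Agent.MP_db74b1_al
open Module Submodule

variable {F V : Type} [Field F] [AddCommGroup V] [Module F V] [Finite F] [FiniteDimensional F V]

/-- unitary data -/
structure UD (σ : F →+* F) (B : V →ₗ[F] V →ₛₗ[σ] F) (G : Subgroup (End F V)ˣ) : Prop where
  inv : ∀ x, σ (σ x) = x
  nt : ∃ θ, σ θ ≠ θ
  herm : ∀ x y, B y x = σ (B x y)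
  nd : ∀ y, (∀ x, B x y = 0) → y = 0
  mem : ∀ g, g ∈ G ↔ (∀ x y, B (g.val x) (g.val y) = B x y) ∧ LinearMap.det g.val = 1
  dim : 3 ≤ finrank F V

namespace UD
variable {σ : F →+* F} {B : V →ₗ[F] V →ₛₗ[σ] F} {G : Subgroup (End F V)ˣ} (D : UD σ B G)
include D

lemma skew : ∃ s : F, s ≠ 0 ∧ σ s = -s := by
  obtain ⟨θ, h⟩ := D.nt
  exact ⟨θ - σ θ, sub_ne_zero.mpr h.symm, by simp [D.inv]⟩

lemma trne : ∃ w : F, w + σ w ≠ 0 := by
  obtain ⟨θ, h⟩ := D.nt
  by_cases h2 : (2 : F) = 0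
  · exact ⟨θ, fun hh => h (by linear_combination hh - θ * h2)⟩
  · exact ⟨1, fun hh => h2 (by simp at hh; linear_combination hh)⟩

lemma tr_onto {d k : F} (hd : σ d = d) (hk : k ≠ 0) : ∃ μ : F, μ * k + σ μ * σ k = d := by
  obtain ⟨w, hw⟩ := D.trne
  have hk' : σ k ≠ 0 := by simpa using hk
  have hw' : σ w + w ≠ 0 := by rwa [add_comm]
  refine ⟨d * w / (w + σ w) / k, ?_⟩
  simp only [map_div₀, map_mul, map_add, hd, D.inv]
  field_simp
  ring

lemma norm_onto {d : F} (hd : σ d = d) : ∃ c : F, c * σ c = d := by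
  obtain ⟨θ, h⟩ := D.nt
  let K : Subfield F := σ.eqLocusField (RingHom.id F)
  have hK : ∀ x : F, σ x = x → x ∈ K := fun x hx => hx
  let t : K := ⟨θ + σ θ, hK _ (by simp [D.inv, add_comm])⟩
  let n : K := ⟨θ * σ θ, hK _ (by simp [D.inv, mul_comm])⟩
  obtain ⟨x, y, e⟩ := onto2 (F := K) (c := 0) (l1 := 0) (l2 := 0) (α := -1) (β := -t) (γ := -n) (by
    intro hh
    have := congrArg (fun x : K => (x : F)) hh
    simp only [t, n] at this
    push_cast at this
    have h4 : ((4 : K) : F) = 4 := map_ofNat K.subtype 4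
    rw [h4] at this
    apply h
    have h5 : (σ θ - θ) ^ 2 = 0 := by linear_combination this
    exact sub_eq_zero.mp (pow_eq_zero_iff two_ne_zero |>.mp h5)) ⟨d, hK d hd⟩
  have e := congrArg (fun x : K => (x : F)) e
  simp only [t, n] at e
  push_cast at e
  have hx : σ x = x := x.2
  have hy : σ y = y := y.2
  refine ⟨x + y * θ, ?_⟩
  simp only [map_add, map_mul, hx, hy]
  linear_combination e

lemma self (x : V) : σ (B x x) = B x x := (D.herm x x).symm

lemma flip0 {x y : V} (h : B x y = 0) : B y x = 0 := by rw [D.herm, h, map_zero]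

lemma flipne {x y : V} (h : B x y ≠ 0) : B y x ≠ 0 := fun hh => h (D.flip0 hh)

lemma nd' (x : V) (h : ∀ y, B x y = 0) : x = 0 := D.nd x fun y => D.flip0 (h y)

lemma iso {g : (End F V)ˣ} (hg : g ∈ G) (x y : V) : B (g.val x) (g.val y) = B x y :=
  ((D.mem g).mp hg).1 x y

lemma adj {a : (End F V)ˣ} (ha : a ∈ G) (x y : V) : B (a.val x) y = B x (a⁻¹.val y) := by
  rw [← D.iso ha x (a⁻¹.val y), app_inv]

lemma ISO {W R : Submodule F V} (h : finrank F R + 2 ≤ finrank F W) :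
    ∃ v ∈ W, v ∉ R ∧ B v v = 0 := by
  obtain ⟨z1, h1, z2, h2, h3⟩ := out2 h
  by_cases k : B z1 z1 = 0
  · exact ⟨z1, h1, fun hh => one_ne_zero (h3 1 0 (by simpa using hh)).1, k⟩
  obtain ⟨c, hc⟩ := D.norm_onto (d := (B z2 z1 * σ (B z2 z1) - B z1 z1 * B z2 z2) / B z1 z1 ^ 2)
    (by simp [D.self, D.inv, mul_comm])
  refine ⟨(c - B z2 z1 / B z1 z1) • z1 + z2, add_mem (smul_mem _ _ h1) h2,
    fun hh => one_ne_zero (h3 _ 1 (by simpa using hh)).2, ?_⟩
  simp only [map_add, map_smul, map_smulₛₗ, LinearMap.add_apply, LinearMap.smul_apply, smul_eq_mul,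
    map_sub, map_div₀, D.self, D.herm z2 z1]
  field_simp at hc ⊢
  linear_combination hc

lemma mem_skew (N : End F V) (hN : N * N = 0) (hs : ∀ x y, B (N x) y + B x (N y) = 0) :
    unip N hN ∈ G := by
  rw [D.mem]
  refine ⟨fun x y => ?_, det_unip N hN⟩
  have h1 := hs x (N y)
  rw [← End.mul_apply, hN] at h1
  simp only [LinearMap.zero_apply, map_zero, add_zero] at h1
  simp only [unip_val, LinearMap.add_apply, End.one_apply, map_add, h1]
  linear_combination hs x y

lemma N_sq {u v : V} (hu : B u u = 0) (hv : B v v = 0) (h : B u v = 0) (s c : F) :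
    (s • op B u u + c • (op B u v - op B v u)) * (s • op B u u + c • (op B u v - op B v u)) = 0 := by
  ext w
  simp [h, D.flip0 h, hu, hv]

lemma N_mem {u v : V} (hu : B u u = 0) (hv : B v v = 0) (h : B u v = 0) {s c : F} (hs : σ s = -s)
    (hc : σ c = c) : unip _ (D.N_sq hu hv h s c) ∈ G := by
  apply D.mem_skew
  intro x y
  simp [hs, hc, D.herm y u, D.herm y v]
  ring

lemma step0 {W : Submodule F V} {x x' : V} (h : B x x' ≠ 0) (hx : B x x = 0) (hx' : B x' x' = 0)
    (h1 : ∀ w ∈ W, B w x = 0) (h2 : ∀ w ∈ W, B w x' = 0) :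
    ∃ g ∈ G, (∀ w ∈ W, g.val w = w) ∧ ∃ c : F, c ≠ 0 ∧ g.val x = c • x' := by
  obtain ⟨s, hs0, hs⟩ := D.skew
  have h' : σ (B x x') ≠ 0 := by simpa using h
  have he : B (σ (s / B x x') • x' - x) (σ (s / B x x') • x' - x) = 0 := by
    simp [hx, hx', D.inv, D.herm x x', hs]
    field_simp
    ring
  refine ⟨_, D.N_mem he (v := 0) (by simp) (by simp) (s := s⁻¹) (c := 0) (by simp [hs]) (by simp),
    fun w hw => ?_, σ (s / B x x'), by simp [hs0, h], ?_⟩
  · simp [h1 w hw, h2 w hw]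
  · simp [hx, D.inv, smul_smul, h, hs0]

lemma step {W : Submodule F V} {x x' : V} (hx : x ∉ W) (hx' : x' ∉ W) (k : B x x = 0)
    (k' : B x' x' = 0) (h1 : ∀ w ∈ W, B w x = 0) (h2 : ∀ w ∈ W, B w x' = 0) :
    ∃ g ∈ G, (∀ w ∈ W, g.val w = w) ∧ ∃ c : F, c ≠ 0 ∧ g.val x = c • x' := by
  by_cases h : B x x' = 0
  swap
  · exact D.step0 h k k' h1 h2
  obtain ⟨z, k1, k2, k3⟩ := sep2 B D.nd hx hx'
  obtain ⟨μ, hμ⟩ := D.tr_onto (D.self z) k1
  have j1 : B (z - μ • x) (z - μ • x) = 0 := by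
    simp [k, D.herm x z]
    linear_combination -hμ
  have j2 : ∀ w ∈ W, B w (z - μ • x) = 0 := fun w hw => by simp [k3 w hw, h1 w hw]
  obtain ⟨g, hg, e1, c, hc, e2⟩ := D.step0 (x := x) (x' := z - μ • x) (by simpa [k] using k1) k j1 h1 j2
  obtain ⟨g', hg', e1', c', hc', e2'⟩ := D.step0 (x := z - μ • x) (x' := x')
    (by simpa [h] using D.flipne k2) j1 k' j2 h2
  refine ⟨g' * g, G.mul_mem hg' hg, fun w hw => by simp [e1 w hw, e1' w hw], c * c',
    mul_ne_zero hc hc', ?_⟩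
  rw [Units.val_mul, End.mul_apply, e2, map_smul, e2', smul_smul]

lemma shear {W : Submodule F V} {u y : V} (hu : u ∈ W) (hy : y ∉ W) (k : B y y = 0)
    (h1 : ∀ w ∈ W, B w u = 0) (h2 : ∀ w ∈ W, B w y = 0) (c : F) :
    ∃ g ∈ G, (∀ w ∈ W, g.val w = w) ∧ g.val y = y + c • u := by
  obtain ⟨z, k1, k2⟩ := sep B D.nd hy
  obtain ⟨μ, hμ⟩ := D.tr_onto (D.self z) one_ne_zero
  have j1 : B (σ c • (z - μ • y)) (σ c • (z - μ • y)) = 0 := by
    simp [k, D.herm y z, k1]
    right
    simp at hμ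
    linear_combination -hμ
  refine ⟨_, D.N_mem (h1 u hu) j1 (by simp [k2 u hu, h2 u hu]) (s := 0) (c := 1) (by simp) (by simp),
    fun w hw => ?_, ?_⟩
  · simp [h1 w hw, h2 w hw, k2 w hw]
  · simp [k, k1, D.inv, D.flip0 (h2 u hu)]

lemma pol (W : Submodule F V) (M : End F V) (h : ∀ x ∈ W, B (M x) x = 0) :
    ∀ x ∈ W, ∀ y ∈ W, B (M x) y = 0 := by
  obtain ⟨θ, hθ⟩ := D.nt
  intro x hx y hy
  have e1 := h (x + y) (add_mem hx hy)
  have e2 := h (x + θ • y) (add_mem hx (smul_mem _ _ hy))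
  simp [h x hx, h y hy] at e1 e2
  apply mul_left_cancel₀ (sub_ne_zero.mpr hθ)
  linear_combination e2 - θ * e1

lemma U2rel {W : Submodule F V} (M : End F V) {u v0 : V} (hu : u ∈ W) (hv : v0 ∈ W)
    (k : B u u = 0) (k1 : B u v0 = 1) (h : ∀ v ∈ W, B v v = 0 → B (M v) v = 0) :
    ∃ l : F, ∀ x ∈ W, ∀ y ∈ W, B (M x) y = l * B x y := by
  obtain ⟨θ, hθ⟩ := D.nt
  obtain ⟨s, hs0, hs⟩ := D.skew
  have E1 : ∀ v ∈ W, B u v = 1 → ∀ μ : F, μ + σ μ = B v v →
      B (M v) v = σ μ * B (M v) u + μ * B (M u) v := by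
    intro v hv hvu μ hμ
    have := h (v - μ • u) (sub_mem hv (smul_mem _ _ hu)) (by
      simp [k, D.herm u v, hvu]
      linear_combination -hμ)
    simp [h u hu k] at this
    linear_combination this
  have E2 : ∀ v ∈ W, B u v = 1 → B (M v) u = B (M u) v ∧ B (M v) v = B (M u) v * B v v := by
    intro v hv hvu
    obtain ⟨μ, hμ⟩ := D.tr_onto (D.self v) one_ne_zero
    simp only [mul_one, map_one] at hμ
    have e1 := E1 v hv hvu μ hμ
    have e2 := E1 v hv hvu (μ + s) (by rw [map_add, hs, ← hμ]; ring)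
    simp only [map_add, hs] at e2
    have e3 : B (M v) u = B (M u) v := by
      apply mul_left_cancel₀ hs0
      linear_combination e2 - e1
    exact ⟨e3, by rw [e1, e3, ← hμ]; ring⟩
  have E3 : ∀ w ∈ W, B u w = 0 → B (M u) w = 0 := by
    intro w hw hwu
    have e0 := (E2 v0 hv k1).1
    have e1 := (E2 (v0 + w) (add_mem hv hw) (by simp [k1, hwu])).1
    have e2 := (E2 (v0 + θ • w) (add_mem hv (smul_mem _ _ hw)) (by simp [k1, hwu])).1
    simp only [map_add, map_smul, map_smulₛₗ, LinearMap.add_apply, LinearMap.smul_apply,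
      smul_eq_mul, e0] at e1 e2
    apply mul_left_cancel₀ (sub_ne_zero.mpr hθ)
    linear_combination θ * e1 - e2
  obtain ⟨l, hl⟩ : ∃ l, l = B (M u) v0 := ⟨_, rfl⟩
  have E4 : ∀ w ∈ W, B u w = 0 → ∀ c : F,
      σ c * (B (M v0) w - l * B v0 w) + c * (B (M w) v0 - l * B w v0) +
        c * σ c * (B (M w) w - l * B w w) = 0 := by
    intro w hw hwu c
    have e0 := (E2 v0 hv k1).2
    have e1 := (E2 (v0 + c • w) (add_mem hv (smul_mem _ _ hw)) (by simp [k1, hwu])).2
    simp only [map_add, map_smul, map_smulₛₗ, LinearMap.add_apply, LinearMap.smul_apply,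
      smul_eq_mul, E3 w hw hwu, ← hl] at e0 e1
    linear_combination e1 - e0
  have E5 : ∀ w ∈ W, B u w = 0 → B (M v0) w = l * B v0 w ∧ B (M w) v0 = l * B w v0 ∧
      B (M w) w = l * B w w := by
    intro w hw hwu
    obtain ⟨t, ht⟩ := D.trne
    have e1 := E4 w hw hwu 1
    have e2 := E4 w hw hwu t
    have e3 := E4 w hw hwu (1 + t)
    have e4 := E4 w hw hwu θ
    simp only [map_add, map_one] at e1 e3
    have e5 : B (M w) w - l * B w w = 0 := by
      apply mul_left_cancel₀ ht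
      linear_combination e3 - e1 - e2
    rw [e5] at e1 e4
    have e6 : B (M v0) w - l * B v0 w = 0 := by
      apply mul_left_cancel₀ (sub_ne_zero.mpr hθ)
      linear_combination e4 - θ * e1
    exact ⟨by linear_combination e6, by linear_combination e1 - e6, by linear_combination e5⟩
  refine ⟨l, fun x hx y hy => ?_⟩
  have := D.pol W (M - l • 1) (fun x hx => by
    obtain ⟨j1, j2, j3⟩ := E5 (x - σ (B u x) • v0) (sub_mem hx (smul_mem _ _ hv))
      (by simp [k1, D.inv])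
    have e0 := (E2 v0 hv k1).2
    rw [← hl] at e0
    have e1 : x = σ (B u x) • v0 + (x - σ (B u x) • v0) := by abel
    generalize x - σ (B u x) • v0 = w at j1 j2 j3 e1
    generalize σ (B u x) = c at e1
    rw [e1]
    simp [e0, j1, j2, j3]
    ring) x hx y hy
  simp at this
  linear_combination this

lemma hyp {W : Submodule F V} (h : 2 ≤ finrank F W)
    (hW : ∀ u ∈ W, u ≠ 0 → ∃ z ∈ W, B u z ≠ 0) :
    ∃ u ∈ W, ∃ v ∈ W, B u u = 0 ∧ B u v = 1 := by
  obtain ⟨u, hu, h1, h2⟩ := D.ISO (W := W) (R := ⊥) (by simpa using h)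
  obtain ⟨z, hz, h3⟩ := hW u hu (by simpa using h1)
  exact ⟨u, hu, σ (B u z)⁻¹ • z, smul_mem _ _ hz, h2, by simp [D.inv, h3]⟩

lemma U2 {M : End F V} (h : NS M) : ∃ u, B u u = 0 ∧ B (M u) u ≠ 0 := by
  by_contra hh
  push Not at hh
  have := D.dim
  obtain ⟨u, -, v, -, h1, h2⟩ := D.hyp (W := ⊤) (by rw [finrank_top]; omega) (fun u _ hu => by
    obtain ⟨z, hz, -⟩ := sep B D.nd (nmem0.mpr hu)
    exact ⟨z, trivial, by simp [hz]⟩)
  obtain ⟨l, hl⟩ := D.U2rel (W := ⊤) M trivial trivial h1 h2 (fun v _ hv => hh v hv)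
  apply h l
  ext x
  rw [← sub_eq_zero]
  apply D.nd'
  intro y
  simp [hl x trivial y trivial]

lemma SPAN {W : Submodule F V} (ψ : V →ₗ[F] F) {u v0 : V} (hu : u ∈ W) (hv : v0 ∈ W)
    (k : B u u = 0) (k1 : B u v0 = 1) (h : ∀ v ∈ W, B v v = 0 → ψ v = 0) :
    ∀ x ∈ W, ψ x = 0 := by
  have key : ∀ x ∈ W, B u x ≠ 0 → ψ x = 0 := by
    intro x hx hne
    obtain ⟨μ, hμ⟩ := D.tr_onto (D.self x) hne
    have := h (x - μ • u) (sub_mem hx (smul_mem _ _ hu)) (by
      simp [k, D.herm u x]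
      linear_combination -hμ)
    simpa [h u hu k] using this
  intro x hx
  by_cases hne : B u x = 0
  · have := key (x + v0) (add_mem hx hv) (by simp [hne, k1])
    simpa [key v0 hv (by simp [k1])] using this
  · exact key x hx hne

lemma center (c : (End F V)ˣ) (hc : c ∈ G) (h : ∀ g ∈ G, g * c = c * g) :
    ∃ z ∈ {z : F | z ^ finrank F V = 1 ∧ z * σ z = 1}, c.val = z • 1 := by
  obtain ⟨s, hs0, hs⟩ := D.skew
  have : ¬ NS c.val := by
    intro hn
    obtain ⟨u, h1, h2⟩ := D.U2 hn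
    have hu : u ≠ 0 := by rintro rfl; simp at h2
    obtain ⟨x, h3, -⟩ := sep B D.nd (nmem0.mpr hu)
    have h4 := congrArg (fun g : (End F V)ˣ => B (g.val x) u)
      (h _ (D.N_mem h1 (v := 0) (by simp) (by simp) hs (c := 0) (by simp)))
    simp [D.herm u x, h3, h1, hs0] at h4
    exact h2 h4
  unfold NS at this
  push Not at this
  obtain ⟨z, hz⟩ := this
  refine ⟨z, ⟨?_, ?_⟩, hz⟩
  · have := ((D.mem c).mp hc).2
    rw [hz, LinearMap.det_smul] at this
    simpa using this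
  · have := D.dim
    obtain ⟨x, -, hx⟩ := out (W := (⊤ : Submodule F V)) (R := ⊥) (by simp; omega)
    obtain ⟨y, h, -⟩ := sep B D.nd hx
    have := D.iso hc x y
    simpa [hz, h, mul_comm] using this

end UD

end Pool.Agent.MP_db74b1_al

end

section

/-! Unitary groups, the generic cases. -/

set_option autoImplicit false
set_option linter.unusedSectionVars false

namespace Pool.Agent.MP_db74b1_al
open Module Submodule

variable {F V : Type} [Field F] [AddCommGroup V] [Module F V] [Finite F] [FiniteDimensional F V]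

lemma norm_coef {θ K T l1 l2 Q1 P Q2 T' l1' l2' Q1' P' Q2' : F} (h0 : θ ≠ 0) (h1 : θ ≠ 1)
    (h : ∀ x y : F, (x = 0 ∨ x = 1 ∨ x = θ) → (y = 0 ∨ y = 1 ∨ y = θ) →
      (T + l1 * x + l2 * y - (Q1 * x ^ 2 + P * x * y + Q2 * y ^ 2)) *
        (T' + l1' * x + l2' * y - (Q1' * x ^ 2 + P' * x * y + Q2' * y ^ 2)) = K) :
    P * P' + Q1 * Q2' + Q2 * Q1' = 0 := by
  have e00 := h 0 0 (by simp) (by simp)
  have e01 := h 0 1 (by simp) (by simp)
  have e02 := h 0 θ (by simp) (by simp)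
  have e10 := h 1 0 (by simp) (by simp)
  have e11 := h 1 1 (by simp) (by simp)
  have e12 := h 1 θ (by simp) (by simp)
  have e20 := h θ 0 (by simp) (by simp)
  have e21 := h θ 1 (by simp) (by simp)
  have e22 := h θ θ (by simp) (by simp)
  apply mul_left_cancel₀ (pow_ne_zero 2 (mul_ne_zero h0 (sub_ne_zero.mpr h1)))
  linear_combination (θ - 1) * ((θ - 1) * e00 - θ * e01 + e02) - θ * ((θ - 1) * e10 - θ * e11 + e12) +
    ((θ - 1) * e20 - θ * e21 + e22)

lemma norm_coef' {σ : F →+* F} {Z : Set F} (hZ : ∀ z ∈ Z, z * σ z = 1) {θ t Q1 P Q2 : F}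
    (hθ : σ θ = θ) (h0 : θ ≠ 0) (h1 : θ ≠ 1)
    (h : ∃ T l1 l2 : F, ∀ x1 x2 : F, σ x1 = x1 → σ x2 = x2 → ∃ z ∈ Z,
      T + l1 * x1 + l2 * x2 - (Q1 * x1 ^ 2 + P * x1 * x2 + Q2 * x2 ^ 2) = z * t) :
    P * σ P + Q1 * σ Q2 + Q2 * σ Q1 = 0 := by
  obtain ⟨T, l1, l2, k⟩ := h
  refine norm_coef (K := t * σ t) (T := T) (l1 := l1) (l2 := l2) (T' := σ T) (l1' := σ l1)
    (l2' := σ l2) h0 h1 ?_
  intro x1 x2 j1 j2
  have j1 : σ x1 = x1 := by rcases j1 with rfl | rfl | rfl <;> simp [hθ]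
  have j2 : σ x2 = x2 := by rcases j2 with rfl | rfl | rfl <;> simp [hθ]
  obtain ⟨z, hz, k1⟩ := k x1 x2 j1 j2
  have k2 := congrArg σ k1
  simp only [map_sub, map_add, map_mul, map_pow, j1, j2] at k2
  rw [k1, k2]
  linear_combination (t * σ t) * hZ z hz

namespace UD
variable {σ : F →+* F} {B : V →ₗ[F] V →ₛₗ[σ] F} {G : Subgroup (End F V)ˣ} (D : UD σ B G)
include D

lemma conjL_B {g a : (End F V)ˣ} (hg : g ∈ G) (x y : V) :
    B ((g⁻¹ * a * g⁻¹⁻¹).val x) y = B (a.val (g.val x)) (g.val y) := by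
  rw [← D.iso hg]; simp

variable {Z : Set F} {a b : (End F V)ˣ} {e : End F V} (h : Bad G Z a b e)
include h

lemma frame {u y : V} (hu : B u u = 0) (hy : B y y = 0) (huy : B u y = 0) {s : F} (hs : σ s = -s) :
    ∃ T l1 l2 : F, ∀ x1 x2 : F, σ x1 = x1 → σ x2 = x2 → ∃ z ∈ Z,
      T + l1 * x1 + l2 * x2 - ((s ^ 2 * (B (a.val u) u * B (b.val u) u)) * x1 ^ 2 +
        (s * (B (b.val u) u * (B (a.val u) y - B (a.val y) u) +
          B (a.val u) u * (B (b.val u) y - B (b.val y) u))) * x1 * x2 +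
        (B (a.val u) y * B (b.val u) y - B (a.val u) u * B (b.val y) y -
          B (b.val u) u * B (a.val y) y + B (a.val y) u * B (b.val y) u) * x2 ^ 2) = z * tr e := by
  refine ⟨tr (a.val * b.val), s * B ((b.val * a.val - a.val * b.val) u) u,
    B ((b.val * a.val - a.val * b.val) u) y - B ((b.val * a.val - a.val * b.val) y) u, ?_⟩
  intro x1 x2 h1 h2
  obtain ⟨z, hz, k, -⟩ := h.tr_unip _ _ (D.N_mem hu hy huy (s := x1 * s) (c := x2)
    (by simp [h1, hs]) h2)
  refine ⟨z, hz, ?_⟩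
  rw [← k, tr_expand]
  generalize b.val * a.val - a.val * b.val = L
  simp only [op, mul_add, add_mul, mul_sub, sub_mul, mul_smul_comm, smul_mul_assoc, mul_rk, map_add,
    map_sub, map_smul, tr_rk, LinearMap.flip_apply, rk_apply, smul_eq_mul]
  ring

lemma frame_sh {u y : V} (hu : B u u = 0) (hy : B y y = 0) (huy : B u y = 0)
    (hy' : y ∉ span F {u}) {s : F} (hs : σ s = -s) (c : F) :
    ∃ T l1 l2 : F, ∀ x1 x2 : F, σ x1 = x1 → σ x2 = x2 → ∃ z ∈ Z,
      T + l1 * x1 + l2 * x2 - ((s ^ 2 * (B (a.val u) u * B (b.val u) u)) * x1 ^ 2 +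
        (s * (B (b.val u) u * (B (a.val u) y - B (a.val y) u + (σ c - c) * B (a.val u) u) +
          B (a.val u) u * (B (b.val u) y - B (b.val y) u))) * x1 * x2 +
        ((B (a.val u) y + σ c * B (a.val u) u) * B (b.val u) y - B (a.val u) u * B (b.val y) y -
          B (b.val u) u * (B (a.val y) y + σ c * B (a.val y) u + c * B (a.val u) y +
            c * σ c * B (a.val u) u) +
          (B (a.val y) u + c * B (a.val u) u) * B (b.val y) u) * x2 ^ 2) = z * tr e := by
  have hW : ∀ x, B u x = 0 → ∀ w ∈ span F {u}, B w x = 0 := by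
    intro x hx w hw
    obtain ⟨d, rfl⟩ := mem_span_singleton.mp hw
    simp [hx]
  obtain ⟨g, hg, e1, e2⟩ := D.shear (mem_span_singleton_self u) hy' hy (hW u hu) (hW y huy) c
  have e1 := e1 u (mem_span_singleton_self u)
  obtain ⟨T, l1, l2, k⟩ := D.frame (h.conjL (G.inv_mem hg)) hu hy huy hs
  refine ⟨T, l1, l2, fun x1 x2 h1 h2 => ?_⟩
  obtain ⟨z, hz, k1⟩ := k x1 x2 h1 h2
  refine ⟨z, hz, ?_⟩
  rw [← k1]
  simp only [D.conjL_B hg, e1, e2, map_add, map_smul, map_smulₛₗ, LinearMap.add_apply,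
    LinearMap.smul_apply, smul_eq_mul]
  ring

lemma common (na : NS a.val) (nb : NS b.val) : ∃ (b' : (End F V)ˣ) (u : V), Bad G Z a b' e ∧
    B u u = 0 ∧ B (a.val u) u ≠ 0 ∧ B (b'.val u) u ≠ 0 := by
  obtain ⟨u, h1, h2⟩ := D.U2 na
  obtain ⟨u', h1', h2'⟩ := D.U2 nb
  obtain ⟨g, hg, -, c, hc, k⟩ := D.step (W := ⊥) (x := u') (x' := u)
    (by rintro rfl; simp at h2') (by rintro rfl; simp at h2) h1' h1 (by simp) (by simp)
  refine ⟨g * b * g⁻¹, u, h.conjR hg, h1, h2, fun hh => h2' ?_⟩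
  rw [← D.iso hg, ← conj_app, k]
  simp only [map_smul, map_smulₛₗ, LinearMap.smul_apply, hh, smul_zero]

omit h in
lemma ext (h4 : 4 ≤ finrank F V) (u : V) :
    ∃ y, B y y = 0 ∧ B u y = 0 ∧ y ∉ span F {u} := by
  have := fs1 (F := F) u
  have := fker (B.flip u)
  obtain ⟨y, h1, h2, h3⟩ := D.ISO (W := LinearMap.ker (B.flip u)) (R := span F {u}) (by omega)
  exact ⟨y, h3, D.flip0 h1, h2⟩

lemma case_norm (hZ : ∀ z ∈ Z, z * σ z = 1) (h4 : 4 ≤ finrank F V) {θ : F} (hθ : σ θ = θ)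
    (h0 : θ ≠ 0) (h1 : θ ≠ 1) {u : V} (hu : B u u = 0) : B (a.val u) u * B (b.val u) u = 0 := by
  obtain ⟨y, hy, huy, hy'⟩ := D.ext h4 u
  obtain ⟨s, hs0, hs⟩ := D.skew
  generalize hα : B (a.val u) u = α
  generalize hβ : B (b.val u) u = β
  have key := fun c : F => norm_coef' hZ hθ h0 h1 (D.frame_sh h hu hy huy hy' hs c)
  rw [hα, hβ] at key
  have key2 : ∀ c : F, s ^ 2 * (α * β * σ (α * β)) * ((c + σ c) ^ 2 - 6 * (c * σ c)) = 0 := by
    intro c
    have e0 := key 0
    have e1 := key c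
    have e2 := key (θ * c)
    simp only [map_add, map_sub, map_mul, map_pow, hs, D.inv, hθ, map_zero] at e0 e1 e2 ⊢
    apply mul_left_cancel₀ (mul_ne_zero h0 (sub_ne_zero.mpr h1))
    linear_combination e2 - θ * e1 + (θ - 1) * e0
  by_contra hne
  have hne' : s ^ 2 * (α * β * σ (α * β)) ≠ 0 :=
    mul_ne_zero (pow_ne_zero 2 hs0) (mul_ne_zero hne (by simpa using hne))
  have e1 := (mul_eq_zero.mp (key2 1)).resolve_left hne'
  obtain ⟨w, hw⟩ := D.trne
  have e2 := (mul_eq_zero.mp (key2 w)).resolve_left hne'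
  simp only [map_one] at e1
  apply pow_ne_zero 2 hw
  linear_combination e2 - 3 * (w * σ w) * e1

lemma case_const (hZ : ∀ z ∈ Z, z * tr e = tr e) (h4 : 4 ≤ finrank F V) {u : V} (hu : B u u = 0) :
    B (a.val u) u * B (b.val u) u = 0 := by
  obtain ⟨y, hy, huy, hy'⟩ := D.ext h4 u
  obtain ⟨s, hs0, hs⟩ := D.skew
  obtain ⟨θ, hθ⟩ := D.nt
  have key : ∀ c : F,
      s * (B (b.val u) u * (B (a.val u) y - B (a.val y) u + (σ c - c) * B (a.val u) u) +
          B (a.val u) u * (B (b.val u) y - B (b.val y) u)) = 0 := by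
    intro c
    obtain ⟨T, l1, l2, k⟩ := D.frame_sh h hu hy huy hy' hs c
    obtain ⟨z1, j1, i1⟩ := k 0 0 (by simp) (by simp)
    obtain ⟨z2, j2, i2⟩ := k 1 0 (by simp) (by simp)
    obtain ⟨z3, j3, i3⟩ := k 0 1 (by simp) (by simp)
    obtain ⟨z4, j4, i4⟩ := k 1 1 (by simp) (by simp)
    rw [hZ _ j1] at i1
    rw [hZ _ j2] at i2
    rw [hZ _ j3] at i3
    rw [hZ _ j4] at i4
    linear_combination i2 + i3 - i1 - i4
  have e0 := key 0
  have e1 := key θ
  simp only [map_zero] at e0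
  apply mul_left_cancel₀ (mul_ne_zero hs0 (sub_ne_zero.mpr hθ))
  linear_combination e1 - e0

lemma case_one_const (hZ : ∀ z ∈ Z, z * tr e = tr e) {θ : F} (hθ : σ θ = θ)
    (h0 : θ ≠ 0) (h1 : θ ≠ 1) {u : V} (hu : B u u = 0) : B (a.val u) u * B (b.val u) u = 0 := by
  obtain ⟨s, hs0, hs⟩ := D.skew
  obtain ⟨T, l1, l2, k⟩ := D.frame h hu (y := 0) (by simp) (by simp) hs
  obtain ⟨z1, j1, i1⟩ := k 0 0 (by simp) (by simp)
  obtain ⟨z2, j2, i2⟩ := k 1 0 (by simp) (by simp)
  obtain ⟨z3, j3, i3⟩ := k θ 0 hθ (by simp)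
  rw [hZ _ j1] at i1
  rw [hZ _ j2] at i2
  rw [hZ _ j3] at i3
  apply mul_left_cancel₀ (mul_ne_zero (pow_ne_zero 2 hs0) (mul_ne_zero h0 (sub_ne_zero.mpr h1)))
  linear_combination θ * i2 - i3 - (θ - 1) * i1

lemma case_five (hZ : ∀ z ∈ Z, z * σ z = 1) (S : Finset F) (hS : 5 ≤ S.card)
    (hS' : ∀ x ∈ S, σ x = x) {u : V} (hu : B u u = 0) : B (a.val u) u * B (b.val u) u = 0 := by
  obtain ⟨s, hs0, hs⟩ := D.skew
  obtain ⟨T, l1, l2, k⟩ := D.frame h hu (y := 0) (by simp) (by simp) hs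
  generalize B (a.val u) u * B (b.val u) u = γ at k ⊢
  have : s ^ 2 * γ * (s ^ 2 * σ γ) = 0 := by
    apply quartic5 (c0 := T * σ T - tr e * σ (tr e)) (c1 := T * σ l1 + l1 * σ T)
      (c2 := l1 * σ l1 - T * (s ^ 2 * σ γ) - s ^ 2 * γ * σ T)
      (c3 := - l1 * (s ^ 2 * σ γ) - s ^ 2 * γ * σ l1) S hS
    intro x hx
    obtain ⟨z, hz, k1⟩ := k x 0 (hS' x hx) (by simp)
    have k1 : T + l1 * x - s ^ 2 * γ * x ^ 2 = z * tr e := by linear_combination k1
    have k2 := congrArg σ k1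
    simp only [map_sub, map_add, map_mul, map_pow, hs, hS' x hx] at k2
    linear_combination (σ T + σ l1 * x - s ^ 2 * σ γ * x ^ 2) * k1 + z * tr e * k2 +
      (tr e * σ (tr e)) * hZ z hz
  by_contra hne
  exact mul_ne_zero (mul_ne_zero (pow_ne_zero 2 hs0) hne)
    (mul_ne_zero (pow_ne_zero 2 hs0) (by simpa using hne)) this

omit h in
lemma five {θ ω : F} (hθ : σ θ = θ) (h0 : θ ≠ 0) (h1 : θ ≠ 1) (hω : ω ^ 3 = 1) (hω1 : ω ≠ 1)
    (hω2 : ω * σ ω = 1) : ∃ S : Finset F, 5 ≤ S.card ∧ ∀ x ∈ S, σ x = x := by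
  classical
  have hω3 : ω ^ 2 + ω + 1 = 0 := by
    apply mul_left_cancel₀ (sub_ne_zero.mpr hω1)
    linear_combination hω
  by_cases h2 : (2 : F) = 0
  · have n1 : θ + 1 ≠ 0 := fun hh => h1 (by linear_combination hh - h2)
    have n2 : θ ^ 2 ≠ θ + 1 := by
      intro hh
      have e1 : (θ - ω) * (θ - ω ^ 2) = 0 := by
        linear_combination hh - θ * hω3 + hω + (θ + 1) * h2
      have e2 : σ ω = ω := by
        rcases mul_eq_zero.mp e1 with e | e
        · rw [← sub_eq_zero.mp e, hθ]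
        · have e3 : ω = θ ^ 2 := by rw [sub_eq_zero.mp e]; linear_combination -ω * hω
          rw [e3, map_pow, hθ]
      rw [e2] at hω2
      apply hω1
      linear_combination hω - ω * hω2
    have n3 : θ ^ 2 ≠ 1 := fun hh => h1 (sq_one_two h2 hh)
    have n4 : θ ^ 2 ≠ θ := fun hh => h1 (mul_left_cancel₀ h0 (by linear_combination hh))
    refine ⟨{0, 1, θ, θ + 1, θ ^ 2}, ?_, ?_⟩
    · rw [Finset.card_insert_of_notMem, Finset.card_insert_of_notMem,
        Finset.card_insert_of_notMem, Finset.card_pair]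
      · exact n2.symm
      · simp [n4.symm]
      · simp [h1.symm, h0, n3.symm]
      · simp [h0.symm, n1.symm, (pow_ne_zero 2 h0).symm]
    · simp [hθ]
  · have h3 : (3 : F) ≠ 0 := by
      intro hh
      apply hω1
      have : (ω - 1) ^ 2 = 0 := by linear_combination hω3 - ω * hh
      exact sub_eq_zero.mp (pow_eq_zero_iff two_ne_zero |>.mp this)
    have h4 : (4 : F) ≠ 0 := by
      have : (4 : F) = 2 * 2 := by norm_num
      rw [this]; exact mul_ne_zero h2 h2
    refine ⟨{0, 1, 2, 3, 4}, ?_, ?_⟩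
    · have n12 : (1 : F) ≠ 2 := fun hh => one_ne_zero (α := F) (by linear_combination -hh)
      have n13 : (1 : F) ≠ 3 := fun hh => h2 (by linear_combination -hh)
      have n14 : (1 : F) ≠ 4 := fun hh => h3 (by linear_combination -hh)
      have n23 : (2 : F) ≠ 3 := fun hh => one_ne_zero (α := F) (by linear_combination -hh)
      have n24 : (2 : F) ≠ 4 := fun hh => h2 (by linear_combination -hh)
      have n34 : (3 : F) ≠ 4 := fun hh => one_ne_zero (α := F) (by linear_combination -hh)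
      rw [Finset.card_insert_of_notMem, Finset.card_insert_of_notMem,
        Finset.card_insert_of_notMem, Finset.card_pair n34]
      · simp [n23, n24]
      · simp [n12, n13, n14]
      · simp [Ne.symm h2, h3.symm, h4.symm]
    · simp [map_ofNat]

end UD

end Pool.Agent.MP_db74b1_al

end

section

/-! Unitary groups: structure of elements with degenerate Gram matrices, and the field with
four elements. -/

set_option autoImplicit false
set_option linter.unusedSectionVars false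

namespace Pool.Agent.MP_db74b1_al
open Module Submodule

variable {F V : Type} [Field F] [AddCommGroup V] [Module F V] [Finite F] [FiniteDimensional F V]

lemma det_one_add_rk (p : V) (φ : V →ₗ[F] F) : LinearMap.det (1 + rk p φ) = 1 + φ p := by
  rw [← LinearMap.transvection.det φ p]
  congr 1

namespace UD
variable {σ : F →+* F} {B : V →ₗ[F] V →ₛₗ[σ] F} {G : Subgroup (End F V)ˣ} (D : UD σ B G)
include D

lemma special {b : (End F V)ˣ} (hb : b ∈ G)
    (H : ∀ v w, B v v = 0 → B w w = 0 → B v w = 0 →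
      B (b.val v) v * B (b.val w) w = B (b.val v) w * B (b.val w) v)
    {v : V} (hv : B v v = 0) (hq : B (b.val v) v = 0) : b.val v ∈ span F {v} := by
  by_contra hy
  have hy' : b⁻¹.val v ∉ span F {v} := by
    intro hh
    obtain ⟨c, hc⟩ := mem_span_singleton.mp hh
    have e1 : c • b.val v = v := by rw [← map_smul, hc, app_inv]
    have hc0 : c ≠ 0 := by
      rintro rfl
      apply hy
      rw [← e1]; simp
    apply hy
    rw [← smul_mem_iff _ hc0, e1]
    exact mem_span_singleton_self v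
  obtain ⟨z, k1, k2, k3⟩ := sep2 B D.nd hy hy'
  have k3 := k3 v (mem_span_singleton_self v)
  have hyy : B (b.val v) (b.val v) = 0 := by rw [D.iso hb, hv]
  have key : ∀ μ : F, μ * B (b.val v) z + σ μ * σ (B (b.val v) z) = B z z →
      B (b⁻¹.val v) z = σ μ * B (b⁻¹.val v) (b.val v) := by
    intro μ hμ
    have := H v (z - μ • b.val v) hv (by
      simp [hyy, D.herm (b.val v) z]
      linear_combination -hμ) (by simp [k3, D.flip0 hq])
    rw [hq, zero_mul, D.adj hb (z - μ • b.val v)] at this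
    have e1 : B (b.val v) (z - μ • b.val v) = B (b.val v) z := by simp [hyy]
    rw [e1] at this
    have e2 := D.flip0 ((mul_eq_zero.mp this.symm).resolve_left k1)
    simp only [map_sub, map_smulₛₗ, smul_eq_mul] at e2
    linear_combination e2
  obtain ⟨s, hs0, hs⟩ := D.skew
  obtain ⟨μ, hμ⟩ := D.tr_onto (D.self z) k1
  have k1' : σ (B (b.val v) z) ≠ 0 := by simpa using k1
  have e1 := key μ hμ
  have e2 := key (μ + s / B (b.val v) z) (by
    rw [← hμ]
    simp only [map_add, map_div₀, hs]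
    field_simp
    ring)
  have e3 : B (b⁻¹.val v) (b.val v) = 0 := by
    apply mul_left_cancel₀ (a := σ (s / B (b.val v) z)) (by simp [hs0, k1])
    rw [map_add] at e2
    linear_combination e1 - e2
  rw [e3, mul_zero] at e1
  exact k2 e1

lemma structU (h4 : 4 ≤ finrank F V) {b : (End F V)ˣ} (hb : b ∈ G) (nb : NS b.val)
    (H : ∀ v w, B v v = 0 → B w w = 0 → B v w = 0 →
      B (b.val v) v * B (b.val w) w = B (b.val v) w * B (b.val w) v) :
    ∃ (l : F) (p : V) (φ : V →ₗ[F] F), l * σ l = 1 ∧ b.val = l • 1 + rk p φ := by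
  obtain ⟨u, hu, hq⟩ := D.U2 nb
  obtain ⟨m, hm⟩ : ∃ m, m = b.val u := ⟨_, rfl⟩
  obtain ⟨h, hh⟩ : ∃ h, h = B m u := ⟨_, rfl⟩
  have hh0 : h ≠ 0 := by rw [hh, hm]; exact hq
  have hh0' : σ h ≠ 0 := by simpa using hh0
  have hum : B u m = σ h := by rw [D.herm, hh]
  have hmm : B m m = 0 := by rw [hm, D.iso hb, hu]
  let P : Submodule F V := LinearMap.ker (B.flip u) ⊓ LinearMap.ker (B.flip m)
  have hP : ∀ p, p ∈ P ↔ B p u = 0 ∧ B p m = 0 := fun p => Iff.rfl
  have proj : ∀ x, ∃ (s t : F), ∃ p ∈ P, x = s • u + t • m + p := by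
    intro x
    refine ⟨B x m / σ h, B x u / h, x - (B x m / σ h) • u - (B x u / h) • m, (hP _).mpr ⟨?_, ?_⟩, ?_⟩
    · simp [hu, ← hh, hh0]
    · simp [hum, hmm, hh0']
    · abel
  have test : ∀ x, B x u = 0 → B x m = 0 → (∀ p ∈ P, B x p = 0) → x = 0 := by
    intro x h1 h2 h3
    apply D.nd'
    intro y
    obtain ⟨s, t, p, hp, rfl⟩ := proj y
    simp [h1, h2, h3 p hp]
  have sp : ∀ v ∈ P, B v v = 0 → B (b.val v) v = 0 := by
    intro v hv hvv
    have := H u v hu hvv (D.flip0 hv.1)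
    rw [← hm, D.flip0 hv.2, zero_mul, ← hh] at this
    exact (mul_eq_zero.mp this).resolve_left hh0
  obtain ⟨u1, hu1, v1, hv1, k1, k2⟩ := D.hyp (W := P) (by
      have := fker (B.flip u)
      have := fk (LinearMap.ker (B.flip u)) (B.flip m)
      simp only [P]
      omega) (by
      intro r hr hr0
      by_contra hc
      push Not at hc
      exact hr0 (test r hr.1 hr.2 hc))
  obtain ⟨l, hl⟩ := D.U2rel b.val hu1 hv1 k1 k2 sp
  have ps : ∀ y, (∀ v ∈ P, B v y = 0) → ∀ v ∈ P, B (b.val v) y = 0 := by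
    intro y hy
    refine D.SPAN (B.flip y ∘ₗ b.val) hu1 hv1 k1 k2 (fun v hv hvv => ?_)
    obtain ⟨c, hc⟩ := mem_span_singleton.mp (D.special hb H hvv (sp v hv hvv))
    simp [← hc, hy v hv]
  have bP : ∀ p ∈ P, b.val p = l • p := by
    intro p hp
    rw [← sub_eq_zero]
    apply test
    · simp [ps u (fun v hv => hv.1) p hp, (hP p).mp hp]
    · simp [ps m (fun v hv => hv.2) p hp, (hP p).mp hp]
    · intro r hr
      simp [hl p hp r hr]
  have hll : l * σ l = 1 := by
    have := D.iso hb u1 v1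
    rw [bP u1 hu1, bP v1 hv1] at this
    simpa [k2, mul_comm] using this
  have bP' : ∀ x, ∀ p ∈ P, B (b.val x) p = l * B x p := by
    intro x p hp
    have := D.iso hb x p
    rw [bP p hp] at this
    simp only [map_smulₛₗ, smul_eq_mul] at this
    linear_combination l * this - B (b.val x) p * hll
  have rel : h * B (b.val m) m = - l * σ h * (B (b.val m) u - l * h) := by
    obtain ⟨μ, hμ⟩ := D.tr_onto (D.self v1) one_ne_zero
    simp only [mul_one, map_one] at hμ
    have hr : (-h) • (v1 - μ • u1) ∈ P := smul_mem _ _ (sub_mem hv1 (smul_mem _ _ hu1))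
    have hrr : B ((-h) • (v1 - μ • u1)) ((-h) • (v1 - μ • u1)) = 0 := by
      simp [k1, k2, D.herm u1 v1, hh0]
      linear_combination σ h * hμ
    have hpr : B u1 ((-h) • (v1 - μ • u1)) = - σ h := by simp [k1, k2]
    generalize (-h) • (v1 - μ • u1) = r at hr hrr hpr
    have j1 := (hP _).mp hu1
    have j2 := (hP _).mp hr
    have := H (u + u1) (m + r) (by simp [hu, k1, j1, D.flip0 j1.1])
      (by simp [hmm, hrr, j2, D.flip0 j2.2]) (by simp [hum, hpr, j1, D.flip0 j2.1])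
    simp only [map_add, LinearMap.add_apply, ← hm, bP u1 hu1, bP r hr, map_smul,
      LinearMap.smul_apply, smul_eq_mul, bP' m _ hr, bP' m _ hu1, j1, j2, D.flip0 j1.2,
      D.flip0 j2.2, k1, hrr, hmm, ← hh, hpr, D.herm u1 r, map_neg, D.inv] at this
    linear_combination this
  refine ⟨l, m - l • u, h⁻¹ • (B.flip u ∘ₗ (b.val - l • 1)), hll, ?_⟩
  ext x
  obtain ⟨s, t, p, hp, rfl⟩ := proj x
  have j1 := (hP _).mp hp
  rw [← sub_eq_zero]
  apply test
  · simp [← hm, bP p hp, hu, ← hh, j1]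
    field_simp
    ring
  · simp [← hm, bP p hp, hu, ← hh, j1, hum, hmm]
    field_simp
    linear_combination t * rel
  · intro r hr
    have j2 := (hP _).mp hr
    simp [← hm, bP p hp, bP' m r hr, D.flip0 j2.1, D.flip0 j2.2]

section four
variable (H : ∀ x, σ x = x → x = 0 ∨ x = 1)
include H

lemma two : (2 : F) = 0 := by
  rcases H 2 (map_ofNat σ 2) with h | h
  · exact h
  · exact absurd (by linear_combination h) (one_ne_zero (α := F))

lemma nrm {x : F} (hx : x ≠ 0) : x * σ x = 1 :=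
  (H _ (by simp [D.inv, mul_comm])).resolve_left (by simpa using hx)

lemma frob (x : F) : σ x = x ^ 2 := by
  have h2 := D.two H
  by_cases hx : x = 0
  · simp [hx]
  have h1 := D.nrm H hx
  rcases H (x + σ x) (by simp [D.inv, add_comm]) with h | h
  · have e : σ x = x := by linear_combination h - x * h2
    rcases H x e with h' | h'
    · exact absurd h' hx
    · simp [h']
  · linear_combination h + h1 - x * h + (1 - x) * h2

lemma cube {x : F} (hx : x ≠ 0) : x ^ 3 = 1 := by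
  have := D.nrm H hx
  rw [D.frob H] at this
  linear_combination this

lemma omega : ∃ ω : F, ω ^ 2 + ω + 1 = 0 := by
  obtain ⟨θ, h⟩ := D.nt
  have h0 : θ ≠ 0 := by rintro rfl; simp at h
  have h1 : θ ≠ 1 := by rintro rfl; simp at h
  refine ⟨θ, mul_left_cancel₀ (sub_ne_zero.mpr h1) ?_⟩
  linear_combination D.cube H h0

lemma card4 : Nat.card F = 4 := by
  classical
  obtain ⟨ω, hω⟩ := D.omega H
  have h2 := D.two H
  have := Fintype.ofFinite F
  have h0 : ω ≠ 0 := by rintro rfl; simp at hω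
  have h1 : ω ≠ 1 := by
    rintro rfl
    exact one_ne_zero (α := F) (by linear_combination hω - h2)
  have n1 : ω + 1 ≠ 0 := fun hh => h1 (by linear_combination hh - h2)
  have : (Finset.univ : Finset F) = {0, 1, ω, ω + 1} := by
    ext x
    simp only [Finset.mem_univ, Finset.mem_insert, Finset.mem_singleton, true_iff]
    by_contra hc
    push Not at hc
    obtain ⟨c0, c1, c2, c3⟩ := hc
    have e := D.cube H c0
    apply mul_ne_zero (sub_ne_zero.mpr c1) (mul_ne_zero (sub_ne_zero.mpr c2) (sub_ne_zero.mpr c3))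
    linear_combination e + (x - 1) * hω - (x - 1) * (x * ω + x + 1) * h2
  rw [Nat.card_eq_fintype_card, ← Finset.card_univ, this, Finset.card_insert_of_notMem,
    Finset.card_insert_of_notMem, Finset.card_pair]
  · simp
  · simp [h1.symm, h0]
  · simp [h0.symm, n1.symm]

lemma transv (hn : 3 ∣ finrank F V) (h4 : 4 ≤ finrank F V) {b : (End F V)ˣ} (hb : b ∈ G)
    (nb : NS b.val) (H' : ∀ v w, B v v = 0 → B w w = 0 → B v w = 0 →
      B (b.val v) v * B (b.val w) w = B (b.val v) w * B (b.val w) v) :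
    ∃ (l : F) (p : V), l ≠ 0 ∧ p ≠ 0 ∧ B p p = 0 ∧ b.val = l • 1 + l • op B p p := by
  obtain ⟨l, p, φ, hl, hs⟩ := D.structU h4 hb nb H'
  have hl0 : l ≠ 0 := by rintro rfl; simp at hl
  obtain ⟨ψ, rfl⟩ : ∃ ψ : V →ₗ[F] F, φ = l • ψ := ⟨l⁻¹ • φ, by simp [smul_smul, hl0]⟩
  have hs' : b.val = l • (1 + rk p ψ) := by rw [hs]; ext x; simp [smul_smul]
  have hd := ((D.mem b).mp hb).2
  obtain ⟨k, hk⟩ := hn
  rw [hs', LinearMap.det_smul, hk, pow_mul, D.cube H hl0, det_one_add_rk] at hd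
  have hp : ψ p = 0 := by simpa using hd
  have hne : rk p ψ ≠ 0 := by
    intro hh; apply nb l; rw [hs', hh, add_zero]
  obtain ⟨y, hy⟩ : ∃ y, ψ y = 1 := by
    by_contra hc
    push Not at hc
    apply hne
    ext x
    by_cases hx : ψ x = 0
    · simp [hx]
    · exact absurd (by simp [hx]) (hc ((ψ x)⁻¹ • x))
  have hp0 : p ≠ 0 := by rintro rfl; apply hne; ext x; simp
  have key : ∀ x y, σ (ψ y) * B x p + ψ x * B p y + ψ x * σ (ψ y) * B p p = 0 := by
    intro x y
    have := D.iso hb x y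
    simp only [hs', LinearMap.smul_apply, LinearMap.add_apply, End.one_apply, rk_apply, map_smul,
      map_smulₛₗ, map_add, smul_eq_mul] at this
    linear_combination this - (B x y + σ (ψ y) * B x p + ψ x * B p y +
      ψ x * σ (ψ y) * B p p) * hl
  have hpp : B p p = 0 := by simpa [hp, hy] using key y p
  have e1 : ∀ x, B x p = ψ x * B p y := by
    intro x
    have := key x y
    simp only [hy, hpp, map_one] at this
    linear_combination this - ψ x * B p y * D.two H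
  have e2 : B p y = 1 := by
    refine (H _ ?_).resolve_left ?_
    · rw [← D.herm, e1, hy, one_mul]
    · intro hh
      exact hp0 (D.nd p fun x => by rw [e1, hh, mul_zero])
  refine ⟨l, p, hl0, hp0, hpp, ?_⟩
  rw [hs']
  ext x
  simp [e1, e2]

lemma spec_vec (M : End F V) {w1 w2 w3 : V} : ∃ x y z : F, ¬ (x = 0 ∧ y = 0 ∧ z = 0) ∧
    B (M (x • w1 + y • w2 + z • w3)) (x • w1 + y • w2 + z • w3) = 0 := by
  classical
  have := Fintype.ofFinite F
  let w : Fin 3 → V := ![w1, w2, w3]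
  open MvPolynomial in
  let f1 : MvPolynomial (Fin 3) F := ∑ i, ∑ j, C (B (M (w i)) (w j)) * (X i * X j ^ 2)
  open MvPolynomial in
  let f2 : MvPolynomial (Fin 3) F := ∑ i, ∑ j, C (σ (B (M (w i)) (w j))) * (X j * X i ^ 2)
  have deg : ∀ (c : F) (i j : Fin 3),
      (MvPolynomial.C c * (MvPolynomial.X i * MvPolynomial.X j ^ 2) :
        MvPolynomial (Fin 3) F).totalDegree ≤ 3 := by
    intro c i j
    refine (MvPolynomial.totalDegree_mul _ _).trans ?_
    have := MvPolynomial.totalDegree_mul (MvPolynomial.X i : MvPolynomial (Fin 3) F)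
      (MvPolynomial.X j ^ 2)
    simp [MvPolynomial.totalDegree_X_pow] at this ⊢
    omega
  have d1 : f1.totalDegree ≤ 3 :=
    MvPolynomial.totalDegree_finsetSum_le fun i _ =>
      MvPolynomial.totalDegree_finsetSum_le fun j _ => deg _ _ _
  have d2 : f2.totalDegree ≤ 3 :=
    MvPolynomial.totalDegree_finsetSum_le fun i _ =>
      MvPolynomial.totalDegree_finsetSum_le fun j _ => deg _ _ _
  have hc := D.card4 H
  rw [Nat.card_eq_fintype_card] at hc
  have hs := MvPolynomial.sum_eval_eq_zero (f1 * f2) (by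
    have := MvPolynomial.totalDegree_mul f1 f2
    simp only [hc, Fintype.card_fin]
    omega)
  have e1 : ∀ x : Fin 3 → F, MvPolynomial.eval x f1 =
      B (M (x 0 • w1 + x 1 • w2 + x 2 • w3)) (x 0 • w1 + x 1 • w2 + x 2 • w3) := by
    intro x
    simp [f1, w, Fin.sum_univ_three, D.frob H (x _)]
    ring
  have e2 : ∀ x : Fin 3 → F, MvPolynomial.eval x f2 = σ (MvPolynomial.eval x f1) := by
    intro x
    have e3 : ∀ i, σ (x i) = x i ^ 2 := fun i => D.frob H _
    have e4 : ∀ i, (x i ^ 2) ^ 2 = x i := fun i => by rw [← e3, ← D.frob H, D.inv]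
    simp only [f1, f2, map_sum, map_mul, MvPolynomial.eval_C, MvPolynomial.eval_X, map_pow, e3, e4]
    refine Finset.sum_congr rfl fun i _ => Finset.sum_congr rfl fun j _ => ?_
    ring
  by_contra hh
  push Not at hh
  have e5 : ∀ x : Fin 3 → F, MvPolynomial.eval x (f1 * f2) = 1 - if x = 0 then 1 else 0 := by
    intro x
    rw [map_mul, e2, e1]
    split_ifs with hx
    · simp [hx]
    · rw [sub_zero]
      refine D.nrm H (hh _ _ _ fun h0 h1 h2 => hx ?_)
      funext i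
      fin_cases i <;> simp [h0, h1, h2]
  simp only [e5, Finset.sum_sub_distrib, Finset.sum_const, Finset.card_univ, Fintype.card_fun, hc,
    Finset.sum_ite_eq', Finset.mem_univ, if_true] at hs
  simp at hs
  exact one_ne_zero (α := F) (by linear_combination -hs + 32 * D.two H)

end four

end UD

end Pool.Agent.MP_db74b1_al

end
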