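import Pool.Agent.MP_db74b1_al.LtDefs
import Pool.Agent.Mg.Fdb74b1.G7e4531

set_option autoImplicit false

/-! The Arad-Herzog property for the Ree groups of type `G₂`. -/

namespace Pool.Agent.MP_db74b1_al.Lt

namespace Ree

open Pool.Agent.MP_db74b1_al.Exc Pool.Agent.MP_db74b1_al.Lt

variable {K : Type} [Field K]

/-- Short root elements in characteristic three. -/
def sf (i : Bool) (t : K) (x : Fin 8 → K) : Fin 8 → K :=
  if i then ![x 0 - t * x 2, x 1 - t * x 6, x 2, x 3 + t * x 4, x 4,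
    x 5 + t * x 0 - t * x 7 - t ^ 2 * x 2, x 6, x 7 + t * x 2]
  else ![x 0 + t * x 5, x 1, x 2 - t * x 0 + t * x 7 - t ^ 2 * x 5, x 3, x 4 + t * x 3, x 5,
    x 6 - t * x 1, x 7 - t * x 5]

theorem g2s_eq (h3 : (3 : K) = 0) (i : Bool) (t : K) : g2s i t = sf i t := by
  funext x
  cases i <;> ext j <;> fin_cases j <;> simp [g2s, sf, zorn, g2n] <;> grind

theorem sf_zorn (h3 : (3 : K) = 0) (i : Bool) (t : K) (x y : Fin 8 → K) :
    sf i t (zorn x y) = zorn (sf i t x) (sf i t y) := by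
  cases i <;> ext j <;> fin_cases j <;> simp [sf, zorn] <;> grind

theorem lf_zorn (i : Bool) (t : K) (x y : Fin 8 → K) :
    g2l i t (zorn x y) = zorn (g2l i t x) (g2l i t y) := by
  cases i <;> ext j <;> fin_cases j <;> simp [g2l, zorn] <;> ring

def pi (x y : Fin 8 → K) : Fin 8 → K :=
  ![(x 1 * y 4 - x 4 * y 1) - (x 2 * y 5 - x 5 * y 2), x 1 * y 6 - x 6 * y 1,
    x 3 * y 5 - x 5 * y 3, x 2 * y 4 - x 4 * y 2, x 3 * y 4 - x 4 * y 3, x 2 * y 6 - x 6 * y 2,
    x 1 * y 5 - x 5 * y 1, -((x 1 * y 4 - x 4 * y 1) - (x 2 * y 5 - x 5 * y 2))]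

theorem pi_sf (h3 : (3 : K) = 0) (i : Bool) (t : K) (x y : Fin 8 → K) (hx : x 0 + x 7 = 0)
    (hy : y 0 + y 7 = 0) (hc : zorn x y = zorn y x) :
    pi (sf i t x) (sf i t y) = g2l i (t ^ 3) (pi x y) := by
  have h0 := congrFun hc 0
  have h1 := congrFun hc 1
  have h2 := congrFun hc 2
  have h3' := congrFun hc 3
  have h4 := congrFun hc 4
  have h5 := congrFun hc 5
  have h6 := congrFun hc 6
  have hx7 : x 7 = -x 0 := by linear_combination hx
  have hy7 : y 7 = -y 0 := by linear_combination hy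
  simp [zorn, hx7, hy7] at h0 h1 h2 h3' h4 h5 h6
  cases i <;> ext j <;> fin_cases j <;> simp [sf, pi, g2l, hx7, hy7] <;> grind

theorem pi_lf (h3 : (3 : K) = 0) (i : Bool) (t : K) (x y : Fin 8 → K) (hx : x 0 + x 7 = 0)
    (hy : y 0 + y 7 = 0) (hc : zorn x y = zorn y x) :
    pi (g2l i t x) (g2l i t y) = sf i t (pi x y) := by
  have h0 := congrFun hc 0
  have h1 := congrFun hc 1
  have h2 := congrFun hc 2
  have h3' := congrFun hc 3
  have h4 := congrFun hc 4
  have h5 := congrFun hc 5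
  have h6 := congrFun hc 6
  have hx7 : x 7 = -x 0 := by linear_combination hx
  have hy7 : y 7 = -y 0 := by linear_combination hy
  simp [zorn, hx7, hy7] at h0 h1 h2 h3' h4 h5 h6
  cases i <;> ext j <;> fin_cases j <;> simp [sf, pi, g2l, hx7, hy7] <;> grind

/-- The basis vectors. -/
def ee (i : Fin 8) : Fin 8 → K := Pi.single i 1

/-- Automorphisms of the octonion algebra. -/
structure Good (g : (Fin 8 → K) ≃ₗ[K] (Fin 8 → K)) : Prop where
  mul : ∀ x y, g (zorn x y) = zorn (g x) (g y)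
  tr : ∀ x, g x 0 + g x 7 = x 0 + x 7
  one : g (ee 0 + ee 7) = ee 0 + ee 7

theorem Good.mul' {g g' : (Fin 8 → K) ≃ₗ[K] (Fin 8 → K)} (h : Good g) (h' : Good g') :
    Good (g * g') :=
  ⟨fun x y => by simp [LinearEquiv.mul_apply, h.mul, h'.mul],
    fun x => by simp only [LinearEquiv.mul_apply]; rw [h.tr, h'.tr],
    by simp only [LinearEquiv.mul_apply]; rw [h'.one, h.one]⟩

theorem app_inv (g : (Fin 8 → K) ≃ₗ[K] (Fin 8 → K)) (x : Fin 8 → K) : g (g⁻¹ x) = x :=
  g.apply_symm_apply x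

theorem inv_app (g : (Fin 8 → K) ≃ₗ[K] (Fin 8 → K)) (x : Fin 8 → K) : g⁻¹ (g x) = x :=
  g.symm_apply_apply x

theorem Good.inv {g : (Fin 8 → K) ≃ₗ[K] (Fin 8 → K)} (h : Good g) : Good g⁻¹ :=
  ⟨fun x y => g.injective (by rw [h.mul, app_inv, app_inv, app_inv]),
    fun x => by rw [← h.tr (g⁻¹ x), app_inv],
    g.injective (by rw [app_inv, h.one])⟩

def sE (i : Bool) (t : K) : (Fin 8 → K) ≃ₗ[K] (Fin 8 → K) where
  toFun := sf i t
  invFun := sf i (-t)
  map_add' x y := by cases i <;> ext j <;> fin_cases j <;> simp [sf] <;> ring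
  map_smul' c x := by cases i <;> ext j <;> fin_cases j <;> simp [sf] <;> ring
  left_inv x := by cases i <;> ext j <;> fin_cases j <;> simp [sf] <;> ring
  right_inv x := by cases i <;> ext j <;> fin_cases j <;> simp [sf] <;> ring

def lE (i : Bool) (t : K) : (Fin 8 → K) ≃ₗ[K] (Fin 8 → K) where
  toFun := g2l i t
  invFun := g2l i (-t)
  map_add' x y := by cases i <;> ext j <;> fin_cases j <;> simp [g2l] <;> ring
  map_smul' c x := by cases i <;> ext j <;> fin_cases j <;> simp [g2l] <;> ring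
  left_inv x := by cases i <;> ext j <;> fin_cases j <;> simp [g2l]
  right_inv x := by cases i <;> ext j <;> fin_cases j <;> simp [g2l]

theorem good_s (h3 : (3 : K) = 0) {g : (Fin 8 → K) ≃ₗ[K] (Fin 8 → K)} {i : Bool} {t : K}
    (hg : ⇑g = sf i t) : Good g :=
  ⟨fun x y => by rw [hg, sf_zorn h3], fun x => by rw [hg]; cases i <;> simp [sf],
    by rw [hg]; cases i <;> ext j <;> fin_cases j <;> simp [sf, ee]⟩

theorem good_l {g : (Fin 8 → K) ≃ₗ[K] (Fin 8 → K)} {i : Bool} {t : K}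
    (hg : ⇑g = g2l i t) : Good g :=
  ⟨fun x y => by rw [hg, lf_zorn], fun x => by rw [hg]; cases i <;> simp [g2l],
    by rw [hg]; cases i <;> ext j <;> fin_cases j <;> simp [g2l, ee]⟩

theorem good_gen (h3 : (3 : K) = 0) (g : gen (g2s (K := K)) g2l) : Good g.1 := by
  obtain ⟨g, hg⟩ := g
  induction hg using Subgroup.closure_induction with
  | mem g hg =>
    obtain ⟨i, t, h | h⟩ := hg
    · exact good_s h3 (h.trans (g2s_eq h3 i t))
    · exact good_l h
  | one => exact ⟨fun _ _ => rfl, fun _ => rfl, rfl⟩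
  | mul g g' _ _ h h' => exact h.mul' h'
  | inv g _ h => exact h.inv

def sC (h3 : (3 : K) = 0) (i : Bool) (t : K) : gen (g2s (K := K)) g2l :=
  ⟨sE i t, Subgroup.subset_closure ⟨i, t, Or.inl (g2s_eq h3 i t).symm⟩⟩

def lC (i : Bool) (t : K) : gen (g2s (K := K)) g2l :=
  ⟨lE i t, Subgroup.subset_closure ⟨i, t, Or.inr rfl⟩⟩

theorem sC_app (h3 : (3 : K) = 0) (i : Bool) (t : K) (x : Fin 8 → K) :
    (sC h3 i t).1 x = sf i t x := rfl

theorem lC_app (i : Bool) (t : K) (x : Fin 8 → K) : (lC i t).1 x = g2l i t x := rfl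

theorem mul_app (g g' : gen (g2s (K := K)) g2l) (x : Fin 8 → K) :
    (g * g').1 x = g.1 (g'.1 x) := rfl

/-- The relation between `g` and its image under the graph automorphism. -/
def Rel (ph : K →+* K) (g g' : (Fin 8 → K) ≃ₗ[K] (Fin 8 → K)) : Prop :=
  ∀ x y z : Fin 8 → K, x 0 + x 7 = 0 → y 0 + y 7 = 0 → zorn x y = zorn y x →
    pi x y = (fun j => ph (z j)) → pi (g x) (g y) = fun j => ph (g' z j)

section sigma

variable (ph : K →+* K) (h3 : (3 : K) = 0) (h : ∀ t, ph (ph t) = t ^ 3)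
  (hs : Function.Surjective ph) (σ : gen (g2s (K := K)) g2l →* gen (g2s (K := K)) g2l)
  (h1 : ∀ g, σ (σ g) = g)
  (h2 : ∀ (g : gen (g2s (K := K)) g2l) i t, ⇑g.1 = g2s i t → ⇑(σ g).1 = g2l i (ph t))

include h2 in
theorem sig_s (i : Bool) (t : K) : σ (sC h3 i t) = lC i (ph t) :=
  Subtype.ext (LinearEquiv.ext fun x =>
    congrFun (h2 (sC h3 i t) i t (g2s_eq h3 i t).symm) x)

include h1 h2 in
theorem sig_l (i : Bool) (t : K) : σ (lC i (ph t)) = sC h3 i t := by
  rw [← sig_s ph h3 σ h2, h1]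

include h3 h hs h1 h2 in
theorem rel_gen (g : gen (g2s (K := K)) g2l) : Rel ph g.1 (σ g).1 := by
  obtain ⟨g, hg⟩ := g
  induction hg using Subgroup.closure_induction with
  | mem g hg =>
    obtain ⟨i, t, hg' | hg'⟩ := hg
    · intro x y z hx hy hc hz
      rw [h2 _ i t hg']
      simp only [hg', g2s_eq h3]
      rw [pi_sf h3 i t x y hx hy hc, hz]
      cases i <;> ext j <;> fin_cases j <;> simp [g2l, h]
    · obtain ⟨t, rfl⟩ := hs t
      intro x y z hx hy hc hz
      have e : (⟨g, Subgroup.subset_closure ⟨i, ph t, Or.inr hg'⟩⟩ : gen (g2s (K := K)) g2l) =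
          lC i (ph t) := Subtype.ext (LinearEquiv.ext fun x => congrFun hg' x)
      rw [e, sig_l ph h3 σ h1 h2, lC_app, lC_app, pi_lf h3 i _ x y hx hy hc, hz, sC_app]
      cases i <;> ext j <;> fin_cases j <;> simp [sf]
  | one =>
    intro x y z _ _ _ hz
    have e : σ ⟨1, Subgroup.one_mem _⟩ = 1 := map_one σ
    rw [e]; exact hz
  | mul g g' hg hg' ih ih' =>
    intro x y z hx hy hc hz
    have G := good_gen h3 ⟨g', hg'⟩
    have e : σ ⟨g * g', Subgroup.mul_mem _ hg hg'⟩ = σ ⟨g, hg⟩ * σ ⟨g', hg'⟩ :=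
      map_mul σ ⟨g, hg⟩ ⟨g', hg'⟩
    rw [e]
    exact ih (g' x) (g' y) _ ((G.tr x).trans hx) ((G.tr y).trans hy)
      (by rw [← G.mul, ← G.mul, hc]) (ih' x y z hx hy hc hz)
  | inv g hg ih =>
    intro x y z hx hy hc hz
    have G := (good_gen h3 ⟨g, hg⟩).inv
    have e : σ ⟨g⁻¹, Subgroup.inv_mem _ hg⟩ = (σ ⟨g, hg⟩)⁻¹ := map_inv σ ⟨g, hg⟩
    rw [e]
    choose z' hz' using fun j => hs (pi (g⁻¹ x) (g⁻¹ y) j)
    have := ih (g⁻¹ x) (g⁻¹ y) z' ((G.tr x).trans hx) ((G.tr y).trans hy)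
      (by rw [← G.mul, ← G.mul, hc]) (funext fun j => (hz' j).symm)
    simp only [app_inv] at this
    have e2 : z = (σ ⟨g, hg⟩).1 z' := funext fun j =>
      ph.injective (by rw [← congrFun hz j, congrFun this j])
    have e3 : ((σ ⟨g, hg⟩)⁻¹).1 ((σ ⟨g, hg⟩).1 z') = z' := inv_app (σ ⟨g, hg⟩).1 z'
    ext j
    rw [← hz' j, e2, e3]

def na : gen (g2s (K := K)) g2l := sC h3 true 1 * sC h3 false (-1) * sC h3 true 1

def nb : gen (g2s (K := K)) g2l := lC true 1 * lC false (-1) * lC true 1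

theorem na_app (x : Fin 8 → K) :
    (na h3).1 x = ![x 7, -x 6, -x 5, x 4, -x 3, -x 2, x 1, x 0] := by
  simp only [na, mul_app, sC_app]
  ext j; fin_cases j <;> simp [sf] <;> grind

theorem nb_app (x : Fin 8 → K) :
    (nb (K := K)).1 x = ![x 0, x 1, x 3, -x 2, x 4, x 6, -x 5, x 7] := by
  simp only [nb, mul_app, lC_app]
  ext j; fin_cases j <;> simp [g2l]

include h2 in
theorem sig_na : σ (na h3) = nb := by
  simp only [na, nb, map_mul, sig_s ph h3 σ h2, map_one, map_neg]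

include h1 h2 in
theorem sig_nb : σ nb = na h3 := by
  rw [← sig_na ph h3 σ h2, h1]

/-- The longest element of the Weyl group. -/
def wf (x : Fin 8 → K) : Fin 8 → K := ![x 7, -x 4, -x 5, -x 6, -x 1, -x 2, -x 3, x 0]

include h3 h1 h2 in
theorem ex_W : ∃ W : gen (g2s (K := K)) g2l, σ W = W ∧ ∀ x, W.1 x = wf x := by
  have e1 : ∀ x, (na h3 * nb * (na h3 * nb) * (na h3 * nb)).1 x = wf x := fun x => by
    simp only [mul_app, na_app, nb_app]
    ext j; fin_cases j <;> simp [wf]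
  have e2 : ∀ x, (nb * na h3 * (nb * na h3) * (nb * na h3)).1 x = wf x := fun x => by
    simp only [mul_app, na_app, nb_app]
    ext j; fin_cases j <;> simp [wf]
  refine ⟨_, ?_, e1⟩
  simp only [map_mul, sig_na ph h3 σ h2, sig_nb ph h3 σ h1 h2]
  exact Subtype.ext (LinearEquiv.ext fun x => (e2 x).trans (e1 x).symm)

def xf' (t : K) (x : Fin 8 → K) : Fin 8 → K :=
  ![x 0 + t * x 4, x 1 - t * x 0 - t ^ 2 * x 4 + t * x 7, x 2, x 3, x 4, x 5 - t * x 3,
    x 6 + t * x 2, x 7 - t * x 4]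

def yf (s : K) (x : Fin 8 → K) : Fin 8 → K :=
  ![x 0, x 1 + s * x 3, x 2, x 3, x 4, x 5, x 6 - s * x 4, x 7]

/-- A one-parameter family of unipotent elements. -/
def zf (t s : K) (x : Fin 8 → K) : Fin 8 → K :=
  ![x 0 + t * x 4, x 1 - t * x 0 + s * x 3 - t ^ 2 * x 4 + t * x 7, x 2, x 3, x 4, x 5 - t * x 3,
    x 6 + t * x 2 - s * x 4, x 7 - t * x 4]

theorem conj_app (n g : gen (g2s (K := K)) g2l) (f : (Fin 8 → K) → Fin 8 → K)
    (hf : ∀ y, n.1 (g.1 y) = f (n.1 y)) (x : Fin 8 → K) : (n * g * n⁻¹).1 x = f x := by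
  have e : n.1 ((n⁻¹).1 x) = x := app_inv n.1 x
  rw [mul_app, mul_app, hf, e]

include h3 h1 h2 in
theorem ex_z (t : K) : ∃ z : gen (g2s (K := K)) g2l, σ z = z ∧ ∀ x, z.1 x = zf t (ph t) x := by
  have e1 : ∀ x, (na h3 * nb * sC h3 true t * (na h3 * nb)⁻¹).1 x = xf' t x :=
    conj_app _ _ _ fun y => by
      simp only [mul_app, na_app, nb_app, sC_app]
      ext j; fin_cases j <;> simp [sf, xf'] <;> ring
  have e2 : ∀ x, (nb * na h3 * lC true (ph t) * (nb * na h3)⁻¹).1 x = yf (ph t) x :=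
    conj_app _ _ _ fun y => by
      simp only [mul_app, na_app, nb_app, lC_app]
      ext j; fin_cases j <;> simp [g2l, yf]; ring
  refine ⟨(na h3 * nb * sC h3 true t * (na h3 * nb)⁻¹) *
    (nb * na h3 * lC true (ph t) * (nb * na h3)⁻¹), ?_, fun x => ?_⟩
  · simp only [map_mul, map_inv, sig_na ph h3 σ h2, sig_nb ph h3 σ h1 h2, sig_s ph h3 σ h2,
      sig_l ph h3 σ h1 h2]
    refine Subtype.ext (LinearEquiv.ext fun x => ?_)
    rw [mul_app, e2, e1, mul_app, e1, e2]
    ext j; fin_cases j <;> simp [xf', yf] <;> ring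
  · rw [mul_app, e1, e2]
    ext j; fin_cases j <;> simp [xf', yf, zf] <;> ring

end sigma

theorem claim (ph : K →+* K) {g : (Fin 8 → K) ≃ₗ[K] (Fin 8 → K)} (G : Good g) (R : Rel ph g g)
    (h4 : g (ee 1) 4 = 0) : ∃ l : K, g (ee 1) = l • ee 1 := by
  have z16 : zorn (ee 1) (ee 6) = (0 : Fin 8 → K) := by
    ext j; fin_cases j <;> simp [zorn, ee]
  have z61 : zorn (ee 6) (ee 1) = (0 : Fin 8 → K) := by
    ext j; fin_cases j <;> simp [zorn, ee]
  have z11 : zorn (ee 1) (ee 1) = (0 : Fin 8 → K) := by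
    ext j; fin_cases j <;> simp [zorn, ee]
  have z66 : zorn (ee 6) (ee 6) = (0 : Fin 8 → K) := by
    ext j; fin_cases j <;> simp [zorn, ee]
  have hp := R (ee 1) (ee 6) (ee 1) (by simp [ee]) (by simp [ee]) (by rw [z16, z61])
    (by ext j; fin_cases j <;> simp [pi, ee])
  have a := G.mul (ee 1) (ee 6)
  have b := G.mul (ee 1) (ee 1)
  have c := G.mul (ee 6) (ee 6)
  have t1 := G.tr (ee 1)
  have t2 := G.tr (ee 6)
  rw [z16, map_zero] at a
  rw [z11, map_zero] at b
  rw [z66, map_zero] at c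
  generalize g (ee 1) = w at *
  generalize g (ee 6) = v at *
  have w7 : w 7 = -w 0 := by simp [ee] at t1; linear_combination t1
  have v7 : v 7 = -v 0 := by simp [ee] at t2; linear_combination t2
  have p0 : (w 1 * v 4 - w 4 * v 1) - (w 2 * v 5 - w 5 * v 2) = ph (w 0) := congrFun hp 0
  have p2 : w 3 * v 5 - w 5 * v 3 = ph (w 2) := congrFun hp 2
  have p3 : w 2 * v 4 - w 4 * v 2 = ph (w 3) := congrFun hp 3
  have p4 : w 3 * v 4 - w 4 * v 3 = ph (w 4) := congrFun hp 4
  have p5 : w 2 * v 6 - w 6 * v 2 = ph (w 5) := congrFun hp 5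
  have p6 : w 1 * v 5 - w 5 * v 1 = ph (w 6) := congrFun hp 6
  have a0 : 0 = w 0 * v 0 + (w 1 * v 4 + w 2 * v 5 + w 3 * v 6) := congrFun a 0
  have a1 : 0 = w 0 * v 1 + v 7 * w 1 + (w 5 * v 6 - w 6 * v 5) := congrFun a 1
  have a2 : 0 = w 0 * v 2 + v 7 * w 2 + (w 6 * v 4 - w 4 * v 6) := congrFun a 2
  have a4 : 0 = v 0 * w 4 + w 7 * v 4 - (w 2 * v 3 - w 3 * v 2) := congrFun a 4
  have a7 : 0 = w 7 * v 7 + (v 1 * w 4 + v 2 * w 5 + v 3 * w 6) := congrFun a 7
  have b0 : 0 = w 0 * w 0 + (w 1 * w 4 + w 2 * w 5 + w 3 * w 6) := congrFun b 0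
  have c0 : 0 = v 0 * v 0 + (v 1 * v 4 + v 2 * v 5 + v 3 * v 6) := congrFun c 0
  have hz : ∀ {u : K}, ph u = 0 → u = 0 := fun hu => (map_eq_zero ph).1 hu
  rw [h4, map_zero] at p4
  have w3 : w 3 = 0 := by
    by_contra hne
    have : v 4 = 0 := by
      have : w 3 * v 4 = 0 := by linear_combination p4
      exact (mul_eq_zero.1 this).resolve_left hne
    exact hne (hz (by rw [← p3, this, h4]; ring))
  rw [w3, map_zero] at p3
  have w2 : w 2 = 0 := by
    by_contra hne
    have v4 : v 4 = 0 := by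
      have : w 2 * v 4 = 0 := by rw [h4] at p3; linear_combination p3
      exact (mul_eq_zero.1 this).resolve_left hne
    have v3 : v 3 = 0 := by
      have : w 2 * v 3 = 0 := by rw [h4, v4, w3] at a4; linear_combination a4
      exact (mul_eq_zero.1 this).resolve_left hne
    exact hne (hz (by rw [← p2, v3, w3]; ring))
  have w0 : w 0 = 0 := by
    rw [h4, w2, w3] at b0
    exact mul_self_eq_zero.1 (by linear_combination -b0)
  rw [w0, neg_zero] at w7
  rw [w0, map_zero, h4, w2] at p0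
  rw [w0, w2, w3] at a0
  rw [w7, h4] at a7
  have e52 : w 5 * v 2 = 0 := by linear_combination p0 + a0
  have w5 : w 5 = 0 := by
    by_contra hne
    have v2 : v 2 = 0 := (mul_eq_zero.1 e52).resolve_left hne
    exact hne (hz (by rw [← p5, v2, w2]; ring))
  have w6 : w 6 = 0 := by
    by_contra hne
    have v2 : v 2 = 0 := by
      have : w 6 * v 2 = 0 := by rw [w5, map_zero, w2] at p5; linear_combination -p5
      exact (mul_eq_zero.1 this).resolve_left hne
    have v3 : v 3 = 0 := by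
      have : w 6 * v 3 = 0 := by rw [w5] at a7; linear_combination -a7
      exact (mul_eq_zero.1 this).resolve_left hne
    have v4 : v 4 = 0 := by
      have : w 6 * v 4 = 0 := by rw [w0, w2, h4] at a2; linear_combination -a2
      exact (mul_eq_zero.1 this).resolve_left hne
    have v0 : v 0 = 0 := by
      rw [v2, v3, v4] at c0
      exact mul_self_eq_zero.1 (by linear_combination -c0)
    have v5 : v 5 = 0 := by
      have : w 6 * v 5 = 0 := by rw [w0, v7, v0, w5] at a1; linear_combination a1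
      exact (mul_eq_zero.1 this).resolve_left hne
    exact hne (hz (by rw [← p6, v5, w5]; ring))
  refine ⟨w 1, ?_⟩
  ext j; fin_cases j <;> simp [ee, w0, w2, w3, h4, w5, w6, w7]

theorem poly_c4 (ph : K →+* K) (h3 : (3 : K) = 0) (hx : ∃ x : K, x ^ 3 ≠ x)
    (hp : ∃ x : K, ph x ≠ x) (hq : ∃ x : K, ph x ≠ x ^ 3) (c0 c1 c2 c3 c4 d0 d1 d2 e c : K)
    (H : ∀ t, c0 + c1 * t + c2 * t ^ 2 + c3 * t ^ 3 + c4 * t ^ 4 +
      ph t * (d0 + d1 * t + d2 * t ^ 2) + e * ph t ^ 2 = c) : c4 = 0 := by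
  have D2 : ∀ u v, 2 * c2 * u * v + c4 * (u * v ^ 3 + u ^ 3 * v) + d1 * (u * ph v + v * ph u) +
      d2 * (u ^ 2 * ph v + 2 * u * v * ph u + 2 * u * v * ph v + v ^ 2 * ph u) +
      2 * e * ph u * ph v = 0 := fun u v => by
    have a := H (u + v)
    have b := H u
    have b' := H v
    have d := H 0
    rw [map_add] at a
    rw [map_zero] at d
    linear_combination a - b - b' + d -
      (c3 * (u ^ 2 * v + u * v ^ 2) + c4 * (u ^ 3 * v + 2 * u ^ 2 * v ^ 2 + u * v ^ 3)) * h3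
  have hd2 : d2 = 0 := by
    obtain ⟨u, hu⟩ := hp
    have a := D2 u (1 + 1)
    have b := D2 u 1
    rw [map_add, map_one] at a
    rw [map_one] at b
    have : d2 * (ph u - u) = 0 := by
      linear_combination (-1 : K) * a + 2 * b + (2 * c4 * u + d2 * ph u + d2 * u) * h3
    exact (mul_eq_zero.1 this).resolve_right (sub_ne_zero.2 hu)
  obtain ⟨x, hx⟩ := hx
  obtain ⟨u, hu⟩ := hq
  have E : ∀ u, (2 * c2 + c4 + d1) * u + (d1 + 2 * e) * ph u + c4 * u ^ 3 = 0 := fun u => by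
    have b := D2 u 1
    rw [map_one, hd2] at b
    linear_combination b
  have a := E (x * u)
  have b := E u
  have a' := E x
  have b' := E 1
  rw [map_mul] at a
  rw [map_one] at b'
  have : c4 * ((x ^ 3 - x) * (u ^ 3 - ph u)) = 0 := by
    linear_combination a - x * b - ph u * a' + ph u * x * b'
  rcases mul_eq_zero.1 this with h | h
  · exact h
  · exact absurd h (mul_ne_zero (sub_ne_zero.2 hx) (sub_ne_zero.2 hu.symm))

def mA : Module.End K (Fin 8 → K) where
  toFun x := ![x 4, x 7 - x 0, 0, 0, 0, -x 3, x 2, -x 4]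
  map_add' x y := by ext j; fin_cases j <;> simp <;> ring
  map_smul' c x := by ext j; fin_cases j <;> simp; ring

def mE : Module.End K (Fin 8 → K) := (LinearMap.proj 4 : (Fin 8 → K) →ₗ[K] K).smulRight (-ee 1)

def mC : Module.End K (Fin 8 → K) where
  toFun x := ![0, x 3, 0, 0, 0, 0, -x 4, 0]
  map_add' x y := by ext j; fin_cases j <;> simp; ring
  map_smul' c x := by ext j; fin_cases j <;> simp

theorem zf_eq (t s : K) (x : Fin 8 → K) :
    zf t s x = (1 + t • mA + t ^ 2 • mE + s • mC : Module.End K (Fin 8 → K)) x := by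
  ext j
  have : (1 + t • mA + t ^ 2 • mE + s • mC : Module.End K (Fin 8 → K)) x j =
      x j + t * mA x j + t ^ 2 * (x 4 * -ee 1 j) + s * mC x j := rfl
  rw [this]
  fin_cases j <;> simp [zf, mA, mC, ee] <;> ring

theorem zf_zf (t s : K) (x : Fin 8 → K) : zf t s (zf (-t) (-s) x) = x := by
  ext j; fin_cases j <;> simp [zf] <;> ring

theorem tr_E (p q : Module.End K (Fin 8 → K)) :
    LinearMap.trace K _ (p * (mE * (q * mE))) = p (ee 1) 4 * q (ee 1) 4 := by
  have : p * (mE * (q * mE)) = (LinearMap.proj 4 : (Fin 8 → K) →ₗ[K] K).smulRight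
      (q (ee 1) 4 • p (ee 1)) := by
    refine LinearMap.ext fun x => ?_
    simp [mE, smul_smul]
  rw [this, LinearMap.trace_smulRight]
  simp [mul_comm]

theorem core (ph : K →+* K) (h3 : (3 : K) = 0) (hx : ∃ x : K, x ^ 3 ≠ x)
    (hp : ∃ x : K, ph x ≠ x) (hq : ∃ x : K, ph x ≠ x ^ 3) (H : Type) [Group H]
    (ρ : H →* ((Fin 8 → K) ≃ₗ[K] (Fin 8 → K))) (hρ : Function.Injective ρ)
    (hG : ∀ g, Good (ρ g)) (hR : ∀ g, Rel ph (ρ g) (ρ g))
    (hW : ∃ W, ∀ x, ρ W x = wf x) (hz : ∀ t, ∃ z, ∀ x, ρ z x = zf t (ph t) x) : AH H := by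
  obtain ⟨W, hW⟩ := hW
  choose z hz using hz
  have ma : ∀ g g' x, ρ (g * g') x = ρ g (ρ g' x) := fun g g' x => by rw [map_mul]; rfl
  have ia : ∀ g x, ρ g (ρ g⁻¹ x) = x := fun g x => by rw [← ma, mul_inv_cancel, map_one]; rfl
  -- the final step
  have key : ∀ a : H, (∀ p, IsConj a p → ρ p (ee 1) 4 = 0) → a = 1 := by
    have line : ∀ a : H, (∀ p, IsConj a p → ρ p (ee 1) 4 = 0) → ∀ g : H,
        ∃ l : K, ρ a (ρ g (ee 1)) = l • ρ g (ee 1) := fun a ha g => by
      obtain ⟨l, hl⟩ := claim ph (hG _) (hR _) (ha (g⁻¹ * a * g) (isConj_iff.2 ⟨g⁻¹, by simp⟩))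
      refine ⟨l, ?_⟩
      rw [← map_smul, ← hl, ma, ma, ia]
    have We1 : ρ W (ee 1) = -ee 4 := by
      rw [hW]; ext j; fin_cases j <;> simp [wf, ee]
    have step : ∀ a : H, (∀ p, IsConj a p → ρ p (ee 1) 4 = 0) →
        ρ a (ee 0 - ee 7) = ee 0 - ee 7 ∧ ρ a (ee 1) = ee 1 ∧ ρ a (ee 6) = ee 6 := by
      intro a ha
      obtain ⟨l, hl⟩ := line a ha 1
      rw [map_one] at hl
      change ρ a (ee 1) = l • ee 1 at hl
      have lm : ∀ (y : Fin 8 → K) (m : K), y 4 = 1 → ρ a y = m • y → l * m = 1 := by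
        intro y m hy hm
        have := (hG a).tr (zorn (ee 1) y)
        rw [(hG a).mul, hl, hm] at this
        simpa [zorn, ee, hy] using this
      obtain ⟨m, hm⟩ := line a ha W
      rw [We1, map_neg, smul_neg, neg_inj] at hm
      have hlm := lm _ m (by simp [ee]) hm
      have hl0 : l ≠ 0 := left_ne_zero_of_mul_eq_one hlm
      have F : ∀ t : K, t • (ρ a (ee 0 - ee 7) - m • (ee 0 - ee 7)) -
          t ^ 2 • (ρ a (ee 1) - m • ee 1) - ph t • (ρ a (ee 6) - m • ee 6) = 0 := fun t => by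
        obtain ⟨m', hm'⟩ := line a ha (z t * W)
        rw [ma, We1, map_neg, map_neg, smul_neg, neg_inj, hz] at hm'
        have e : m' = m := mul_left_cancel₀ hl0
          ((lm _ m' (by simp [zf, ee]) hm').trans hlm.symm)
        have e2 : zf t (ph t) (ee 4) = ee 4 + t • (ee 0 - ee 7) - t ^ 2 • ee 1 - ph t • ee 6 := by
          ext j; fin_cases j <;> simp [zf, ee]
        rw [e, e2, map_sub, map_sub, map_add, map_smul, map_smul, map_smul, hm] at hm'
        linear_combination (norm := module) hm'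
      have h2 : (2 : K) ≠ 0 := fun h => one_ne_zero (by linear_combination h3 - h : (1 : K) = 0)
      have F1 := F 1
      have F2 := F (-1)
      rw [map_one] at F1
      rw [map_neg, map_one] at F2
      have e1 : ρ a (ee 1) - m • ee 1 = 0 := by
        have : (2 : K) • (ρ a (ee 1) - m • ee 1) = 0 := by
          linear_combination (norm := module) -F1 - F2
        exact (smul_eq_zero.1 this).resolve_left h2
      obtain ⟨u, hu⟩ := hp
      have F3 := F u
      rw [e1] at F1 F3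
      have e0 : ρ a (ee 0 - ee 7) - m • (ee 0 - ee 7) = 0 := by
        have : (ph u - u) • (ρ a (ee 0 - ee 7) - m • (ee 0 - ee 7)) = 0 := by
          linear_combination (norm := module) ph u • F1 - F3
        exact (smul_eq_zero.1 this).resolve_left (sub_ne_zero.2 hu)
      rw [e0] at F1
      have e6 : ρ a (ee 6) - m • ee 6 = 0 := by linear_combination (norm := module) -F1
      rw [sub_eq_zero] at e0 e1 e6
      have hm1 : m = 1 := by
        have a1 := (hG a).mul (ee 0 - ee 7) (ee 1)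
        have z1 : zorn (ee 0 - ee 7) (ee 1) = (ee 1 : Fin 8 → K) := by
          ext j; fin_cases j <;> simp [zorn, ee]
        rw [z1, e0, e1] at a1
        have a2 := congrFun a1 1
        have a3 := congrFun (hl.symm.trans e1) 1
        simp [zorn, ee] at a2 a3
        rw [a3] at hlm
        rw [a2, hlm]
      simpa [hm1] using And.intro e0 (And.intro e1 e6)
    intro a ha
    obtain ⟨f0, f1, f6⟩ := step a ha
    obtain ⟨-, g1, g6⟩ := step (W⁻¹ * a * W) fun p hp' =>
      ha p ((isConj_iff.2 ⟨W⁻¹, by simp⟩ : IsConj a (W⁻¹ * a * W)).trans hp')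
    have We6 : ρ W (ee 6) = -ee 3 := by
      rw [hW]; ext j; fin_cases j <;> simp [wf, ee]
    have f4 : ρ a (ee 4) = ee 4 := by
      have := congrArg (ρ W) g1
      rwa [ma, ma, ia, We1, map_neg, neg_inj] at this
    have f3 : ρ a (ee 3) = ee 3 := by
      have := congrArg (ρ W) g6
      rwa [ma, ma, ia, We6, map_neg, neg_inj] at this
    have f5 : ρ a (ee 5) = ee 5 := by
      have z1 : zorn (ee 1) (ee 3) = (ee 5 : Fin 8 → K) := by
        ext j; fin_cases j <;> simp [zorn, ee]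
      rw [← z1, (hG a).mul, f1, f3]
    have f2 : ρ a (ee 2) = ee 2 := by
      have z1 : zorn (ee 6) (ee 4) = (ee 2 : Fin 8 → K) := by
        ext j; fin_cases j <;> simp [zorn, ee]
      rw [← z1, (hG a).mul, f6, f4]
    have f00 : ρ a (ee 0) = ee 0 := by
      have z1 : zorn (ee 1) (ee 4) = (ee 0 : Fin 8 → K) := by
        ext j; fin_cases j <;> simp [zorn, ee]
      rw [← z1, (hG a).mul, f1, f4]
    have f7 : ρ a (ee 7) = ee 7 := by
      rw [map_sub, f00] at f0
      exact sub_right_injective f0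
    refine hρ ?_
    rw [map_one]
    refine LinearEquiv.toLinearMap_injective ((Pi.basisFun K (Fin 8)).ext fun i => ?_)
    rw [Pi.basisFun_apply]
    fin_cases i
    exacts [f00, f1, f2, f3, f4, f5, f6, f7]
  intro a b c ha hb hE
  have T : ∀ p q, IsConj a p → IsConj b q → ρ p (ee 1) 4 * ρ q (ee 1) 4 = 0 := by
    intro p q hp' hq'
    have tc : ∀ t, LinearMap.trace K _ ((ρ p).toLinearMap *
        ((1 + t • mA + t ^ 2 • mE + ph t • mC) * ((ρ q).toLinearMap *
          (1 + (-t) • mA + (-t) ^ 2 • mE + (-ph t) • mC)))) =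
        LinearMap.trace K _ (ρ c).toLinearMap := fun t => by
      have hc : IsConj c (p * (z t * q * (z t)⁻¹)) := by
        have : p * (z t * q * (z t)⁻¹) ∈ {g | IsConj c g} := by
          rw [← hE]
          exact ⟨p, _, hp', hq'.trans (isConj_iff.2 ⟨z t, rfl⟩), rfl⟩
        exact this
      obtain ⟨k, hk⟩ := isConj_iff.1 hc
      have e1 : (ρ p).toLinearMap * ((1 + t • mA + t ^ 2 • mE + ph t • mC) * ((ρ q).toLinearMap *
          (1 + (-t) • mA + (-t) ^ 2 • mE + (-ph t) • mC))) =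
          (ρ k).toLinearMap * ((ρ c).toLinearMap * (ρ k⁻¹).toLinearMap) := by
        refine LinearMap.ext fun x => ?_
        have e2 : ρ (z t)⁻¹ x = zf (-t) (-ph t) x :=
          (ρ (z t)).injective (by rw [ia, hz, zf_zf])
        simp only [Module.End.mul_apply, ← zf_eq, LinearEquiv.coe_coe]
        rw [← e2, ← hz, ← ma, ← ma, ← ma, ← ma, ← ma, hk, mul_assoc p, mul_assoc p,
          mul_assoc (z t)]
      have e3 : (ρ k⁻¹).toLinearMap * (ρ k).toLinearMap = 1 := by
        refine LinearMap.ext fun x => ?_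
        have := ia k⁻¹ x
        rwa [inv_inv] at this
      rw [e1, LinearMap.trace_mul_comm, mul_assoc, e3, mul_one]
    rw [← show _ = ρ p (ee 1) 4 * ρ q (ee 1) 4 from tr_E (ρ p).toLinearMap (ρ q).toLinearMap]
    generalize (ρ p).toLinearMap = P at *
    generalize (ρ q).toLinearMap = Q at *
    let β : Module.End K (Fin 8 → K) → Module.End K (Fin 8 → K) → K :=
      fun X Y => LinearMap.trace K _ (P * (X * (Q * Y)))
    refine poly_c4 ph h3 hx hp hq (β 1 1) (β mA 1 - β 1 mA) (β mE 1 + β 1 mE - β mA mA)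
      (β mA mE - β mE mA) (β mE mE) (β mC 1 - β 1 mC) (-β mA mC - β mC mA) (β mC mE - β mE mC)
      (-β mC mC) (LinearMap.trace K _ (ρ c).toLinearMap) fun t => ?_
    rw [← tc t]
    simp only [β, mul_add, add_mul, mul_smul_comm, smul_mul_assoc, map_add, map_smul, smul_eq_mul]
    ring
  by_cases hA : ∀ p, IsConj a p → ρ p (ee 1) 4 = 0
  · exact ha (key a hA)
  · push Not at hA
    obtain ⟨p, hp', hne⟩ := hA
    exact hb (key b fun q hq' => (mul_eq_zero.1 (T p q hp' hq')).resolve_left hne)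

theorem ex_cube [Finite K] (hK : 3 < Nat.card K) : ∃ x : K, x ^ 3 ≠ x := by
  classical
  by_contra hc
  push Not at hc
  have hsub : (Set.univ : Set K) ⊆ {0, 1, -1} := fun x _ => by
    have : x * ((x - 1) * (x + 1)) = 0 := by linear_combination hc x
    rcases mul_eq_zero.1 this with h | h
    · exact Or.inl h
    · rcases mul_eq_zero.1 h with h | h
      · exact Or.inr (Or.inl (sub_eq_zero.1 h))
      · exact Or.inr (Or.inr (eq_neg_of_add_eq_zero_left h))
  have h1 := Set.ncard_le_ncard hsub (Set.toFinite _)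
  have h2 := Set.ncard_insert_le (0 : K) {1, -1}
  have h4 := Set.ncard_insert_le (1 : K) {-1}
  rw [Set.ncard_singleton] at h4
  rw [Set.ncard_univ] at h1
  omega

end Ree

theorem ree_AH {K : Type} [Field K] [Finite K] (ph : K →+* K) (h : ∀ t, ph (ph t) = t ^ 3)
    (hK : 3 < Nat.card K) (G : Type) [Group G] (hG : IsSR G (g2s (K := K)) g2l ph) :
    Exc.AH G := by
  obtain ⟨σ, h1, h2, ⟨f⟩⟩ := hG
  obtain ⟨x, hx⟩ := Ree.ex_cube hK
  have h3 : (3 : K) = 0 := by
    have a := h (x + 1)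
    rw [map_add, map_add, h, map_one, map_one] at a
    have b : 3 * (x * (x + 1)) = 0 := by linear_combination -a
    refine (mul_eq_zero.1 b).resolve_right (mul_ne_zero ?_ ?_)
    · rintro rfl; exact hx (by ring)
    · intro e
      obtain rfl : x = -1 := eq_neg_of_add_eq_zero_left e
      exact hx (by ring)
  have hs : Function.Surjective ph := Finite.surjective_of_injective ph.injective
  have hp : ∃ x : K, ph x ≠ x := by
    by_contra hc
    push Not at hc
    exact hx (by rw [← h x, hc, hc])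
  have hq : ∃ x : K, ph x ≠ x ^ 3 := by
    by_contra hc
    push Not at hc
    obtain ⟨y, hy⟩ := hp
    exact hy (ph.injective (by rw [h, hc]))
  refine Exc.AH_congr f.symm (Ree.core ph h3 ⟨x, hx⟩ hp hq _
    ((gen (g2s (K := K)) g2l).subtype.comp (σ.eqLocus (MonoidHom.id _)).subtype)
    (Subtype.val_injective.comp Subtype.val_injective) (fun g => Ree.good_gen h3 g.1)
    (fun g => ?_) ?_ fun t => ?_)
  · have := Ree.rel_gen ph h3 h hs σ h1 h2 g.1
    rwa [show σ g.1 = g.1 from g.2] at this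
  · obtain ⟨W, e, hW⟩ := Ree.ex_W ph h3 σ h1 h2
    exact ⟨⟨W, e⟩, hW⟩
  · obtain ⟨z, e, hz⟩ := Ree.ex_z ph h3 σ h1 h2 t
    exact ⟨⟨z, e⟩, hz⟩

end Pool.Agent.MP_db74b1_al.Lt
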