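import Pool.Agent.Mg.Fdb74b1.G83eb68

section

/-! Normal forms for elements of `G₂(q)` and `³D₄(q)`. -/

set_option autoImplicit false
set_option linter.unnecessarySeqFocus false
set_option linter.unusedSimpArgs false
set_option linter.unusedSectionVars false

namespace Pool.Agent.MP_db74b1_al.Lt.Tri

variable {K : Type} [Field K] {τ : K →+* K}

namespace B

theorem fixed_div {a b : K} (hb : b ≠ 0) (h : τ b * τ (τ a) - τ a * τ (τ b) = 0) :
    τ (a / b) = a / b := by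
  have h1 : b * τ a = a * τ b := τ.injective (by rw [map_mul, map_mul]; exact sub_eq_zero.1 h)
  have h2 : τ b ≠ 0 := (map_ne_zero τ).2 hb
  rw [map_div₀, div_eq_div_iff h2 hb, ← h1, mul_comm]

theorem tw_zero {g : GO K} (hg : g ∈ tri τ) {x y : O K} (h : tw τ x y = 0) :
    tw τ (g x) (g y) = 0 := by rw [← tw_au hg, h, map_zero]

theorem tw_e {i j : Fin 8} (h : (i, j) ∈ ({(1, 1), (2, 2), (3, 3), (6, 6), (1, 6), (6, 1), (2, 6),
    (6, 2), (3, 5), (5, 3)} : Finset (Fin 8 × Fin 8))) : tw τ (e i) (e j) = 0 := by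
  simp only [Finset.mem_insert, Finset.mem_singleton, Prod.mk.injEq] at h
  rcases h with h | h | h | h | h | h | h | h | h | h <;> obtain ⟨rfl, rfl⟩ := h <;>
    apply ext8 <;> simp [e, tw0, tw1, tw2, tw3, tw4, tw5, tw6, tw7]

/-- the conclusion of `clear` -/
def Cl (τ : K →+* K) (w : O K) : Prop :=
  ∃ u ∈ tri τ, u (e 1) = e 1 ∧ (∃ c : K, u (e 6) = e 6 + c • e 1) ∧ u w = w 4 • e 4

theorem Cl.step {w : O K} {v : GO K} (hv : v ∈ tri τ) (h1 : v (e 1) = e 1) (c : K)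
    (h6 : v (e 6) = e 6 + c • e 1) (h4 : v w 4 = w 4) (h : Cl τ (v w)) : Cl τ w := by
  obtain ⟨u, hu, k1, ⟨d, k6⟩, k⟩ := h
  refine ⟨u * v, mul_mem hu hv, ?_, ⟨d + c, ?_⟩, ?_⟩
  · rw [LinearEquiv.mul_apply, h1, k1]
  · rw [LinearEquiv.mul_apply, h6, map_add, map_smul, k6, k1, add_smul, add_assoc]
  · rw [LinearEquiv.mul_apply, k, h4]

theorem cl0 {w : O K} (hw : tw τ w w = 0) (h4 : w 4 ≠ 0) (h0 : w 0 = 0) (h2 : w 2 = 0)
    (h3 : w 3 = 0) : Cl τ w := by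
  have k0 := congrFun hw 0
  have k2 := congrFun hw 2
  have k3 := congrFun hw 3
  have k4 := congrFun hw 4
  rw [tw4] at k4
  have h7 : w 7 = 0 := by simpa [h0, h2, h3, h4] using k4
  rw [tw0] at k0
  have h1 : w 1 = 0 := by simpa [h7, h2, h3, h4] using k0
  rw [tw2] at k2
  rw [tw3] at k3
  simp only [h0, h2, h3, h7, map_zero, mul_zero, sub_zero, Pi.zero_apply] at k2 k3
  have f5 := fixed_div h4 k3
  have f6 : τ (w 6 / w 4) = w 6 / w 4 := fixed_div h4 (by linear_combination -k2)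
  refine ⟨l13 (w 6 / w 4) * l12 (w 5 / w 4), mul_mem (l13_mem f6) (l12_mem f5), ?_, ⟨0, ?_⟩, ?_⟩ <;>
    apply ext8 <;> simp [e, l12_apply, l13_apply, h0, h1, h2, h3, h4, h7]

end B

open B

variable (h3 : ∀ t, τ (τ (τ t)) = t)
include h3

theorem fix4 {g : GO K} (hg : g ∈ tri τ) (h2 : g (e 2) = e 2) (h3' : g (e 3) = e 3)
    (h5 : g (e 5) = e 5) (h6 : g (e 6) = e 6) : g = 1 := by
  have k : ∀ i j l, g (e i) = e i → g (e j) = e j → tw τ (e i) (e j) = e l → g (e l) = e l :=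
    fun i j l hi hj h => by rw [← h, tw_au hg, hi, hj]
  have h1 := k 5 6 1 h5 h6 (by apply ext8 <;> simp [e, tw0, tw1, tw2, tw3, tw4, tw5, tw6, tw7])
  have h4 := k 3 2 4 h3' h2 (by apply ext8 <;> simp [e, tw0, tw1, tw2, tw3, tw4, tw5, tw6, tw7])
  have h0 := k 2 5 0 h2 h5 (by apply ext8 <;> simp [e, tw0, tw1, tw2, tw3, tw4, tw5, tw6, tw7])
  have h7 := k 5 2 7 h5 h2 (by apply ext8 <;> simp [e, tw0, tw1, tw2, tw3, tw4, tw5, tw6, tw7])
  refine (Pi.basisFun K (Fin 8)).ext' fun i => ?_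
  rw [Pi.basisFun_apply]
  fin_cases i <;> assumption

theorem stab {g : GO K} (hg : g ∈ tri τ) (h5 : g (e 5) = e 5) (h6 : g (e 6) = e 6) :
    ∃ s k m : K, τ k = k ∧ τ m = m ∧ g = xu1 τ s * l12 k * l13 m := by
  have a1 := tw_zero hg (tw_e (i := 2) (j := 6) (by decide))
  have a2 := tw_zero hg (tw_e (i := 6) (j := 2) (by decide))
  have a3 := tw_zero hg (tw_e (i := 2) (j := 2) (by decide))
  have a4 := Bf_au h3 hg (e 2) (e 5)
  have b1 := tw_zero hg (tw_e (i := 3) (j := 5) (by decide))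
  have b2 := tw_zero hg (tw_e (i := 5) (j := 3) (by decide))
  have b3 := tw_zero hg (tw_e (i := 3) (j := 3) (by decide))
  have b4 := Bf_au h3 hg (e 3) (e 6)
  have c := Bf_au h3 hg (e 2) (e 3)
  rw [h6] at a1 a2 b4
  rw [h5] at b1 b2 a4
  generalize hx : g (e 2) = x at a1 a2 a3 a4 c
  generalize hy : g (e 3) = y at b1 b2 b3 b4 c
  have x3 : x 3 = 0 := by simpa [tw0, e] using congrFun a1 0
  have x5 : x 5 = 0 := by simpa [tw1, e] using congrFun a1 1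
  have x4 : x 4 = 0 := by simpa [tw2, e] using congrFun a1 2
  have x0 : x 0 = 0 := by simpa [tw6, e] using congrFun a1 6
  have x7 : x 7 = 0 := by simpa [tw6, e] using congrFun a2 6
  have x2 : x 2 = 1 := by simpa [Bf, e] using a4
  have x1 : τ (x 1) = x 1 :=
    τ.injective (by simpa [tw6, x2, x0, x7, sub_eq_zero] using congrFun a3 6)
  have y2 : y 2 = 0 := by simpa [tw0, e] using congrFun b1 0
  have y6 : y 6 = 0 := by simpa [tw1, e] using congrFun b1 1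
  have y4 : y 4 = 0 := by simpa [tw3, e] using congrFun b1 3
  have y0 : y 0 = 0 := by simpa [tw5, e] using congrFun b1 5
  have y7 : y 7 = 0 := by simpa [tw5, e] using congrFun b2 5
  have y3 : y 3 = 1 := by simpa [Bf, e] using b4
  have y1 : τ (y 1) = y 1 :=
    (τ.injective (by simpa [tw5, y3, y0, y7, sub_eq_zero] using congrFun b3 5)).symm
  have y5 : y 5 = -x 6 := by
    simp [Bf, e, x0, x2, x3, x4, x5, x7, y3, y4] at c
    linear_combination -c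
  refine ⟨x 6, x 1, y 1, x1, y1, ?_⟩
  have hm := mul_mem (mul_mem (xu1_mem h3 (x 6)) (l12_mem x1)) (l13_mem y1)
  refine (inv_mul_eq_one.1 (fix4 h3 (mul_mem (inv_mem hm) hg) ?_ ?_ ?_ ?_)).symm <;>
    rw [LinearEquiv.mul_apply, LinearEquiv.coe_inv, LinearEquiv.symm_apply_eq] <;>
    simp only [hx, hy, h5, h6] <;> apply ext8 <;>
    simp [e, xu1_apply, l12_apply, l13_apply, x0, x2, x3, x4, x5, x7, y0, y2, y3, y4, y5, y6, y7]

theorem clear {w : O K} (hw : tw τ w w = 0) (h4 : w 4 ≠ 0) : ∃ u ∈ tri τ, u (e 1) = e 1 ∧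
    (∃ c : K, u (e 6) = e 6 + c • e 1) ∧ u w = w 4 • e 4 := by
  have s1 : ∀ w : O K, tw τ w w = 0 → w 4 ≠ 0 → w 2 = 0 → w 3 = 0 → Cl τ w := fun w hw h4 k2 k3 => by
    have hv := xu1_mem h3 (τ (-(w 0 / w 4)))
    refine Cl.step hv ?_ 0 ?_ rfl (cl0 (tw_zero hv hw) h4 ?_ k2 k3)
    · apply ext8 <;> simp [e, xu1_apply]
    · apply ext8 <;> simp [e, xu1_apply]
    · rw [xu1_apply, h3]
      simp [h4]
  have s2 : ∀ w : O K, tw τ w w = 0 → w 4 ≠ 0 → w 3 = 0 → Cl τ w := fun w hw h4 k3 => by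
    have hv := xv3_mem h3 (-(w 2 / w 4))
    refine Cl.step hv ?_ 0 ?_ rfl (s1 _ (tw_zero hv hw) h4 ?_ k3)
    · apply ext8 <;> simp [e, xv3_apply]
    · apply ext8 <;> simp [e, xv3_apply]
    · simp [xv3_apply, h4]
  have hv := xv2_mem h3 (w 3 / w 4)
  refine Cl.step hv ?_ (w 3 / w 4) ?_ rfl (s2 _ (tw_zero hv hw) h4 ?_)
  · apply ext8 <;> simp [e, xv2_apply]
  · apply ext8 <;> simp [e, xv2_apply]
  · simp [xv2_apply, h4]

theorem B.Bf_cj {p : GO K} (hp : p ∈ tri τ) (a : GO K) (x y : O K) :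
    Bf (p x) (a (p y)) = Bf x ((p⁻¹ * a * p) y) := by
  rw [← Bf_au h3 hp x]
  simp

theorem nf_pt {a : GO K} (ha : a ∈ tri τ) (h : ¬ QS τ a) :
    ∃ (a' : GO K) (l : K), l ≠ 0 ∧ Cj τ a a' ∧ a' (e 1) = l • e 4 := by
  unfold QS at h
  push Not at h
  obtain ⟨p, hp, h⟩ := h
  rw [Bf_cj h3 hp] at h
  have hc : Cj τ a (p⁻¹ * a * p) := ⟨p⁻¹, inv_mem hp, by rw [inv_inv]⟩
  generalize p⁻¹ * a * p = b at h hc
  have h4 : b (e 1) 4 ≠ 0 := by simpa [Bf, e] using h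
  obtain ⟨u, hu, k1, -, k⟩ := clear h3 (tw_zero (hc.mem ha) (tw_e (i := 1) (j := 1) (by decide))) h4
  refine ⟨u * b * u⁻¹, _, h4, hc.trans ⟨u, hu, rfl⟩, ?_⟩
  have k2 : u⁻¹ (e 1) = e 1 := by rw [LinearEquiv.coe_inv, LinearEquiv.symm_apply_eq, k1]
  rw [LinearEquiv.mul_apply, LinearEquiv.mul_apply, k2, k]

theorem B.line {y z : O K} (hy : tw τ y y = 0) (hz : tw τ z z = 0) (hyz : tw τ y z = 0)
    (hzy : tw τ z y = 0) (h4 : y 4 ≠ 0) (hd : y 4 * z 3 - z 4 * y 3 ≠ 0) :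
    ∃ u ∈ tri τ, u (e 1) = e 1 ∧ (∃ c : K, u (e 6) = e 6 + c • e 1) ∧
      (∃ α β : K, u y = α • e 3 + β • e 4) ∧ ∃ α β : K, u z = α • e 3 + β • e 4 := by
  obtain ⟨u, hu, k1, ⟨c, k6⟩, k⟩ := clear h3 hy h4
  have a1 := tw_zero hu hyz
  have a2 := tw_zero hu hzy
  have a3 := tw_zero hu hz
  have b1 := Bf_au h3 hu (e 6) y
  have b2 := Bf_au h3 hu (e 6) z
  have b3 := Bf_au h3 hu (e 1) z
  rw [k] at a1 a2 b1
  rw [k6] at b1 b2
  rw [k1] at b3
  generalize hx : u z = x at a1 a2 a3 b2 b3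
  have x6 : x 6 = 0 := by simpa [tw2, e, h4] using congrFun a1 2
  have x5 : x 5 = 0 := by simpa [tw3, e, h4] using congrFun a1 3
  have x7 : x 7 = 0 := by simpa [tw4, e, h4] using congrFun a1 4
  have x1 : x 1 = 0 := by simpa [tw7, e, h4] using congrFun a1 7
  have x0 : x 0 = 0 := by simpa [tw4, e, h4] using congrFun a2 4
  have c1 : c * y 4 = y 3 := by simpa [Bf, e] using b1
  have c3 : x 4 = z 4 := by simpa [Bf, e] using b3
  have x3 : x 3 ≠ 0 := fun x3 => hd (by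
    have c2 : c * x 4 = z 3 := by simpa [Bf, e, x3] using b2
    rw [← c1, ← c2, c3]
    ring)
  have f : τ (x 2 / x 3) = x 2 / x 3 :=
    fixed_div x3 (by simpa [tw4, x0, x7] using congrFun a3 4)
  have f' : τ (-(x 2 / x 3)) = -(x 2 / x 3) := by rw [map_neg, f]
  refine ⟨l23 (-(x 2 / x 3)) * u, mul_mem (l23_mem f') hu, ?_, ⟨c, ?_⟩, ⟨0, y 4, ?_⟩, x 3, x 4, ?_⟩ <;>
    simp only [LinearEquiv.mul_apply, k1, k6, k, hx] <;> apply ext8 <;>
    simp [e, l23_apply, x0, x1, x3, x5, x6, x7]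

theorem nf_line {a : GO K} (ha : a ∈ tri τ) (h : ¬ DC τ a 0) : ∃ (a' : GO K) (α β γ δ : K),
    Cj τ a a' ∧ a' (e 1) = α • e 3 + β • e 4 ∧ a' (e 6) = γ • e 3 + δ • e 4 := by
  unfold DC at h
  push Not at h
  obtain ⟨p, hp, h⟩ := h
  simp only [Bf_cj h3 hp] at h
  have hc : Cj τ a (p⁻¹ * a * p) := ⟨p⁻¹, inv_mem hp, by rw [inv_inv]⟩
  generalize p⁻¹ * a * p = b at h hc
  have hb := hc.mem ha
  have a1 := tw_zero hb (tw_e (i := 1) (j := 1) (by decide))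
  have a2 := tw_zero hb (tw_e (i := 6) (j := 6) (by decide))
  have a3 := tw_zero hb (tw_e (i := 1) (j := 6) (by decide))
  have a4 := tw_zero hb (tw_e (i := 6) (j := 1) (by decide))
  have hd : b (e 1) 4 * b (e 6) 3 - b (e 6) 4 * b (e 1) 3 ≠ 0 := by simpa [Bf, e] using h
  have : ∃ u ∈ tri τ, u (e 1) = e 1 ∧ (∃ c : K, u (e 6) = e 6 + c • e 1) ∧
      (∃ α β : K, u (b (e 1)) = α • e 3 + β • e 4) ∧
        ∃ α β : K, u (b (e 6)) = α • e 3 + β • e 4 := by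
    by_cases h4 : b (e 1) 4 = 0
    · have h4' : b (e 6) 4 ≠ 0 := fun h' => hd (by rw [h4, h']; ring)
      obtain ⟨u, hu, k1, k6, k, k'⟩ := B.line h3 a2 a1 a4 a3 h4'
        fun h' => hd (by linear_combination -h')
      exact ⟨u, hu, k1, k6, k', k⟩
    · exact B.line h3 a1 a2 a3 a4 h4 hd
  obtain ⟨u, hu, k1, ⟨c, k6⟩, ⟨α, β, k⟩, γ, δ, k'⟩ := this
  have k2 : u⁻¹ (e 1) = e 1 := by rw [LinearEquiv.coe_inv, LinearEquiv.symm_apply_eq, k1]
  have k3 : u⁻¹ (e 6) = e 6 - c • e 1 := by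
    rw [LinearEquiv.coe_inv, LinearEquiv.symm_apply_eq, map_sub, map_smul, k1, k6,
      add_sub_cancel_right]
  refine ⟨u * b * u⁻¹, α, β, γ - c * α, δ - c * β, hc.trans ⟨u, hu, rfl⟩, ?_, ?_⟩
  · rw [LinearEquiv.mul_apply, LinearEquiv.mul_apply, k2, k]
  · rw [LinearEquiv.mul_apply, LinearEquiv.mul_apply, k3, map_sub, map_sub, map_smul, map_smul,
      k, k']
    module

end Pool.Agent.MP_db74b1_al.Lt.Tri

end

section

/-! The trace identity for `G₂` and `³D₄`: if the product of two classes lies in one class then one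
of the two elements moves no point to an opposite point. -/

set_option autoImplicit false
set_option linter.unnecessarySeqFocus false
set_option linter.unusedSimpArgs false
set_option linter.unusedSectionVars false

namespace Pool.Agent.MP_db74b1_al.Lt.Tri

variable {K : Type} [Field K]

namespace F42

/-- trace -/
def T (g : GO K) : K := ∑ i, g (e i) i

theorem app_eq (a : GO K) (x : O K) (i : Fin 8) : a x i = ∑ j, x j * a (e j) i := by
  have hx : x = ∑ j, x j • e j := by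
    ext k; simp [e, Finset.sum_apply, Pi.single_apply]
  conv_lhs => rw [hx, map_sum]
  simp [Finset.sum_apply]

theorem T_mul (a b : GO K) : T (a * b) = ∑ i, ∑ j, b (e i) j * a (e j) i := by
  unfold T
  refine Finset.sum_congr rfl fun i _ => ?_
  rw [LinearEquiv.mul_apply, app_eq]

theorem T_comm (a b : GO K) : T (a * b) = T (b * a) := by
  rw [T_mul, T_mul, Finset.sum_comm]
  exact Finset.sum_congr rfl fun i _ => Finset.sum_congr rfl fun j _ => mul_comm _ _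

theorem T_cj {τ : K →+* K} {c d : GO K} (h : Cj τ c d) : T d = T c := by
  obtain ⟨p, -, rfl⟩ := h
  rw [T_comm, ← mul_assoc, inv_mul_cancel, one_mul]

/-- Gram form -/
def G (a : GO K) (x y : O K) : K := Bf x (a y)

theorem G_addl (a : GO K) (x x' y : O K) : G a (x + x') y = G a x y + G a x' y := by
  simp [G, Bf]; ring

theorem G_addr (a : GO K) (x y y' : O K) : G a x (y + y') = G a x y + G a x y' := by
  simp [G, Bf]; ring

theorem G_smull (a : GO K) (c : K) (x y : O K) : G a (c • x) y = c * G a x y := by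
  simp [G, Bf]; ring

theorem G_smulr (a : GO K) (c : K) (x y : O K) : G a x (c • y) = c * G a x y := by
  simp [G, Bf]; ring

theorem G1 (a : GO K) (y : O K) : G a (e 1) y = -a y 4 := by simp [G, Bf, e]
theorem G5 (a : GO K) (y : O K) : G a (e 5) y = -a y 2 := by simp [G, Bf, e]
theorem G6 (a : GO K) (y : O K) : G a (e 6) y = -a y 3 := by simp [G, Bf, e]

theorem X_inv (s t : K) (i : Fin 8) : (l13 t * l12 s : GO K)⁻¹ (e i) =
    e i - (if i = 2 then s else if i = 3 then t else 0) • e 1 +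
      (if i = 4 then s else 0) • e 5 + (if i = 4 then t else 0) • e 6 := by
  rw [mul_inv_rev, l12_inv, l13_inv, LinearEquiv.mul_apply]
  fin_cases i <;> apply ext8 <;> simp [l12_apply, l13_apply, e]

theorem T_exp (a b : GO K) (s t : K) :
    T (a * ((l13 t * l12 s) * b * (l13 t * l12 s)⁻¹)) = T (a * b)
      + s * ((b * a) (e 1) 2 - (b * a) (e 5) 4 - (a * b) (e 1) 2 + (a * b) (e 5) 4)
      + t * ((b * a) (e 1) 3 - (b * a) (e 6) 4 - (a * b) (e 1) 3 + (a * b) (e 6) 4)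
      - s ^ 2 * (a (e 1) 2 * b (e 1) 2 - a (e 1) 4 * b (e 5) 2 - a (e 5) 2 * b (e 1) 4
          + a (e 5) 4 * b (e 5) 4)
      - t ^ 2 * (a (e 1) 3 * b (e 1) 3 - a (e 1) 4 * b (e 6) 3 - a (e 6) 3 * b (e 1) 4
          + a (e 6) 4 * b (e 6) 4)
      - s * t * (a (e 1) 2 * b (e 1) 3 + a (e 1) 3 * b (e 1) 2 + a (e 6) 4 * b (e 5) 4
          + a (e 5) 4 * b (e 6) 4 - a (e 1) 4 * (b (e 5) 3 + b (e 6) 2)
          - b (e 1) 4 * (a (e 6) 2 + a (e 5) 3)) := by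
  rw [T_mul, T_mul]
  simp only [LinearEquiv.mul_apply, X_inv, app_eq b (a _), app_eq a (b _)]
  simp only [Fin.sum_univ_eight, map_add, map_sub, map_smul]
  simp [l12_apply, l13_apply]
  ring

end F42

open F42

variable {τ : K →+* K} (h3 : ∀ t, τ (τ (τ t)) = t)
include h3

theorem F42.G_cj {p : GO K} (hp : p ∈ tri τ) (a : GO K) (x y : O K) :
    G (p⁻¹ * a * p) x y = G a (p x) (p y) := by
  have := Bf_conj h3 (inv_mem hp) a x y
  rw [inv_inv] at this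
  exact this

omit h3 in
theorem F42.cj_of {p : GO K} (hp : p ∈ tri τ) (a : GO K) : Cj τ a (p⁻¹ * a * p) :=
  ⟨p⁻¹, inv_mem hp, by rw [inv_inv]⟩

omit h3 in
theorem F42.T_const {a b : GO K} (h : SC τ a b) {a' b' : GO K} (ha : Cj τ a a') (hb : Cj τ b b')
    {s t : K} (hs : τ s = s) (ht : τ t = t) :
    T (a' * ((l13 t * l12 s) * b' * (l13 t * l12 s)⁻¹)) = T (a' * b') := by
  obtain ⟨c, h⟩ := h
  rw [T_cj (h a' b' ha hb), T_cj (h a' _ ha
    (hb.trans ⟨_, mul_mem (l13_mem ht) (l12_mem hs), rfl⟩))]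

theorem F42.po {a b : GO K} (h : SC τ a b) {p q : GO K} (hp : p ∈ tri τ) (hq : q ∈ tri τ) :
    G a (p (e 5)) (p (e 1)) * G b (q (e 6)) (q (e 1))
      + G a (p (e 6)) (p (e 1)) * G b (q (e 5)) (q (e 1))
      + G a (p (e 1)) (p (e 6)) * G b (q (e 1)) (q (e 5))
      + G a (p (e 1)) (p (e 5)) * G b (q (e 1)) (q (e 6))
      - G a (p (e 1)) (p (e 1)) * (G b (q (e 6)) (q (e 5)) + G b (q (e 5)) (q (e 6)))
      - G b (q (e 1)) (q (e 1)) * (G a (p (e 5)) (p (e 6)) + G a (p (e 6)) (p (e 5))) = 0 := by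
  have h11 := T_const h (cj_of hp a) (cj_of hq b) (map_one τ) (map_one τ)
  have h10 := T_const h (cj_of hp a) (cj_of hq b) (map_one τ) (map_zero τ)
  have h01 := T_const h (cj_of hp a) (cj_of hq b) (map_zero τ) (map_one τ)
  rw [T_exp] at h11 h10 h01
  simp only [← G_cj h3 hp, ← G_cj h3 hq, G1, G5, G6]
  linear_combination h10 + h01 - h11

theorem F42.star {a b : GO K} (h : SC τ a b) {p q : GO K} (hp : p ∈ tri τ) (hq : q ∈ tri τ) :
    G a (p (e 1)) (p (e 1)) * (G b (q (e 5)) (q (e 1)) + G b (q (e 1)) (q (e 5))) =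
      G b (q (e 1)) (q (e 1)) * (G a (p (e 5)) (p (e 1)) + G a (p (e 1)) (p (e 5))) := by
  have k1 : xv2 τ 1 (e 1) = e 1 := by apply ext8 <;> simp [xv2_apply, e]
  have k5 : xv2 τ 1 (e 5) = e 5 := by apply ext8 <;> simp [xv2_apply, e]
  have k6 : xv2 τ 1 (e 6) = e 6 + e 1 := by apply ext8 <;> simp [xv2_apply, e]
  have h1 := po h3 h hp hq
  have h2 := po h3 h (mul_mem hp (xv2_mem h3 1)) hq
  simp only [LinearEquiv.mul_apply, k1, k5, k6, map_add, G_addl, G_addr] at h2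
  linear_combination h2 - h1

omit h3 in
theorem F42.xv3_1 : xv3 τ (-1) (e 1) = e 1 := by apply ext8 <;> simp [xv3_apply, e]

omit h3 in
theorem F42.xv3_5 : xv3 τ (-1) (e 5) = e 5 + e 1 := by apply ext8 <;> simp [xv3_apply, e]

theorem F42.two {a b : GO K} (h : SC τ a b) {p q : GO K} (hp : p ∈ tri τ) (hq : q ∈ tri τ) :
    2 * (G a (p (e 1)) (p (e 1)) * G b (q (e 1)) (q (e 1))) = 0 := by
  have h1 := star h3 h hp hq
  have h2 := star h3 h (mul_mem hp (xv3_mem h3 (-1))) hq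
  simp only [LinearEquiv.mul_apply, xv3_1, xv3_5, map_add, G_addl, G_addr] at h2
  linear_combination h1 - h2

theorem F42.lin {a b : GO K} (ha : a ∈ tri τ) (hb : b ∈ tri τ) (h2 : (2 : K) = 0)
    (sa : G a (e 1) (e 5) = G a (e 5) (e 1)) (sb : G b (e 1) (e 5) = G b (e 5) (e 1))
    {α β : K} (hα : ∀ x, a x + a⁻¹ x = α • x) (hβ : ∀ x, b x + b⁻¹ x = β • x) :
    (b * a) (e 1) 2 - (b * a) (e 5) 4 - (a * b) (e 1) 2 + (a * b) (e 5) 4 = 0 := by
  have key : ∀ {c d : GO K} {γ : K}, c ∈ tri τ → (∀ x, c x + c⁻¹ x = γ • x) → ∀ x y,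
      G (c * d) x y = γ * G d x y - Bf (c x) (d y) := by
    intro c d γ hc hγ x y
    have h1 : c⁻¹ x = γ • x - c x := by rw [← hγ]; abel
    unfold G
    rw [LinearEquiv.mul_apply, Bf_inv h3 hc, h1]
    simp [Bf]; ring
  have e1 := key (d := b) ha hα (e 5) (e 1)
  have e2 := key (d := b) ha hα (e 1) (e 5)
  have e3 := key (d := a) hb hβ (e 5) (e 1)
  have e4 := key (d := a) hb hβ (e 1) (e 5)
  rw [Bf_comm] at e3 e4
  rw [G5] at e1 e3
  rw [G1] at e2 e4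
  linear_combination e1 - e2 - e3 + e4 - α * sb + β * sa
    + (Bf (a (e 1)) (b (e 5)) - Bf (a (e 5)) (b (e 1))) * h2

theorem F42.main
    (hS : ∀ {a : GO K}, a ∈ tri τ → Sy τ a → (2 : K) = 0 → (∃ t, τ t ≠ t) →
      ∃ α : K, ∀ x, a x + a⁻¹ x = α • x)
    {a b : GO K} (ha : a ∈ tri τ) (hb : b ∈ tri τ) (h : SC τ a b)
    (hr : (∃ r, τ r = r ∧ r ≠ 0 ∧ r ≠ 1) ∨ ((2 : K) = 0 ∧ ∃ t, τ t ≠ t)) :
    Tri.QS τ a ∨ Tri.QS τ b := by
  by_contra hcon
  rw [not_or] at hcon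
  obtain ⟨hna, hnb⟩ := hcon
  unfold Tri.QS at hna hnb
  push Not at hna hnb
  obtain ⟨p₀, hp₀, hna⟩ := hna
  obtain ⟨q₀, hq₀, hnb⟩ := hnb
  change G a (p₀ (e 1)) (p₀ (e 1)) ≠ 0 at hna
  change G b (q₀ (e 1)) (q₀ (e 1)) ≠ 0 at hnb
  have h2 : (2 : K) = 0 := (mul_eq_zero.1 (two h3 h hp₀ hq₀)).resolve_right (mul_ne_zero hna hnb)
  obtain ⟨g, g0, g1⟩ : ∃ g : K, g ≠ 0 ∧ g ≠ 1 := by
    rcases hr with ⟨r, -, r0, r1⟩ | ⟨-, t, ht⟩
    · exact ⟨r, r0, r1⟩
    · exact ⟨t, fun h => ht (by rw [h, map_zero]), fun h => ht (by rw [h, map_one])⟩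
  have g2 : g ^ 2 - 1 ≠ 0 := fun hh => g1 (by
    have : (g - 1) ^ 2 = 0 := by linear_combination hh + (1 - g) * h2
    exact sub_eq_zero.1 (pow_eq_zero_iff two_ne_zero |>.1 this))
  have k1 : tor τ g0 (e 1) = g • e 1 := by apply ext8 <;> simp [tor_apply, e]
  have k5 : tor τ g0 (e 5) = g⁻¹ • e 5 := by apply ext8 <;> simp [tor_apply, e]
  have sb : Sy τ b := by
    intro q hq
    have h1 := star h3 h hp₀ hq
    have h1' := star h3 h (mul_mem hp₀ (tor_mem h3 g0)) hq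
    simp only [LinearEquiv.mul_apply, k1, k5, map_smul, G_smull, G_smulr,
      mul_inv_cancel_left₀ g0, inv_mul_cancel_left₀ g0] at h1'
    have h4 : (g ^ 2 - 1) * G a (p₀ (e 1)) (p₀ (e 1)) *
        (G b (q (e 5)) (q (e 1)) + G b (q (e 1)) (q (e 5))) = 0 := by
      linear_combination h1' - h1
    have h5 := (mul_eq_zero.1 h4).resolve_left (mul_ne_zero g2 hna)
    change G b (q (e 1)) (q (e 5)) = G b (q (e 5)) (q (e 1))
    linear_combination h5 - G b (q (e 5)) (q (e 1)) * h2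
  have sa : Sy τ a := by
    intro p hp
    have h1 := star h3 h hp hq₀
    have h4 : G b (q₀ (e 1)) (q₀ (e 5)) = G b (q₀ (e 5)) (q₀ (e 1)) := sb q₀ hq₀
    have h5 : G b (q₀ (e 1)) (q₀ (e 1)) *
        (G a (p (e 5)) (p (e 1)) + G a (p (e 1)) (p (e 5))) = 0 := by
      linear_combination -h1 + G a (p (e 1)) (p (e 1)) * h4
        + G a (p (e 1)) (p (e 1)) * G b (q₀ (e 5)) (q₀ (e 1)) * h2
    have h6 := (mul_eq_zero.1 h5).resolve_left hnb
    change G a (p (e 1)) (p (e 5)) = G a (p (e 5)) (p (e 1))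
    linear_combination h6 - G a (p (e 5)) (p (e 1)) * h2
  have hQ : ∀ p ∈ tri τ, G a (p (e 1)) (p (e 1)) * G b (q₀ (e 5)) (q₀ (e 5)) +
      G a (p (e 5)) (p (e 5)) * G b (q₀ (e 1)) (q₀ (e 1)) = 0 := by
    intro p hp
    have ca := cj_of hp a
    have cb := cj_of hq₀ b
    have sa' : G (p⁻¹ * a * p) (e 1) (e 5) = G (p⁻¹ * a * p) (e 5) (e 1) := by
      rw [G_cj h3 hp, G_cj h3 hp]; exact sa p hp
    have sb' : G (q₀⁻¹ * b * q₀) (e 1) (e 5) = G (q₀⁻¹ * b * q₀) (e 5) (e 1) := by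
      rw [G_cj h3 hq₀, G_cj h3 hq₀]; exact sb q₀ hq₀
    have h10 := T_const h ca cb (map_one τ) (map_zero τ)
    rw [T_exp] at h10
    simp only [← G_cj h3 hp, ← G_cj h3 hq₀]
    generalize p⁻¹ * a * p = a' at ca sa' h10 ⊢
    generalize q₀⁻¹ * b * q₀ = b' at cb sb' h10 ⊢
    have hQ : a' (e 1) 2 * b' (e 1) 2 - a' (e 1) 4 * b' (e 5) 2 - a' (e 5) 2 * b' (e 1) 4
        + a' (e 5) 4 * b' (e 5) 4 = 0 := by
      rcases hr with ⟨r, hr, r0, r1⟩ | ⟨-, ht⟩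
      · have hr0 := T_const h ca cb hr (map_zero τ)
        rw [T_exp] at hr0
        have h7 : r * (1 - r) * (a' (e 1) 2 * b' (e 1) 2 - a' (e 1) 4 * b' (e 5) 2
            - a' (e 5) 2 * b' (e 1) 4 + a' (e 5) 4 * b' (e 5) 4) = 0 := by
          linear_combination hr0 - r * h10
        exact (mul_eq_zero.1 h7).resolve_left (mul_ne_zero r0 (sub_ne_zero.2 r1.symm))
      · obtain ⟨α, hα⟩ := hS (ca.mem ha) (ca.Sy h3 sa) h2 ht
        obtain ⟨β, hβ⟩ := hS (cb.mem hb) (cb.Sy h3 sb) h2 ht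
        have h7 := lin h3 (ca.mem ha) (cb.mem hb) h2 sa' sb' hα hβ
        linear_combination h7 - h10
    simp only [G1, G5] at sa' sb' ⊢
    linear_combination -hQ - b' (e 5) 4 * sa' - a' (e 1) 2 * sb'
      + a' (e 1) 2 * b' (e 1) 2 * h2
  have h8 := hQ p₀ hp₀
  have h9 := hQ _ (mul_mem hp₀ (xv3_mem h3 (-1)))
  have h10 : G a (p₀ (e 1)) (p₀ (e 5)) = G a (p₀ (e 5)) (p₀ (e 1)) := sa p₀ hp₀
  simp only [LinearEquiv.mul_apply, xv3_1, xv3_5, map_add, G_addl, G_addr] at h9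
  refine mul_ne_zero hna hnb ?_
  linear_combination h9 - h8 - G b (q₀ (e 1)) (q₀ (e 1)) * h10
    - G b (q₀ (e 1)) (q₀ (e 1)) * G a (p₀ (e 5)) (p₀ (e 1)) * h2

end Pool.Agent.MP_db74b1_al.Lt.Tri

end
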