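import Pool.Agent.Mg.Fdb74b1.G83eb68
import Pool.Agent.Mg.Fdb74b1.Gbbdf27

section

/-! An element of `G₂` or `³D₄` moving no point to an opposite point and no line to an opposite
line is trivial. -/

set_option autoImplicit false
set_option linter.unnecessarySeqFocus false
set_option linter.unusedSimpArgs false
set_option linter.unusedSectionVars false

namespace Pool.Agent.MP_db74b1_al.Lt.Tri

namespace TC

variable {K : Type} [Field K] {τ : K →+* K}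

/-- the three hypotheses -/
def Gd (τ : K →+* K) (a : GO K) : Prop := a ∈ tri τ ∧ QS τ a ∧ DC τ a 0

/-- the plane of `u₁` -/
def Pl (w : O K) : Prop := w 0 = 0 ∧ w 2 = 0 ∧ w 3 = 0 ∧ w 4 = 0 ∧ w 7 = 0

/-- the orbit of `u₁` -/
def Or1 (τ : K →+* K) (z : O K) : Prop := ∃ p ∈ tri τ, p (e 1) = z

theorem Bf_inv' (h3 : ∀ t, τ (τ (τ t)) = t) {a : GO K} (ha : a ∈ tri τ) (x y : O K) :
    Bf x (a⁻¹ y) = Bf y (a x) := by
  rw [Bf_inv h3 (inv_mem ha), inv_inv, Bf_comm]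

theorem Gd.inv (h3 : ∀ t, τ (τ (τ t)) = t) {a : GO K} (h : Gd τ a) : Gd τ a⁻¹ := by
  obtain ⟨ha, h1, h2⟩ := h
  refine ⟨inv_mem ha, fun p hp => ?_, fun p hp => ?_⟩
  · rw [Bf_inv' h3 ha]; exact h1 p hp
  · simp only [Bf_inv' h3 ha]
    have := h2 p hp
    linear_combination this

theorem Gd.conj (h3 : ∀ t, τ (τ (τ t)) = t) {a p : GO K} (h : Gd τ a) (hp : p ∈ tri τ) :
    Gd τ (p⁻¹ * a * p) := by
  have hc : Cj τ a (p⁻¹ * a * p) := ⟨p⁻¹, inv_mem hp, by rw [inv_inv]⟩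
  exact ⟨hc.mem h.1, hc.QS h3 h.2.1, hc.DC h3 h.2.2⟩

theorem pl_iff (w : O K) : Pl w ↔ tw τ (e 1) w = 0 ∧ tw τ w (e 1) = 0 := by
  constructor
  · rintro ⟨h0, h2, h3, h4, h7⟩
    constructor <;> apply ext8 <;>
      simp [e, tw0, tw1, tw2, tw3, tw4, tw5, tw6, tw7, h0, h2, h3, h4, h7]
  · rintro ⟨h, h'⟩
    have a0 := congrFun h 0
    have a1 := congrFun h 1
    have a5 := congrFun h 5
    have a6 := congrFun h 6
    have b1 := congrFun h' 1
    simp [e, tw0] at a0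
    simp [e, tw1] at a1
    simp [e, tw5] at a5
    simp [e, tw6] at a6
    simp [e, tw1] at b1
    exact ⟨a1, a6, a5, a0, b1⟩

theorem pl_of_pt {w : O K} (hw : tw τ w w = 0) (h2 : w 2 = 0) (h3 : w 3 = 0) (h4 : w 4 = 0) :
    Pl w := by
  have a0 := congrFun hw 0
  have a7 := congrFun hw 7
  simp [tw0, h2, h3, h4] at a0
  simp [tw7, h2, h3, h4] at a7
  exact ⟨a7, h2, h3, h4, a0⟩

theorem pt_e (i : Fin 8) (h0 : i ≠ 0) (h7 : i ≠ 7) : tw τ (e i) (e i : O K) = 0 := by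
  fin_cases i <;> first
    | exact absurd rfl h0
    | exact absurd rfl h7
    | (apply ext8 <;> simp [e, tw0, tw1, tw2, tw3, tw4, tw5, tw6, tw7])

theorem pt_au {a : GO K} (ha : a ∈ tri τ) (i : Fin 8) (h0 : i ≠ 0) (h7 : i ≠ 7) :
    tw τ (a (e i)) (a (e i)) = 0 := by
  rw [← tw_au ha, pt_e i h0 h7, map_zero]

theorem pl_swap {a : GO K} (ha : a ∈ tri τ) (h : Pl (a⁻¹ (e 1))) : Pl (a (e 1)) := by
  rw [pl_iff (τ := τ)] at h ⊢
  have h1 := tw_au ha (e 1) (a⁻¹ (e 1))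
  have h2 := tw_au ha (a⁻¹ (e 1)) (e 1)
  rw [h.1] at h1
  rw [h.2] at h2
  simp only [map_zero, LinearEquiv.coe_inv, LinearEquiv.apply_symm_apply] at h1 h2
  exact ⟨h2.symm, h1.symm⟩

theorem qs1 {a : GO K} (h : Gd τ a) : Bf (e 1) (a (e 1)) = 0 := h.2.1 1 (one_mem _)

theorem dc_line (h3 : ∀ t, τ (τ (τ t)) = t) {a p : GO K} (h : Gd τ a) (hp : p ∈ tri τ)
    (h1 : p (e 1) = e 1) {z : O K} (hz : p (e 6) = z) :
    Bf (a⁻¹ (e 1)) z * Bf z (a (e 1)) = 0 := by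
  have := h.2.2 p hp
  rw [h1, hz, qs1 h, Bf_inv h3 h.1 (e 1) z] at this
  linear_combination -this

theorem step1 (h3 : ∀ t, τ (τ (τ t)) = t) {a : GO K} (h : Gd τ a) : Pl (a (e 1)) := by
  have y4 : a (e 1) 4 = 0 := by simpa [Bf, e] using qs1 h
  have z4 : a⁻¹ (e 1) 4 = 0 := by simpa [Bf, e] using qs1 (h.inv h3)
  have d1 := dc_line h3 h (one_mem _) rfl (z := e 6) rfl
  have d2 := dc_line h3 h (inv_mem (sw_mem τ)) (z := e 5)
    (by rw [sw_inv_apply]; apply ext8 <;> simp [e]) (by rw [sw_inv_apply]; apply ext8 <;> simp [e])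
  have d3 := dc_line h3 h (l32_mem (s := -1) (by simp)) (z := e 5 + e 6)
    (by rw [l32_apply]; apply ext8 <;> simp [e]) (by rw [l32_apply]; apply ext8 <;> simp [e])
  have p1 := pt_au h.1 1 (by decide) (by decide)
  have p2 := pt_au (inv_mem h.1) 1 (by decide) (by decide)
  have key : (a (e 1) 2 = 0 ∧ a (e 1) 3 = 0) ∨ (a⁻¹ (e 1) 2 = 0 ∧ a⁻¹ (e 1) 3 = 0) := by
    generalize a (e 1) = y at d1 d2 d3
    generalize a⁻¹ (e 1) = z at d1 d2 d3
    have e1 : z 3 * y 3 = 0 := by simpa [Bf, e] using d1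
    have e2 : z 2 * y 2 = 0 := by simpa [Bf, e] using d2
    have e3 : (z 2 + z 3) * (y 2 + y 3) = 0 := by
      have : Bf z (e 5 + e 6) * Bf (e 5 + e 6) y = (z 2 + z 3) * (y 2 + y 3) := by
        simp [Bf, e]; ring
      rw [← this, d3]
    by_cases k2 : y 2 = 0
    · by_cases k3 : y 3 = 0
      · exact Or.inl ⟨k2, k3⟩
      · have z3 := (mul_eq_zero.1 e1).resolve_right k3
        rw [k2, z3, zero_add, add_zero] at e3
        exact Or.inr ⟨(mul_eq_zero.1 e3).resolve_right k3, z3⟩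
    · have z2 := (mul_eq_zero.1 e2).resolve_right k2
      refine Or.inr ⟨z2, ?_⟩
      by_contra z3
      have k3 := (mul_eq_zero.1 e1).resolve_left z3
      rw [z2, k3, zero_add, add_zero] at e3
      exact k2 ((mul_eq_zero.1 e3).resolve_left z3)
  rcases key with ⟨k2, k3⟩ | ⟨k2, k3⟩
  · exact pl_of_pt p1 k2 k3 y4
  · exact pl_swap h.1 (pl_of_pt p2 k2 k3 z4)

theorem Or1.act {z : O K} (h : Or1 τ z) {g : GO K} (hg : g ∈ tri τ) {w : O K} (hw : g z = w) :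
    Or1 τ w := by
  obtain ⟨p, hp, rfl⟩ := h
  exact ⟨g * p, mul_mem hg hp, hw⟩

theorem or_1 : Or1 τ (e 1 : O K) := ⟨1, one_mem _, rfl⟩

theorem or_5 (h3 : ∀ t, τ (τ (τ t)) = t) : Or1 τ (e 5 : O K) := by
  have a1 := (or_1 (τ := τ)).act (xv1_mem h3 1) (w := ![1, 1, 0, 0, -1, 0, 0, -1])
    (by rw [xv1_apply]; apply ext8 <;> simp [e])
  have a2 := a1.act (xu1_mem h3 1) (w := ![0, 0, 0, 0, -1, 0, 0, 0])
    (by rw [xu1_apply]; apply ext8 <;> simp)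
  have a3 := a2.act (inv_mem (cy_mem τ)) (w := ![0, 0, 0, 0, 0, 0, -1, 0])
    (by rw [cy_inv_apply]; apply ext8 <;> simp)
  exact a3.act (sw_mem τ) (by rw [sw_apply]; apply ext8 <;> simp [e])

theorem or_6 (h3 : ∀ t, τ (τ (τ t)) = t) : Or1 τ (e 6 : O K) :=
  (or_5 h3).act (cy_mem τ) (by rw [cy_apply]; apply ext8 <;> simp [e])

theorem or_4 (h3 : ∀ t, τ (τ (τ t)) = t) : Or1 τ (e 4 : O K) :=
  (or_6 h3).act (cy_mem τ) (by rw [cy_apply]; apply ext8 <;> simp [e])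

theorem or_2 : Or1 τ (e 2 : O K) :=
  or_1.act (cy_mem τ) (by rw [cy_apply]; apply ext8 <;> simp [e])

theorem or_3 : Or1 τ (e 3 : O K) :=
  or_2.act (cy_mem τ) (by rw [cy_apply]; apply ext8 <;> simp [e])

theorem qs_or {a : GO K} (h : Gd τ a) {z : O K} (hz : Or1 τ z) : Bf z (a z) = 0 := by
  obtain ⟨p, hp, rfl⟩ := hz
  exact h.2.1 p hp

theorem step2a (h3 : ∀ t, τ (τ (τ t)) = t) {a : GO K} (h : Gd τ a) :
    (a (e 1) 5 = 0 ∧ a (e 1) 6 = 0) ∨ (Pl (a (e 6)) ∧ Pl (a (e 5))) := by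
  obtain ⟨y0, y2, y3, y4, y7⟩ := step1 h3 h
  obtain ⟨-, z2, z3, -, -⟩ := step1 h3 (h.inv h3)
  have q6 := qs_or h (or_6 h3)
  have q5 := qs_or h (or_5 h3)
  have q56 := qs_or h ((or_6 h3).act (l32_mem (s := -1) (by simp)) (w := e 5 + e 6)
    (by rw [l32_apply]; apply ext8 <;> simp [e]))
  rw [map_add] at q56
  have b6 := Bf_au h3 h.1 (e 1) (e 6)
  have b5 := Bf_au h3 h.1 (e 1) (e 5)
  have c6 := Bf_inv h3 h.1 (e 1) (e 6)
  have c5 := Bf_inv h3 h.1 (e 1) (e 5)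
  have p6 := pt_au h.1 6 (by decide) (by decide)
  have p5 := pt_au h.1 5 (by decide) (by decide)
  generalize a (e 1) = y at y0 y2 y3 y4 y7 b6 b5 ⊢
  generalize a⁻¹ (e 1) = z at z2 z3 c6 c5
  generalize a (e 6) = w at q6 q56 b6 c6 p6 ⊢
  generalize a (e 5) = v at q5 q56 b5 c5 p5 ⊢
  have w3 : w 3 = 0 := by simpa [Bf, e] using q6
  have v2 : v 2 = 0 := by simpa [Bf, e] using q5
  have w4 : w 4 = 0 := by simpa [Bf, e, z3] using c6
  have v4 : v 4 = 0 := by simpa [Bf, e, z2] using c5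
  have s : w 2 + v 3 = 0 := by
    have : Bf (e 5 + e 6) (v + w) = -(w 2 + v 3) := by simp [Bf, e, w3, v2]; ring
    rw [this] at q56
    exact neg_eq_zero.1 q56
  have m5 : y 5 * w 2 = 0 := by simpa [Bf, e, y0, y2, y3, y4, y7, w3, w4] using b6
  have m6 : y 6 * v 3 = 0 := by simpa [Bf, e, y0, y2, y3, y4, y7, v2, v4] using b5
  by_cases hw : w 2 = 0
  · have hv : v 3 = 0 := by rwa [hw, zero_add] at s
    exact Or.inr ⟨pl_of_pt p6 hw w3 w4, pl_of_pt p5 v2 hv v4⟩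
  · have hv : v 3 ≠ 0 := fun hv => hw (by rwa [hv, add_zero] at s)
    exact Or.inl ⟨(mul_eq_zero.1 m5).resolve_right hw, (mul_eq_zero.1 m6).resolve_right hv⟩

theorem step2 (h3 : ∀ t, τ (τ (τ t)) = t) {a : GO K} (h : Gd τ a) :
    ∃ μ : K, a (e 1) = μ • e 1 := by
  have mk : ∀ y : O K, Pl y → y 5 = 0 → y 6 = 0 → y = y 1 • e 1 := fun y hy h5 h6 => by
    obtain ⟨y0, y2, y3, y4, y7⟩ := hy
    apply ext8 <;> simp [e, y0, y2, y3, y4, y7, h5, h6]
  rcases step2a h3 (h.inv h3) with ⟨k5, k6⟩ | ⟨k6, k5⟩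
  · have hz := mk _ (step1 h3 (h.inv h3)) k5 k6
    generalize a⁻¹ (e 1) 1 = c at hz
    have h1 : e 1 = c • a (e 1) := by
      rw [← map_smul, ← hz]; simp
    have hc : c ≠ 0 := by
      rintro rfl
      have := congrFun h1 1
      simp [e] at this
    refine ⟨c⁻¹, ?_⟩
    conv_rhs => rw [h1]
    rw [smul_smul, inv_mul_cancel₀ hc, one_smul]
  · have t6 := tw_au h.1 (e 1) (a⁻¹ (e 6))
    have t5 := tw_au h.1 (e 1) (a⁻¹ (e 5))
    rw [((pl_iff (τ := τ) _).1 k6).1] at t6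
    rw [((pl_iff (τ := τ) _).1 k5).1] at t5
    simp only [map_zero, LinearEquiv.coe_inv, LinearEquiv.apply_symm_apply] at t6 t5
    have a6 := congrFun t6 1
    have a5 := congrFun t5 1
    rw [tw1] at a6 a5
    refine ⟨_, mk _ (step1 h3 h) ?_ ?_⟩
    · simpa [e] using a6.symm
    · simpa [e] using a5.symm

theorem step3 (h3 : ∀ t, τ (τ (τ t)) = t) {a : GO K} (h : Gd τ a) {z : O K} (hz : Or1 τ z) :
    ∃ μ : K, a z = μ • z := by
  obtain ⟨p, hp, rfl⟩ := hz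
  obtain ⟨μ, hμ⟩ := step2 h3 (h.conj h3 hp)
  refine ⟨μ, ?_⟩
  have := congrArg p hμ
  simpa using this

theorem same (h3 : ∀ t, τ (τ (τ t)) = t) {a : GO K} (h : Gd τ a) {i j : Fin 8} (hij : i ≠ j)
    (hz : Or1 τ (e i + e j)) {μ ν : K} (hi : a (e i) = μ • e i) (hj : a (e j) = ν • e j) :
    ν = μ := by
  obtain ⟨κ, hκ⟩ := step3 h3 h hz
  rw [map_add, hi, hj] at hκ
  have a1 := congrFun hκ i
  have a2 := congrFun hκ j
  simp [e, hij, hij.symm] at a1 a2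
  rw [a1, a2]

theorem main (h3 : ∀ t, τ (τ (τ t)) = t) {a : GO K} (h : Gd τ a) : a = 1 := by
  obtain ⟨μ, m1⟩ := step3 h3 h or_1
  obtain ⟨μ2, m2⟩ := step3 h3 h or_2
  obtain ⟨μ3, m3⟩ := step3 h3 h or_3
  obtain ⟨μ4, m4⟩ := step3 h3 h (or_4 h3)
  obtain ⟨μ5, m5⟩ := step3 h3 h (or_5 h3)
  obtain ⟨μ6, m6⟩ := step3 h3 h (or_6 h3)
  obtain rfl := same h3 h (by decide) (or_1.act (l21_mem (s := 1) (by simp))
    (by rw [l21_apply]; apply ext8 <;> simp [e])) m1 m2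
  obtain rfl := same h3 h (by decide) (or_1.act (l31_mem (s := 1) (by simp))
    (by rw [l31_apply]; apply ext8 <;> simp [e])) m1 m3
  obtain rfl := same h3 h (by decide) (or_1.act (xu3_mem h3 1)
    (by rw [xu3_apply]; apply ext8 <;> simp [e])) m1 m5
  obtain rfl := same h3 h (by decide) (or_1.act (xu2_mem h3 (-1))
    (by rw [xu2_apply]; apply ext8 <;> simp [e])) m1 m6
  obtain rfl := same h3 h (by decide) ((or_5 h3).act (l21_mem (s := -1) (by simp))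
    (by rw [l21_apply]; apply ext8 <;> simp [e])) m5 m4
  have hb := Bf_au h3 h.1 (e 1) (e 4)
  rw [m1, m4] at hb
  have hsq : μ4 * μ4 = 1 := by simpa [Bf, e] using hb
  have ht := tw_au h.1 (e 5) (e 6)
  have t56 : tw τ (e 5) (e 6 : O K) = e 1 := by
    apply ext8 <;> simp [e, tw0, tw1, tw2, tw3, tw4, tw5, tw6, tw7]
  rw [t56, m1, m5, m6] at ht
  have hp : μ4 = τ μ4 * τ (τ μ4) := by
    have := congrFun ht 1
    rw [tw1] at this
    simpa [e] using this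
  have h1 : μ4 = 1 := by
    rcases mul_self_eq_one_iff.1 hsq with h1 | h1
    · exact h1
    · rw [hp, h1]; simp
  subst h1
  rw [one_smul] at m1 m2 m3 m4 m5 m6
  have t14 : tw τ (e 1) (e 4 : O K) = e 0 := by
    apply ext8 <;> simp [e, tw0, tw1, tw2, tw3, tw4, tw5, tw6, tw7]
  have t41 : tw τ (e 4) (e 1 : O K) = e 7 := by
    apply ext8 <;> simp [e, tw0, tw1, tw2, tw3, tw4, tw5, tw6, tw7]
  have m0 : a (e 0) = e 0 := by rw [← t14, tw_au h.1, m1, m4]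
  have m7 : a (e 7) = e 7 := by rw [← t41, tw_au h.1, m1, m4]
  refine LinearEquiv.ext fun x => ?_
  have hx : x = x 0 • e 0 + x 1 • e 1 + x 2 • e 2 + x 3 • e 3 + x 4 • e 4 + x 5 • e 5 + x 6 • e 6
      + x 7 • e 7 := by
    apply ext8 <;> simp [e]
  change a x = x
  conv_lhs => rw [hx]
  simp only [map_add, map_smul, m0, m1, m2, m3, m4, m5, m6, m7]
  exact hx.symm

end TC

variable {K : Type} [Field K] {τ : K →+* K} (h3 : ∀ t, τ (τ (τ t)) = t)
include h3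

theorem triv_of {a : GO K} (ha : a ∈ tri τ) (h1 : QS τ a) (h2 : DC τ a 0) : a = 1 :=
  TC.main h3 ⟨ha, h1, h2⟩

end Pool.Agent.MP_db74b1_al.Lt.Tri

end

section

/-! Elements that move no point to an opposite point are long root elements. -/

set_option autoImplicit false
set_option linter.unnecessarySeqFocus false
set_option linter.unusedSimpArgs false
set_option linter.unusedSectionVars false

namespace Pool.Agent.MP_db74b1_al.Lt.Tri

variable {K : Type} [Field K] {τ : K →+* K}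

namespace D

/-- `x` lies in the orbit of `u₁` -/
def Pt (τ : K →+* K) (x : O K) : Prop := ∃ p ∈ tri τ, p (e 1) = x

theorem Pt.map {x y : O K} (h : Pt τ x) {g : GO K} (hg : g ∈ tri τ) (hy : g x = y) : Pt τ y := by
  obtain ⟨p, hp, rfl⟩ := h
  exact ⟨g * p, mul_mem hg hp, hy⟩

theorem Pt.qs {a : GO K} (h1 : QS τ a) {x : O K} (h : Pt τ x) : Bf x (a x) = 0 := by
  obtain ⟨p, hp, rfl⟩ := h
  exact h1 p hp

theorem pt1 : Pt τ (e 1) := ⟨1, one_mem _, rfl⟩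

theorem pt2 : Pt τ (e 2) := pt1.map (cy_mem τ) (by apply ext8 <;> simp [e, cy_apply])

variable (h3 : ∀ t, τ (τ (τ t)) = t)
include h3

theorem pt14 : Pt τ (e 0 + e 1 - e 4 - e 7) :=
  pt1.map (xv1_mem h3 1) (by apply ext8 <;> simp [e, xv1_apply])

theorem pt5 : Pt τ (e 5) := by
  have k1 : Pt τ (-e 4) := (pt14 h3).map (xu1_mem h3 1) (by apply ext8 <;> simp [e, xu1_apply])
  have k2 : Pt τ (-e 5) := k1.map (cy_mem τ) (by apply ext8 <;> simp [e, cy_apply])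
  have k3 : Pt τ (-e 6) := k2.map (sw_mem τ) (by apply ext8 <;> simp [e, sw_apply])
  exact k3.map (sw_mem τ) (by apply ext8 <;> simp [e, sw_apply])

theorem pt6 : Pt τ (e 6) := (pt5 h3).map (cy_mem τ) (by apply ext8 <;> simp [e, cy_apply])

theorem pt16 : Pt τ (e 1 + e 6) :=
  pt1.map (xu2_mem h3 (-1)) (by apply ext8 <;> simp [e, xu2_apply])

theorem pt51 : Pt τ (e 5 + e 1) :=
  (pt5 h3).map (xv3_mem h3 (-1)) (by apply ext8 <;> simp [e, xv3_apply])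

theorem pt56 : Pt τ (e 5 + e 6) :=
  (pt5 h3).map (l23_mem (s := -1) (by simp)) (by apply ext8 <;> simp [e, l23_apply])

theorem pt26 : Pt τ (e 2 + e 6) :=
  pt2.map (xu1_mem h3 1) (by apply ext8 <;> simp [e, xu1_apply])

theorem pt12 : Pt τ (e 1 + e 2) :=
  pt1.map (l21_mem (s := 1) (by simp)) (by apply ext8 <;> simp [e, l21_apply])

theorem pt25 : Pt τ (e 0 - e 2 + e 5 - e 7) :=
  (pt5 h3).map (xu2_mem h3 1) (by apply ext8 <;> simp [e, xu2_apply])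

theorem step1 {a : GO K} (h1 : QS τ a) {α β γ δ : K} (e1 : a (e 1) = α • e 3 + β • e 4)
    (e6 : a (e 6) = γ • e 3 + δ • e 4) : α ≠ 0 ∧ a (e 1) = α • e 3 ∧ a (e 6) = (-α) • e 4 := by
  have k1 := pt1.qs h1
  have k2 := (pt6 h3).qs h1
  have k3 := (pt16 h3).qs h1
  rw [map_add] at k3
  rw [e1] at k1 k3
  rw [e6] at k2 k3
  simp [Bf, e] at k1 k2 k3
  subst k1 k2
  have k4 : δ = -α := by linear_combination -k3
  subst k4
  simp only [zero_smul, add_zero, zero_add] at e1 e6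
  refine ⟨fun h => ?_, e1, e6⟩
  rw [h, zero_smul] at e1
  have := congrFun (a.map_eq_zero_iff.1 e1) 1
  simp [e] at this

theorem step2 {a : GO K} (ha : a ∈ tri τ) (h1 : QS τ a) {l : K} (hl : l ≠ 0)
    (e1 : a (e 1) = l • e 3) (e6 : a (e 6) = (-l) • e 4) : ∃ b : K, a (e 5) = b • e 5 := by
  have t1 : tw τ (e 1) (e 5) = 0 := by
    apply ext8 <;> simp [e, tw0, tw1, tw2, tw3, tw4, tw5, tw6, tw7]
  have t2 : tw τ (e 5) (e 1) = 0 := by
    apply ext8 <;> simp [e, tw0, tw1, tw2, tw3, tw4, tw5, tw6, tw7]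
  have k1 := tw_au ha (e 1) (e 5)
  have k2 := tw_au ha (e 5) (e 1)
  rw [t1, map_zero, e1] at k1
  rw [t2, map_zero, e1] at k2
  have q1 := (pt51 h3).qs h1
  have q2 := (pt56 h3).qs h1
  rw [map_add, e1] at q1
  rw [map_add, e6] at q2
  generalize a (e 5) = w at *
  have c0 := congrFun k1 0
  have c3 := congrFun k1 3
  have c4 := congrFun k1 4
  have c5 := congrFun k1 5
  have d3 := congrFun k2 3
  simp [tw0, tw3, tw4, tw5, e, hl] at c0 c3 c4 c5 d3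
  simp [Bf, e, c4] at q1 q2
  exact ⟨w 5, by apply ext8 <;> simp [e, *]⟩

theorem step3 {a : GO K} (ha : a ∈ tri τ) (h1 : QS τ a) {l : K} (hl : l ≠ 0)
    (e1 : a (e 1) = l • e 3) (e6 : a (e 6) = (-l) • e 4) : ∃ b : K, a (e 2) = b • e 2 := by
  have t1 : tw τ (e 6) (e 2) = 0 := by
    apply ext8 <;> simp [e, tw0, tw1, tw2, tw3, tw4, tw5, tw6, tw7]
  have t2 : tw τ (e 2) (e 6) = 0 := by
    apply ext8 <;> simp [e, tw0, tw1, tw2, tw3, tw4, tw5, tw6, tw7]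
  have k1 := tw_au ha (e 6) (e 2)
  have k2 := tw_au ha (e 2) (e 6)
  rw [t1, map_zero, e6] at k1
  rw [t2, map_zero, e6] at k2
  have q1 := (pt26 h3).qs h1
  have q2 := (pt12 h3).qs h1
  rw [map_add, e6] at q1
  rw [map_add, e1] at q2
  generalize a (e 2) = w at *
  have c2 := congrFun k1 2
  have c3 := congrFun k1 3
  have c4 := congrFun k1 4
  have c7 := congrFun k1 7
  have d4 := congrFun k2 4
  simp [tw2, tw3, tw4, tw7, e, hl] at c2 c3 c4 c7 d4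
  simp [Bf, e, c3] at q1 q2
  exact ⟨w 2, by apply ext8 <;> simp [e, *]⟩

theorem step4 {a : GO K} (ha : a ∈ tri τ) (h1 : QS τ a) {l : K} (hl : l ≠ 0)
    (e1 : a (e 1) = l • e 3) (e6 : a (e 6) = (-l) • e 4) :
    τ l = l ∧ a (e 5) = e 5 ∧ a (e 2) = e 2 ∧ a (e 0) = e 0 ∧ a (e 7) = e 7 := by
  obtain ⟨b, e5⟩ := step2 h3 ha h1 hl e1 e6
  obtain ⟨c, e2⟩ := step3 h3 ha h1 hl e1 e6
  have k0 := Bf_au h3 ha (e 2) (e 5)
  rw [e2, e5] at k0
  simp [Bf, e] at k0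
  have t1 : tw τ (e 5) (e 6) = e 1 := by
    apply ext8 <;> simp [e, tw0, tw1, tw2, tw3, tw4, tw5, tw6, tw7]
  have t2 : tw τ (e 2) (e 5) = e 0 := by
    apply ext8 <;> simp [e, tw0, tw1, tw2, tw3, tw4, tw5, tw6, tw7]
  have t3 : tw τ (e 5) (e 2) = e 7 := by
    apply ext8 <;> simp [e, tw0, tw1, tw2, tw3, tw4, tw5, tw6, tw7]
  have k1 := tw_au ha (e 5) (e 6)
  have k2 := tw_au ha (e 2) (e 5)
  have k3 := tw_au ha (e 5) (e 2)
  rw [t1, e1, e5, e6] at k1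
  rw [t2, e2, e5] at k2
  rw [t3, e2, e5] at k3
  have e0 : a (e 0) = (τ c * τ (τ b)) • e 0 := by
    rw [k2]; apply ext8 <;> simp [e, tw0, tw1, tw2, tw3, tw4, tw5, tw6, tw7]
  have e7 : a (e 7) = (τ b * τ (τ c)) • e 7 := by
    rw [k3]; apply ext8 <;> simp [e, tw0, tw1, tw2, tw3, tw4, tw5, tw6, tw7]
  have r0 : l = τ b * τ (τ l) := by
    have := congrFun k1 3
    simpa [tw3, e] using this
  have r1 : τ l = τ (τ b) * l := by
    have := congrArg τ r0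
    rwa [map_mul, h3] at this
  have r2 : τ (τ l) = b * τ l := by
    have := congrArg τ r1
    rwa [map_mul, h3] at this
  have s1 : τ c * τ b = 1 := by rw [← map_mul, k0, map_one]
  have s2 : τ (τ c) * τ (τ b) = 1 := by rw [← map_mul, s1, map_one]
  have q := (pt25 h3).qs h1
  simp only [map_add, map_sub] at q
  rw [e0, e2, e5, e7] at q
  simp [Bf, e] at q
  have hl1 : τ l ≠ 0 := (map_ne_zero τ).2 hl
  have hl2 : τ (τ l) ≠ 0 := (map_ne_zero τ).2 hl1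
  have b0 : b = τ (τ l) / τ l := by rw [r2]; field_simp
  have b1 : τ b = l / τ (τ l) := by rw [eq_div_iff hl2]; exact r0.symm
  have b2 : τ (τ b) = τ l / l := by rw [eq_div_iff hl]; exact r1.symm
  have c0 : c = τ l / τ (τ l) := by
    rw [eq_div_iff hl2, r2]; linear_combination τ l * k0
  have c1 : τ c = τ (τ l) / l := by
    rw [eq_div_iff hl]; linear_combination τ c * r0 + τ (τ l) * s1
  have c2 : τ (τ c) = l / τ l := by
    rw [eq_div_iff hl1]; linear_combination τ (τ c) * r1 + l * s2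
  have key : (τ l ^ 2 - l ^ 2) * (τ (τ l) ^ 2 - l ^ 2) = 0 := by
    rw [c2, c1, b2, b1] at q
    rw [c0, b0] at q
    field_simp at q
    linear_combination -q
  have sq : τ l ^ 2 = l ^ 2 := by
    rcases mul_eq_zero.1 key with h | h
    · exact sub_eq_zero.1 h
    · have := congrArg τ (sub_eq_zero.1 h)
      rw [map_pow, map_pow, h3] at this
      exact this.symm
  have fx : τ l = l := by
    rcases sq_eq_sq_iff_eq_or_eq_neg.1 sq with h | h
    · exact h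
    · have := h3 l
      rw [h, map_neg, h, neg_neg, h] at this
      rw [h, this]
  have hb : b = 1 := by rw [b0, fx, fx]; exact div_self hl
  have hc : c = 1 := by rw [c0, fx, fx]; exact div_self hl
  subst hb hc
  simp only [map_one, one_smul, mul_one] at e0 e7 e2 e5
  exact ⟨fx, e5, e2, e0, e7⟩

theorem step5 {a : GO K} (ha : a ∈ tri τ) (h1 : QS τ a) {l : K} (hl : l ≠ 0)
    (e1 : a (e 1) = l • e 3) (e6 : a (e 6) = (-l) • e 4) (e5 : a (e 5) = e 5) (e2 : a (e 2) = e 2)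
    (e0 : a (e 0) = e 0) (e7 : a (e 7) = e 7) :
    a (e 3) = (-l⁻¹) • e 1 + (2 : K) • e 3 ∧ a (e 4) = (2 : K) • e 4 + l⁻¹ • e 6 := by
  have y0 := Bf_au h3 ha (e 3) (e 0)
  have y1 := Bf_au h3 ha (e 3) (e 1)
  have y2 := Bf_au h3 ha (e 3) (e 2)
  have y5 := Bf_au h3 ha (e 3) (e 5)
  have y6 := Bf_au h3 ha (e 3) (e 6)
  have y7 := Bf_au h3 ha (e 3) (e 7)
  have x0 := Bf_au h3 ha (e 4) (e 0)
  have x1 := Bf_au h3 ha (e 4) (e 1)
  have x2 := Bf_au h3 ha (e 4) (e 2)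
  have x5 := Bf_au h3 ha (e 4) (e 5)
  have x6 := Bf_au h3 ha (e 4) (e 6)
  have x7 := Bf_au h3 ha (e 4) (e 7)
  have n3 := Nf_au h3 ha (e 3)
  have n4 := Nf_au h3 ha (e 4)
  have xy := Bf_au h3 ha (e 3) (e 4)
  have q := (pt14 h3).qs h1
  simp only [map_add, map_sub] at q
  rw [e0] at y0 x0 q
  rw [e1] at y1 x1 q
  rw [e2] at y2 x2
  rw [e5] at y5 x5
  rw [e6] at y6 x6
  rw [e7] at y7 x7 q
  generalize a (e 3) = y at *
  generalize a (e 4) = x at *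
  simp [Bf, e, hl] at y0 y1 y2 y5 y6 y7 x0 x1 x2 x5 x6 x7
  have y1' : y 1 = -l⁻¹ := by field_simp; linear_combination y6
  have x6' : x 6 = l⁻¹ := by field_simp; linear_combination x1
  simp [Bf, Nf, e, hl, y0, y1, y2, y5, y7, x0, x2, x5, x6, x7, y1', x6'] at n3 n4 xy q
  have x4 : x 4 = 2 := by linear_combination q
  have y3 : y 3 = 2 := by
    rw [x4] at xy
    field_simp at xy
    linear_combination -xy
  constructor <;> apply ext8 <;> simp [e, *]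

theorem core {a : GO K} (ha : a ∈ tri τ) (h1 : QS τ a) {α β γ δ : K}
    (e1 : a (e 1) = α • e 3 + β • e 4) (e6 : a (e 6) = γ • e 3 + δ • e 4) :
    α ≠ 0 ∧ τ α = α ∧ Cj τ a (l12 α) := by
  obtain ⟨hl, e1, e6⟩ := step1 h3 h1 e1 e6
  obtain ⟨fx, e5, e2, e0, e7⟩ := step4 h3 ha h1 hl e1 e6
  obtain ⟨e3, e4⟩ := step5 h3 ha h1 hl e1 e6 e5 e2 e0 e7
  refine ⟨hl, fx, cy * l13 α⁻¹, mul_mem (cy_mem τ) (l13_mem (by rw [map_inv₀, fx])), ?_⟩
  have k : ∀ x : O K, a x = ![x 0, -α⁻¹ * x 3, x 2, α * x 1 + 2 * x 3, 2 * x 4 - α * x 6, x 5,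
      α⁻¹ * x 4, x 7] := fun x => by
    have hx : x = x 0 • e 0 + x 1 • e 1 + x 2 • e 2 + x 3 • e 3 + x 4 • e 4 + x 5 • e 5 +
        x 6 • e 6 + x 7 • e 7 := by apply ext8 <;> simp [e]
    conv_lhs => rw [hx]
    simp only [map_add, map_smul, e0, e1, e2, e3, e4, e5, e6, e7]
    apply ext8 <;> simp [e] <;> ring
  apply LinearEquiv.ext
  intro x
  rw [mul_inv_rev, l13_inv]
  simp only [LinearEquiv.mul_apply]
  rw [k, cy_inv_apply]
  apply ext8 <;> simp [cy_apply, l13_apply, l12_apply] <;> field_simp <;> ring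

end D

variable (h3 : ∀ t, τ (τ (τ t)) = t)
include h3

theorem QS_struct {a : GO K} (ha : a ∈ tri τ) (h1 : QS τ a) :
    a = 1 ∨ ∃ l : K, l ≠ 0 ∧ τ l = l ∧ Cj τ a (l12 l) := by
  by_cases h : DC τ a 0
  · exact Or.inl (triv_of h3 ha h1 h)
  · obtain ⟨a', α, β, γ, δ, hc, e1, e6⟩ := nf_line h3 ha h
    obtain ⟨k1, k2, k3⟩ := D.core h3 (hc.mem ha) (hc.QS h3 h1) e1 e6
    exact Or.inr ⟨α, k1, k2, hc.trans k3⟩

end Pool.Agent.MP_db74b1_al.Lt.Tri

end
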