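import Pool.Agent.Mg.Fdb74b1.Gac2122

section

/-! `F₄(2)`: the 26-dimensional module. -/

set_option autoImplicit false

namespace Pool.Agent.MP_db74b1_al.Exc

/-- short roots of `F₄`, as roots of `E₆` moved by the graph symmetry -/
def Sh (β : Lat) : Prop := ipx β β = 2 ∧ Sp 6 β ∧ ¬ ∀ i, sg true β i = β i
/-- long roots of `F₄` -/
def Lo (β : Lat) : Prop := ipx β β = 2 ∧ Sp 6 β ∧ ∀ i, sg true β i = β i
instance (β : Lat) : Decidable (Sh β) := by unfold Sh; infer_instance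
instance (β : Lat) : Decidable (Lo β) := by unfold Lo; infer_instance
/-- twice the `F₄` inner product (short roots have `ips β β = 2`) -/
def ips (β γ : Lat) : ℤ := ipx β γ + ipx β (sg true γ)
def p2 : Lat := v8 1 1 2 2 1 0 0 0
def s1 : Lat := v8 1 0 1 1 1 0 0 0
def l3 : Lat := v8 1 1 1 1 1 1 0 0
def be : Lat := v8 0 0 1 1 0 0 0 0

variable {K : Type} [Field K]

noncomputable def sh (β : Lat) : L K := e β + e (sg true β)
def hs (β : Lat) : L K := hv β + hv (sg true β)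

/-- the module -/
def MM (K : Type) [Field K] : Submodule K (L K) where
  carrier := {m | (∀ β, ¬ Sh β → co β m = 0) ∧ (∀ β, Sh β → co (sg true β) m = co β m) ∧
    m.1 1 = 0 ∧ m.1 3 = 0 ∧ m.1 6 = 0 ∧ m.1 7 = 0 ∧ m.1 5 = m.1 0 ∧ m.1 4 = m.1 2}
  zero_mem' := ⟨fun _ _ => map_zero _, fun _ _ => by simp, rfl, rfl, rfl, rfl, rfl, rfl⟩
  add_mem' := fun {v w} ⟨h1, h2, h3, h4, h5, h6, h7, h8⟩ ⟨k1, k2, k3, k4, k5, k6, k7, k8⟩ =>
    ⟨fun β h => by simp [h1 β h, k1 β h], fun β h => by simp [h2 β h, k2 β h],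
      by simp [h3, k3], by simp [h4, k4], by simp [h5, k5], by simp [h6, k6], by simp [h7, k7],
      by simp [h8, k8]⟩
  smul_mem' := fun r v ⟨h1, h2, h3, h4, h5, h6, h7, h8⟩ =>
    ⟨fun β h => by simp [h1 β h], fun β h => by simp [h2 β h], by simp [h3], by simp [h4],
      by simp [h5], by simp [h6], by simp [h7], by simp [h8]⟩

/-- representatives of the pairs `β, sg β` -/
def rep (β : Lat) : Prop := β 5 < β 0 ∨ (β 5 = β 0 ∧ β 4 < β 2)
instance (β : Lat) : Decidable (rep β) := by unfold rep; infer_instance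

/-- a section of `v ↦ v - st v` -/
def sec : L K →ₗ[K] L K where
  toFun m := (fun i => if i = 0 ∨ i = 2 then m.1 i else 0, fun β => if rep β.1 then m.2 β else 0)
  map_add' v w := by ext i <;> simp only [Prod.fst_add, Prod.snd_add, Pi.add_apply] <;>
    split_ifs <;> simp
  map_smul' r v := by ext i <;> simp

/-- the invariant form of `MM` -/
noncomputable def Bm : L K →ₗ[K] L K →ₗ[K] K := gf ∘ₗ sec

theorem ipx_comm (x y : Lat) : ipx x y = ipx y x := add_comm _ _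

theorem ipx_sg6 {x y : Lat} (hx : Sp 6 x) (hy : Sp 6 y) :
    ipx (sg true x) (sg true y) = ipx x y := by
  simp only [ipx, ← form_x, form_sg6 hx hy, form_sg6 hy hx]

theorem Sp6_sg {x : Lat} (h : Sp 6 x) : Sp 6 (sg true x) := fun j hj => by
  have h6 := h 6 (by decide)
  have h7 := h 7 (by decide)
  fin_cases j <;> first | exact absurd hj (by decide) | assumption

theorem Sh.ne {β : Lat} (h : Sh β) : sg true β ≠ β := fun h' => h.2.2 fun i => congrFun h' i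

theorem Sh.neg {β : Lat} (h : Sh β) : Sh (-β) :=
  ⟨by rw [← ip_x, norm_neg, ip_x, h.1], h.2.1.neg, fun h' => h.2.2 fun i => neg_inj.1 (h' i)⟩
theorem Sh.sg {β : Lat} (h : Sh β) : Sh (sg true β) :=
  ⟨by rw [ipx_sg6 h.2.1 h.2.1, h.1], Sp6_sg h.2.1, fun h' => h.2.2 fun i => by
    have := h' i
    rw [sg_sg] at this
    exact this.symm⟩
theorem Sh.root {β : Lat} (h : Sh β) : ip β β = 2 := by rw [ip_x, h.1]
theorem Sh.allL {β : Lat} (h : Sh β) : β ∈ allL := mem_allL h.root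
theorem Lo.neg {β : Lat} (h : Lo β) : Lo (-β) :=
  ⟨by rw [← ip_x, norm_neg, ip_x, h.1], h.2.1.neg, fun i => congrArg Neg.neg (h.2.2 i)⟩
theorem Lo.root {β : Lat} (h : Lo β) : ip β β = 2 := by rw [ip_x, h.1]
theorem Lo.allL {β : Lat} (h : Lo β) : β ∈ allL := mem_allL h.root
theorem Lo.not_Sh {β : Lat} (h : Lo β) : ¬ Sh β := fun h' => h'.2.2 h.2.2
theorem sh_sg (β : Lat) : (sh (sg true β) : L K) = sh β := by rw [sh, sh, sg_sg, add_comm]
theorem hs_sg (β : Lat) : (hs (sg true β) : L K) = hs β := by rw [hs, hs, sg_sg, add_comm]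
theorem ips_sg {β γ : Lat} : ips β (sg true γ) = ips β γ := by rw [ips, ips, sg_sg, add_comm]
theorem ips_comm {β γ : Lat} (hβ : Sp 6 β) (hγ : Sp 6 γ) : ips β γ = ips γ β := by
  rw [ips, ips, ← ipx_sg6 hβ (Sp6_sg hγ), sg_sg, ipx_comm β, ipx_comm (sg true β)]
theorem ips_neg (β γ : Lat) : ips β (-γ) = -ips β γ := by
  simp only [ips, sg_neg, ← ip_x, ip_neg_right]; ring
theorem ips_add (β γ δ : Lat) : ips β (γ + δ) = ips β γ + ips β δ := by
  simp only [ips, sg_add, ← ip_x, ip_add_right]; ring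

theorem sh_orth_fin : ∀ β ∈ allL, Sh β → ipx β (sg true β) = 0 := by decide +kernel

theorem sh_pair_fin : ∀ β ∈ allL.filter fun x => decide (Sh x),
    ∀ γ ∈ allL.filter fun x => decide (Sh x), ¬ (ipx β γ = 1 ∧ ipx β (sg true γ) = 1) := by
  decide +kernel

theorem Sh.orth {β : Lat} (h : Sh β) : ip β (Exc.sg true β) = 0 := by
  rw [ip_x]; exact sh_orth_fin β h.allL h

theorem Sh.pair {β γ : Lat} (hβ : Sh β) (hγ : Sh γ) :
    ¬ (ip β γ = 1 ∧ ip β (Exc.sg true γ) = 1) := by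
  rw [ip_x, ip_x]
  exact sh_pair_fin β (List.mem_filter.2 ⟨hβ.allL, decide_eq_true hβ⟩) γ
    (List.mem_filter.2 ⟨hγ.allL, decide_eq_true hγ⟩)

theorem ips_cases {β γ : Lat} (hβ : Sh β) (hγ : Sh γ) :
    (ips β γ = 2 ∧ (γ = β ∨ γ = sg true β)) ∨ ips β γ = 1 ∨ ips β γ = 0 ∨
    (ips β γ = -1 ∧ ((ipx β γ = -1 ∧ ipx β (sg true γ) = 0) ∨
      (ipx β γ = 0 ∧ ipx β (sg true γ) = -1))) ∨
    (ips β γ = -2 ∧ (γ = -β ∨ γ = -sg true β)) := by
  have o := hβ.orth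
  have r := hβ.root
  simp only [ips, ← ip_x]
  by_cases h1 : γ = β
  · subst h1; exact Or.inl ⟨by omega, Or.inl rfl⟩
  by_cases h2 : γ = sg true β
  · subst h2; exact Or.inl ⟨by rw [sg_sg]; omega, Or.inr rfl⟩
  by_cases h3 : γ = -β
  · subst h3
    exact Or.inr (Or.inr (Or.inr (Or.inr ⟨by rw [sg_neg, ip_neg_right, ip_neg_right]; omega,
      Or.inl rfl⟩)))
  by_cases h4 : γ = -sg true β
  · subst h4
    exact Or.inr (Or.inr (Or.inr (Or.inr
      ⟨by rw [sg_neg, sg_sg, ip_neg_right, ip_neg_right]; omega, Or.inr rfl⟩)))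
  have a1 := ip_le_one r hγ.root (Ne.symm h1)
  have a2 := ip_le_one r hγ.sg.root fun h => h2 (by rw [h, sg_sg])
  have a3 := neg_one_le_ip r hγ.root fun h => h3 (eq_neg_of_add_eq_zero_right h)
  have a4 := neg_one_le_ip r hγ.sg.root fun h => h4 (by
    rw [← sg_neg, ← eq_neg_of_add_eq_zero_right h, sg_sg])
  have a5 := hβ.pair hγ
  have a6 := hβ.pair hγ.neg
  rw [sg_neg, ip_neg_right, ip_neg_right] at a6
  refine Or.inr ?_
  rw [← or_assoc, ← or_assoc]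
  refine Or.inl ?_
  omega
theorem Sh.add {β γ : Lat} (hβ : Sh β) (hγ : Sh γ) (h1 : ipx β γ = -1)
    (h2 : ipx β (Exc.sg true γ) = 0) : Sh (β + γ) := by
  rw [← ip_x] at h1 h2
  refine ⟨by rw [← ip_x, root_add hβ.root hγ.root, h1], hβ.2.1.add hγ.2.1, fun h => ?_⟩
  have h3 := congrArg (ip β) (funext h)
  rw [sg_add, ip_add_right, ip_add_right, hβ.orth, hβ.root] at h3
  omega
theorem Lo.add {l γ : Lat} (hl : Lo l) (hγ : Sh γ) (h : ipx l γ = -1) : Sh (l + γ) := by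
  rw [← ip_x] at h
  refine ⟨by rw [← ip_x, root_add hl.root hγ.root, h], hl.2.1.add hγ.2.1, fun h' => hγ.2.2 fun i => ?_⟩
  have h1 := h' i
  have h2 := hl.2.2 i
  rw [sg_add, Pi.add_apply, Pi.add_apply] at h1
  omega
theorem Lo.cases {l γ : Lat} (hl : Lo l) (hγ : Sh γ) : ipx l γ = -1 ∨ 0 ≤ ipx l γ := by
  rw [← ip_x]
  exact (ip_cases hl.root hγ.root).resolve_left fun h => hl.neg.not_Sh (h ▸ hγ)
theorem co_sh {β γ : Lat} (h : Sh γ) :
    co β (sh γ : L K) = if β = γ ∨ β = sg true γ then 1 else 0 := by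
  rw [sh, map_add]
  by_cases h1 : β = γ
  · subst h1; simp [co_e_self h.root, co_e_ne h.ne.symm]
  by_cases h2 : β = sg true γ
  · subst h2; simp [co_e_self h.sg.root, co_e_ne h.ne]
  simp [co_e_ne h1, co_e_ne h2, h1, h2]
theorem sh_fst (β : Lat) : (sh β : L K).1 = 0 := by simp [sh, e_fst]
theorem sh_mem {β : Lat} (h : Sh β) : (sh β : L K) ∈ MM K := by
  refine ⟨fun γ hγ => ?_, fun γ _ => ?_, ?_, ?_, ?_, ?_, ?_, ?_⟩
  · rw [co_sh h, if_neg]
    rintro (rfl | rfl)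
    · exact hγ h
    · exact hγ h.sg
  · rw [co_sh h, co_sh h]
    refine if_congr ?_ rfl rfl
    rw [sg_inj, or_comm]
    exact or_congr Iff.rfl ⟨fun h' => by rw [← h', sg_sg], fun h' => by rw [h', sg_sg]⟩
  all_goals simp [sh_fst]
theorem co_sh_self {γ : Lat} (h : Sh γ) : co γ (sh γ : L K) = 1 := by simp [co_sh h]
theorem co_sh_ne {β γ : Lat} (h : β ≠ γ ∧ β ≠ sg true γ) : co β (sh γ : L K) = 0 := by
  simp [sh, co_e_ne h.1, co_e_ne h.2]
theorem co_hs (β γ : Lat) : co β (hs γ : L K) = 0 := by simp [hs, co_hv]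
theorem hp_sh (β γ : Lat) : hp β (sh γ : L K) = 0 := by simp [sh, hp_e]
theorem hp_hs {β γ : Lat} : hp γ (hs β : L K) = (ips γ β : K) := by
  simp [hs, hp_hv, ips, ← ip_x, ip_comm γ]

theorem rep_sg {β : Lat} (h : Sh β) : rep (sg true β) ↔ ¬ rep β := by
  have h1 : ¬ (β 5 = β 0 ∧ β 4 = β 2) := fun h' => h.2.2 fun i => by
    fin_cases i <;> simp [sg, pm, h'.1, h'.2]
  change (β 0 < β 5 ∨ (β 0 = β 5 ∧ β 2 < β 4)) ↔ ¬ (β 5 < β 0 ∨ (β 5 = β 0 ∧ β 4 < β 2))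
  omega

theorem co_sec (β : Lat) (m : L K) : co β (sec m) = if rep β then co β m else 0 := by
  by_cases h : ip β β = 2
  · rw [co_of_root h, co_of_root h]; rfl
  · simp [co_of_not h]

theorem sec_fst (m : L K) (i : Fin 8) : (sec m).1 i = if i = 0 ∨ i = 2 then m.1 i else 0 := rfl

theorem hp_cv (β : Lat) (m : L K) : hp β m = ∑ i : Fin 8, (cv β i : K) * m.1 i := by
  simp only [hp_apply, a_eq, ip_comm _ β, ip_a]

namespace Cfg

variable {c : Cfg K}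

/-- the group `F₄(2)` -/
structure F2 (c : Cfg K) : Prop where
  hb : c.b = true
  hτ : ∀ t, c.τ t = t
  hq : c.Q2

variable (c) in
/-- constant trace on `MM` -/
def H2 (a b : Aut K) : Prop :=
  ∃ k, ∀ a' b', c.Cj a a' → c.Cj b b' → TW (MM K) (a' * b' : Aut K) = k

variable (c) in
/-- `g + g⁻¹` is orthogonal to the pairs of short root vectors with `ips = k`. -/
def BS (k : ℤ) (g : Aut K) : Prop := ∀ p ∈ c.G, ∀ β γ, Sh β → Sh γ → ips β γ = k →
  Bm (p (sh β)) (g (p (sh γ))) = Bm (p (sh γ)) (g (p (sh β)))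

namespace F2

variable (F : c.F2)
include F

theorem two : (2 : K) = 0 := F.hq.two
theorem val (t : K) : t = 0 ∨ t = 1 := F.hq t (F.hτ t)
theorem hn : c.n = 6 := by
  rcases c.ok with ⟨h, _⟩ | ⟨_, h, _⟩
  · rw [F.hb] at h; exact absurd h (by decide)
  · exact h
theorem add_self (v : L K) : v + v = 0 := by rw [← two_smul K, F.two, zero_smul]
theorem sub_eq (v w : L K) : v - w = v + w := by rw [sub_eq_add_neg, neg_eq2 F.two]
theorem sub_swap (s t : K) : s - t = t - s := by linear_combination (s - t) * F.two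
theorem R_Sh {β : Lat} (h : Sh β) : c.R β := ⟨h.root, F.hn ▸ h.2.1⟩
theorem mov {β : Lat} (h : Sh β) : sg c.b β ≠ β := F.hb ▸ h.ne
theorem Lg_Lo {β : Lat} (h : Lo β) : c.Lg β := ⟨⟨h.root, F.hn ▸ h.2.1⟩, F.hb ▸ funext h.2.2⟩
theorem R_cases {β : Lat} (h : c.R β) : Sh β ∨ Lo β := by
  have h1 : ipx β β = 2 := by rw [← ip_x, h.1]
  have h2 : Sp 6 β := F.hn ▸ h.2
  by_cases h3 : ∀ i, sg true β i = β i
  · exact Or.inr ⟨h1, h2, h3⟩
  · exact Or.inl ⟨h1, h2, h3⟩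
theorem Y_mem_Sh {β : Lat} (h : Sh β) : c.Y β 1 ∈ c.G := Y_mem (F.R_Sh h) (Al_one _)
theorem X_mem_Lo {β : Lat} (h : Lo β) : X β 1 ∈ c.G := (F.Lg_Lo h).X_mem
theorem hs_mem {β : Lat} (h : Sp 6 β) : (hs β : L K) ∈ MM K := by
  have h6 := h 6 (by decide)
  have h7 := h 7 (by decide)
  refine ⟨fun γ _ => co_hs _ _, fun γ _ => by rw [co_hs, co_hs], ?_, ?_, ?_, ?_, ?_, ?_⟩ <;>
    simp only [hs, hv, sg, pm, Prod.fst_add, Pi.add_apply, h6, h7]
  · linear_combination (β 1 : K) * F.two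
  · linear_combination (β 3 : K) * F.two
  · simp
  · simp
  · ring
  · ring
theorem MM_le : MM K ≤ c.V := fun m hm => by
  refine ⟨fun j hj => ?_, fun β hβ => hm.1 β fun h => hβ (F.hn ▸ h.2.1)⟩
  rw [F.hn] at hj
  have h6 := hm.2.2.2.2.1
  have h7 := hm.2.2.2.2.2.1
  fin_cases j <;> first | exact absurd hj (by decide) | assumption
theorem D_e {β : Lat} (h : Sp 6 β) : e β - c.st (e β) = sh β := by
  rw [st_e (F.hn ▸ h), F.hb, F.sub_eq, sh]
theorem D_hv (β : Lat) : hv β - c.st (hv β) = hs β := by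
  rw [st_hv, F.hb, F.sub_eq, hs]
theorem co_st' {β : Lat} (h : c.R β) (v : L K) : co β (c.st v) = co (sg true β) v := by
  have := co_st h.sg v
  rwa [sg_sg, F.hτ, F.hb] at this
theorem st_fst' (v : L K) (i : Fin 8) : (c.st v).1 i = v.1 (pm true i) := by
  rw [st_fst, F.hτ, F.hb]
theorem D_mem {v : L K} (hv : v ∈ c.V) : v - c.st v ∈ MM K := by
  have h6 := hv.1 6 (by rw [F.hn]; decide)
  have h7 := hv.1 7 (by rw [F.hn]; decide)
  refine ⟨fun β hβ => ?_, fun β hβ => ?_, ?_, ?_, ?_, ?_, ?_, ?_⟩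
  · by_cases h1 : ip β β = 2
    · by_cases h2 : Sp c.n β
      · have h3 := (F.R_cases ⟨h1, h2⟩).resolve_left hβ
        rw [map_sub, F.co_st' ⟨h1, h2⟩, funext h3.2.2, sub_self]
      · exact (sub_mem hv (st_mem hv)).2 β h2
    · exact co_of_not h1 _
  · rw [map_sub, map_sub, F.co_st' (F.R_Sh hβ), F.co_st' (F.R_Sh hβ.sg), sg_sg, F.sub_swap]
  all_goals simp only [Prod.fst_sub, Pi.sub_apply, F.st_fst', pm, sub_self]
  · exact F.sub_swap _ _
  · exact F.sub_swap _ _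
theorem D_sec {m : L K} (hm : m ∈ MM K) : sec m ∈ c.V ∧ sec m - c.st (sec m) = m := by
  have h0 : sec m ∈ c.V := by
    refine ⟨fun j hj => ?_, fun β hβ => ?_⟩
    · rw [sec_fst, (F.MM_le hm).1 j hj, ite_self]
    · rw [co_sec, (F.MM_le hm).2 β hβ, ite_self]
  refine ⟨h0, L_eq ?_ fun β _ => ?_⟩
  · obtain ⟨-, -, h1, h3, h6, h7, h5, h4⟩ := hm
    ext i
    rw [F.sub_eq, Prod.fst_add, Pi.add_apply, F.st_fst', sec_fst, sec_fst]
    fin_cases i <;> simp [pm, h1, h3, h6, h7, h5, h4]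
  · by_cases h : Sh β
    · rw [F.sub_eq, map_add, F.co_st' (F.R_Sh h), co_sec, co_sec, hm.2.1 β h]
      by_cases h1 : rep β <;> simp [rep_sg h, h1]
    · rw [hm.1 β h, (F.D_mem h0).1 β h]
theorem MM_G {g : Aut K} (hg : g ∈ c.G) {m : L K} (hm : m ∈ MM K) : g m ∈ MM K := by
  obtain ⟨h1, h2⟩ := F.D_sec hm
  rw [← h2, map_sub, ← G_st hg h1]
  exact F.D_mem (G_mem hg h1)
theorem MM_gen {P : L K → Prop} (h0 : P 0)
    (hadd : ∀ v w, v ∈ MM K → w ∈ MM K → P v → P w → P (v + w)) {m : L K} (hm : m ∈ MM K)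
    (hS : ∀ β, Sh β → co β m ≠ 0 → P (sh β)) (h1 : m.1 0 ≠ 0 → P (hs (a 0)))
    (h2 : m.1 2 ≠ 0 → P (hs (a 2))) : P m := by
  have hadd' : ∀ v w, (v ∈ MM K ∧ P v) → (w ∈ MM K ∧ P w) → (v + w ∈ MM K ∧ P (v + w)) :=
    fun v w hv hw => ⟨add_mem hv.1 hw.1, hadd v w hv.1 hw.1 hv.2 hw.2⟩
  have e1 : m = ∑ i : Fin 8, (sec m).1 i • (hv (a i) - c.st (hv (a i))) +
      ∑ β : Root, (sec m).2 β • (e β.1 - c.st (e β.1)) := by
    conv_lhs => rw [← (F.D_sec hm).2, L_decomp (sec m)]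
    simp only [map_add, map_sum, map_smulₛₗ, F.hτ, smul_sub, Finset.sum_sub_distrib]
    abel
  rw [e1]
  refine (hadd' _ _ (Finset.sum_induction _ (fun v => v ∈ MM K ∧ P v) hadd' ⟨zero_mem _, h0⟩
    fun i _ => ?_) (Finset.sum_induction _ (fun v => v ∈ MM K ∧ P v) hadd' ⟨zero_mem _, h0⟩
    fun β _ => ?_)).2
  · rcases F.val ((sec m).1 i) with h | h
    · rw [h, zero_smul]; exact ⟨zero_mem _, h0⟩
    · rw [h, one_smul, F.D_hv]
      rw [sec_fst] at h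
      split_ifs at h with hi
      · rcases hi with rfl | rfl
        · exact ⟨F.hs_mem (by decide), h1 (by rw [h]; exact one_ne_zero)⟩
        · exact ⟨F.hs_mem (by decide), h2 (by rw [h]; exact one_ne_zero)⟩
      · exact absurd h zero_ne_one
  · rcases F.val ((sec m).2 β) with h | h
    · rw [h, zero_smul]; exact ⟨zero_mem _, h0⟩
    · rw [h, one_smul]
      rw [← co_of_root β.2, co_sec] at h
      have h3 : co β.1 m ≠ 0 := fun h4 => by simp [h4] at h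
      have h4 : Sh β.1 := by_contra fun h5 => h3 (hm.1 _ h5)
      rw [F.D_e h4.2.1]
      exact ⟨sh_mem h4, hS _ h4 h3⟩
theorem MM_supp (S : Lat → Prop) {P : L K → Prop} (h0 : P 0)
    (hadd : ∀ v w, v ∈ MM K → w ∈ MM K → P v → P w → P (v + w))
    (hS : ∀ β, Sh β → S β → P (sh β)) {m : L K} (hm : m ∈ MM K) (h1 : m.1 = 0)
    (h2 : ∀ β, Sh β → ¬ S β → co β m = 0) : P m :=
  F.MM_gen h0 hadd hm (fun β h h3 => hS β h (by_contra fun h4 => h3 (h2 β h h4)))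
    (fun h => absurd (congrFun h1 0) h) fun h => absurd (congrFun h1 2) h
theorem MM_ind {P : L K → Prop} (h0 : P 0)
    (hadd : ∀ v w, v ∈ MM K → w ∈ MM K → P v → P w → P (v + w))
    (hS : ∀ β, Sh β → P (sh β)) (h1 : P (hs (a 0))) (h2 : P (hs (a 2))) {m : L K}
    (hm : m ∈ MM K) : P m :=
  F.MM_gen h0 hadd hm (fun β h _ => hS β h) (fun _ => h1) fun _ => h2
theorem MM_ext {m : L K} (hm : m ∈ MM K) (h1 : m.1 = 0) (h2 : ∀ β, Sh β → co β m = 0) :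
    m = 0 :=
  F.MM_supp (fun _ => False) (P := fun v => v = 0) rfl (fun v w _ _ hv hw => by rw [hv, hw, add_zero])
    (fun _ _ h => h.elim) hm h1 fun β h _ => h2 β h
theorem cartan {m : L K} (hm : m ∈ MM K) (h1 : hp k0 m = 0) (h2 : ∀ β, Sh β → co β m = 0) :
    m = 0 ∨ m = hs k0 := by
  have hk : (hs k0 : L K) ∈ MM K := F.hs_mem (by decide)
  have k0' : (hs k0 : L K).1 0 = 0 := by
    simp only [hs, hv, sg, pm, k0, v8, Prod.fst_add, Pi.add_apply]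
    push_cast
    linear_combination F.two
  have k2' : (hs k0 : L K).1 2 = 1 := by
    simp only [hs, hv, sg, pm, k0, v8, Prod.fst_add, Pi.add_apply]
    push_cast
    linear_combination F.two
  have h0 : m.1 0 = 0 := by
    obtain ⟨-, -, a1, a3, a6, a7, a5, a4⟩ := hm
    rw [hp_cv, Fin.sum_univ_eight, a1, a3, a6, a7, a5, a4] at h1
    simp only [cv, k0, v8] at h1
    push_cast at h1
    linear_combination h1
  have key : ∀ v ∈ MM K, v.1 0 = 0 → v.1 2 = 0 → v.1 = 0 := fun v hv b0 b2 => by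
    obtain ⟨-, -, a1, a3, a6, a7, a5, a4⟩ := hv
    ext i
    fin_cases i <;> simp [a1, a3, a6, a7, a5, a4, b0, b2]
  rcases F.val (m.1 2) with h | h
  · exact Or.inl (F.MM_ext hm (key m hm h0 h) h2)
  · refine Or.inr (sub_eq_zero.1 (F.MM_ext (sub_mem hm hk) (key _ (sub_mem hm hk) ?_ ?_)
      fun β hβ => by rw [map_sub, h2 β hβ, co_hs, sub_self]))
    · rw [Prod.fst_sub, Pi.sub_apply, h0, k0', sub_self]
    · rw [Prod.fst_sub, Pi.sub_apply, h, k2', sub_self]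
theorem hp_sg {β : Lat} (h : Sp 6 β) {m : L K} (hm : m ∈ MM K) : hp (sg true β) m = hp β m := by
  obtain ⟨-, -, a1, a3, a6, a7, a5, a4⟩ := hm
  rw [hp_cv, hp_cv, Fin.sum_univ_eight, Fin.sum_univ_eight, a1, a3, a6, a7, a5, a4]
  simp only [cv, v8, sg, pm]
  push_cast
  ring

end F2

end Cfg

end Pool.Agent.MP_db74b1_al.Exc

end

section

/-! `F₄(2)`: brackets, root elements and the invariant form on the 26-dimensional module. -/

set_option autoImplicit false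

namespace Pool.Agent.MP_db74b1_al.Exc

namespace A2

theorem ip_ss {x y : Lat} (hx : Sp 6 x) (hy : Sp 6 y) : ip (sg true x) (sg true y) = ip x y := by
  rw [ip_eq, ip_eq, form_sg6 hx hy, form_sg6 hy hx]

theorem Sp_s {x : Lat} (hx : Sp 6 x) : Sp 6 (sg true x) := fun j hj => by
  have h6 := hx 6 (by decide)
  have h7 := hx 7 (by decide)
  fin_cases j <;> first | (exfalso; revert hj; decide) | exact h6 | exact h7

theorem ip_s {x y : Lat} (hx : Sp 6 x) (hy : Sp 6 y) : ip (sg true x) y = ip x (sg true y) := by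
  rw [← ip_ss hx (Sp_s hy), sg_sg]

theorem Lo_fix {l : Lat} (h : Lo l) : sg true l = l := funext h.2.2

theorem gf_hv {R : Type} [CommRing R] (y : Lat) (v : L R) : gf (hv y : L R) v = -hp y v := by
  induction v using L_ind with
  | hadd v w h1 h2 => rw [map_add, map_add, h1, h2, neg_add]
  | hsmul r v h1 => rw [map_smul, map_smul, h1, smul_neg]
  | h1 z => rw [gf_hv_hv, hp_hv, ip_comm]
  | h2 β _ => rw [gf_hv_e, hp_e, neg_zero]

theorem sp0 : Sp 6 (a 0) := by decide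
theorem sp2 : Sp 6 (a 2) := by decide
theorem k0_Sh : Sh k0 := by decide
theorem p2_k0 : Sp 6 p2 ∧ ips p2 k0 = 1 := by decide

end A2

open A2

variable {K : Type} [Field K]

namespace Cfg

variable {c : Cfg K}

namespace F2

variable (F : c.F2)
include F

theorem YY {β : Lat} (h : Sh β) : c.Y β 1 * c.Y β 1 = 1 := by
  rw [Y_add (F.R_Sh h), one_add_one_eq_two, F.two, Y_zero]

theorem a_orth {β : Lat} (h : Sh β) : ip β (sg true β) = 0 := by
  have := (F.R_Sh h).orth (F.mov h)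
  rwa [F.hb] at this

theorem a_ne {β : Lat} (h : Sh β) : β ≠ sg true β := fun h' => by
  have h1 := F.a_orth h
  rw [← h', h.root] at h1
  omega

theorem a_m1 {α β : Lat} (hα : ip α α = 2) (hβ : ip β β = 2) (h : ip α β = -1) :
    ad α (e β : L K) = e (α + β) := by
  rw [ad_e_m1 hα hβ h, F.hq.eps, one_smul]

theorem a_neg (t : K) : -t = t := by linear_combination (-t) * F.two

theorem a_Sp {β : Lat} (h : Sp 6 β) : Sp c.n β := by rw [n6_of_b F.hb]; exact h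

theorem a_fix {β γ : Lat} (hβ : Sh β) (hγ : Sh γ) (h1 : ip β γ = -1)
    (h2 : 1 ≤ ip β (sg true γ)) : sg true β + sg true γ = β + γ := by
  by_contra hc
  have hR : c.R (β + γ) := ⟨(root_add hβ.root hγ.root).2 h1, F.a_Sp (hβ.2.1.add hγ.2.1)⟩
  have h3 := hR.orth (by rw [F.hb]; exact hc)
  rw [F.hb, sg_add, ip_add_left, ip_add_right, ip_add_right, F.a_orth hβ, F.a_orth hγ,
    ip_comm γ, ip_s hβ.2.1 hγ.2.1] at h3
  omega

theorem a_nn {β γ : Lat} (hβ : Sh β) (hγ : Sh γ) (h : 0 ≤ ips β γ) :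
    ip β γ = -1 ∨ 0 ≤ ip β γ := by
  refine (ip_cases hβ.root hγ.root).resolve_left ?_
  rintro rfl
  rw [ips, ← ip_x, ← ip_x, sg_neg, ip_neg_right, ip_neg_right, F.a_orth hβ, hβ.root] at h
  omega

theorem a_m1nn {β γ : Lat} (hβ : Sh β) (hγ : Sh γ) (h : ip (sg true β) γ = -1) : 0 ≤ ip β γ := by
  have h0 := F.a_orth hβ
  have h1 := ips_cases hβ hγ
  rw [ips, ← ip_x, ← ip_x, ← ip_s hβ.2.1 hγ.2.1] at h1
  rcases h1 with ⟨h1, _⟩ | h1 | h1 | ⟨h1, _⟩ | ⟨_, rfl | rfl⟩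
  · omega
  · omega
  · omega
  · omega
  · rw [ip_neg_right, ip_comm, h0] at h; omega
  · rw [ip_neg_right, hβ.sg.root] at h; omega

omit F in
theorem a_br_sh (β : Lat) (h : Sh β) (v : L K) :
    br (sh β) v = ad β v + ad (sg true β) v := by
  rw [sh, map_add, LinearMap.add_apply, br_e h.root, br_e h.sg.root]

theorem br_sh (β : Lat) (h : Sh β) (v : L K) : br (sh β) v = ad β v + ad (sg true β) v := by
  have _ := F
  exact a_br_sh β h v

theorem br_comm (v w : L K) : br v w = br w v := by rw [br_anti, neg_eq2 F.two]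

theorem jac_sh {β : Lat} (h : Sh β) (v w : L K) :
    br (sh β) (br v w) = br (br (sh β) v) w + br v (br (sh β) w) := by
  rw [F.br_sh β h, F.br_sh β h, F.br_sh β h, ad_br h.root, ad_br h.sg.root, map_add,
    LinearMap.add_apply, map_add]
  abel

theorem a_adad {β : Lat} (h : Sh β) {m : L K} (hm : m ∈ MM K) :
    ad β (ad (sg true β) m) = 0 := by
  have h0 := F.a_orth h
  have key : ∀ γ, Sh γ → ad β (ad (sg true β) (e γ : L K)) = 0 := by
    intro γ hγ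
    rcases ip_cases h.sg.root hγ.root with rfl | h1 | h1
    · rw [ad_e_m2 h.sg.root, map_neg, ad_hv, ip_comm, h0]; simp
    · rw [F.a_m1 h.sg.root hγ.root h1, ad_e_nn h.root ((root_add h.sg.root hγ.root).2 h1)]
      rw [ip_add_right, h0, zero_add]
      exact F.a_m1nn h hγ h1
    · rw [ad_e_nn h.sg.root hγ.root h1, map_zero]
  have k2 : ∀ y, ad β (ad (sg true β) (hs y : L K)) = 0 := fun y => by
    rw [hs, map_add, ad_hv, ad_hv, map_add, map_smul, map_smul, ad_e_nn h.root h.sg.root h0.ge]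
    simp
  refine F.MM_ind (P := fun m => ad β (ad (sg true β) m) = 0) (by simp) (fun v w _ _ h1 h2 => ?_)
    (fun γ hγ => ?_) (k2 _) (k2 _) hm
  · rw [map_add, map_add, h1, h2, add_zero]
  · rw [sh, map_add, map_add, key γ hγ, key _ hγ.sg, add_zero]

theorem Y_M {β : Lat} (h : Sh β) {m : L K} (hm : m ∈ MM K) :
    c.Y β 1 m = m + br (sh β) m + co (-β) m • sh β := by
  have h0 := F.a_orth h
  have hne : -β ≠ sg true β := fun h' => by
    rw [← h', ip_neg_right, h.root] at h0; omega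
  have h1 : co (-β) (ad (sg true β) m) = 0 := by
    rw [co_ad, if_neg hne, co_of_not (β := -β - sg true β), mul_zero, ite_self]
    rw [norm_sub, norm_neg, ip_neg_left, h0, h.root, h.sg.root]; decide
  have h2 : co (-sg true β) m = co (-β) m := hm.2.1 _ h.neg
  have h3 := F.a_adad h hm
  rw [Y_mov (F.mov h), F.hb, map_one, LinearEquiv.mul_apply, X_apply h.root, X_apply h.sg.root,
    F.br_sh β h, sh]
  simp only [map_add, map_smul, h1, h2, h3, ad_e_nn h.root h.sg.root h0.ge, co_e_ne hne,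
    smul_eq_mul]
  module

theorem X_M {l : Lat} (h : Lo l) {m : L K} (hm : m ∈ MM K) : X l 1 m = m + ad l m := by
  have _ := F
  rw [X_apply h.root, hm.1 _ h.neg.not_Sh]
  simp

omit F in
theorem a_four {β γ : Lat} (hβ : Sh β) : br (sh β : L K) (sh γ) =
    ad β (e γ) + ad (sg true β) (e (sg true γ)) +
      (ad β (e (sg true γ)) + ad (sg true β) (e γ)) := by
  rw [a_br_sh β hβ, sh, map_add, map_add]; abel

theorem br_sh_nn {β γ : Lat} (hβ : Sh β) (hγ : Sh γ) (h : 0 ≤ ips β γ) :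
    br (sh β : L K) (sh γ) = 0 := by
  have e1 := ip_ss hβ.2.1 hγ.2.1
  have e2 := ip_s hβ.2.1 hγ.2.1
  rw [a_four hβ]
  have h' := h
  rw [ips, ← ip_x, ← ip_x] at h'
  rcases F.a_nn hβ hγ h with h1 | h1 <;>
    rcases F.a_nn hβ hγ.sg (by rwa [ips_sg]) with h2 | h2
  · omega
  · rw [F.a_m1 hβ.root hγ.root h1, ad_e_nn hβ.root hγ.sg.root h2,
      F.a_m1 hβ.sg.root hγ.sg.root (e1.trans h1), ad_e_nn hβ.sg.root hγ.root (e2 ▸ h2),
      F.a_fix hβ hγ h1 (by omega), F.add_self (e _)]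
    simp
  · have h3 := F.a_fix hβ hγ.sg h2 (by rw [sg_sg]; omega)
    rw [sg_sg] at h3
    rw [ad_e_nn hβ.root hγ.root h1, F.a_m1 hβ.root hγ.sg.root h2,
      ad_e_nn hβ.sg.root hγ.sg.root (e1 ▸ h1), F.a_m1 hβ.sg.root hγ.root (e2.trans h2), h3,
      F.add_self (e _)]
    simp
  · rw [ad_e_nn hβ.root hγ.root h1, ad_e_nn hβ.root hγ.sg.root h2,
      ad_e_nn hβ.sg.root hγ.sg.root (e1 ▸ h1), ad_e_nn hβ.sg.root hγ.root (e2 ▸ h2)]
    simp

theorem br_sh_m1 {β γ : Lat} (hβ : Sh β) (hγ : Sh γ) (h1 : ipx β γ = -1)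
    (h2 : ipx β (sg true γ) = 0) : br (sh β : L K) (sh γ) = sh (β + γ) := by
  have e1 := ip_ss hβ.2.1 hγ.2.1
  have e2 := ip_s hβ.2.1 hγ.2.1
  rw [← ip_x] at h1 h2
  rw [a_four hβ, F.a_m1 hβ.root hγ.root h1, ad_e_nn hβ.root hγ.sg.root h2.ge,
    F.a_m1 hβ.sg.root hγ.sg.root (e1.trans h1), ad_e_nn hβ.sg.root hγ.root (e2.trans h2).ge,
    sh, sg_add]
  simp

theorem br_sh_m2 {β : Lat} (hβ : Sh β) : br (sh β : L K) (sh (-β)) = hs β := by
  have h0 := F.a_orth hβ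
  rw [a_four hβ, sg_neg, ad_e_m2 hβ.root, ad_e_m2 hβ.sg.root,
    ad_e_nn hβ.root (root_neg hβ.sg.root) (by rw [ip_neg_right, h0]; rfl),
    ad_e_nn hβ.sg.root (root_neg hβ.root) (by rw [ip_neg_right, ip_comm, h0]; rfl),
    neg_eq2 F.two, neg_eq2 F.two, hs]
  simp

theorem br_hs_sh {β γ : Lat} (hβ : Sp 6 β) (hγ : Sh γ) :
    br (hs β : L K) (sh γ) = (ips β γ : K) • sh γ := by
  have _ := F
  rw [hs, sh, ips, ← ip_x, ← ip_x]
  simp only [map_add, LinearMap.add_apply, br_hv_e, ip_ss hβ hγ.2.1, ip_s hβ hγ.2.1]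
  push_cast
  module

theorem br_hs_fst (β : Lat) (v : L K) : (br (hs β) v).1 = 0 := by
  have _ := F
  rw [hs, map_add, LinearMap.add_apply, br_hv, br_hv]
  simp [dd]

theorem co_br_hs {β γ : Lat} (hβ : Sp 6 β) (hγ : Sp 6 γ) (v : L K) :
    co γ (br (hs β) v) = (ips β γ : K) * co γ v := by
  have _ := F
  rw [hs, map_add, LinearMap.add_apply, map_add, co_br_hv, co_br_hv, ips, ← ip_x, ← ip_x,
    ip_s hβ hγ]
  push_cast
  ring

theorem ad_sh_m1 {l γ : Lat} (hl : Lo l) (hγ : Sh γ) (h : ipx l γ = -1) :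
    ad l (sh γ : L K) = sh (l + γ) := by
  have e2 := ip_s hl.2.1 hγ.2.1
  rw [← ip_x] at h
  rw [Lo_fix hl] at e2
  rw [sh, sh, map_add, F.a_m1 hl.root hγ.root h, F.a_m1 hl.root hγ.sg.root (e2.symm.trans h),
    sg_add, Lo_fix hl]

theorem ad_sh_nn {l γ : Lat} (hl : Lo l) (hγ : Sh γ) (h : 0 ≤ ipx l γ) :
    ad l (sh γ : L K) = 0 := by
  have _ := F
  have e2 := ip_s hl.2.1 hγ.2.1
  rw [← ip_x] at h
  rw [Lo_fix hl] at e2
  rw [sh, map_add, ad_e_nn hl.root hγ.root h, ad_e_nn hl.root hγ.sg.root (e2 ▸ h), add_zero]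

theorem ad_hs {l β : Lat} (hl : Lo l) (hβ : Sp 6 β) : ad l (hs β : L K) = 0 := by
  rw [hs, map_add, ad_hv, ad_hv, ip_s hβ hl.2.1, Lo_fix hl, F.add_self]

theorem co_ad_Lo {l γ : Lat} (hl : Lo l) (hγ : Sh γ) (v : L K) :
    co γ (ad l v) = co (γ - l) v := by
  have hne : γ ≠ l := fun h => hl.not_Sh (h ▸ hγ)
  rw [co_ad, if_pos hγ.root, if_neg hne, F.hq.eps, one_mul]

theorem brbr {β : Lat} (h : Sh β) {m : L K} (hm : m ∈ MM K) :
    br (sh β) (br (sh β) m) = 0 := by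
  have h1 := F.a_adad h hm
  have h2 := F.a_adad h.sg hm
  rw [sg_sg] at h2
  rw [F.br_sh β h, F.br_sh β h, map_add, map_add, h1, h2, ad_ad h.root, ad_ad h.sg.root, F.two]
  simp

theorem co_br_sh {γ δ : Lat} (hγ : Sh γ) (hδ : Sh δ) (h : δ ≠ γ ∧ δ ≠ sg true γ) (v : L K) :
    co δ (br (sh γ) v) = co (δ - γ) v + co (δ - sg true γ) v := by
  rw [F.br_sh γ hγ, map_add, co_ad, co_ad, if_pos hδ.root, if_pos hδ.root, if_neg h.1, if_neg h.2,
    F.hq.eps, F.hq.eps, one_mul, one_mul]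

theorem co_br_self {γ : Lat} (hγ : Sh γ) (v : L K) : co γ (br (sh γ) v) = hp γ v := by
  rw [F.br_sh γ hγ, map_add, co_ad, co_ad, if_pos hγ.root, if_pos hγ.root, if_pos rfl,
    if_neg (F.a_ne hγ), co_of_not (β := γ - sg true γ), mul_zero, add_zero, F.a_neg]
  rw [norm_sub, F.a_orth hγ, hγ.root, hγ.sg.root]; decide

theorem br_mem {m m' : L K} (hm : m ∈ MM K) (hm' : m' ∈ MM K) : br m m' ∈ MM K := by
  have k1 : ∀ y γ, Sp 6 y → Sh γ → br (hs y : L K) (sh γ) ∈ MM K := fun y γ hy hγ => by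
    rw [F.br_hs_sh hy hγ]; exact (MM K).smul_mem _ (sh_mem hγ)
  have k2 : ∀ y z, br (hs y : L K) (hs z) ∈ MM K := fun y z => by
    simp only [hs, map_add, LinearMap.add_apply, br_hv_hv, add_zero]; exact zero_mem _
  have k3 : ∀ β γ, Sh β → Sh γ → br (sh β : L K) (sh γ) ∈ MM K := fun β γ hβ hγ => by
    rcases ips_cases hβ hγ with ⟨h, _⟩ | h | h | ⟨_, ⟨h1, h2⟩ | ⟨h1, h2⟩⟩ | ⟨_, rfl | rfl⟩
    · rw [F.br_sh_nn hβ hγ (by omega)]; exact zero_mem _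
    · rw [F.br_sh_nn hβ hγ (by omega)]; exact zero_mem _
    · rw [F.br_sh_nn hβ hγ (by omega)]; exact zero_mem _
    · rw [F.br_sh_m1 hβ hγ h1 h2]; exact sh_mem (hβ.add hγ h1 h2)
    · have h3 : ipx β (sg true (sg true γ)) = 0 := by rwa [sg_sg]
      rw [← sh_sg γ, F.br_sh_m1 hβ hγ.sg h2 h3]; exact sh_mem (hβ.add hγ.sg h2 h3)
    · rw [F.br_sh_m2 hβ]; exact F.hs_mem hβ.2.1
    · rw [← sg_neg, sh_sg, F.br_sh_m2 hβ]; exact F.hs_mem hβ.2.1
  have step : ∀ x : L K, (∀ γ, Sh γ → br x (sh γ) ∈ MM K) → br x (hs (a 0)) ∈ MM K →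
      br x (hs (a 2)) ∈ MM K → br x m' ∈ MM K := fun x h1 h2 h3 =>
    F.MM_ind (P := fun m => br x m ∈ MM K) (by simp) (fun v w _ _ h1 h2 => by
      rw [map_add]; exact add_mem h1 h2) h1 h2 h3 hm'
  refine F.MM_ind (P := fun m => br m m' ∈ MM K) (by simp) (fun v w _ _ h1 h2 => ?_)
    (fun β hβ => step _ (fun γ hγ => k3 β γ hβ hγ) ?_ ?_)
    (step _ (fun γ hγ => k1 _ γ sp0 hγ) (k2 _ _) (k2 _ _))
    (step _ (fun γ hγ => k1 _ γ sp2 hγ) (k2 _ _) (k2 _ _)) hm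
  · rw [map_add, LinearMap.add_apply]; exact add_mem h1 h2
  · rw [F.br_comm]; exact k1 _ β sp0 hβ
  · rw [F.br_comm]; exact k1 _ β sp2 hβ

theorem ad_mem {l : Lat} (hl : Lo l) {m : L K} (hm : m ∈ MM K) : ad l m ∈ MM K := by
  refine F.MM_ind (P := fun m => ad l m ∈ MM K) (by simp) (fun v w _ _ h1 h2 => ?_)
    (fun γ hγ => ?_) ?_ ?_ hm
  · rw [map_add]; exact add_mem h1 h2
  · rcases hl.cases hγ with h | h
    · rw [F.ad_sh_m1 hl hγ h]; exact sh_mem (hl.add hγ h)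
    · rw [F.ad_sh_nn hl hγ h]; exact zero_mem _
  · rw [F.ad_hs hl sp0]; exact zero_mem _
  · rw [F.ad_hs hl sp2]; exact zero_mem _

theorem Bm_D {v m : L K} (hv : v ∈ c.V) (hm : m ∈ MM K) : Bm (v - c.st v) m = gf v m := by
  obtain ⟨h1, h2⟩ := F.D_sec (F.D_mem hv)
  obtain ⟨h3, h4⟩ := F.D_sec hm
  change gf (sec (v - c.st v)) m = _
  generalize sec (v - c.st v) = u at h1 h2
  have h5 : c.st (u - v) = u - v := by
    rw [map_sub]; linear_combination (exp := 1) -h2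
  have h6 := gf_st (sub_mem h1 hv) h3
  rw [h5, F.hτ] at h6
  have h7 : gf (u - v) m = 0 := by rw [← h4, map_sub (gf (u - v)), h6, sub_self]
  rw [map_sub, LinearMap.sub_apply] at h7
  exact sub_eq_zero.1 h7

theorem Bm_sh {β : Lat} (h : Sh β) {m : L K} (hm : m ∈ MM K) : Bm (sh β) m = co (-β) m := by
  rw [← F.D_e h.2.1, F.Bm_D (e_mem (F.a_Sp h.2.1)) hm, gf_e h.root]

theorem Bm_hs {β : Lat} (h : Sp 6 β) {m : L K} (hm : m ∈ MM K) : Bm (hs β) m = hp β m := by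
  have h1 : (hs β : L K) = hv β - c.st (hv β) := by
    rw [st_hv, F.hb, sub_eq_add_neg, neg_eq2 F.two, hs]
  rw [h1, F.Bm_D (hv_mem (F.a_Sp h)) hm, gf_hv, F.a_neg]

theorem Bm_comm {m m' : L K} (hm : m ∈ MM K) (hm' : m' ∈ MM K) : Bm m m' = Bm m' m := by
  obtain ⟨h1, h2⟩ := F.D_sec hm
  obtain ⟨h3, h4⟩ := F.D_sec hm'
  change gf (sec m) m' = gf (sec m') m
  generalize sec m = v at h1 h2
  generalize sec m' = w at h3 h4
  have h5 := gf_st (st_mem h1) h3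
  rw [st_st h1, F.hτ] at h5
  rw [← h2, ← h4, map_sub, map_sub, h5, gf_comm w, gf_comm w]

theorem Bm_inv {g : Aut K} (hg : g ∈ c.G) {m m' : L K} (hm : m ∈ MM K) (hm' : m' ∈ MM K) :
    Bm m (g m') = Bm (g⁻¹ m) m' := by
  obtain ⟨h1, h2⟩ := F.D_sec hm
  have h3 := F.Bm_D (G_mem (inv_mem hg) h1) hm'
  rw [G_st (inv_mem hg) h1, ← map_sub, h2] at h3
  rw [h3, ← gf_inv (G_aut hg)]
  rfl

theorem Bm_nd {m : L K} (hm : m ∈ MM K) (h : ∀ m' ∈ MM K, Bm m' m = 0) : m = 0 := by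
  have h1 : ∀ β, Sp 6 β → hp β m = 0 := fun β hβ => by
    rw [← F.Bm_hs hβ hm]; exact h _ (F.hs_mem hβ)
  have h2 : ∀ β, Sh β → co β m = 0 := fun β hβ => by
    rw [← neg_neg β, ← F.Bm_sh hβ.neg hm]; exact h _ (sh_mem hβ.neg)
  refine (F.cartan hm (h1 _ k0_Sh.2.1) h2).resolve_right fun h3 => ?_
  have h4 := h1 _ p2_k0.1
  rw [h3, hp_hs, p2_k0.2] at h4
  simp at h4

theorem QS_iff {g : Aut K} (hg : g ∈ c.G) :
    c.QS g ↔ ∀ p ∈ c.G, Bm (p (sh k0)) (g (p (sh k0))) = 0 := by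
  have hk : (e k0 : L K) ∈ c.V := e_mem (F.a_Sp k0_Sh.2.1)
  have key : ∀ p ∈ c.G, p (e k0) - c.st (p (e k0)) = p (sh k0) := fun p hp => by
    rw [G_st hp hk, ← map_sub, F.D_e k0_Sh.2.1]
  have k2 : ∀ p ∈ c.G, Bm (p (sh k0)) (g (p (sh k0))) = gf (p (e k0)) (g (p (sh k0))) :=
    fun p hp => by
      rw [← F.Bm_D (G_mem hp hk) (F.MM_G hg (F.MM_G hp (sh_mem k0_Sh))), key p hp]
  constructor
  · intro h p hp
    rw [k2 p hp, ← key p hp]
    exact h _ ⟨p, hp, 1, (one_smul _ _).symm⟩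
  · rintro h _ ⟨p, hp, r, rfl⟩
    have h1 := h p hp
    rw [k2 p hp] at h1
    rw [map_smulₛₗ c.st, F.hτ, ← smul_sub, key p hp]
    simp only [map_smul, LinearMap.smul_apply, h1, smul_zero]

end F2

end Cfg

end Pool.Agent.MP_db74b1_al.Exc

end

section

/-! `F₄(2)`: Weyl group moves, levels and traces on the 26-dimensional module. -/

set_option autoImplicit false

namespace Pool.Agent.MP_db74b1_al.Exc

namespace B2

theorem dom : ∀ x ∈ allL, Sh x → 0 ≤ sv true x 1 → 0 ≤ sv true x 2 → 0 ≤ sv true x 3 →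
    (ips k0 x = 1 → (∀ i, x i = p2 i) ∨ ∀ i, x i = sg true p2 i) ∧
    (ips k0 x = 0 → (∀ i, x i = et i) ∨ ∀ i, x i = sg true et i) := by decide +kernel

theorem ht_le : ∀ x ∈ allL, Sh x → ht x ≤ 8 := by decide +kernel

def Qm (δ : Lat) : Prop := Sh (k0 + δ) ∧ ips k0 (k0 + δ) = 1 ∧ ipx (-k0) (k0 + δ) = -1 ∧
  ipx (-k0) (sg true (k0 + δ)) = 0

instance (δ : Lat) : Decidable (Qm δ) := by unfold Qm; infer_instance

theorem levm : ∀ x ∈ allL, Sh x → ips k0 x = -1 → Qm x ∨ Qm (sg true x) := by decide +kernel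

theorem lev0 : ∀ x ∈ allL, Sh x → ips k0 x = 0 → ∃ y ∈ posL, ips k0 y = 1 ∧ Sh y ∧ Sh (x - y) ∧
    ips k0 (x - y) = -1 ∧ ipx y (x - y) = -1 ∧ ipx y (sg true (x - y)) = 0 := by decide +kernel

theorem ips_neg_left (β γ : Lat) : ips (-β) γ = -ips β γ := by
  simp only [ips, ← ip_x, ip_neg_left]; ring

theorem ips_sg_left {β γ : Lat} (hβ : Sh β) (hγ : Sh γ) : ips (sg true β) γ = ips β γ := by
  rw [ips_comm hβ.sg.2.1 hγ.2.1, ips_sg, ips_comm hγ.2.1 hβ.2.1]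

theorem van_sh {K : Type} [Field K] (δ : Lat) : van (fun β => htL β < ht δ) (sh δ : L K) :=
  van.add (Z := fun β => htL β < ht δ)
    (van_e (Z := fun β => htL β < ht δ) (β := δ) (lt_irrefl (ht δ)))
    (van_e (Z := fun β => htL β < ht δ) (β := sg true δ)
      (show ¬ ht (sg true δ) < ht δ by rw [ht_sg]; exact lt_irrefl _))

theorem trace_adj {K V : Type} [Field K] [AddCommGroup V] [Module K V] [FiniteDimensional K V]
    (B : LinearMap.BilinForm K V) (hB : ∀ m, (∀ n, B m n = 0) → m = 0) (f g : V →ₗ[K] V)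
    (h : ∀ m n, B m (f n) = B (g m) n) : LinearMap.trace K V g = LinearMap.trace K V f := by
  have hi : Function.Injective (B : V →ₗ[K] Module.Dual K V) := by
    rw [injective_iff_map_eq_zero]
    exact fun m hm => hB m fun n => by rw [hm]; rfl
  let φ : V ≃ₗ[K] Module.Dual K V :=
    LinearMap.linearEquivOfInjective _ hi Subspace.dual_finrank_eq.symm
  have h1 : φ.conj g = Module.Dual.transpose (R := K) f := by
    ext l n
    obtain ⟨m, rfl⟩ := φ.surjective l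
    simp only [LinearEquiv.conj_apply, LinearMap.comp_apply, LinearEquiv.coe_coe,
      LinearEquiv.symm_apply_apply, Module.Dual.transpose_apply]
    exact (h m n).symm
  rw [← LinearMap.trace_conj' g φ, h1, LinearMap.trace_transpose']

end B2

variable {K : Type} [Field K]

namespace Cfg

variable {c : Cfg K}

namespace F2

variable (F : c.F2)
include F

theorem Mon_sh {m : Aut K} {w : W} (h : c.Mon m w) {β : Lat} (hβ : Sh β) :
    Sh (w β) ∧ m (sh β) = sh (w β) := by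
  have hR := F.R_Sh hβ
  refine ⟨(F.R_cases (h.R hR)).resolve_right fun h1 =>
    F.mov hβ ((h.fix_iff hR).1 (F.Lg_Lo h1).2), ?_⟩
  obtain ⟨s, hs, h1⟩ := h.mono β hR.1
  have h2 := h.e_sg hR h1
  rw [(F.val s).resolve_left hs] at h1 h2
  rw [F.hb] at h2
  rw [sh, map_add, h1, h2, map_one, one_smul, one_smul, sh]

theorem b_ips {m : Aut K} {w : W} (h : c.Mon m w) (β : Lat) {γ : Lat} (hγ : Sh γ) :
    ips (w β) (w γ) = ips β γ := by
  have h1 := h.sg (F.R_Sh hγ)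
  rw [F.hb] at h1
  rw [ips, ips, ← h1, ← ip_x, ← ip_x, ← ip_x, ← ip_x, h.iso, h.iso]

theorem b_k0 {β : Lat} (hβ : Sh β) :
    ∃ m w, c.Mon m w ∧ (w β = k0 ∨ w β = sg true k0) := by
  refine root_top (p := fun α => Sh α → ∃ m w, c.Mon m w ∧ (w α = k0 ∨ w α = sg true k0))
    (fun h => ?_) (fun _ => ⟨fun _ => ⟨1, 1, Mon.one, Or.inl rfl⟩,
      fun _ => ⟨1, 1, Mon.one, Or.inr (by rw [F.hb]; rfl)⟩⟩)
    (fun α i hi _ h h' => ?_) (F.R_Sh hβ) hβ
  · rw [F.hn] at h; exact absurd h (by decide)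
  · obtain ⟨m, w, h1, h2⟩ := h (F.Mon_sh (n_Mon hi) h').1
    exact ⟨_, _, h1.mul (n_Mon hi), h2⟩

theorem b_wY {i : Fin 8} (hi : i = 1 ∨ i = 2 ∨ i = 3) :
    i.1 < c.n ∧ (c.wY (a i) k0 = k0 ∨ c.wY (a i) k0 = sg true k0) := by
  have h0 : i.1 < c.n := by rw [F.hn]; rcases hi with rfl | rfl | rfl <;> decide
  refine ⟨h0, ?_⟩
  rcases hi with rfl | rfl | rfl
  · rw [wY_fix (R_a h0) (by rw [F.hb]; decide), ip_x]; decide
  · rw [wY_mov (R_a h0) (by rw [F.hb]; decide), F.hb, ip_x, ip_x]; decide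
  · rw [wY_fix (R_a h0) (by rw [F.hb]; decide), ip_x]; decide

theorem b_dom {γ : Lat} (hγ : Sh γ) : ∃ m ∈ c.G, m (sh k0) = sh k0 ∧
    (ips k0 γ = 1 → m (sh γ) = sh p2) ∧ (ips k0 γ = 0 → m (sh γ) = sh et) := by
  induction' hn : (8 - ht γ).toNat using Nat.strong_induction_on with n ih generalizing γ
  by_cases h : ∀ i : Fin 8, i = 1 ∨ i = 2 ∨ i = 3 → 0 ≤ sv true γ i
  · obtain ⟨h1, h2⟩ := B2.dom γ hγ.allL hγ (h 1 (by simp)) (h 2 (by simp)) (h 3 (by simp))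
    refine ⟨1, one_mem _, rfl, fun h3 => ?_, fun h3 => ?_⟩
    · rcases h1 h3 with h4 | h4 <;> rw [funext h4]
      · rfl
      · exact sh_sg _
    · rcases h2 h3 with h4 | h4 <;> rw [funext h4]
      · rfl
      · exact sh_sg _
  · push Not at h
    obtain ⟨i, hi, h2⟩ := h
    obtain ⟨h0, h1⟩ := F.b_wY hi
    have h3 := (ht_wY h0 γ).2 (by rwa [F.hb])
    obtain ⟨h4, h5⟩ := F.Mon_sh (n_Mon h0) hγ
    have h6 := B2.ht_le _ h4.allL h4
    obtain ⟨m, k1, k2, k3⟩ := ih _ (by omega) h4 rfl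
    have h7 : ips k0 (c.wY (a i) γ) = ips k0 γ := by
      rw [← F.b_ips (n_Mon h0) k0 hγ]
      rcases h1 with h1 | h1 <;> rw [h1]
      exact (B2.ips_sg_left A2.k0_Sh h4).symm
    have h8 : c.NY (a i) 1 (sh k0) = sh k0 := by
      rw [(F.Mon_sh (n_Mon h0) A2.k0_Sh).2]
      rcases h1 with h1 | h1 <;> rw [h1]
      exact sh_sg _
    rw [h7, ← h5] at k3
    exact ⟨_, mul_mem k1 (n_Mon h0).mem, by rw [LinearEquiv.mul_apply, h8, k2], k3⟩

theorem to_pair_s {β γ : Lat} (hβ : Sh β) (hγ : Sh γ) : ∃ m ∈ c.G, m (sh β) = sh k0 ∧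
    (ips β γ = 1 → m (sh γ) = sh p2) ∧ (ips β γ = 0 → m (sh γ) = sh et) := by
  obtain ⟨m, w, h1, h2⟩ := F.b_k0 hβ
  obtain ⟨h3, h4⟩ := F.Mon_sh h1 hγ
  obtain ⟨m', h5, h6, h7⟩ := F.b_dom h3
  have h8 : ips k0 (w γ) = ips β γ := by
    rw [← F.b_ips h1 β hγ]
    rcases h2 with h2 | h2 <;> rw [h2]
    exact (B2.ips_sg_left A2.k0_Sh h3).symm
  have h9 : m (sh β) = sh k0 := by
    rw [(F.Mon_sh h1 hβ).2]
    rcases h2 with h2 | h2 <;> rw [h2]
    exact sh_sg _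
  rw [h8, ← h4] at h7
  exact ⟨_, mul_mem h5 h1.mem, by rw [LinearEquiv.mul_apply, h9, h6], h7⟩

theorem b_U {u : Aut K} (hu : u ∈ c.U) : u (sh k0) = sh k0 := by
  have h := van_lin htL (ht k0) (fun _ h1 h2 => root_ht_pos h2 h1.2) (B2.van_sh k0) (U_P hu)
  have hx : (sh k0 : L K) ∈ MM K := sh_mem A2.k0_Sh
  exact sub_eq_zero.1 (F.MM_ext (sub_mem (F.MM_G (U_G hu) hx) hx) (h.2 (by decide))
    fun β hβ => h.1 β (B2.ht_le β hβ.allL hβ))

theorem opp_s {g : Aut K} (hg : g ∈ c.G) (h : ¬ c.QS g) :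
    ∃ g', c.Cj g g' ∧ g' (sh k0) = sh (-k0) := by
  rw [F.QS_iff hg] at h
  push Not at h
  obtain ⟨p, hp, h⟩ := h
  have hx : (sh k0 : L K) ∈ MM K := sh_mem A2.k0_Sh
  have h1 : c.Cj g (p⁻¹ * g * p⁻¹⁻¹) := ⟨_, inv_mem hp, rfl⟩
  have h2 : co (-k0) ((p⁻¹ * g * p⁻¹⁻¹) (sh k0)) ≠ 0 := by
    rwa [← F.Bm_sh A2.k0_Sh (F.MM_G (h1.mem hg) hx), inv_inv, LinearEquiv.mul_apply,
      LinearEquiv.mul_apply, F.Bm_inv (inv_mem hp) hx (F.MM_G hg (F.MM_G hp hx)), inv_inv]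
  obtain ⟨u1, hu1, m, w, hm, u2, hu2, e1⟩ := bruhat (h1.mem hg)
  obtain ⟨h3, h4⟩ := F.Mon_sh hm A2.k0_Sh
  have h5 := B2.ht_le _ h3.neg.allL h3.neg
  rw [ht_neg] at h5
  rw [e1] at h1 h2
  rw [LinearEquiv.mul_apply, LinearEquiv.mul_apply, F.b_U hu2, h4,
    co_lin htL (ht (w k0)) (fun _ h1 h2 => root_ht_pos h2 h1.2) (B2.van_sh _) (U_P hu1)
      (by rw [htL_apply, ht_neg, show ht k0 = 8 by decide]; omega)] at h2
  have h6 : (sh (w k0) : L K) = sh (-k0) := by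
    by_contra h6
    exact h2 (co_sh_ne ⟨fun h7 => h6 (by rw [h7]), fun h7 => h6 (by rw [h7, sh_sg])⟩)
  refine ⟨_, h1.trans ⟨u1⁻¹, inv_mem (U_G hu1), rfl⟩, ?_⟩
  simp only [inv_inv, LinearEquiv.mul_apply]
  rw [F.b_U hu1, F.b_U hu2, h4, inv_app, h6]

theorem gen_M {g : Aut K} (hg : g ∈ c.G) (h1 : g (sh k0) = sh k0) (h2 : g (sh (-k0)) = sh (-k0))
    (h3 : ∀ β, Sh β → ips k0 β = 1 → g (sh β) = sh β) : ∀ m ∈ MM K, g m = m := by
  have hb := (G_aut hg).1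
  have k : ∀ β γ, Sh β → Sh γ → ipx β γ = -1 → ipx β (sg true γ) = 0 → g (sh β) = sh β →
      g (sh γ) = sh γ → g (sh (β + γ)) = sh (β + γ) := fun β γ i1 i2 i3 i4 i5 i6 => by
    rw [← F.br_sh_m1 i1 i2 i3 i4, hb, i5, i6]
  have km : ∀ δ, B2.Qm δ → g (sh δ) = sh δ := fun δ h => by
    have := k _ _ A2.k0_Sh.neg h.1 h.2.2.1 h.2.2.2 h2 (h3 _ h.1 h.2.1)
    rwa [neg_add_cancel_left] at this
  have h4 : ∀ β, Sh β → ips k0 β = -1 → g (sh β) = sh β := fun β hβ h => by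
    rcases B2.levm β hβ.allL hβ h with h5 | h5
    · exact km _ h5
    · rw [← sh_sg]; exact km _ h5
  have h5 : ∀ β, Sh β → g (sh β) = sh β := fun β hβ => by
    rcases ips_cases A2.k0_Sh hβ with ⟨_, rfl | rfl⟩ | h | h | ⟨h, _⟩ | ⟨_, rfl | rfl⟩
    · exact h1
    · rwa [sh_sg]
    · exact h3 β hβ h
    · obtain ⟨y, _, i1, i2, i3, i4, i5, i6⟩ := B2.lev0 β hβ.allL hβ h
      have := k _ _ i2 i3 i5 i6 (h3 _ i2 i1) (h4 _ i3 i4)
      rwa [add_sub_cancel] at this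
    · exact h4 β hβ h
    · exact h2
    · rwa [← sg_neg, sh_sg]
  have h6 : ∀ β, Sh β → g (hs β) = hs β := fun β hβ => by
    rw [← F.br_sh_m2 hβ, hb, h5 _ hβ, h5 _ hβ.neg]
  intro m hm
  exact F.MM_ind (P := fun m => g m = m) (map_zero _)
    (fun v w _ _ i1 i2 => by rw [map_add, i1, i2]) h5 (h6 _ (by decide)) (h6 _ (by decide)) hm

theorem b_kill {θ β : Lat} (hθ : Sh θ) {m : L K} (hm : m ∈ MM K) (h2 : br (sh θ) m = 0)
    (hβ : Sh β) (h : ips θ β = -1) : co β m = 0 := by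
  have k : ∀ β, Sh β → ipx θ β = -1 → ipx θ (sg true β) = 0 → co β m = 0 := fun β hβ i1 i2 => by
    have i3 := hθ.orth
    have i4 := hθ.root
    have i5 := hβ.root
    have i6 := hθ.sg.root
    have i7 := hθ.add hβ i1 i2
    rw [← ip_x] at i1 i2
    have i8 : ip β (sg true θ) = 0 := by rw [← A2.ip_s hβ.2.1 hθ.2.1, ip_comm, i2]
    have := F.co_br_sh hθ i7 ⟨by simpa using root_ne_zero i5, fun h => by
      rw [← h, ip_add_right] at i3; omega⟩ m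
    rw [h2, map_zero, add_sub_cancel_left, co_of_not (β := θ + β - sg true θ) (by
      rw [norm_sub, norm_add, ip_add_left]; omega), add_zero] at this
    exact this.symm
  rcases ips_cases hθ hβ with ⟨h1, _⟩ | h1 | h1 | ⟨_, h1 | h1⟩ | ⟨h1, _⟩ <;> try omega
  · exact k β hβ h1.1 h1.2
  · rw [← hm.2.1 β hβ]
    exact k _ hβ.sg h1.2 (by rw [sg_sg]; exact h1.1)

theorem b_even {β : Lat} {m : L K} (h1 : br (hs k0) m = m) (hβ : Sh β) (h : ips k0 β ≠ 1)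
    (h' : ips k0 β ≠ -1) : co β m = 0 := by
  have h2 := F.co_br_hs A2.k0_Sh.2.1 hβ.2.1 m
  rw [h1] at h2
  have h3 := F.two
  rcases ips_cases A2.k0_Sh hβ with ⟨h4, _⟩ | h4 | h4 | ⟨h4, _⟩ | ⟨h4, _⟩ <;>
    first | omega | (rw [h4] at h2; push_cast at h2)
  · linear_combination h2 + co β m * h3
  · linear_combination h2
  · linear_combination h2 - co β m * h3

theorem b_two {θ : Lat} (hθ : Sh θ) (h : (θ 2 + θ 4) % 2 = 1) {m : L K} (hm : m ∈ MM K)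
    (h2 : br (sh θ) m = 0) : co (-θ) m = 0 := by
  have h1 := congrArg (fun v : L K => v.1 2) h2
  have h3 := hm.2.1 _ hθ.neg
  rw [sg_neg] at h3
  simp only [F.br_sh θ hθ, Prod.fst_add, Pi.add_apply, ad_fst, h3, Prod.fst_zero,
    Pi.zero_apply] at h1
  have h4 : ((θ 2 + θ 4 : ℤ) : K) = ((2 * ((θ 2 + θ 4) / 2) + 1 : ℤ) : K) := by
    congr 1; omega
  rw [Int.cast_add (2 * _), Int.cast_mul, Int.cast_two, F.two, zero_mul, zero_add, Int.cast_one,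
    Int.cast_add] at h4
  change -(θ 2 : K) * _ + -(θ 4 : K) * _ = 0 at h1
  linear_combination -h1 - co (-θ) m * h4

theorem lev_one {m : L K} (hm : m ∈ MM K) (h1 : br (hs k0) m = m) (h2 : br (sh k0) m = 0) :
    m.1 = 0 ∧ ∀ β, Sh β → ips k0 β ≠ 1 → co β m = 0 := by
  refine ⟨by rw [← h1, F.br_hs_fst], fun β hβ h => ?_⟩
  by_cases h3 : ips k0 β = -1
  · exact F.b_kill A2.k0_Sh hm h2 hβ h3
  · exact F.b_even h1 hβ h h3

theorem lev_neg {m : L K} (hm : m ∈ MM K) (h1 : br (hs k0) m = m) (h2 : br (sh (-k0)) m = 0) :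
    m.1 = 0 ∧ ∀ β, Sh β → ips k0 β ≠ -1 → co β m = 0 := by
  refine ⟨by rw [← h1, F.br_hs_fst], fun β hβ h => ?_⟩
  by_cases h3 : ips k0 β = 1
  · exact F.b_kill A2.k0_Sh.neg hm h2 hβ (by rw [B2.ips_neg_left, h3])
  · exact F.b_even h1 hβ h3 h

theorem lev_zero {m : L K} (hm : m ∈ MM K) (h1 : br (sh k0) m = 0) (h2 : br (sh (-k0)) m = 0) :
    hp k0 m = 0 ∧ ∀ β, Sh β → ips k0 β ≠ 0 → co β m = 0 := by
  refine ⟨by rw [← F.co_br_self A2.k0_Sh, h1, map_zero], fun β hβ h => ?_⟩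
  have h3 := F.b_two A2.k0_Sh (by decide) hm h1
  have h4 := F.b_two A2.k0_Sh.neg (by decide) hm h2
  rw [neg_neg] at h4
  rcases ips_cases A2.k0_Sh hβ with ⟨_, rfl | rfl⟩ | h5 | h5 | ⟨h5, _⟩ | ⟨_, rfl | rfl⟩
  · exact h4
  · rwa [hm.2.1 _ A2.k0_Sh]
  · exact F.b_kill A2.k0_Sh.neg hm h2 hβ (by rw [B2.ips_neg_left, h5])
  · exact absurd h5 h
  · exact F.b_kill A2.k0_Sh hm h1 hβ h5
  · exact h3
  · rwa [← sg_neg, hm.2.1 _ A2.k0_Sh.neg]

theorem BS_conj {k : ℤ} {g g' : Aut K} (hg : g ∈ c.G) (h : c.BS k g) (h' : c.Cj g g') :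
    c.BS k g' := by
  obtain ⟨q, hq, rfl⟩ := h'
  intro p hp β γ hβ hγ hk
  have h1 := F.MM_G hp (sh_mem hβ)
  have h2 := F.MM_G hp (sh_mem hγ)
  simp only [LinearEquiv.mul_apply]
  rw [F.Bm_inv hq h1 (F.MM_G hg (F.MM_G (inv_mem hq) h2)),
    F.Bm_inv hq h2 (F.MM_G hg (F.MM_G (inv_mem hq) h1))]
  exact h _ (mul_mem (inv_mem hq) hp) β γ hβ hγ hk

theorem BS_D {k : ℤ} {g p : Aut K} (hg : g ∈ c.G) (h : c.BS k g) (hp : p ∈ c.G) {β γ : Lat}
    (hβ : Sh β) (hγ : Sh γ) (hk : ips β γ = k) :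
    Bm (p (sh β)) (g (p (sh γ)) + g⁻¹ (p (sh γ))) = 0 := by
  have h1 := F.MM_G hp (sh_mem hβ)
  have h2 := F.MM_G hp (sh_mem hγ)
  rw [map_add, F.Bm_inv (inv_mem hg) h1 h2, inv_inv, F.Bm_comm (F.MM_G hg h1) h2,
    h p hp β γ hβ hγ hk, ← two_mul, F.two, zero_mul]

theorem H2_symm {a b : Aut K} (ha : a ∈ c.G) (hb : b ∈ c.G) (h : c.H2 a b) : c.H2 b a := by
  obtain ⟨k, hk⟩ := h
  refine ⟨k, fun b' a' h1 h2 => ?_⟩
  rw [← hk a' b' h2 h1]
  exact TW_comm (f := b'.toLinearMap) (g := a'.toLinearMap) (fun v hv => F.MM_G (h1.mem hb) hv)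
    fun v hv => F.MM_G (h2.mem ha) hv

theorem TW_inv_M {g : Aut K} (hg : g ∈ c.G) :
    TW (MM K) (g⁻¹ : Aut K).toLinearMap = TW (MM K) g.toLinearMap := by
  refine B2.trace_adj (LinearMap.BilinForm.restrict (Bm (K := K)) (MM K)) (fun m h => ?_) _ _
    fun m n => ?_
  · exact Subtype.ext (F.Bm_nd m.2 fun m' hm' => by
      rw [F.Bm_comm hm' m.2]; exact h ⟨m', hm'⟩)
  · change Bm m.1 (prj (MM K) (g n.1) : L K) = Bm (prj (MM K) (g⁻¹ m.1) : L K) n.1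
    rw [prj_apply _ (F.MM_G hg n.2), prj_apply _ (F.MM_G (inv_mem hg) m.2), F.Bm_inv hg m.2 n.2]

end F2

end Cfg

end Pool.Agent.MP_db74b1_al.Exc

end

section

/-! `F₄(2)`: the constant trace forces the symmetry of the form on pairs of short root vectors. -/

set_option autoImplicit false

namespace Pool.Agent.MP_db74b1_al.Exc

namespace C2

theorem three {A : Type} [Ring A] (n1 n2 n3 φ : A) (h12 : n2 * n1 = n1 * n2) (h31 : n3 * n1 = 0)
    (h32 : n3 * n2 = 0) (h13 : n1 * n3 = 0) (h23 : n2 * n3 = 0) :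
    Dop n3 (Dop n1 (Dop n2 φ)) = n1 * n2 * φ * n3 + n3 * φ * (n1 * n2) := by
  have k1 : ∀ z, n3 * (n1 * z) = 0 := fun z => by rw [← mul_assoc, h31, zero_mul]
  have k2 : ∀ z, n3 * (n2 * z) = 0 := fun z => by rw [← mul_assoc, h32, zero_mul]
  simp only [Dop, mul_add, add_mul, mul_assoc, k1, k2, h13, h23, h12, mul_zero, add_zero, zero_add]
  abel

theorem four {A : Type} [Ring A] (n E C φ : A) (h1 : n * E = 0) (h2 : E * n = 0)
    (h3 : C * n = n * C) :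
    Dop n (E * φ * C + C * φ * E) = E * φ * (n * C) + n * C * φ * E := by
  have k1 : ∀ z, n * (E * z) = 0 := fun z => by rw [← mul_assoc, h1, zero_mul]
  simp only [Dop, mul_add, add_mul, mul_assoc, k1, h2, h3, mul_zero, add_zero, zero_add]
  abel

theorem Dop_mul {A : Type} [Ring A] (g φ ψ : A) :
    Dop (g - 1) φ * ψ = g * (φ * (g * ψ)) - φ * ψ := by
  simp only [Dop, sub_mul, mul_sub, add_mul, one_mul, mul_one, mul_assoc]; abel

theorem cm_abs {A : Type} [Ring A] {g h : A} (H : g * h = h * g) :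
    (g - 1) * (h - 1) = (h - 1) * (g - 1) := by
  simp only [sub_mul, mul_sub, one_mul, mul_one, H]; abel

def p3 : Lat := v8 1 1 1 1 0 0 0 0
def p4 : Lat := v8 1 1 1 2 1 0 0 0
def p5 : Lat := v8 1 1 1 1 1 0 0 0

def T5 (α : Lat) : Prop := α = th 6 ∨ α = g0 ∨ α = l3 ∨ α = s1 ∨ α = sg true s1

theorem T5_ip (α β : Lat) (h1 : T5 α) (h2 : T5 β) : 0 ≤ ip α β := by
  rw [ip_x]
  rcases h1 with rfl | rfl | rfl | rfl | rfl <;> rcases h2 with rfl | rfl | rfl | rfl | rfl <;>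
    decide

theorem E_fin : ∀ γ ∈ allL, Sh γ → ipx l3 γ = -1 → ipx g0 (l3 + γ) = -1 →
    (∀ i, γ i = (-k0) i) ∨ ∀ i, γ i = sg true (-k0) i := by decide +kernel

theorem C_fin : ∀ γ ∈ allL, Sh γ → ipx (th 6) γ = -1 → ∃ δ ∈ [k0, et, p2, p3, p4, p5],
    (∀ i, γ i = (-δ) i) ∨ ∀ i, γ i = sg true (-δ) i := by decide +kernel

theorem sh_of {K : Type} [Field K] {γ δ : Lat}
    (h : (∀ i, γ i = δ i) ∨ ∀ i, γ i = sg true δ i) : (sh γ : L K) = sh δ := by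
  rcases h with h | h
  · rw [funext h]
  · rw [funext h, sh_sg]

theorem ne_of {l γ δ : Lat} (hl : Lo l) (hγ : Sh γ) (h : ipx l γ ≠ ipx l δ) :
    δ ≠ γ ∧ δ ≠ sg true γ := by
  refine ⟨fun h' => h (by rw [h']), fun h' => h ?_⟩
  rw [h', ← ipx_sg6 hl.2.1 hγ.2.1, funext hl.2.2]

theorem lθ : Lo (th 6) := by decide
theorem l0 : Lo g0 := by decide
theorem ll : Lo l3 := by decide
theorem sk : Sh k0 := by decide
theorem se : Sh et := by decide
theorem s2 : Sh p2 := by decide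
theorem s3 : Sh p3 := by decide
theorem s4 : Sh p4 := by decide
theorem s5 : Sh p5 := by decide
theorem ss : Sh s1 := by decide

end C2

open C2

variable {K : Type} [Field K]

/-- the symmetric rank two operator of a pair of short roots -/
noncomputable def Ws (β γ : Lat) (m : L K) : L K := co (-β) m • sh γ + co (-γ) m • sh β

theorem Ws_add (β γ : Lat) (v w : L K) : Ws β γ (v + w) = Ws β γ v + Ws β γ w := by
  simp only [Ws, map_add, add_smul]; abel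

namespace Cfg

variable {c : Cfg K}

namespace F2

variable (F : c.F2)
include F

/-- the action on `MM` -/
noncomputable def rho : c.G →* Module.End K (MM K) where
  toFun g := g.1.toLinearMap.restrict fun _ hm => F.MM_G g.2 hm
  map_one' := rfl
  map_mul' _ _ := rfl

theorem rho_val (g : c.G) (v : MM K) : (F.rho g v : L K) = g.1 v := rfl

/-- constant trace against the class of `b` -/
def TK (b : c.G) (φ : Module.End K (MM K)) (k : K) : Prop :=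
  ∀ p : c.G, LinearMap.trace K _ (φ * F.rho (p * b * p⁻¹)) = k

theorem TK.D {b g : c.G} (h2 : g * g = 1) {φ : Module.End K (MM K)} {k : K} (h : F.TK b φ k) :
    F.TK b (Dop (F.rho g - 1) φ) 0 := fun p => by
  have h1 := h (g * p)
  rw [mul_inv_rev, inv_eq_of_mul_eq_one_left h2] at h1
  rw [Dop_mul (F.rho g), map_sub, h p, LinearMap.trace_mul_comm, mul_assoc, ← map_mul, ← map_mul,
    ← h1, sub_eq_zero]
  simp only [mul_assoc]

theorem H2.TK {a b : c.G} (h : c.H2 a b) : ∃ k, ∀ q : c.G, F.TK b (F.rho (q * a * q⁻¹)) k := by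
  obtain ⟨k, hk⟩ := h
  refine ⟨k, fun q p => ?_⟩
  rw [← hk _ _ ⟨q, q.2, rfl⟩ ⟨p, p.2, rfl⟩, ← map_mul]
  change _ = LinearMap.trace K (MM K) _
  congr 1
  ext1 v
  exact Subtype.ext (prj_apply _ (F.rho (q * a * q⁻¹ * (p * b * p⁻¹)) v).2).symm

theorem adad0 {l l' : Lat} (hl : Lo l) (hl' : Lo l') (h : ipx l l' = 1) {m : L K} (hm : m ∈ MM K) :
    ad l (ad l' m) = 0 := by
  refine F.MM_ind (P := fun m => ad l (ad l' m) = 0) (by simp) (fun v w _ _ h1 h2 => ?_)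
    (fun γ hγ => ?_) ?_ ?_ hm
  · rw [map_add, map_add, h1, h2, add_zero]
  · rcases hl'.cases hγ with h1 | h1
    · rw [F.ad_sh_m1 hl' hγ h1, F.ad_sh_nn hl (hl'.add hγ h1)]
      have := hl.cases hγ
      rw [← ip_x] at this h ⊢
      rw [ip_add_right]; omega
    · rw [F.ad_sh_nn hl' hγ h1, map_zero]
  · rw [F.ad_hs hl' (by decide), map_zero]
  · rw [F.ad_hs hl' (by decide), map_zero]

theorem E_eq {m : L K} (hm : m ∈ MM K) : ad g0 (ad l3 m) = co (-k0) m • sh k0 := by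
  refine F.MM_ind (P := fun m => ad g0 (ad l3 m) = co (-k0) m • sh k0) (by simp)
    (fun v w _ _ h1 h2 => ?_) (fun γ hγ => ?_) ?_ ?_ hm
  · rw [map_add, map_add, h1, h2, map_add, add_smul]
  · by_cases h : -k0 = γ ∨ -k0 = sg true γ
    · have e : (sh γ : L K) = sh (-k0) := by
        rcases h with h | h
        · rw [h]
        · rw [h, sh_sg]
      rw [e, co_sh_self sk.neg, one_smul, F.ad_sh_m1 ll sk.neg (by decide),
        F.ad_sh_m1 l0 (by decide) (by decide)]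
      exact sh_of (by decide)
    · rw [co_sh hγ, if_neg h, zero_smul]
      rcases ll.cases hγ with h1 | h1
      · rw [F.ad_sh_m1 ll hγ h1]
        refine F.ad_sh_nn l0 (ll.add hγ h1) ((l0.cases (ll.add hγ h1)).resolve_left fun h2 => h ?_)
        rcases E_fin γ hγ.allL hγ h1 h2 with h3 | h3
        · exact Or.inl (funext h3).symm
        · exact Or.inr (by rw [funext h3, sg_sg])
      · rw [F.ad_sh_nn ll hγ h1, map_zero]
  · rw [F.ad_hs ll (by decide), map_zero, co_hs, zero_smul]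
  · rw [F.ad_hs ll (by decide), map_zero, co_hs, zero_smul]

theorem C_eq {m : L K} (hm : m ∈ MM K) :
    ad (th 6) m = Ws k0 et m + Ws p2 p3 m + Ws p4 p5 m := by
  refine F.MM_ind (P := fun m => ad (th 6) m = Ws k0 et m + Ws p2 p3 m + Ws p4 p5 m)
    (by simp [Ws]) (fun v w _ _ h1 h2 => ?_) (fun γ hγ => ?_) ?_ ?_ hm
  · rw [map_add, h1, h2, Ws_add, Ws_add, Ws_add]; abel
  · rcases lθ.cases hγ with h1 | h1
    · obtain ⟨δ, hδ, h2⟩ := C_fin γ hγ.allL hγ h1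
      rw [sh_of h2]
      simp only [List.mem_cons, List.not_mem_nil, or_false] at hδ
      rcases hδ with rfl | rfl | rfl | rfl | rfl | rfl <;>
        rw [F.ad_sh_m1 lθ (by decide) (by decide)] <;>
        simp (disch := decide) only [Ws, co_sh_self, co_sh_ne, zero_smul, one_smul, add_zero,
          zero_add] <;> exact sh_of (by decide)
    · have k : ∀ δ, ipx (th 6) (-δ) = -1 → co (-δ) (sh γ : L K) = 0 := fun δ h3 =>
        co_sh_ne (ne_of lθ hγ (by omega))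
      rw [F.ad_sh_nn lθ hγ h1]
      simp (disch := decide) only [Ws, k, zero_smul, add_zero]
  · simp [F.ad_hs lθ (β := a 0) (by decide), Ws, co_hs]
  · simp [F.ad_hs lθ (β := a 2) (by decide), Ws, co_hs]

theorem Y_fix' {β γ : Lat} (hβ : Sh β) (hγ : Sh γ) (h : 0 ≤ ips β γ) :
    c.Y β 1 (sh γ) = sh γ := by
  rw [F.Y_M hβ (sh_mem hγ), F.br_sh_nn hβ hγ h, co_sh_ne, zero_smul, add_zero, add_zero]
  have h2 : ips β (-β) = -2 := by
    rw [ips_neg, ips, hβ.1, ← ip_x, hβ.orth]; rfl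
  constructor
  · rintro rfl; omega
  · intro h'
    rw [← ips_sg, ← h'] at h; omega

theorem Y_step {β γ : Lat} (hβ : Sh β) (hγ : Sh γ) (h1 : ipx β γ = -1)
    (h2 : ipx β (sg true γ) = 0) (h3 : -β ≠ γ ∧ -β ≠ sg true γ) :
    c.Y β 1 (sh γ) = sh γ + sh (β + γ) := by
  rw [F.Y_M hβ (sh_mem hγ), F.br_sh_m1 hβ hγ h1 h2, co_sh_ne h3, zero_smul, add_zero]

theorem W_eq {m : L K} (hm : m ∈ MM K) : c.Y s1 1 (ad (th 6) m) - ad (th 6) m = Ws k0 p2 m := by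
  have e1 : c.Y s1 1 (sh et) = sh et + sh p2 := by
    rw [F.Y_step ss se (by decide) (by decide) (by decide), sh_of (γ := s1 + et) (δ := p2) (by decide)]
  have e3 : c.Y s1 1 (sh p3) = sh p3 + sh k0 := by
    rw [← sh_sg p3, F.Y_step ss s3.sg (by decide) (by decide) (by decide),
      sh_of (γ := s1 + sg true p3) (δ := k0) (by decide)]
  rw [F.C_eq hm]
  simp only [Ws, map_add, map_smul, e1, e3, F.Y_fix' ss sk (by decide), F.Y_fix' ss s2 (by decide),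
    F.Y_fix' ss s4 (by decide), F.Y_fix' ss s5 (by decide)]
  module

theorem star {a b : c.G} {k : K} (h : F.TK b (F.rho a) k) (p : c.G) {b' : Aut K}
    (hb' : b' = (p * b * p⁻¹ : c.G)) :
    co (-k0) (a.1 (ad (th 6) (b' (sh k0)))) + co (-k0) (b' (ad (th 6) (a.1 (sh k0)))) = 0 ∧
    co (-k0) (a.1 (Ws k0 p2 (b' (sh k0)))) + co (-k0) (b' (Ws k0 p2 (a.1 (sh k0)))) = 0 := by
  subst hb'
  let x1 : c.G := ⟨X g0 1, F.X_mem_Lo l0⟩
  let x2 : c.G := ⟨X l3 1, F.X_mem_Lo ll⟩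
  let x3 : c.G := ⟨X (th 6) 1, F.X_mem_Lo lθ⟩
  let x4 : c.G := ⟨c.Y s1 1, F.Y_mem_Sh ss⟩
  have u1 : x1.1 ∈ Ucl K T5 := X_mem_Ucl (β := g0) (Or.inr (Or.inl rfl)) 1
  have u2 : x2.1 ∈ Ucl K T5 := X_mem_Ucl (β := l3) (Or.inr (Or.inr (Or.inl rfl))) 1
  have u3 : x3.1 ∈ Ucl K T5 := X_mem_Ucl (β := th 6) (Or.inl rfl) 1
  have u4 : x4.1 ∈ Ucl K T5 := Y_mem_Ucl (α := s1) (Or.inr (Or.inr (Or.inr (Or.inl rfl))))
    (Or.inr (Or.inr (Or.inr (Or.inr (by rw [F.hb]))))) _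
  have sq : ∀ g : c.G, g.1 ∈ Ucl K T5 → g * g = 1 := fun g hg =>
    Subtype.ext (Ucl_sq T5_ip F.two hg)
  have cm : ∀ g g' : c.G, g.1 ∈ Ucl K T5 → g'.1 ∈ Ucl K T5 →
      (F.rho g - 1) * (F.rho g' - 1) = (F.rho g' - 1) * (F.rho g - 1) := fun g g' hg hg' => by
    have : g * g' = g' * g := Subtype.ext (Ucl_comm T5_ip hg hg')
    exact cm_abs (g := F.rho g) (h := F.rho g') (by rw [← map_mul, this, map_mul])
  have nv : ∀ {l : Lat} (hl : Lo l) (v : MM K),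
      ((F.rho ⟨X l 1, F.X_mem_Lo hl⟩ - 1) v : L K) = ad l v := fun hl v => by
    change X _ 1 v.1 - v.1 = _
    rw [F.X_M hl v.2, add_sub_cancel_left]
  have z : ∀ {l l' : Lat} (hl : Lo l) (hl' : Lo l'), ipx l l' = 1 →
      (F.rho ⟨X l 1, F.X_mem_Lo hl⟩ - 1) * (F.rho ⟨X l' 1, F.X_mem_Lo hl'⟩ - 1) = 0 :=
    fun hl hl' h => LinearMap.ext fun v => Subtype.ext (by
      rw [Module.End.mul_apply, nv hl, nv hl', F.adad0 hl hl' h v.2]; rfl)
  let E : Module.End K (MM K) := (co (-k0) ∘ₗ (MM K).subtype).smulRight ⟨sh k0, sh_mem sk⟩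
  have hE : (F.rho x1 - 1) * (F.rho x2 - 1) = E := LinearMap.ext fun v => Subtype.ext (by
    rw [Module.End.mul_apply, nv l0, nv ll, F.E_eq v.2]; rfl)
  have h4 : (F.rho x4 - 1) * E = 0 := LinearMap.ext fun v => Subtype.ext (by
    change c.Y s1 1 (co (-k0) v.1 • sh k0) - co (-k0) v.1 • sh k0 = 0
    rw [map_smul, F.Y_fix' ss sk (by decide), sub_self])
  have h4' : E * (F.rho x4 - 1) = 0 := by
    rw [← hE, mul_assoc, cm x2 x4 u2 u4, ← mul_assoc, cm x1 x4 u1 u4, mul_assoc, hE, h4]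
  have t3 := TK.D F (sq _ u3) (TK.D F (sq _ u1) (TK.D F (sq _ u2) h))
  rw [three _ _ _ _ (cm _ _ u2 u1) (z lθ l0 (by decide)) (z lθ ll (by decide))
    (z l0 lθ (by decide)) (z ll lθ (by decide)), hE] at t3
  have t4 := TK.D F (sq _ u4) t3
  rw [C2.four _ _ _ _ h4 h4' (cm _ _ u3 u4)] at t4
  have tr : ∀ Z φ ψ : Module.End K (MM K), LinearMap.trace K _ ((E * φ * Z + Z * φ * E) * ψ) =
      co (-k0) (φ (Z (ψ ⟨sh k0, sh_mem sk⟩))).1 + co (-k0) (ψ (Z (φ ⟨sh k0, sh_mem sk⟩))).1 := by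
    have t : ∀ ψ : Module.End K (MM K), LinearMap.trace K _ (E * ψ) =
        co (-k0) (ψ ⟨sh k0, sh_mem sk⟩).1 := fun ψ => by
      rw [show E * ψ = ((co (-k0) ∘ₗ (MM K).subtype) ∘ₗ ψ).smulRight ⟨sh k0, sh_mem sk⟩ from rfl,
        LinearMap.trace_smulRight]
      rfl
    intro Z φ ψ
    rw [add_mul, map_add, mul_assoc (Z * φ), LinearMap.trace_mul_comm K (Z * φ), mul_assoc,
      mul_assoc, mul_assoc, t, t]
    rfl
  have w : ∀ v : MM K, (((F.rho x4 - 1) * (F.rho x3 - 1)) v : L K) = Ws k0 p2 v.1 := fun v => by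
    rw [← F.W_eq v.2, ← nv lθ]; rfl
  have r3 := t3 p
  have r4 := t4 p
  rw [tr] at r3 r4
  have w3 : ∀ v : MM K, ((F.rho x3 - 1) v : L K) = ad (th 6) v := nv lθ
  simp only [rho_val, w3, w] at r3 r4
  exact ⟨r3, r4⟩

theorem co_conj {g p : Aut K} (hg : g ∈ c.G) (hp : p ∈ c.G) {β γ : Lat} (hβ : Sh β) (hγ : Sh γ) :
    co (-β) ((p⁻¹ * g * p) (sh γ)) = Bm (p (sh β)) (g (p (sh γ))) := by
  have h1 := F.MM_G hg (F.MM_G hp (sh_mem hγ))
  rw [LinearEquiv.mul_apply, LinearEquiv.mul_apply, ← F.Bm_sh hβ (F.MM_G (inv_mem hp) h1),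
    F.Bm_inv (inv_mem hp) (sh_mem hβ) h1, inv_inv]

theorem setup {a b : Aut K} (ha : a ∈ c.G) (hb : b ∈ c.G) (h : c.H2 a b) (h1 : ¬ c.QS a) :
    ∃ q ∈ c.G, co (-k0) ((q⁻¹ * a * q) (sh k0)) = 1 ∧ ∀ p ∈ c.G,
      co (-k0) ((q⁻¹ * a * q) (ad (th 6) ((p⁻¹ * b * p) (sh k0)))) +
        co (-k0) ((p⁻¹ * b * p) (ad (th 6) ((q⁻¹ * a * q) (sh k0)))) = 0 ∧
      co (-k0) ((q⁻¹ * a * q) (Ws k0 p2 ((p⁻¹ * b * p) (sh k0)))) +
        co (-k0) ((p⁻¹ * b * p) (Ws k0 p2 ((q⁻¹ * a * q) (sh k0)))) = 0 := by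
  rw [F.QS_iff ha] at h1
  push Not at h1
  obtain ⟨q, hq, h2⟩ := h1
  obtain ⟨k, hk⟩ := H2.TK F (a := ⟨a, ha⟩) (b := ⟨b, hb⟩) h
  refine ⟨q, hq, (F.val _).resolve_left (by rwa [F.co_conj ha hq sk sk]), fun p hp => ?_⟩
  exact F.star (hk ⟨q, hq⟩⁻¹) ⟨p, hp⟩⁻¹ (b' := p⁻¹ * b * p) (by simp)

theorem finish {b d : Aut K} (hd : d ∈ c.G) {k : ℤ} {μ ν : Lat}
    (hν : Sh ν) (h0 : ips k0 ν = k) (h1 : d (sh k0) = sh k0) (h2 : d (sh μ) = sh μ + sh ν)
    (h3 : ∀ β γ, Sh β → Sh γ → ips β γ = k → ∃ m ∈ c.G, m (sh β) = sh k0 ∧ m (sh γ) = sh μ)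
    {t : K} (h4 : ∀ p ∈ c.G, Bm (p (sh k0)) (b (p (sh μ))) + Bm (p (sh μ)) (b (p (sh k0))) +
      t * Bm (p (sh k0)) (b (p (sh k0))) = 0) : c.BS k b := by
  have iv : ∀ {m : Aut K} {v w : L K}, m v = w → m⁻¹ w = v := fun h => by rw [← h, inv_app]
  have k2 : ∀ p ∈ c.G, Bm (p (sh k0)) (b (p (sh μ))) + Bm (p (sh μ)) (b (p (sh k0))) = 0 := by
    intro p hp
    obtain ⟨m, hm, i1, i2⟩ := h3 k0 ν sk hν h0
    have e1 := h4 _ (mul_mem hp hd)
    have e2 := h4 _ (mul_mem hp (inv_mem hm))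
    simp only [LinearEquiv.mul_apply, h1, h2, iv i1, iv i2, map_add, LinearMap.add_apply] at e1 e2
    linear_combination e1 - e2
  intro p hp β γ hβ hγ h
  obtain ⟨m, hm, i1, i2⟩ := h3 β γ hβ hγ h
  have e := k2 _ (mul_mem hp (inv_mem hm))
  simp only [LinearEquiv.mul_apply, iv i1, iv i2] at e
  linear_combination e - Bm (p (sh γ)) (b (p (sh β))) * F.two

theorem BS_one {a b : Aut K} (ha : a ∈ c.G) (hb : b ∈ c.G) (h : c.H2 a b) (h1 : ¬ c.QS a) :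
    c.BS 1 b := by
  obtain ⟨q, hq, h2, h3⟩ := F.setup ha hb h h1
  have hδ : Sh (-Exc.a 2) := by decide
  refine F.finish (F.Y_mem_Sh hδ) (μ := p2) (ν := -Exc.a 2 + p2) (by decide) (by decide)
    (F.Y_fix' hδ sk (by decide)) (F.Y_step hδ s2 (by decide) (by decide) (by decide))
    (fun β γ hβ hγ h => ?_) (t := co (-k0) ((q⁻¹ * a * q) (sh p2)) +
      co (-p2) ((q⁻¹ * a * q) (sh k0))) fun p hp => ?_
  · obtain ⟨m, hm, i1, i2, _⟩ := F.to_pair_s hβ hγ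
    exact ⟨m, hm, i1, i2 h⟩
  · have e := (h3 p hp).2
    simp only [Ws, map_add, map_smul, smul_eq_mul, h2, F.co_conj hb hp sk sk,
      F.co_conj hb hp sk s2, F.co_conj hb hp s2 sk] at e
    linear_combination e

theorem BS_zero {a b : Aut K} (ha : a ∈ c.G) (hb : b ∈ c.G) (h : c.H2 a b) (h1 : ¬ c.QS a)
    (h2 : c.BS 1 a) (h3 : c.BS 1 b) : c.BS 0 b := by
  obtain ⟨q, hq, h4, h5⟩ := F.setup ha hb h h1
  have hδ : Lo (-Exc.a 1) := by decide
  have sy : ∀ {g p : Aut K}, g ∈ c.G → p ∈ c.G → c.BS 1 g → ∀ γ, Sh γ → ips k0 γ = 1 →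
      co (-k0) ((p⁻¹ * g * p) (sh γ)) = co (-γ) ((p⁻¹ * g * p) (sh k0)) :=
    fun hg hp h γ hγ h' => by
      rw [F.co_conj hg hp sk hγ, F.co_conj hg hp hγ sk, h _ hp _ _ sk hγ h']
  refine F.finish (F.X_mem_Lo hδ) (μ := et) (ν := -Exc.a 1 + et) (by decide) (by decide)
    (by rw [F.X_M hδ (sh_mem sk), F.ad_sh_nn hδ sk (by decide), add_zero])
    (by rw [F.X_M hδ (sh_mem se), F.ad_sh_m1 hδ se (by decide)])
    (fun β γ hβ hγ h => ?_) (t := co (-k0) ((q⁻¹ * a * q) (sh et)) +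
      co (-et) ((q⁻¹ * a * q) (sh k0))) fun p hp => ?_
  · obtain ⟨m, hm, i1, _, i2⟩ := F.to_pair_s hβ hγ
    exact ⟨m, hm, i1, i2 h⟩
  · have e := (h5 p hp).1
    have ma := F.MM_G (mul_mem (mul_mem (inv_mem hq) ha) hq) (sh_mem sk)
    have mb := F.MM_G (mul_mem (mul_mem (inv_mem hp) hb) hp) (sh_mem sk)
    simp only [F.C_eq ma, F.C_eq mb, Ws, map_add, map_smul, smul_eq_mul, h4,
      sy ha hq h2 p2 s2 (by decide), sy ha hq h2 p3 s3 (by decide), sy ha hq h2 p4 s4 (by decide),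
      sy ha hq h2 p5 s5 (by decide), sy hb hp h3 p2 s2 (by decide), sy hb hp h3 p3 s3 (by decide),
      sy hb hp h3 p4 s4 (by decide), sy hb hp h3 p5 s5 (by decide), F.co_conj hb hp sk sk,
      F.co_conj hb hp sk se, F.co_conj hb hp se sk] at e
    generalize co (-p2) ((q⁻¹ * a * q) (sh k0)) = a2 at e
    generalize co (-p3) ((q⁻¹ * a * q) (sh k0)) = a3 at e
    generalize co (-p4) ((q⁻¹ * a * q) (sh k0)) = a4 at e
    generalize co (-p5) ((q⁻¹ * a * q) (sh k0)) = a5 at e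
    generalize co (-p2) ((p⁻¹ * b * p) (sh k0)) = b2 at e
    generalize co (-p3) ((p⁻¹ * b * p) (sh k0)) = b3 at e
    generalize co (-p4) ((p⁻¹ * b * p) (sh k0)) = b4 at e
    generalize co (-p5) ((p⁻¹ * b * p) (sh k0)) = b5 at e
    linear_combination e - (a2 * b3 + a3 * b2 + a4 * b5 + a5 * b4) * F.two

end F2

end Cfg

end Pool.Agent.MP_db74b1_al.Exc

end

section

set_option autoImplicit false

namespace Pool.Agent.MP_db74b1_al.Exc
variable {K : Type} [Field K]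

namespace F2F

theorem fin1 : ∀ γ ∈ allL, Sh γ → ipx ts γ = -1 → ipx (th 6) (ts + γ) = -1 →
    ((∀ i, (-k0) i = γ i) ∨ ∀ i, (-k0) i = sg true γ i) ∧
    ((∀ i, (th 6 + (ts + γ)) i = k0 i) ∨ ∀ i, (th 6 + (ts + γ)) i = sg true k0 i) := by
  decide +kernel

theorem fin2 : ∀ γ ∈ allL, Sh γ → ((∀ i, (-k0) i = γ i) ∨ ∀ i, (-k0) i = sg true γ i) →
    ipx ts γ = -1 ∧ ipx (th 6) (ts + γ) = -1 := by
  decide +kernel

theorem T_ip (α β : Lat) (h1 : α = th 6 ∨ α = ts) (h2 : β = th 6 ∨ β = ts) : 0 ≤ ip α β := by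
  rw [ip_x]
  rcases h1 with rfl | rfl <;> rcases h2 with rfl | rfl <;> decide

theorem lo_th : Lo (th 6) := by decide
theorem lo_ts : Lo ts := by decide
theorem sh_k0 : Sh k0 := by decide

end F2F

namespace Cfg
variable {c : Cfg K}
namespace F2
variable (F : c.F2)
include F

theorem F2F_two {m : L K} (hm : m ∈ MM K) :
    (Nn (X (th 6) (1 : K)) * Nn (X ts 1) : En K) m = co (-k0) m • sh k0 := by
  have e1 : ∀ l, Lo l → ∀ m ∈ MM K, Nn (X l (1 : K)) m = ad l m := fun l hl m hm => by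
    rw [Nn_apply, F.X_M hl hm, add_sub_cancel_left]
  rw [Module.End.mul_apply, e1 _ F2F.lo_ts _ hm, e1 _ F2F.lo_th _ (F.ad_mem F2F.lo_ts hm)]
  have s0 : Sp 6 (a 0) := Sp_a (by decide)
  have s2 : Sp 6 (a 2) := Sp_a (by decide)
  refine F.MM_ind (P := fun m => ad (th 6) (ad ts m) = co (-k0) m • sh k0) (by simp)
    (fun v w _ _ h1 h2 => by rw [map_add, map_add, h1, h2, map_add, add_smul])
    (fun β hβ => ?_) (by rw [F.ad_hs F2F.lo_ts s0, map_zero, co_hs, zero_smul])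
    (by rw [F.ad_hs F2F.lo_ts s2, map_zero, co_hs, zero_smul]) hm
  rw [co_sh hβ]
  by_cases h : ipx ts β = -1 ∧ ipx (th 6) (ts + β) = -1
  · obtain ⟨h1, h2⟩ := F2F.fin1 β hβ.allL hβ h.1 h.2
    rw [if_pos (h1.imp funext funext), one_smul, F.ad_sh_m1 F2F.lo_ts hβ h.1,
      F.ad_sh_m1 F2F.lo_th (F2F.lo_ts.add hβ h.1) h.2]
    rcases h2 with h2 | h2
    · rw [funext h2]
    · rw [funext h2, sh_sg]
  · rw [if_neg fun h1 => h (F2F.fin2 β hβ.allL hβ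
      (h1.imp (fun e => congrFun e) fun e => congrFun e)), zero_smul]
    rcases F2F.lo_ts.cases hβ with h1 | h1
    · rw [F.ad_sh_m1 F2F.lo_ts hβ h1]
      have hs' := F2F.lo_ts.add hβ h1
      exact F.ad_sh_nn F2F.lo_th hs' ((F2F.lo_th.cases hs').resolve_left fun h2 => h ⟨h1, h2⟩)
    · rw [F.ad_sh_nn F2F.lo_ts hβ h1, map_zero]

theorem F2F_q {g : Aut K} (hg : g ∈ c.G) (h : ¬ c.QS g) :
    ∃ g', c.Cj g g' ∧ co (-k0) (g' (sh k0)) ≠ 0 := by
  rw [F.QS_iff hg] at h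
  push Not at h
  obtain ⟨p, hp, h⟩ := h
  have hx : (sh k0 : L K) ∈ MM K := sh_mem F2F.sh_k0
  have h1 := F.MM_G hg (F.MM_G hp hx)
  refine ⟨p⁻¹ * g * p⁻¹⁻¹, ⟨p⁻¹, inv_mem hp, rfl⟩, ?_⟩
  rw [inv_inv, LinearEquiv.mul_apply, LinearEquiv.mul_apply,
    ← F.Bm_sh F2F.sh_k0 (F.MM_G (inv_mem hp) h1), F.Bm_inv (inv_mem hp) hx h1, inv_inv]
  exact h

theorem F2F_sq {g g' : Aut K} (h : c.Cj g g') (h2 : ∀ m ∈ MM K, g (g m) = m) :
    ∀ m ∈ MM K, g'⁻¹ m = g' m := by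
  obtain ⟨p, hp, rfl⟩ := h
  intro m hm
  rw [← (p * g * p⁻¹).injective.eq_iff, app_inv]
  simp only [LinearEquiv.mul_apply]
  have : ∀ v, p⁻¹ (p v) = v := fun v => by simp
  rw [this, h2 _ (F.MM_G (inv_mem hp) hm), app_inv]

theorem inv_inv_s {a b : Aut K} (ha : a ∈ c.G) (hb : b ∈ c.G) (h : c.H2 a b)
    (h1 : ∀ m ∈ MM K, a (a m) = m) (h2 : ∀ m ∈ MM K, b (b m) = m) : c.QS a ∨ c.QS b := by
  by_contra h3
  push Not at h3
  obtain ⟨a', ha', h4⟩ := F.F2F_q ha h3.1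
  obtain ⟨b', hb', h5⟩ := F.F2F_q hb h3.2
  obtain ⟨k, hk⟩ := h
  let E : Subgroup (Aut K) := c.G ⊓ Ucl K (fun β => β = th 6 ∨ β = ts)
  let Φ : En K → En K → K := fun P R => TW (MM K) (a'.toLinearMap * P * b'.toLinearMap * R)
  let Z : En K → K → Prop := fun P κ => ∀ g ∈ E, ∀ g' ∈ E,
    Φ (g.toLinearMap * P) (g'.toLinearMap * P) = Φ (g'.toLinearMap * P) (g.toLinearMap * P) ∧
      Φ (g.toLinearMap * P) (g.toLinearMap * P) = κ
  have iE : ∀ g ∈ E, g⁻¹ = g := fun g hg =>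
    inv_eq_of_mul_eq_one_left (Ucl_sq F2F.T_ip F.two hg.2)
  have ma := ha'.mem ha
  have mb := hb'.mem hb
  have z0 : Z 1 k := fun g hg g' hg' => by
    simp only [Φ, mul_one]
    refine ⟨?_, ?_⟩
    · have e1 := F.TW_inv_M (mul_mem (mul_mem (mul_mem ma hg.1) mb) hg'.1)
      have e2 := TW_comm (M := MM K) (f := (g' * b' * g).toLinearMap) (g := a'.toLinearMap)
        (fun v hv => F.MM_G (mul_mem (mul_mem hg'.1 mb) hg.1) hv) fun v hv => F.MM_G ma hv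
      refine e1.symm.trans ((TW_congr fun v hv => ?_).trans e2)
      simp only [mul_inv_rev, iE g hg, iE g' hg', LinearEquiv.coe_coe, LinearEquiv.mul_apply,
        Module.End.mul_apply]
      rw [F.F2F_sq ha' h1 _ hv, F.F2F_sq hb' h2 _ (F.MM_G hg.1 (F.MM_G ma hv))]
    · rw [← hk _ _ ha' (hb'.trans ⟨g, hg.1, rfl⟩), iE g hg]; rfl
  have st : ∀ P κ, Z P κ → ∀ x ∈ E, Z (Nn x * P) 0 := fun P κ z x hx g hg g' hg' => by
    have e : ∀ g : Aut K, g.toLinearMap * (Nn x * P) =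
        (g * x).toLinearMap * P - g.toLinearMap * P := fun g => by
      rw [Nn, sub_mul, mul_sub, one_mul]; rfl
    have f : ∀ p q r s, Φ (p - q) (r - s) = Φ p r - Φ p s - Φ q r + Φ q s := fun p q r s => by
      simp only [Φ, mul_sub, sub_mul, map_sub]; ring
    have m1 := mul_mem hg hx
    have m2 := mul_mem hg' hx
    simp only [e, f]
    exact ⟨by rw [(z _ m1 _ m2).1, (z _ m1 _ hg').1, (z _ hg _ m2).1, (z _ hg _ hg').1]; ring, by
      rw [(z _ m1 _ hg).1, (z _ m1 _ hg).2, (z _ hg _ hg).2]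
      linear_combination (κ - Φ (g.toLinearMap * P) ((g * x).toLinearMap * P)) * F.two⟩
  have m1 : X (th 6) 1 ∈ E := ⟨F.X_mem_Lo F2F.lo_th, X_mem_Ucl (Or.inl rfl) 1⟩
  have m2 : X ts 1 ∈ E := ⟨F.X_mem_Lo F2F.lo_ts, X_mem_Ucl (Or.inr rfl) 1⟩
  have z := (st _ _ (st _ _ z0 _ m2) _ m1 1 (one_mem _) 1 (one_mem _)).2
  change Φ (1 * (Nn (X (th 6) 1) * (Nn (X ts 1) * 1)))
    (1 * (Nn (X (th 6) 1) * (Nn (X ts 1) * 1))) = 0 at z
  rw [one_mul, mul_one] at z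
  simp only [Φ] at z
  have hx : (sh k0 : L K) ∈ MM K := sh_mem F2F.sh_k0
  rw [TW_congr (g := (co (-k0)).smulRight (co (-k0) (b' (sh k0)) • a' (sh k0))) fun v hv => by
      rw [Module.End.mul_apply, F.F2F_two hv, Module.End.mul_apply, Module.End.mul_apply,
        LinearEquiv.coe_coe, LinearEquiv.coe_coe,
        F.F2F_two (F.MM_G mb ((MM K).smul_mem _ hx))]
      simp [smul_smul],
    TW_rank _ ((MM K).smul_mem _ (F.MM_G ma hx)), map_smul] at z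
  exact mul_ne_zero h5 h4 z

end F2
end Cfg
end Pool.Agent.MP_db74b1_al.Exc

end

section

/-! `F₄(2)`: the special isogeny, used as a correspondence on the group. -/

set_option autoImplicit false

namespace Pool.Agent.MP_db74b1_al.Exc

namespace Sig

/-- short roots go to long roots -/
def ph (b : Lat) : Lat := v8 (b 1) (b 0 + b 5) (b 3) (b 2 + b 4) (b 3) (b 1) 0 0

theorem ph_add (b c : Lat) : ph (b + c) = ph b + ph c := by
  apply lat_ext <;> simp only [ph, v8, Pi.add_apply] <;> ring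

theorem ph_neg (b : Lat) : ph (-b) = -ph b := by
  apply lat_ext <;> simp only [ph, v8, Pi.neg_apply] <;> ring

theorem ph_sg (b : Lat) : ph (sg true b) = ph b := by
  apply lat_ext <;> simp only [ph, v8, sg, pm] <;> ring

theorem sg_ph (b : Lat) : sg true (ph b) = ph b := by
  apply lat_ext <;> simp only [ph, v8, sg, pm]

theorem Sp_ph (b : Lat) : Sp 6 (ph b) := by
  intro j hj
  fin_cases j <;> first | rfl | exact absurd hj (by decide)

theorem ip_ph_ph {b c : Lat} (hb : Sp 6 b) (hc : Sp 6 c) : ip (ph b) (ph c) = ips b c := by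
  have h1 := hb 6 (by decide); have h2 := hb 7 (by decide)
  have h3 := hc 6 (by decide); have h4 := hc 7 (by decide)
  simp only [ip_x, ips, ipx, formx, ph, v8, sg, pm, h1, h2, h3, h4]; ring

theorem ip_ph {b c : Lat} (hb : Sp 6 b) (hc : Sp 6 c) : ip (ph b) c = ip b (ph c) := by
  have h1 := hb 6 (by decide); have h2 := hb 7 (by decide)
  have h3 := hc 6 (by decide); have h4 := hc 7 (by decide)
  simp only [ip_x, ipx, formx, ph, v8, h1, h2, h3, h4]; ring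

theorem ip_sg_ph {b : Lat} (hb : Sp 6 b) (c : Lat) : ip (sg true b) (ph c) = ip b (ph c) := by
  have h1 := hb 6 (by decide); have h2 := hb 7 (by decide)
  simp only [ip_x, ipx, formx, ph, v8, sg, pm, h1, h2]; ring

theorem ph_ph {b : Lat} (hb : Sp 6 b) : ph (ph b) = b + sg true b := by
  have h1 := hb 6 (by decide); have h2 := hb 7 (by decide)
  apply lat_ext <;> simp only [ph, v8, sg, pm, Pi.add_apply, h1, h2] <;> ring

theorem ph_Lo' : ∀ b ∈ allL, Sh b → Lo (ph b) := by decide +kernel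

theorem ph_Lo {b : Lat} (h : Sh b) : Lo (ph b) := ph_Lo' b h.allL h

theorem ph_surj' : ∀ l ∈ allL, Lo l → ∃ b ∈ allL, Sh b ∧ ∀ i, ph b i = l i := by decide +kernel

theorem ph_surj {l : Lat} (h : Lo l) : ∃ b, Sh b ∧ ph b = l := by
  obtain ⟨b, _, h1, h2⟩ := ph_surj' l h.allL h
  exact ⟨b, h1, funext h2⟩

theorem ph_k0 : ph k0 = th 6 := by decide

theorem Sh_k0 : Sh k0 := by decide

theorem ph_inj {b c : Lat} (hb : Sh b) (hc : Sh c) : ph b = ph c ↔ b = c ∨ b = sg true c := by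
  constructor
  · intro h
    have h1 := ip_ph_ph hc.2.1 hb.2.1
    rw [h, (ph_Lo hc).root] at h1
    rcases ips_cases hc hb with h2 | h2 | h2 | h2 | h2
    · exact h2.2
    all_goals omega
  · rintro (rfl | rfl)
    · rfl
    · exact ph_sg c

variable {K : Type} [Field K]

/-- the projection of the Lie algebra of type `F₄` onto the module -/
noncomputable def pj : L K →ₗ[K] L K where
  toFun v := (fun i => if i = 0 ∨ i = 5 then v.1 1 else if i = 2 ∨ i = 4 then v.1 3 else 0,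
    fun β => if Sh β.1 then co (ph β.1) v else 0)
  map_add' v w := by
    ext i <;> simp only [Prod.fst_add, Prod.snd_add, Pi.add_apply, map_add] <;> split_ifs <;> simp
  map_smul' r v := by
    ext i <;> simp only [Prod.smul_fst, Prod.smul_snd, Pi.smul_apply, map_smul, RingHom.id_apply] <;>
      split_ifs <;> simp

theorem pj_fst (v : L K) (i : Fin 8) :
    (pj v).1 i = if i = 0 ∨ i = 5 then v.1 1 else if i = 2 ∨ i = 4 then v.1 3 else 0 := rfl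

theorem co_pj (β : Lat) (v : L K) : co β (pj v) = if Sh β then co (ph β) v else 0 := by
  by_cases h : ip β β = 2
  · rw [co_of_root h]; rfl
  · rw [co_of_not h, if_neg fun h' => h h'.root]

theorem pj_M {m : L K} (hm : m ∈ MM K) : pj m = 0 := by
  apply L_eq
  · ext i
    rw [pj_fst, hm.2.2.1, hm.2.2.2.1]; simp
  · intro β _
    rw [co_pj, map_zero]
    split_ifs with h
    · exact hm.1 _ (ph_Lo h).not_Sh
    · rfl

theorem pj_e {γ : Lat} (h : Sh γ) : pj (e (ph γ) : L K) = sh γ := by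
  apply L_eq
  · ext i
    rw [pj_fst, sh_fst, e_fst]; simp
  · intro β _
    rw [co_pj, co_sh h]
    by_cases h1 : Sh β
    · rw [if_pos h1, co_e]
      simp only [(ph_Lo h1).root, true_and, ph_inj h1 h]
    · rw [if_neg h1, if_neg]
      rintro (rfl | rfl)
      · exact h1 h
      · exact h1 h.sg

theorem pj_hv (h2 : (2 : K) = 0) {γ : Lat} (h : Sp 6 γ) : pj (hv (ph γ) : L K) = hs γ := by
  have h6 := h 6 (by decide); have h7 := h 7 (by decide)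
  apply L_eq
  · ext i
    rw [pj_fst]
    fin_cases i <;> simp [hv, hs, ph, v8, sg, pm, h6, h7, add_comm, ← two_mul, h2]
  · intro β _
    rw [co_pj, co_hs, co_hv, ite_self]

/-- the Lie algebra of type `F₄` -/
def FF (K : Type) [Field K] : Submodule K (L K) :=
  Submodule.span K {v | v ∈ MM K ∨ (∃ γ, Sh γ ∧ v = e (ph γ)) ∨ ∃ γ, Sh γ ∧ v = hv (ph γ)}

theorem M_FF {m : L K} (h : m ∈ MM K) : m ∈ FF K := Submodule.subset_span (Or.inl h)
theorem e_FF {γ : Lat} (h : Sh γ) : (e (ph γ) : L K) ∈ FF K :=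
  Submodule.subset_span (Or.inr (Or.inl ⟨γ, h, rfl⟩))
theorem hv_FF {γ : Lat} (h : Sh γ) : (hv (ph γ) : L K) ∈ FF K :=
  Submodule.subset_span (Or.inr (Or.inr ⟨γ, h, rfl⟩))

/-- `g1` acts on the module as `g` acts on the quotient -/
def Rel (g g1 : Aut K) : Prop := ∀ v ∈ FF K, g v ∈ FF K ∧ pj (g v) = g1 (pj v)

theorem Rel.one : Rel (1 : Aut K) 1 := fun _ hv => ⟨hv, rfl⟩

theorem Rel.mul {g g1 h h1 : Aut K} (H : Rel g g1) (H' : Rel h h1) : Rel (g * h) (g1 * h1) :=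
  fun v hv => by
    obtain ⟨k1, k2⟩ := H' v hv
    obtain ⟨k3, k4⟩ := H _ k1
    exact ⟨k3, by rw [LinearEquiv.mul_apply, LinearEquiv.mul_apply, k4, k2]⟩

theorem Rel.of {g g1 : Aut K} (h0 : ∀ m ∈ MM K, g m ∈ MM K)
    (h1 : ∀ γ, Sh γ → g (e (ph γ)) ∈ FF K ∧ pj (g (e (ph γ))) = g1 (sh γ))
    (h2 : ∀ γ, Sh γ → g (hv (ph γ)) ∈ FF K ∧ pj (g (hv (ph γ))) = g1 (pj (hv (ph γ)))) :
    Rel g g1 := fun v hv => by
  induction hv using Submodule.span_induction with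
  | mem v hv =>
    rcases hv with hv | ⟨γ, hγ, rfl⟩ | ⟨γ, hγ, rfl⟩
    · exact ⟨M_FF (h0 v hv), by rw [pj_M (h0 v hv), pj_M hv, map_zero]⟩
    · rw [pj_e hγ]; exact h1 γ hγ
    · exact h2 γ hγ
  | zero => simp
  | add v w _ _ hv hw => exact ⟨by rw [map_add]; exact add_mem hv.1 hw.1,
      by simp only [map_add, hv.2, hw.2]⟩
  | smul r v _ hv => exact ⟨by rw [map_smul]; exact Submodule.smul_mem _ _ hv.1,
      by simp only [map_smul, hv.2]⟩

end Sig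

open Sig

variable {K : Type} [Field K]
namespace Cfg
variable {c : Cfg K}
namespace F2
variable (F : c.F2)
include F

namespace Sg

theorem n6 : c.n = 6 := n6_of_b F.hb

theorem neg_eq (v : L K) : -v = v := by rw [neg_eq_iff_add_eq_zero, F.add_self]

theorem sub_eq (v w : L K) : v - w = v + w := by rw [sub_eq_add_neg, neg_eq F]

theorem neg_eq' (t : K) : -t = t := by linear_combination (-t) * F.two

theorem FF_le : FF K ≤ c.V := Submodule.span_le.2 fun v hv => by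
  rcases hv with hv | ⟨γ, _, rfl⟩ | ⟨γ, _, rfl⟩
  · exact F.MM_le hv
  · exact e_mem (n6 F ▸ Sp_ph γ)
  · exact hv_mem (n6 F ▸ Sp_ph γ)

theorem pj_surj {m : L K} (hm : m ∈ MM K) : ∃ v ∈ FF K, pj v = m := by
  have s0 : Sh (a 0) := by decide
  have s2 : Sh (a 2) := by decide
  refine F.MM_ind (P := fun m => ∃ v ∈ FF K, pj v = m) ⟨0, zero_mem _, map_zero _⟩ ?_
    (fun β hβ => ⟨_, e_FF hβ, pj_e hβ⟩) ⟨_, hv_FF s0, pj_hv F.two s0.2.1⟩
    ⟨_, hv_FF s2, pj_hv F.two s2.2.1⟩ hm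
  rintro _ _ _ _ ⟨v, hv, rfl⟩ ⟨w, hw, rfl⟩
  exact ⟨v + w, add_mem hv hw, map_add _ _ _⟩

omit F in
theorem co_neg_sh {β γ : Lat} (hβ : Sh β) (h : -1 ≤ ips β γ) :
    co (-β) (sh γ : L K) = 0 := by
  have h2 : ips β β = 2 := by rw [← ip_ph_ph hβ.2.1 hβ.2.1, (ph_Lo hβ).root]
  refine co_sh_ne ⟨fun h1 => ?_, fun h1 => ?_⟩
  · rw [← h1, ips_neg] at h; omega
  · rw [← ips_sg, ← h1, ips_neg] at h; omega

theorem relXY {β : Lat} (hβ : Sh β) : Rel (X (ph β) (1 : K)) (c.Y β 1) := by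
  have hl := ph_Lo hβ
  have m1 : ∀ γ, Sh γ → ipx β γ = -1 → ipx β (sg true γ) = 0 →
      X (ph β) (1 : K) (e (ph γ)) ∈ FF K ∧ pj (X (ph β) (1 : K) (e (ph γ))) = c.Y β 1 (sh γ) := by
    intro γ hγ h1 h2
    have h3 : ips β γ = -1 := by rw [ips, h1, h2]; rfl
    have h4 := hβ.add hγ h1 h2
    rw [X_e_m1 hl.root (ph_Lo hγ).root (by rw [ip_ph_ph hβ.2.1 hγ.2.1, h3]), F.hq.eps, mul_one,
      one_smul, ← ph_add, map_add, pj_e hγ, pj_e h4, F.Y_M hβ (sh_mem hγ), F.br_sh_m1 hβ hγ h1 h2,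
      co_neg_sh hβ h3.ge, zero_smul, add_zero]
    exact ⟨add_mem (e_FF hγ) (e_FF h4), rfl⟩
  have m2 : X (ph β) (1 : K) (e (ph (-β))) ∈ FF K ∧
      pj (X (ph β) (1 : K) (e (ph (-β)))) = c.Y β 1 (sh (-β)) := by
    rw [F.Y_M hβ (sh_mem hβ.neg), F.br_sh_m2 hβ, co_sh_self hβ.neg, one_smul, ← pj_e hβ.neg,
      ← pj_e hβ, ← pj_hv F.two hβ.2.1, ← map_add, ← map_add, ph_neg, X_e_m2 hl.root, one_pow,
      one_smul, one_smul, sub_eq F, ← ph_neg]
    exact ⟨add_mem (add_mem (e_FF hβ.neg) (hv_FF hβ)) (e_FF hβ), rfl⟩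
  refine Rel.of (fun m hm => F.MM_G (F.X_mem_Lo hl) hm) (fun γ hγ => ?_) (fun γ hγ => ?_)
  · have nn : 0 ≤ ips β γ → X (ph β) (1 : K) (e (ph γ)) ∈ FF K ∧
        pj (X (ph β) (1 : K) (e (ph γ))) = c.Y β 1 (sh γ) := fun h => by
      rw [X_e_nn hl.root (ph_Lo hγ).root (by rwa [ip_ph_ph hβ.2.1 hγ.2.1]), pj_e hγ,
        F.Y_M hβ (sh_mem hγ), F.br_sh_nn hβ hγ h, co_neg_sh hβ (by omega), zero_smul,
        add_zero, add_zero]
      exact ⟨e_FF hγ, rfl⟩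
    rcases ips_cases hβ hγ with h | h | h | ⟨_, h | h⟩ | ⟨_, rfl | rfl⟩
    · exact nn (by omega)
    · exact nn (by omega)
    · exact nn (by omega)
    · exact m1 γ hγ h.1 h.2
    · have := m1 _ hγ.sg h.2 (by rw [sg_sg]; exact h.1)
      rwa [ph_sg, sh_sg] at this
    · exact m2
    · rw [← sg_neg, ph_sg, sh_sg]; exact m2
  · rw [X_hv hl.root, sub_eq F, map_add, map_smul, pj_e hβ, pj_hv F.two hγ.2.1,
      F.Y_M hβ (F.hs_mem hγ.2.1), co_hs, zero_smul, add_zero, F.br_comm, F.br_hs_sh hγ.2.1 hβ,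
      ip_ph_ph hγ.2.1 hβ.2.1, one_mul]
    exact ⟨add_mem (hv_FF hγ) (Submodule.smul_mem _ _ (e_FF hβ)), rfl⟩

theorem Y_eq {β : Lat} (hβ : Sh β) (v : L K) : c.Y β 1 v = X β 1 (X (sg true β) 1 v) := by
  rw [Y_mov (F.mov hβ), map_one, F.hb]; rfl

theorem relYX {β : Lat} (hβ : Sh β) : Rel (c.Y β 1) (X (ph β) (1 : K)) := by
  have hl := ph_Lo hβ
  have ho : ip β (sg true β) = 0 := by
    have := (F.R_Sh hβ).orth (F.mov hβ)
    rwa [F.hb] at this
  refine Rel.of (fun m hm => F.MM_G (F.Y_mem_Sh hβ) hm) (fun γ hγ => ?_) (fun γ hγ => ?_)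
  · have hm := ph_Lo hγ
    have h1 := ip_ph hβ.2.1 hγ.2.1
    have h2 := ip_sg_ph hβ.2.1 γ
    rw [Y_eq F hβ, F.X_M hl (sh_mem hγ)]
    rcases hl.cases hγ with h | h
    · have h3 : ip β (ph γ) = -1 := by rw [← h1, ip_x, h]
      have h4 : ip (sg true β) (ph γ) = -1 := by rw [h2, h3]
      have h5 := (root_add hβ.sg.root hm.root).2 h4
      have h6 := hl.add hγ h
      have h7 : Sh (ph γ + β) := hm.add hβ (by rw [← ip_x, ip_comm, h3])
      have h8 : (e (β + ph γ) : L K) + e (sg true β + ph γ) = sh (ph γ + β) := by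
        rw [sh, sg_add, sg_ph, add_comm (ph γ), add_comm (ph γ)]
      rw [X_e_m1 hβ.sg.root hm.root h4, F.hq.eps, mul_one, one_smul, map_add,
        X_e_m1 hβ.root hm.root h3, F.hq.eps, mul_one, one_smul,
        X_e_m1 hβ.root h5 (by rw [ip_add_right, ho, h3]; rfl), F.hq.eps, mul_one, one_smul,
        ← add_assoc β, ← ph_ph hβ.2.1, ← ph_add, ← add_assoc, add_assoc (e (ph γ)), h8,
        F.ad_sh_m1 hl hγ h, map_add, map_add, pj_e hγ, pj_e h6, pj_M (sh_mem h7), add_zero]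
      exact ⟨add_mem (add_mem (e_FF hγ) (M_FF (sh_mem h7))) (e_FF h6), rfl⟩
    · have h3 : 0 ≤ ip β (ph γ) := by rw [← h1, ip_x]; exact h
      rw [X_e_nn hβ.sg.root hm.root (by rwa [h2]), X_e_nn hβ.root hm.root h3, pj_e hγ,
        F.ad_sh_nn hl hγ h, add_zero]
      exact ⟨e_FF hγ, rfl⟩
  · have h2 := ip_sg_ph hβ.2.1 γ
    rw [Y_eq F hβ, X_hv hβ.sg.root, map_sub, map_smul, X_hv hβ.root,
      X_e_nn hβ.root hβ.sg.root ho.ge, ip_comm (ph γ) (sg true β), h2, ip_comm (ph γ), sub_sub,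
      ← smul_add, ← sh, map_sub, map_smul, pj_M (sh_mem hβ), smul_zero, sub_zero,
      pj_hv F.two hγ.2.1, F.X_M hl (F.hs_mem hγ.2.1), F.ad_hs hl hγ.2.1, add_zero]
    exact ⟨sub_mem (hv_FF hγ) (Submodule.smul_mem _ _ (M_FF (sh_mem hβ))), rfl⟩

theorem gen {α : Lat} {t : K} (h : c.R α) :
    (∃ y ∈ c.G, Rel (c.Y α t) y) ∧ ∃ y ∈ c.G, Rel y (c.Y α t) := by
  rcases F.val t with rfl | rfl
  · rw [Y_zero]; exact ⟨⟨1, one_mem _, Rel.one⟩, 1, one_mem _, Rel.one⟩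
  rcases F.R_cases h with h1 | h1
  · exact ⟨⟨_, F.X_mem_Lo (ph_Lo h1), relYX F h1⟩, _, F.X_mem_Lo (ph_Lo h1), relXY F h1⟩
  · rw [Y_fix (F.Lg_Lo h1).2]
    obtain ⟨β, hβ, rfl⟩ := ph_surj h1
    exact ⟨⟨_, F.Y_mem_Sh hβ, relXY F hβ⟩, _, F.Y_mem_Sh hβ, relYX F hβ⟩

theorem fwd {g : Aut K} (hg : g ∈ c.G) : ∃ g1 ∈ c.G, Rel g g1 := by
  refine G_induction (p := fun g => ∃ g1 ∈ c.G, Rel g g1) ⟨1, one_mem _, Rel.one⟩ ?_ hg
  rintro α t g h _ ⟨g1, h1, h2⟩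
  obtain ⟨y, h3, h4⟩ := (gen F (t := t) h).1
  exact ⟨_, mul_mem h3 h1, h4.mul h2⟩

theorem bwd {g1 : Aut K} (hg : g1 ∈ c.G) : ∃ g ∈ c.G, Rel g g1 := by
  refine G_induction (p := fun g1 => ∃ g ∈ c.G, Rel g g1) ⟨1, one_mem _, Rel.one⟩ ?_ hg
  rintro α t g h _ ⟨g1, h1, h2⟩
  obtain ⟨y, h3, h4⟩ := (gen F (t := t) h).2
  exact ⟨_, mul_mem h3 h1, h4.mul h2⟩

theorem rel_inv {g g1 : Aut K} (hg : g ∈ c.G) (h : Rel g g1) : Rel g⁻¹ g1⁻¹ := fun v hv => by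
  obtain ⟨_, _, h1⟩ := fwd F (inv_mem hg)
  have h2 := (h1 v hv).1
  have h3 := (h _ h2).2
  rw [app_inv] at h3
  exact ⟨h2, by rw [h3, inv_app]⟩

theorem rel_cj {a a1 a' : Aut K} (h : Rel a a1) (h' : c.Cj a1 a') :
    ∃ a0, c.Cj a a0 ∧ Rel a0 a' := by
  obtain ⟨p1, hp1, rfl⟩ := h'
  obtain ⟨p, hp, h1⟩ := bwd F hp1
  exact ⟨_, ⟨p, hp, rfl⟩, (h1.mul h).mul (rel_inv F hp h1)⟩

theorem QL_of {a a1 : Aut K} (ha1 : a1 ∈ c.G) (h : Rel a a1) (hq : c.QS a1) : c.QL a := by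
  rintro _ ⟨p, hp, r, rfl⟩
  obtain ⟨p1, hp1, h1⟩ := fwd F hp
  have h2 := ((rel_inv F hp h1).mul (h.mul h1) _ (e_FF Sh_k0)).2
  have h3 := congrArg (co (-k0)) h2
  have hx := sh_mem (K := K) Sh_k0
  have h4 := F.MM_G ha1 (F.MM_G hp1 hx)
  rw [co_pj, if_pos Sh_k0.neg, pj_e Sh_k0, ph_neg, ph_k0, LinearEquiv.mul_apply,
    LinearEquiv.mul_apply, LinearEquiv.mul_apply, LinearEquiv.mul_apply,
    ← F.Bm_sh Sh_k0 (F.MM_G (inv_mem hp1) h4), F.Bm_inv (inv_mem hp1) hx h4, inv_inv,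
    (F.QS_iff ha1).1 hq p1 hp1] at h3
  have h5 : gf (p (e (th c.n))) (a (p (e (th c.n)))) = 0 := by
    rw [gf_comm, gf_inv (G_aut hp), gf_e_right c.th_R.1, n6 F, h3]
  simp only [map_smul, LinearMap.smul_apply, h5, smul_zero]

end Sg

open Sg

theorem sigma {a b : Aut K} (ha : a ∈ c.G) (hb : b ∈ c.G) (h : c.SC a b) :
    ∃ a1 ∈ c.G, ∃ b1 ∈ c.G, c.H2 a1 b1 ∧ (c.QS a1 → c.QL a) ∧ (c.QS b1 → c.QL b) := by
  obtain ⟨a1, ha1, ra⟩ := fwd F ha
  obtain ⟨b1, hb1, rb⟩ := fwd F hb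
  refine ⟨a1, ha1, b1, hb1, ?_, QL_of F ha1 ra, QL_of F hb1 rb⟩
  obtain ⟨g, hg, h⟩ := h
  obtain ⟨g1, hg1, rg⟩ := fwd F hg
  refine ⟨TW (MM K) g1, fun a' b' ha' hb' => ?_⟩
  obtain ⟨a0, h1, h2⟩ := rel_cj F ra ha'
  obtain ⟨b0, h3, h4⟩ := rel_cj F rb hb'
  obtain ⟨z, _, hz, ⟨s, hs, rfl⟩, e1⟩ := h a0 b0 h1 h3
  obtain ⟨s1, hs1, rs⟩ := fwd F hs
  have h5 := (rs.mul rg).mul (rel_inv F hs rs)
  have h6 : ∀ m ∈ MM K, (a' * b') m = (s1 * g1 * s1⁻¹) m := fun m hm => by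
    obtain ⟨v, hv, rfl⟩ := pj_surj F hm
    rw [← ((h2.mul h4) v hv).2, ← (h5 v hv).2, e1, LinearEquiv.mul_apply z,
      hz _ (FF_le F (h5 v hv).1)]
  rw [TW_congr (g := ((s1 * g1).toLinearMap * (s1⁻¹).toLinearMap : En K)) h6,
    TW_comm (fun v hv => F.MM_G (mul_mem hs1 hg1) hv) (fun v hv => F.MM_G (inv_mem hs1) hv)]
  exact TW_congr fun v _ => by simp

end F2
end Cfg
end Pool.Agent.MP_db74b1_al.Exc

end
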