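import Mathlib

section

/-! Basic tools for products of conjugacy classes in classical groups:
rank one operators, the second coefficient `c2`, the predicate `Bad`. -/

set_option autoImplicit false
set_option linter.unusedSectionVars false

namespace Pool.Agent.MP_db74b1_al
open Module

variable {F V : Type} [Field F] [AddCommGroup V] [Module F V]

/-- The rank one operator `x ↦ φ x • p`. -/
def rk (p : V) (φ : V →ₗ[F] F) : End F V := φ.smulRight p

@[simp] lemma rk_apply (p x : V) (φ : V →ₗ[F] F) : rk p φ x = φ x • p := rfl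

lemma mul_rk (f : End F V) (p : V) (φ : V →ₗ[F] F) : f * rk p φ = rk (f p) φ := by
  ext x; simp

lemma rk_mul (f : End F V) (p : V) (φ : V →ₗ[F] F) : rk p φ * f = rk p (φ ∘ₗ f) := by
  ext x; simp

/-- trace -/
noncomputable def tr : End F V →ₗ[F] F := LinearMap.trace F V

lemma tr_rk [FiniteDimensional F V] (p : V) (φ : V →ₗ[F] F) :
    tr (rk p φ) = φ p := LinearMap.trace_smulRight φ p

lemma tr_comm [FiniteDimensional F V] (f g : End F V) : tr (f * g) = tr (g * f) :=
  LinearMap.trace_mul_comm F f g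

/-- `op B p y` is `x ↦ B x y • p`. -/
def op {σ : F →+* F} (B : V →ₗ[F] V →ₛₗ[σ] F) (p y : V) : End F V := rk p (B.flip y)

@[simp] lemma op_apply {σ : F →+* F} (B : V →ₗ[F] V →ₛₗ[σ] F) (p y x : V) :
    op B p y x = B x y • p := rfl

section c2
variable [FiniteDimensional F V]

/-- matrix of an endomorphism -/
noncomputable def mat (f : End F V) : Matrix (Fin (finrank F V)) (Fin (finrank F V)) F :=
  LinearMap.toMatrix (finBasis F V) (finBasis F V) f

lemma mat_add (f g : End F V) : mat (f + g) = mat f + mat g := by simp [mat]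
lemma mat_smul (c : F) (f : End F V) : mat (c • f) = c • mat f := by simp [mat]
lemma mat_mul (f g : End F V) : mat (f * g) = mat f * mat g := by
  simp [mat, LinearMap.toMatrix_mul]
lemma tr_mat (f : End F V) : tr f = ∑ i, mat f i i := by
  simp only [tr, mat, LinearMap.trace_eq_matrix_trace F (finBasis F V), Matrix.trace, Matrix.diag]

/-- bilinear form whose diagonal is the second coefficient of the characteristic polynomial -/
noncomputable def c2b (f g : End F V) : F :=
  ∑ i, ∑ j, if i < j then mat f i i * mat g j j - mat f i j * mat g j i else 0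

/-- trace on the exterior square -/
noncomputable def c2 (f : End F V) : F := c2b f f

/-- polar form of `c2` -/
noncomputable def pp (f g : End F V) : F := tr f * tr g - tr (f * g)

lemma c2b_add_left (f f' g : End F V) : c2b (f + f') g = c2b f g + c2b f' g := by
  simp only [c2b, mat_add, Matrix.add_apply, ← Finset.sum_add_distrib]
  refine Finset.sum_congr rfl fun i _ => Finset.sum_congr rfl fun j _ => ?_
  split_ifs <;> ring

lemma c2b_add_right (f g g' : End F V) : c2b f (g + g') = c2b f g + c2b f g' := by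
  simp only [c2b, mat_add, Matrix.add_apply, ← Finset.sum_add_distrib]
  refine Finset.sum_congr rfl fun i _ => Finset.sum_congr rfl fun j _ => ?_
  split_ifs <;> ring

lemma c2b_smul (c d : F) (f g : End F V) : c2b (c • f) (d • g) = c * d * c2b f g := by
  simp only [c2b, mat_smul, Matrix.smul_apply, smul_eq_mul, Finset.mul_sum]
  refine Finset.sum_congr rfl fun i _ => Finset.sum_congr rfl fun j _ => ?_
  split_ifs <;> ring

lemma c2b_symm (f g : End F V) : c2b f g + c2b g f = pp f g := by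
  have h1 : c2b g f = ∑ i, ∑ j,
      if j < i then mat f i i * mat g j j - mat f i j * mat g j i else 0 := by
    unfold c2b
    rw [Finset.sum_comm]
    refine Finset.sum_congr rfl fun i _ => Finset.sum_congr rfl fun j _ => ?_
    split_ifs <;> ring
  rw [h1, pp, tr_mat, tr_mat, tr_mat, mat_mul, Finset.sum_mul_sum]
  simp only [c2b, Matrix.mul_apply, ← Finset.sum_add_distrib, ← Finset.sum_sub_distrib]
  refine Finset.sum_congr rfl fun i _ => Finset.sum_congr rfl fun j _ => ?_
  rcases lt_trichotomy i j with h | h | h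
  · simp [h, not_lt.mpr h.le]
  · subst h; simp
  · simp [h, not_lt.mpr h.le]

lemma c2_add (f g : End F V) : c2 (f + g) = c2 f + c2 g + pp f g := by
  simp only [c2, c2b_add_left, c2b_add_right, ← c2b_symm]; ring

lemma c2_smul (c : F) (f : End F V) : c2 (c • f) = c ^ 2 * c2 f := by
  simp only [c2, c2b_smul]; ring

lemma c2_neg (f : End F V) : c2 (-f) = c2 f := by
  have := c2_smul (-1 : F) f
  simpa using this

lemma pp_neg_right (f g : End F V) : pp f (-g) = - pp f g := by
  simp [pp]; ring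

lemma c2_sub (f g : End F V) : c2 (f - g) = c2 f + c2 g - pp f g := by
  rw [sub_eq_add_neg, c2_add, c2_neg, pp_neg_right]; ring

lemma c2_rk (p : V) (φ : V →ₗ[F] F) : c2 (rk p φ) = 0 := by
  unfold c2 c2b
  refine Finset.sum_eq_zero fun i _ => Finset.sum_eq_zero fun j _ => ?_
  split_ifs
  · simp [mat, LinearMap.toMatrix_apply]; ring
  · rfl

lemma c2_zero : c2 (0 : End F V) = 0 := by
  have := c2_smul (0 : F) (0 : End F V)
  simpa using this

lemma sum_rk (f : End F V) :
    f = ∑ i, rk (f (finBasis F V i)) ((finBasis F V).coord i) := by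
  ext x
  conv_lhs => rw [← (finBasis F V).sum_repr x, map_sum]
  simp [LinearMap.sum_apply]

lemma c2_comm (f g : End F V) : c2 (f * g) = c2 (g * f) := by
  have key : ∀ s : Finset (Fin (finrank F V)), ∀ p : Fin (finrank F V) → V,
      ∀ φ : Fin (finrank F V) → V →ₗ[F] F,
      c2 ((∑ i ∈ s, rk (p i) (φ i)) * g) = c2 (g * ∑ i ∈ s, rk (p i) (φ i)) := by
    intro s p φ
    induction s using Finset.induction_on with
    | empty => simp
    | insert i s hi ih =>
      rw [Finset.sum_insert hi, add_mul, mul_add, c2_add, c2_add, ih, rk_mul, mul_rk, c2_rk, c2_rk,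
        ← rk_mul, ← mul_rk]
      congr 1
      unfold pp
      rw [tr_comm (rk (p i) (φ i)) g, tr_comm (∑ i ∈ s, rk (p i) (φ i)) g]
      congr 1
      rw [← mul_assoc, tr_comm _ g]
      simp only [mul_assoc]
  rw [sum_rk f]
  exact key _ _ _

lemma c2_conj (k : (End F V)ˣ) (e : End F V) : c2 (k.val * e * k⁻¹.val) = c2 e := by
  rw [c2_comm, ← mul_assoc, Units.inv_mul, one_mul]

lemma tr_conj (k : (End F V)ˣ) (e : End F V) : tr (k.val * e * k⁻¹.val) = tr e := by
  rw [tr_comm, ← mul_assoc, Units.inv_mul, one_mul]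

end c2

@[simp] lemma inv_app (a : (End F V)ˣ) (x : V) : a⁻¹.val (a.val x) = x := by
  rw [← End.mul_apply, Units.inv_mul, End.one_apply]

@[simp] lemma app_inv (a : (End F V)ˣ) (x : V) : a.val (a⁻¹.val x) = x := by
  rw [← End.mul_apply, Units.mul_inv, End.one_apply]

lemma app_eq_zero {a : (End F V)ˣ} {x : V} (h : a.val x = 0) : x = 0 := by
  rw [← inv_app a x, h, map_zero]

/-- every product of a `G`-conjugate of `a` and a `G`-conjugate of `b` is
a scalar from `Z` times a conjugate of `e`. -/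
def Bad (G : Subgroup (End F V)ˣ) (Z : Set F) (a b : (End F V)ˣ) (e : End F V) : Prop :=
  ∀ g ∈ G, ∀ h ∈ G, ∃ z ∈ Z, ∃ k : (End F V)ˣ,
    (g * a * g⁻¹ * (h * b * h⁻¹)).val = z • (k.val * e * k⁻¹.val)

section Bad
variable {G : Subgroup (End F V)ˣ} {Z : Set F} {a b : (End F V)ˣ} {e : End F V}

lemma Bad.conjL (h : Bad G Z a b e) {g : (End F V)ˣ} (hg : g ∈ G) :
    Bad G Z (g * a * g⁻¹) b e := by
  intro g' hg' k hk
  have := h (g' * g) (G.mul_mem hg' hg) k hk
  simpa only [mul_assoc, mul_inv_rev] using this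

lemma Bad.conjR (h : Bad G Z a b e) {g : (End F V)ˣ} (hg : g ∈ G) :
    Bad G Z a (g * b * g⁻¹) e := by
  intro k hk g' hg'
  have := h k hk (g' * g) (G.mul_mem hg' hg)
  simpa only [mul_assoc, mul_inv_rev] using this

lemma Bad.swap (h : Bad G Z a b e) : Bad G Z b a e := by
  intro g hg k hk
  obtain ⟨z, hz, l, hl⟩ := h k hk g hg
  refine ⟨z, hz, (k * a * k⁻¹)⁻¹ * l, ?_⟩
  have e1 : (g * b * g⁻¹ * (k * a * k⁻¹) : (End F V)ˣ) =
      (k * a * k⁻¹)⁻¹ * (k * a * k⁻¹ * (g * b * g⁻¹)) * (k * a * k⁻¹) := by group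
  rw [e1, Units.val_mul, Units.val_mul, hl]
  simp only [mul_inv_rev, inv_inv, Units.val_mul, mul_smul_comm, smul_mul_assoc, mul_assoc]

lemma Bad.base (h : Bad G Z a b e) : ∃ z ∈ Z, ∃ k : (End F V)ˣ,
    a.val * b.val = z • (k.val * e * k⁻¹.val) := by
  simpa using h 1 G.one_mem 1 G.one_mem

lemma Bad.tr [FiniteDimensional F V] (h : Bad G Z a b e) :
    ∃ z ∈ Z, tr (a.val * b.val) = z * tr e ∧ c2 (a.val * b.val) = z ^ 2 * c2 e := by
  obtain ⟨z, hz, k, hk⟩ := h.base
  refine ⟨z, hz, ?_, ?_⟩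
  · rw [hk, map_smul, smul_eq_mul, tr_conj]
  · rw [hk, c2_smul, c2_conj]

end Bad

/-- the unipotent unit `1 + N` for `N * N = 0` -/
def unip (N : End F V) (h : N * N = 0) : (End F V)ˣ :=
  ⟨1 + N, 1 - N, by rw [add_mul, mul_sub, mul_sub, h]; simp,
    by rw [sub_mul, mul_add, mul_add, h]; simp⟩

@[simp] lemma unip_val (N : End F V) (h : N * N = 0) : (unip N h).val = 1 + N := rfl
@[simp] lemma unip_inv_val (N : End F V) (h : N * N = 0) :
    (unip N h)⁻¹.val = 1 - N := rfl

lemma det_unip [Finite F] (N : End F V) (h : N * N = 0) : LinearMap.det (1 + N) = 1 := by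
  have h1 : ∀ k : ℕ, (1 + N) ^ k = 1 + (k : F) • N := by
    intro k
    induction k with
    | zero => simp
    | succ k ih =>
      rw [pow_succ, ih, add_mul, mul_add, mul_add, smul_mul_assoc, smul_mul_assoc, h]
      simp [add_smul]; abel
  obtain ⟨p, hp⟩ := CharP.exists F
  have hpp : p.Prime := CharP.char_is_prime F p
  have : Fact p.Prime := ⟨hpp⟩
  have h2 : (LinearMap.det (1 + N)) ^ p = 1 := by
    rw [← map_pow, h1, CharP.cast_eq_zero]; simp
  have h3 : (LinearMap.det (1 + N) - 1) ^ p = 0 := by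
    rw [sub_pow_char, h2]; simp
  exact sub_eq_zero.mp (pow_eq_zero_iff hpp.ne_zero |>.mp h3)

/-- non-scalar -/
def NS (a : End F V) : Prop := ∀ c : F, a ≠ c • 1

lemma NS.conj {a : (End F V)ˣ} (h : NS a.val) (g : (End F V)ˣ) :
    NS (g * a * g⁻¹).val := by
  intro c hc
  apply h c
  have e1 : a = g⁻¹ * (g * a * g⁻¹) * g := by group
  rw [e1, Units.val_mul, Units.val_mul, hc]
  simp

lemma scalar_of_eig (M : End F V) (h : ∀ v, M v ∈ Submodule.span F {v}) : ∃ c : F, M = c • 1 := by
  apply LinearMap.exists_eq_smul_id_of_forall_notLinearIndependent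
  intro v hv
  obtain ⟨c, hc⟩ := Submodule.mem_span_singleton.mp (h v)
  have := (LinearIndependent.pair_iff.mp hv) c (-1) (by simp [hc])
  simp at this

lemma NS.exists {a : End F V} (h : NS a) : ∃ v, a v ∉ Submodule.span F {v} := by
  by_contra hh
  push Not at hh
  obtain ⟨c, hc⟩ := scalar_of_eig a hh
  exact h c hc

theorem reduce (H : Subgroup (End F V)ˣ) (Z : Set F)
    (hZ : ∀ c ∈ H, (∀ g ∈ H, g * c = c * g) → ∃ z ∈ Z, c.val = z • 1)
    {G : Type} [Group G] (φ : G ≃* H ⧸ Subgroup.center H) (x y z : G) (hx : x ≠ 1) (hy : y ≠ 1)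
    (h : {g : G | ∃ a b : G, IsConj x a ∧ IsConj y b ∧ g = a * b} = {g : G | IsConj z g}) :
    ∃ a ∈ H, ∃ b ∈ H, NS a.val ∧ NS b.val ∧ ∃ e, Bad H Z a b e := by
  obtain ⟨a, ha⟩ := QuotientGroup.mk_surjective (φ x)
  obtain ⟨b, hb⟩ := QuotientGroup.mk_surjective (φ y)
  obtain ⟨e, he⟩ := QuotientGroup.mk_surjective (φ z)
  have ns : ∀ (w : G) (c : H), w ≠ 1 → (c : H ⧸ Subgroup.center H) = φ w →
      NS ((c : (End F V)ˣ) : End F V) := by
    intro w c hw hc d hd
    apply hw
    apply φ.injective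
    rw [← hc, map_one, QuotientGroup.eq_one_iff, Subgroup.mem_center_iff]
    intro g
    apply Subtype.ext
    apply Units.ext
    simp [hd]
  refine ⟨a, a.2, b, b.2, ns x a hx ha, ns y b hy hb, ((e : (End F V)ˣ) : End F V), ?_⟩
  intro g hg k hk
  let g' : H := ⟨g, hg⟩
  let k' : H := ⟨k, hk⟩
  have hm : φ.symm ((g' * a * g'⁻¹ * (k' * b * k'⁻¹) : H) : H ⧸ Subgroup.center H) ∈
      {g : G | ∃ a b : G, IsConj x a ∧ IsConj y b ∧ g = a * b} := by
    refine ⟨φ.symm g' * x * (φ.symm g')⁻¹, φ.symm k' * y * (φ.symm k')⁻¹, ?_, ?_, ?_⟩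
    · exact isConj_iff.mpr ⟨_, rfl⟩
    · exact isConj_iff.mpr ⟨_, rfl⟩
    · apply φ.injective
      simp [← ha, ← hb]
  rw [h] at hm
  obtain ⟨c, hc⟩ := isConj_iff.mp hm
  obtain ⟨l, hl⟩ := QuotientGroup.mk_surjective (φ c)
  have h2 : ((l * e * l⁻¹ : H) : H ⧸ Subgroup.center H) =
      ((g' * a * g'⁻¹ * (k' * b * k'⁻¹) : H) : H ⧸ Subgroup.center H) := by
    have := congrArg φ hc
    rw [MulEquiv.apply_symm_apply] at this
    rw [← this]
    simp [hl, he]
  rw [QuotientGroup.eq, Subgroup.mem_center_iff] at h2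
  obtain ⟨s, hs, hs'⟩ := hZ _ ((l * e * l⁻¹)⁻¹ * (g' * a * g'⁻¹ * (k' * b * k'⁻¹)) : H).2
    (fun g hg => congrArg Subtype.val (h2 ⟨g, hg⟩))
  refine ⟨s, hs, l, ?_⟩
  have e1 : (g * a * g⁻¹ * (k * b * k⁻¹) : (End F V)ˣ) = ((l : (End F V)ˣ) * e * (l : (End F V)ˣ)⁻¹) *
      (((l * e * l⁻¹)⁻¹ * (g' * a * g'⁻¹ * (k' * b * k'⁻¹)) : H) : (End F V)ˣ) := by
    simp only [Subgroup.coe_mul, Subgroup.coe_inv, g', k']
    group
  rw [e1, Units.val_mul, hs']
  simp

end Pool.Agent.MP_db74b1_al

end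

section

/-! Field lemmas and linear algebra lemmas. -/

set_option autoImplicit false
set_option linter.unusedSectionVars false

namespace Pool.Agent.MP_db74b1_al
open Module Submodule

variable {F V : Type} [Field F] [AddCommGroup V] [Module F V]

lemma quad3 {θ c0 c1 c2 t : F} (h0 : θ ≠ 0) (h1 : θ ≠ 1) (e0 : c0 = t) (e1 : c0 + c1 + c2 = t)
    (e2 : c0 + c1 * θ + c2 * θ ^ 2 = t) : c2 = 0 := by
  have : c2 * (θ * (θ - 1)) = 0 := by linear_combination e2 - θ * e1 + (θ - 1) * e0
  rcases mul_eq_zero.mp this with h | h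
  · exact h
  · exact absurd h (mul_ne_zero h0 (sub_ne_zero.mpr h1))

lemma exists_third [Finite F] (h : 2 < Nat.card F) : ∃ θ : F, θ ≠ 0 ∧ θ ≠ 1 := by
  classical
  by_contra hh
  push Not at hh
  have := Fintype.ofFinite F
  have h2 : (Finset.univ : Finset F) ⊆ {0, 1} := by
    intro x _
    by_cases hx : x = 0
    · simp [hx]
    · simp [hh x hx]
  have h3 := (Finset.card_le_card h2).trans Finset.card_le_two
  rw [Nat.card_eq_fintype_card] at h
  simp at h3
  omega

lemma quartic5 {c0 c1 c2 c3 c4 : F} (s : Finset F) (hs : 5 ≤ s.card)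
    (h : ∀ x ∈ s, c0 + c1 * x + c2 * x ^ 2 + c3 * x ^ 3 + c4 * x ^ 4 = 0) : c4 = 0 := by
  open Polynomial in
  have hp : (C c0 + C c1 * X + C c2 * X ^ 2 + C c3 * X ^ 3 + C c4 * X ^ 4 : F[X]) = 0 := by
    apply Polynomial.eq_zero_of_natDegree_lt_card_of_eval_eq_zero' _ s
    · intro x hx
      simpa using h x hx
    · have : (C c0 + C c1 * X + C c2 * X ^ 2 + C c3 * X ^ 3 + C c4 * X ^ 4 : F[X]).natDegree ≤ 4 := by
        compute_degree
      omega
  have := congrArg (fun p => Polynomial.coeff p 4) hp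
  simpa [Polynomial.coeff_X, Polynomial.coeff_C] using this

lemma sq_one_two (h2 : (2 : F) = 0) {z : F} (hz : z ^ 2 = 1) : z = 1 := by
  have : (z - 1) ^ 2 = 0 := by linear_combination hz + (1 - z) * h2
  exact sub_eq_zero.mp (pow_eq_zero_iff two_ne_zero |>.mp this)

lemma sq_inj_two (h2 : (2 : F) = 0) {x y : F} (h : x ^ 2 = y ^ 2) : x = y := by
  have : (x - y) ^ 2 = 0 := by linear_combination h + (y ^ 2 - x * y) * h2
  exact sub_eq_zero.mp (pow_eq_zero_iff two_ne_zero |>.mp this)

lemma exists_sqrt_two [Finite F] (h2 : (2 : F) = 0) (x : F) : ∃ y : F, y ^ 2 = x :=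
  (Finite.injective_iff_surjective (f := fun y : F => y ^ 2)).mp (fun _ _ h => sq_inj_two h2 h) x

lemma odd_card [Finite F] (h2 : (2 : F) ≠ 0) : Nat.card F % 2 = 1 := by
  have := Fintype.ofFinite F
  rw [Nat.card_eq_fintype_card]
  apply FiniteField.odd_card_of_char_ne_two
  intro h
  apply h2
  have := (ringChar.spec F 2).mpr (by rw [h])
  simpa using this

lemma two_eq_zero_of_card_even [Finite F] (h : Nat.card F % 2 = 0) : (2 : F) = 0 := by
  by_contra h2
  have := odd_card h2
  omega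

lemma card_cast [Finite F] : ((Nat.card F : ℕ) : F) = 0 := by
  have := Fintype.ofFinite F
  rw [Nat.card_eq_fintype_card]
  exact FiniteField.cast_card_eq_zero F

lemma two_le_card [Finite F] : 2 ≤ Nat.card F := Finite.one_lt_card

lemma quad_pm [Finite F] (hq : 3 < Nat.card F) {c0 c1 c2 t : F}
    (h : ∀ s, ∃ z : F, z ^ 2 = 1 ∧ c0 + c1 * s + c2 * s ^ 2 = z * t) : c2 = 0 := by
  by_cases h2 : (2 : F) = 0
  · obtain ⟨θ, h0, h1⟩ := exists_third (F := F) (by omega)
    have h' : ∀ s, c0 + c1 * s + c2 * s ^ 2 = t := by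
      intro s
      obtain ⟨z, hz, e⟩ := h s
      rw [e, sq_one_two h2 hz, one_mul]
    exact quad3 h0 h1 (by simpa using h' 0) (by simpa using h' 1) (h' θ)
  · have := Fintype.ofFinite F
    have h3 := odd_card h2
    have h4 : c2 ^ 2 = 0 := by
      apply quartic5 (c0 := c0 ^ 2 - t ^ 2) (c1 := 2 * c0 * c1) (c2 := c1 ^ 2 + 2 * c0 * c2)
        (c3 := 2 * c1 * c2) Finset.univ
      · rw [Nat.card_eq_fintype_card] at hq h3
        simp; omega
      · intro x _
        obtain ⟨z, hz, e⟩ := h x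
        linear_combination (c0 + c1 * x + c2 * x ^ 2 + z * t) * e + t ^ 2 * hz
    exact pow_eq_zero_iff two_ne_zero |>.mp h4

lemma cw3 [Finite F] (c1 c2 c3 c4 c5 c6 : F) : ∃ x y z : F, ¬ (x = 0 ∧ y = 0 ∧ z = 0) ∧
    c1 * x ^ 2 + c2 * y ^ 2 + c3 * z ^ 2 + c4 * x * y + c5 * x * z + c6 * y * z = 0 := by
  classical
  have := Fintype.ofFinite F
  obtain ⟨p, hp⟩ := CharP.exists F
  have hpp : p.Prime := CharP.char_is_prime F p
  open MvPolynomial in
  let f : MvPolynomial (Fin 3) F := C c1 * X 0 ^ 2 + C c2 * X 1 ^ 2 + C c3 * X 2 ^ 2 +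
    C c4 * X 0 * X 1 + C c5 * X 0 * X 2 + C c6 * X 1 * X 2
  have hd : f.totalDegree < Fintype.card (Fin 3) := by
    open MvPolynomial in
    have h1 : ∀ (c : F) (i : Fin 3), (C c * X i ^ 2 : MvPolynomial (Fin 3) F).totalDegree ≤ 2 := by
      intro c i
      refine (totalDegree_mul _ _).trans ?_
      simp [totalDegree_X_pow]
    open MvPolynomial in
    have h2 : ∀ (c : F) (i j : Fin 3),
        (C c * X i * X j : MvPolynomial (Fin 3) F).totalDegree ≤ 2 := by
      intro c i j
      refine (totalDegree_mul _ _).trans ?_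
      have := totalDegree_mul (C c : MvPolynomial (Fin 3) F) (X i)
      simp [totalDegree_X] at this ⊢
      omega
    have h3 : ∀ f g : MvPolynomial (Fin 3) F, f.totalDegree ≤ 2 → g.totalDegree ≤ 2 →
        (f + g).totalDegree ≤ 2 := fun f g hf hg =>
      (MvPolynomial.totalDegree_add f g).trans (max_le hf hg)
    have := h3 _ _ (h3 _ _ (h3 _ _ (h3 _ _ (h3 _ _ (h1 c1 0) (h1 c2 1)) (h1 c3 2)) (h2 c4 0 1))
      (h2 c5 0 2)) (h2 c6 1 2)
    simp only [Fintype.card_fin]
    exact Nat.lt_succ_of_le this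
  have hdv := char_dvd_card_solutions p hd
  by_contra hh
  push Not at hh
  have hone : Fintype.card { x : Fin 3 → F // MvPolynomial.eval x f = 0 } = 1 := by
    rw [Fintype.card_eq_one_iff]
    refine ⟨⟨0, by simp [f]⟩, ?_⟩
    rintro ⟨x, hx⟩
    apply Subtype.ext
    by_contra hne
    refine hh (x 0) (x 1) (x 2) ?_ (by simpa [f] using hx)
    intro h0 h1 h2
    apply hne
    funext i
    fin_cases i <;> simp [h0, h1, h2]
  rw [hone] at hdv
  exact hpp.one_lt.ne' (Nat.dvd_one.mp hdv)

/-- a quadratic polynomial in two variables with nondegenerate leading form is onto -/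
lemma onto2 [Finite F] {c l1 l2 α β γ : F} (hd : β ^ 2 ≠ 4 * α * γ) (d : F) :
    ∃ x y, c + l1 * x + l2 * y - (α * x ^ 2 + β * x * y + γ * y ^ 2) = d := by
  obtain ⟨x, y, z, hne, h⟩ := cw3 (-α) (-γ) (c - d) (-β) l1 l2
  by_cases hz : z = 0
  · subst hz
    have hq : α * x ^ 2 + β * x * y + γ * y ^ 2 = 0 := by linear_combination -h
    have key : ∀ u v : F, l1 * x + l2 * y - (2 * α * x * u + β * (x * v + y * u) + 2 * γ * y * v) ≠ 0 →
        ∃ x y, c + l1 * x + l2 * y - (α * x ^ 2 + β * x * y + γ * y ^ 2) = d := by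
      intro u v hk
      set k := l1 * x + l2 * y - (2 * α * x * u + β * (x * v + y * u) + 2 * γ * y * v) with hkd
      set s := (d - (c + l1 * u + l2 * v - (α * u ^ 2 + β * u * v + γ * v ^ 2))) / k with hs
      have hs' : s * k = d - (c + l1 * u + l2 * v - (α * u ^ 2 + β * u * v + γ * v ^ 2)) := by
        rw [hs]; field_simp
      refine ⟨u + s * x, v + s * y, ?_⟩
      rw [hkd] at hs'
      linear_combination hs' - s ^ 2 * hq
    by_contra hh
    have k0 : l1 * x + l2 * y = 0 := by
      by_contra k; exact hh (key 0 0 (by simpa using k))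
    have k1 : 2 * α * x + β * y = 0 := by
      by_contra k; exact hh (key 1 0 (by intro k'; apply k; linear_combination k0 - k'))
    have k2 : β * x + 2 * γ * y = 0 := by
      by_contra k; exact hh (key 0 1 (by intro k'; apply k; linear_combination k0 - k'))
    have hd' := sub_ne_zero.mpr hd
    apply hne
    refine ⟨?_, ?_, rfl⟩
    · apply (mul_eq_zero.mp (_ : (β ^ 2 - 4 * α * γ) * x = 0)).resolve_left hd'
      linear_combination β * k2 - 2 * γ * k1
    · apply (mul_eq_zero.mp (_ : (β ^ 2 - 4 * α * γ) * y = 0)).resolve_left hd'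
      linear_combination β * k1 - 2 * α * k2
  · refine ⟨x / z, y / z, ?_⟩
    field_simp
    linear_combination h

lemma D2 [Finite F] {c l1 l2 α β γ t : F}
    (h : ∀ x y, ∃ z : F, z ≠ 0 ∧
      c + l1 * x + l2 * y - (α * x ^ 2 + β * x * y + γ * y ^ 2) = z * t) :
    β ^ 2 = 4 * α * γ := by
  by_contra hd
  by_cases ht : t = 0
  · obtain ⟨x, y, e⟩ := onto2 (c := c) (l1 := l1) (l2 := l2) hd 1
    obtain ⟨z, _, e'⟩ := h x y
    rw [e, ht, mul_zero] at e'
    exact one_ne_zero e'
  · obtain ⟨x, y, e⟩ := onto2 (c := c) (l1 := l1) (l2 := l2) hd 0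
    obtain ⟨z, hz, e'⟩ := h x y
    rw [e] at e'
    exact mul_ne_zero hz ht e'.symm

/-! linear algebra -/

lemma exists_fun {W : Submodule F V} {x : V} (hx : x ∉ W) :
    ∃ φ : V →ₗ[F] F, φ x = 1 ∧ ∀ w ∈ W, φ w = 0 := by
  obtain ⟨f, h1, h2⟩ := Submodule.exists_le_ker_of_notMem hx
  refine ⟨(f x)⁻¹ • f, by simp [h1], fun w hw => ?_⟩
  have : f w = 0 := h2 hw
  simp [this]

section fd
variable [FiniteDimensional F V]

lemma rep [Finite F] {σ : F →+* F} (B : V →ₗ[F] V →ₛₗ[σ] F) (hB : ∀ y, (∀ x, B x y = 0) → y = 0)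
    (φ : V →ₗ[F] F) : ∃ z, ∀ x, φ x = B x z := by
  have : Finite V := Module.finite_of_finite F
  let e := (finBasis F V).toDualEquiv
  have hi : Function.Injective (fun z => e.symm (B.flip z)) := by
    intro z z' h
    have h1 : B.flip z = B.flip z' := e.symm.injective h
    rw [← sub_eq_zero]
    apply hB
    intro x
    have := LinearMap.congr_fun h1 x
    simp only [LinearMap.flip_apply] at this
    rw [map_sub, this, sub_self]
  obtain ⟨z, hz⟩ := Finite.injective_iff_surjective.mp hi (e.symm φ)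
  have h1 : B.flip z = φ := e.symm.injective hz
  exact ⟨z, fun x => by rw [← h1]; rfl⟩

lemma sep [Finite F] {σ : F →+* F} (B : V →ₗ[F] V →ₛₗ[σ] F) (hB : ∀ y, (∀ x, B x y = 0) → y = 0)
    {W : Submodule F V} {x : V} (hx : x ∉ W) : ∃ z, B x z = 1 ∧ ∀ w ∈ W, B w z = 0 := by
  obtain ⟨φ, h1, h2⟩ := exists_fun hx
  obtain ⟨z, hz⟩ := rep B hB φ
  exact ⟨z, by rw [← hz, h1], fun w hw => by rw [← hz, h2 w hw]⟩

lemma sep2 [Finite F] {σ : F →+* F} (B : V →ₗ[F] V →ₛₗ[σ] F) (hB : ∀ y, (∀ x, B x y = 0) → y = 0)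
    {W : Submodule F V} {x x' : V} (hx : x ∉ W) (hx' : x' ∉ W) :
    ∃ z, B x z ≠ 0 ∧ B x' z ≠ 0 ∧ ∀ w ∈ W, B w z = 0 := by
  obtain ⟨z, h1, h2⟩ := sep B hB hx
  obtain ⟨z', h1', h2'⟩ := sep B hB hx'
  by_cases e : B x' z = 0
  · by_cases e' : B x z' = 0
    · refine ⟨z + z', by simp [h1, e'], by simp [h1', e], fun w hw => by simp [h2 w hw, h2' w hw]⟩
    · exact ⟨z', e', by simp [h1'], h2'⟩
  · exact ⟨z, by simp [h1], e, h2⟩

lemma out {W R : Submodule F V} (h : finrank F R < finrank F W) : ∃ x ∈ W, x ∉ R := by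
  by_contra hh
  push Not at hh
  have := Submodule.finrank_mono (show W ≤ R from hh)
  omega

lemma fker (φ : V →ₗ[F] F) : finrank F V ≤ finrank F (LinearMap.ker φ) + 1 := by
  have h1 := φ.finrank_range_add_finrank_ker
  have h2 : finrank F (LinearMap.range φ) ≤ 1 := by
    simpa using (LinearMap.range φ).finrank_le
  omega

lemma fk (W : Submodule F V) (φ : V →ₗ[F] F) :
    finrank F W ≤ finrank F (W ⊓ LinearMap.ker φ : Submodule F V) + 1 := by
  have h1 := Submodule.finrank_sup_add_finrank_inf_eq W (LinearMap.ker φ)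
  have h2 := (W ⊔ LinearMap.ker φ).finrank_le
  have h3 := fker φ
  omega

lemma fs1 (x : V) : finrank F (span F {x}) ≤ 1 := by
  simpa using finrank_span_le_card (R := F) ({x} : Set V)

lemma fsup (R : Submodule F V) (x : V) :
    finrank F (R ⊔ span F {x} : Submodule F V) ≤ finrank F R + 1 := by
  have h1 := Submodule.finrank_sup_add_finrank_inf_eq R (span F {x})
  have := fs1 (F := F) x
  omega

lemma fsins (x : V) (s : Set V) : finrank F (span F (insert x s)) ≤ finrank F (span F s) + 1 := by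
  rw [span_insert, sup_comm]
  exact fsup _ _

lemma fs2 (x y : V) : finrank F (span F {x, y}) ≤ 2 := by
  have := fsins (F := F) x {y}
  have := fs1 (F := F) y
  omega

lemma fs3 (x y z : V) : finrank F (span F {x, y, z}) ≤ 3 := by
  have := fsins (F := F) x {y, z}
  have := fs2 (F := F) y z
  omega

lemma out2 {W R : Submodule F V} (h : finrank F R + 2 ≤ finrank F W) :
    ∃ z1 ∈ W, ∃ z2 ∈ W, ∀ x y : F, x • z1 + y • z2 ∈ R → x = 0 ∧ y = 0 := by
  obtain ⟨z1, h1, h1'⟩ := out (W := W) (R := R) (by omega)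
  have := fsup R z1
  obtain ⟨z2, h2, h2'⟩ := out (W := W) (R := R ⊔ span F {z1}) (by omega)
  refine ⟨z1, h1, z2, h2, fun x y hxy => ?_⟩
  have hy : y = 0 := by
    by_contra hy
    apply h2'
    have : z2 = y⁻¹ • (x • z1 + y • z2) - (y⁻¹ * x) • z1 := by
      simp [smul_add, smul_smul, hy]
    rw [this]
    exact sub_mem (mem_sup_left (smul_mem _ _ hxy))
      (mem_sup_right (smul_mem _ _ (mem_span_singleton_self z1)))
  refine ⟨?_, hy⟩
  by_contra hx
  apply h1'
  rw [hy, zero_smul, add_zero] at hxy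
  exact (smul_mem_iff R hx).mp hxy

lemma out3 {W R : Submodule F V} (h : finrank F R + 3 ≤ finrank F W) :
    ∃ z1 ∈ W, ∃ z2 ∈ W, ∃ z3 ∈ W, ∀ x y z : F,
      x • z1 + y • z2 + z • z3 ∈ R → x = 0 ∧ y = 0 ∧ z = 0 := by
  obtain ⟨z3, h3, h3'⟩ := out (W := W) (R := R) (by omega)
  have := fsup R z3
  obtain ⟨z1, h1, z2, h2, h12⟩ := out2 (W := W) (R := R ⊔ span F {z3}) (by omega)
  refine ⟨z1, h1, z2, h2, z3, h3, fun x y z hxy => ?_⟩
  obtain ⟨hx, hy⟩ := h12 x y (by
    have : x • z1 + y • z2 = (x • z1 + y • z2 + z • z3) - z • z3 := by abel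
    rw [this]
    exact sub_mem (mem_sup_left hxy) (mem_sup_right (smul_mem _ _ (mem_span_singleton_self z3))))
  refine ⟨hx, hy, ?_⟩
  by_contra hz
  apply h3'
  rw [hx, hy, zero_smul, zero_smul, add_zero, zero_add] at hxy
  exact (smul_mem_iff R hz).mp hxy

/-- if `f * g = 0` then the kernels of `f` and `g` together have at least the full dimension -/
lemma fker_mul {f g : End F V} (h : f * g = 0) :
    finrank F V ≤ finrank F (LinearMap.ker f) + finrank F (LinearMap.ker g) := by
  have h1 := g.finrank_range_add_finrank_ker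
  have h2 : LinearMap.range g ≤ LinearMap.ker f := by
    rintro _ ⟨x, rfl⟩
    rw [LinearMap.mem_ker, ← End.mul_apply, h, LinearMap.zero_apply]
  have := Submodule.finrank_mono h2
  omega

end fd

lemma nmem1 {u v : V} : v ∉ span F {u} ↔ ∀ c : F, v ≠ c • u := by
  simp [mem_span_singleton, eq_comm]

lemma nmem2 {u v w : V} : w ∉ span F {u, v} ↔ ∀ c d : F, w ≠ c • u + d • v := by
  simp [mem_span_pair, eq_comm]

lemma nmem0 {v : V} : v ∉ span F {(0 : V)} ↔ v ≠ 0 := by simp

lemma indep_pair {u v : V} (hu : u ≠ 0) (hv : v ∉ span F {u}) {c d : F}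
    (h : c • u + d • v = 0) : c = 0 ∧ d = 0 := by
  have hd : d = 0 := by
    by_contra hd
    apply nmem1.mp hv (-(d⁻¹ * c))
    have : v = d⁻¹ • (c • u + d • v) - (d⁻¹ * c) • u := by simp [smul_add, smul_smul, hd]
    rw [this, h]; simp
  refine ⟨?_, hd⟩
  rw [hd, zero_smul, add_zero] at h
  exact (smul_eq_zero.mp h).resolve_right hu

lemma nmem1_swap {u v : V} (hu : u ≠ 0) (hv : v ∉ span F {u}) : u ∉ span F {v} := by
  rw [nmem1]
  intro c hc
  have := indep_pair hu hv (c := 1) (d := -c) (by simp [← hc])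
  exact one_ne_zero this.1

lemma ne_zero_of_nmem {W : Submodule F V} {v : V} (h : v ∉ W) : v ≠ 0 := by
  rintro rfl; exact h W.zero_mem

end Pool.Agent.MP_db74b1_al

end

section

/-! The special linear groups. -/

set_option autoImplicit false
set_option linter.unusedSectionVars false

namespace Pool.Agent.MP_db74b1_al
open Module Submodule

variable {F V : Type} [Field F] [AddCommGroup V] [Module F V] [Finite F] [FiniteDimensional F V]

lemma Bad.tr_unip {G : Subgroup (End F V)ˣ} {Z : Set F} {a b : (End F V)ˣ} {e : End F V}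
    (h : Bad G Z a b e) (N : End F V) (hN : N * N = 0) (hG : unip N hN ∈ G) :
    ∃ z ∈ Z, Pool.Agent.MP_db74b1_al.tr (a.val * ((1 + N) * b.val * (1 - N))) =
      z * Pool.Agent.MP_db74b1_al.tr e ∧ c2 (a.val * ((1 + N) * b.val * (1 - N))) = z ^ 2 * c2 e := by
  simpa using (h.conjR hG).tr

lemma tr_expand (a b N : End F V) : tr (a * ((1 + N) * b * (1 - N))) =
    tr (a * b) + tr ((b * a - a * b) * N) - tr (a * N * (b * N)) := by
  have h1 : tr (a * (N * b)) = tr (b * a * N) := by rw [← mul_assoc, tr_comm, mul_assoc]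
  simp only [mul_add, add_mul, mul_sub, sub_mul, one_mul, mul_one, map_add, map_sub, mul_assoc] at h1 ⊢
  rw [h1]; ring

lemma rk_sq {w : V} {φ : V →ₗ[F] F} (h : φ w = 0) : rk w φ * rk w φ = 0 := by
  ext x; simp [h]

section SL
variable {G : Subgroup (End F V)ˣ} (hG : ∀ g, g ∈ G ↔ LinearMap.det g.val = 1)
include hG

lemma sl_tv {w : V} {φ : V →ₗ[F] F} (h : φ w = 0) : unip (rk w φ) (rk_sq h) ∈ G := by
  rw [hG]; exact det_unip _ (rk_sq h)

lemma sl_center (hn : 2 ≤ finrank F V) (c : (End F V)ˣ) (hc : c ∈ G) (h : ∀ g ∈ G, g * c = c * g) :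
    ∃ z ∈ {z : F | z ^ finrank F V = 1}, c.val = z • 1 := by
  have : ∀ v, c.val v ∈ span F {v} := by
    intro v
    have := fs1 (F := F) v
    obtain ⟨x, -, hx⟩ := out (W := ⊤) (R := span F {v}) (by rw [finrank_top]; omega)
    obtain ⟨φ, h1, h2⟩ := exists_fun hx
    have h3 := h2 v (mem_span_singleton_self v)
    have h4 := congrArg (fun g : (End F V)ˣ => g.val x) (h _ (sl_tv hG h3))
    simp [h1] at h4
    rw [← h4]
    exact smul_mem _ _ (mem_span_singleton_self v)
  obtain ⟨z, hz⟩ := scalar_of_eig _ this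
  refine ⟨z, ?_, hz⟩
  have := (hG c).mp hc
  rw [hz, LinearMap.det_smul] at this
  simpa using this

lemma sl_trace {Z : Set F} {a b : (End F V)ˣ} {e : End F V} (h : Bad G Z a b e)
    {w : V} {φ : V →ₗ[F] F} (hw : φ w = 0) : ∃ z ∈ Z,
      tr (a.val * b.val) + φ ((b.val * a.val - a.val * b.val) w) - φ (a.val w) * φ (b.val w) =
        z * tr e := by
  obtain ⟨z, hz, h1, -⟩ := h.tr_unip _ _ (sl_tv hG hw)
  refine ⟨z, hz, ?_⟩
  rw [← h1, tr_expand]
  simp [mul_rk, tr_rk, mul_comm]

lemma sl_common {Z : Set F} {a b : (End F V)ˣ} {e : End F V} (h : Bad G Z a b e)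
    (ha : NS a.val) (hb : NS b.val) : ∃ b' : (End F V)ˣ, ∃ w : V, Bad G Z a b' e ∧
      a.val w ∉ span F {w} ∧ b'.val w ∉ span F {w} := by
  obtain ⟨w, hw⟩ := ha.exists
  obtain ⟨w', hw'⟩ := hb.exists
  have hw0 : w ≠ 0 := by rintro rfl; simp at hw
  have hw0' : w' ≠ 0 := by rintro rfl; simp at hw'
  by_cases hd : w' ∈ span F {w}
  · obtain ⟨c, rfl⟩ := mem_span_singleton.mp hd
    refine ⟨b, w, h, hw, fun hh => hw' ?_⟩
    obtain ⟨d, hd⟩ := mem_span_singleton.mp hh
    rw [map_smul, ← hd, smul_comm]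
    exact smul_mem _ _ (mem_span_singleton_self _)
  · obtain ⟨φ, h1, h2⟩ := exists_fun hd
    obtain ⟨ψ, h3, h4⟩ := exists_fun (nmem1_swap hw0 hd)
    have h5 := h2 w (mem_span_singleton_self _)
    have h6 := h4 w' (mem_span_singleton_self _)
    have h7 : (φ + ψ) (w - w') = 0 := by simp [h1, h3, h5, h6]
    let g := unip _ (rk_sq h7)
    have hg : g.val w' = w := by simp [g, h1, h6]
    refine ⟨g * b * g⁻¹, w, h.conjR (sl_tv hG h7), hw, fun hh => hw' ?_⟩
    obtain ⟨d, hd⟩ := mem_span_singleton.mp hh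
    rw [← hg] at hd
    simp only [Units.val_mul, End.mul_apply, inv_app] at hd
    have := congrArg g⁻¹.val hd
    rw [map_smul, inv_app, inv_app] at this
    rw [← this]
    exact smul_mem _ _ (mem_span_singleton_self _)

theorem sl_main (hn : 2 ≤ finrank F V) (hq : finrank F V = 2 → 3 < Nat.card F)
    {a b : (End F V)ˣ} {e : End F V} (h : Bad G {z : F | z ^ finrank F V = 1} a b e)
    (ha : NS a.val) (hb : NS b.val) : False := by
  obtain ⟨b, w, h, hw, hw'⟩ := sl_common hG h ha hb
  by_cases h2 : finrank F V = 2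
  · have key : ∀ φ : V →ₗ[F] F, φ w = 0 → φ (a.val w) * φ (b.val w) = 0 := by
      intro φ hφ
      have : -(φ (a.val w) * φ (b.val w)) = 0 := by
        apply quad_pm (hq h2) (c0 := tr (a.val * b.val))
          (c1 := φ ((b.val * a.val - a.val * b.val) w)) (t := tr e)
        intro s
        obtain ⟨z, hz, h1⟩ := sl_trace hG h (w := w) (φ := s • φ) (by simp [hφ])
        refine ⟨z, by simpa [h2] using hz, ?_⟩
        rw [← h1]
        simp only [LinearMap.smul_apply, smul_eq_mul]
        ring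
      exact neg_eq_zero.mp this
    obtain ⟨φ, h1, h3⟩ := exists_fun hw
    obtain ⟨ψ, h4, h5⟩ := exists_fun hw'
    have h3 := h3 w (mem_span_singleton_self _)
    have h5 := h5 w (mem_span_singleton_self _)
    have k1 := key φ h3
    have k2 := key ψ h5
    have k3 := key (φ + ψ) (by simp [h3, h5])
    simp only [h1, h4, one_mul, mul_one] at k1 k2
    simp [h1, h4, k1, k2] at k3
  · have hw0 : w ≠ 0 := by rintro rfl; simp at hw
    have main : ∀ b : (End F V)ˣ, Bad G {z : F | z ^ finrank F V = 1} a b e →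
        b.val w ∉ span F {w} → b.val w ∉ span F {w, a.val w} → False := by
      intro b h hb1 hb2
      have hb3 : a.val w ∉ span F {w, b.val w} := by
        rw [nmem2] at hb2 ⊢
        intro c d hcd
        by_cases hd : d = 0
        · exact nmem1.mp hw c (by simp [hcd, hd])
        · apply hb2 (-(d⁻¹ * c)) d⁻¹
          rw [hcd]
          simp [smul_add, smul_smul, hd]
      obtain ⟨φ, h1, h3⟩ := exists_fun hb3
      obtain ⟨ψ, h4, h5⟩ := exists_fun hb2
      have h31 := h3 w (subset_span (by simp))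
      have h32 := h3 (b.val w) (subset_span (by simp))
      have h51 := h5 w (subset_span (by simp))
      have h52 := h5 (a.val w) (subset_span (by simp))
      have := D2 (c := tr (a.val * b.val)) (l1 := φ ((b.val * a.val - a.val * b.val) w))
        (l2 := ψ ((b.val * a.val - a.val * b.val) w)) (α := 0) (β := 1) (γ := 0) (t := tr e) (by
          intro x y
          obtain ⟨z, hz, h6⟩ := sl_trace hG h (w := w) (φ := x • φ + y • ψ) (by simp [h31, h51])
          refine ⟨z, ?_, ?_⟩
          · rintro rfl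
            simp only [Set.mem_ofPred_eq] at hz
            rw [zero_pow (by omega)] at hz
            exact zero_ne_one hz
          · rw [← h6]
            simp only [LinearMap.add_apply, LinearMap.smul_apply, smul_eq_mul, h1, h4, h32, h52]
            ring)
      simp at this
    by_cases h3 : b.val w ∈ span F {w, a.val w}
    · have := fs2 (F := F) w (a.val w)
      obtain ⟨y, -, hy⟩ := out (W := ⊤) (R := span F {w, a.val w}) (by rw [finrank_top]; omega)
      have h4 : b.val w ∉ span F {w, y} := by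
        rw [nmem2]
        intro c d hcd
        by_cases hd : d = 0
        · exact nmem1.mp hw' c (by simp [hcd, hd])
        · apply hy
          have : y = d⁻¹ • (b.val w - c • w) := by rw [hcd]; simp [smul_smul, hd]
          rw [this]
          exact smul_mem _ _ (sub_mem h3 (smul_mem _ _ (subset_span (by simp))))
      obtain ⟨ψ, h5, h6⟩ := exists_fun h4
      have h61 := h6 w (subset_span (by simp))
      have h62 := h6 y (subset_span (by simp))
      have h7 : (unip _ (rk_sq h62) * b * (unip _ (rk_sq h62))⁻¹).val w = b.val w + y := by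
        simp [h61, h5]
      have h8 : b.val w + y ∉ span F {w, a.val w} := by
        intro hh
        apply hy
        simpa using sub_mem hh h3
      refine main _ (h.conjR (sl_tv hG h62)) ?_ (by rw [h7]; exact h8)
      rw [h7]
      exact fun hh => h8 (span_mono (by simp) hh)
    · exact main b h hw' h3

end SL

end Pool.Agent.MP_db74b1_al

end

section

/-! Symplectic groups, geometry. -/

set_option autoImplicit false
set_option linter.unusedSectionVars false

namespace Pool.Agent.MP_db74b1_al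
open Module Submodule

variable {F V : Type} [Field F] [AddCommGroup V] [Module F V] [Finite F] [FiniteDimensional F V]

/-- symplectic data -/
structure SpD (B : V →ₗ[F] V →ₗ[F] F) (G : Subgroup (End F V)ˣ) : Prop where
  alt : ∀ x, B x x = 0
  nd : ∀ y, (∀ x, B x y = 0) → y = 0
  mem : ∀ g, g ∈ G ↔ ∀ x y, B (g.val x) (g.val y) = B x y
  dim : 4 ≤ finrank F V

/-- the quadratic term of the trace for symplectic groups -/
def Qsp (A11 A12 A21 A22 B11 B12 B21 B22 x y z : F) : F :=
  x ^ 2 * (A11 * B11) + y ^ 2 * (A22 * B22) + x * y * (A12 * B21 + A21 * B12) +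
  x * z * ((A12 + A21) * B11 + A11 * (B12 + B21)) +
  y * z * ((A12 + A21) * B22 + A22 * (B12 + B21)) +
  z ^ 2 * (A12 * B12 + A21 * B21 + A11 * B22 + A22 * B11)

lemma conj_app (g b : (End F V)ˣ) (x : V) : (g * b * g⁻¹).val (g.val x) = g.val (b.val x) := by
  simp

lemma conj_sc {g b : (End F V)ˣ} {s β : F} (h : b.val + s • b⁻¹.val = β • 1) :
    (g * b * g⁻¹).val + s • (g * b * g⁻¹)⁻¹.val = β • 1 := by
  have : (g * b * g⁻¹).val + s • (g * b * g⁻¹)⁻¹.val = g.val * (b.val + s • b⁻¹.val) * g⁻¹.val := by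
    simp [mul_add, add_mul, mul_assoc]
  rw [this, h]
  simp

/-- if `S` fixes all points outside a hyperplane it is a scalar (odd characteristic) -/
lemma eig_hyper (h2 : (2 : F) ≠ 0) (S : End F V) (φ : V →ₗ[F] F) {w0 : V} (h0 : φ w0 ≠ 0)
    (h : ∀ w, φ w ≠ 0 → S w ∈ span F {w}) : ∃ c : F, S = c • 1 := by
  apply scalar_of_eig
  intro k
  by_cases hk : φ k = 0
  swap
  · exact h k hk
  by_cases hk0 : k = 0
  · simp [hk0]
  obtain ⟨m0, e0⟩ := mem_span_singleton.mp (h w0 h0)
  obtain ⟨m1, e1⟩ := mem_span_singleton.mp (h (w0 + k) (by simpa [hk] using h0))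
  obtain ⟨m2, e2⟩ := mem_span_singleton.mp (h (w0 - k) (by simpa [hk] using h0))
  rw [map_add, ← e0] at e1
  rw [map_sub, ← e0] at e2
  have e3 : (m1 + m2 - 2 * m0) • w0 + (m1 - m2) • k = 0 := by
    linear_combination (norm := module) e1 + e2
  have e4 : m1 + m2 - 2 * m0 = 0 := by
    have := congrArg φ e3
    simp only [map_add, map_smul, hk, smul_eq_mul, mul_zero, add_zero, map_zero] at this
    exact (mul_eq_zero.mp this).resolve_right h0
  rw [e4, zero_smul, zero_add] at e3
  have e5 : m1 - m2 = 0 := (smul_eq_zero.mp e3).resolve_right hk0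
  have e6 : m0 = m1 := by
    apply mul_left_cancel₀ h2
    linear_combination -e4 - e5
  rw [mem_span_singleton]
  refine ⟨m1, ?_⟩
  rw [e6] at e1
  linear_combination (norm := module) e1

namespace SpD
variable {B : V →ₗ[F] V →ₗ[F] F} {G : Subgroup (End F V)ˣ} (D : SpD B G)
include D

lemma skew (x y : V) : B y x = - B x y := by
  have := D.alt (x + y)
  simp only [map_add, LinearMap.add_apply, D.alt] at this
  linear_combination this

lemma adj {a : (End F V)ˣ} (ha : a ∈ G) (x y : V) : B (a.val x) y = B x (a⁻¹.val y) := by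
  rw [← (D.mem a).mp ha x (a⁻¹.val y), app_inv]

lemma N_sq {u v : V} (h : B u v = 0) (x y z : F) :
    (x • op B u u + y • op B v v + z • (op B u v + op B v u)) *
      (x • op B u u + y • op B v v + z • (op B u v + op B v u)) = 0 := by
  have h' : B v u = 0 := by rw [D.skew, h, neg_zero]
  ext w
  simp [h, h', D.alt]

lemma N_mem {u v : V} (h : B u v = 0) (x y z : F) : unip _ (D.N_sq h x y z) ∈ G := by
  have h' : B v u = 0 := by rw [D.skew, h, neg_zero]
  rw [D.mem]
  intro p q
  simp [h, h', D.alt, D.skew q u, D.skew q v]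
  ring

lemma tv_sq (u : V) (x : F) : (x • op B u u) * (x • op B u u) = 0 := by
  ext w
  simp [D.alt]

lemma tv_mem (u : V) (x : F) : unip _ (D.tv_sq u x) ∈ G := by
  rw [D.mem]
  intro p q
  simp [D.alt, D.skew q u]
  ring

lemma step0 {w x x' : V} (h : B x x' ≠ 0) (h1 : B w x = 0) (h2 : B w x' = 0) :
    ∃ g ∈ G, g.val w = w ∧ g.val x = x' := by
  refine ⟨_, D.tv_mem (x' - x) (B x x')⁻¹, ?_, ?_⟩
  · simp [h1, h2]
  · simp [D.alt, smul_smul, h]

lemma step {w x x' : V} (hx : x ∉ span F {w}) (hx' : x' ∉ span F {w}) (h1 : B w x = 0)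
    (h2 : B w x' = 0) : ∃ g ∈ G, g.val w = w ∧ g.val x = x' := by
  obtain ⟨z, k1, k2, k3⟩ := sep2 B D.nd hx hx'
  have k3 := k3 w (mem_span_singleton_self w)
  obtain ⟨g, hg, e1, e2⟩ := D.step0 k1 h1 k3
  obtain ⟨g', hg', e1', e2'⟩ := D.step0 (x := z) (x' := x') (by rw [D.skew]; simpa using k2) k3 h2
  exact ⟨g' * g, G.mul_mem hg' hg, by simp [e1, e1'], by simp [e2, e2']⟩

lemma T1 {x x' : V} (hx : x ≠ 0) (hx' : x' ≠ 0) : ∃ g ∈ G, g.val x = x' := by
  obtain ⟨g, hg, -, e⟩ := D.step (w := 0) (nmem0.mpr hx) (nmem0.mpr hx') (by simp) (by simp)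
  exact ⟨g, hg, e⟩

lemma T2 {u v u' v' : V} (hu : u ≠ 0) (hv : v ∉ span F {u}) (huv : B u v = 0)
    (hu' : u' ≠ 0) (hv' : v' ∉ span F {u'}) (huv' : B u' v' = 0) :
    ∃ g ∈ G, g.val u' = u ∧ g.val v' = v := by
  obtain ⟨g, hg, e⟩ := D.T1 hu' hu
  have h1 : g.val v' ∉ span F {u} := by
    rw [nmem1] at hv' ⊢
    intro c hc
    apply hv' c
    rw [← inv_app g v', hc, ← e, map_smul, inv_app]
  obtain ⟨g', hg', e1, e2⟩ := D.step h1 hv (by rw [← e, (D.mem g).mp hg, huv']) huv
  exact ⟨g' * g, G.mul_mem hg' hg, by simp [e, e1], by simp [e2]⟩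

lemma ext (u : V) : ∃ v, v ∉ span F {u} ∧ B u v = 0 := by
  have := fs1 (F := F) u
  have := fker (B u)
  have := D.dim
  obtain ⟨v, h1, h2⟩ := out (W := LinearMap.ker (B u)) (R := span F {u}) (by omega)
  exact ⟨v, h2, h1⟩

lemma SC1 (M : End F V) {u : V} (h : ∀ w, B u w = 0 → B (M u) w = 0) : M u ∈ span F {u} := by
  by_contra hh
  obtain ⟨z, h1, h2⟩ := sep B D.nd hh
  rw [h z (h2 u (mem_span_singleton_self u))] at h1
  exact zero_ne_one h1

lemma SC (M : End F V) (h : ∀ u w, B u w = 0 → B (M u) w = 0) : ∃ c : F, M = c • 1 :=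
  scalar_of_eig M fun u => D.SC1 M (h u)

lemma exists_pair : ∃ x y, B x y = 1 := by
  have := D.dim
  obtain ⟨x, -, hx⟩ := out (W := (⊤ : Submodule F V)) (R := ⊥) (by simp; omega)
  obtain ⟨z, h, -⟩ := sep B D.nd hx
  exact ⟨x, z, h⟩

lemma sc_sq {a : (End F V)ˣ} (ha : a ∈ G) {l c : F} {p : V} (h : a.val = l • 1 + c • op B p p) :
    l ^ 2 = 1 := by
  obtain ⟨x, y, hxy⟩ := D.exists_pair
  have := (D.mem a).mp ha x y
  simp [h, D.alt, D.skew y p, hxy] at this
  linear_combination this

lemma center (c : (End F V)ˣ) (hc : c ∈ G) (h : ∀ g ∈ G, g * c = c * g) :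
    ∃ z ∈ {z : F | z ^ 2 = 1}, c.val = z • 1 := by
  have : ∀ v, c.val v ∈ span F {v} := by
    intro v
    by_cases hv : v = 0
    · simp [hv]
    obtain ⟨x, h1, -⟩ := sep B D.nd (nmem0.mpr hv)
    have h4 := congrArg (fun g : (End F V)ˣ => g.val x) (h _ (D.tv_mem v 1))
    simp [D.skew v x, h1] at h4
    have : c.val v = -(B (c.val x) v • v) := by rw [h4]; simp
    rw [this]
    exact neg_mem (smul_mem _ _ (mem_span_singleton_self v))
  obtain ⟨z, hz⟩ := scalar_of_eig _ this
  exact ⟨z, D.sc_sq hc (c := 0) (p := 0) (by simp [hz]), hz⟩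

lemma frame {a b : (End F V)ˣ} {e : End F V} (h : Bad G {z : F | z ^ 2 = 1} a b e)
    {u v : V} (huv : B u v = 0) (x y z : F) : ∃ ζ : F, ζ ^ 2 = 1 ∧
      tr (a.val * b.val) + B ((b.val * a.val - a.val * b.val) u) u * x +
      B ((b.val * a.val - a.val * b.val) v) v * y +
      (B ((b.val * a.val - a.val * b.val) u) v + B ((b.val * a.val - a.val * b.val) v) u) * z -
      Qsp (B (a.val u) u) (B (a.val u) v) (B (a.val v) u) (B (a.val v) v)
        (B (b.val u) u) (B (b.val u) v) (B (b.val v) u) (B (b.val v) v) x y z = ζ * tr e := by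
  obtain ⟨ζ, hζ, h1, -⟩ := h.tr_unip _ _ (D.N_mem huv x y z)
  refine ⟨ζ, hζ, ?_⟩
  rw [← h1, tr_expand]
  simp only [op, mul_add, add_mul, mul_smul_comm, smul_mul_assoc, mul_rk, map_add, map_smul, tr_rk,
    LinearMap.flip_apply, rk_apply, smul_eq_mul, Qsp]
  ring

lemma pairs {a b : (End F V)ˣ} {e : End F V} (h : Bad G {z : F | z ^ 2 = 1} a b e)
    (ha : a ∈ G) (hb : b ∈ G)
    {u v u' v' : V} (hu : u ≠ 0) (hv : v ∉ span F {u}) (huv : B u v = 0)
    (hu' : u' ≠ 0) (hv' : v' ∉ span F {u'}) (huv' : B u' v' = 0) : ∃ T l1 l2 l3 : F,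
      (∀ α β : F, (2 : F) = 0 → a.val + (1 : F) • a⁻¹.val = α • 1 →
        b.val + (1 : F) • b⁻¹.val = β • 1 → l3 = 0) ∧
      ∀ x y z : F, ∃ ζ : F, ζ ^ 2 = 1 ∧ T + l1 * x + l2 * y + l3 * z -
      Qsp (B (a.val u) u) (B (a.val u) v) (B (a.val v) u) (B (a.val v) v)
        (B (b.val u') u') (B (b.val u') v') (B (b.val v') u') (B (b.val v') v') x y z =
        ζ * tr e := by
  obtain ⟨g, hg, e1, e2⟩ := D.T2 hu hv huv hu' hv' huv'
  have key : ∀ x y, B (b.val x) y = B ((g * b * g⁻¹).val (g.val x)) (g.val y) := by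
    intro x y
    rw [conj_app, (D.mem g).mp hg]
  refine ⟨_, _, _, _, ?_, fun x y z => by
    rw [key, key, key, key, e1, e2]; exact D.frame (h.conjR hg) huv x y z⟩
  intro α β h2 k1 k2
  have k2 := conj_sc (g := g) k2
  have hb' : g * b * g⁻¹ ∈ G := G.mul_mem (G.mul_mem hg hb) (G.inv_mem hg)
  generalize g * b * g⁻¹ = b' at k2 hb'
  have ia : ∀ x, a⁻¹.val x = α • x - a.val x := fun x => by
    have := LinearMap.congr_fun k1 x
    simp only [one_smul, LinearMap.add_apply, LinearMap.smul_apply, End.one_apply] at this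
    rw [← this]; abel
  have ib : ∀ x, b'⁻¹.val x = β • x - b'.val x := fun x => by
    have := LinearMap.congr_fun k2 x
    simp only [one_smul, LinearMap.add_apply, LinearMap.smul_apply, End.one_apply] at this
    rw [← this]; abel
  have f1 : B (a.val (b'.val v)) u = B v (b'⁻¹.val (a⁻¹.val u)) := by rw [D.adj ha, D.adj hb']
  have f2 : B (b'.val (a.val v)) u = B v (a⁻¹.val (b'⁻¹.val u)) := by rw [D.adj hb', D.adj ha]
  rw [D.skew _ v] at f1 f2
  simp only [ia, ib, map_sub, map_smul, smul_eq_mul, huv, LinearMap.sub_apply,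
    LinearMap.smul_apply] at f1 f2
  simp only [LinearMap.sub_apply, End.mul_apply, map_sub, f1, f2]
  linear_combination (B (b'.val (a.val u)) v - B (a.val (b'.val u)) v) * h2

/-- structure of operators whose form is degenerate on all totally isotropic planes -/
lemma structG (M : End F V) (δ : F) (H1 : ∀ v w, B (M v) w = B (M w) v + δ * B v w)
    (H2 : ∀ v w, B v w = 0 → B (M v) v * B (M w) w = B (M v) w ^ 2) :
    ∃ (l c : F) (p : V), M = l • 1 + c • op B p p := by
  by_cases h0 : ∀ v, B (M v) v = 0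
  · obtain ⟨c, hc⟩ := D.SC M (fun u w huw => by
      have := H2 u w huw
      rw [h0, zero_mul] at this
      exact pow_eq_zero_iff two_ne_zero |>.mp this.symm)
    exact ⟨c, 0, 0, by simp [hc]⟩
  push Not at h0
  obtain ⟨u, hu⟩ := h0
  obtain ⟨m, hm⟩ : ∃ m, m = M u := ⟨_, rfl⟩
  obtain ⟨h, hh⟩ : ∃ h, h = B m u := ⟨_, rfl⟩
  have hh0 : h ≠ 0 := by rw [hh, hm]; exact hu
  have hum : B u m = -h := by rw [D.skew, hh]
  -- projection to the perp of `u, m`
  have proj : ∀ x, ∃ (s t : F) (p : V), B u p = 0 ∧ B m p = 0 ∧ x = s • u + t • m + p := by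
    intro x
    refine ⟨B m x / h, -(B u x / h), x - (B m x / h) • u + (B u x / h) • m, ?_, ?_, ?_⟩
    · simp [D.alt, hum]; field_simp; ring
    · simp [D.alt, ← hh]; field_simp; ring
    · simp only [neg_smul]; abel
  have a1 : ∀ p, B u p = 0 → B m p = 0 → B (M p) u = 0 := by
    intro p h1 h2
    have := H1 u p
    rw [← hm, h1, h2] at this
    simpa using this.symm
  have a2 : ∀ p, B u p = 0 → B m p = 0 → B (M p) p = 0 := by
    intro p h1 h2
    have := H2 u p h1
    rw [← hm, h2, ← hh] at this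
    simpa [hh0] using this
  have a3 : ∀ p, B m p = 0 → B (M m) p = B (M p) m := by
    intro p h2
    rw [H1 m p, h2]; simp
  have main : ∀ p r, B u p = 0 → B m p = 0 → B u r = 0 → B m r = 0 →
      h * ((B p r / h) ^ 2 * B (M m) m + 2 * (B p r / h) * B (M r) m) =
        ((B p r / h) * B (M p) m + B (M p) r) ^ 2 := by
    intro p r h1 h2 h3 h4
    have h5 : B p m = 0 := by rw [D.skew, h2, neg_zero]
    have := H2 (u + p) ((B p r / h) • m + r) (by
      simp [hum, h3, h5]; field_simp; ring)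
    simp only [map_add, map_smul, LinearMap.add_apply, LinearMap.smul_apply, smul_eq_mul, ← hm,
      ← hh, h2, h4, a1 p h1 h2, a2 p h1 h2, a2 r h3 h4, a3 r h4, D.alt] at this
    linear_combination this
  have ndP : ∀ r, B u r = 0 → B m r = 0 → r ≠ 0 → ∃ p, B u p = 0 ∧ B m p = 0 ∧ B p r ≠ 0 := by
    intro r h1 h2 hr
    by_contra hc
    push Not at hc
    apply hr
    apply D.nd
    intro x
    obtain ⟨s, t, p, k1, k2, rfl⟩ := proj x
    simp [h1, h2, hc p k1 k2]
  have psi : ∀ r, B u r = 0 → B m r = 0 → B (M r) m = 0 := by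
    intro r h1 h2
    by_cases hr : r = 0
    · simp [hr]
    obtain ⟨p, k1, k2, k3⟩ := ndP r h1 h2 hr
    have m0 := main p r k1 k2 h1 h2
    have m1 := main (p + r) r (by simp [k1, h1]) (by simp [k2, h2]) h1 h2
    have m2 := main (p - r) r (by simp [k1, h1]) (by simp [k2, h2]) h1 h2
    simp only [map_add, map_sub, LinearMap.add_apply, LinearMap.sub_apply, D.alt, add_zero,
      sub_zero, a2 r h1 h2] at m1 m2
    have hs : B p r / h ≠ 0 := div_ne_zero k3 hh0
    generalize B p r / h = s at m0 m1 m2 hs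
    have : (s * B (M r) m) ^ 2 = 0 := by
      by_cases h2 : (2 : F) = 0
      · linear_combination m0 - m1 - (s * B (M r) m * (s * B (M p) m + B (M p) r)) * h2
      · apply mul_left_cancel₀ h2
        linear_combination 2 * m0 - m1 - m2
    exact (mul_eq_zero.mp (pow_eq_zero_iff two_ne_zero |>.mp this)).resolve_left hs
  have sq : ∀ p r, B u p = 0 → B m p = 0 → B u r = 0 → B m r = 0 →
      h * B (M p) r ^ 2 = B p r ^ 2 * B (M m) m := by
    intro p r h1 h2 h3 h4
    have := main p r h1 h2 h3 h4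
    rw [psi p h1 h2, psi r h3 h4] at this
    apply mul_left_cancel₀ hh0
    field_simp at this
    linear_combination -this
  have alt : ∀ p r, B u p = 0 → B m p = 0 → B u r = 0 → B m r = 0 →
      2 * B (M p) r = δ * B p r := by
    intro p r h1 h2 h3 h4
    have := a2 (p + r) (by simp [h1, h3]) (by simp [h2, h4])
    simp only [map_add, LinearMap.add_apply, a2 p h1 h2, a2 r h3 h4] at this
    linear_combination this + H1 p r
  obtain ⟨r0, hr0, hr0'⟩ : ∃ r0 ∈ LinearMap.ker (B u) ⊓ LinearMap.ker (B m),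
      r0 ∉ (⊥ : Submodule F V) := by
    have := fker (B u)
    have := fk (LinearMap.ker (B u)) (B m)
    have := D.dim
    exact out (by rw [finrank_bot]; omega)
  obtain ⟨p0, k1, k2, k3⟩ := ndP r0 hr0.1 hr0.2 (by simpa using hr0')
  obtain ⟨l, hl⟩ : ∃ l, l = B (M p0) r0 / B p0 r0 := ⟨_, rfl⟩
  have l1 : 2 * l = δ := by
    have := alt p0 r0 k1 k2 hr0.1 hr0.2
    rw [hl]; field_simp; linear_combination this
  have l2 : h * l ^ 2 = B (M m) m := by
    have := sq p0 r0 k1 k2 hr0.1 hr0.2
    rw [hl]; field_simp; linear_combination this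
  have l3 : ∀ p r, B u p = 0 → B m p = 0 → B u r = 0 → B m r = 0 → B (M p) r = l * B p r := by
    intro p r h1 h2 h3 h4
    have s1 := sq p r h1 h2 h3 h4
    have s2 := alt p r h1 h2 h3 h4
    have : h * (B (M p) r - l * B p r) ^ 2 = 0 := by
      linear_combination s1 - B p r ^ 2 * l2 - h * l * B p r * s2 + h * l * B p r ^ 2 * l1 * 1
    exact sub_eq_zero.mp (pow_eq_zero_iff two_ne_zero |>.mp ((mul_eq_zero.mp this).resolve_left hh0))
  refine ⟨l, -h⁻¹, m - l • u, ?_⟩
  ext x
  rw [← sub_eq_zero]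
  apply D.nd
  intro y
  rw [D.skew]
  obtain ⟨s, t, p, j1, j2, rfl⟩ := proj x
  obtain ⟨s', t', p', j1', j2', rfl⟩ := proj y
  have b1 : B (M m) u = δ * h := by rw [H1 m u, ← hm, D.alt, ← hh]; simp
  have b2 : B p u = 0 := by rw [D.skew, j1, neg_zero]
  have b3 : B p m = 0 := by rw [D.skew, j2, neg_zero]
  simp only [map_add, map_sub, map_smul, LinearMap.add_apply, LinearMap.sub_apply,
    LinearMap.smul_apply, smul_eq_mul, End.one_apply, op_apply, ← hm, ← hh, hum, D.alt,
    j1', j2', b1, b2, b3, a1 p j1 j2, psi p j1 j2, a3 p' j2', psi p' j1' j2', l3 p p' j1 j2 j1' j2',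
    ← l1, ← l2]
  field_simp
  ring

end SpD

end Pool.Agent.MP_db74b1_al

end

section

/-! Symplectic groups, main theorem. -/

set_option autoImplicit false
set_option linter.unusedSectionVars false

namespace Pool.Agent.MP_db74b1_al
open Module Submodule

variable {F V : Type} [Field F] [AddCommGroup V] [Module F V] [Finite F] [FiniteDimensional F V]

/-- the image of `x ^ n - 1` lies in a line -/
def Line (n : ℕ) (x : End F V) : Prop := ∃ p : V, ∀ v, (x ^ n) v - v ∈ span F {p}

lemma Line.conj {n : ℕ} {x : End F V} (k : (End F V)ˣ) {z : F} (hz : z ^ n = 1) (h : Line n x) :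
    Line n (z • (k.val * x * k⁻¹.val)) := by
  obtain ⟨p, hp⟩ := h
  refine ⟨k.val p, fun v => ?_⟩
  rw [smul_pow, hz, one_smul, Units.conj_pow]
  obtain ⟨c, hc⟩ := mem_span_singleton.mp (hp (k⁻¹.val v))
  rw [mem_span_singleton]
  refine ⟨c, ?_⟩
  rw [← map_smul, hc]
  simp

lemma Bad.line {G : Subgroup (End F V)ˣ} {a b : (End F V)ˣ} {e : End F V}
    (h : Bad G {z : F | z ^ 2 = 1} a b e) : Line 2 (a.val * b.val) ↔ Line 2 e := by
  obtain ⟨z, hz, k, hk⟩ := h.base
  have hz : z ^ 2 = 1 := hz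
  constructor
  · intro hl
    have := hl.conj k⁻¹ hz
    rw [hk] at this
    simpa [smul_smul, ← pow_two, hz, ← mul_assoc] using this
  · intro hl
    rw [hk]
    exact hl.conj k hz

lemma conj_op {σ : F →+* F} {B : V →ₗ[F] V →ₛₗ[σ] F} {g b : (End F V)ˣ}
    (hg : ∀ x y, B (g.val x) (g.val y) = B x y) {l c : F} {p : V}
    (h : b.val = l • 1 + c • op B p p) :
    (g * b * g⁻¹).val = l • 1 + c • op B (g.val p) (g.val p) := by
  ext x
  simp [h, ← hg (g⁻¹.val x) p]

namespace SpD
variable {B : V →ₗ[F] V →ₗ[F] F} {G : Subgroup (End F V)ˣ} (D : SpD B G)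
include D

lemma notLine {n : ℕ} {x : End F V} {c1 c2 : F} {p y : V} (h1 : c1 ≠ 0) (h2 : c2 ≠ 0) (hp : p ≠ 0)
    (hy : y ∉ span F {p}) (h : ∀ v, (x ^ n) v - v = (c1 * B v p) • p + (c2 * B v y) • y) :
    ¬ Line n x := by
  rintro ⟨p0, h0⟩
  obtain ⟨z1, k1, k2⟩ := sep B D.nd (nmem1_swap hp hy)
  obtain ⟨z2, k3, k4⟩ := sep B D.nd hy
  have k2 := k2 y (mem_span_singleton_self y)
  have k4 := k4 p (mem_span_singleton_self p)
  obtain ⟨s, hs⟩ := mem_span_singleton.mp (h0 z1)
  obtain ⟨t, ht⟩ := mem_span_singleton.mp (h0 z2)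
  rw [h, D.skew p, D.skew y, k1, k2] at hs
  rw [h, D.skew p, D.skew y, k3, k4] at ht
  have := indep_pair hp hy (c := t * c1) (d := -(s * c2))
    (by linear_combination (norm := module) t • hs - s • ht)
  have ht0 : t = 0 := (mul_eq_zero.mp this.1).resolve_right h1
  rw [ht0] at ht
  simp [h2] at ht
  exact ne_zero_of_nmem hy ht

/-- the end of the proof: `b` is a scalar multiple of a transvection -/
lemma fin {a b : (End F V)ˣ} {e : End F V} (h : Bad G {z : F | z ^ 2 = 1} a b e)
    (nb : NS b.val) {l c : F} {p : V} (hb : b.val = l • 1 + c • op B p p) {y y' : V}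
    (hy : y ≠ 0) (hy' : y' ≠ 0) (h1 : Line 2 (a.val * (l • 1 + c • op B y y))) :
    Line 2 (a.val * (l • 1 + c • op B y' y')) := by
  have hp : p ≠ 0 := by
    rintro rfl
    apply nb l
    rw [hb]; ext x; simp
  obtain ⟨g, hg, e1⟩ := D.T1 hp hy
  obtain ⟨g', hg', e1'⟩ := D.T1 hp hy'
  have k1 := (h.conjR hg).line
  have k2 := (h.conjR hg').line
  rw [conj_op ((D.mem g).mp hg) hb, e1] at k1
  rw [conj_op ((D.mem g').mp hg') hb, e1'] at k2
  exact k2.mpr (k1.mp h1)

lemma c_ne {b : (End F V)ˣ} (nb : NS b.val) {l c : F} {p : V}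
    (hb : b.val = l • 1 + c • op B p p) : c ≠ 0 := by
  rintro rfl
  apply nb l
  simpa using hb

section caseII
variable {a b : (End F V)ˣ} {e : End F V} (h : Bad G {z : F | z ^ 2 = 1} a b e)
  (ha : a ∈ G) (hb : b ∈ G) (hq : ∀ v, B (a.val v) v = 0)
include ha hq

lemma II_adj (x y : V) : B (a.val x) y = B x (a.val y) := by
  have := hq (x + y)
  simp only [map_add, LinearMap.add_apply, hq] at this
  rw [D.skew (a.val y) x]
  linear_combination this

lemma II_sq (x : V) : a.val (a.val x) = x := by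
  rw [← sub_eq_zero]
  apply D.nd
  intro y
  rw [map_sub, ← D.II_adj ha hq, (D.mem a).mp ha, sub_self]

include h hb

lemma II_sym (na : NS a.val) : ∃ δ : F, b.val + (1 : F) • b⁻¹.val = δ • 1 := by
  obtain ⟨u, v, huv, hA⟩ : ∃ u v, B u v = 0 ∧ B (a.val u) v ≠ 0 := by
    by_contra hh
    push Not at hh
    obtain ⟨c, hc⟩ := D.SC _ hh
    exact na c hc
  have hu : u ≠ 0 := by rintro rfl; simp at hA
  have hv : v ∉ span F {u} := by
    rw [nmem1]; rintro c rfl; simp [hq] at hA
  apply D.SC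
  intro u' v' huv'
  have e1 : B ((b.val + (1 : F) • b⁻¹.val) u') v' = B (b.val u') v' - B (b.val v') u' := by
    simp [D.adj hb v', D.skew v', sub_eq_add_neg]
  rw [e1]
  by_cases hu' : u' = 0
  · simp [hu']
  by_cases hv' : v' ∈ span F {u'}
  · obtain ⟨c, rfl⟩ := mem_span_singleton.mp hv'
    simp
  obtain ⟨T, l1, l2, l3, -, k⟩ := D.pairs h ha hb hu hv huv hu' hv' huv'
  have hA' : B (a.val v) u = - B (a.val u) v := by rw [D.II_adj ha hq, D.skew]
  have := D2 (c := T) (l1 := l1) (l2 := l2) (α := 0)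
    (β := B (a.val u) v * (B (b.val v') u' - B (b.val u') v')) (γ := 0) (t := tr e) (by
      intro x y
      obtain ⟨ζ, h1, h2⟩ := k x y 0
      refine ⟨ζ, by rintro rfl; simp at h1, ?_⟩
      rw [← h2]
      simp only [Qsp, hq, hA']
      ring)
  simp only [mul_zero, ne_eq, OfNat.ofNat_ne_zero, not_false_eq_true, pow_eq_zero_iff,
    mul_eq_zero, hA, false_or] at this
  linear_combination -this

lemma II_c2 (h3 : 2 < Nat.card F) (v : V) :
    B (b.val v) v * B (b.val (a.val v)) (a.val v) = B (b.val v) (a.val v) * B (b.val (a.val v)) v := by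
  obtain ⟨θ, h0, h1⟩ := exists_third h3
  have key : ∀ s : F, c2 (a.val * b.val) +
      pp (a.val * b.val) ((op B v (a.val v) - op B (a.val v) v) * b.val) * s +
      c2 ((op B v (a.val v) - op B (a.val v) v) * b.val) * s ^ 2 = c2 e := by
    intro s
    obtain ⟨z, hz, -, k⟩ := (h.conjL (D.tv_mem v s)).tr
    have hz : z ^ 2 = 1 := hz
    have e1 : (unip _ (D.tv_sq v s) * a * (unip _ (D.tv_sq v s))⁻¹).val =
        a.val + s • (op B v (a.val v) - op B (a.val v) v) := by
      ext x
      simp [hq, D.II_adj ha hq x v]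
      module
    rw [e1, hz, one_mul, add_mul, smul_mul_assoc, c2_add, c2_smul] at k
    rw [← k]
    simp only [pp, mul_smul_comm, map_smul, smul_eq_mul]
    ring
  have := quad3 h0 h1 (by simpa using key 0) (by simpa using key 1) (key θ)
  simp only [op, sub_mul, rk_mul, c2_sub, c2_rk, pp, tr_rk, mul_rk, rk_apply, map_smul,
    LinearMap.comp_apply, LinearMap.flip_apply, smul_eq_mul] at this
  linear_combination this

lemma II_c2' (h2 : (2 : F) = 0) {δ : F} (hδ : b.val + (1 : F) • b⁻¹.val = δ • 1) {u v : V}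
    (hu : a.val u = u) (huv : B u v = 0) :
    B (b.val u) u * B (b.val (a.val v + v)) (a.val v + v) =
      B (b.val u) (a.val v + v) * B (b.val (a.val v + v)) u := by
  obtain ⟨m, hm⟩ : ∃ m, m = a.val v + v := ⟨_, rfl⟩
  rw [← hm]
  have two : ∀ x : V, x + x = 0 := fun x => by rw [← two_smul F, h2, zero_smul]
  have huav : B u (a.val v) = 0 := by rw [← D.II_adj ha hq, hu, huv]
  have hum : B u m = 0 := by simp [hm, huav, huv]
  have ham : a.val m = m := by rw [hm, map_add, D.II_sq ha hq, add_comm]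
  obtain ⟨z, hz, -, k⟩ := (h.conjL (D.N_mem huv 0 0 1)).tr
  obtain ⟨z', hz', -, k'⟩ := h.tr
  have hz : z ^ 2 = 1 := hz
  have hz' : z' ^ 2 = 1 := hz'
  have e1 : (unip _ (D.N_sq huv 0 0 1) * a * (unip _ (D.N_sq huv 0 0 1))⁻¹).val =
      a.val + (op B u m + op B m u) := by
    ext x
    have e2 : B (a.val x) u = B x u := by rw [D.II_adj ha hq, hu]
    have e3 : B (a.val v) u = 0 := by rw [D.skew, huav, neg_zero]
    simp [hq, D.II_adj ha hq x v, hu, huv, D.alt, e2, e3, hm]
    linear_combination (norm := module) -two (B x v • u) - two (B x u • a.val v)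
  rw [e1, hz, one_mul, add_mul, c2_add, k', hz', one_mul] at k
  have ib : ∀ x, b⁻¹.val x = δ • x - b.val x := fun x => by
    have := LinearMap.congr_fun hδ x
    simp only [one_smul, LinearMap.add_apply, LinearMap.smul_apply, End.one_apply] at this
    rw [← this]; abel
  have f0 : B (b.val m) u = B (b.val u) m := by
    rw [D.adj hb, D.skew _ m, ib]; simp [hum]
  have f1 : B (b.val (a.val (b.val m))) u = B m (b⁻¹.val (a.val (b⁻¹.val u))) := by
    rw [D.adj hb, D.II_adj ha hq, D.adj hb]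
  have f2 : B (a.val (b.val u)) m = B (b.val u) m := by rw [D.II_adj ha hq, ham]
  rw [D.skew _ m] at f1
  simp only [ib, map_sub, map_smul, smul_eq_mul, LinearMap.sub_apply, LinearMap.smul_apply, hu,
    hum, f2] at f1
  simp only [op, add_mul, mul_add, rk_mul, c2_add, c2_rk, pp, tr_rk, mul_rk, rk_apply, map_smul,
    LinearMap.comp_apply, LinearMap.flip_apply, smul_eq_mul, map_add, End.mul_apply] at k
  rw [f0] at k ⊢
  rw [f1] at k
  linear_combination -k + (tr (a.val * b.val) * B (b.val u) m - δ * B (b.val u) m) * h2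

theorem caseII (hd : Nat.card F = 2 → 5 ≤ finrank F V) (na : NS a.val) (nb : NS b.val) : False := by
  obtain ⟨δ, hδ⟩ := D.II_sym h ha hb hq na
  have H1 : ∀ v w, B (b.val v) w = B (b.val w) v + δ * B v w := by
    intro v w
    have := LinearMap.congr_fun hδ v
    simp only [one_smul, LinearMap.add_apply, LinearMap.smul_apply, End.one_apply] at this
    have := congrArg (fun x => B x w) this
    simp only [map_add, map_smul, LinearMap.add_apply, LinearMap.smul_apply, smul_eq_mul] at this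
    rw [D.adj hb w, D.skew _ w]
    linear_combination this
  -- a frame for `a` which controls the Gram determinant
  have hfr : ∃ u v, u ≠ 0 ∧ v ∉ span F {u} ∧ B u v = 0 ∧ ∀ g ∈ G,
      B ((g * b * g⁻¹).val u) u * B ((g * b * g⁻¹).val v) v =
        B ((g * b * g⁻¹).val u) v * B ((g * b * g⁻¹).val v) u := by
    by_cases h3 : 2 < Nat.card F
    · obtain ⟨v, hv⟩ := na.exists
      refine ⟨v, a.val v, by rintro rfl; simp at hv, hv, by rw [D.skew, hq, neg_zero], ?_⟩
      intro g hg
      exact D.II_c2 (h.conjR hg) ha (G.mul_mem (G.mul_mem hg hb) (G.inv_mem hg)) hq h3 v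
    · have h4 : Nat.card F = 2 := by have := two_le_card (F := F); omega
      have h2 : (2 : F) = 0 := two_eq_zero_of_card_even (by omega)
      have h5 := hd h4
      obtain ⟨v, hv⟩ := na.exists
      have hm : a.val v + v ≠ 0 := by
        intro hh
        apply hv
        rw [eq_neg_of_add_eq_zero_left hh]
        exact neg_mem (mem_span_singleton_self v)
      have h6 : (a.val - 1) * (a.val - 1) = 0 := by
        ext x
        simp only [End.mul_apply, LinearMap.sub_apply, End.one_apply, map_sub, D.II_sq ha hq,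
          LinearMap.zero_apply]
        linear_combination (norm := module) h2 • (x - a.val x)
      have := fker_mul h6
      have := fk (LinearMap.ker (a.val - 1)) (B v)
      have := fs1 (F := F) (a.val v + v)
      obtain ⟨u, ⟨k1, k2⟩, k3⟩ := out (W := LinearMap.ker (a.val - 1) ⊓ LinearMap.ker (B v))
        (R := span F {a.val v + v}) (by omega)
      have k1 : a.val u = u := by simpa [sub_eq_zero] using k1
      have k2 : B u v = 0 := by rw [D.skew]; simpa using k2
      refine ⟨u, a.val v + v, ne_zero_of_nmem k3, nmem1_swap hm k3, ?_, ?_⟩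
      · rw [map_add, ← D.II_adj ha hq, k1, k2, add_zero]
      · intro g hg
        exact D.II_c2' (h.conjR hg) ha (G.mul_mem (G.mul_mem hg hb) (G.inv_mem hg)) hq h2
          (conj_sc hδ) k1 k2
  have H2 : ∀ v w, B v w = 0 → B (b.val v) v * B (b.val w) w = B (b.val v) w ^ 2 := by
    intro v w hvw
    by_cases hv : v = 0
    · simp [hv]
    by_cases hw : w ∈ span F {v}
    · obtain ⟨c, rfl⟩ := mem_span_singleton.mp hw
      simp; ring
    obtain ⟨u', v', k1, k2, k3, k4⟩ := hfr
    obtain ⟨g, hg, e1, e2⟩ := D.T2 k1 k2 k3 hv hw hvw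
    have := k4 g hg
    rw [← e1, ← e2] at this
    simp only [conj_app, (D.mem g).mp hg] at this
    rw [this, H1 w v, D.skew v w, hvw]
    ring
  obtain ⟨l, c, p, hs⟩ := D.structG _ δ H1 H2
  have hl := D.sc_sq hb hs
  have hc := D.c_ne nb hs
  have hl0 : l ≠ 0 := by rintro rfl; simp at hl
  have key : ∀ y v, ((a.val * (l • 1 + c • op B y y)) ^ 2 : End F V) v - v =
      (l * c * B v y) • y + (l * c * B v (a.val y)) • a.val y := by
    intro y v
    simp [pow_two, hq, D.II_sq ha hq, D.II_adj ha hq v y]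
    linear_combination (norm := module) hl • v
  obtain ⟨y', hy'⟩ := na.exists
  have hy0 : y' ≠ 0 := by rintro rfl; simp at hy'
  obtain ⟨y, hy, hay⟩ : ∃ y, y ≠ 0 ∧ a.val y ∈ span F {y} := by
    refine ⟨a.val y' + y', fun hh => hy' ?_, ?_⟩
    · rw [eq_neg_of_add_eq_zero_left hh]
      exact neg_mem (mem_span_singleton_self _)
    · rw [map_add, D.II_sq ha hq, add_comm]
      exact mem_span_singleton_self _
  refine D.notLine (mul_ne_zero hl0 hc) (mul_ne_zero hl0 hc) hy0 hy' (key y')
    (D.fin h nb hs hy hy0 ⟨y, fun v => ?_⟩)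
  rw [key]
  exact add_mem (smul_mem _ _ (mem_span_singleton_self _)) (smul_mem _ _ hay)

end caseII

end SpD

end Pool.Agent.MP_db74b1_al

end

section

/-! Symplectic groups, case I and the main theorem. -/

set_option autoImplicit false
set_option linter.unusedSectionVars false

namespace Pool.Agent.MP_db74b1_al
open Module Submodule

variable {F V : Type} [Field F] [AddCommGroup V] [Module F V] [Finite F] [FiniteDimensional F V]

namespace SpD
variable {B : V →ₗ[F] V →ₗ[F] F} {G : Subgroup (End F V)ˣ} (D : SpD B G)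
include D

section caseI
variable {a b : (End F V)ˣ} {e : End F V} (h : Bad G {z : F | z ^ 2 = 1} a b e)
  (ha : a ∈ G) (hb : b ∈ G)
include h ha hb

lemma I_two_sym (h2 : (2 : F) = 0) {u : V} (hu : B (a.val u) u ≠ 0) :
    ∃ δ : F, b.val + (1 : F) • b⁻¹.val = δ • 1 := by
  obtain ⟨v, k1, k2⟩ := D.ext u
  have hu0 : u ≠ 0 := by rintro rfl; simp at hu
  apply D.SC
  intro u' v' huv'
  have e1 : B ((b.val + (1 : F) • b⁻¹.val) u') v' = B (b.val u') v' - B (b.val v') u' := by
    simp [D.adj hb v', D.skew v', sub_eq_add_neg]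
  rw [e1]
  by_cases hu' : u' = 0
  · simp [hu']
  by_cases hv' : v' ∈ span F {u'}
  · obtain ⟨c, rfl⟩ := mem_span_singleton.mp hv'
    simp
  have key : ∀ v, v ∉ span F {u} → B u v = 0 →
      B (a.val u) v * B (b.val v') u' + B (a.val v) u * B (b.val u') v' = 0 := by
    intro v k1 k2
    obtain ⟨T, l1, l2, l3, -, k⟩ := D.pairs h ha hb hu0 k1 k2 hu' hv' huv'
    obtain ⟨ζ1, j1, i1⟩ := k 0 0 0
    obtain ⟨ζ2, j2, i2⟩ := k 1 0 0
    obtain ⟨ζ3, j3, i3⟩ := k 0 1 0
    obtain ⟨ζ4, j4, i4⟩ := k 1 1 0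
    rw [sq_one_two h2 j1] at i1
    rw [sq_one_two h2 j2] at i2
    rw [sq_one_two h2 j3] at i3
    rw [sq_one_two h2 j4] at i4
    simp only [Qsp] at i1 i2 i3 i4
    linear_combination i2 + i3 - i1 - i4
  have s1 := key v k1 k2
  have s2 := key (v + u) (fun hh => k1 (by simpa using sub_mem hh (mem_span_singleton_self u)))
    (by simp [k2, D.alt])
  simp only [map_add, LinearMap.add_apply] at s2
  apply mul_left_cancel₀ hu
  linear_combination s2 - s1 - B (a.val u) u * B (b.val v') u' * h2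

lemma I_two (h2 : (2 : F) = 0) {u u' : V} (hu : B (a.val u) u ≠ 0) (hu' : B (b.val u') u' ≠ 0) :
    False := by
  obtain ⟨β, hβ⟩ := D.I_two_sym h ha hb h2 hu
  obtain ⟨α, hα⟩ := D.I_two_sym h.swap hb ha h2 hu'
  have sy : ∀ (c : (End F V)ˣ) (γ : F), c ∈ G → c.val + (1 : F) • c⁻¹.val = γ • 1 →
      ∀ x y, B x y = 0 → B (c.val y) x = B (c.val x) y := by
    intro c γ hc hγ x y hxy
    have := congrArg (fun f : End F V => B (f x) y) hγ
    simp [hxy] at this
    rw [D.adj hc y, D.skew _ y]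
    linear_combination -this
  obtain ⟨v, k1, k2⟩ := D.ext u
  obtain ⟨v', k1', k2'⟩ := D.ext u'
  have key : ∀ v, v ∉ span F {u} → B u v = 0 →
      B (a.val u) u * B (b.val v') v' + B (a.val v) v * B (b.val u') u' = 0 := by
    intro v k1 k2
    obtain ⟨T, l1, l2, l3, k0, k⟩ := D.pairs h ha hb (by rintro rfl; simp at hu) k1 k2
      (by rintro rfl; simp at hu') k1' k2'
    obtain ⟨ζ1, j1, i1⟩ := k 0 0 0
    obtain ⟨ζ2, j2, i2⟩ := k 0 0 1
    rw [sq_one_two h2 j1] at i1
    rw [sq_one_two h2 j2] at i2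
    simp only [Qsp, k0 α β h2 hα hβ, sy a α ha hα u v k2, sy b β hb hβ u' v' k2'] at i1 i2
    linear_combination i1 - i2 - B (a.val u) v * B (b.val u') v' * h2
  have s1 := key v k1 k2
  have s2 := key (v + u) (fun hh => k1 (by simpa using sub_mem hh (mem_span_singleton_self u)))
    (by simp [k2, D.alt])
  simp only [map_add, LinearMap.add_apply, sy a α ha hα u v k2] at s2
  apply mul_ne_zero hu hu'
  linear_combination s2 - s1 - B (a.val u) v * B (b.val u') u' * h2

lemma I_diag (h2 : (2 : F) ≠ 0) {u v u' v' : V} (hu : B (a.val u) u ≠ 0) (hv : v ∉ span F {u})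
    (huv : B u v = 0) (hd : B (a.val u) v + B (a.val v) u = 0)
    (hu' : B (b.val u') u' ≠ 0) (hv' : v' ∉ span F {u'})
    (huv' : B u' v' = 0) (hd' : B (b.val u') v' + B (b.val v') u' = 0) :
    B (a.val u) v * B (b.val u') v' = 0 ∧ B (a.val v) v = 0 := by
  have h4 : (4 : F) ≠ 0 := by
    have : (4 : F) = 2 * 2 := by norm_num
    rw [this]; exact mul_ne_zero h2 h2
  have key : ∀ v, v ∉ span F {u} → B u v = 0 → B (a.val u) v + B (a.val v) u = 0 →
      2 * (B (a.val u) v * B (b.val u') v') + B (a.val u) u * B (b.val v') v' +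
        B (a.val v) v * B (b.val u') u' = 0 ∧
      (B (a.val u) v * B (b.val u') v') ^ 2 =
        B (a.val u) u * B (b.val u') u' * (B (a.val v) v * B (b.val v') v') := by
    intro v hv huv hd
    obtain ⟨T, l1, l2, l3, -, k⟩ := D.pairs h ha hb (by rintro rfl; simp at hu) hv huv
      (by rintro rfl; simp at hu') hv' huv'
    have e1 : B (a.val v) u = - B (a.val u) v := by linear_combination hd
    have e2 : B (b.val v') u' = - B (b.val u') v' := by linear_combination hd'
    have d1 := D2 (c := T) (l1 := l1) (l2 := l3) (α := B (a.val u) u * B (b.val u') u') (β := 0)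
      (γ := 2 * (B (a.val u) v * B (b.val u') v') + B (a.val u) u * B (b.val v') v' +
        B (a.val v) v * B (b.val u') u') (t := tr e) (by
        intro x y
        obtain ⟨ζ, h1, h2⟩ := k x 0 y
        refine ⟨ζ, by rintro rfl; simp at h1, ?_⟩
        rw [← h2]
        simp only [Qsp, e1, e2]
        ring)
    have d2 := D2 (c := T) (l1 := l1) (l2 := l2) (α := B (a.val u) u * B (b.val u') u')
      (β := -2 * (B (a.val u) v * B (b.val u') v'))
      (γ := B (a.val v) v * B (b.val v') v') (t := tr e) (by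
        intro x y
        obtain ⟨ζ, h1, h2⟩ := k x y 0
        refine ⟨ζ, by rintro rfl; simp at h1, ?_⟩
        rw [← h2]
        simp only [Qsp, e1, e2]
        ring)
    constructor
    · apply mul_left_cancel₀ (mul_ne_zero h4 (mul_ne_zero hu hu'))
      linear_combination -d1
    · apply mul_left_cancel₀ h4
      linear_combination d2
  obtain ⟨s1, s2⟩ := key v hv huv hd
  obtain ⟨s3, -⟩ := key (-v) (by simpa using hv) (by simp [huv])
    (by simp only [map_neg, LinearMap.neg_apply]; linear_combination -hd)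
  simp only [map_neg, LinearMap.neg_apply, neg_neg] at s3
  have s4 : B (a.val u) v * B (b.val u') v' = 0 := by
    apply mul_left_cancel₀ h4
    linear_combination s1 - s3
  refine ⟨s4, ?_⟩
  rw [s4] at s1 s2
  have s5 : B (a.val v) v * B (b.val v') v' = 0 := by
    apply mul_left_cancel₀ (mul_ne_zero hu hu')
    linear_combination -s2
  have s6 : B (b.val u') u' * B (a.val v) v ^ 2 = 0 := by
    linear_combination B (a.val v) v * s1 - B (a.val u) u * s5
  exact pow_eq_zero_iff two_ne_zero |>.mp ((mul_eq_zero.mp s6).resolve_left hu')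

omit h ha hb in
lemma mkdiag (h2 : (2 : F) ≠ 0) (a : End F V) {u v : V} (hu : B (a u) u ≠ 0) (hv : v ∉ span F {u})
    (huv : B u v = 0) : ∃ c : F, v - c • u ∉ span F {u} ∧ B u (v - c • u) = 0 ∧
      B (a u) (v - c • u) + B (a (v - c • u)) u = 0 := by
  refine ⟨(B (a u) v + B (a v) u) / (2 * B (a u) u), fun hh => hv ?_, by simp [huv, D.alt], ?_⟩
  · simpa using add_mem hh (smul_mem _ ((B (a u) v + B (a v) u) / (2 * B (a u) u))
      (mem_span_singleton_self u))
  · simp only [map_sub, map_smul, LinearMap.sub_apply, LinearMap.smul_apply, smul_eq_mul]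
    field_simp
    ring

lemma I_rank (h2 : (2 : F) ≠ 0) {u u' : V} (hu : B (a.val u) u ≠ 0) (hu' : B (b.val u') u' ≠ 0) :
    ∃ (c : F) (p : V), c ≠ 0 ∧ p ≠ 0 ∧ a.val - a⁻¹.val = c • op B p p := by
  obtain ⟨v0, k1, k2⟩ := D.ext u'
  obtain ⟨c', j1, j2, j3⟩ := D.mkdiag h2 b.val hu' k1 k2
  have dd : ∀ v w, B ((a.val - a⁻¹.val) v) w = B (a.val v) w + B (a.val w) v := by
    intro v w
    simp [D.adj ha w, D.skew w, sub_eq_add_neg]
  have key : ∀ v w, B v w = 0 → B (a.val v) v ≠ 0 →
      4 * B (a.val v) v * B (a.val w) w = (B (a.val v) w + B (a.val w) v) ^ 2 := by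
    intro v w hvw hv
    by_cases hw : w ∈ span F {v}
    · obtain ⟨c, rfl⟩ := mem_span_singleton.mp hw
      simp; ring
    obtain ⟨c, i1, i2, i3⟩ := D.mkdiag h2 a.val hv hw hvw
    have := (D.I_diag h ha hb h2 hv i1 i2 i3 hu' j1 j2 j3).2
    simp only [map_sub, map_smul, LinearMap.sub_apply, LinearMap.smul_apply, smul_eq_mul] at this i3
    linear_combination 4 * B (a.val v) v * this -
      (B (a.val v) w + B (a.val w) v - 2 * c * B (a.val v) v) * i3
  obtain ⟨l, c, p, hs⟩ := D.structG (a.val - a⁻¹.val) 0 (fun v w => by rw [dd, dd]; ring) (by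
    intro v w hvw
    have hwv : B w v = 0 := by rw [D.skew, hvw, neg_zero]
    simp only [dd]
    by_cases hv : B (a.val v) v = 0
    · by_cases hw : B (a.val w) w = 0
      · by_contra hne
        have h5 : B (a.val v) w + B (a.val w) v ≠ 0 := by
          intro hh; apply hne; rw [hv, hh]; ring
        have := key (v + w) w (by simp [hvw, D.alt]) (by
          simp only [map_add, LinearMap.add_apply, hv, hw]
          intro hh; apply h5; linear_combination hh)
        simp only [map_add, LinearMap.add_apply, hv, hw] at this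
        apply hne
        rw [hv]
        linear_combination this
      · linear_combination key w v hwv hw
    · linear_combination key v w hvw hv)
  have hl : l = 0 := by
    obtain ⟨x, y, hxy⟩ := D.exists_pair
    have e1 := dd x y
    have e2 := dd y x
    simp [hs, D.skew x y, hxy, D.skew x p, D.skew y p] at e1 e2
    apply mul_left_cancel₀ h2
    linear_combination e1 - e2
  rw [hl, zero_smul, zero_add] at hs
  have hne : c • op B p p ≠ 0 := by
    intro hh
    have := dd u u
    rw [hs, hh] at this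
    apply mul_ne_zero h2 hu
    simp at this
    linear_combination -this
  refine ⟨c, p, ?_, ?_, hs⟩
  · rintro rfl; simp at hne
  · rintro rfl; apply hne; ext x; simp

lemma I_three (h2 : (2 : F) ≠ 0) (nb : NS b.val) {u u' : V} (hu : B (a.val u) u ≠ 0)
    (hu' : B (b.val u') u' ≠ 0)
    (H : ∀ u' v', B (b.val u') u' ≠ 0 → v' ∉ span F {u'} → B u' v' = 0 →
      B (b.val u') v' + B (b.val v') u' = 0 → B (b.val u') v' = 0) : False := by
  obtain ⟨c, p, hc, hp, hs⟩ := D.I_rank h ha hb h2 hu hu'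
  obtain ⟨c', p', hc', hp', hs'⟩ := D.I_rank h.swap hb ha h2 hu' hu
  have ss : ∀ v w, B ((b.val + b⁻¹.val) v) w = B (b.val v) w - B (b.val w) v := by
    intro v w
    simp [D.adj hb w, D.skew w, sub_eq_add_neg]
  have qb : ∀ w, 2 * B (b.val w) w = - c' * B w p' ^ 2 := by
    intro w
    have := congrArg (fun f : End F V => B (f w) w) hs'
    simp [D.skew w p'] at this
    have e1 := ss w w
    simp at e1
    linear_combination this + e1
  obtain ⟨δ, hδ⟩ := eig_hyper h2 (b.val + b⁻¹.val) (B.flip p') (w0 := u') (by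
      intro hh
      have := qb u'
      rw [LinearMap.flip_apply] at hh
      rw [hh] at this
      apply mul_ne_zero h2 hu'
      simpa using this) (by
      intro w hw
      rw [LinearMap.flip_apply] at hw
      have hw' : B (b.val w) w ≠ 0 := by
        intro hh
        have := qb w
        rw [hh] at this
        simp [hc', hw] at this
      apply D.SC1
      intro v hwv
      by_cases hv : v ∈ span F {w}
      · obtain ⟨c, rfl⟩ := mem_span_singleton.mp hv
        rw [ss]; simp
      obtain ⟨s, i1, i2, i3⟩ := D.mkdiag h2 b.val hw' hv hwv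
      have i4 := H _ _ hw' i1 i2 i3
      rw [ss]
      simp only [map_sub, map_smul, LinearMap.sub_apply, LinearMap.smul_apply,
        smul_eq_mul] at i3 i4
      linear_combination 2 * i4 - i3)
  have hbs : b.val = (δ / 2) • 1 + (c' / 2) • op B p' p' := by
    have : b.val = (2 : F)⁻¹ • ((b.val + b⁻¹.val) + (b.val - b⁻¹.val)) := by
      have : (b.val + b⁻¹.val) + (b.val - b⁻¹.val) = (2 : F) • b.val := by module
      rw [this, smul_smul, inv_mul_cancel₀ h2, one_smul]
    rw [this, hδ, hs']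
    module
  generalize δ / 2 = l at hbs
  generalize c' / 2 = d at hbs
  have hl := D.sc_sq hb hbs
  have hd := D.c_ne nb hbs
  have hl0 : l ≠ 0 := by rintro rfl; simp at hl
  have hs1 : ∀ x, a.val (a.val x) = x + (c * B x p) • a.val p := by
    intro x
    have := congrArg (fun f : End F V => a.val (f x)) hs
    simp only [LinearMap.sub_apply, map_sub, app_inv, LinearMap.smul_apply, op_apply,
      map_smul] at this
    linear_combination (norm := module) this
  obtain ⟨κ, hκ⟩ : ∃ κ : F, a.val p = κ • p := by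
    obtain ⟨z, hz, -⟩ := sep B D.nd (nmem0.mpr hp)
    have e1 := hs1 z
    have e2 := congrArg (fun f : End F V => f (a.val z)) hs
    simp only [LinearMap.sub_apply, inv_app, LinearMap.smul_apply, op_apply] at e2
    rw [D.skew p z, hz] at e1
    refine ⟨-B (a.val z) p, ?_⟩
    have : c • a.val p = c • (-B (a.val z) p • p) := by
      linear_combination (norm := module) e1 - e2
    exact smul_right_injective V hc this
  have hκ0 : κ ≠ 0 := by
    rintro rfl
    exact hp (app_eq_zero (by simpa using hκ))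
  have key : ∀ (y : V) (μ ν : F), a.val y = μ • y → a⁻¹.val y = ν • y → ∀ v,
      ((a.val * (l • 1 + d • op B y y)) ^ 2 : End F V) v - v =
        (c * κ * B v p) • p + (l * d * (μ ^ 2 + μ * ν) * B v y) • y := by
    intro y μ ν e1 e2 v
    have e3 : B (a.val v) y = ν * B v y := by rw [D.adj ha, e2]; simp
    simp [pow_two, e1, e3, D.alt, hs1, hκ]
    linear_combination (norm := module) hl • v + hl • (c * κ * B v p) • p
  obtain ⟨y, μ, hμ, hy, hay⟩ : ∃ (y : V) (μ : F), μ ^ 2 = 1 ∧ y ∉ span F {p} ∧ a.val y = μ • y := by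
    obtain ⟨v, k1, k2⟩ := D.ext p
    have k3 : a.val (a.val v) = v := by rw [hs1, D.skew, k2]; simp
    by_cases k4 : v + a.val v ∈ span F {p}
    · refine ⟨v - a.val v, -1, by ring, fun k5 => k1 ?_, by simp [k3]⟩
      have : v = (2 : F)⁻¹ • ((v + a.val v) + (v - a.val v)) := by
        have : (v + a.val v) + (v - a.val v) = (2 : F) • v := by module
        rw [this, smul_smul, inv_mul_cancel₀ h2, one_smul]
      rw [this]
      exact smul_mem _ _ (add_mem k4 k5)
    · exact ⟨v + a.val v, 1, by ring, k4, by simp [k3, add_comm]⟩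
  have hay' : a⁻¹.val y = μ • y := by
    have : y = a.val (μ • y) := by rw [map_smul, hay, smul_smul, ← pow_two, hμ, one_smul]
    conv_lhs => rw [this, inv_app]
  have hap' : a⁻¹.val p = κ⁻¹ • p := by
    have : p = a.val (κ⁻¹ • p) := by rw [map_smul, hκ, smul_smul, inv_mul_cancel₀ hκ0, one_smul]
    conv_lhs => rw [this, inv_app]
  refine D.notLine (mul_ne_zero hc hκ0) (c2 := l * d * (μ ^ 2 + μ * μ)) ?_ hp hy (key y μ μ hay hay')
    (D.fin h nb hbs hp (ne_zero_of_nmem hy) ⟨p, fun v => ?_⟩)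
  · rw [← pow_two, hμ]
    refine mul_ne_zero (mul_ne_zero hl0 hd) ?_
    intro hh; apply h2; linear_combination hh
  · rw [key p κ κ⁻¹ hκ hap']
    exact add_mem (smul_mem _ _ (mem_span_singleton_self _))
      (smul_mem _ _ (mem_span_singleton_self _))

theorem main (hd : Nat.card F = 2 → 5 ≤ finrank F V) (na : NS a.val) (nb : NS b.val) : False := by
  by_cases hqa : ∀ v, B (a.val v) v = 0
  · exact D.caseII h ha hb hqa hd na nb
  by_cases hqb : ∀ v, B (b.val v) v = 0
  · exact D.caseII h.swap hb ha hqb hd nb na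
  push Not at hqa hqb
  obtain ⟨u, hu⟩ := hqa
  obtain ⟨u', hu'⟩ := hqb
  by_cases h2 : (2 : F) = 0
  · exact D.I_two h ha hb h2 hu hu'
  by_cases H : ∀ u' v', B (b.val u') u' ≠ 0 → v' ∉ span F {u'} → B u' v' = 0 →
      B (b.val u') v' + B (b.val v') u' = 0 → B (b.val u') v' = 0
  · exact D.I_three h ha hb h2 nb hu hu' H
  push Not at H
  obtain ⟨w, w', k1, k2, k3, k4, k5⟩ := H
  refine D.I_three h.swap hb ha h2 na hu' hu ?_
  intro x y j1 j2 j3 j4
  exact (mul_eq_zero.mp (D.I_diag h ha hb h2 j1 j2 j3 j4 k1 k2 k3 k4).1).resolve_right k5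

end caseI

end SpD

end Pool.Agent.MP_db74b1_al

end
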