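import Pool.Agent.MP_db74b1_al.LtDefs
import Pool.Agent.Mg.Fdb74b1.Gde7978

/-! The groups `G₂(q)` and `³D₄(q)`: root elements. Basis `e 0 = E`, `e 1, e 2, e 3 = u₁, u₂, u₃`,
`e 4, e 5, e 6 = v₁, v₂, v₃`, `e 7 = F`. -/

set_option autoImplicit false
set_option linter.unnecessarySeqFocus false
set_option linter.unusedSimpArgs false
set_option linter.unusedSectionVars false

namespace Pool.Agent.MP_db74b1_al.Lt.Tri

variable {K : Type} [Field K]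

abbrev O (K : Type) : Type := Fin 8 → K
abbrev GO (K : Type) [Field K] : Type := O K ≃ₗ[K] O K

/-- basis vector -/
def e (i : Fin 8) : O K := Pi.single i 1

/-- the polar form of the norm -/
def Bf (x y : O K) : K :=
  x 0 * y 7 + x 7 * y 0 - x 1 * y 4 - x 2 * y 5 - x 3 * y 6 - x 4 * y 1 - x 5 * y 2 - x 6 * y 3

/-- the norm -/
def Nf (x : O K) : K := x 0 * x 7 - x 1 * x 4 - x 2 * x 5 - x 3 * x 6

theorem ext8 {x y : O K} (h0 : x 0 = y 0) (h1 : x 1 = y 1) (h2 : x 2 = y 2) (h3 : x 3 = y 3)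
    (h4 : x 4 = y 4) (h5 : x 5 = y 5) (h6 : x 6 = y 6) (h7 : x 7 = y 7) : x = y := by
  ext i; fin_cases i <;> assumption

/-- a linear equivalence from explicit formulas -/
def eqv (f g : O K → O K) (hl : IsLinearMap K f) (h1 : ∀ x, g (f x) = x) (h2 : ∀ x, f (g x) = x) :
    GO K := { hl.mk' f with invFun := g, left_inv := h1, right_inv := h2 }

section tw
variable (τ : K →+* K) (x y : O K)

theorem tw0 : tw τ x y 0 =
    τ (x 7) * τ (τ (y 7)) + τ (x 1) * τ (τ (y 4)) + τ (x 2) * τ (τ (y 5)) + τ (x 3) * τ (τ (y 6)) := by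
  simp [tw, zorn, bar]; ring

theorem tw1 : tw τ x y 1 =
    τ (x 5) * τ (τ (y 6)) - τ (x 6) * τ (τ (y 5)) - τ (x 1) * τ (τ (y 0)) - τ (x 7) * τ (τ (y 1)) := by
  simp [tw, zorn, bar]; ring

theorem tw2 : tw τ x y 2 =
    τ (x 6) * τ (τ (y 4)) - τ (x 4) * τ (τ (y 6)) - τ (x 2) * τ (τ (y 0)) - τ (x 7) * τ (τ (y 2)) := by
  simp [tw, zorn, bar]; ring

theorem tw3 : tw τ x y 3 =
    τ (x 4) * τ (τ (y 5)) - τ (x 5) * τ (τ (y 4)) - τ (x 3) * τ (τ (y 0)) - τ (x 7) * τ (τ (y 3)) := by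
  simp [tw, zorn, bar]; ring

theorem tw4 : tw τ x y 4 =
    τ (x 3) * τ (τ (y 2)) - τ (x 2) * τ (τ (y 3)) - τ (x 0) * τ (τ (y 4)) - τ (x 4) * τ (τ (y 7)) := by
  simp [tw, zorn, bar]; ring

theorem tw5 : tw τ x y 5 =
    τ (x 1) * τ (τ (y 3)) - τ (x 3) * τ (τ (y 1)) - τ (x 0) * τ (τ (y 5)) - τ (x 5) * τ (τ (y 7)) := by
  simp [tw, zorn, bar]; ring

theorem tw6 : tw τ x y 6 =
    τ (x 2) * τ (τ (y 1)) - τ (x 1) * τ (τ (y 2)) - τ (x 0) * τ (τ (y 6)) - τ (x 6) * τ (τ (y 7)) := by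
  simp [tw, zorn, bar]; ring

theorem tw7 : tw τ x y 7 =
    τ (x 0) * τ (τ (y 0)) + τ (x 4) * τ (τ (y 1)) + τ (x 5) * τ (τ (y 2)) + τ (x 6) * τ (τ (y 3)) := by
  simp [tw, zorn, bar]; ring

end tw

/-- `g` preserves the twisted product -/
def Au (τ : K →+* K) (g : GO K) : Prop := ∀ x y, g (tw τ x y) = tw τ (g x) (g y)

theorem mem_tri {τ : K →+* K} {g : GO K} : g ∈ tri τ ↔ Au τ g := by
  refine ⟨fun h => ?_, fun h => Subgroup.subset_closure h⟩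
  induction h using Subgroup.closure_induction with
  | mem g h => exact h
  | one => exact fun _ _ => rfl
  | mul g h _ _ h1 h2 => intro x y; simp only [LinearEquiv.mul_apply, h2 x y, h1 _ _]
  | inv g _ h1 =>
    intro x y
    apply g.injective
    rw [h1]
    simp

theorem tw_au {τ : K →+* K} {g : GO K} (h : g ∈ tri τ) (x y : O K) :
    g (tw τ x y) = tw τ (g x) (g y) := mem_tri.1 h x y

def xu1f (τ : K →+* K) (t : K) (x : O K) : O K :=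
  ![x 0 + τ (τ t) * x 4, x 1 - τ t * x 0 + τ (τ t) * x 7 - τ t * τ (τ t) * x 4, x 2, x 3, x 4, x 5 - t * x 3, x 6 + t * x 2, x 7 - τ t * x 4]

def xu1 (τ : K →+* K) (t : K) : GO K := eqv (xu1f τ t) (xu1f τ (-t))
  ⟨by intros; apply ext8 <;> simp [xu1f] <;> ring, by intros; apply ext8 <;> simp [xu1f] <;> ring⟩
  (by intros; apply ext8 <;> simp [xu1f] <;> ring) (by intros; apply ext8 <;> simp [xu1f] <;> ring)

theorem xu1_apply (τ : K →+* K) (t : K) (x : O K) : xu1 τ t x =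
    ![x 0 + τ (τ t) * x 4, x 1 - τ t * x 0 + τ (τ t) * x 7 - τ t * τ (τ t) * x 4, x 2, x 3, x 4, x 5 - t * x 3, x 6 + t * x 2, x 7 - τ t * x 4] := rfl

theorem xu1_inv (τ : K →+* K) (t : K) : (xu1 τ t : GO K)⁻¹ = xu1 τ (-t) :=
  LinearEquiv.ext fun _ => rfl

theorem xu1_mem {τ : K →+* K} (h3 : ∀ t, τ (τ (τ t)) = t) (t : K) : xu1 τ t ∈ tri τ := mem_tri.2 fun x y => by
  apply ext8 <;> simp [xu1_apply, tw0, tw1, tw2, tw3, tw4, tw5, tw6, tw7, h3] <;> ring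

def xu2f (τ : K →+* K) (t : K) (x : O K) : O K :=
  ![x 0 + τ (τ t) * x 5, x 1, x 2 - τ t * x 0 + τ (τ t) * x 7 - τ t * τ (τ t) * x 5, x 3, x 4 + t * x 3, x 5, x 6 - t * x 1, x 7 - τ t * x 5]

def xu2 (τ : K →+* K) (t : K) : GO K := eqv (xu2f τ t) (xu2f τ (-t))
  ⟨by intros; apply ext8 <;> simp [xu2f] <;> ring, by intros; apply ext8 <;> simp [xu2f] <;> ring⟩
  (by intros; apply ext8 <;> simp [xu2f] <;> ring) (by intros; apply ext8 <;> simp [xu2f] <;> ring)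

theorem xu2_apply (τ : K →+* K) (t : K) (x : O K) : xu2 τ t x =
    ![x 0 + τ (τ t) * x 5, x 1, x 2 - τ t * x 0 + τ (τ t) * x 7 - τ t * τ (τ t) * x 5, x 3, x 4 + t * x 3, x 5, x 6 - t * x 1, x 7 - τ t * x 5] := rfl

theorem xu2_inv (τ : K →+* K) (t : K) : (xu2 τ t : GO K)⁻¹ = xu2 τ (-t) :=
  LinearEquiv.ext fun _ => rfl

theorem xu2_mem {τ : K →+* K} (h3 : ∀ t, τ (τ (τ t)) = t) (t : K) : xu2 τ t ∈ tri τ := mem_tri.2 fun x y => by
  apply ext8 <;> simp [xu2_apply, tw0, tw1, tw2, tw3, tw4, tw5, tw6, tw7, h3] <;> ring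

def xu3f (τ : K →+* K) (t : K) (x : O K) : O K :=
  ![x 0 + τ (τ t) * x 6, x 1, x 2, x 3 - τ t * x 0 + τ (τ t) * x 7 - τ t * τ (τ t) * x 6, x 4 - t * x 2, x 5 + t * x 1, x 6, x 7 - τ t * x 6]

def xu3 (τ : K →+* K) (t : K) : GO K := eqv (xu3f τ t) (xu3f τ (-t))
  ⟨by intros; apply ext8 <;> simp [xu3f] <;> ring, by intros; apply ext8 <;> simp [xu3f] <;> ring⟩
  (by intros; apply ext8 <;> simp [xu3f] <;> ring) (by intros; apply ext8 <;> simp [xu3f] <;> ring)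

theorem xu3_apply (τ : K →+* K) (t : K) (x : O K) : xu3 τ t x =
    ![x 0 + τ (τ t) * x 6, x 1, x 2, x 3 - τ t * x 0 + τ (τ t) * x 7 - τ t * τ (τ t) * x 6, x 4 - t * x 2, x 5 + t * x 1, x 6, x 7 - τ t * x 6] := rfl

theorem xu3_inv (τ : K →+* K) (t : K) : (xu3 τ t : GO K)⁻¹ = xu3 τ (-t) :=
  LinearEquiv.ext fun _ => rfl

theorem xu3_mem {τ : K →+* K} (h3 : ∀ t, τ (τ (τ t)) = t) (t : K) : xu3 τ t ∈ tri τ := mem_tri.2 fun x y => by
  apply ext8 <;> simp [xu3_apply, tw0, tw1, tw2, tw3, tw4, tw5, tw6, tw7, h3] <;> ring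

def xv1f (τ : K →+* K) (t : K) (x : O K) : O K :=
  ![x 0 + τ t * x 1, x 1, x 2 - t * x 6, x 3 + t * x 5, x 4 - τ (τ t) * x 0 + τ t * x 7 - τ t * τ (τ t) * x 1, x 5, x 6, x 7 - τ (τ t) * x 1]

def xv1 (τ : K →+* K) (t : K) : GO K := eqv (xv1f τ t) (xv1f τ (-t))
  ⟨by intros; apply ext8 <;> simp [xv1f] <;> ring, by intros; apply ext8 <;> simp [xv1f] <;> ring⟩
  (by intros; apply ext8 <;> simp [xv1f] <;> ring) (by intros; apply ext8 <;> simp [xv1f] <;> ring)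

theorem xv1_apply (τ : K →+* K) (t : K) (x : O K) : xv1 τ t x =
    ![x 0 + τ t * x 1, x 1, x 2 - t * x 6, x 3 + t * x 5, x 4 - τ (τ t) * x 0 + τ t * x 7 - τ t * τ (τ t) * x 1, x 5, x 6, x 7 - τ (τ t) * x 1] := rfl

theorem xv1_inv (τ : K →+* K) (t : K) : (xv1 τ t : GO K)⁻¹ = xv1 τ (-t) :=
  LinearEquiv.ext fun _ => rfl

theorem xv1_mem {τ : K →+* K} (h3 : ∀ t, τ (τ (τ t)) = t) (t : K) : xv1 τ t ∈ tri τ := mem_tri.2 fun x y => by
  apply ext8 <;> simp [xv1_apply, tw0, tw1, tw2, tw3, tw4, tw5, tw6, tw7, h3] <;> ring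

def xv2f (τ : K →+* K) (t : K) (x : O K) : O K :=
  ![x 0 + τ t * x 2, x 1 + t * x 6, x 2, x 3 - t * x 4, x 4, x 5 - τ (τ t) * x 0 + τ t * x 7 - τ t * τ (τ t) * x 2, x 6, x 7 - τ (τ t) * x 2]

def xv2 (τ : K →+* K) (t : K) : GO K := eqv (xv2f τ t) (xv2f τ (-t))
  ⟨by intros; apply ext8 <;> simp [xv2f] <;> ring, by intros; apply ext8 <;> simp [xv2f] <;> ring⟩
  (by intros; apply ext8 <;> simp [xv2f] <;> ring) (by intros; apply ext8 <;> simp [xv2f] <;> ring)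

theorem xv2_apply (τ : K →+* K) (t : K) (x : O K) : xv2 τ t x =
    ![x 0 + τ t * x 2, x 1 + t * x 6, x 2, x 3 - t * x 4, x 4, x 5 - τ (τ t) * x 0 + τ t * x 7 - τ t * τ (τ t) * x 2, x 6, x 7 - τ (τ t) * x 2] := rfl

theorem xv2_inv (τ : K →+* K) (t : K) : (xv2 τ t : GO K)⁻¹ = xv2 τ (-t) :=
  LinearEquiv.ext fun _ => rfl

theorem xv2_mem {τ : K →+* K} (h3 : ∀ t, τ (τ (τ t)) = t) (t : K) : xv2 τ t ∈ tri τ := mem_tri.2 fun x y => by
  apply ext8 <;> simp [xv2_apply, tw0, tw1, tw2, tw3, tw4, tw5, tw6, tw7, h3] <;> ring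

def xv3f (τ : K →+* K) (t : K) (x : O K) : O K :=
  ![x 0 + τ t * x 3, x 1 - t * x 5, x 2 + t * x 4, x 3, x 4, x 5, x 6 - τ (τ t) * x 0 + τ t * x 7 - τ t * τ (τ t) * x 3, x 7 - τ (τ t) * x 3]

def xv3 (τ : K →+* K) (t : K) : GO K := eqv (xv3f τ t) (xv3f τ (-t))
  ⟨by intros; apply ext8 <;> simp [xv3f] <;> ring, by intros; apply ext8 <;> simp [xv3f] <;> ring⟩
  (by intros; apply ext8 <;> simp [xv3f] <;> ring) (by intros; apply ext8 <;> simp [xv3f] <;> ring)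

theorem xv3_apply (τ : K →+* K) (t : K) (x : O K) : xv3 τ t x =
    ![x 0 + τ t * x 3, x 1 - t * x 5, x 2 + t * x 4, x 3, x 4, x 5, x 6 - τ (τ t) * x 0 + τ t * x 7 - τ t * τ (τ t) * x 3, x 7 - τ (τ t) * x 3] := rfl

theorem xv3_inv (τ : K →+* K) (t : K) : (xv3 τ t : GO K)⁻¹ = xv3 τ (-t) :=
  LinearEquiv.ext fun _ => rfl

theorem xv3_mem {τ : K →+* K} (h3 : ∀ t, τ (τ (τ t)) = t) (t : K) : xv3 τ t ∈ tri τ := mem_tri.2 fun x y => by
  apply ext8 <;> simp [xv3_apply, tw0, tw1, tw2, tw3, tw4, tw5, tw6, tw7, h3] <;> ring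

def l12f (s : K) (x : O K) : O K :=
  ![x 0, x 1 + s * x 2, x 2, x 3, x 4, x 5 - s * x 4, x 6, x 7]

def l12 (s : K) : GO K := eqv (l12f s) (l12f (-s))
  ⟨by intros; apply ext8 <;> simp [l12f] <;> ring, by intros; apply ext8 <;> simp [l12f] <;> ring⟩
  (by intros; apply ext8 <;> simp [l12f] <;> ring) (by intros; apply ext8 <;> simp [l12f] <;> ring)

theorem l12_apply (s : K) (x : O K) : l12 s x =
    ![x 0, x 1 + s * x 2, x 2, x 3, x 4, x 5 - s * x 4, x 6, x 7] := rfl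

theorem l12_inv (s : K) : (l12 s : GO K)⁻¹ = l12 (-s) :=
  LinearEquiv.ext fun _ => rfl

theorem l12_mem {τ : K →+* K} {s : K} (hs : τ s = s) : l12 s ∈ tri τ := mem_tri.2 fun x y => by
  apply ext8 <;> simp [l12_apply, tw0, tw1, tw2, tw3, tw4, tw5, tw6, tw7, hs] <;> ring

def l13f (s : K) (x : O K) : O K :=
  ![x 0, x 1 + s * x 3, x 2, x 3, x 4, x 5, x 6 - s * x 4, x 7]

def l13 (s : K) : GO K := eqv (l13f s) (l13f (-s))
  ⟨by intros; apply ext8 <;> simp [l13f] <;> ring, by intros; apply ext8 <;> simp [l13f] <;> ring⟩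
  (by intros; apply ext8 <;> simp [l13f] <;> ring) (by intros; apply ext8 <;> simp [l13f] <;> ring)

theorem l13_apply (s : K) (x : O K) : l13 s x =
    ![x 0, x 1 + s * x 3, x 2, x 3, x 4, x 5, x 6 - s * x 4, x 7] := rfl

theorem l13_inv (s : K) : (l13 s : GO K)⁻¹ = l13 (-s) :=
  LinearEquiv.ext fun _ => rfl

theorem l13_mem {τ : K →+* K} {s : K} (hs : τ s = s) : l13 s ∈ tri τ := mem_tri.2 fun x y => by
  apply ext8 <;> simp [l13_apply, tw0, tw1, tw2, tw3, tw4, tw5, tw6, tw7, hs] <;> ring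

def l21f (s : K) (x : O K) : O K :=
  ![x 0, x 1, x 2 + s * x 1, x 3, x 4 - s * x 5, x 5, x 6, x 7]

def l21 (s : K) : GO K := eqv (l21f s) (l21f (-s))
  ⟨by intros; apply ext8 <;> simp [l21f] <;> ring, by intros; apply ext8 <;> simp [l21f] <;> ring⟩
  (by intros; apply ext8 <;> simp [l21f] <;> ring) (by intros; apply ext8 <;> simp [l21f] <;> ring)

theorem l21_apply (s : K) (x : O K) : l21 s x =
    ![x 0, x 1, x 2 + s * x 1, x 3, x 4 - s * x 5, x 5, x 6, x 7] := rfl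

theorem l21_inv (s : K) : (l21 s : GO K)⁻¹ = l21 (-s) :=
  LinearEquiv.ext fun _ => rfl

theorem l21_mem {τ : K →+* K} {s : K} (hs : τ s = s) : l21 s ∈ tri τ := mem_tri.2 fun x y => by
  apply ext8 <;> simp [l21_apply, tw0, tw1, tw2, tw3, tw4, tw5, tw6, tw7, hs] <;> ring

def l23f (s : K) (x : O K) : O K :=
  ![x 0, x 1, x 2 + s * x 3, x 3, x 4, x 5, x 6 - s * x 5, x 7]

def l23 (s : K) : GO K := eqv (l23f s) (l23f (-s))
  ⟨by intros; apply ext8 <;> simp [l23f] <;> ring, by intros; apply ext8 <;> simp [l23f] <;> ring⟩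
  (by intros; apply ext8 <;> simp [l23f] <;> ring) (by intros; apply ext8 <;> simp [l23f] <;> ring)

theorem l23_apply (s : K) (x : O K) : l23 s x =
    ![x 0, x 1, x 2 + s * x 3, x 3, x 4, x 5, x 6 - s * x 5, x 7] := rfl

theorem l23_inv (s : K) : (l23 s : GO K)⁻¹ = l23 (-s) :=
  LinearEquiv.ext fun _ => rfl

theorem l23_mem {τ : K →+* K} {s : K} (hs : τ s = s) : l23 s ∈ tri τ := mem_tri.2 fun x y => by
  apply ext8 <;> simp [l23_apply, tw0, tw1, tw2, tw3, tw4, tw5, tw6, tw7, hs] <;> ring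

def l31f (s : K) (x : O K) : O K :=
  ![x 0, x 1, x 2, x 3 + s * x 1, x 4 - s * x 6, x 5, x 6, x 7]

def l31 (s : K) : GO K := eqv (l31f s) (l31f (-s))
  ⟨by intros; apply ext8 <;> simp [l31f] <;> ring, by intros; apply ext8 <;> simp [l31f] <;> ring⟩
  (by intros; apply ext8 <;> simp [l31f] <;> ring) (by intros; apply ext8 <;> simp [l31f] <;> ring)

theorem l31_apply (s : K) (x : O K) : l31 s x =
    ![x 0, x 1, x 2, x 3 + s * x 1, x 4 - s * x 6, x 5, x 6, x 7] := rfl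

theorem l31_inv (s : K) : (l31 s : GO K)⁻¹ = l31 (-s) :=
  LinearEquiv.ext fun _ => rfl

theorem l31_mem {τ : K →+* K} {s : K} (hs : τ s = s) : l31 s ∈ tri τ := mem_tri.2 fun x y => by
  apply ext8 <;> simp [l31_apply, tw0, tw1, tw2, tw3, tw4, tw5, tw6, tw7, hs] <;> ring

def l32f (s : K) (x : O K) : O K :=
  ![x 0, x 1, x 2, x 3 + s * x 2, x 4, x 5 - s * x 6, x 6, x 7]

def l32 (s : K) : GO K := eqv (l32f s) (l32f (-s))
  ⟨by intros; apply ext8 <;> simp [l32f] <;> ring, by intros; apply ext8 <;> simp [l32f] <;> ring⟩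
  (by intros; apply ext8 <;> simp [l32f] <;> ring) (by intros; apply ext8 <;> simp [l32f] <;> ring)

theorem l32_apply (s : K) (x : O K) : l32 s x =
    ![x 0, x 1, x 2, x 3 + s * x 2, x 4, x 5 - s * x 6, x 6, x 7] := rfl

theorem l32_inv (s : K) : (l32 s : GO K)⁻¹ = l32 (-s) :=
  LinearEquiv.ext fun _ => rfl

theorem l32_mem {τ : K →+* K} {s : K} (hs : τ s = s) : l32 s ∈ tri τ := mem_tri.2 fun x y => by
  apply ext8 <;> simp [l32_apply, tw0, tw1, tw2, tw3, tw4, tw5, tw6, tw7, hs] <;> ring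

/-- the cyclic permutation `u₁ → u₂ → u₃ → u₁` -/
def cy : GO K := eqv (fun x => ![x 0, x 3, x 1, x 2, x 6, x 4, x 5, x 7])
  (fun x => ![x 0, x 2, x 3, x 1, x 5, x 6, x 4, x 7])
  ⟨by intros; apply ext8 <;> simp, by intros; apply ext8 <;> simp⟩
  (by intros; apply ext8 <;> simp) (by intros; apply ext8 <;> simp)

theorem cy_apply (x : O K) : cy x = ![x 0, x 3, x 1, x 2, x 6, x 4, x 5, x 7] := rfl

theorem cy_inv_apply (x : O K) : (cy : GO K)⁻¹ x = ![x 0, x 2, x 3, x 1, x 5, x 6, x 4, x 7] := rfl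

theorem cy_mem (τ : K →+* K) : cy ∈ tri τ := mem_tri.2 fun x y => by
  apply ext8 <;> simp [cy_apply, tw0, tw1, tw2, tw3, tw4, tw5, tw6, tw7] <;> ring

/-- `u₂ → u₃ → -u₂`, `v₂ → v₃ → -v₂` -/
def sw : GO K := eqv (fun x => ![x 0, x 1, -x 3, x 2, x 4, -x 6, x 5, x 7])
  (fun x => ![x 0, x 1, x 3, -x 2, x 4, x 6, -x 5, x 7])
  ⟨by intros; apply ext8 <;> simp <;> ring, by intros; apply ext8 <;> simp⟩
  (by intros; apply ext8 <;> simp) (by intros; apply ext8 <;> simp)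

theorem sw_apply (x : O K) : sw x = ![x 0, x 1, -x 3, x 2, x 4, -x 6, x 5, x 7] := rfl

theorem sw_inv_apply (x : O K) : (sw : GO K)⁻¹ x = ![x 0, x 1, x 3, -x 2, x 4, x 6, -x 5, x 7] := rfl

theorem sw_mem (τ : K →+* K) : sw ∈ tri τ := mem_tri.2 fun x y => by
  apply ext8 <;> simp [sw_apply, tw0, tw1, tw2, tw3, tw4, tw5, tw6, tw7] <;> ring

def torf (τ : K →+* K) (h : K) (x : O K) : O K :=
  ![τ h * (τ (τ h))⁻¹ * x 0, h * x 1, h * x 2, (τ h)⁻¹ * (τ (τ h))⁻¹ * x 3, h⁻¹ * x 4, h⁻¹ * x 5,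
    τ h * τ (τ h) * x 6, (τ h)⁻¹ * τ (τ h) * x 7]

/-- a torus element -/
def tor (τ : K →+* K) {h : K} (h0 : h ≠ 0) : GO K := eqv (torf τ h) (torf τ h⁻¹)
  ⟨by intros; apply ext8 <;> simp [torf] <;> ring, by intros; apply ext8 <;> simp [torf] <;> ring⟩
  (by
    have h1 : τ h ≠ 0 := (map_ne_zero τ).2 h0
    have h2 : τ (τ h) ≠ 0 := (map_ne_zero τ).2 h1
    intros; apply ext8 <;> simp [torf] <;> field_simp)
  (by
    have h1 : τ h ≠ 0 := (map_ne_zero τ).2 h0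
    have h2 : τ (τ h) ≠ 0 := (map_ne_zero τ).2 h1
    intros; apply ext8 <;> simp [torf] <;> field_simp)

theorem tor_apply (τ : K →+* K) {h : K} (h0 : h ≠ 0) (x : O K) : tor τ h0 x =
    ![τ h * (τ (τ h))⁻¹ * x 0, h * x 1, h * x 2, (τ h)⁻¹ * (τ (τ h))⁻¹ * x 3, h⁻¹ * x 4, h⁻¹ * x 5,
      τ h * τ (τ h) * x 6, (τ h)⁻¹ * τ (τ h) * x 7] := rfl

theorem tor_mem {τ : K →+* K} (h3 : ∀ t, τ (τ (τ t)) = t) {h : K} (h0 : h ≠ 0) :
    tor τ h0 ∈ tri τ := mem_tri.2 fun x y => by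
  have h1 : τ h ≠ 0 := (map_ne_zero τ).2 h0
  have h2 : τ (τ h) ≠ 0 := (map_ne_zero τ).2 h1
  apply ext8 <;> simp [tor_apply, tw0, tw1, tw2, tw3, tw4, tw5, tw6, tw7, h3] <;> field_simp

theorem Nf_au {τ : K →+* K} (h3 : ∀ t, τ (τ (τ t)) = t) {g : GO K} (h : g ∈ tri τ) (x : O K) :
    Nf (g x) = Nf x := by
  have k : ∀ x y : O K, tw τ (tw τ x y) x = τ (τ (Nf x)) • y := fun x y => by
    apply ext8 <;> simp [tw0, tw1, tw2, tw3, tw4, tw5, tw6, tw7, h3, Nf] <;> ring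
  have h1 := tw_au h (tw τ x (e 0)) x
  rw [k, tw_au h x, k, map_smul] at h1
  have h2 : g (e 0) ≠ 0 := fun h2 => by
    have := congrFun (g.map_eq_zero_iff.1 h2) 0
    simp [e] at this
  exact (τ.injective (τ.injective (smul_left_injective K h2 h1))).symm

theorem Bf_eq (x y : O K) : Bf x y = Nf (x + y) - Nf x - Nf y := by simp [Bf, Nf]; ring

theorem Bf_au {τ : K →+* K} (h3 : ∀ t, τ (τ (τ t)) = t) {g : GO K} (h : g ∈ tri τ) (x y : O K) :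
    Bf (g x) (g y) = Bf x y := by
  rw [Bf_eq, Bf_eq, ← map_add, Nf_au h3 h, Nf_au h3 h, Nf_au h3 h]

theorem Bf_comm (x y : O K) : Bf x y = Bf y x := by simp [Bf]; ring

theorem Bf_inv {τ : K →+* K} (h3 : ∀ t, τ (τ (τ t)) = t) {g : GO K} (h : g ∈ tri τ) (x y : O K) :
    Bf x (g y) = Bf (g⁻¹ x) y := by
  rw [← Bf_au h3 h (g⁻¹ x) y]; simp

/-- conjugate in the group -/
def Cj (τ : K →+* K) (a a' : GO K) : Prop := ∃ p ∈ tri τ, p * a * p⁻¹ = a'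

/-- the product of the two classes lies in one class -/
def SC (τ : K →+* K) (a b : GO K) : Prop :=
  ∃ c : GO K, ∀ a' b', Cj τ a a' → Cj τ b b' → Cj τ c (a' * b')

/-- no point is moved to an opposite point -/
def QS (τ : K →+* K) (a : GO K) : Prop := ∀ p ∈ tri τ, Bf (p (e 1)) (a (p (e 1))) = 0

/-- symmetric Gram matrices on lines -/
def Sy (τ : K →+* K) (a : GO K) : Prop :=
  ∀ p ∈ tri τ, Bf (p (e 1)) (a (p (e 5))) = Bf (p (e 5)) (a (p (e 1)))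

/-- constant Gram determinant on lines; `DC τ a 0` says that no line goes to an opposite line -/
def DC (τ : K →+* K) (a : GO K) (k : K) : Prop :=
  ∀ p ∈ tri τ, Bf (p (e 1)) (a (p (e 1))) * Bf (p (e 6)) (a (p (e 6))) -
    Bf (p (e 1)) (a (p (e 6))) * Bf (p (e 6)) (a (p (e 1))) = k

/-- the Weyl element of the short root `u₁` -/
def nn (τ : K →+* K) (n : K) : GO K := xu1 τ n * xv1 τ n⁻¹ * xu1 τ n

theorem Cj.refl {τ : K →+* K} (a : GO K) : Cj τ a a := ⟨1, one_mem _, by simp⟩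

theorem Cj.trans {τ : K →+* K} {a b c : GO K} (h : Cj τ a b) (h' : Cj τ b c) : Cj τ a c := by
  obtain ⟨p, hp, rfl⟩ := h
  obtain ⟨q, hq, rfl⟩ := h'
  exact ⟨q * p, mul_mem hq hp, by group⟩

theorem Cj.symm {τ : K →+* K} {a b : GO K} (h : Cj τ a b) : Cj τ b a := by
  obtain ⟨p, hp, rfl⟩ := h
  exact ⟨p⁻¹, inv_mem hp, by group⟩

theorem Cj.mem {τ : K →+* K} {a b : GO K} (h : Cj τ a b) (ha : a ∈ tri τ) : b ∈ tri τ := by
  obtain ⟨p, hp, rfl⟩ := h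
  exact mul_mem (mul_mem hp ha) (inv_mem hp)

theorem Bf_conj {τ : K →+* K} (h3 : ∀ t, τ (τ (τ t)) = t) {p : GO K} (hp : p ∈ tri τ) (a : GO K)
    (x y : O K) : Bf x ((p * a * p⁻¹) y) = Bf (p⁻¹ x) (a (p⁻¹ y)) := by
  rw [LinearEquiv.mul_apply, LinearEquiv.mul_apply, Bf_inv h3 hp]

theorem Cj.QS {τ : K →+* K} (h3 : ∀ t, τ (τ (τ t)) = t) {a b : GO K} (h : Cj τ a b)
    (ha : QS τ a) : QS τ b := by
  obtain ⟨p, hp, rfl⟩ := h
  intro q hq
  rw [Bf_conj h3 hp]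
  exact ha (p⁻¹ * q) (mul_mem (inv_mem hp) hq)

theorem Cj.Sy {τ : K →+* K} (h3 : ∀ t, τ (τ (τ t)) = t) {a b : GO K} (h : Cj τ a b)
    (ha : Sy τ a) : Sy τ b := by
  obtain ⟨p, hp, rfl⟩ := h
  intro q hq
  rw [Bf_conj h3 hp, Bf_conj h3 hp]
  exact ha (p⁻¹ * q) (mul_mem (inv_mem hp) hq)

theorem Cj.DC {τ : K →+* K} (h3 : ∀ t, τ (τ (τ t)) = t) {a b : GO K} {k : K} (h : Cj τ a b)
    (ha : DC τ a k) : DC τ b k := by
  obtain ⟨p, hp, rfl⟩ := h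
  intro q hq
  simp only [Bf_conj h3 hp]
  exact ha (p⁻¹ * q) (mul_mem (inv_mem hp) hq)

theorem SC.symm {τ : K →+* K} {a b : GO K} (ha : a ∈ tri τ) (h : SC τ a b) : SC τ b a := by
  obtain ⟨c, h⟩ := h
  refine ⟨c, fun b' a' hb' ha' => (h a' b' ha' hb').trans ⟨a'⁻¹, inv_mem (ha'.mem ha), by group⟩⟩

end Pool.Agent.MP_db74b1_al.Lt.Tri
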