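import Pool.Agent.Mg.Fdb74b1.Gb63879
import Pool.Agent.Mg.Fdb74b1.G56e0b9

section

/-! The long root case for `G₂` and `³D₄`. -/

set_option autoImplicit false
set_option linter.unnecessarySeqFocus false
set_option linter.unusedSimpArgs false
set_option linter.unusedSectionVars false

namespace Pool.Agent.MP_db74b1_al.Lt.Tri

namespace G

open Module

variable {K : Type} [Field K]

/-- The nilpotent part of a long root element. -/
noncomputable def NN (α β : K) : End K (O K) :=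
  rk (e 1) (α • LinearMap.proj 2 + β • LinearMap.proj 3) -
    rk (α • e 5 + β • e 6) (LinearMap.proj 4)

lemma l_eq (α β : K) : ((l12 α * l13 β : GO K) : End K (O K)) = 1 + NN α β := by
  refine LinearMap.ext fun x => ?_
  apply ext8 <;> simp [NN, l12_apply, l13_apply, e] <;> ring

lemma tr_NN (α β : K) (E : End K (O K)) :
    tr (NN α β * E) = α * (E (e 1) 2 - E (e 5) 4) + β * (E (e 1) 3 - E (e 6) 4) := by
  rw [NN, sub_mul, rk_mul, rk_mul, map_sub, tr_rk, tr_rk]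
  simp
  ring

lemma c2_NN (α β : K) (E : End K (O K)) :
    c2 (NN α β * E) = E (e 1) 4 * (α ^ 2 * E (e 5) 2 + α * β * (E (e 6) 2 + E (e 5) 3) +
      β ^ 2 * E (e 6) 3) - (α * E (e 1) 2 + β * E (e 1) 3) * (α * E (e 5) 4 + β * E (e 6) 4) := by
  rw [NN, sub_mul, rk_mul, rk_mul, c2_sub, c2_rk, c2_rk, pp, mul_rk, tr_rk, tr_rk, tr_rk]
  simp
  ring

lemma tr_l (α β : K) (E : End K (O K)) : tr ((1 + NN α β) * E) = tr E + tr (NN α β * E) := by
  rw [add_mul, one_mul, map_add]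

lemma c2_l (α β : K) (E : End K (O K)) : c2 ((1 + NN α β) * E) =
    c2 E + c2 (NN α β * E) + (tr E * tr (NN α β * E) - tr (NN α β * (E * E))) := by
  rw [add_mul, one_mul, c2_add, pp, tr_comm E (NN α β * E), mul_assoc]

lemma coe_mul (a b : GO K) : ((a * b : GO K) : End K (O K)) = (a : End K (O K)) * b := rfl

lemma inv_mul (p : GO K) : ((p⁻¹ : GO K) : End K (O K)) * (p : End K (O K)) = 1 := by
  rw [← coe_mul, inv_mul_cancel]; rfl

lemma cj_tr {τ : K →+* K} {c g : GO K} (h : Cj τ c g) :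
    tr (g : End K (O K)) = tr (c : End K (O K)) := by
  obtain ⟨p, -, rfl⟩ := h
  rw [coe_mul, coe_mul, tr_comm, ← mul_assoc, inv_mul, one_mul]

lemma cj_c2 {τ : K →+* K} {c g : GO K} (h : Cj τ c g) :
    c2 (g : End K (O K)) = c2 (c : End K (O K)) := by
  obtain ⟨p, -, rfl⟩ := h
  rw [coe_mul, coe_mul, c2_comm, ← mul_assoc, inv_mul, one_mul]

lemma cj_s {τ : K →+* K} (l : K) {s : K} (hs : τ s = s) :
    Cj τ (l12 l) (l12 l * l13 (l * s)) := by
  refine ⟨l23 (-s), l23_mem (by rw [map_neg, hs]), LinearEquiv.ext fun x => ?_⟩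
  rw [l23_inv]
  apply ext8 <;> simp [l12_apply, l13_apply, l23_apply] <;> ring

lemma cj_sw (τ : K →+* K) (l : K) : Cj τ (l12 l) (l12 0 * l13 l) := by
  refine ⟨sw, sw_mem τ, LinearEquiv.ext fun x => ?_⟩
  apply ext8 <;> simp [l12_apply, l13_apply, sw_apply, sw_inv_apply] <;> ring

lemma cj_cy (τ : K →+* K) (l : K) : Cj τ (l12 l) (l23 l) := by
  refine ⟨cy, cy_mem τ, LinearEquiv.ext fun x => ?_⟩
  apply ext8 <;> simp [l12_apply, l23_apply, cy_apply, cy_inv_apply]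

lemma Bf_e1 (y : O K) : Bf (e 1) y = -y 4 := by simp [Bf, e]
lemma Bf_e5 (y : O K) : Bf (e 5) y = -y 2 := by simp [Bf, e]
lemma Bf_e6 (y : O K) : Bf (e 6) y = -y 3 := by simp [Bf, e]

lemma Bf_p {τ : K →+* K} (h3 : ∀ t, τ (τ (τ t)) = t) {p : GO K} (hp : p ∈ tri τ) (b : GO K)
    (x y : O K) : Bf (p x) (b (p y)) = Bf x ((p⁻¹ * b * p⁻¹⁻¹) y) := by
  rw [Bf_conj h3 (inv_mem hp), inv_inv]

/-- The invariant separating the last two products. -/
def P (g : GO K) : Prop := ∀ x, g (g (g (g (g (g x))))) - (2 : K) • g (g (g x)) + x = 0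

lemma P_cj {τ : K →+* K} {c g : GO K} (h : Cj τ c g) (hc : P c) : P g := by
  obtain ⟨p, -, rfl⟩ := h
  intro x
  have := congrArg p (hc (p⁻¹ x))
  simpa [LinearEquiv.mul_apply] using this

lemma A_apply {τ : K →+* K} (hτ : ∀ t, τ t = t) {n : K} (hn : n ≠ 0) (x : O K) :
    (nn τ n * xu1 τ n) x = ![-n * x 4 + x 7, -n ^ 2 * x 4, -x 2 - n⁻¹ * x 6, -x 3 + n⁻¹ * x 5,
      n⁻¹ * x 0 - n⁻¹ ^ 2 * x 1 + x 4 - n⁻¹ * x 7, -n * x 3, n * x 2, x 0 + n * x 4] := by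
  apply ext8 <;> simp [nn, xu1_apply, xv1_apply, hτ] <;> field_simp <;> ring

end G

open G Module

variable {K : Type} [Field K] {τ : K →+* K} (h3 : ∀ t, τ (τ (τ t)) = t)
include h3

theorem SC.long {a b : GO K} (hb : b ∈ tri τ) (h : SC τ a b)
    (hr : (∃ r, τ r = r ∧ r ≠ 0 ∧ r ≠ 1) ∨ ((2 : K) = 0 ∧ ∃ t, τ t ≠ t)) {l : K} (hl : l ≠ 0)
    (hl' : τ l = l) (ha : Cj τ a (l12 l)) :
    Sy τ b ∧ (DC τ b 0 ∨ ((2 : K) = 0 ∧ (∃ t, τ t ≠ t) ∧ ∃ k, DC τ b k)) := by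
  obtain ⟨c, h⟩ := h
  have key : ∀ (α β : K) (b' : GO K), Cj τ (l12 l) (l12 α * l13 β) → Cj τ b b' →
      tr (b' : End K (O K)) + tr (NN α β * (b' : End K (O K))) = tr (c : End K (O K)) ∧
      c2 (b : End K (O K)) + c2 (NN α β * (b' : End K (O K))) +
        (tr (b' : End K (O K)) * tr (NN α β * (b' : End K (O K))) -
        tr (NN α β * ((b' : End K (O K)) * (b' : End K (O K))))) = c2 (c : End K (O K)) := by
    intro α β b' h1 h2
    have h4 := h _ _ (ha.trans h1) h2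
    have h5 := cj_tr h4
    have h6 := cj_c2 h4
    rw [G.coe_mul, l_eq] at h5 h6
    rw [tr_l] at h5
    rw [c2_l, cj_c2 h2] at h6
    exact ⟨h5, h6⟩
  have hT : ∀ b' : GO K, Cj τ b b' → b' (e 1) 2 = b' (e 5) 4 ∧ b' (e 1) 3 = b' (e 6) 4 := by
    intro b' h2
    have e0 := (key _ _ b' (cj_s l (map_zero τ)) h2).1
    have e1 := (key _ _ b' (cj_s l (map_one τ)) h2).1
    have e2 := (key _ _ b' (cj_sw τ l) h2).1
    simp only [tr_NN, LinearEquiv.coe_coe] at e0 e1 e2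
    constructor
    · have : l * (b' (e 1) 2 - b' (e 5) 4) = 0 := by linear_combination e1 - e2
      exact sub_eq_zero.1 ((mul_eq_zero.1 this).resolve_left hl)
    · have : l * (b' (e 1) 3 - b' (e 6) 4) = 0 := by linear_combination e1 - e0
      exact sub_eq_zero.1 ((mul_eq_zero.1 this).resolve_left hl)
  have hcj : ∀ p ∈ tri τ, Cj τ b (p⁻¹ * b * p⁻¹⁻¹) := fun p hp => ⟨p⁻¹, inv_mem hp, rfl⟩
  have hS : Sy τ b := by
    intro p hp
    rw [Bf_p h3 hp, Bf_p h3 hp, Bf_e1, Bf_e5, (hT _ (hcj p hp)).1]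
  refine ⟨hS, ?_⟩
  rcases hr with ⟨r, hr, hr0, hr1⟩ | ⟨h2, hτ⟩
  · left
    intro p hp
    simp only [Bf_p h3 hp, Bf_e1, Bf_e6]
    generalize hb' : p⁻¹ * b * p⁻¹⁻¹ = b'
    have hc : Cj τ b b' := hb' ▸ hcj p hp
    have e0 := (key _ _ b' (cj_s l (map_zero τ)) hc).2
    have e1 := (key _ _ b' (cj_s l (map_one τ)) hc).2
    have e2 := (key _ _ b' (cj_s l hr) hc).2
    simp only [tr_NN, c2_NN, LinearEquiv.coe_coe] at e0 e1 e2
    have : l ^ 2 * (r * (r - 1)) * (b' (e 1) 4 * b' (e 6) 3 - b' (e 6) 4 * b' (e 1) 3) = 0 := by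
      linear_combination e2 - r * e1 + (r - 1) * e0
    have h5 := (mul_eq_zero.1 this).resolve_left
      (mul_ne_zero (pow_ne_zero _ hl) (mul_ne_zero hr0 (sub_ne_zero.2 hr1)))
    linear_combination h5
  · right
    refine ⟨h2, hτ, (c2 (c : End K (O K)) - c2 (b : End K (O K))) / l ^ 2, fun p hp => ?_⟩
    simp only [Bf_p h3 hp, Bf_e1, Bf_e6]
    generalize hb' : p⁻¹ * b * p⁻¹⁻¹ = b'
    have hc : Cj τ b b' := hb' ▸ hcj p hp
    have e2 := (key _ _ b' (cj_sw τ l) hc).2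
    obtain ⟨α, hα⟩ := Sy_scalar h3 (hc.mem hb) (hc.Sy h3 hS) h2 hτ
    have hsq : ∀ x, b' (b' x) = α • b' x - x := fun x => by
      have := hα (b' x)
      rw [← this]
      simp
    have hT' := (hT b' hc).2
    simp only [tr_NN, c2_NN, LinearEquiv.coe_coe, End.mul_apply, hsq, Pi.sub_apply, Pi.smul_apply,
      smul_eq_mul] at e2
    have z1 : (e 1 : O K) 3 = 0 := by simp [e]
    have z2 : (e 6 : O K) 4 = 0 := by simp [e]
    rw [z1, z2] at e2
    rw [eq_div_iff (pow_ne_zero _ hl)]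
    linear_combination e2 - (tr (b' : End K (O K)) * l - l * α) * hT'

theorem SC.last {a b : GO K} (h : SC τ a b) (hτ : ∀ t, τ t = t) {l n : K} (hl : l ≠ 0) (hn : n ≠ 0)
    (ha : Cj τ a (l12 l)) (hb : Cj τ b (nn τ n * xu1 τ n)) : False := by
  obtain ⟨c, h⟩ := h
  have h1 := h _ _ (ha.trans (cj_cy τ l)) hb
  have h2 := h _ _ ha hb
  have h4 : P (l23 l * (nn τ n * xu1 τ n)) := by
    have hc : ∀ x : O K, (l23 l * (nn τ n * xu1 τ n)) ((l23 l * (nn τ n * xu1 τ n))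
        ((l23 l * (nn τ n * xu1 τ n)) x)) = l23 (3 * l) x := by
      intro x
      simp only [LinearEquiv.mul_apply (l23 l), A_apply hτ hn]
      apply ext8 <;> simp [l23_apply] <;> field_simp <;> ring
    intro x
    rw [hc, hc]
    apply ext8 <;> simp [l23_apply] <;> ring
  have h5 := congrFun (P_cj (h1.symm.trans h2) h4 (e 2)) 3
  simp only [LinearEquiv.mul_apply (l12 l), A_apply hτ hn] at h5
  simp [l12_apply, e] at h5
  field_simp at h5
  ring_nf at h5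
  simp [hl, hn] at h5

end Pool.Agent.MP_db74b1_al.Lt.Tri

end

section

/-! Arad-Herzog for `G₂(q)`, `q > 2`, and `³D₄(q)`. -/

set_option autoImplicit false

namespace Pool.Agent.MP_db74b1_al.Lt

open Pool.Agent.MP_db74b1_al.Exc

namespace Tri

variable {K : Type} [Field K] {τ : K →+* K} (h3 : ∀ t, τ (τ (τ t)) = t)
include h3

theorem main_QS {a b : GO K} (ha : a ∈ tri τ) (hb : b ∈ tri τ) (h : SC τ a b)
    (hr : (∃ r, τ r = r ∧ r ≠ 0 ∧ r ≠ 1) ∨ ((2 : K) = 0 ∧ ∃ t, τ t ≠ t)) (hq : QS τ a) :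
    a = 1 ∨ b = 1 := by
  rcases QS_struct h3 ha hq with h1 | ⟨l, hl, hl', hc⟩
  · exact Or.inl h1
  right
  obtain ⟨h1, h2⟩ := h.long h3 hb hr hl hl' hc
  by_cases hq' : QS τ b
  · rcases h2 with h2 | ⟨_, _, k, h2⟩
    · exact triv_of h3 hb hq' h2
    · rcases QS_struct h3 hb hq' with h4 | ⟨m, _, _, hc'⟩
      · exact h4
      · have h5 := hc'.DC h3 h2 1 (one_mem _)
        have : k = 0 := by simpa [Bf, e, l12_apply] using h5.symm
        exact triv_of h3 hb hq' (this ▸ h2)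
  · obtain ⟨h4, n, hn, h5⟩ := Sy_struct h3 hb h1 hq' h2
    exact (h.last h3 h4 hl hn hc h5).elim

end Tri

open Tri in
theorem tri_AH {K : Type} [Field K] (τ : K →+* K) (h3 : ∀ t, τ (τ (τ t)) = t)
    (hK : (∀ t, τ t = t) → ∃ r : K, r ≠ 0 ∧ r ≠ 1) : AH (tri τ) := by
  have hr : (∃ r, τ r = r ∧ r ≠ 0 ∧ r ≠ 1) ∨ ((2 : K) = 0 ∧ ∃ t, τ t ≠ t) := by
    by_cases h : ∃ r, τ r = r ∧ r ≠ 0 ∧ r ≠ 1
    · exact Or.inl h
    push Not at h
    refine Or.inr ⟨?_, ?_⟩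
    · by_contra h2
      have := h 2 (map_ofNat τ 2) h2
      exact one_ne_zero (α := K) (by linear_combination this)
    · by_contra h2
      push Not at h2
      obtain ⟨r, h0, h1⟩ := hK h2
      exact h1 (h r (h2 r) h0)
  intro x y z hx hy hE
  have h : SC τ x.1 y.1 := by
    refine ⟨z.1, ?_⟩
    rintro _ _ ⟨p, hp, rfl⟩ ⟨q, hq, rfl⟩
    let P : tri τ := ⟨p, hp⟩
    let Q : tri τ := ⟨q, hq⟩
    have h1 : P * x * P⁻¹ * (Q * y * Q⁻¹) ∈ {g : tri τ | IsConj z g} := by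
      rw [← hE]
      exact ⟨_, _, isConj_iff.2 ⟨P, rfl⟩, isConj_iff.2 ⟨Q, rfl⟩, rfl⟩
    obtain ⟨s, hs⟩ := isConj_iff.1 h1
    exact ⟨s.1, s.2, congrArg Subtype.val hs⟩
  have h1 : x.1 = 1 ∨ y.1 = 1 := by
    rcases h.QS h3 x.2 y.2 hr with h1 | h1
    · exact main_QS h3 x.2 y.2 h hr h1
    · exact (main_QS h3 y.2 x.2 (h.symm x.2) hr h1).symm
  exact h1.elim (fun h => hx (Subtype.ext h)) fun h => hy (Subtype.ext h)

end Pool.Agent.MP_db74b1_al.Lt

end
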