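import Pool.Agent.Mg.Fdb74b1.G5445b4

set_option autoImplicit false

namespace Pool.Agent.MP_db74b1_al.Exc

variable {K : Type} [Field K]

def Fb (n : ℕ) (ζ : Lat) : Prop :=
  (Sp n ζ ∧ ipx ζ (th n) ^ 2 = 1 ∧ ipx ζ (bet n) ^ 2 = 1) ∨ ∀ i : Fin 8, i.1 < n → cv ζ i = 0

instance (n : ℕ) (x : Lat) : Decidable (Fb n x) := by unfold Fb; infer_instance

def annE (n : ℕ) (κ μ : Lat) : Prop :=
  ∃ ζ ∈ allL, ipx ζ μ = -1 ∧ 0 ≤ ipx ζ κ ∧ Fb n ζ ∧ ipx ζ ζ = 2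

instance (n : ℕ) (x y : Lat) : Decidable (annE n x y) := by unfold annE; infer_instance

def m6 : Lat := v8 2 3 4 6 4 3 2 1
def ka6 : Lat := v8 1 1 2 2 1 0 0 0
def ka7 : Lat := v8 1 2 2 3 2 1 0 0
def kb7 : Lat := v8 1 2 2 3 2 1 1 0
def ka8 : Lat := v8 1 3 3 5 4 3 2 1

theorem ann6 : ∀ μ ∈ allL, ipx μ (th 6) = 1 → ipx μ (th 8) = 1 → (∀ i, μ i = m6 i) ∨ annE 6 m6 μ := by
  decide +kernel
theorem ann7 : ∀ μ ∈ allL, Sp 7 μ → ipx μ (th 7) = 1 → (∀ i, μ i = ka7 i) ∨ (∀ i, μ i = kb7 i) ∨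
    annE 7 ka7 μ := by decide +kernel
theorem ann8 : ∀ μ ∈ allL, ipx μ (th 8) = 1 → (∀ i, μ i = ka8 i) ∨ annE 8 ka8 μ := by
  decide +kernel
theorem perp7 : ∀ ζ ∈ allL, Fb 7 ζ → cv ζ 6 = 0 := by decide +kernel

def okB (n : ℕ) (S : List (Lat × ℕ)) (x : Lat × ℕ) : Prop :=
  (∃ y ∈ S, (∀ i, x.1 i = y.1 i) ∧ x.2 = y.2) ∨ (x.2 = 0 ∧ ipx x.1 x.1 = 2 ∧ Fb n x.1)

instance (n : ℕ) (S : List (Lat × ℕ)) (x : Lat × ℕ) : Decidable (okB n S x) := by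
  unfold okB; infer_instance

def chain (n : ℕ) (S : List (Lat × ℕ)) : List ((Lat × ℕ) × (Lat × ℕ)) → List (Lat × ℕ)
  | [] => S
  | p :: r => if okB n S p.1 ∧ okB n S p.2 ∧ ipx p.1.1 p.2.1 = -1 then
      chain n ((p.1.1 + p.2.1, p.1.2 + p.2.2) :: S) r else S

def ch6 : List ((Lat × ℕ) × (Lat × ℕ)) :=
  [((v8 1 1 1 1 1 1 0 0, 0), (v8 (-1) (-1) (-2) (-2) (-1) (-1) 0 0, 0)),
  ((v8 (-1) (-1) (-1) (-2) (-1) (-1) 0 0, 0), (v8 2 3 4 6 4 3 2 1, 1)),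
  ((v8 0 (-1) 0 (-1) 0 0 0 0, 0), (v8 2 3 4 6 4 3 2 1, 1)),
  ((v8 (-2) (-3) (-4) (-6) (-5) (-4) (-3) (-2), 0), (v8 2 3 4 6 4 3 2 1, 1)),
  ((v8 (-2) (-3) (-4) (-6) (-5) (-4) (-3) (-1), 0), (v8 2 2 4 5 4 3 2 1, 1)),
  ((v8 0 0 (-1) (-1) 0 0 0 0, 0), (v8 0 0 0 0 (-1) (-1) (-1) (-1), 1)),
  ((v8 0 (-1) 0 (-1) (-1) (-1) (-1) 0, 1), (v8 0 0 (-1) (-1) (-1) (-1) (-1) (-1), 1)),
  ((v8 1 2 3 4 3 2 2 1, 1), (v8 0 (-1) (-1) (-2) (-2) (-2) (-2) (-1), 2))]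

def ch7 : List ((Lat × ℕ) × (Lat × ℕ)) :=
  [((v8 1 2 3 4 3 2 1 0, 0), (v8 (-1) (-2) (-2) (-4) (-3) (-2) (-1) 0, 0)),
  ((v8 1 2 2 4 3 2 1 0, 0), (v8 (-1) (-2) (-3) (-4) (-3) (-2) (-1) 0, 0)),
  ((v8 1 2 2 4 3 2 1 0, 0), (v8 (-1) (-2) (-2) (-3) (-3) (-2) (-1) 0, 0)),
  ((v8 1 1 2 3 3 2 1 0, 0), (v8 (-1) (-2) (-2) (-4) (-3) (-2) (-1) 0, 0)),
  ((v8 1 1 2 3 3 2 1 0, 0), (v8 (-1) (-2) (-2) (-3) (-3) (-2) (-1) 0, 0)),
  ((v8 1 1 2 3 3 2 1 0, 0), (v8 (-1) (-1) (-2) (-3) (-2) (-2) (-1) 0, 0)),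
  ((v8 1 1 1 1 1 0 0 0, 0), (v8 (-1) (-1) (-1) (-2) (-1) 0 0 0, 0)),
  ((v8 1 1 1 1 1 0 0 0, 0), (v8 (-1) 0 (-1) (-1) (-1) 0 0 0, 0)),
  ((v8 1 2 2 3 2 2 1 0, 0), (v8 (-1) (-2) (-2) (-3) (-3) (-2) (-1) 0, 0)),
  ((v8 1 0 1 1 0 0 0 0, 0), (v8 (-1) (-1) (-1) (-2) (-1) 0 0 0, 0)),
  ((v8 (-1) (-2) (-3) (-4) (-3) (-2) (-1) 0, 0), (v8 1 2 2 3 2 1 0 0, 0)),
  ((v8 (-1) (-2) (-3) (-4) (-3) (-2) (-1) 0, 0), (v8 1 2 2 3 2 1 1 0, 0)),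
  ((v8 (-1) (-1) (-1) (-1) (-1) 0 0 0, 0), (v8 1 2 2 3 2 1 0 0, 0)),
  ((v8 (-1) (-1) (-1) (-1) (-1) 0 0 0, 0), (v8 1 2 2 3 2 1 1 0, 0)),
  ((v8 (-1) (-2) (-2) (-3) (-2) (-2) (-1) 0, 0), (v8 1 2 2 3 2 1 1 0, 0)),
  ((v8 (-1) (-1) (-2) (-2) (-1) 0 0 0, 0), (v8 1 2 2 3 2 1 0 0, 0)),
  ((v8 0 (-1) 0 (-1) 0 0 0 0, 0), (v8 0 1 1 2 1 1 0 0, 0)),
  ((v8 0 (-1) 0 (-1) 0 0 0 0, 0), (v8 0 1 1 2 1 1 1 0, 0)),
  ((v8 0 (-1) 0 (-1) (-1) 0 0 0, 0), (v8 0 1 0 1 1 1 0 0, 0)),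
  ((v8 0 0 (-1) (-1) (-1) (-1) (-1) 0, 0), (v8 0 0 1 1 1 1 0 0, 0)),
  ((v8 0 0 (-1) (-1) (-1) (-1) 0 0, 0), (v8 0 0 1 1 1 1 1 0, 0))]

theorem ch6_ok : okB 6 (chain 6 [(m6, 1)] ch6) (ka6, 3) := by decide +kernel

theorem ch7_ok : ∀ i : Fin 8, i.1 < 7 → okB 7 (chain 7 [(ka7, 0), (kb7, 0)] ch7) (a i, 0) ∧
    okB 7 (chain 7 [(ka7, 0), (kb7, 0)] ch7) (-a i, 0) := by decide +kernel

section
variable {g : Aut K} (hg : g ∈ AutG K) {n : ℕ} (hF : ∀ ζ, ip ζ ζ = 2 → Fb n ζ → g (e ζ) = e ζ)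
include hg hF

theorem ann {κ μ : Lat} (hκ : ip κ κ = 2) (hμ : ip μ μ = 2) (h : annE n κ μ) :
    co μ (g (e κ)) = 0 := by
  obtain ⟨ζ, _, h1, h2, h3, h4⟩ := h
  rw [← ip_x] at h1 h2 h4
  exact co_of_ad h4 hμ h1 (by rw [← aut_ad hg h4 (hF ζ h4 h3), ad_e_nn h4 hκ h2, map_zero])

omit hg in
theorem okB_sc {t : K} {S : List (Lat × ℕ)}
    (hS : ∀ x ∈ S, ip x.1 x.1 = 2 ∧ g (e x.1) = t ^ x.2 • e x.1) {x : Lat × ℕ} (h : okB n S x) :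
    ip x.1 x.1 = 2 ∧ g (e x.1) = t ^ x.2 • e x.1 := by
  rcases h with ⟨y, hy, h1, h2⟩ | ⟨h1, h2, h3⟩
  · rw [funext h1, h2]; exact hS y hy
  · rw [h1, pow_zero, one_smul]; exact ⟨rt h2, hF _ (rt h2) h3⟩

theorem chain_sc {t : K} (ch : List ((Lat × ℕ) × (Lat × ℕ))) : ∀ S : List (Lat × ℕ),
    (∀ x ∈ S, ip x.1 x.1 = 2 ∧ g (e x.1) = t ^ x.2 • e x.1) →
      ∀ x ∈ chain n S ch, ip x.1 x.1 = 2 ∧ g (e x.1) = t ^ x.2 • e x.1 := by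
  induction ch with
  | nil => exact fun S h => h
  | cons p r ih =>
    intro S hS
    rw [chain]
    split_ifs with h
    swap
    · exact hS
    obtain ⟨h1, h2⟩ := okB_sc hF hS h.1
    obtain ⟨h3, h4⟩ := okB_sc hF hS h.2.1
    have h5 := h.2.2
    rw [← ip_x] at h5
    refine ih _ fun x hx => ?_
    rcases List.mem_cons.1 hx with rfl | hx
    swap
    · exact hS x hx
    refine ⟨(root_add h1 h3).2 h5, ?_⟩
    have h6 := hg.1 (e p.1.1) (e p.2.1)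
    rw [h2, h4, map_smul, map_smul, LinearMap.smul_apply, br_e h1, ad_e_m1 h1 h3 h5,
      map_smul] at h6
    apply smul_right_injective _ (eps_ne (K := K) p.1.1 p.2.1)
    simp only [h6, pow_add, smul_smul]
    congr 1; ring

end

theorem eq_one {κ : Lat} (hκ : ip κ κ = 2) {v : L K} (h0 : v.1 = 0)
    (h : ∀ μ, ip μ μ = 2 → μ ≠ κ → co μ v = 0) : v = co κ v • e κ :=
  L_eq (by rw [h0]; simp [e_fst]) fun β hβ => by
    by_cases h1 : β = κ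
    · simp [h1, co_e_self hκ]
    · simp [h β hβ h1, co_e_ne h1]

namespace Cfg

variable {c : Cfg K}

theorem Two.aut {l : Aut K} (H : c.Two l) : l ∈ AutG K := Ucl_aut H.mem

theorem Two.f11 (hq : c.Q2) {l : Aut K} (H : c.Two l) {γ : Lat} (hγ : c.R γ)
    (h1 : ip γ (th c.n) = 1) (h2 : ip γ (bet c.n) = 1) : l (e γ) = e γ := by
  have hβ := (bet_Lg (c := c)).1.1.1
  have v0 : V1 (bet c.n) (e γ : L K) := V1_e h2
  have v1 := v0.aut hβ hq.two H.aut H.f3 H.f4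
  have v2 := v1.aut hβ hq.two H.aut H.f3 H.f4
  have h3 := H.q _ (V1_e h1) (e_mem hγ.2)
  rw [v1.r0 hβ hq.two, aut_ad H.aut (root_neg hβ) H.f4, v2.r1 hβ hq.two] at h3
  have h4 := congrArg (ad (bet c.n)) h3
  rw [map_add, map_add, v1.AA hβ hq.two, v2.AA hβ hq.two, ((V1_iff hβ hq.two _).1 v0).2,
    ((V1_iff hβ hq.two _).1 v2).2, zero_add, add_zero] at h4
  exact l.injective h4

theorem Two.q10 {l : Aut K} (H : c.Two l) {γ : Lat} (hγ : c.R γ)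
    (h1 : ip γ (th c.n) = 1) (h2 : ip γ (bet c.n) = 0) : l (l (e γ)) = l (e γ) + e γ := by
  have hβ := (bet_Lg (c := c)).1.1.1
  have h3 := H.q _ (V1_e h1) (e_mem hγ.2)
  have h4 : ∀ v, rr (bet c.n) (l v) = l (rr (bet c.n) v) := fun v =>
    (congrArg (fun p : Aut K => p v) (rr_comm H.aut hβ H.f3 H.f4)).symm
  simpa only [h4, rr_fix hβ hγ.1 (by rw [ip_comm, h2])] using h3

theorem Two.fixF (hq : c.Q2) {l : Aut K} (H : c.Two l) (ζ : Lat) (hζ : ip ζ ζ = 2)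
    (h : Fb c.n ζ) : l (e ζ) = e ζ := by
  have hθ := c.th_R
  obtain ⟨hβ, b0⟩ := bet_Lg (c := c)
  rcases h with ⟨h1, h2, h3⟩ | h
  swap
  · refine Ucl_fix' hζ (fun β h1 _ => ?_) H.mem
    have k : ∀ i, β i * cv ζ i = 0 := fun i => by
      by_cases hi : i.1 < c.n
      · rw [h i hi, mul_zero]
      · rw [h1.2 i (by omega), zero_mul]
    rw [ip_comm, ip_expand]; simp [k]
  have k : ∀ ζ, c.R ζ → ip ζ (th c.n) = 1 → ip ζ (bet c.n) ^ 2 = 1 → l (e ζ) = e ζ :=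
    fun ζ hζ h2 h3 => by
    rcases sq_eq_one_iff.1 h3 with h3 | h3
    · exact H.f11 hq hζ h2 h3
    · have h4 : c.R (ζ + bet c.n) := ⟨(root_add hζ.1 hβ.1.1).2 h3, hζ.2.add hβ.1.2⟩
      have := fix_add H.aut h4.1 hβ.neg.1.1 (by rw [ip_neg_right, ip_add_left, h3, hβ.1.1]; rfl)
        (H.f11 hq h4 (by rw [ip_add_left, h2, b0]; rfl) (by rw [ip_add_left, h3, hβ.1.1]; rfl)) H.f4
      rwa [add_neg_cancel_right] at this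
  rw [← ip_x] at h2 h3
  rcases sq_eq_one_iff.1 h2 with h2 | h2
  · exact k ζ ⟨hζ, h1⟩ h2 h3
  · have h4 : c.R (ζ + th c.n) := ⟨(root_add hζ hθ.1).2 h2, h1.add hθ.2⟩
    have := fix_add H.aut h4.1 hθ.neg.1 (by rw [ip_neg_right, ip_add_left, h2, hθ.1]; rfl)
      (k _ h4 (by rw [ip_add_left, h2, hθ.1]; rfl)
        (by rwa [ip_add_left, ip_comm (th c.n), b0, add_zero])) H.f2
    rwa [add_neg_cancel_right] at this

theorem Q2.cube (hq : c.Q2) {t : K} (ht : t ≠ 0) : t ^ 3 = 1 := by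
  have h1 := (hq (t * c.τ t) (by rw [map_mul, c.ττ, mul_comm])).resolve_left
    (mul_ne_zero ht ((map_ne_zero c.τ).2 ht))
  rcases hq (t + c.τ t) (by rw [map_add, c.ττ, add_comm]) with h | h
  · have h2 : c.τ t = t := by linear_combination h - t * hq.two
    rw [(hq t h2).resolve_left ht, one_pow]
  · have h2 : c.τ t = 1 - t := by linear_combination h
    rw [h2] at h1
    linear_combination -(t + 1) * h1 - hq.two

theorem Two.n6 (hq : c.Q2) {l : Aut K} (H : c.Two l) : c.n ≠ 6 := fun hn => by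
  have hF := H.fixF hq
  have v1 := (V1_e (θ := th c.n) (β := m6) (by rw [hn, ip_x]; decide)).aut c.th_R.1 hq.two H.aut
    H.f1 H.f2
  have q := H.q10 (γ := ka6) (R6' (by decide)) (by rw [hn, ip_x]; decide) (by rw [hn, ip_x]; decide)
  rw [hn] at hF v1
  have r8 : ip (th 8) (th 8) = 2 := rt (by decide)
  have r6 : ip m6 m6 = 2 := rt (by decide)
  have v2 := (V1_e (θ := th 8) (β := m6) (by rw [ip_x]; decide)).aut r8 hq.two H.aut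
    (hF _ r8 (by decide)) (hF _ (root_neg r8) (by decide))
  have e1 := eq_one r6 v1.fst fun μ hμ h => by
    by_cases h1 : ip μ (th 6) = 1 ∧ ip μ (th 8) = 1
    · exact ann H.aut hF r6 hμ ((ann6 μ (mem_allL hμ) (ip_x _ _ ▸ h1.1)
        (ip_x _ _ ▸ h1.2)).resolve_left fun h2 => h (funext h2))
    · rw [not_and_or] at h1; exact h1.elim (v1.co _) (v2.co _)
  generalize co m6 (l (e m6)) = t at e1
  have ht : t ≠ 0 := fun h => by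
    rw [h, zero_smul, map_eq_zero_iff _ l.injective] at e1
    have := co_e_self (R := K) r6
    rw [e1] at this; simp at this
  obtain ⟨k1, k2⟩ := okB_sc hF (chain_sc H.aut hF (t := t) ch6 [(m6, 1)]
    (by simpa using ⟨r6, e1⟩)) ch6_ok
  simp only [hq.cube ht, one_smul] at k1 k2
  rw [k2, k2] at q
  have := congrArg (co ka6) q
  simp [co_e_self k1] at this

theorem Two.n8 (hq : c.Q2) {l : Aut K} (H : c.Two l) : c.n ≠ 8 := fun hn => by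
  have hF := H.fixF hq
  have r6 : ip ka8 ka8 = 2 := rt (by decide)
  have v1 := (V1_e (θ := th c.n) (β := ka8) (by rw [hn, ip_x]; decide)).aut c.th_R.1 hq.two H.aut
    H.f1 H.f2
  have q := H.q10 (γ := ka8) ⟨r6, by rw [hn]; decide⟩ (by rw [hn, ip_x]; decide)
    (by rw [hn, ip_x]; decide)
  rw [hn] at hF v1
  have e1 := eq_one r6 v1.fst fun μ hμ h => by
    by_cases h1 : ip μ (th 8) = 1
    · exact ann H.aut hF r6 hμ ((ann8 μ (mem_allL hμ) (ip_x _ _ ▸ h1)).resolve_left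
        fun h2 => h (funext h2))
    · exact v1.co _ h1
  generalize co ka8 (l (e ka8)) = t at e1
  have := congrArg (co ka8) q
  simp only [e1, map_smul, map_add, co_e_self r6, smul_eq_mul, mul_one] at this
  rcases c.ok with ⟨_, h, _⟩ | ⟨_, h, _⟩
  · rcases hq t (h t) with rfl | rfl <;> simp at this
  · omega

end Cfg

end Pool.Agent.MP_db74b1_al.Exc
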