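import Pool.Agent.Mg.Fdb74b1.G2780a2

section

set_option autoImplicit false

namespace Pool.Agent.MP_db74b1_al.Exc

def Dop {A : Type} [Ring A] (N φ : A) : A := N * φ + φ * N + N * φ * N

theorem six {A : Type} [Ring A] (P : A) (M : Fin 5 → A) (φ : A)
    (h1 : ∀ i j, P * (M i * M j) = 0) (h2 : ∀ i j, M j * (M i * P) = 0)
    (h3 : ∀ j, M 0 * (M 1 * M j) = 0) (h4 : ∀ j, M 0 * (M 2 * M j) = 0)
    (h5 : ∀ j, M j * (M 1 * M 0) = 0) (h6 : ∀ j, M j * (M 2 * M 0) = 0) :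
    Dop (M 4) (Dop (M 3) (Dop (M 2) (Dop (M 1) (Dop (M 0) (Dop P φ))))) =
      M 0 * P * φ * (M 1 * M 2 * M 3 * M 4) + M 4 * M 3 * M 2 * M 1 * φ * (P * M 0) := by
  have k2 : ∀ i j z, M j * (M i * (P * z)) = 0 := fun i j z => by
    rw [← mul_assoc (M i), ← mul_assoc, h2, zero_mul]
  have k5 : ∀ j z, M j * (M 1 * (M 0 * z)) = 0 := fun j z => by
    rw [← mul_assoc (M 1), ← mul_assoc, h5, zero_mul]
  have k6 : ∀ j z, M j * (M 2 * (M 0 * z)) = 0 := fun j z => by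
    rw [← mul_assoc (M 2), ← mul_assoc, h6, zero_mul]
  simp only [Dop, mul_add, add_mul, mul_assoc, h1, h3, h4, k2, k5, k6, mul_zero,
    add_zero, zero_add]
  rw [add_comm]

variable {K : Type} [Field K]

/-- `g - 1` -/
def Nn (g : Aut K) : En K := g.toLinearMap - 1

theorem Nn_apply (g : Aut K) (v : L K) : Nn g v = g v - v := rfl

theorem Nn_comm {g h : Aut K} (H : g * h = h * g) : Nn g * Nn h = Nn h * Nn g := by
  refine LinearMap.ext fun v => ?_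
  have := congrArg (fun p : Aut K => p v) H
  simp only [LinearEquiv.mul_apply] at this
  simp only [Module.End.mul_apply, Nn_apply, map_sub, this]; abel

def Ww (μ ν : Lat) : En K := (co (-μ)).smulRight (e ν) + (co (-ν)).smulRight (e μ)

theorem Ww_apply (μ ν : Lat) (v : L K) : Ww μ ν v = co (-μ) v • e ν + co (-ν) v • e μ := rfl

theorem NN_one {μ ν : Lat} (hμ : ip μ μ = 2) (hν : ip ν ν = 2) (h : ip μ ν = 1) (s t : K)
    (v : L K) : Nn (X μ s) (Nn (X ν t) v) = (s * t) • Ww μ ν v := by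
  have h1 := ex_collinear hμ hν h s t v
  rw [LinearEquiv.mul_apply] at h1
  rw [Nn_apply, Nn_apply, map_sub, ← h1, X_ex hμ, X_ex hν, Ww_apply]
  simp only [ex, map_add, map_smul, LinearMap.add_apply, LinearMap.smul_apply, gf_e hμ, gf_e hν,
    smul_eq_mul]
  module

section comm
variable {T : Lat → Prop} (hT : ∀ α β, T α → T β → 0 ≤ ip α β)
include hT

theorem Ucl_fix {g : Aut K} (hg : g ∈ Ucl K T) {α : Lat} (h : T α) (hα : ip α α = 2) :
    g (e α) = e α :=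
  Ucl_induction (p := fun g => g (e α) = e α) rfl (fun β t g h1 h2 _ h3 => by
    rw [LinearEquiv.mul_apply, h3, X_e_nn h2 hα (hT _ _ h1 h)]) hg

theorem Ucl_comm {g g' : Aut K} (hg : g ∈ Ucl K T) (hg' : g' ∈ Ucl K T) : g * g' = g' * g := by
  refine Ucl_induction (p := fun g' => g * g' = g' * g) (by simp) (fun β t g' h1 h2 _ h3 => ?_) hg'
  have := conj_X (Ucl_aut hg) h2 h2 (c := 1) (by rw [Ucl_fix hT hg h1 h2, one_smul]) t
  rw [one_mul] at this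
  rw [← mul_assoc, mul_inv_eq_iff_eq_mul.1 this, mul_assoc, h3, mul_assoc]

theorem Ucl_sq (h2 : (2 : K) = 0) {g : Aut K} (hg : g ∈ Ucl K T) : g * g = 1 := by
  refine Ucl_induction (p := fun g => g * g = 1) (by simp) (fun β t g h1 _ hg h3 => ?_) hg
  rw [mul_assoc, ← mul_assoc g, Ucl_comm hT hg (X_mem_Ucl h1 t), mul_assoc, h3, mul_one, X_add,
    ← two_mul, h2, zero_mul, X_zero]

theorem Ucl_kill {T' : Lat → Prop} {μ : Lat} (hμ : ip μ μ = 2) (h : T μ)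
    (h' : ∀ ν, T' ν → T ν ∧ ip μ ν = 1) (s : K) {g g' : Aut K} (hg : g ∈ Ucl K T')
    (hg' : g' ∈ Ucl K T) : Nn g' * (Nn (X μ s) * Nn g) = 0 := by
  refine LinearMap.ext fun v => ?_
  change Nn g' (Nn (X μ s) (g v - v)) = 0
  refine Ucl_induction (p := fun g => Nn g' (Nn (X μ s) (g v - v)) = 0) (by simp)
    (fun β t g h1 h2 _ h3 => ?_) hg
  rw [LinearEquiv.mul_apply, ← sub_add_sub_cancel _ (g v), map_add, map_add, h3, add_zero,
    ← Nn_apply (X β t), NN_one hμ h2 (h' β h1).2, Ww_apply]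
  simp [Nn_apply, Ucl_fix hT hg' h hμ, Ucl_fix hT hg' (h' β h1).1 h2]

end comm

def ipL (θ : Lat) : Lat →+ ℤ := AddMonoidHom.mk' (fun x => ip x θ) fun x y => ip_add_left x y θ

theorem ipL_apply (θ x : Lat) : ipL θ x = ip x θ := rfl

theorem van_top {θ : Lat} (hθ : ip θ θ = 2) {v : L K} (h : van (fun β => ip β θ ≤ 2) v) : v = 0 :=
  L_eq (h.2 (by simp [ip_zero_left])) fun β hβ => by
    rw [h.1 β (ip_le_two hβ hθ), map_zero]

theorem van_bot {θ : Lat} (hθ : ip θ θ = 2) (v : L K) :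
    van (fun β => ip β θ < -1) (v - co (-θ) v • e (-θ)) := by
  refine ⟨fun β h => ?_, fun h => by simp [ip_zero_left] at h⟩
  replace h : ip β θ < -1 := h
  by_cases hβ : ip β β = 2
  · rcases ip_cases hθ hβ with rfl | h1 | h1
    · simp [co_e_self hβ]
    · rw [ip_comm] at h; omega
    · rw [ip_comm] at h; omega
  · exact co_of_not hβ _

theorem four {θ : Lat} (hθ : ip θ θ = 2) {A : Lat → Prop} (hA : ∀ α, A α → 1 ≤ ip α θ)
    {g1 g2 g3 g4 : Aut K} (h1 : g1 ∈ Ucl K A) (h2 : g2 ∈ Ucl K A) (h3 : g3 ∈ Ucl K A)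
    (h4 : g4 ∈ Ucl K A) (h : Nn g1 (Nn g2 (Nn g3 (Nn g4 (e (-θ))))) = e θ) :
    Nn g1 * Nn g2 * Nn g3 * Nn g4 = (co (-θ)).smulRight (e θ) := by
  refine LinearMap.ext fun v => ?_
  have k : ∀ (k : ℤ) {g : Aut K} (_ : g ∈ Ucl K A) {v : L K}, van (fun β => ip β θ < k) v →
      van (fun β => ip β θ < k + 1) (Nn g v) := fun k g hg v hv =>
    (van_lin (ipL θ) k (fun α h _ => hA α h) hv hg).mono fun β h => by rw [ipL_apply]; omega
  have h5 := van_top hθ ((k _ h1 (k _ h2 (k _ h3 (k _ h4 (van_bot hθ v))))).mono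
    fun β h => by omega)
  simp only [map_sub, map_smul, h, sub_eq_zero] at h5
  exact h5

noncomputable def bt (g : Aut K) (x y : L K) : K := gf x (g y) + gf y (g x)

def g0 : Lat := v8 1 1 2 3 2 1 0 0
def g3 : Lat := v8 0 1 0 1 0 0 0 0
def g4 : Lat := v8 0 1 1 1 1 0 0 0

def T6s (α : Lat) : Prop := α = th 6 ∨ α = g0 ∨ α = k0 ∨ α = k1 ∨ α = g3 ∨ α = g4

theorem T6s_ip (α β : Lat) (h1 : T6s α) (h2 : T6s β) : 0 ≤ ip α β := by
  rw [ip_x]
  rcases h1 with rfl | rfl | rfl | rfl | rfl | rfl <;>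
    rcases h2 with rfl | rfl | rfl | rfl | rfl | rfl <;> decide

namespace Cfg

variable (c : Cfg K)

/-- The fixed field of `τ` has two elements. -/
def Q2 : Prop := ∀ t, c.τ t = t → t = 0 ∨ t = 1

/-- Not of type `F₄`. -/
def NS : Prop := ¬ (c.b = true ∧ ∀ t, c.τ t = t)

/-- Long roots. -/
def Lg (α : Lat) : Prop := c.R α ∧ sg c.b α = α

def TI (b : Aut K) (φ : En K) : Prop :=
  (∀ v ∈ c.V, φ v ∈ c.V) ∧ ∀ b', c.Cj b b' → TW c.V (φ * b'.toLinearMap) = 0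

def BZ (g : Aut K) : Prop := ∀ p ∈ c.G, ∀ μ ν, c.Lg μ → c.Lg ν → ip μ ν = 1 →
  bt g (p (e μ)) (p (e ν)) = 0

variable {c}

theorem Q2.two (hq : c.Q2) : (2 : K) = 0 := by
  rcases hq 2 (map_ofNat c.τ 2) with h | h
  · exact h
  · exact absurd (by linear_combination h : (1 : K) = 0) one_ne_zero

theorem Q2.eps (hq : c.Q2) (x y : Lat) : (eps x y : K) = 1 := by
  rcases eps_cases x y with h | h <;> rw [h]
  · exact Int.cast_one
  · push_cast; linear_combination -hq.two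

theorem Q2.omega (hq : c.Q2) (hn : c.NS) (hb : c.b = true) : ∃ t, c.τ t = t + 1 := by
  obtain ⟨t, ht⟩ : ∃ t, c.τ t ≠ t := by
    by_contra h; push Not at h; exact hn ⟨hb, h⟩
  refine ⟨t, ?_⟩
  rcases hq (t + c.τ t) (by rw [map_add, c.ττ, add_comm]) with h | h
  · exact absurd (by linear_combination h - t * hq.two) ht
  · linear_combination h - t * hq.two

theorem six_le : 6 ≤ c.n := by
  rcases c.ok with ⟨_, _, h | h | h⟩ | ⟨_, h, _⟩ <;> omega

theorem R6' {x : Lat} (h : ipx x x = 2 ∧ Sp 6 x) : c.R x :=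
  ⟨rt h.1, fun j hj => h.2 j (six_le.trans hj)⟩

theorem Lg6 {x : Lat} (h : ipx x x = 2 ∧ Sp 6 x ∧ sg true x = x) : c.Lg x :=
  ⟨R6' ⟨h.1, h.2.1⟩, by
    cases c.b
    · exact sg_false x
    · exact h.2.2⟩

theorem Lg.neg {α : Lat} (h : c.Lg α) : c.Lg (-α) := ⟨h.1.neg, by rw [sg_neg, h.2]⟩

theorem Lg.X_mem {α : Lat} (h : c.Lg α) : X α 1 ∈ c.G :=
  Y_fix h.2 (1 : K) ▸ Y_mem h.1 (Al_one _)

theorem Dop_eq {g : Aut K} (h2 : g * g = 1) (φ : En K) :
    Dop (Nn g) φ = g.toLinearMap * φ * (g⁻¹).toLinearMap - φ := by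
  rw [inv_eq_of_mul_eq_one_left h2, Dop, Nn]
  simp only [sub_mul, mul_sub, one_mul, mul_one]; abel

theorem TW_conj {g b : Aut K} (hg : g ∈ c.G) (hb : b ∈ c.G) {φ : En K} (hφ : ∀ v ∈ c.V, φ v ∈ c.V) :
    TW c.V (g.toLinearMap * φ * (g⁻¹).toLinearMap * b.toLinearMap) =
      TW c.V (φ * (g⁻¹ * b * g⁻¹⁻¹).toLinearMap) := by
  rw [mul_assoc, mul_assoc, TW_comm (g := φ * ((g⁻¹).toLinearMap * b.toLinearMap))
    (fun v hv => G_mem hg hv) (fun v hv => hφ _ (G_mem (inv_mem hg) (G_mem hb hv))), inv_inv]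
  rfl

theorem TI.D {b g : Aut K} (hb : b ∈ c.G) (hg : g ∈ c.G) (h2 : g * g = 1) {φ : En K}
    (h : c.TI b φ) : c.TI b (Dop (Nn g) φ) := by
  rw [Dop_eq h2]
  refine ⟨fun v hv => sub_mem (G_mem hg (h.1 _ (G_mem (inv_mem hg) hv))) (h.1 v hv),
    fun b' hb' => ?_⟩
  rw [sub_mul, map_sub, TW_conj hg (hb'.mem hb) h.1, h.2 _ hb',
    h.2 _ (hb'.trans ⟨_, inv_mem hg, rfl⟩), sub_zero]

theorem SC.TI {a b a' g : Aut K} (h : c.SC a b) (ha : a ∈ c.G) (hb : b ∈ c.G) (ha' : c.Cj a a')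
    (hg : g ∈ c.G) (h2 : g * g = 1) : c.TI b (Dop (Nn g) a'.toLinearMap) := by
  obtain ⟨k, hk⟩ := h.trace le_rfl (fun g hg v hv => G_mem hg hv)
  have h1 : ∀ v ∈ c.V, a'.toLinearMap v ∈ c.V := fun v hv => G_mem (ha'.mem ha) hv
  rw [Dop_eq h2]
  refine ⟨fun v hv => sub_mem (G_mem hg (h1 _ (G_mem (inv_mem hg) hv))) (h1 v hv),
    fun b' hb' => ?_⟩
  rw [sub_mul, map_sub, TW_conj hg (hb'.mem hb) h1]
  exact sub_eq_zero.2 ((hk _ _ ha' (hb'.trans ⟨_, inv_mem hg, rfl⟩)).trans (hk _ _ ha' hb').symm)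

structure Pair (c : Cfg K) (g1 g2 : Aut K) : Prop where
  h1 : g1 ∈ c.G
  h2 : g2 ∈ c.G
  u1 : g1 ∈ Ucl K fun β => β = k0 ∨ β = k1
  u2 : g2 ∈ Ucl K fun β => β = k0 ∨ β = k1
  h3 : Nn g1 (Nn g2 (e (-ts))) = e (th 6)

theorem exists_pair (hq : c.Q2) (hn : c.NS) : ∃ g1 g2, Pair c g1 g2 := by
  have r0 : c.R k0 := R6' (by decide)
  have r1 : c.R k1 := R6' (by decide)
  have rt' : c.R (-ts) := R6' (by decide)
  have ru : c.R eu := R6' (by decide)
  have re : c.R et := R6' (by decide)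
  have rθ : c.R (th 6) := R6' (by decide)
  have a1 : ∀ t : K, X k1 t (e (-ts)) = e (-ts) + t • e eu := fun t => by
    rw [X_e_m1 r1.1 rt'.1 (by rw [ip_x]; decide), hq.eps, mul_one, show k1 + -ts = eu by decide]
  have a2 : ∀ t : K, X k0 t (e (-ts)) = e (-ts) + t • e et := fun t => by
    rw [X_e_m1 r0.1 rt'.1 (by rw [ip_x]; decide), hq.eps, mul_one, show k0 + -ts = et by decide]
  have a3 : ∀ t : K, X k0 t (e eu) = e eu + t • e (th 6) := fun t => by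
    rw [X_e_m1 r0.1 ru.1 (by rw [ip_x]; decide), hq.eps, mul_one, show k0 + eu = th 6 by decide]
  have a4 : ∀ t : K, X k1 t (e et) = e et + t • e (th 6) := fun t => by
    rw [X_e_m1 r1.1 re.1 (by rw [ip_x]; decide), hq.eps, mul_one, show k1 + et = th 6 by decide]
  have a5 : ∀ t : K, X k1 t (e eu) = e eu := X_e_nn r1.1 ru.1 (by rw [ip_x]; decide)
  have a6 : ∀ t : K, X k0 t (e et) = e et := X_e_nn r0.1 re.1 (by rw [ip_x]; decide)
  have a7 : ∀ t : K, X k0 t (e (th 6)) = e (th 6) := X_e_nn r0.1 rθ.1 (by rw [ip_x]; decide)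
  have a8 : ∀ t : K, X k1 t (e (th 6)) = e (th 6) := X_e_nn r1.1 rθ.1 (by rw [ip_x]; decide)
  cases hb : c.b
  · refine ⟨X k0 1, X k1 1, Lg.X_mem ⟨r0, by rw [hb, sg_false]⟩, Lg.X_mem ⟨r1, by rw [hb, sg_false]⟩,
      X_mem_Ucl (Or.inl rfl) _, X_mem_Ucl (Or.inr rfl) _, ?_⟩
    simp [Nn_apply, a1, a3]
  · obtain ⟨t, ht⟩ := hq.omega hn hb
    have hs : sg c.b k0 = k1 := by rw [hb]; decide
    have hY : ∀ t, c.Y k0 t ∈ c.G := fun t => Y_mem r0 fun h => absurd h (k0_mov hb)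
    have hU : ∀ t, c.Y k0 t ∈ Ucl K fun β => β = k0 ∨ β = k1 := fun t =>
      Y_mem_Ucl (Or.inl rfl) (Or.inr hs) t
    refine ⟨_, _, hY 1, hY t, hU 1, hU t, ?_⟩
    simp only [Nn_apply, Y_mov (k0_mov hb), hs, LinearEquiv.mul_apply, map_add, map_sub, map_smul,
      a1, a2, a3, a4, a5, a6, a7, a8, map_one, ht]
    have := hq.two
    match_scalars <;> first | ring1 | linear_combination t * this

theorem Pair.mem {g1 g2 : Aut K} (H : Pair c g1 g2) (i : Fin 5) :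
    ![X g0 1, g1, g2, X g3 1, X g4 1] i ∈ c.G ∧
    ![X g0 1, g1, g2, X g3 1, X g4 1] i ∈ Ucl K fun β => T6s β ∧ ip (th 6) β = 1 := by
  have k : ∀ g ∈ Ucl K fun β => β = k0 ∨ β = k1,
      g ∈ Ucl K fun β => T6s β ∧ ip (th 6) β = 1 := fun g hg =>
    Ucl_mono (by rintro β _ (rfl | rfl) <;> rw [ip_x] <;> simp [T6s] <;> decide) hg
  fin_cases i
  · exact ⟨(Lg6 (x := g0) (by decide)).X_mem,
      X_mem_Ucl (β := g0) ⟨by simp [T6s], by rw [ip_x]; decide⟩ _⟩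
  · exact ⟨H.h1, k _ H.u1⟩
  · exact ⟨H.h2, k _ H.u2⟩
  · exact ⟨(Lg6 (x := g3) (by decide)).X_mem,
      X_mem_Ucl (β := g3) ⟨by simp [T6s], by rw [ip_x]; decide⟩ _⟩
  · exact ⟨(Lg6 (x := g4) (by decide)).X_mem,
      X_mem_Ucl (β := g4) ⟨by simp [T6s], by rw [ip_x]; decide⟩ _⟩

theorem Pair.four (hq : c.Q2) {g1 g2 : Aut K} (H : Pair c g1 g2) :
    Nn g1 * Nn g2 * Nn (X g3 1) * Nn (X g4 1) = (co (-th 6)).smulRight (e (th 6)) := by
  have lθ : c.Lg (th 6) := Lg6 (by decide)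
  have l3 : c.Lg g3 := Lg6 (by decide)
  have l4 : c.Lg g4 := Lg6 (by decide)
  refine Exc.four lθ.1.1 (fun α h => by rw [ip_comm, h.2]) (H.mem 1).2 (H.mem 2).2 (H.mem 3).2
    (H.mem 4).2 ?_
  rw [Nn_apply (X g4 1), X_e_m1 l4.1.1 lθ.1.neg.1 (by rw [ip_x]; decide), add_sub_cancel_left,
    hq.eps, mul_one, one_smul, Nn_apply (X g3 1), X_e_m1 l3.1.1 (rt (by decide))
    (by rw [ip_x]; decide), add_sub_cancel_left, hq.eps, mul_one, one_smul,
    show g3 + (g4 + -th 6) = -ts by decide, H.h3]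

theorem star_of (hq : c.Q2) (hn : c.NS) {a b : Aut K} (h : c.SC a b) (ha : a ∈ c.G) (hb : b ∈ c.G)
    {a' b' : Aut K} (ha' : c.Cj a a') (hb' : c.Cj b b') :
    gf (e (th 6)) (a' (e (th 6))) * bt b' (e (th 6)) (e g0) +
      bt a' (e (th 6)) (e g0) * gf (e (th 6)) (b' (e (th 6))) = 0 := by
  obtain ⟨g1, g2, H⟩ := exists_pair hq hn
  have lθ : c.Lg (th 6) := Lg6 (by decide)
  have l0 : c.Lg g0 := Lg6 (by decide)
  let g : Fin 5 → Aut K := ![X g0 1, g1, g2, X g3 1, X g4 1]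
  have hA : ∀ i, g i ∈ Ucl K fun β => T6s β ∧ ip (th 6) β = 1 := fun i => (H.mem i).2
  have hT : ∀ i, g i ∈ Ucl K T6s := fun i => Ucl_mono (fun _ _ h => h.1) (hA i)
  have hG : ∀ i, g i ∈ c.G := fun i => (H.mem i).1
  have hP : X (th 6) 1 ∈ Ucl K T6s := X_mem_Ucl (Or.inl rfl) _
  have hc : ∀ i j, Nn (g i) * Nn (g j) = Nn (g j) * Nn (g i) := fun i j =>
    Nn_comm (Ucl_comm T6s_ip (hT i) (hT j))
  have hc' : ∀ i, Nn (X (th 6) 1) * Nn (g i) = Nn (g i) * Nn (X (th 6) 1) := fun i =>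
    Nn_comm (Ucl_comm T6s_ip hP (hT i))
  have e2 : ∀ i j, Nn (g j) * (Nn (X (th 6) 1) * Nn (g i)) = 0 := fun i j =>
    Ucl_kill T6s_ip lθ.1.1 (Or.inl rfl) (fun _ h => h) 1 (hA i) (hT j)
  have k : ∀ β, β = k0 ∨ β = k1 → T6s β ∧ ip g0 β = 1 := by
    rintro β (rfl | rfl) <;> rw [ip_x] <;> simp [T6s] <;> decide
  have e5 : ∀ j, Nn (g j) * (Nn (g 0) * Nn (g 1)) = 0 := fun j =>
    Ucl_kill T6s_ip l0.1.1 (by simp [T6s]) k 1 H.u1 (hT j)
  have e6 : ∀ j, Nn (g j) * (Nn (g 0) * Nn (g 2)) = 0 := fun j =>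
    Ucl_kill T6s_ip l0.1.1 (by simp [T6s]) k 1 H.u2 (hT j)
  have e7 := six (Nn (X (th 6) 1)) (fun i => Nn (g i)) a'.toLinearMap
    (fun i j => by rw [hc i j, ← mul_assoc, hc', mul_assoc, e2]) (fun i j => by rw [← hc', e2])
    (fun j => by rw [hc 1 j, ← mul_assoc, hc 0 j, mul_assoc, e5])
    (fun j => by rw [hc 2 j, ← mul_assoc, hc 0 j, mul_assoc, e6])
    (fun j => by rw [hc 1 0, e5]) (fun j => by rw [hc 2 0, e6])
  have s : ∀ i, g i * g i = 1 := fun i => Ucl_sq T6s_ip hq.two (hT i)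
  have e8 := (((((h.TI ha hb ha' lθ.X_mem (Ucl_sq T6s_ip hq.two hP)).D hb (hG 0) (s 0)).D hb
    (hG 1) (s 1)).D hb (hG 2) (s 2)).D hb (hG 3) (s 3)).D hb (hG 4) (s 4)
  have e9 : Nn (g 1) * Nn (g 2) * Nn (g 3) * Nn (g 4) = _ := H.four hq
  have e10 : Nn (X (th 6) 1) * Nn (g 0) = Ww (th 6) g0 := LinearMap.ext fun v => by
    have := NN_one lθ.1.1 l0.1.1 (by rw [ip_x]; decide) (1 : K) 1 v
    rwa [one_mul, one_smul] at this
  rw [e7, ← hc' 0, e10, show Nn (g 4) * Nn (g 3) * Nn (g 2) * Nn (g 1) =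
    Nn (g 1) * Nn (g 2) * Nn (g 3) * Nn (g 4) by
      rw [hc 4 3, mul_assoc, mul_assoc, hc 2 1, ← mul_assoc (Nn (g 4)), hc 4 1, mul_assoc,
        hc 4 2, ← mul_assoc, hc 3 1, mul_assoc, ← mul_assoc (Nn (g 3)), hc 3 2]
      simp only [mul_assoc], e9] at e8
  have e11 := e8.2 b' hb'
  have hV : Ww (th 6) g0 (a' (e (th 6))) ∈ c.V :=
    add_mem (c.V.smul_mem _ (e_mem l0.1.2)) (c.V.smul_mem _ (e_mem lθ.1.2))
  rw [add_mul, map_add, show Ww (th 6) g0 * a'.toLinearMap * (co (-th 6)).smulRight (e (th 6)) *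
      b'.toLinearMap = ((co (-th 6)) ∘ₗ b'.toLinearMap).smulRight (Ww (th 6) g0 (a' (e (th 6))))
      from LinearMap.ext fun v => by simp,
    show (co (-th 6)).smulRight (e (th 6)) * a'.toLinearMap * Ww (th 6) g0 * b'.toLinearMap =
      ((co (-th 6)) ∘ₗ a'.toLinearMap ∘ₗ Ww (th 6) g0 ∘ₗ b'.toLinearMap).smulRight (e (th 6))
      from LinearMap.ext fun v => by simp, TW_rank _ hV, TW_rank _ (e_mem lθ.1.2)] at e11
  simp only [LinearMap.comp_apply, LinearEquiv.coe_coe, Ww_apply, map_add, map_smul,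
    smul_eq_mul] at e11
  simp only [bt, gf_e lθ.1.1, gf_e l0.1.1]
  linear_combination e11

end Cfg

end Pool.Agent.MP_db74b1_al.Exc

end

section

set_option autoImplicit false

namespace Pool.Agent.MP_db74b1_al.Exc

variable {K : Type} [Field K]

def gam : ℕ → Lat
  | 6 => g0
  | 7 => v8 1 2 3 4 3 2 1 0
  | _ => v8 2 3 4 6 5 4 3 1

def bet : ℕ → Lat
  | 6 => ts
  | 7 => v8 0 1 1 2 2 2 1 0
  | _ => v8 2 2 3 4 3 2 1 0

def allL : List Lat := posL ++ posL.map Neg.neg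

theorem mem_allL {x : Lat} (h : ip x x = 2) : x ∈ allL := by
  rcases root_dich h with h1 | h1
  · exact List.mem_append_left _ (mem_posL h h1)
  · exact List.mem_append_right _
      (List.mem_map.2 ⟨-x, mem_posL (root_neg h) (neg_nonneg.2 h1), neg_neg x⟩)

def domP (n : ℕ) (b : Bool) (x : Lat) : Prop :=
  Sp n x → (∀ i, sg b x i = x i) → (∀ i : Fin 8, i.1 < n → cv (th n) i = 0 → 0 ≤ sv b x i) →
    (ipx x (th n) = 1 → ∀ i, x i = gam n i) ∧ (ipx x (th n) = 0 → ∀ i, x i = bet n i)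

instance (n : ℕ) (b : Bool) (x : Lat) : Decidable (domP n b x) := by unfold domP; infer_instance

theorem dom6 : ∀ x ∈ allL, domP 6 false x := by decide +kernel
theorem dom6t : ∀ x ∈ allL, domP 6 true x := by decide +kernel
theorem dom7 : ∀ x ∈ allL, domP 7 false x := by decide +kernel
theorem dom8 : ∀ x ∈ allL, domP 8 false x := by decide +kernel

def zerP (n : ℕ) (x : Lat) : Prop :=
  Sp n x → ipx x (th n) = 0 → ∃ y ∈ posL, ipx y y = 2 ∧ Sp n y ∧ ipx y (th n) = 1 ∧ ipx y x = 1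

instance (n : ℕ) (x : Lat) : Decidable (zerP n x) := by unfold zerP; infer_instance

theorem zer6 : ∀ x ∈ allL, zerP 6 x := by decide +kernel
theorem zer7 : ∀ x ∈ allL, zerP 7 x := by decide +kernel
theorem zer8 : ∀ x ∈ allL, zerP 8 x := by decide +kernel

theorem short1 : ∀ x ∈ allL, Sp 6 x → ipx x (th 6) = 1 → (∀ i, sg true x i = x i) ∨
    ∃ y ∈ posL, ipx y y = 2 ∧ Sp 6 y ∧ ipx y (th 6) = 1 ∧ ipx y x = 1 ∧ ∀ i, sg true y i = y i := by
  decide +kernel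

theorem fix_add {g : Aut K} (hg : g ∈ AutG K) {α β : Lat} (hα : ip α α = 2) (hβ : ip β β = 2)
    (h : ip α β = -1) (h1 : g (e α) = e α) (h2 : g (e β) = e β) : g (e (α + β)) = e (α + β) := by
  have := aut_step hg hα hβ hα hβ h h h1 (c := 1) (by rw [h2, one_smul])
  rwa [one_mul, eps_cast_mul_self, one_smul] at this

theorem gf_zero {θ : Lat} {v w : L K} (hv : van (fun β => ip β θ ≤ 0) v)
    (hw : van (fun β => ip β θ ≤ 0) w) : gf v w = 0 := by
  rw [gf, LinearMap.sub_apply, LinearMap.sum_apply, LinearMap.sum_apply, LinearMap.sub_apply,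
    LinearMap.sum_apply, LinearMap.sum_apply, Finset.sum_eq_zero, Finset.sum_eq_zero, sub_zero]
  · intro i _
    simp [hv.2 (by simp [ip_zero_left])]
  · intro α _
    by_cases h : ip α.1 θ ≤ 0
    · simp [hv.1 _ h]
    · simp [hw.1 (-α.1) (show ip (-α.1) θ ≤ 0 by rw [ip_neg_left]; omega)]

/-- The degree one part for the grading by `θ`. -/
def V1 (θ : Lat) (v : L K) : Prop := van (fun β => ip β θ ≠ 1) v

theorem V1.co {θ : Lat} {v : L K} (h : V1 θ v) (β : Lat) (hβ : ip β θ ≠ 1) : co β v = 0 := h.1 β hβ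

theorem V1.fst {θ : Lat} {v : L K} (h : V1 θ v) : v.1 = 0 := h.2 (by simp [ip_zero_left])

theorem V1_e {θ β : Lat} (h : ip β θ = 1) : V1 θ (e β : L K) := van_e (by simp [h])

theorem neg_eq2 (h2 : (2 : K) = 0) (v : L K) : -v = v := by
  rw [neg_eq_iff_add_eq_zero, ← two_smul K, h2, zero_smul]

theorem co_br_hv (y β : Lat) (v : L K) : co β (br (hv y) v) = ip y β * co β v := by
  by_cases h : ip β β = 2
  · rw [br_hv, co_of_root h, co_of_root h]; simp [dd, hp_hv]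
  · simp [co_of_not h]

section
variable {θ : Lat} (hθ : ip θ θ = 2) (h2 : (2 : K) = 0)
include hθ h2

theorem V1_iff (v : L K) : V1 θ v ↔ br (hv θ) v = v ∧ ad θ v = 0 := by
  have h0 : ip 0 θ ≠ 1 := by simp [ip_zero_left]
  constructor
  · intro h
    refine ⟨L_eq (by rw [br_hv, h.2 h0]; rfl) fun β hβ => ?_, L_eq ?_ fun β hβ => ?_⟩
    · rw [co_br_hv]
      by_cases h1 : ip β θ = 1
      · rw [ip_comm, h1]; simp
      · rw [h.1 β h1, mul_zero]
    · ext i; rw [ad_fst, h.co (-θ) (by rw [ip_neg_left]; omega)]; simp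
    · rw [co_ad, if_pos hβ, map_zero]
      split_ifs with h1
      · simp [hp_apply, h.2 h0]
      · rw [h.co (β - θ) (by have := ip_le_one hβ hθ h1; rw [ip_sub_left]; omega), mul_zero]
  · rintro ⟨h, h'⟩
    refine ⟨fun β h1 => ?_, fun _ => by rw [← h, br_hv]; rfl⟩
    replace h1 : ip β θ ≠ 1 := h1
    by_cases hβ : ip β β = 2
    swap
    · exact co_of_not hβ _
    have h3 := congrArg (co β) h
    rw [co_br_hv] at h3
    by_cases h4 : ip θ β = -1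
    · have h5 := congrArg (co (θ + β)) h'
      rw [co_ad, if_pos ((root_add hθ hβ).2 h4), if_neg (by simpa using root_ne_zero hβ),
        add_sub_cancel_left, map_zero] at h5
      exact (mul_eq_zero.1 h5).resolve_left (eps_ne _ _)
    · have h5 : ip θ β = -2 ∨ ip θ β = 0 ∨ ip θ β = 2 := by
        have h6 := ip_le_two hθ hβ
        have h7 := ip_le_two hθ (root_neg hβ)
        rw [ip_neg_right] at h7
        rw [ip_comm] at h1
        omega
      rcases h5 with h5 | h5 | h5 <;> rw [h5] at h3 <;> push_cast at h3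
      · linear_combination -h3 - co β v * h2
      · linear_combination -h3
      · linear_combination -h3 + co β v * h2

theorem V1.aut {g : Aut K} (hg : g ∈ AutG K) (h1 : g (e θ) = e θ) (h3 : g (e (-θ)) = e (-θ))
    {v : L K} (h : V1 θ v) : V1 θ (g v) := by
  rw [V1_iff hθ h2] at h ⊢
  have h4 := aut_hv hg hθ hθ (c := 1) (d := 1) (by rw [h1, one_smul]) (by rw [h3, one_smul])
  exact ⟨by rw [← h4, ← hg.1, h.1], by rw [← br_e hθ, ← h1, ← hg.1, br_e hθ, h.2, map_zero]⟩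

theorem V1.AA {v : L K} (h : V1 θ v) : ad θ (ad (-θ) v) = v := by
  have h1 := jac_ee hθ (root_neg hθ) v
  rw [V1_iff hθ h2] at h
  rwa [h.2, map_zero, sub_zero, ad_e_m2 hθ, map_neg, LinearMap.neg_apply, h.1,
    neg_eq2 h2] at h1

theorem V1.X0 {v : L K} (h : V1 θ v) (t : K) : X θ t v = v := by
  rw [X_apply hθ, ((V1_iff hθ h2 v).1 h).2, h.co (-θ) (by rw [ip_neg_left]; omega)]; simp

theorem V1.X1 {v : L K} (h : V1 θ v) (t : K) : X θ t (ad (-θ) v) = ad (-θ) v + t • v := by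
  rw [X_apply hθ, h.AA hθ h2, co_ad, if_pos (root_neg hθ), if_pos rfl, hp_apply,
    h.2 (by simp [ip_zero_left])]
  simp

theorem V1.n0 {v : L K} (h : V1 θ v) : N1 θ 1 v = ad (-θ) v := by
  rw [N1, LinearEquiv.mul_apply, LinearEquiv.mul_apply, h.X0 hθ h2, X_apply (root_neg hθ), neg_neg,
    h.co θ (by omega), map_add, map_add, map_smul, h.X0 hθ h2, h.X1 hθ h2]
  have := neg_eq2 h2 v
  simp only [inv_one, one_smul, mul_zero, zero_smul, map_zero, add_zero]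
  linear_combination (exp := 1) -this

theorem V1.n1 {v : L K} (h : V1 θ v) : N1 θ 1 (ad (-θ) v) = v := by
  have h3 : X (-θ) 1 (ad (-θ) v) = ad (-θ) v := by
    rw [X_apply (root_neg hθ), ad_ad (root_neg hθ), co_neg_ad (root_neg hθ), h2]; simp
  rw [N1, LinearEquiv.mul_apply, LinearEquiv.mul_apply, h.X1 hθ h2, inv_one, map_add, h3, one_smul,
    X_apply (root_neg hθ), neg_neg, h.co θ (by omega)]
  have := neg_eq2 h2 (ad (-θ) v)
  rw [show ad (-θ) v + (v + (1 : K) • ad (-θ) v + ((1 : K) ^ 2 * 0) • e (-θ)) = v by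
    simp only [one_smul, mul_zero, zero_smul]; linear_combination (exp := 1) -this, h.X0 hθ h2]

omit hθ h2 in
theorem V1.ge {v : L K} (h : V1 θ v) : van (fun β => ip β θ ≤ 0) v :=
  h.mono fun β h => by omega

end

namespace Cfg

variable {c : Cfg K}

theorem Mon.Lg {m : Aut K} {w : W} (h : c.Mon m w) {α : Lat} (hα : c.Lg α) : c.Lg (w α) :=
  ⟨h.R hα.1, (h.fix_iff hα.1).2 hα.2⟩

theorem Q2.mon_e (hq : c.Q2) {m : Aut K} {w : W} (h : c.Mon m w) {α : Lat} (hα : c.Lg α) :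
    m (e α) = e (w α) := by
  obtain ⟨s, hs, h1⟩ := h.mono α hα.1.1
  rw [h1, (hq s (h.Al hα.1 hs h1 (h.Lg hα).2)).resolve_left hs, one_smul]

theorem th_Lg : c.Lg (th c.n) := ⟨c.th_R, c.th_sg⟩

theorem to_th {α : Lat} (hα : c.Lg α) : ∃ m w, c.Mon m w ∧ w α = th c.n := by
  refine root_top (p := fun α => sg c.b α = α → ∃ m w, c.Mon m w ∧ w α = th c.n)
    (fun _ => ⟨1, 1, Mon.one, rfl⟩)
    (fun hb => by rw [hb]; exact ⟨fun h => absurd h (by decide), fun h => absurd h (by decide)⟩)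
    (fun α i hi hα h h' => ?_) hα.1 hα.2
  obtain ⟨m, w, h1, h2⟩ := h (((n_Mon hi).fix_iff hα).2 h')
  exact ⟨_, _, h1.mul (n_Mon hi), h2⟩

theorem to_dom {β : Lat} (hβ : c.Lg β) : ∃ m w, c.Mon m w ∧ w (th c.n) = th c.n ∧
    (ip β (th c.n) = 1 → w β = gam c.n) ∧ (ip β (th c.n) = 0 → w β = bet c.n) := by
  induction' hn : (ht (th c.n) - ht β).toNat using Nat.strong_induction_on with n ih generalizing β
  by_cases h : ∀ i : Fin 8, i.1 < c.n → cv (th c.n) i = 0 → 0 ≤ sv c.b β i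
  · have h1 : domP c.n c.b β := by
      rcases c.ok with ⟨hb, _, h | h | h⟩ | ⟨hb, h, _⟩ <;> rw [h, hb]
      exacts [dom6 β (mem_allL hβ.1.1), dom7 β (mem_allL hβ.1.1), dom8 β (mem_allL hβ.1.1),
        dom6t β (mem_allL hβ.1.1)]
    have h2 := h1 hβ.1.2 (congrFun hβ.2) h
    rw [← ip_x] at h2
    exact ⟨1, 1, Mon.one, rfl, fun h => funext (h2.1 h), fun h => funext (h2.2 h)⟩
  · push Not at h
    obtain ⟨i, hi, h1, h2⟩ := h
    have h3 := (ht_wY hi β).2 h2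
    have h4 := (n_Mon hi).Lg hβ
    have h5 := h4.1.ht_le
    have h6 : c.wY (a i) (th c.n) = th c.n := by
      rw [← ip_a] at h1
      by_cases h7 : sg c.b (a i) = a i
      · rw [wY_fix (R_a hi) h7, h1]; simp
      · rw [wY_mov (R_a hi) h7, ← c.ip_sg' c.th_R.2 (Sp_a hi), c.th_sg, h1]; simp
    obtain ⟨m, w, k1, k2, k3⟩ := ih _ (by omega) h4 rfl
    have h7 : ip (c.wY (a i) β) (th c.n) = ip β (th c.n) := by
      rw [← (n_Mon hi).iso β, h6]
    rw [h7] at k3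
    exact ⟨_, _, k1.mul (n_Mon hi), by rw [LinearEquiv.mul_apply, h6, k2], k3⟩

theorem to_pair {α β : Lat} (hα : c.Lg α) (hβ : c.Lg β) : ∃ m w, c.Mon m w ∧ w α = th c.n ∧
    (ip β α = 1 → w β = gam c.n) ∧ (ip β α = 0 → w β = bet c.n) := by
  obtain ⟨m, w, h1, h2⟩ := to_th hα
  obtain ⟨m', w', h3, h4, h5⟩ := to_dom (h1.Lg hβ)
  rw [← h2, h1.iso] at h5
  exact ⟨_, _, h3.mul h1, by rw [LinearEquiv.mul_apply, h2, h4], h5⟩

theorem gam_Lg : c.Lg (gam c.n) ∧ ip (gam c.n) (th c.n) = 1 := by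
  rw [Lg, R, ip_x, ip_x]
  rcases c.ok with ⟨hb, _, h | h | h⟩ | ⟨hb, h, _⟩ <;> rw [h, hb] <;> decide

theorem bet_Lg : c.Lg (bet c.n) ∧ ip (bet c.n) (th c.n) = 0 := by
  rw [Lg, R, ip_x, ip_x]
  rcases c.ok with ⟨hb, _, h | h | h⟩ | ⟨hb, h, _⟩ <;> rw [h, hb] <;> decide

theorem bt_conj {g p : Aut K} (hp : p ∈ c.G) (x y : L K) :
    bt (p⁻¹ * g * p⁻¹⁻¹) x y = bt g (p x) (p y) := by
  simp only [bt, inv_inv, LinearEquiv.mul_apply, gf_inv (G_aut (inv_mem hp))]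

theorem BZ.conj {g g' : Aut K} (h : c.BZ g) (h' : c.Cj g g') : c.BZ g' := by
  obtain ⟨p, hp, rfl⟩ := h'
  intro q hq μ ν hμ hν h1
  have := bt_conj (g := g) (inv_mem hp) (q (e μ)) (q (e ν))
  rw [inv_inv] at this
  rw [this]
  exact h _ (mul_mem (inv_mem hp) hq) μ ν hμ hν h1

theorem BZ.inv {g : Aut K} (hg : g ∈ c.G) (h : c.BZ g) : c.BZ g⁻¹ := fun q hq μ ν hμ hν h1 => by
  have := h q hq μ ν hμ hν h1
  rwa [bt, gf_inv (G_aut hg), gf_inv (G_aut hg), gf_comm, add_comm, gf_comm] at this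

theorem exists_q (hq : c.Q2) {g : Aut K} (h : ¬ c.QL g) {α : Lat} (hα : c.Lg α) :
    ∃ g', c.Cj g g' ∧ gf (e α) (g' (e α)) ≠ 0 := by
  unfold QL at h
  push Not at h
  obtain ⟨_, ⟨p, hp, r, rfl⟩, h⟩ := h
  obtain ⟨m, w, h1, h2⟩ := to_th hα
  have h3 := mul_mem hp h1.mem
  refine ⟨_, ⟨_, inv_mem h3, rfl⟩, fun h4 => h ?_⟩
  rw [inv_inv, LinearEquiv.mul_apply, LinearEquiv.mul_apply, gf_inv (G_aut (inv_mem h3)), inv_inv,
    LinearEquiv.mul_apply, hq.mon_e h1 hα, h2] at h4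
  simp [h4]

theorem SC.BZ (hq : c.Q2) (hn : c.NS) {a b : Aut K} (h : c.SC a b) (ha : a ∈ c.G) (hb : b ∈ c.G)
    (h1 : ¬ c.QL a) : c.BZ b := by
  have lθ : c.Lg (th 6) := Lg6 (by decide)
  have l0 : c.Lg g0 := Lg6 (by decide)
  have lδ : c.Lg (-Exc.a 3) := Lg6 (by decide)
  obtain ⟨a', ha', h2⟩ := exists_q hq h1 lθ
  have k : ∀ p ∈ c.G, gf (e (th 6)) (a' (e (th 6))) * bt b (p (e (th 6))) (p (e g0)) +
      bt a' (e (th 6)) (e g0) * gf (p (e (th 6))) (b (p (e (th 6)))) = 0 := fun p hp => by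
    have := star_of hq hn h ha hb ha' ⟨_, inv_mem hp, rfl⟩
    rwa [bt_conj hp, inv_inv, LinearEquiv.mul_apply, LinearEquiv.mul_apply,
      gf_inv (G_aut (inv_mem hp)), inv_inv] at this
  have k2 : ∀ p ∈ c.G, bt b (p (e (th 6))) (p (e g0)) = 0 := fun p hp => by
    have hN := NY_Mon lδ.1 one_ne_zero (Al_one _)
    have e0 := k p hp
    have e1 := k _ (mul_mem hp lδ.X_mem)
    have e2 := k _ (mul_mem hp hN.mem)
    simp only [LinearEquiv.mul_apply] at e1 e2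
    rw [X_e_nn lδ.1.1 lθ.1.1 (by rw [ip_x]; decide), X_e_m1 lδ.1.1 l0.1.1 (by rw [ip_x]; decide),
      hq.eps, mul_one, one_smul] at e1
    rw [hq.mon_e hN lθ, hq.mon_e hN l0, wY_fix lδ.1 lδ.2, wY_fix lδ.1 lδ.2, ip_x, ip_x,
      show th 6 - ipx (th 6) (-Exc.a 3) • -Exc.a 3 = th 6 by decide,
      show g0 - ipx g0 (-Exc.a 3) • -Exc.a 3 = -Exc.a 3 + g0 by decide] at e2
    simp only [bt, map_add, LinearMap.add_apply] at e0 e1 e2 ⊢
    apply mul_left_cancel₀ h2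
    linear_combination e1 - e2
  intro p hp μ ν hμ hν h3
  obtain ⟨m, w, i1, i2, i3, _⟩ := to_pair hμ hν
  obtain ⟨m', w', j1, j2, j3, _⟩ := to_pair lθ l0
  have := k2 _ (mul_mem (mul_mem hp i1.inv.mem) j1.mem)
  simp only [LinearEquiv.mul_apply] at this
  rwa [hq.mon_e j1 lθ, hq.mon_e j1 l0, j2, j3 (by rw [ip_x]; decide), ← i3 (by rw [ip_comm, h3]),
    ← i2, ← hq.mon_e i1 hμ, ← hq.mon_e i1 hν, inv_app, inv_app] at this

end Cfg

end Pool.Agent.MP_db74b1_al.Exc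

end

section

set_option autoImplicit false

namespace Pool.Agent.MP_db74b1_al.Exc

variable {K : Type} [Field K]

namespace Cfg

variable {c : Cfg K}

theorem th_pos_ip {β : Lat} (hβ : c.R β) (h0 : 0 ≤ β) : 0 ≤ ip β (th c.n) := by
  rcases ip_cases hβ.1 c.th_R.1 with h1 | h1 | h1
  · exact absurd (h1 ▸ c.th_nonneg) (not_neg_nonneg hβ.1 h0)
  · have h2 := R.ht_le ⟨(root_add hβ.1 c.th_R.1).2 h1, hβ.2.add c.th_R.2⟩
    have h3 := ht_eq_one (th c.n) h0 hβ.1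
    omega
  · exact h1

theorem opp (hq : c.Q2) {g : Aut K} (hg : g ∈ c.G) (h : co (-th c.n) (g (e (th c.n))) ≠ 0) :
    ∃ u ∈ c.U, g (e (th c.n)) = u (e (-th c.n)) := by
  obtain ⟨u1, hu1, m, w, hm, u2, hu2, rfl⟩ := bruhat hg
  rw [LinearEquiv.mul_apply, LinearEquiv.mul_apply, U_th (U_P hu2), hq.mon_e hm th_Lg] at h ⊢
  refine ⟨u1, hu1, ?_⟩
  by_contra h1
  apply h
  have h2 := (hm.R c.th_R).neg.ht_le
  rw [ht_neg] at h2
  rw [co_lin htL (ht (w (th c.n))) (fun _ h1 h2 => root_ht_pos h2 h1.2) (van_e (lt_irrefl _))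
    (U_P hu1) (by rw [htL_apply, ht_neg]; omega), co_e_ne]
  exact fun h3 => h1 (by rw [h3])

variable (c) in
def QA (β : Lat) : Prop := Sp c.n β ∧ 1 ≤ ip β (th c.n)

theorem toQ {u : Aut K} (hu : u ∈ Ucl K c.Pos) :
    ∃ q ∈ Ucl K c.QA, u (e (-th c.n)) = q (e (-th c.n)) := by
  refine Ucl_induction (p := fun u => ∃ q ∈ Ucl K c.QA, u (e (-th c.n)) = q (e (-th c.n)))
    ⟨1, one_mem _, rfl⟩ (fun β t g h hβ _ ⟨q, h1, h2⟩ => ?_) hu
  have h3 := th_pos_ip ⟨hβ, h.1⟩ h.2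
  rw [LinearEquiv.mul_apply, h2]
  by_cases h4 : 1 ≤ ip β (th c.n)
  · exact ⟨_, mul_mem (X_mem_Ucl ⟨h.1, h4⟩ t) h1, rfl⟩
  · refine ⟨X β t * q * (X β t)⁻¹, Ucl_conj_X hβ (fun γ h5 _ => ?_) t h1, ?_⟩
    · have := h5.2
      exact ⟨fun h6 => by rw [h6, ip_neg_left] at this; omega,
        fun _ => ⟨h.1.add h5.1, by rw [ip_add_left]; omega⟩⟩
    · rw [LinearEquiv.mul_apply, LinearEquiv.mul_apply, X_inv,
        X_e_nn hβ c.th_R.neg.1 (by rw [ip_neg_right]; omega)]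

theorem Q_H (hq : c.Q2) {q : Aut K} (h : q ∈ Ucl K c.QA) {γ : Lat} (hγ : ip γ γ = 2)
    (h1 : ip γ (th c.n) = 1) (i : Fin 8) :
    (q (e (-γ))).1 i = co (γ - th c.n) (q (e (-th c.n))) * γ i := by
  have hθ := c.th_R.1
  have hr := (root_sub hγ hθ).2 h1
  refine Ucl_induction
    (p := fun q : Aut K => (q (e (-γ))).1 i = co (γ - th c.n) (q (e (-th c.n))) * γ i)
    (by
      have : γ - th c.n ≠ -th c.n := by simpa [sub_eq_add_neg] using root_ne_zero hγ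
      simp [e_fst, co_e_ne this]) (fun β t g hA hβ hg ih => ?_) h
  have h2 := hA.2
  have h3 : γ - th c.n ≠ β := fun h => by rw [← h, ip_sub_left] at h2; omega
  have e1 : co (-β) (g (e (-γ))) = co (-β) (e (-γ)) :=
    co_lin (ipL (th c.n)) (-1) (fun _ h _ => h.2) (van_e (by rw [ipL_apply, ip_neg_left]; omega)) hg
      (by rw [ipL_apply, ip_neg_left]; omega)
  have e2 : co (γ - th c.n - β) (g (e (-th c.n))) = co (γ - th c.n - β) (e (-th c.n)) :=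
    co_lin (ipL (th c.n)) (-2) (fun _ h _ => h.2) (van_e (by rw [ipL_apply, ip_neg_left]; omega)) hg
      (by rw [ipL_apply, ip_sub_left, ip_sub_left]; omega)
  simp only [LinearEquiv.mul_apply, X_apply hβ, map_add, map_smul, Prod.fst_add, Prod.smul_fst,
    Pi.add_apply, Pi.smul_apply, ad_fst, e_fst, ih, e1, co_ad, if_pos hr, if_neg h3, e2, hq.eps,
    co_e_ne h3, smul_eq_mul, Pi.zero_apply]
  by_cases h4 : β = γ
  · subst h4
    rw [co_e_self (root_neg hβ), show β - th c.n - β = -th c.n by abel, co_e_self (root_neg hθ)]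
    linear_combination -(t * β i) * hq.two
  · rw [co_e_ne (by simpa using h4), co_e_ne (fun h5 => h4 (by
      rw [← sub_eq_zero, ← neg_eq_zero, ← sub_eq_zero.2 h5]; abel))]
    ring

theorem Q_peel (hq : c.Q2) {q : Aut K} (h : q ∈ Ucl K c.QA) {A : Lat → Prop} (hA : ∀ β, A β → c.QA β)
    (h0 : A (th c.n)) (h1 : ∀ γ, c.R γ → ip γ (th c.n) = 1 → ¬ A γ →
      co (γ - th c.n) (q (e (-th c.n))) = 0) : q ∈ Ucl K A := by
  have k : ∀ β, ip β β = 2 → 1 < ip β (th c.n) → A β := fun β hβ h => by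
    by_contra h2
    have := ip_le_one hβ c.th_R.1 (fun h3 => h2 (h3 ▸ h0)); omega
  refine peel_level (c := c) (ipL (th c.n)) one_pos (fun β h _ => h.elim (hA β) id)
    (fun β h h' => k β h.1 h') (fun ζ h2 h3 h4 => ?_) h
  have h5 : ip ζ (th c.n) = 1 := le_antisymm (not_lt.1 fun h => h4 (k ζ h3 h)) h2.2
  ext i
  rw [Q_H hq h h3 h5, h1 ζ ⟨h3, h2.1⟩ h5 h4]; simp

variable (c) in
/-- Elements fixing the highest and the lowest root vector. -/
def Lv (p : Aut K) : Prop := p ∈ c.G ∧ p (e (th c.n)) = e (th c.n) ∧ p (e (-th c.n)) = e (-th c.n)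

theorem span1 (hq : c.Q2) (hn : c.NS) (S : Submodule K (L K))
    (h : ∀ p, c.Lv p → p (e (gam c.n)) ∈ S) {γ : Lat} (hγ : c.R γ) (h1 : ip γ (th c.n) = 1) :
    e γ ∈ S := by
  have k : ∀ p, c.Lv p → ∀ γ, c.Lg γ → ip γ (th c.n) = 1 → p (e γ) ∈ S := fun p hp γ hγ h1 => by
    obtain ⟨m, w, i1, i2, i3, _⟩ := to_dom hγ
    have i4 : w⁻¹ (th c.n) = th c.n := by rw [← i2, W_inv_app, i2]
    have := h (p * m⁻¹) ⟨mul_mem hp.1 i1.inv.mem,
      by rw [LinearEquiv.mul_apply, hq.mon_e i1.inv th_Lg, i4, hp.2.1],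
      by rw [LinearEquiv.mul_apply, hq.mon_e i1.inv th_Lg.neg, map_neg, i4, hp.2.2]⟩
    rwa [LinearEquiv.mul_apply, ← i3 h1, ← hq.mon_e i1 hγ, inv_app] at this
  have k1 := k 1 ⟨one_mem _, rfl, rfl⟩
  by_cases hs : sg c.b γ = γ
  · exact k1 γ ⟨hγ, hs⟩ h1
  have hb : c.b = true := by
    cases hb : c.b
    · rw [hb, sg_false] at hs; exact absurd rfl hs
    · rfl
  have h6 := n6_of_b hb
  obtain ⟨y, _, y1, y2, y3, y4, y5⟩ := (short1 γ (mem_allL hγ.1) (h6 ▸ hγ.2)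
    (by rw [← ip_x, ← h6, h1])).resolve_left (fun h => hs (by rw [hb]; exact funext h))
  rw [← ip_x] at y1 y3 y4
  rw [← h6] at y2 y3
  have hy : c.Lg y := ⟨⟨y1, y2⟩, by rw [hb]; exact funext y5⟩
  have hδ : c.R (γ - y) := ⟨(root_sub hγ.1 y1).2 (by rw [ip_comm, y4]), hγ.2.sub y2⟩
  have hm : sg c.b (γ - y) ≠ γ - y := by rw [sg_sub, hy.2]; simpa using hs
  have d1 : ip (γ - y) y = -1 := by rw [ip_sub_left, ip_comm, y4, y1]; rfl
  have d2 : ip (sg c.b (γ - y)) y = -1 := by rw [c.ip_sg' hδ.2 y2, hy.2, d1]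
  have d3 : ip (γ - y) (th c.n) = 0 := by rw [ip_sub_left, h1, y3]; rfl
  have d4 : ip (sg c.b (γ - y)) (th c.n) = 0 := by rw [c.ip_sg' hδ.2 c.th_R.2, c.th_sg, d3]
  have r1 := (root_add hδ.sg.1 y1).2 d2
  have d5 : ip (γ - y) (sg c.b (γ - y) + y) = -1 := by rw [ip_add_right, hδ.orth hm, d1]; rfl
  have l2 : c.Lg (γ - y + (sg c.b (γ - y) + y)) :=
    ⟨⟨(root_add hδ.1 r1).2 d5, hδ.2.add (hδ.sg.2.add y2)⟩, by
      rw [sg_add, sg_add, sg_sg, hy.2]; abel⟩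
  have key : ∀ t : K, t • e γ + c.τ t • e (sg c.b (γ - y) + y) ∈ S := fun t => by
    have f : ∀ α, ip α α = 2 → ip (γ - y) α = 0 → ip (sg c.b (γ - y)) α = 0 →
        c.Y (γ - y) t (e α) = e α := fun α h1 h2 h3 => by
      rw [Y_mov hm, LinearEquiv.mul_apply, X_e_nn hδ.sg.1 h1 h3.ge, X_e_nn hδ.1 h1 h2.ge]
    have e1 := k _ ⟨Y_mem hδ fun h => absurd h hm, f _ c.th_R.1 d3 d4,
      f _ c.th_R.neg.1 (by rw [ip_neg_right, d3]; rfl) (by rw [ip_neg_right, d4]; rfl)⟩ y hy y3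
    rw [Y_mov hm, LinearEquiv.mul_apply, X_e_m1 hδ.sg.1 y1 d2, map_add, map_smul,
      X_e_m1 hδ.1 y1 d1, X_e_m1 hδ.1 r1 d5, sub_add_cancel] at e1
    simp only [hq.eps, mul_one] at e1
    have e2 := sub_mem (sub_mem e1 (k1 y hy y3)) (S.smul_mem (c.τ t * t)
      (k1 _ l2 (by rw [ip_add_left, ip_add_left, d3, d4, y3]; rfl)))
    convert e2 using 1
    simp only [LinearEquiv.coe_one, id]
    module
  obtain ⟨t, ht⟩ := hq.omega hn hb
  have e3 := sub_mem (S.smul_mem (t + 1) (key 1)) (key t)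
  rw [map_one, ht] at e3
  convert e3 using 1
  module

theorem BZ.one (hq : c.Q2) (hn : c.NS) {g : Aut K} (h : c.BZ g) {γ : Lat} (hγ : c.R γ)
    (h1 : ip γ (th c.n) = 1) : bt g (e (th c.n)) (e γ) = 0 := by
  have := span1 hq hn (LinearMap.ker (gf (e (th c.n)) ∘ₗ g.toLinearMap + gf.flip (g (e (th c.n)))))
    (fun p hp => by
      have := h p hp.1 _ _ th_Lg gam_Lg.1 (by rw [ip_comm, gam_Lg.2])
      rwa [hp.2.1] at this) hγ h1
  exact this

theorem n_th (hq : c.Q2) {θ : Lat} (h : c.Lg θ) :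
    N1 θ (1 : K) ∈ c.G ∧ N1 θ (1 : K) (e θ) = e (-θ) ∧ N1 θ (1 : K) (e (-θ)) = e θ ∧
      N1 θ (1 : K) (Exc.hv θ) = Exc.hv θ := by
  have hN := NY_Mon h.1 one_ne_zero (Al_one _)
  rw [NY_fix h.2] at hN
  exact ⟨hN.mem, by rw [hq.mon_e hN h, wY_self h.1],
    by rw [hq.mon_e hN h.neg, map_neg, wY_self h.1, neg_neg],
    by rw [hN.hv h.1.1, wY_self h.1, hv_neg, neg_eq2 hq.two]⟩

theorem X_m2 (hq : c.Q2) {θ : Lat} (h : ip θ θ = 2) :
    X θ (1 : K) (e (-θ)) = e θ + Exc.hv θ + e (-θ) := by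
  rw [X_e_m2 h, sub_eq_add_neg, neg_eq2 hq.two]; simp only [one_smul, one_pow]; abel

theorem SL (hq : c.Q2) (hn : c.NS) {g : Aut K} (hg : g ∈ c.G) (h : c.BZ g)
    (h1 : g (e (th c.n)) = e (-th c.n)) :
    ∃ l, c.Lv l ∧ (g = N1 (th c.n) 1 * l ∨ g = N1 (th c.n) 1 * X (th c.n) 1 * l) := by
  have hθ := c.th_R
  have A := G_aut hg
  obtain ⟨u, hu, h2⟩ := opp hq (inv_mem hg) (by
    rw [← gf_e hθ.1, gf_inv (inv_mem A), inv_inv, h1, gf_e hθ.neg.1, neg_neg, co_e_self hθ.1]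
    exact one_ne_zero)
  obtain ⟨q, hq1, h3⟩ := toQ (U_P hu)
  rw [h3] at h2
  have h4 := Q_peel hq hq1 (A := fun β => β = th c.n) (by rintro _ rfl; exact ⟨hθ.2, by rw [hθ.1]; decide⟩)
    rfl (fun γ hγ h5 _ => by
      have h6 : c.R (th c.n - γ) := ⟨(root_sub hθ.1 hγ.1).2 (by rw [ip_comm, h5]), hθ.2.sub hγ.2⟩
      have h7 := h.one hq hn h6 (by rw [ip_sub_left, hθ.1, h5]; rfl)
      rw [bt, h1, gf_e h6.1, co_e_ne (by
        simpa [sub_eq_add_neg] using root_ne_zero hγ.1), add_zero] at h7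
      rw [← h2, ← neg_sub, ← gf_e h6.1, gf_inv (inv_mem A), inv_inv, gf_comm, h7])
  obtain ⟨s, u', h5, h6⟩ := peel (A := fun _ => False) hθ.1 (fun β h _ => Or.inr h)
    (fun _ h => h.elim) h4
  rw [Ucl_empty (fun _ h _ => h) h5, mul_one] at h6
  rw [h6] at h2
  have h7 : c.τ (s ^ 2) = s ^ 2 := by
    have e1 := co_st hθ (g⁻¹ (e (th c.n)))
    rw [G_st (inv_mem hg) (e_mem hθ.2), st_e hθ.2, c.th_sg, h2, X_e_m2 hθ.1] at e1
    simpa [co_hv, co_e_self hθ.1, co_e_ne (neg_ne_self hθ.1).symm] using e1.symm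
  have h8 : s = 0 ∨ s = 1 := (hq _ h7).imp (by simp) fun h => by
    have : (s - 1) ^ 2 = 0 := by linear_combination h + (1 - s) * hq.two
    exact sub_eq_zero.1 (pow_eq_zero_iff two_ne_zero |>.1 this)
  obtain ⟨n1, n2, n3, _⟩ := n_th hq (th_Lg (c := c))
  have hX : X (th c.n) s ∈ c.G := X_th_mem (by rcases h8 with rfl | rfl <;> simp)
  have f1 : ((X (th c.n) s)⁻¹ * (N1 (th c.n) 1)⁻¹ * g : Aut K) (e (th c.n)) = e (th c.n) := by
    rw [LinearEquiv.mul_apply, LinearEquiv.mul_apply, h1, ← n2, inv_app, X_inv,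
      X_e_nn hθ.1 hθ.1 (by rw [hθ.1]; decide)]
  have hl := mul_mem (mul_mem (inv_mem hX) (inv_mem n1)) hg
  refine ⟨_, ⟨hl, f1, ?_⟩, ?_⟩
  · have f2 := conj_X (G_aut hl) hθ.1 hθ.1 (c := 1) (by rw [f1, one_smul]) s
    rw [one_mul, mul_inv_eq_iff_eq_mul] at f2
    have f3 := congrArg (fun p : Aut K => p (e (-th c.n))) f2
    simp only [LinearEquiv.mul_apply] at f3 ⊢
    rw [← h2, app_inv, ← n3, inv_app] at f3
    apply (X (th c.n) s).injective
    rw [← f3, X_inv, show -s = s by linear_combination -s * hq.two]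
  · rcases h8 with rfl | rfl
    · left; rw [X_zero]; group
    · right; group

theorem norm (hq : c.Q2) {g p : Aut K} (hg : g ∈ c.G) (hp : p ∈ c.G)
    (h : gf (p (e (th c.n))) (g (p (e (th c.n)))) ≠ 0) :
    ∃ P ∈ c.G, P (e (th c.n)) = p (e (th c.n)) ∧ (P⁻¹ * g * P⁻¹⁻¹) (e (th c.n)) = e (-th c.n) := by
  obtain ⟨u, hu, h1⟩ := opp hq (mul_mem (mul_mem (inv_mem hp) hg) hp) (by
    rwa [← gf_e c.th_R.1, LinearEquiv.mul_apply, LinearEquiv.mul_apply, gf_inv (G_aut (inv_mem hp)),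
      inv_inv])
  refine ⟨_, mul_mem hp (U_G hu), by rw [LinearEquiv.mul_apply, U_th (U_P hu)], ?_⟩
  simp only [LinearEquiv.mul_apply, inv_inv, mul_inv_rev, U_th (U_P hu)] at h1 ⊢
  rw [h1, inv_app]

theorem typ (hq : c.Q2) (hn : c.NS) {g p : Aut K} (hg : g ∈ c.G) (h : c.BZ g) (hp : p ∈ c.G) {x : L K}
    (hx : x = p (e (th c.n))) (h1 : gf x (g x) ≠ 0) :
    g (g x) = x ∨ (g (g x) = x + br x (g x) + g x ∧ gf x (g (g x)) = 1) := by
  subst hx
  obtain ⟨P, hP, h2, h3⟩ := norm hq hg hp h1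
  have hc : c.Cj g (P⁻¹ * g * P⁻¹⁻¹) := ⟨_, inv_mem hP, rfl⟩
  obtain ⟨l, hl, h4⟩ := SL hq hn (hc.mem hg) (h.conj hc) h3
  obtain ⟨_, n2, n3, n4⟩ := n_th hq (th_Lg (c := c))
  have h5 : g (p (e (th c.n))) = P (e (-th c.n)) := by rw [← h3, ← h2]; simp
  have h6 : ∀ v, g (P v) = P ((P⁻¹ * g * P⁻¹⁻¹) v) := fun v => by simp
  rw [h5, h6, ← h2]
  refine h4.imp (fun h4 => ?_) fun h4 => ?_
  · rw [h4, LinearEquiv.mul_apply, hl.2.2, n3]
  · rw [h4, LinearEquiv.mul_apply, LinearEquiv.mul_apply, hl.2.2, X_m2 hq c.th_R.1, map_add (N1 _ _), map_add (N1 _ _),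
      n2, n3, n4, ← (G_aut hP).1, (G_aut hP).2, br_e c.th_R.1, ad_e_m2 c.th_R.1, neg_eq2 hq.two,
      gf_e c.th_R.1]
    refine ⟨by simp only [map_add]; abel, ?_⟩
    simp [co_hv, co_e_self c.th_R.neg.1, co_e_ne (neg_ne_self c.th_R.1)]

theorem triv_of_V1 {g : Aut K} (hg : g ∈ AutG K) (h1 : g (e (th c.n)) = e (th c.n))
    (h2 : g (e (-th c.n)) = e (-th c.n))
    (h3 : ∀ γ, c.R γ → ip γ (th c.n) = 1 → g (e γ) = e γ) : c.Triv g := by
  have hθ := c.th_R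
  have k : ∀ α, c.R α → ip α (th c.n) = -1 → g (e α) = e α := fun α hα h => by
    have h4 : c.R (α + th c.n) := ⟨(root_add hα.1 hθ.1).2 h, hα.2.add hθ.2⟩
    have := fix_add hg h4.1 hθ.neg.1 (by rw [ip_neg_right, ip_add_left, h, hθ.1]; rfl)
      (h3 _ h4 (by rw [ip_add_left, h, hθ.1]; rfl)) h2
    rwa [add_neg_cancel_right] at this
  have key : ∀ α, c.R α → g (e α) = e α := fun α hα => by
    rcases ip_cases hθ.1 hα.1 with rfl | h | h
    · exact h2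
    · exact k α hα (by rw [ip_comm, h])
    by_cases h4 : α = th c.n
    · rw [h4, h1]
    have h5 := ip_le_one hα.1 hθ.1 h4
    rw [ip_comm] at h
    by_cases h6 : ip α (th c.n) = 1
    · exact h3 α hα h6
    have h7 : zerP c.n α := by
      rcases c.ok with ⟨_, _, h | h | h⟩ | ⟨_, h, _⟩ <;> rw [h]
      exacts [zer6 α (mem_allL hα.1), zer7 α (mem_allL hα.1), zer8 α (mem_allL hα.1),
        zer6 α (mem_allL hα.1)]
    obtain ⟨y, _, y1, y2, y3, y4⟩ := h7 hα.2 (by rw [← ip_x]; omega)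
    rw [← ip_x] at y1 y3 y4
    have h8 : c.R (α - y) := ⟨(root_sub hα.1 y1).2 (by rw [ip_comm, y4]), hα.2.sub y2⟩
    have := fix_add hg y1 h8.1 (by rw [ip_sub_right, y4, y1]; rfl) (h3 y ⟨y1, y2⟩ y3)
      (k _ h8 (by rw [ip_sub_left]; omega))
    rwa [add_sub_cancel] at this
  exact fun v hv => gen_fix hg (fun i hi => ⟨key _ (R_a hi), key _ (R_a hi).neg⟩) hv

theorem Lv.V1 (hq : c.Q2) {l : Aut K} (h : c.Lv l) {v : L K} (hv : V1 (th c.n) v) :
    V1 (th c.n) (l v) := hv.aut c.th_R.1 hq.two (G_aut h.1) h.2.1 h.2.2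

theorem Lv.ad {l : Aut K} (h : c.Lv l) (v : L K) : l (ad (-th c.n) v) = ad (-th c.n) (l v) := by
  rw [← br_e c.th_R.neg.1, (G_aut h.1).1, h.2.2]

/-- A point on the line through `e_θ` and `y` that is moved to an opposite point. -/
theorem line_pt (hq : c.Q2) {g p : Aut K} (h : c.BZ g) (h1 : g (e (th c.n)) = e (-th c.n))
    (hp : c.Lv p) : ∃ s : K, (s = 0 ∨ s = 1) ∧
      (∃ P ∈ c.G, p (e (gam c.n)) + s • e (th c.n) = P (e (th c.n))) ∧
      gf (p (e (gam c.n)) + s • e (th c.n)) (g (p (e (gam c.n)) + s • e (th c.n))) ≠ 0 := by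
  have hθ := c.th_R
  obtain ⟨hγ, h2⟩ := gam_Lg (c := c)
  obtain ⟨m, w, i1, i2⟩ := to_th hγ
  have i3 : m⁻¹ (e (th c.n)) = e (gam c.n) := by rw [← i2, ← hq.mon_e i1 hγ, inv_app]
  by_cases h3 : gf (p (e (gam c.n))) (g (p (e (gam c.n)))) = 0
  · have h4 : c.Lg (th c.n - gam c.n) := ⟨⟨(root_sub hθ.1 hγ.1.1).2 (by rw [ip_comm, h2]),
      hθ.2.sub hγ.1.2⟩, by rw [sg_sub, c.th_sg, hγ.2]⟩
    refine ⟨1, Or.inr rfl, ⟨_, mul_mem (mul_mem hp.1 h4.X_mem) i1.inv.mem, ?_⟩, ?_⟩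
    · rw [LinearEquiv.mul_apply, LinearEquiv.mul_apply, i3, X_e_m1 h4.1.1 hγ.1.1
        (by rw [ip_sub_left, ip_comm, h2, hγ.1.1]; rfl), hq.eps, sub_add_cancel, map_add, map_smul,
        hp.2.1, mul_one]
    · have h5 := h p hp.1 _ _ th_Lg hγ (by rw [ip_comm, h2])
      rw [bt, hp.2.1, h1] at h5
      simp only [one_smul, map_add, LinearMap.add_apply, h3, h1, gf_e hθ.1 , co_e_self hθ.neg.1] at h5 ⊢
      intro h6
      exact one_ne_zero (by linear_combination h6 - h5 : (1 : K) = 0)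
  · exact ⟨0, Or.inl rfl, ⟨_, mul_mem hp.1 i1.inv.mem, by simp [i3]⟩, by simpa using h3⟩

theorem T2 (hq : c.Q2) (hn : c.NS) {g l : Aut K} (hg : g ∈ c.G) (h : c.BZ g) (hl : c.Lv l)
    (h1 : g = N1 (th c.n) 1 * l) : c.Triv (g * g) := by
  have hθ := c.th_R
  obtain ⟨_, n2, n3, _⟩ := n_th hq (th_Lg (c := c))
  have e1 : g (e (th c.n)) = e (-th c.n) := by rw [h1, LinearEquiv.mul_apply, hl.2.1, n2]
  have e2 : g (e (-th c.n)) = e (th c.n) := by rw [h1, LinearEquiv.mul_apply, hl.2.2, n3]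
  refine triv_of_V1 (G_aut (mul_mem hg hg)) (by rw [LinearEquiv.mul_apply, e1, e2])
    (by rw [LinearEquiv.mul_apply, e2, e1]) fun γ hγ h2 => ?_
  have := span1 hq hn (LinearMap.ker (Nn (g * g))) (fun p hp => ?_) hγ h2
  · exact sub_eq_zero.1 this
  obtain ⟨s, _, ⟨P, hP, h3⟩, h4⟩ := line_pt hq h e1 hp
  have v1 := hp.V1 hq (V1_e gam_Lg.2)
  generalize p (e (gam c.n)) = y at *
  have v2 := hl.V1 hq v1
  have v3 := hl.V1 hq v2
  have e3 : g (g (y + s • e (th c.n))) = l (l y) + s • e (th c.n) := by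
    rw [map_add, map_add, map_smul, map_smul, e1, e2, h1]
    simp only [LinearEquiv.mul_apply]
    rw [v2.n0 hθ.1 hq.two, hl.ad, v3.n1 hθ.1 hq.two]
  have z : van (fun β => ip β (th c.n) ≤ 0) (s • (e (th c.n) : L K)) :=
    (van_e (by rw [hθ.1]; decide)).smul s
  rcases typ hq hn hg h hP h3 h4 with h5 | ⟨_, h5⟩
  · rw [map_add, map_add, map_smul, map_smul, e1, e2, add_left_inj] at h5
    exact sub_eq_zero.2 h5
  · rw [e3, gf_zero (v1.ge.add z) (v3.ge.add z)] at h5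
    exact absurd h5 zero_ne_one

end Cfg

end Pool.Agent.MP_db74b1_al.Exc

end

section

set_option autoImplicit false

namespace Pool.Agent.MP_db74b1_al.Exc

variable {K : Type} [Field K]

def Cm : Matrix (Fin 8) (Fin 8) ℤ := Matrix.of fun i j => ipx (a i) (a j)

def Ci : Matrix (Fin 8) (Fin 8) ℤ :=
  !![4, 5, 7, 10, 8, 6, 4, 2; 5, 8, 10, 15, 12, 9, 6, 3; 7, 10, 14, 20, 16, 12, 8, 4;
    10, 15, 20, 30, 24, 18, 12, 6; 8, 12, 16, 24, 20, 15, 10, 5; 6, 9, 12, 18, 15, 12, 8, 4;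
    4, 6, 8, 12, 10, 8, 6, 3; 2, 3, 4, 6, 5, 4, 3, 2]

theorem Ci_Cm : Ci * Cm = 1 := by decide +kernel

theorem gf_hv_a (k : Fin 8) (v : L K) : gf (hv (a k)) v = -∑ i, (Cm i k : K) * v.1 i := by
  rw [gf, LinearMap.sub_apply, LinearMap.sum_apply, LinearMap.sum_apply, LinearMap.sub_apply,
    LinearMap.sum_apply, LinearMap.sum_apply, Finset.sum_eq_zero (fun α _ => by simp [co_hv]),
    Finset.sum_eq_single k]
  · simp [hv, a, hp_apply, a_eq, Cm, ip_x]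
  · intro j _ hj; simp [hv, a, hj]
  · simp

theorem htr_inv {g : Aut K} (hg : g ∈ AutG K) :
    ∑ i, (g⁻¹ (hv (a i))).1 i = ∑ i, (g (hv (a i))).1 i := by
  let M : Aut K → Matrix (Fin 8) (Fin 8) K := fun g => Matrix.of fun i j => (g (hv (a j))).1 i
  let C : Matrix (Fin 8) (Fin 8) K := Cm.map (Int.castRingHom K)
  let D : Matrix (Fin 8) (Fin 8) K := Ci.map (Int.castRingHom K)
  have h1 : D * C = 1 := by rw [← Matrix.map_mul, Ci_Cm]; simp
  have h2 : C * D = 1 := mul_eq_one_comm.1 h1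
  have hs : ∀ i j, Cm i j = Cm j i := by decide
  have h3 : C * M g = (M g⁻¹).transpose * C := by
    ext k j
    have := gf_inv hg (hv (a k)) (hv (a j))
    rw [gf_comm (g⁻¹ _), gf_hv_a, gf_hv_a, neg_inj] at this
    simp only [Matrix.mul_apply, Matrix.transpose_apply, C, M, Matrix.map_apply, Matrix.of_apply,
      eq_intCast, hs k, mul_comm _ (Cm _ j : K)]
    exact this
  change (M g⁻¹).trace = (M g).trace
  rw [← Matrix.trace_transpose, ← one_mul (M g), ← h1, mul_assoc, h3, Matrix.trace_mul_comm,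
    mul_assoc, h2, mul_one]

namespace Cfg

variable {c : Cfg K}

theorem TW_eq {f : En K} (hf : ∀ v ∈ c.V, f v ∈ c.V) : TW c.V f =
    ∑ α : Root, (if Sp c.n α.1 then co α.1 (f (e α.1)) else 0) +
      ∑ i : Fin 8, if i.1 < c.n then (f (Exc.hv (a i))).1 i else 0 := by
  rw [TW_congr (g := ∑ α : Root, (if Sp c.n α.1 then (co α.1 ∘ₗ f).smulRight (e α.1) else 0) +
      ∑ i : Fin 8, if i.1 < c.n then ((LinearMap.proj i ∘ₗ LinearMap.fst K _ _) ∘ₗ f).smulRight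
        (Exc.hv (a i)) else 0), map_add, map_sum, map_sum]
  · congr 1
    · refine Finset.sum_congr rfl fun α _ => ?_
      split_ifs with h
      · rw [TW_rank _ (e_mem h)]; rfl
      · exact map_zero _
    · refine Finset.sum_congr rfl fun i _ => ?_
      split_ifs with h
      · rw [TW_rank _ (hv_mem (Sp_a h))]; rfl
      · exact map_zero _
  · intro v hv
    have h1 := hf v hv
    rw [LinearMap.add_apply, LinearMap.sum_apply, LinearMap.sum_apply, add_comm]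
    refine (L_decomp (f v)).trans ?_
    congr 1
    · refine Finset.sum_congr rfl fun i _ => ?_
      split_ifs with h
      · rfl
      · rw [h1.1 i (by omega), zero_smul]; rfl
    · refine Finset.sum_congr rfl fun α _ => ?_
      rw [← co_of_root α.2]
      split_ifs with h
      · rfl
      · rw [h1.2 _ h, zero_smul]; rfl

theorem G_hv {g : Aut K} (hg : g ∈ c.G) (y : Lat) : g (Exc.hv y) - Exc.hv y ∈ c.V := by
  have k : ∀ α t, c.R α → ∀ v, v - Exc.hv y ∈ c.V → X α t v - Exc.hv y ∈ c.V := fun α t h v h1 => by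
    have := add_mem (X_mem h t h1) (c.V.smul_mem (-(t * ip y α)) (e_mem h.2))
    rwa [map_sub, X_hv h.1, show X α t v - (Exc.hv y - (t * ip y α) • e α) + -(t * ip y α) • e α =
      X α t v - Exc.hv y by module] at this
  refine G_induction (p := fun g => g (Exc.hv y) - Exc.hv y ∈ c.V) (by simp)
    (fun α t g h _ h1 => ?_) hg
  unfold Y; split_ifs
  · exact k α t h _ h1
  · exact k α t h _ (k _ _ h.sg _ h1)

def negR : Root ≃ Root :=
  ⟨fun α => ⟨-α.1, root_neg α.2⟩, fun α => ⟨-α.1, root_neg α.2⟩, fun _ => by simp, fun _ => by simp⟩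

theorem TW_inv {g : Aut K} (hg : g ∈ c.G) :
    TW c.V (g⁻¹).toLinearMap = TW c.V g.toLinearMap := by
  rw [TW_eq fun v hv => G_mem hg hv, TW_eq fun v hv => G_mem (inv_mem hg) hv]
  congr 1
  · rw [← negR.sum_comp]
    refine Finset.sum_congr rfl fun α _ => ?_
    change (if Sp c.n (-α.1) then co (-α.1) (g⁻¹ (e (-α.1))) else 0) = _
    rw [← gf_e_right α.2, ← gf_inv (G_aut hg), gf_e (root_neg α.2), neg_neg]
    exact if_congr ⟨fun h => by simpa using h.neg, fun h => h.neg⟩ rfl rfl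
  · have k : ∀ g ∈ c.G, ∑ i : Fin 8, (if i.1 < c.n then (g (Exc.hv (a i))).1 i else 0) =
        ∑ i, (g (Exc.hv (a i))).1 i - ∑ i : Fin 8, if i.1 < c.n then 0 else 1 := fun g hg => by
      rw [← Finset.sum_sub_distrib]
      refine Finset.sum_congr rfl fun i _ => ?_
      split_ifs with h
      · simp
      · have := (G_hv hg (a i)).1 i (by omega)
        simpa [Exc.hv, a, eq_comm] using this
    exact (k _ (inv_mem hg)).trans ((k _ hg).trans (by rw [htr_inv (G_aut hg)])).symm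

theorem Triv.inv_eq {g : Aut K} (h : c.Triv (g * g)) {v : L K} (hv : v ∈ c.V) :
    g⁻¹ v = g v := by
  rw [← g.injective.eq_iff, app_inv]; exact (h _ hv).symm

theorem Cj.sq {g g' : Aut K} (h : c.Cj g g') (h2 : c.Triv (g * g)) : c.Triv (g' * g') := by
  obtain ⟨p, hp, rfl⟩ := h
  exact Cj.triv ⟨p, hp, by group⟩ h2

theorem SC.inv_inv (hq : c.Q2) (hn : c.NS) {a b : Aut K} (h : c.SC a b) (ha : a ∈ c.G)
    (hb : b ∈ c.G) (h1 : c.Triv (a * a)) (h2 : c.Triv (b * b)) : c.QL a ∨ c.QL b := by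
  by_contra h3
  push Not at h3
  have lθ : c.Lg (th 6) := Lg6 (by decide)
  obtain ⟨a', ha', h4⟩ := exists_q hq h3.1 lθ
  obtain ⟨b', hb', h5⟩ := exists_q hq h3.2 lθ
  obtain ⟨k, hk⟩ := h.trace le_rfl (fun g hg v hv => G_mem hg hv)
  obtain ⟨g1, g2, H⟩ := exists_pair hq hn
  let E : Subgroup (Aut K) := c.G ⊓ Ucl K T6s
  let F : En K → En K → K := fun P R => TW c.V (a'.toLinearMap * P * b'.toLinearMap * R)
  let Z : En K → K → Prop := fun P κ => ∀ g ∈ E, ∀ g' ∈ E,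
    F (g.toLinearMap * P) (g'.toLinearMap * P) = F (g'.toLinearMap * P) (g.toLinearMap * P) ∧
      F (g.toLinearMap * P) (g.toLinearMap * P) = κ
  have iE : ∀ g ∈ E, g⁻¹ = g := fun g hg =>
    inv_eq_of_mul_eq_one_left (Ucl_sq T6s_ip hq.two hg.2)
  have ma := ha'.mem ha
  have mb := hb'.mem hb
  have z0 : Z 1 k := fun g hg g' hg' => by
    simp only [F, mul_one]
    refine ⟨?_, ?_⟩
    · have e1 := TW_inv (mul_mem (mul_mem (mul_mem ma hg.1) mb) hg'.1)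
      have e2 := TW_comm (M := c.V) (f := (g' * b' * g).toLinearMap) (g := a'.toLinearMap)
        (fun v hv => G_mem (mul_mem (mul_mem hg'.1 mb) hg.1) hv) fun v hv => G_mem ma hv
      refine e1.symm.trans ((TW_congr fun v hv => ?_).trans e2)
      simp only [mul_inv_rev, iE g hg, iE g' hg', LinearEquiv.coe_coe, LinearEquiv.mul_apply,
        Module.End.mul_apply]
      rw [Triv.inv_eq (ha'.sq h1) hv, Triv.inv_eq (hb'.sq h2) (G_mem hg.1 (G_mem ma hv))]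
    · rw [← hk _ _ ha' (hb'.trans ⟨g, hg.1, rfl⟩), iE g hg]; rfl
  have st : ∀ P κ, Z P κ → ∀ x ∈ E, Z (Nn x * P) 0 := fun P κ z x hx g hg g' hg' => by
    have e : ∀ g : Aut K, g.toLinearMap * (Nn x * P) =
        (g * x).toLinearMap * P - g.toLinearMap * P := fun g => by
      rw [Nn, sub_mul, mul_sub, one_mul]; rfl
    have f : ∀ p q r s, F (p - q) (r - s) = F p r - F p s - F q r + F q s := fun p q r s => by
      simp only [F, mul_sub, sub_mul, map_sub]; ring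
    have m1 := mul_mem hg hx
    have m2 := mul_mem hg' hx
    simp only [e, f]
    exact ⟨by rw [(z _ m1 _ m2).1, (z _ m1 _ hg').1, (z _ hg _ m2).1, (z _ hg _ hg').1]; ring, by
      rw [(z _ m1 _ hg).1, (z _ m1 _ hg).2, (z _ hg _ hg).2]
      linear_combination (κ - F (g.toLinearMap * P) ((g * x).toLinearMap * P)) * hq.two⟩
  have mE : ∀ i, ![X g0 1, g1, g2, X g3 1, X g4 1] i ∈ E := fun i =>
    ⟨(H.mem i).1, Ucl_mono (fun _ _ h => h.1) (H.mem i).2⟩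
  have z := (st _ _ (st _ _ (st _ _ (st _ _ z0 _ (mE 4)) _ (mE 3)) _ (mE 2)) _ (mE 1) 1 (one_mem _)
    1 (one_mem _)).2
  change F (1 * (Nn g1 * (Nn g2 * (Nn (X g3 1) * (Nn (X g4 1) * 1)))))
    (1 * (Nn g1 * (Nn g2 * (Nn (X g3 1) * (Nn (X g4 1) * 1))))) = 0 at z
  rw [one_mul, mul_one, ← mul_assoc, ← mul_assoc, H.four hq] at z
  simp only [F] at z
  rw [show a'.toLinearMap * (co (-th 6)).smulRight (e (th 6)) * b'.toLinearMap *
      (co (-th 6)).smulRight (e (th 6)) = (co (-th 6)).smulRight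
      (co (-th 6) (b' (e (th 6))) • a' (e (th 6))) from LinearMap.ext fun v => by
        simp [smul_smul], TW_rank _ (c.V.smul_mem _ (G_mem ma (e_mem lθ.1.2))), map_smul,
    ← gf_e lθ.1.1] at z
  exact mul_ne_zero h5 h4 z

end Cfg

end Pool.Agent.MP_db74b1_al.Exc

end
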