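import Pool.Agent.Mg.Fdb74b1.Gbbdf27

section

/-! Elements with symmetric Gram matrices on all lines. -/

set_option autoImplicit false
set_option linter.unnecessarySeqFocus false
set_option linter.unusedSimpArgs false
set_option linter.unusedSectionVars false

namespace Pool.Agent.MP_db74b1_al.Lt.Tri

variable {K : Type} [Field K] {τ : K →+* K}

namespace E

theorem expand (a : GO K) (x : O K) : a x = x 0 • a (e 0) + x 1 • a (e 1) + x 2 • a (e 2) +
    x 3 • a (e 3) + x 4 • a (e 4) + x 5 • a (e 5) + x 6 • a (e 6) + x 7 • a (e 7) := by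
  simp only [← map_smul, ← map_add]
  congr 1
  apply ext8 <;> simp [e]

/-- the alternating part of the Gram form, read in the frame `q` -/
def om (a q : GO K) (x y : O K) : K := Bf (q x) (a (q y)) - Bf (q y) (a (q x))

theorem om_add_left (a q : GO K) (x x' y : O K) : om a q (x + x') y = om a q x y + om a q x' y := by
  simp [om, Bf]; ring

theorem om_add_right (a q : GO K) (x y y' : O K) : om a q x (y + y') = om a q x y + om a q x y' := by
  simp [om, Bf]; ring

theorem om_smul_left (a q : GO K) (c : K) (x y : O K) : om a q (c • x) y = c * om a q x y := by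
  simp [om, Bf]; ring

theorem om_smul_right (a q : GO K) (c : K) (x y : O K) : om a q x (c • y) = c * om a q x y := by
  simp [om, Bf]; ring

theorem om_swap (a q : GO K) (x y : O K) : om a q x y = -om a q y x := by simp [om]

theorem om_self (a q : GO K) (x : O K) : om a q x x = 0 := by simp [om]

theorem om_mul (a q p : GO K) (x y : O K) : om a (q * p) x y = om a q (p x) (p y) := rfl

theorem om_exp (a : GO K) (x y : O K) : om a 1 x y =
    (x 1 * y 0 - x 0 * y 1) * om a 1 (e 1) (e 0) +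
    (x 1 * y 7 - x 7 * y 1) * om a 1 (e 1) (e 7) +
    (x 1 * y 2 - x 2 * y 1) * om a 1 (e 1) (e 2) +
    (x 6 * y 5 - x 5 * y 6) * om a 1 (e 6) (e 5) +
    (x 6 * y 0 - x 0 * y 6) * om a 1 (e 6) (e 0) +
    (x 6 * y 7 - x 7 * y 6) * om a 1 (e 6) (e 7) +
    (x 2 * y 0 - x 0 * y 2) * om a 1 (e 2) (e 0) +
    (x 2 * y 7 - x 7 * y 2) * om a 1 (e 2) (e 7) +
    (x 2 * y 3 - x 3 * y 2) * om a 1 (e 2) (e 3) +
    (x 4 * y 6 - x 6 * y 4) * om a 1 (e 4) (e 6) +
    (x 4 * y 0 - x 0 * y 4) * om a 1 (e 4) (e 0) +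
    (x 4 * y 7 - x 7 * y 4) * om a 1 (e 4) (e 7) +
    (x 3 * y 0 - x 0 * y 3) * om a 1 (e 3) (e 0) +
    (x 3 * y 7 - x 7 * y 3) * om a 1 (e 3) (e 7) +
    (x 3 * y 1 - x 1 * y 3) * om a 1 (e 3) (e 1) +
    (x 5 * y 4 - x 4 * y 5) * om a 1 (e 5) (e 4) +
    (x 5 * y 0 - x 0 * y 5) * om a 1 (e 5) (e 0) +
    (x 5 * y 7 - x 7 * y 5) * om a 1 (e 5) (e 7) +
    (x 1 * y 5 - x 5 * y 1) * om a 1 (e 1) (e 5) +
    (x 2 * y 6 - x 6 * y 2) * om a 1 (e 2) (e 6) +
    (x 3 * y 4 - x 4 * y 3) * om a 1 (e 3) (e 4) +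
    (x 1 * y 6 - x 6 * y 1) * om a 1 (e 1) (e 6) +
    (x 2 * y 4 - x 4 * y 2) * om a 1 (e 2) (e 4) +
    (x 3 * y 5 - x 5 * y 3) * om a 1 (e 3) (e 5) +
    (x 0 * y 7 - x 7 * y 0) * om a 1 (e 0) (e 7) +
    (x 1 * y 4 - x 4 * y 1) * om a 1 (e 1) (e 4) +
    (x 2 * y 5 - x 5 * y 2) * om a 1 (e 2) (e 5) +
    (x 3 * y 6 - x 6 * y 3) * om a 1 (e 3) (e 6) := by
  simp only [om, LinearEquiv.coe_one, id]
  rw [expand a x, expand a y]
  simp [Bf, e]
  ring

theorem indep (h3 : ∀ t, τ (τ (τ t)) = t) (hτ : ∃ t, τ t ≠ t) {x y z : K}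
    (h : ∀ t, x * t + y * τ t + z * τ (τ t) = 0) : x = 0 ∧ y = 0 ∧ z = 0 := by
  obtain ⟨t, ht⟩ := hτ
  have h1 : τ (τ t) - τ t ≠ 0 := fun h => ht (τ.injective (sub_eq_zero.1 h))
  have h2 : τ (τ t) - t ≠ 0 := fun h => ht (by
    have := congrArg τ (sub_eq_zero.1 h)
    rw [h3] at this
    exact this.symm)
  have h0 : τ t - t ≠ 0 := sub_ne_zero.2 ht
  have e0 := h 1
  have e1 := h t
  have e2 := h (t * t)
  simp only [map_one, map_mul] at e0 e2
  have hz : z = 0 := by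
    have : z * (τ (τ t) - t) * (τ (τ t) - τ t) = 0 := by
      linear_combination e2 - (t + τ t) * e1 + t * τ t * e0
    simpa [h1, h2] using this
  have hy : y = 0 := by
    have : y * (τ t - t) = 0 := by
      rw [hz] at e0 e1
      linear_combination e1 - t * e0
    simpa [h0] using this
  refine ⟨?_, hy, hz⟩
  rw [hy, hz] at e0
  linear_combination e0

theorem six (h3 : ∀ t, τ (τ (τ t)) = t) (hτ : ∃ t, τ t ≠ t) {a : GO K} (h1 : Sy τ a) {q : GO K}
    (hq : q ∈ tri τ) : om a q (e 1) (e 0) = 0 ∧ om a q (e 1) (e 7) = 0 ∧ om a q (e 1) (e 2) = 0 ∧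
      om a q (e 6) (e 5) = 0 ∧ om a q (e 6) (e 0) = 0 ∧ om a q (e 6) (e 7) = 0 := by
  have s : ∀ p ∈ tri τ, om a q (p (e 1)) (p (e 5)) = 0 := fun p hp =>
    sub_eq_zero.2 (h1 (q * p) (mul_mem hq hp))
  have c15 : om a q (e 1) (e 5) = 0 := s 1 (one_mem _)
  have c62 : om a q (e 6) (e 2) = 0 := by
    have := s cy (cy_mem τ)
    rw [show (cy : GO K) (e 1) = e 2 by apply ext8 <;> simp [e, cy_apply],
      show (cy : GO K) (e 5) = e 6 by apply ext8 <;> simp [e, cy_apply]] at this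
    rw [om_swap, this, neg_zero]
  have f : ∀ t, τ (τ t) * om a q (e 1) (e 0) - τ t * om a q (e 1) (e 7) -
      τ t * τ (τ t) * om a q (e 1) (e 2) - t * om a q (e 6) (e 5) -
      t * τ (τ t) * om a q (e 6) (e 0) + t * τ t * om a q (e 6) (e 7) = 0 := fun t => by
    have := s _ (xu2_mem h3 t)
    rw [show xu2 τ t (e 1) = e 1 + (-t) • e 6 by apply ext8 <;> simp [e, xu2_apply],
      show xu2 τ t (e 5) = τ (τ t) • e 0 + (-(τ t * τ (τ t))) • e 2 + e 5 + (-τ t) • e 7 by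
        apply ext8 <;> simp [e, xu2_apply]] at this
    simp only [om_add_left, om_add_right, om_smul_left, om_smul_right, c15, c62] at this
    linear_combination this
  generalize om a q (e 1) (e 0) = A at f ⊢
  generalize om a q (e 1) (e 7) = B at f ⊢
  generalize om a q (e 1) (e 2) = C at f ⊢
  generalize om a q (e 6) (e 5) = D at f ⊢
  generalize om a q (e 6) (e 0) = E at f ⊢
  generalize om a q (e 6) (e 7) = F at f ⊢
  have g : ∀ s, -τ (τ s) * E + τ s * F = 0 ∧ -τ (τ s) * C + s * F = 0 ∧ -τ s * C - s * E = 0 :=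
    fun s => indep h3 hτ fun t => by
      have := f (t + s)
      simp only [map_add] at this
      linear_combination this - f t - f s
  obtain ⟨-, hF, hE⟩ := indep h3 hτ (x := 0) (y := F) (z := -E) fun s => by
    linear_combination (g s).1
  have hE : E = 0 := neg_eq_zero.1 hE
  have hC : C = 0 := by
    have := (g 1).2.1
    simp only [map_one, hF] at this
    linear_combination -this
  obtain ⟨hD, hB, hA⟩ := indep h3 hτ (x := -D) (y := -B) (z := A) fun t => by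
    have := f t
    rw [hC, hE, hF] at this
    linear_combination this
  exact ⟨hA, neg_eq_zero.1 hB, hC, neg_eq_zero.1 hD, hE, hF⟩

theorem nn_apply {n : K} (hn : n ≠ 0) (x : O K) : nn τ n x =
    ![τ (τ n) / τ n * x 7, -(τ n * τ (τ n)) * x 4, -x 6 / n, x 5 / n, -(τ n * τ (τ n))⁻¹ * x 1,
      -n * x 3, n * x 2, τ n / τ (τ n) * x 0] := by
  have h1 : τ n ≠ 0 := (map_ne_zero τ).2 hn
  have h2 : τ (τ n) ≠ 0 := (map_ne_zero τ).2 h1
  apply ext8 <;> simp [nn, xu1_apply, xv1_apply] <;> field_simp <;> ring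

end E

open E

variable (h3 : ∀ t, τ (τ (τ t)) = t)
include h3

theorem Sy_scalar {a : GO K} (ha : a ∈ tri τ) (h1 : Sy τ a) (h2 : (2 : K) = 0) (hτ : ∃ t, τ t ≠ t) :
    ∃ α : K, ∀ x, a x + a⁻¹ x = α • x := by
  have s : ∀ p ∈ tri τ, om a 1 (p (e 1)) (p (e 5)) = 0 := fun p hp => sub_eq_zero.2 (h1 p hp)
  have hc := cy_mem τ
  have hs := sw_mem τ
  have c0 : (cy : GO K) (e 0) = e 0 := by apply ext8 <;> simp [e, cy_apply]
  have c1 : (cy : GO K) (e 1) = e 2 := by apply ext8 <;> simp [e, cy_apply]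
  have c2 : (cy : GO K) (e 2) = e 3 := by apply ext8 <;> simp [e, cy_apply]
  have c3 : (cy : GO K) (e 3) = e 1 := by apply ext8 <;> simp [e, cy_apply]
  have c4 : (cy : GO K) (e 4) = e 5 := by apply ext8 <;> simp [e, cy_apply]
  have c5 : (cy : GO K) (e 5) = e 6 := by apply ext8 <;> simp [e, cy_apply]
  have c6 : (cy : GO K) (e 6) = e 4 := by apply ext8 <;> simp [e, cy_apply]
  have c7 : (cy : GO K) (e 7) = e 7 := by apply ext8 <;> simp [e, cy_apply]
  have w1 : (sw : GO K) (e 1) = e 1 := by apply ext8 <;> simp [e, sw_apply]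
  have w5 : (sw : GO K) (e 5) = e 6 := by apply ext8 <;> simp [e, sw_apply]
  obtain ⟨a10, a17, a12, a65, a60, a67⟩ := six h3 hτ h1 (one_mem _)
  obtain ⟨a20, a27, a23, a46, a40, a47⟩ := six h3 hτ h1 (q := 1 * cy) (by simpa using hc)
  obtain ⟨a30, a37, a31, a54, a50, a57⟩ := six h3 hτ h1 (q := 1 * cy * cy)
    (by simpa using mul_mem hc hc)
  simp only [om_mul, c0, c1, c2, c3, c4, c5, c6, c7] at a20 a27 a23 a46 a40 a47 a30 a37 a31 a54 a50 a57
  have a15 := s 1 (one_mem _)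
  have a26 := s cy hc
  have a34 := s (cy * cy) (mul_mem hc hc)
  have a16 := s sw hs
  have a24 := s (cy * sw) (mul_mem hc hs)
  have a35 := s (cy * cy * sw) (mul_mem (mul_mem hc hc) hs)
  have hl : (l21 1 : GO K) ∈ tri τ := l21_mem (map_one τ)
  have l1 : (l21 1 : GO K) (e 1) = e 1 + e 2 := by apply ext8 <;> simp [e, l21_apply]
  have l5 : (l21 1 : GO K) (e 5) = e 5 + (-1 : K) • e 4 := by apply ext8 <;> simp [e, l21_apply]
  have b1 := s _ hl
  have b2 := s _ (mul_mem hc hl)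
  have b3 := (six h3 hτ h1 (q := 1 * xv1 τ 1) (by simpa using xv1_mem h3 1)).1
  rw [om_mul, show xv1 τ 1 (e 1) = e 0 + e 1 + (-1 : K) • e 4 + (-1 : K) • e 7 by
      apply ext8 <;> simp [e, xv1_apply],
    show xv1 τ 1 (e 0) = e 0 + (-1 : K) • e 4 by apply ext8 <;> simp [e, xv1_apply]] at b3
  simp only [LinearEquiv.mul_apply, LinearEquiv.coe_one, id, l1, l5, map_add, map_smul, c1, c2, c3,
    c4, c5, c6, w1, w5, om_add_left, om_add_right, om_smul_left, om_smul_right]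
    at a15 a26 a34 a16 a24 a35 b1 b2 b3
  have d25 : om a 1 (e 2) (e 5) = om a 1 (e 1) (e 4) := by linear_combination b1 - a15 + a24
  have d36 : om a 1 (e 3) (e 6) = om a 1 (e 1) (e 4) := by
    linear_combination b2 - a26 + a35 + d25
  have d07 : om a 1 (e 0) (e 7) = om a 1 (e 1) (e 4) := by
    have k1 := om_swap a 1 (e 0) (e 4)
    have k2 := om_swap a 1 (e 7) (e 0)
    have k3 := om_swap a 1 (e 7) (e 4)
    rw [om_self, om_self] at b3
    linear_combination b3 + k1 - a10 + k2 - k3 + a47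
  refine ⟨om a 1 (e 1) (e 4), fun y => ?_⟩
  have key : ∀ x, Bf x (a y) + Bf x (a⁻¹ y) = om a 1 (e 1) (e 4) * Bf x y := fun x => by
    have k := om_exp a x y
    rw [a10, a17, a12, a65, a60, a67, a20, a27, a23, a46, a40, a47, a30, a37, a31, a54, a50, a57,
      a15, a26, a34, a16, a24, a35, d07, d25, d36] at k
    rw [Bf_comm x (a⁻¹ y), ← Bf_inv h3 ha]
    generalize om a 1 (e 1) (e 4) = c at k ⊢
    simp only [om, LinearEquiv.coe_one, id] at k
    rw [show Bf x y = x 0 * y 7 + x 7 * y 0 - x 1 * y 4 - x 2 * y 5 - x 3 * y 6 - x 4 * y 1 -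
      x 5 * y 2 - x 6 * y 3 from rfl]
    linear_combination k + (Bf y (a x) - c * (x 7 * y 0 - x 1 * y 4 - x 2 * y 5 - x 3 * y 6)) * h2
  generalize om a 1 (e 1) (e 4) = c at key
  have k0 := key (e 0)
  have k1 := key (e 1)
  have k2 := key (e 2)
  have k3 := key (e 3)
  have k4 := key (e 4)
  have k5 := key (e 5)
  have k6 := key (e 6)
  have k7 := key (e 7)
  simp only [Bf, e, Pi.single_apply] at k0 k1 k2 k3 k4 k5 k6 k7
  simp at k0 k1 k2 k3 k4 k5 k6 k7
  apply ext8 <;> simp only [Pi.add_apply, Pi.smul_apply, smul_eq_mul]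
  · linear_combination k7
  · linear_combination -k4
  · linear_combination -k5
  · linear_combination -k6
  · linear_combination -k1
  · linear_combination -k2
  · linear_combination -k3
  · linear_combination k0

theorem Sy_struct {b : GO K} (hb : b ∈ tri τ) (h1 : Sy τ b) (h2 : ¬ QS τ b)
    (h4 : DC τ b 0 ∨ ((2 : K) = 0 ∧ (∃ t, τ t ≠ t) ∧ ∃ k, DC τ b k)) :
    (∀ t, τ t = t) ∧ ∃ n : K, n ≠ 0 ∧ Cj τ b (nn τ n * xu1 τ n) := by
  obtain ⟨a, l, hl, hc, ha1⟩ := nf_pt h3 hb h2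
  have ha := hc.mem hb
  have s1 := hc.Sy h3 h1
  have hl1 : τ l ≠ 0 := (map_ne_zero τ).2 hl
  have hl2 : τ (τ l) ≠ 0 := (map_ne_zero τ).2 hl1
  have pl : ∀ z, tw τ (e 1) z = 0 → tw τ z (e 1) = 0 → Bf (e 1) (a z) = Bf z (a (e 1)) → z 1 = 0 →
      a z = a z 2 • e 2 + a z 3 • e 3 := fun z z1 z2 z3 z4 => by
    have p1 := tw_au ha (e 1) z
    have p2 := tw_au ha z (e 1)
    rw [z1, map_zero, ha1] at p1
    rw [z2, map_zero, ha1] at p2
    have q2 := congrFun p1 2
    have q3 := congrFun p1 3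
    have q4 := congrFun p1 4
    have q7 := congrFun p1 7
    have r4 := congrFun p2 4
    rw [ha1] at z3
    simp [tw2, tw3, tw4, tw7, e, hl, Bf, z4] at q2 q3 q4 q7 r4 z3
    apply ext8 <;> simp [e, *]
  have w1 : (sw : GO K) (e 1) = e 1 := by apply ext8 <;> simp [e, sw_apply]
  have w5 : (sw : GO K) (e 5) = e 6 := by apply ext8 <;> simp [e, sw_apply]
  have p5 := pl (e 5) (by apply ext8 <;> simp [e, tw0, tw1, tw2, tw3, tw4, tw5, tw6, tw7])
    (by apply ext8 <;> simp [e, tw0, tw1, tw2, tw3, tw4, tw5, tw6, tw7]) (s1 1 (one_mem _))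
    (by simp [e])
  have p6 := pl (e 6) (by apply ext8 <;> simp [e, tw0, tw1, tw2, tw3, tw4, tw5, tw6, tw7])
    (by apply ext8 <;> simp [e, tw0, tw1, tw2, tw3, tw4, tw5, tw6, tw7])
    (by simpa only [w1, w5] using s1 sw (sw_mem τ)) (by simp [e])
  generalize a (e 5) 2 = α, a (e 5) 3 = β at p5
  generalize a (e 6) 2 = γ, a (e 6) 3 = δ at p6
  have dc : ∀ k, DC τ a k → l * δ = k ∧ l * α = k ∧ l * (α + β + γ + δ) = k := fun k h => by
    have d1 := h 1 (one_mem _)
    have d2 := h sw⁻¹ (inv_mem (sw_mem τ))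
    have d3 := h (l32 (-1)) (l32_mem (by simp))
    rw [show (sw⁻¹ : GO K) (e 1) = e 1 by apply ext8 <;> simp [e, sw_inv_apply],
      show (sw⁻¹ : GO K) (e 6) = e 5 by apply ext8 <;> simp [e, sw_inv_apply]] at d2
    rw [show (l32 (-1) : GO K) (e 1) = e 1 by apply ext8 <;> simp [e, l32_apply],
      show (l32 (-1) : GO K) (e 6) = e 5 + e 6 by apply ext8 <;> simp [e, l32_apply]] at d3
    simp only [LinearEquiv.coe_one, id, map_add, ha1, p5, p6] at d1 d2 d3
    simp [Bf, e] at d1 d2 d3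
    exact ⟨by linear_combination d1, by linear_combination d2, by linear_combination d3⟩
  have d0 : DC τ a 0 := by
    rcases h4 with h | ⟨c2, hτ, k, h⟩
    · exact hc.DC h3 h
    · have h := hc.DC h3 h
      obtain ⟨c, hs⟩ := Sy_scalar h3 ha s1 c2 hτ
      obtain ⟨d1, d2, d3⟩ := dc k h
      have k1 := congrArg (Bf (e 5)) (hs (e 6))
      have k2 : Bf (e 5) (a⁻¹ (e 6)) = Bf (a (e 5)) (e 6) := by
        rw [Bf_inv h3 (inv_mem ha), inv_inv]
      rw [show ∀ x y z : O K, Bf x (y + z) = Bf x y + Bf x z from fun x y z => by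
        simp [Bf]; ring, k2, p5, p6] at k1
      simp [Bf, e] at k1
      have : k = 0 := by linear_combination d3 - d1 - d2 + l * k1
      exact this ▸ h
  obtain ⟨d1, d2, d3⟩ := dc 0 d0
  obtain rfl : δ = 0 := by simpa [hl] using d1
  obtain rfl : α = 0 := by simpa [hl] using d2
  obtain rfl : β = -γ := by
    have : β + γ = 0 := by simpa [hl] using d3
    linear_combination this
  have hγ : γ ≠ 0 := by
    rintro rfl
    have := congrFun (a.map_eq_zero_iff.1 (by simpa using p6)) 6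
    simp [e] at this
  obtain ⟨n, hn, rfl⟩ : ∃ n : K, n ≠ 0 ∧ γ = -n⁻¹ := ⟨-γ⁻¹, by simpa using hγ, by simp⟩
  have n1 : τ n ≠ 0 := (map_ne_zero τ).2 hn
  have n2 : τ (τ n) ≠ 0 := (map_ne_zero τ).2 n1
  have hnn : nn τ n ∈ tri τ := mul_mem (mul_mem (xu1_mem h3 _) (xv1_mem h3 _)) (xu1_mem h3 _)
  obtain ⟨s, k, m, hk, hm, hg⟩ := stab h3 (mul_mem (inv_mem hnn) ha)
    (by
      apply (nn τ n).injective
      rw [← LinearEquiv.mul_apply, mul_inv_cancel_left, p5, nn_apply hn]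
      apply ext8 <;> simp [e])
    (by
      apply (nn τ n).injective
      rw [← LinearEquiv.mul_apply, mul_inv_cancel_left, p6, nn_apply hn]
      apply ext8 <;> simp [e, neg_div])
  obtain rfl : a = nn τ n * (xu1 τ s * l12 k * l13 m) := by rw [← hg, mul_inv_cancel_left]
  clear hg dc pl p5 p6 ha1 d1 d2 d3 hγ
  have t1 := d0 (xv1 τ 1) (xv1_mem h3 1)
  have t2 := d0 (xv1 τ 1 * sw⁻¹) (mul_mem (xv1_mem h3 1) (inv_mem (sw_mem τ)))
  simp [Bf, e, nn_apply hn, xu1_apply, xv1_apply, l12_apply, l13_apply, sw_inv_apply] at t1 t2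
  obtain rfl : k = 0 := by simpa [hn] using t1
  obtain rfl : m = 0 := by simpa [hn] using t2
  have e1 : (xu1 τ s * l12 0 * l13 0 : GO K) = xu1 τ s := LinearEquiv.ext fun x => by
    apply ext8 <;> simp [xu1_apply, l12_apply, l13_apply]
  rw [e1] at hc s1 d0
  obtain ⟨g, rfl⟩ : ∃ g, s = g * n := ⟨s / n, by field_simp⟩
  have t3 := d0 (l31 1) (l31_mem (map_one τ))
  have t4 := s1 (l21 1) (l21_mem (map_one τ))
  have t5 := fun P => s1 (xu2 τ (P * n)) (xu2_mem h3 _)
  simp [Bf, e, nn_apply hn, xu1_apply, xu2_apply, l31_apply, l21_apply] at t3 t4 t5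
  field_simp at t3 t4 t5
  have hτ : ∀ t, τ t = t := by
    by_contra hτ
    obtain ⟨-, -, h⟩ := indep h3 (not_forall.1 hτ) (x := 2) (y := -τ (τ g)) (z := -τ g)
      fun P => by linear_combination t5 P
    rw [neg_eq_zero.1 h] at t3
    simp at t3
  simp only [hτ] at t3 t4
  obtain rfl : g = 1 := by linear_combination -t3 - (g + 1) * t4
  exact ⟨hτ, n, hn, by simpa using hc⟩

end Pool.Agent.MP_db74b1_al.Lt.Tri

end

section

/-! If the product of two classes of `G₂` or `³D₄` lies in one class then one of the two elements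
moves no point to an opposite point. -/

set_option autoImplicit false

namespace Pool.Agent.MP_db74b1_al.Lt.Tri

variable {K : Type} [Field K] {τ : K →+* K} (h3 : ∀ t, τ (τ (τ t)) = t)
include h3

theorem SC.QS {a b : GO K} (ha : a ∈ tri τ) (hb : b ∈ tri τ) (h : SC τ a b)
    (hr : (∃ r, τ r = r ∧ r ≠ 0 ∧ r ≠ 1) ∨ ((2 : K) = 0 ∧ ∃ t, τ t ≠ t)) :
    QS τ a ∨ QS τ b :=
  F42.main h3 (fun ha h1 h2 hτ => Sy_scalar h3 ha h1 h2 hτ) ha hb h hr

end Pool.Agent.MP_db74b1_al.Lt.Tri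

end
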