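import Pool.Agent.Mg.Fdb74b1.Ge6f3cc

section

set_option autoImplicit false

namespace Pool.Agent.MP_db74b1_al.Exc

abbrev W : Type := Lat ≃ₗ[ℤ] Lat

def rfl0 (α : Lat) : Lat →ₗ[ℤ] Lat where
  toFun x := x - ip x α • α
  map_add' x y := by rw [ip_add_left, add_smul]; abel
  map_smul' r x := by rw [ip_smul_left, RingHom.id_apply, smul_sub, smul_smul]

theorem rfl0_inv {α : Lat} (h : ip α α = 2) : Function.Involutive (rfl0 α) := fun x => by
  change x - ip x α • α - ip (x - ip x α • α) α • α = x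
  rw [ip_sub_left, ip_smul_left, h]; module

noncomputable def rf (α : Lat) : W :=
  if h : ip α α = 2 then LinearEquiv.ofInvolutive (rfl0 α) (rfl0_inv h) else 1

theorem rf_apply {α : Lat} (h : ip α α = 2) (x : Lat) : rf α x = x - ip x α • α := by
  simp only [rf, dif_pos h]; rfl

theorem rf_iso {α : Lat} (h : ip α α = 2) (x y : Lat) : ip (rf α x) (rf α y) = ip x y := by
  rw [rf_apply h, rf_apply h, ip_sub_left, ip_sub_right, ip_sub_right, ip_smul_left, ip_smul_left,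
    ip_smul_right, ip_smul_right, h, ip_comm α y]; ring

variable {K : Type} [Field K]

theorem e_inj {β γ : Lat} (hβ : ip β β = 2) {r s : K} (hr : r ≠ 0)
    (h : r • (e β : L K) = s • e γ) : β = γ ∧ r = s := by
  have h1 := congrArg (co β) h
  rw [map_smul, map_smul, co_e_self hβ] at h1
  by_cases h2 : β = γ
  · subst h2; rw [co_e_self hβ] at h1; simpa using h1
  · rw [co_e_ne h2] at h1; simp [hr] at h1

theorem cast_root {β : Lat} (hβ : ip β β = 2) {r : K} (h : ∀ i, r * (β i : K) = 0) : r = 0 := by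
  obtain ⟨y, hy⟩ := exists_ip_one hβ
  have h1 := congrArg (fun z : ℤ => r * (z : K)) (sum_ip β y)
  simp only [ip_comm β, hy] at h1
  push_cast at h1
  rw [Finset.mul_sum, Finset.sum_eq_zero fun i _ => by rw [mul_left_comm, h i, mul_zero]] at h1
  simpa using h1.symm

noncomputable def N1 (α : Lat) (r : K) : Aut K := X α r * X (-α) r⁻¹ * X α r

theorem N1_zero {α β : Lat} (hα : ip α α = 2) (hβ : ip β β = 2) (h : ip α β = 0) (r : K) :
    N1 α r (e β) = e β := by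
  simp only [N1, LinearEquiv.mul_apply]
  rw [X_e_nn hα hβ h.ge, X_e_nn (root_neg hα) hβ (by rw [ip_neg_left]; omega), X_e_nn hα hβ h.ge]

theorem N1_one {α β : Lat} (hα : ip α α = 2) (hβ : ip β β = 2) (h : ip α β = 1) {r : K}
    (hr : r ≠ 0) : N1 α r (e β) = (r⁻¹ * eps α β) • e (β - α) := by
  simp only [N1, LinearEquiv.mul_apply]
  have h1 : ip (-α) β = -1 := by rw [ip_neg_left, h]
  have h2 := (root_add (root_neg hα) hβ).2 h1
  rw [X_e_nn hα hβ (by omega), X_e_m1 (root_neg hα) hβ h1, map_add, map_smul,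
    X_e_nn hα hβ (by omega), X_e_m1 hα h2 (by rw [ip_add_right, ip_neg_right]; omega),
    eps_neg_left, eps_add_right, eps_neg_right, eps_self hα, add_neg_cancel_left,
    neg_add_eq_sub, smul_add, smul_smul]
  have := eps_cast_mul_self (R := K) α β
  have h3 : r⁻¹ * (eps α β : K) * (r * ((-1 * eps α β : ℤ) : K)) = -1 := by
    push_cast; field_simp; linear_combination -this
  rw [h3]; module

theorem N1_e {α β : Lat} (hα : ip α α = 2) (hβ : ip β β = 2) {r : K} (hr : r ≠ 0) :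
    ∃ s : K, s ≠ 0 ∧ N1 α r (e β) = s • e (rf α β) := by
  have hα' := root_neg hα
  have he : (eps α β : K) ≠ 0 := fun h => by
    have := eps_cast_mul_self (R := K) α β; rw [h] at this; simp at this
  rw [rf_apply hα, ip_comm β]
  rcases ip_cases hα hβ with rfl | h | h
  · refine ⟨r ^ 2, by positivity, ?_⟩
    have h1 := X_e_m2 hα' r⁻¹
    rw [neg_neg, hv_neg] at h1
    simp only [N1, LinearEquiv.mul_apply, X_e_m2 hα, map_add, map_sub, map_smul, X_hv hα',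
      X_e_nn hα' hα' (by omega), h1, ip_neg_right, hα, X_hv hα, map_neg, X_e_nn hα hα (by omega),
      show -α - (-2 : ℤ) • α = α by module]
    push_cast
    match_scalars <;> field_simp <;> ring
  · refine ⟨r * eps α β, mul_ne_zero hr he, ?_⟩
    have h2 := (root_add hα hβ).2 h
    simp only [N1, LinearEquiv.mul_apply]
    rw [X_e_m1 hα hβ h, map_add, map_smul, X_e_nn hα' hβ (by rw [ip_neg_left]; omega),
      X_e_m1 hα' h2 (by rw [ip_neg_left, ip_add_right]; omega), eps_neg_left, eps_add_right,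
      eps_self hα, neg_add_cancel_left, smul_add, smul_smul, h,
      show β - (-1 : ℤ) • α = α + β by module]
    have := eps_cast_mul_self (R := K) α β
    have h3 : r * (eps α β : K) * (r⁻¹ * ((-1 * eps α β : ℤ) : K)) = -1 := by
      push_cast; field_simp; linear_combination -this
    rw [h3, show (e β : L K) + ((r * eps α β) • e (α + β) + (-1 : K) • e β)
      = (r * eps α β) • e (α + β) by module, map_smul,
      X_e_nn hα h2 (by rw [ip_add_right]; omega)]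
  · have h1 := ip_le_two hα hβ
    have h2 : ip α β = 0 ∨ ip α β = 1 ∨ ip α β = 2 := by omega
    rcases h2 with h2 | h2 | h2
    · exact ⟨1, one_ne_zero, by rw [N1_zero hα hβ h2, h2]; simp⟩
    · exact ⟨_, mul_ne_zero (inv_ne_zero hr) he, by rw [N1_one hα hβ h2 hr, h2, one_smul]⟩
    · obtain rfl : α = β := by
        by_contra h3; have := ip_le_one hα hβ h3; omega
      refine ⟨r⁻¹ ^ 2, by positivity, ?_⟩
      have h1 := X_e_m2 hα' r⁻¹
      rw [neg_neg, hv_neg] at h1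
      simp only [N1, LinearEquiv.mul_apply, X_e_m2 hα, map_add, map_sub, map_smul,
        h1, hα, X_hv hα, map_neg, X_e_nn hα hα (by omega),
        show α - (2 : ℤ) • α = -α by module]
      push_cast
      match_scalars <;> field_simp <;> ring

namespace Cfg

variable (c : Cfg K)

structure Mon (m : Aut K) (w : W) : Prop where
  mem : m ∈ c.G
  iso : ∀ x y, ip (w x) (w y) = ip x y
  mono : ∀ α, ip α α = 2 → ∃ s : K, s ≠ 0 ∧ m (e α) = s • e (w α)
  out : ∀ x, Sp c.n (w x - x)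

noncomputable def wY (α : Lat) : W := if sg c.b α = α then rf α else rf α * rf (sg c.b α)

noncomputable def NY (α : Lat) (r : K) : Aut K := c.Y α r * c.Y (-α) r⁻¹ * c.Y α r

variable {c}

theorem Mon.one : c.Mon 1 1 :=
  ⟨one_mem _, fun _ _ => rfl, fun α _ => ⟨1, one_ne_zero, by simp⟩, fun x j _ => by simp⟩

theorem Mon.root {m : Aut K} {w : W} (h : c.Mon m w) {α : Lat} (hα : ip α α = 2) :
    ip (w α) (w α) = 2 := by rw [h.iso, hα]

theorem Mon.mul {m m' : Aut K} {w w' : W} (h : c.Mon m w) (h' : c.Mon m' w') :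
    c.Mon (m * m') (w * w') := by
  refine ⟨mul_mem h.mem h'.mem, fun x y => ?_, fun α hα => ?_, fun x => ?_⟩
  · simp only [LinearEquiv.mul_apply, h.iso, h'.iso]
  · obtain ⟨s, hs, h1⟩ := h'.mono α hα
    obtain ⟨s', hs', h2⟩ := h.mono _ (h'.root hα)
    exact ⟨s * s', mul_ne_zero hs hs', by
      simp only [LinearEquiv.mul_apply, h1, map_smul, h2, smul_smul]⟩
  · have := (h.out (w' x)).add (h'.out x)
    rwa [sub_add_sub_cancel] at this

theorem W_inv_app (w : W) (x : Lat) : w⁻¹ (w x) = x := by simp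
theorem W_app_inv (w : W) (x : Lat) : w (w⁻¹ x) = x := by simp

theorem Mon.inv {m : Aut K} {w : W} (h : c.Mon m w) : c.Mon m⁻¹ w⁻¹ := by
  have hi : ∀ x y, ip (w⁻¹ x) (w⁻¹ y) = ip x y := fun x y => by
    rw [← h.iso, W_app_inv, W_app_inv]
  refine ⟨inv_mem h.mem, hi, fun α hα => ?_, fun x => ?_⟩
  · obtain ⟨s, hs, h1⟩ := h.mono (w⁻¹ α) (by rw [hi, hα])
    rw [W_app_inv] at h1
    refine ⟨s⁻¹, inv_ne_zero hs, m.injective ?_⟩
    rw [app_inv, map_smul, h1, smul_smul, inv_mul_cancel₀ hs, one_smul]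
  · have := (h.out (w⁻¹ x)).neg
    rwa [W_app_inv, neg_sub] at this

theorem Mon.Sp {m : Aut K} {w : W} (h : c.Mon m w) {x : Lat} (hx : Sp c.n x) : Sp c.n (w x) := by
  have := (h.out x).add hx
  rwa [sub_add_cancel] at this

theorem Mon.R {m : Aut K} {w : W} (h : c.Mon m w) {x : Lat} (hx : c.R x) : c.R (w x) :=
  ⟨h.root hx.1, h.Sp hx.2⟩

theorem Mon.aut {m : Aut K} {w : W} (h : c.Mon m w) : m ∈ AutG K := G_aut h.mem

theorem Mon.e_sg {m : Aut K} {w : W} (h : c.Mon m w) {α : Lat} (hα : c.R α) {s : K}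
    (h1 : m (e α) = s • e (w α)) : m (e (sg c.b α)) = c.τ s • e (sg c.b (w α)) := by
  rw [← st_e hα.2, ← G_st h.mem (e_mem hα.2), h1, map_smulₛₗ, st_e (h.R hα).2]

theorem Mon.sg {m : Aut K} {w : W} (h : c.Mon m w) {α : Lat} (hα : c.R α) :
    w (sg c.b α) = sg c.b (w α) := by
  obtain ⟨s, _, h1⟩ := h.mono α hα.1
  obtain ⟨s', hs', h2⟩ := h.mono _ hα.sg.1
  exact (e_inj (h.root hα.sg.1) hs' (h2.symm.trans (h.e_sg hα h1))).1

theorem Mon.fix_iff {m : Aut K} {w : W} (h : c.Mon m w) {α : Lat} (hα : c.R α) :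
    Exc.sg c.b (w α) = w α ↔ Exc.sg c.b α = α := by rw [← h.sg hα, w.injective.eq_iff]

theorem Mon.conjY {m : Aut K} {w : W} (h : c.Mon m w) {α : Lat} (hα : c.R α) {s : K}
    (h1 : m (e α) = s • e (w α)) (t : K) : m * c.Y α t * m⁻¹ = c.Y (w α) (s * t) := by
  by_cases h' : Exc.sg c.b α = α
  · rw [Y_fix h', Y_fix ((h.fix_iff hα).2 h'), conj_X h.aut hα.1 (h.root hα.1) h1]
  · rw [Y_mov h', Y_mov (fun h2 => h' ((h.fix_iff hα).1 h2)), map_mul,
      ← conj_X h.aut hα.1 (h.root hα.1) h1,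
      ← conj_X h.aut hα.sg.1 (h.R hα).sg.1 (h.e_sg hα h1)]
    group

theorem Mon.Al {m : Aut K} {w : W} (h : c.Mon m w) {α : Lat} (hα : c.R α) {s : K} (hs : s ≠ 0)
    (h1 : m (e α) = s • e (w α)) : c.Al (w α) s := fun h' => by
  have h2 := h.e_sg hα h1
  rw [(h.fix_iff hα).1 h', h', h1] at h2
  exact (e_inj (h.root hα.1) hs h2).2.symm

theorem Mon.Al_mul {m : Aut K} {w : W} (h : c.Mon m w) {α : Lat} (hα : c.R α) {s : K} (hs : s ≠ 0)
    (h1 : m (e α) = s • e (w α)) {t : K} (ht : c.Al α t) : c.Al (w α) (s * t) := fun h' => by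
  rw [map_mul, h.Al hα hs h1 h', ht ((h.fix_iff hα).1 h')]

/-- `conjY` in existential form. -/
theorem Mon.conjY' {m : Aut K} {w : W} (h : c.Mon m w) {α : Lat} (hα : c.R α) {t : K}
    (ht : c.Al α t) : ∃ t', c.Al (w α) t' ∧ (t ≠ 0 → t' ≠ 0) ∧ m * c.Y α t = c.Y (w α) t' * m := by
  obtain ⟨s, hs, h1⟩ := h.mono α hα.1
  exact ⟨s * t, h.Al_mul hα hs h1 ht, mul_ne_zero hs, by rw [← h.conjY hα h1]; group⟩

theorem Mon.fst_zero {m : Aut K} {w : W} (h : c.Mon m w) {v : L K} (hv : v.1 = 0) :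
    (m v).1 = 0 := by
  rw [L_decomp v, hv]
  simp only [Pi.zero_apply, zero_smul, Finset.sum_const_zero, zero_add, map_sum, map_smul,
    Prod.fst_sum]
  refine Finset.sum_eq_zero fun β _ => ?_
  obtain ⟨s, _, h1⟩ := h.mono β.1 β.2
  rw [h1]; simp [e_fst]

theorem Mon.perp {m : Aut K} {w : W} (h : c.Mon m w) {y : Lat}
    (hy : ∀ x, Exc.Sp c.n x → ip y x = 0) : w y = y := by
  have h1 := hy _ (h.out y)
  rw [← sub_eq_zero]
  apply ip_self_eq_zero
  rw [ip_sub_right, ip_comm y] at h1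
  rw [norm_sub, h.iso]; omega

theorem Mon.hv {m : Aut K} {w : W} (h : c.Mon m w) {α : Lat} (hα : ip α α = 2) :
    m (Exc.hv α) = Exc.hv (w α) := by
  obtain ⟨s, _, h1⟩ := h.mono α hα
  obtain ⟨s', _, h2⟩ := h.mono _ (root_neg hα)
  rw [map_neg] at h2
  exact aut_hv h.aut hα (h.root hα) h1 h2

theorem wY_fix {α : Lat} (hα : c.R α) (h : sg c.b α = α) (x : Lat) :
    c.wY α x = x - ip x α • α := by rw [wY, if_pos h, rf_apply hα.1]

theorem wY_mov {α : Lat} (hα : c.R α) (h : sg c.b α ≠ α) (x : Lat) :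
    c.wY α x = x - ip x α • α - ip x (sg c.b α) • sg c.b α := by
  rw [wY, if_neg h, LinearEquiv.mul_apply, rf_apply hα.1, rf_apply hα.sg.1, ip_sub_left,
    ip_smul_left, ip_comm (sg c.b α), hα.orth h]; module

theorem wY_self {α : Lat} (hα : c.R α) : c.wY α α = -α := by
  by_cases h : sg c.b α = α
  · rw [wY_fix hα h, hα.1]; module
  · rw [wY_mov hα h, hα.1, hα.orth h]; module

theorem wY_wY {α : Lat} (hα : c.R α) (x : Lat) : c.wY α (c.wY α x) = x := by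
  by_cases h : sg c.b α = α
  · rw [wY_fix hα h, wY_fix hα h, ip_sub_left, ip_smul_left, hα.1]; module
  · rw [wY_mov hα h, wY_mov hα h]
    simp only [ip_sub_left, ip_smul_left, hα.1, hα.sg.1, ip_comm (sg c.b α) α, hα.orth h]; module

theorem wY_mul {α : Lat} (hα : c.R α) : c.wY α * c.wY α = 1 := LinearEquiv.ext (wY_wY hα)

theorem wY_inv {α : Lat} (hα : c.R α) : (c.wY α)⁻¹ = c.wY α := inv_eq_of_mul_eq_one_left (wY_mul hα)

theorem NY_fix {α : Lat} (h : sg c.b α = α) (r : K) : c.NY α r = N1 α r := by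
  rw [NY, Y_fix h, Y_fix (by rw [sg_neg, h]), N1]

theorem NY_mov {α : Lat} (hα : c.R α) (h : sg c.b α ≠ α) (r : K) :
    c.NY α r = N1 α r * N1 (sg c.b α) (c.τ r) := by
  have h0 := hα.orth h
  have c1 := X_comm hα.1 hα.sg.1 h0.ge r (c.τ r)
  have c2 := X_comm hα.neg.1 hα.sg.1 (by rw [ip_neg_left, h0]; rfl) r⁻¹ (c.τ r)
  have c3 := X_comm hα.1 hα.sg.neg.1 (by rw [ip_neg_right, h0]; rfl) r (c.τ r)⁻¹
  rw [NY, Y_mov h, Y_mov (by rw [sg_neg]; exact fun h' => h (neg_inj.1 h')), N1, N1, sg_neg,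
    map_inv₀]
  generalize X α r = p at *
  generalize X (-α) r⁻¹ = q at *
  generalize X (sg c.b α) (c.τ r) = p' at *
  generalize X (-sg c.b α) (c.τ r)⁻¹ = q' at *
  calc p * p' * (q * q') * (p * p') = p * (p' * q) * (q' * p) * p' := by group
    _ = p * q * (p' * p) * q' * p' := by rw [← c2, ← c3]; group
    _ = _ := by rw [← c1]; group

theorem NY_Mon {α : Lat} (hα : c.R α) {r : K} (hr : r ≠ 0) (ha : c.Al α r) :
    c.Mon (c.NY α r) (c.wY α) := by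
  have hm : c.NY α r ∈ c.G :=
    mul_mem (mul_mem (Y_mem hα ha) (Y_mem hα.neg ha.inv.neg')) (Y_mem hα ha)
  by_cases h : sg c.b α = α
  · refine ⟨hm, fun x y => by rw [wY, if_pos h, rf_iso hα.1], fun β hβ => ?_, fun x => ?_⟩
    · rw [NY_fix h, wY, if_pos h]; exact N1_e hα.1 hβ hr
    · rw [wY_fix hα h, sub_sub_cancel_left]; exact (hα.2.smul _).neg
  · refine ⟨hm, fun x y => ?_, fun β hβ => ?_, fun x => ?_⟩
    · rw [wY, if_neg h, LinearEquiv.mul_apply, LinearEquiv.mul_apply, rf_iso hα.1, rf_iso hα.sg.1]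
    · rw [NY_mov hα h, wY, if_neg h]
      obtain ⟨s, hs, h1⟩ := N1_e hα.sg.1 hβ ((map_ne_zero c.τ).2 hr)
      obtain ⟨s', hs', h2⟩ := N1_e hα.1 (β := rf (sg c.b α) β) (by rw [rf_iso hα.sg.1, hβ]) hr
      exact ⟨s * s', mul_ne_zero hs hs', by
        simp only [LinearEquiv.mul_apply, h1, map_smul, h2, smul_smul]⟩
    · rw [wY_mov hα h, show ∀ x p q : Lat, x - p - q - x = -p - q from fun x p q => by abel]
      exact (hα.2.smul _).neg.sub (hα.sg.2.smul _)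

/-- The rank one identity. -/
theorem rank_one {α : Lat} (hα : c.R α) {m : Aut K} (hm : c.Mon m (c.wY α)) {r : K} (hr : r ≠ 0)
    (ha : c.Al α r) : ∃ r1 r2 h, c.Al α r1 ∧ c.Al (-α) r2 ∧ c.Mon h 1 ∧
      m * c.Y α r = c.Y α r1 * h * c.Y (-α) r2 := by
  obtain ⟨t, ht, ht0, h1⟩ := hm.conjY' hα ha
  rw [wY_self hα] at ht h1
  have ht' : c.Al α t⁻¹ := by have := ht.inv.neg'; rwa [neg_neg] at this
  have hN := NY_Mon hα (inv_ne_zero (ht0 hr)) ht'
  obtain ⟨t2, ht2, _, h2⟩ := hm.inv.conjY' hα ht'.neg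
  rw [wY_inv hα, wY_self hα] at ht2 h2
  refine ⟨-t⁻¹, t2, c.NY α t⁻¹ * m, ht'.neg, ht2, wY_mul hα ▸ hN.mul hm, ?_⟩
  have h3 : c.Y (-α) t2 = m⁻¹ * c.Y α (-t⁻¹) * m := by rw [h2]; group
  rw [h1, h3, NY, inv_inv, ← Y_inv hα]; group

end Cfg

end Pool.Agent.MP_db74b1_al.Exc

end

section

set_option autoImplicit false

namespace Pool.Agent.MP_db74b1_al.Exc

variable {K : Type} [Field K]

def Ucl (K : Type) [Field K] (A : Lat → Prop) : Subgroup (Aut K) :=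
  Subgroup.closure {g | ∃ β t, A β ∧ ip β β = 2 ∧ g = X β t}

theorem X_mem_Ucl {A : Lat → Prop} {β : Lat} (h : A β) (t : K) : X β t ∈ Ucl K A := by
  by_cases hβ : ip β β = 2
  · exact Subgroup.subset_closure ⟨β, t, h, hβ, rfl⟩
  · simp [X, hβ]

theorem Ucl_le {A : Lat → Prop} {H : Subgroup (Aut K)}
    (h : ∀ β t, A β → ip β β = 2 → X β t ∈ H) : Ucl K A ≤ H :=
  (Subgroup.closure_le _).2 fun g hg => by
    obtain ⟨β, t, h1, h2, rfl⟩ := hg
    exact h β t h1 h2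

theorem Ucl_mono {A B : Lat → Prop} (h : ∀ β, ip β β = 2 → A β → B β) : Ucl K A ≤ Ucl K B :=
  Ucl_le fun β t h1 h2 => X_mem_Ucl (h β h2 h1) t

theorem Ucl_aut {A : Lat → Prop} {u : Aut K} (hu : u ∈ Ucl K A) : u ∈ AutG K :=
  Ucl_le (fun β t _ _ => X_aut β t) hu

theorem Ucl_induction {A : Lat → Prop} {p : Aut K → Prop} (h1 : p 1)
    (h : ∀ β t g, A β → ip β β = 2 → g ∈ Ucl K A → p g → p (X β t * g)) {g : Aut K}
    (hg : g ∈ Ucl K A) : p g := by
  induction hg using Subgroup.closure_induction_left with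
  | one => exact h1
  | mul_left x hx y hy' hy =>
    obtain ⟨α, t, h2, h3, rfl⟩ := hx
    exact h α t y h2 h3 hy' hy
  | inv_mul_cancel x hx y hy' hy =>
    obtain ⟨α, t, h2, h3, rfl⟩ := hx
    rw [X_inv]; exact h α _ y h2 h3 hy' hy

theorem Ucl_conj {A B : Lat → Prop} {g : Aut K}
    (h : ∀ β t, A β → ip β β = 2 → g * X β t * g⁻¹ ∈ Ucl K B) {u : Aut K} (hu : u ∈ Ucl K A) :
    g * u * g⁻¹ ∈ Ucl K B := by
  refine Ucl_induction (p := fun u => g * u * g⁻¹ ∈ Ucl K B) (by simp) (fun β t u h1 h2 _ h3 => ?_) hu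
  have := mul_mem (h β t h1 h2) h3
  rwa [show g * X β t * g⁻¹ * (g * u * g⁻¹) = g * (X β t * u) * g⁻¹ by group] at this

theorem Ucl_conj_X {A : Lat → Prop} {ζ : Lat} (hζ : ip ζ ζ = 2)
    (h : ∀ β, A β → ip β β = 2 → β ≠ -ζ ∧ (ip ζ β = -1 → A (ζ + β))) (s : K) {u : Aut K}
    (hu : u ∈ Ucl K A) : X ζ s * u * (X ζ s)⁻¹ ∈ Ucl K A := by
  refine Ucl_conj (fun β t h1 h2 => ?_) hu
  rcases ip_cases hζ h2 with h3 | h3 | h3
  · exact absurd h3 (h β h1 h2).1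
  · rw [X_conj_m1 hζ h2 h3]
    exact mul_mem (X_mem_Ucl h1 _) (X_mem_Ucl ((h β h1 h2).2 h3) _)
  · rw [X_comm hζ h2 h3, mul_inv_cancel_right]; exact X_mem_Ucl h1 _

theorem peel {A B : Lat → Prop} {ζ : Lat} (hζ : ip ζ ζ = 2)
    (hB : ∀ β, B β → ip β β = 2 → A β ∨ β = ζ)
    (h : ∀ β, A β → ip β β = 2 → β ≠ -ζ ∧ (ip ζ β = -1 → A (ζ + β))) {u : Aut K}
    (hu : u ∈ Ucl K B) : ∃ s, ∃ u' ∈ Ucl K A, u = X ζ s * u' := by
  refine Ucl_induction (p := fun u => ∃ s, ∃ u' ∈ Ucl K A, u = X ζ s * u')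
    ⟨0, 1, one_mem _, by simp [X_zero]⟩ (fun β t u h1 h2 _ ⟨s, u', h3, h4⟩ => ?_) hu
  rcases hB β h1 h2 with h5 | rfl
  · refine ⟨s, _, mul_mem (Ucl_conj_X hζ h (-s) (X_mem_Ucl h5 t)) h3, ?_⟩
    rw [h4, ← X_inv]; group
  · exact ⟨t + s, u', h3, by rw [h4, ← X_add, mul_assoc]⟩

/-- vanishing of coefficients on a set of weights -/
def van (Z : Lat → Prop) (v : L K) : Prop := (∀ β, Z β → co β v = 0) ∧ (Z 0 → v.1 = 0)

theorem van.add {Z : Lat → Prop} {v w : L K} (hv : van Z v) (hw : van Z w) : van Z (v + w) :=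
  ⟨fun β h => by rw [map_add, hv.1 β h, hw.1 β h, add_zero],
    fun h => by rw [Prod.fst_add, hv.2 h, hw.2 h, add_zero]⟩

theorem van.smul {Z : Lat → Prop} {v : L K} (hv : van Z v) (r : K) : van Z (r • v) :=
  ⟨fun β h => by rw [map_smul, hv.1 β h, smul_zero],
    fun h => by rw [Prod.smul_fst, hv.2 h, smul_zero]⟩

theorem van.neg {Z : Lat → Prop} {v : L K} (hv : van Z v) : van Z (-v) := by
  simpa using hv.smul (-1)

theorem van.sub {Z : Lat → Prop} {v w : L K} (hv : van Z v) (hw : van Z w) : van Z (v - w) := by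
  rw [sub_eq_add_neg]; exact hv.add hw.neg

theorem van.mono {Z Z' : Lat → Prop} {v : L K} (hv : van Z v) (h : ∀ β, Z' β → Z β) : van Z' v :=
  ⟨fun β h' => hv.1 β (h β h'), fun h' => hv.2 (h _ h')⟩

theorem van_e {Z : Lat → Prop} {β : Lat} (h : ¬ Z β) : van Z (e β : L K) :=
  ⟨fun _ h' => co_e_ne fun h2 => h (h2 ▸ h'), fun _ => rfl⟩

theorem van_hv {Z : Lat → Prop} (h : ¬ Z 0) (y : Lat) : van Z (hv y : L K) :=
  ⟨fun _ _ => co_hv _ _, fun h' => absurd h' h⟩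

theorem van_X {Z Z' : Lat → Prop} {α : Lat} (hα : ip α α = 2) (hZ : ∀ β, Z' β → Z β)
    (h : ∀ β, Z β → Z' (β - α)) (t : K) {v : L K} (hv : van Z' v) : van Z (X α t v - v) := by
  rw [X_apply hα, add_assoc, add_sub_cancel_left]
  refine ⟨fun β hβ => ?_, fun h0 => ?_⟩
  · rw [map_add, map_smul, map_smul, co_ad, hv.1 _ (h β hβ), co_e]
    by_cases h1 : β = α
    · subst h1
      have h2 : Z' 0 := by simpa using h β hβ
      have h3 : Z' (-β) := by simpa using h 0 (hZ _ h2)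
      rw [hv.1 _ h3, hp_apply, hv.2 h2]; simp
    · simp [h1]
  · have h3 : Z' (-α) := by simpa using h 0 h0
    ext i; simp [ad_fst, hv.1 _ h3]

theorem van_Ucl {A Z Z' : Lat → Prop} (hZ : ∀ β, Z' β → Z β)
    (h : ∀ α, A α → ip α α = 2 → ∀ β, Z β → Z' (β - α)) {v : L K} (hv : van Z' v) {u : Aut K}
    (hu : u ∈ Ucl K A) : van Z (u v - v) := by
  refine Ucl_induction (p := fun u => van Z (u v - v)) ⟨by simp, by simp⟩
    (fun α t u h1 h2 _ h3 => ?_) hu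
  have h4 : van Z' (u v) := by simpa using (h3.mono hZ).add hv
  have := (van_X h2 hZ (h α h1 h2) t h4).add h3
  rwa [sub_add_sub_cancel] at this

/-- Filtration version. -/
theorem van_lin {A : Lat → Prop} (l : Lat →+ ℤ) (k : ℤ) (h : ∀ α, A α → ip α α = 2 → 1 ≤ l α)
    {v : L K} (hv : van (fun β => l β < k) v) {u : Aut K} (hu : u ∈ Ucl K A) :
    van (fun β => l β ≤ k) (u v - v) :=
  van_Ucl (fun _ h' => h'.le) (fun α h1 h2 β hβ => by
    have := h α h1 h2; rw [map_sub]; omega) hv hu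

theorem co_lin {A : Lat → Prop} (l : Lat →+ ℤ) (k : ℤ) (h : ∀ α, A α → ip α α = 2 → 1 ≤ l α)
    {v : L K} (hv : van (fun β => l β < k) v) {u : Aut K} (hu : u ∈ Ucl K A) {β : Lat}
    (hβ : l β ≤ k) : co β (u v) = co β v := by
  have := (van_lin l k h hv hu).1 β hβ
  rwa [map_sub, sub_eq_zero] at this

theorem H_peel {A : Lat → Prop} (l : Lat →+ ℤ) {ζ : Lat} (hζ : ip ζ ζ = 2) (hl : 0 < l ζ)
    (h : ∀ β, A β → ip β β = 2 → l ζ ≤ l β ∧ β ≠ ζ) {u : Aut K} (hu : u ∈ Ucl K A) (s : K)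
    (i : Fin 8) : ((X ζ s * u) (e (-ζ))).1 i = -(s * ζ i) := by
  have h1 := van_Ucl (Z := fun β => l β < 0 ∨ β = 0) (Z' := fun β => (l β < 0 ∨ β = 0) ∧ β ≠ -ζ)
    (fun _ h' => h'.1) (fun α h1 h2 β hβ => ?_) (van_e (β := -ζ) (by simp)) hu
  · have h2 := h1.1 (-ζ) (Or.inl (by rw [map_neg]; omega))
    have h3 := h1.2 (Or.inr rfl)
    rw [map_sub, co_e_self (root_neg hζ), sub_eq_zero] at h2
    rw [Prod.fst_sub, e_fst, sub_zero] at h3
    rw [LinearEquiv.mul_apply, X_apply hζ]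
    simp [h3, ad_fst, h2, e_fst]
  · obtain ⟨h3, h4⟩ := h α h1 h2
    rcases hβ with hβ | rfl
    · refine ⟨Or.inl (by rw [map_sub]; omega), fun h5 => ?_⟩
      have := congrArg l h5
      rw [map_sub, map_neg] at this; omega
    · exact ⟨Or.inl (by rw [zero_sub, map_neg]; omega), by simpa using h4⟩

def H0 (ζ : Lat) (u : Aut K) : Prop := (u (e (-ζ))).1 = 0

def htL : Lat →+ ℤ := AddMonoidHom.mk' ht ht_add

theorem htL_apply (x : Lat) : htL x = ht x := rfl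

namespace Cfg

variable {c : Cfg K}

theorem peel_level (l : Lat →+ ℤ) {k : ℤ} (hk : 0 < k) {A B : Lat → Prop}
    (hB : ∀ β, A β ∨ B β → ip β β = 2 → Sp c.n β ∧ k ≤ l β) (hup : ∀ β, c.R β → k < l β → A β)
    {u : Aut K} (hH : ∀ ζ, B ζ → ip ζ ζ = 2 → ¬ A ζ → H0 ζ u) (hu : u ∈ Ucl K B) :
    u ∈ Ucl K A := by
  classical
  have key : ∀ T : Finset Root, (∀ ζ ∈ T, B ζ.1 ∧ ¬ A ζ.1) →
      u ∈ Ucl K (fun β => A β ∨ ∃ ζ ∈ T, ζ.1 = β) → u ∈ Ucl K A := by
    intro T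
    induction T using Finset.induction_on with
    | empty => exact fun _ h => Ucl_mono (fun β _ h' => by simpa using h') h
    | insert ζ T hζ ih =>
      intro hT hu
      apply ih fun ζ' h' => hT ζ' (Finset.mem_insert_of_mem h')
      obtain ⟨h1, h2⟩ := hT ζ (Finset.mem_insert_self _ _)
      obtain ⟨h3, h4⟩ := hB _ (Or.inr h1) ζ.2
      have h5 : l ζ.1 = k := le_antisymm (not_lt.1 fun h => h2 (hup _ ⟨ζ.2, h3⟩ h)) h4
      have hA : ∀ β, (A β ∨ ∃ ζ ∈ T, ζ.1 = β) → ip β β = 2 → Sp c.n β ∧ k ≤ l β ∧ β ≠ ζ.1 := by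
        rintro β (h | ⟨ζ', h, rfl⟩) hβ
        · exact ⟨(hB β (Or.inl h) hβ).1, (hB β (Or.inl h) hβ).2, fun h' => h2 (h' ▸ h)⟩
        · have := hB _ (Or.inr (hT ζ' (Finset.mem_insert_of_mem h)).1) hβ
          exact ⟨this.1, this.2, fun h' => hζ (Subtype.ext h' ▸ h)⟩
      obtain ⟨s, u', h6, h7⟩ := peel (A := fun β => A β ∨ ∃ ζ ∈ T, ζ.1 = β) ζ.2
        (fun β h _ => by
          rcases h with h | ⟨ζ', h, rfl⟩
          · exact Or.inl (Or.inl h)
          · rcases Finset.mem_insert.1 h with rfl | h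
            · exact Or.inr rfl
            · exact Or.inl (Or.inr ⟨ζ', h, rfl⟩))
        (fun β h hβ => by
          obtain ⟨h8, h9, _⟩ := hA β h hβ
          refine ⟨fun h' => ?_, fun h' => Or.inl (hup _ ⟨(root_add ζ.2 hβ).2 h', h3.add h8⟩ ?_)⟩
          · rw [h', map_neg] at h9; omega
          · rw [map_add]; omega) hu
      have h8 : s = 0 := cast_root ζ.2 fun i => by
        have := H_peel l ζ.2 (by omega) (fun β h hβ => ⟨h5 ▸ (hA β h hβ).2.1, (hA β h hβ).2.2⟩)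
          h6 s i
        rw [← h7, hH _ h1 ζ.2 h2] at this
        simpa using this
      rw [h7, h8, X_zero, one_mul]; exact h6
  refine key (Finset.univ.filter fun ζ : Root => B ζ.1 ∧ ¬ A ζ.1) (fun ζ h => by simpa using h)
    (Ucl_mono (fun β hβ h => ?_) hu)
  by_cases h' : A β
  · exact Or.inl h'
  · exact Or.inr ⟨⟨β, hβ⟩, by simp [h, h'], rfl⟩

theorem peel_all (l : Lat →+ ℤ) (k : ℕ) {u : Aut K}
    (hH : ∀ ζ, c.R ζ → 0 < l ζ → l ζ ≤ k → H0 ζ u)
    (hu : u ∈ Ucl K (fun β => Sp c.n β ∧ 0 < l β)) : u ∈ Ucl K (fun β => Sp c.n β ∧ k < l β) := by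
  induction k with
  | zero => exact hu
  | succ k ih =>
    refine peel_level (c := c) l (k := k + 1) (by omega) (fun β h _ => ?_) (fun β h h' => ⟨h.2, h'⟩)
      (fun ζ h h' h2 => hH ζ ⟨h', h.1⟩ (by have := h.2; omega) (not_lt.1 fun h3 => h2 ⟨h.1, h3⟩))
      (ih fun ζ h1 h2 h3 => hH ζ h1 h2 (by push_cast; omega))
    rcases h with h | h
    · exact ⟨h.1, by have := h.2; push_cast at this; omega⟩
    · exact ⟨h.1, by have := h.2; omega⟩

theorem peelY (l : Lat →+ ℤ) {ζ : Lat} (hζ : c.R ζ) (hl : 0 < l ζ) (hl' : l (sg c.b ζ) = l ζ)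
    {A B : Lat → Prop} (hB : ∀ β, B β → ip β β = 2 → A β ∨ β = ζ ∨ β = sg c.b ζ)
    (hA : ∀ β, A β → ip β β = 2 → l ζ ≤ l β ∧ β ≠ ζ ∧ β ≠ sg c.b ζ ∧
      (ip ζ β = -1 → A (ζ + β)) ∧ (ip (sg c.b ζ) β = -1 → A (sg c.b ζ + β)))
    {u : Aut K} (hG : u ∈ c.G) (hu : u ∈ Ucl K B) :
    ∃ t, c.Al ζ t ∧ (∃ u' ∈ Ucl K A, u = c.Y ζ t * u') ∧ ∀ i, (u (e (-ζ))).1 i = -(t * ζ i) := by
  have hn : ∀ β, A β → ip β β = 2 → β ≠ -ζ ∧ β ≠ -sg c.b ζ := fun β h hβ => by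
    have := (hA β h hβ).1
    constructor <;> rintro rfl <;> rw [map_neg] at this <;> omega
  have hst : ∀ i, (u (e (-sg c.b ζ))).1 i = c.τ ((u (e (-ζ))).1 (pm c.b i)) := fun i => by
    rw [← sg_neg, ← st_e hζ.neg.2, ← G_st hG (e_mem hζ.neg.2), st_fst]
  by_cases h : sg c.b ζ = ζ
  · obtain ⟨s, u', h1, h2⟩ := peel (A := A) hζ.1 (fun β h1 h2 => by
      rcases hB β h1 h2 with h3 | h3 | h3
      · exact Or.inl h3
      · exact Or.inr h3
      · exact Or.inr (h3.trans h)) (fun β h1 h2 => ⟨(hn β h1 h2).1, (hA β h1 h2).2.2.2.1⟩) hu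
    have h3 := H_peel l hζ.1 hl (fun β h1 h2 => ⟨(hA β h1 h2).1, (hA β h1 h2).2.1⟩) h1 s
    rw [← h2] at h3
    refine ⟨s, fun _ => ?_, ⟨u', h1, by rw [Y_fix h, h2]⟩, h3⟩
    rw [← sub_eq_zero]
    refine cast_root hζ.1 fun i => ?_
    have h4 := hst i
    rw [h, h3, h3, map_neg, map_mul, map_intCast, show ζ (pm c.b i) = ζ i from congrFun h i] at h4
    linear_combination h4
  · have h0 := hζ.orth h
    obtain ⟨s, u1, h1, h2⟩ := peel (A := fun β => A β ∨ β = sg c.b ζ) hζ.1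
      (fun β h1 h2 => by have := hB β h1 h2; tauto) (fun β h1 h2 => by
        rcases h1 with h1 | rfl
        · exact ⟨(hn β h1 h2).1, fun h3 => Or.inl ((hA β h1 h2).2.2.2.1 h3)⟩
        · exact ⟨fun h3 => by rw [h3, ip_neg_right, hζ.1] at h0; omega,
            fun h3 => by omega⟩) hu
    obtain ⟨s', u', h3, h4⟩ := peel (A := A) hζ.sg.1 (fun β h1 _ => h1)
      (fun β h1 h2 => ⟨(hn β h1 h2).2, (hA β h1 h2).2.2.2.2⟩) h1
    have h5 := H_peel l hζ.1 hl (fun β h1 h2 => by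
      rcases h1 with h1 | rfl
      · exact ⟨(hA β h1 h2).1, (hA β h1 h2).2.1⟩
      · exact ⟨hl'.ge, h⟩) h1 s
    have h6 := H_peel (A := fun β => A β ∨ β = ζ) l hζ.sg.1 (by omega) (fun β h1 h2 => by
      rcases h1 with h1 | rfl
      · exact ⟨hl' ▸ (hA β h1 h2).1, (hA β h1 h2).2.2.1⟩
      · exact ⟨hl'.le, Ne.symm h⟩)
      (mul_mem (X_mem_Ucl (Or.inr rfl) s) (Ucl_mono (fun _ _ h => Or.inl h) h3)) s'
    rw [← mul_assoc, ← X_comm hζ.1 hζ.sg.1 h0.ge, mul_assoc, ← h4, ← h2] at h6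
    rw [← h2] at h5
    have h7 : s' = c.τ s := by
      rw [← sub_eq_zero]
      refine cast_root hζ.sg.1 fun i => ?_
      have h8 := hst i
      rw [h5, h6, map_neg, map_mul, map_intCast] at h8
      change _ * (ζ (pm c.b i) : K) = 0
      change -(_ * (ζ (pm c.b i) : K)) = _ at h8
      linear_combination -h8
    exact ⟨s, fun h' => absurd h' h, ⟨u', h3, by rw [Y_mov h, h2, h4, h7, mul_assoc]⟩, h5⟩

theorem Mon.conjU {m : Aut K} {w : W} (h : c.Mon m w) {A B : Lat → Prop}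
    (hA : ∀ β, A β → ip β β = 2 → B (w β)) {u : Aut K} (hu : u ∈ Ucl K A) :
    m * u * m⁻¹ ∈ Ucl K B := by
  refine Ucl_conj (fun β t h1 h2 => ?_) hu
  obtain ⟨s, _, h3⟩ := h.mono β h2
  rw [conj_X h.aut h2 (h.root h2) h3]
  exact X_mem_Ucl (hA β h1 h2) _

theorem Mon.H0 {m : Aut K} {w : W} (h : c.Mon m w) {ζ : Lat} (hζ : ip ζ ζ = 2) {u : Aut K}
    (hu : H0 (w ζ) (m * u * m⁻¹)) : H0 ζ u := by
  obtain ⟨s, _, h1⟩ := h.mono _ (root_neg hζ)
  have h2 : u (e (-ζ)) = s • m⁻¹ ((m * u * m⁻¹) (e (-w ζ))) := by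
    rw [← map_neg w, ← map_smul, ← map_smul, ← h1]; simp
  rw [Exc.H0, h2, Prod.smul_fst, h.inv.fst_zero hu, smul_zero]

theorem H0_sg {ζ : Lat} (hζ : c.R ζ) {u : Aut K} (hG : u ∈ c.G) (hu : H0 ζ u) :
    H0 (sg c.b ζ) u := by
  ext i
  rw [← sg_neg, ← st_e hζ.neg.2, ← G_st hG (e_mem hζ.neg.2), st_fst, hu]; simp

theorem Y_mem_Ucl {A : Lat → Prop} {α : Lat} (h1 : A α) (h2 : A (sg c.b α)) (t : K) :
    c.Y α t ∈ Ucl K A := by
  unfold Y; split_ifs
  · exact X_mem_Ucl h1 _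
  · exact mul_mem (X_mem_Ucl h1 _) (X_mem_Ucl h2 _)

theorem Ucl_conj_Y {A : Lat → Prop} {ζ : Lat} (hζ : c.R ζ)
    (h : ∀ β, A β → ip β β = 2 → β ≠ -ζ ∧ (ip ζ β = -1 → A (ζ + β)))
    (h' : ∀ β, A β → ip β β = 2 → β ≠ -sg c.b ζ ∧ (ip (sg c.b ζ) β = -1 → A (sg c.b ζ + β)))
    (s : K) {u : Aut K} (hu : u ∈ Ucl K A) : c.Y ζ s * u * (c.Y ζ s)⁻¹ ∈ Ucl K A := by
  unfold Y; split_ifs
  · exact Ucl_conj_X hζ.1 h s hu
  · have := Ucl_conj_X hζ.1 h s (Ucl_conj_X hζ.sg.1 h' (c.τ s) hu)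
    rwa [show ∀ p q u : Aut K, p * (q * u * q⁻¹) * p⁻¹ = p * q * u * (p * q)⁻¹ from
      fun p q u => by group] at this

end Cfg

end Pool.Agent.MP_db74b1_al.Exc

end
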