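import Pool.Agent.Mg.Fdb74b1.G7f0435
import Pool.Agent.Mg.Fdb74b1.G44f60e

section

/-! `F₄(2)`: the two types of elements sending `x` to `y`, and the first type. -/

set_option autoImplicit false

namespace Pool.Agent.MP_db74b1_al.Exc

variable {K : Type} [Field K]

namespace F2DX

theorem s0 : Sh k0 := by decide
theorem se : Sh et := by decide
theorem sp : Sh p2 := by decide
theorem sq : Sh (-k0 + p2) := by decide

theorem lev_sub : ∀ δ ∈ allL, Sh δ → (Sh (δ - k0) → ips k0 (δ - k0) = -1 ∨ ips k0 (δ - k0) = 0) ∧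
    (Sh (δ - sg true k0) → ips k0 (δ - sg true k0) = -1 ∨ ips k0 (δ - sg true k0) = 0) := by
  decide +kernel

theorem pair_fact : ∀ γ ∈ allL, Sh γ → ips k0 γ = 1 → ∀ δ ∈ allL, Sh δ → ips k0 δ = 1 →
    ips γ δ = -1 →
    (ipx (-γ) k0 = -1 ∧ ipx (-γ) (sg true k0) = 0 ∧
      ((∀ i, (-γ + k0) i = δ i) ∨ ∀ i, (-γ + k0) i = sg true δ i)) ∨
    (ipx (-γ) (sg true k0) = -1 ∧ ipx (-γ) (sg true (sg true k0)) = 0 ∧
      ((∀ i, (-γ + sg true k0) i = δ i) ∨ ∀ i, (-γ + sg true k0) i = sg true δ i)) := by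
  decide +kernel

theorem ne_of_lev {β γ : Lat} (h : ips k0 β ≠ ips k0 γ) : β ≠ γ ∧ β ≠ sg true γ :=
  ⟨fun e => h (by rw [e]), fun e => h (by rw [e, ips_sg])⟩

theorem l0 : ips k0 k0 = 2 := by decide
theorem l0' : ips k0 (-k0) = -2 := by decide

end F2DX

namespace Cfg

variable {c : Cfg K}

namespace F2

variable (F : c.F2)
include F

open F2DX

theorem hp_et {m : L K} (hm : m ∈ MM K) : hp k0 m = hp et m := by
  refine F.MM_ind (P := fun m => hp k0 m = hp et m) (by simp) (fun v w _ _ h1 h2 => ?_)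
    (fun β _ => ?_) ?_ ?_ hm
  · simp only [map_add, h1, h2]
  · simp only [hp_sh]
  · simp only [hp_hs]
    rw [show ips k0 (a 0) = 1 by decide, show ips et (a 0) = -1 by decide]
    push_cast
    linear_combination F.two
  · simp only [hp_hs]
    rw [show ips k0 (a 2) = 0 by decide, show ips et (a 2) = 0 by decide]

theorem typ_s {g : Aut K} (hg : g ∈ c.G) (h1 : c.BS 1 g) (h0 : c.BS 0 g)
    (h : g (sh k0) = sh (-k0)) :
    g⁻¹ (sh k0) = sh (-k0) ∨ g⁻¹ (sh k0) = sh k0 + hs k0 + sh (-k0) := by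
  have mx : (sh k0 : L K) ∈ MM K := sh_mem s0
  have my : (sh (-k0) : L K) ∈ MM K := sh_mem s0.neg
  have mh : (hs k0 : L K) ∈ MM K := F.hs_mem s0.2.1
  have mz := F.MM_G (inv_mem hg) mx
  have A := G_aut (inv_mem hg)
  have Q : ∀ m ∈ MM K, br (g⁻¹ (sh k0)) (br (g⁻¹ (sh k0)) m) = 0 := fun m hm => by
    rw [← inv_app g m, ← A.1, ← A.1, F.brbr s0 (F.MM_G hg hm), map_zero]
  have B : ∀ m ∈ MM K, Bm (sh k0) (g m) = Bm m (g⁻¹ (sh k0)) := fun m hm => by
    rw [F.Bm_inv hg mx hm, F.Bm_comm mz hm]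
  have ey := F.Y_M se mx
  rw [F.br_sh_nn se s0 (by decide), co_sh_ne (ne_of_lev (by decide)), zero_smul, add_zero,
    add_zero] at ey
  have ey2 := F.Y_M se (sh_mem se.neg : (sh (-et) : L K) ∈ MM K)
  rw [F.br_sh_m2 se, co_sh_self se.neg, one_smul] at ey2
  have z0 := h0 _ (F.Y_mem_Sh se) k0 (-et) s0 se.neg (by decide)
  have me : (sh (-et) + hs et + sh et : L K) ∈ MM K :=
    add_mem (add_mem (sh_mem se.neg) (F.hs_mem se.2.1)) (sh_mem se)
  rw [ey, ey2, B _ me, h] at z0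
  have z1 := B _ mx
  rw [h, F.Bm_sh s0 my, F.Bm_sh s0 mz, co_sh_self s0.neg] at z1
  generalize g⁻¹ (sh k0) = z at mz Q B z0 z1 ⊢
  have z2 : ∀ β, Sh β → ips k0 β = -1 ∨ ips k0 β = 0 → co β z = 0 := fun β hβ hl => by
    have e : Bm (sh k0) (g (sh (-β))) = Bm (sh (-β)) (g (sh k0)) := by
      rcases hl with hl | hl
      · exact h1 1 (one_mem _) k0 (-β) s0 hβ.neg (by rw [ips_neg, hl]; rfl)
      · exact h0 1 (one_mem _) k0 (-β) s0 hβ.neg (by rw [ips_neg, hl]; rfl)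
    rwa [B _ (sh_mem hβ.neg), h, F.Bm_sh hβ.neg mz, F.Bm_sh hβ.neg my, neg_neg,
      co_sh_ne (ne_of_lev (by rw [l0']; omega))] at e
  have z3 : hp k0 z = 0 := by
    simp only [map_add, LinearMap.add_apply] at z0
    rw [F.Bm_sh se.neg mz, F.Bm_sh se mz, F.Bm_hs se.2.1 mz, F.Bm_sh se.neg my, F.Bm_sh se my,
      F.Bm_hs se.2.1 my, hp_sh, z2 _ se.neg.neg (by decide), z2 _ se.neg (by decide),
      co_sh_ne (ne_of_lev (by decide)), co_sh_ne (ne_of_lev (by decide))] at z0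
    rw [F.hp_et mz]
    simpa using z0
  have z4 : br (sh k0) (z - sh (-k0)) = 0 := by
    have mu := sub_mem mz my
    have c1 : co (-k0) (z - sh (-k0)) = 0 := by rw [map_sub, ← z1, co_sh_self s0.neg, sub_self]
    have c2 : ∀ β, (Sh β → ips k0 β = -1 ∨ ips k0 β = 0) → co β (z - sh (-k0)) = 0 :=
      fun β hβ => by
        by_cases hs : Sh β
        · rw [map_sub, z2 β hs (hβ hs), co_sh_ne (ne_of_lev (by
            rw [l0']; have := hβ hs; omega)), sub_self]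
        · exact mu.1 β hs
    refine F.MM_ext (F.br_mem mx mu) ?_ fun δ hδ => ?_
    · have c3 : co (-sg true k0) (z - sh (-k0)) = 0 := (mu.2.1 _ s0.neg).trans c1
      rw [F.br_sh k0 s0]
      funext i
      simp only [Prod.fst_add, Pi.add_apply, ad_fst, c1, c3, mul_zero, add_zero, Pi.zero_apply]
    · by_cases e1 : δ = k0
      · rw [e1, F.co_br_self s0, map_sub, z3, hp_sh, sub_self]
      by_cases e2 : δ = sg true k0
      · rw [e2, (F.br_mem mx mu).2.1 _ s0, F.co_br_self s0, map_sub, z3, hp_sh, sub_self]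
      rw [F.co_br_sh s0 hδ ⟨e1, e2⟩, c2 _ (lev_sub δ hδ.allL hδ).1, c2 _ (lev_sub δ hδ.allL hδ).2,
        add_zero]
  have z5 : br (hs k0) z = 0 := by
    have e : br (sh k0) z = hs k0 := by
      have := z4
      rwa [map_sub, F.br_sh_m2 s0, sub_eq_zero] at this
    have := Q _ mx
    rwa [F.br_comm z (sh k0), e, F.br_comm] at this
  have z6 : ∀ β, Sh β → ips k0 β = 1 → co β z = 0 := fun β hβ hl => by
    have := F.co_br_hs s0.2.1 hβ.2.1 z
    rw [z5, map_zero, hl] at this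
    simpa using this.symm
  have mu : z - sh (-k0) - co k0 z • sh k0 ∈ MM K :=
    sub_mem (sub_mem mz my) ((MM K).smul_mem _ mx)
  have z7 := F.cartan mu (by simp only [map_sub, map_smul, z3, hp_sh]; simp) fun β hβ => by
    have n1 : ips k0 β ≠ -2 → co β (sh (-k0) : L K) = 0 := fun e =>
      co_sh_ne (ne_of_lev (by rwa [l0']))
    have n2 : ips k0 β ≠ 2 → co β (sh k0 : L K) = 0 := fun e => co_sh_ne (ne_of_lev (by rwa [l0]))
    rcases ips_cases s0 hβ with ⟨_, rfl | rfl⟩ | e | e | ⟨e, -⟩ | ⟨_, rfl | rfl⟩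
    · simp only [map_sub, map_smul, n1 (by omega), co_sh_self s0]; simp
    · rw [mu.2.1 _ s0]
      simp only [map_sub, map_smul, co_sh_self s0,
        co_sh_ne (K := K) (ne_of_lev (β := k0) (γ := -k0) (by decide))]
      simp
    · simp only [map_sub, map_smul, n1 (by omega), n2 (by omega), z6 β hβ e]; simp
    · simp only [map_sub, map_smul, n1 (by omega), n2 (by omega), z2 β hβ (Or.inr e)]; simp
    · simp only [map_sub, map_smul, n1 (by omega), n2 (by omega), z2 β hβ (Or.inl e)]; simp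
    · simp only [map_sub, map_smul, n2 (by omega), co_sh_self s0.neg, ← z1]; simp
    · refine (mu.2.1 _ s0.neg).trans ?_
      simp only [map_sub, map_smul, co_sh_self s0.neg, ← z1,
        co_sh_ne (K := K) (ne_of_lev (β := -k0) (γ := k0) (by decide))]
      simp
  have q := Q _ (sh_mem sp)
  have b1 : br (sh (-k0) : L K) (sh p2) = sh (-k0 + p2) :=
    F.br_sh_m1 s0.neg sp (by decide) (by decide)
  have b2 : br (sh k0 : L K) (sh p2) = 0 := F.br_sh_nn s0 sp (by decide)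
  have b3 : br (sh (-k0) : L K) (sh (-k0 + p2)) = 0 := F.br_sh_nn s0.neg sq (by decide)
  have b4 : br (sh k0 : L K) (sh (-k0 + p2)) = sh p2 := by
    rw [F.br_sh_m1 s0 sq (by decide) (by decide), add_neg_cancel_left]
  have b5 : br (hs k0 : L K) (sh p2) = sh p2 := by
    rw [F.br_hs_sh s0.2.1 sp, show ips k0 p2 = 1 by decide, Int.cast_one, one_smul]
  have b6 : br (hs k0 : L K) (sh (-k0 + p2)) = -sh (-k0 + p2) := by
    rw [F.br_hs_sh s0.2.1 sq, show ips k0 (-k0 + p2) = -1 by decide]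
    simp
  have n : (sh p2 : L K) ≠ 0 := fun e => by
    have := co_sh_self (K := K) sp
    rw [e, map_zero] at this
    exact zero_ne_one this
  rcases F.val (co k0 z) with t | t <;> rw [t] at z7 <;> rcases z7 with e | e
  · left
    rwa [zero_smul, sub_zero, sub_eq_zero] at e
  · rw [zero_smul, sub_zero, sub_eq_iff_eq_add] at e
    rw [e] at q
    simp only [map_add, LinearMap.add_apply, b1, b3, b5, b6] at q
    exact absurd (by rw [← q]; abel) n
  · rw [one_smul, sub_sub, sub_eq_zero] at e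
    rw [e] at q
    simp only [map_add, LinearMap.add_apply, b1, b2, b3, b4, add_zero, zero_add] at q
    exact absurd q n
  · right
    rw [one_smul, sub_sub, sub_eq_iff_eq_add] at e
    rw [e]
    abel

theorem ncase {g : Aut K} (hg : g ∈ c.G) (h1 : c.BS 1 g) (h0 : c.BS 0 g)
    (h : g (sh k0) = sh (-k0)) (h' : g⁻¹ (sh k0) = sh (-k0)) : ∀ m ∈ MM K, g (g m) = m := by
  have mx : (sh k0 : L K) ∈ MM K := sh_mem s0
  have hy : g (sh (-k0)) = sh k0 := by rw [← h', app_inv]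
  have hy' : g⁻¹ (sh (-k0)) = sh k0 := by rw [← h, inv_app]
  have low : ∀ p ∈ c.G, p (sh k0) = sh (-k0) → p (sh (-k0)) = sh k0 → ∀ δ, Sh δ → ips k0 δ = 1 →
      (p (sh δ)).1 = 0 ∧ ∀ β, Sh β → ips k0 β ≠ -1 → co β (p (sh δ)) = 0 :=
    fun p hp e1 e2 δ hδ hl => by
      have A := (G_aut hp).1
      have e3 : p (hs k0) = hs k0 := by
        rw [← F.br_sh_m2 s0, A, e1, e2, F.br_comm]
      refine F.lev_neg (F.MM_G hp (sh_mem hδ)) ?_ ?_
      · rw [← e3, ← A, F.br_hs_sh s0.2.1 hδ, hl, Int.cast_one, one_smul]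
      · rw [← e1, ← A, F.br_sh_nn s0 hδ (by omega), map_zero]
  refine F.gen_M (g := g * g) (mul_mem hg hg) (by rw [LinearEquiv.mul_apply, h, hy])
    (by rw [LinearEquiv.mul_apply, hy, h]) fun δ hδ hl => ?_
  obtain ⟨a1, a2⟩ := low g hg h hy δ hδ hl
  obtain ⟨a3, a4⟩ := low g⁻¹ (inv_mem hg) h' hy' δ hδ hl
  have mw : (sh δ : L K) ∈ MM K := sh_mem hδ
  have mD := add_mem (F.MM_G hg mw) (F.MM_G (inv_mem hg) mw)
  have f1 : (g (sh δ) + g⁻¹ (sh δ)).1 = 0 := by rw [Prod.fst_add, a1, a3, add_zero]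
  have f2 : ∀ β, Sh β → ips k0 β ≠ -1 → co β (g (sh δ) + g⁻¹ (sh δ)) = 0 := fun β hβ e => by
    rw [map_add, a2 β hβ e, a4 β hβ e, add_zero]
  have key : g (sh δ) + g⁻¹ (sh δ) = 0 := F.MM_ext mD f1 fun β hβ => by
    by_cases e : ips k0 β = -1
    swap
    · exact f2 β hβ e
    obtain ⟨γ, rfl⟩ : ∃ γ, β = -γ := ⟨-β, (neg_neg β).symm⟩
    have hγ : Sh γ := by simpa using hβ.neg
    have lγ : ips k0 γ = 1 := by rw [ips_neg] at e; omega
    have two : sh δ = (sh γ : L K) → co (-γ) (g (sh δ) + g⁻¹ (sh δ)) = 0 := fun e => by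
      rw [← F.Bm_sh hγ mD, ← e, map_add, F.Bm_inv hg mw mw,
        F.Bm_comm (F.MM_G (inv_mem hg) mw) mw, ← two_mul, F.two, zero_mul]
    rcases ips_cases hγ hδ with ⟨_, rfl | rfl⟩ | e | e | ⟨e, -⟩ | ⟨_, rfl | rfl⟩
    · exact two rfl
    · exact two (sh_sg γ)
    · rw [← F.Bm_sh hγ mD]
      exact F.BS_D hg h1 (one_mem _) hγ hδ e
    · rw [← F.Bm_sh hγ mD]
      exact F.BS_D hg h0 (one_mem _) hγ hδ e
    · have b : br (sh (-γ) : L K) (sh k0) = sh δ := by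
        rcases pair_fact γ hγ.allL hγ lγ δ hδ.allL hδ hl e with ⟨i1, i2, i3 | i3⟩ | ⟨i1, i2, i3 | i3⟩
        · rw [F.br_sh_m1 hβ s0 i1 i2, funext i3]
        · rw [F.br_sh_m1 hβ s0 i1 i2, funext i3, sh_sg]
        · rw [← sh_sg k0, F.br_sh_m1 hβ s0.sg i1 i2, funext i3]
        · rw [← sh_sg k0, F.br_sh_m1 hβ s0.sg i1 i2, funext i3, sh_sg]
      have y1 := F.Y_M hβ mx
      rw [b, co_sh_ne (ne_of_lev (by rw [neg_neg, lγ, l0]; decide)), zero_smul, add_zero] at y1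
      have y2 := F.Y_M hβ (sh_mem hβ.neg : (sh (- -γ) : L K) ∈ MM K)
      rw [F.br_sh_m2 hβ, co_sh_self hβ.neg, one_smul, neg_neg] at y2
      have k := F.BS_D hg h1 (F.Y_mem_Sh hβ) hγ s0 (by rw [ips_comm hγ.2.1 s0.2.1, lγ])
      rw [y1, y2, map_add g, map_add g⁻¹, h, h', add_add_add_comm, F.add_self, zero_add] at k
      simp only [map_add Bm, LinearMap.add_apply] at k
      rw [F.Bm_sh hγ mD, F.Bm_sh hβ mD, F.Bm_hs hβ.2.1 mD, neg_neg, f2 γ hγ (by omega), hp_apply,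
        f1] at k
      simpa using k
    · rw [ips_neg] at hl; omega
    · rw [ips_neg, ips_sg] at hl; omega
  rw [LinearEquiv.mul_apply, eq_neg_of_add_eq_zero_left key, neg_eq2 F.two, app_inv]

end F2

end Cfg

end Pool.Agent.MP_db74b1_al.Exc

end

section

/-! `F₄(2)`: the case where `g` acts with order three on the short root `SL₂`. -/

set_option autoImplicit false

namespace Pool.Agent.MP_db74b1_al.Exc

variable {K : Type} [Field K]

namespace E2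

theorem k0_Sh : Sh k0 := by decide +kernel
theorem lev0_et : ∀ β ∈ allL, Sh β → ips k0 β = 0 → ips (-β) et ≠ -1 := by decide +kernel
theorem lev0_be : ∀ β ∈ allL, Sh β → ips k0 β = 0 → ips (-β) be ≠ -1 := by decide +kernel

theorem ips_neg' {β γ : Lat} (hβ : Sh β) (hγ : Sh γ) : ips (-β) γ = -ips β γ := by
  rw [ips_comm hβ.neg.2.1 hγ.2.1, ips_neg, ips_comm hβ.2.1 hγ.2.1]

theorem ips_self {β : Lat} (hβ : Sh β) : ips β β = 2 := by
  have : ∀ β ∈ allL, Sh β → ips β β = 2 := by decide +kernel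
  exact this β hβ.allL hβ

theorem k2 : ips k0 k0 = 2 := ips_self k0_Sh
theorem k2' : ips k0 (-k0) = -2 := by rw [ips_neg, ips_self k0_Sh]

theorem sh_eq {β γ : Lat} (h : γ = β ∨ γ = sg true β) : (sh γ : L K) = sh β := by
  rcases h with rfl | rfl
  · rfl
  · exact sh_sg _

theorem co_ne {β γ : Lat} (hβ : Sh β) (h : ips β γ ≠ -2) : co (-β) (sh γ : L K) = 0 := by
  refine co_sh_ne ⟨fun h1 => h ?_, fun h1 => h ?_⟩
  · rw [← h1, ips_neg, ips_self hβ]
  · rw [← ips_sg, ← h1, ips_neg, ips_self hβ]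

theorem hp_zero (β : Lat) {v : L K} (h : v.1 = 0) : hp β v = 0 := by simp [hp_apply, h]

/-- the level one part -/
def V (w : L K) : Prop := w ∈ MM K ∧ br (hs k0) w = w ∧ br (sh k0) w = 0

/-- the stabiliser of `x`, `y` -/
def Lv (c : Cfg K) (l : Aut K) : Prop := l ∈ c.G ∧ l (sh k0) = sh k0 ∧ l (sh (-k0)) = sh (-k0)

noncomputable def rho (c : Cfg K) : Aut K := c.Y k0 1 * c.Y (-k0) 1

theorem V.add {v w : L K} (hv : V v) (hw : V w) : V (v + w) :=
  ⟨add_mem hv.1 hw.1, by rw [map_add, hv.2.1, hw.2.1], by rw [map_add, hv.2.2, hw.2.2, add_zero]⟩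

theorem V.smul {v : L K} (hv : V v) (t : K) : V (t • v) :=
  ⟨(MM K).smul_mem t hv.1, by rw [map_smul, hv.2.1], by rw [map_smul, hv.2.2, smul_zero]⟩

variable {c : Cfg K}

theorem Lv.inv {l : Aut K} (h : Lv c l) : Lv c l⁻¹ :=
  ⟨inv_mem h.1, by rw [← l.injective.eq_iff, app_inv, h.2.1],
    by rw [← l.injective.eq_iff, app_inv, h.2.2]⟩

variable (F : c.F2)
include F

theorem Lv.h {l : Aut K} (h : Lv c l) : l (hs k0) = hs k0 := by
  rw [← F.br_sh_m2 k0_Sh, (Cfg.G_aut h.1).1, h.2.1, h.2.2]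

theorem Lv.V {l : Aut K} (h : Lv c l) {w : L K} (hw : V w) : V (l w) :=
  ⟨F.MM_G h.1 hw.1, by rw [← h.h F, ← (Cfg.G_aut h.1).1, hw.2.1],
    by rw [← h.2.1, ← (Cfg.G_aut h.1).1, hw.2.2, map_zero]⟩

theorem V_sh {γ : Lat} (hγ : Sh γ) (h : ips k0 γ = 1) : V (sh γ : L K) :=
  ⟨sh_mem hγ, by rw [F.br_hs_sh k0_Sh.2.1 hγ, h]; simp, F.br_sh_nn k0_Sh hγ (by omega)⟩

theorem hx : br (hs k0 : L K) (sh k0) = 0 := by
  rw [F.br_hs_sh k0_Sh.2.1 k0_Sh, ips_self k0_Sh]; push_cast; rw [F.two, zero_smul]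

theorem hy : br (hs k0 : L K) (sh (-k0)) = 0 := by
  rw [F.br_hs_sh k0_Sh.2.1 k0_Sh.neg, ips_neg, ips_self k0_Sh]; push_cast
  rw [F.two, neg_zero, zero_smul]

theorem V.xy {w : L K} (hw : V w) : br (sh k0) (br (sh (-k0)) w) = w := by
  rw [F.jac_sh k0_Sh, F.br_sh_m2 k0_Sh, hw.2.1, hw.2.2, map_zero, add_zero]

theorem V.neg {w : L K} (hw : V w) : (br (sh (-k0)) w).1 = 0 ∧
    ∀ β, Sh β → ips k0 β ≠ -1 → co β (br (sh (-k0)) w) = 0 := by
  refine F.lev_neg (F.br_mem (sh_mem k0_Sh.neg) hw.1) ?_ (F.brbr k0_Sh.neg hw.1)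
  have := F.jac_sh k0_Sh.neg (hs k0) w
  rw [hw.2.1, F.br_comm _ (hs k0), hy F, map_zero, LinearMap.zero_apply, zero_add] at this
  exact this.symm

theorem V.one {w : L K} (hw : V w) : w.1 = 0 ∧ ∀ β, Sh β → ips k0 β ≠ 1 → co β w = 0 :=
  F.lev_one hw.1 hw.2.1 hw.2.2

theorem V.Ym {w : L K} (hw : V w) : c.Y (-k0) 1 w = w + br (sh (-k0)) w := by
  rw [F.Y_M k0_Sh.neg hw.1, neg_neg, (hw.one F).2 _ k0_Sh (by rw [k2]; decide), zero_smul,
    add_zero]

theorem V.Yp {w : L K} (hw : V w) : c.Y k0 1 w = w := by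
  rw [F.Y_M k0_Sh hw.1, hw.2.2, (hw.one F).2 _ k0_Sh.neg (by rw [k2']; decide), zero_smul,
    add_zero, add_zero]

theorem rho_mem : rho c ∈ c.G := mul_mem (F.Y_mem_Sh k0_Sh) (F.Y_mem_Sh k0_Sh.neg)

theorem rho_inv : (rho c)⁻¹ = c.Y (-k0) 1 * c.Y k0 1 := by
  rw [rho, mul_inv_rev, inv_eq_of_mul_eq_one_right (F.YY k0_Sh),
    inv_eq_of_mul_eq_one_right (F.YY k0_Sh.neg)]

theorem V.rho {w : L K} (hw : V w) : rho c w = br (sh (-k0)) w := by
  rw [E2.rho, LinearEquiv.mul_apply, hw.Ym F, map_add, hw.Yp F,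
    F.Y_M k0_Sh (F.br_mem (sh_mem k0_Sh.neg) hw.1), hw.xy F,
    (hw.neg F).2 _ k0_Sh.neg (by rw [k2']; decide)]
  linear_combination (norm := module) F.add_self w

theorem V.rho' {w : L K} (hw : V w) : (E2.rho c)⁻¹ w = w + br (sh (-k0)) w := by
  rw [rho_inv F, LinearEquiv.mul_apply, hw.Yp F, hw.Ym F]

theorem rho_zero {n : L K} (hn : n ∈ MM K) (h1 : br (sh k0) n = 0) (h2 : br (sh (-k0)) n = 0) :
    rho c n = n := by
  have := (F.lev_zero hn h1 h2).2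
  rw [rho, LinearEquiv.mul_apply, F.Y_M k0_Sh.neg hn, h2, neg_neg,
    this _ k0_Sh (by rw [k2]; decide), zero_smul, add_zero, add_zero, F.Y_M k0_Sh hn, h1,
    this _ k0_Sh.neg (by rw [k2']; decide), zero_smul, add_zero, add_zero]

theorem Yx : c.Y k0 1 (sh k0) = sh k0 := by
  rw [F.Y_M k0_Sh (sh_mem k0_Sh), F.br_sh_nn k0_Sh k0_Sh (by rw [k2]; decide),
    co_ne k0_Sh (by rw [k2]; decide), zero_smul, add_zero, add_zero]

theorem Ys {β : Lat} (hβ : Sh β) : c.Y (-β) 1 (sh β) = sh β + hs β + sh (-β) := by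
  rw [F.Y_M hβ.neg (sh_mem hβ), F.br_comm, F.br_sh_m2 hβ, neg_neg, co_sh_self hβ, one_smul]

theorem rho_x : rho c (sh k0) = sh (-k0) := by
  have h1 : c.Y k0 1 (hs k0) = hs k0 := by
    rw [F.Y_M k0_Sh (F.hs_mem k0_Sh.2.1), F.br_comm, hx F, co_hs, zero_smul, add_zero, add_zero]
  rw [rho, LinearEquiv.mul_apply, Ys F k0_Sh, map_add, map_add, Yx F, h1,
    F.Y_M k0_Sh (sh_mem k0_Sh.neg), F.br_sh_m2 k0_Sh, co_sh_self k0_Sh.neg, one_smul]
  linear_combination (norm := module) F.add_self (sh k0) + F.add_self (hs k0)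

theorem rho_x' : (rho c)⁻¹ (sh k0) = sh k0 + hs k0 + sh (-k0) := by
  rw [rho_inv F, LinearEquiv.mul_apply, Yx F, Ys F k0_Sh]

omit F in
/-- the data of the case -/
structure RC (c : Cfg K) (l : Aut K) : Prop where
  lv : Lv c l
  b1 : c.BS 1 (rho c * l)
  b0 : c.BS 0 (rho c * l)

omit F in
/-- `g + g⁻¹` -/
noncomputable def D (c : Cfg K) (l : Aut K) : L K →ₗ[K] L K :=
  (rho c * l).toLinearMap + (rho c * l)⁻¹.toLinearMap

omit F in
theorem D_app (l : Aut K) (v : L K) : D c l v = (rho c * l) v + (rho c * l)⁻¹ v := rfl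

variable {l : Aut K}

theorem RC.mem (h : RC c l) : rho c * l ∈ c.G := mul_mem (rho_mem F) h.lv.1

theorem RC.Dmem (h : RC c l) {v : L K} (hv : v ∈ MM K) : D c l v ∈ MM K :=
  add_mem (F.MM_G (h.mem F) hv) (F.MM_G (inv_mem (h.mem F)) hv)

theorem RC.nn (h : RC c l) {β γ : Lat} (hβ : Sh β) (hγ : Sh γ) (h1 : 0 ≤ ips β γ) :
    Bm (sh β) (D c l (sh γ)) = 0 := by
  rcases ips_cases hβ hγ with ⟨_, h2⟩ | h2 | h2 | ⟨h2, _⟩ | ⟨h2, _⟩
  · rw [sh_eq h2, D_app, map_add, F.Bm_inv (h.mem F) (sh_mem hβ) (sh_mem hβ),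
      F.Bm_comm (F.MM_G (inv_mem (h.mem F)) (sh_mem hβ)) (sh_mem hβ), ← two_mul, F.two, zero_mul]
  · exact F.BS_D (h.mem F) h.b1 (one_mem _) hβ hγ h2
  · exact F.BS_D (h.mem F) h.b0 (one_mem _) hβ hγ h2
  · omega
  · omega

theorem RC.Dx (h : RC c l) : D c l (sh k0) = sh k0 + hs k0 := by
  rw [D_app, mul_inv_rev, LinearEquiv.mul_apply, LinearEquiv.mul_apply, h.lv.2.1, rho_x F,
    rho_x' F, map_add, map_add, h.lv.inv.2.1, h.lv.inv.2.2, h.lv.inv.h F]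
  linear_combination (norm := module) F.add_self (sh (-k0))

theorem RC.DV (h : RC c l) {w : L K} (hw : V w) :
    D c l w = l⁻¹ w + br (sh (-k0)) (l w + l⁻¹ w) := by
  rw [D_app, mul_inv_rev, LinearEquiv.mul_apply, LinearEquiv.mul_apply, (h.lv.V F hw).rho F,
    hw.rho' F, map_add, (Cfg.G_aut h.lv.inv.1).1, h.lv.inv.2.2, map_add]
  abel

theorem RC.T_sh (h : RC c l) {γ : Lat} (hγ : Sh γ) (h1 : ips k0 γ = 1)
    (h2 : ipx (-k0) γ = -1) (h3 : ipx (-k0) (sg true γ) = 0) :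
    l (sh γ) + l⁻¹ (sh γ) + sh γ = 0 := by
  have hw := V_sh F hγ h1
  have w1 := h.lv.V F hw
  have w2 := h.lv.inv.V F hw
  have hz := (w1.add w2).add hw
  have hδ := k0_Sh.neg.add hγ h2 h3
  have e1 := F.br_sh_m1 k0_Sh.neg hγ h2 h3
  rw [← hz.xy F, F.MM_ext (F.br_mem (sh_mem k0_Sh.neg) hz.1) (hz.neg F).1, map_zero]
  intro β' hβ'
  obtain ⟨β, rfl⟩ : ∃ β, β' = -β := ⟨-β', (neg_neg _).symm⟩
  have hβ : Sh β := neg_neg β ▸ hβ'.neg
  by_cases h4 : ips k0 β = 1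
  swap
  · exact (hz.neg F).2 _ hβ' (by rw [ips_neg]; omega)
  have h5 : ips β k0 = 1 := by rw [ips_comm hβ.2.1 k0_Sh.2.1, h4]
  have h6 : ips β (-k0 + γ) = -1 + ips β γ := by rw [ips_add, ips_neg, h5]
  have e2 : Bm (sh β) (D c l (sh γ)) = co (-β) (br (sh (-k0)) (l (sh γ) + l⁻¹ (sh γ))) := by
    rw [F.Bm_sh hβ (h.Dmem F hw.1), h.DV F hw, map_add,
      (w2.one F).2 _ hβ' (by rw [ips_neg]; omega), zero_add]
  rw [map_add, map_add, ← e2, e1]
  by_cases h7 : 0 ≤ ips β γ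
  · rw [h.nn F hβ hγ h7, co_ne hβ (by omega), add_zero]
  rcases ips_cases hβ hδ with ⟨h8, _⟩ | h8 | h8 | ⟨h8, _⟩ | ⟨h8, h9⟩
  · omega
  · omega
  · omega
  · omega
  have e3 : (sh (-k0 + γ) : L K) = sh (-β) := sh_eq h9
  have e4 : c.Y (-β) 1 (sh k0) = sh k0 + sh γ := by
    rw [F.Y_M hβ' (sh_mem k0_Sh), co_ne hβ' (by rw [ips_neg' hβ k0_Sh]; omega), F.br_comm, ← e3,
      ← e1, hw.xy F, zero_smul, add_zero]
  have e5 := F.BS_D (h.mem F) h.b1 (F.Y_mem_Sh hβ') hβ k0_Sh h5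
  rw [← D_app, e4, Ys F hβ] at e5
  simp only [map_add, LinearMap.add_apply] at e5
  rw [h.nn F hβ k0_Sh (by omega), h.nn F hβ' hγ (by rw [ips_neg' hβ hγ]; omega),
    F.Bm_hs hβ.2.1 (h.Dmem F hw.1), F.Bm_hs hβ.2.1 (h.Dmem F (sh_mem k0_Sh)),
    F.Bm_sh hβ' (h.Dmem F (sh_mem k0_Sh)), h.Dx F, h.DV F hw, map_add (hp β), map_add (hp β),
    hp_zero β (w2.one F).1, hp_zero β ((w1.add w2).neg F).1, hp_sh, hp_hs, h5, map_add, co_hs,
    co_ne hβ' (by rw [ips_neg' hβ k0_Sh]; omega), ← h.DV F hw] at e5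
  rw [e3, co_sh_self hβ']
  push_cast at e5
  linear_combination e5

theorem RC.T (h : RC c l) {w : L K} (hw : V w) : l⁻¹ w = w + l w := by
  have := F.MM_supp (fun γ => ips k0 γ = 1) (P := fun w => l w + l⁻¹ w + w = 0) (by simp)
    (fun v w _ _ h1 h2 => by
      simp only [map_add]; linear_combination (norm := module) h1 + h2)
    (fun γ hγ h1 => by
      rcases ips_cases k0_Sh.neg hγ with ⟨h2, _⟩ | h2 | h2 | ⟨_, h2 | h2⟩ | ⟨h2, _⟩
      any_goals rw [ips_neg' k0_Sh hγ] at h2; omega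
      · exact h.T_sh F hγ h1 h2.1 h2.2
      · rw [← sh_sg]
        exact h.T_sh F hγ.sg (by rw [ips_sg, h1]) h2.2 (by rw [sg_sg, h2.1]))
    hw.1 (hw.one F).1 (hw.one F).2
  linear_combination (norm := module) this - F.add_self w - F.add_self (l w)

theorem RC.U (h : RC c l) {γ m : Lat} (hγ : Sh γ) (h0 : ips k0 γ = 0) (hm : Lo m)
    (m1 : ipx m (-k0) = -1) (m2 : m + -k0 = -γ) (m3 : ipx m γ = -1) (m4 : m + γ = k0)
    (hl : ∀ β ∈ allL, Sh β → ips k0 β = 0 → ips (-β) γ ≠ -1) :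
    ∃ t : K, l (sh γ) + l⁻¹ (sh γ) + sh γ = t • hs k0 := by
  have u0 := sh_mem (K := K) hγ
  have h0' : ips (-k0) γ = 0 := by rw [ips_neg' k0_Sh hγ, h0, neg_zero]
  have u1 := F.br_sh_nn k0_Sh hγ h0.ge
  have u2 := F.br_sh_nn k0_Sh.neg hγ h0'.ge
  have key : ∀ p, Lv c p → p (sh γ) ∈ MM K ∧ br (sh k0) (p (sh γ)) = 0 ∧
      br (sh (-k0)) (p (sh γ)) = 0 := fun p hp =>
    ⟨F.MM_G hp.1 u0, by rw [← hp.2.1, ← (Cfg.G_aut hp.1).1, u1, map_zero],
      by rw [← hp.2.2, ← (Cfg.G_aut hp.1).1, u2, map_zero]⟩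
  obtain ⟨a0, a1, a2⟩ := key _ h.lv
  obtain ⟨b0, b1, b2⟩ := key _ h.lv.inv
  have e1 : D c l (sh γ) = l (sh γ) + l⁻¹ (sh γ) := by
    rw [D_app, mul_inv_rev, LinearEquiv.mul_apply, LinearEquiv.mul_apply, rho_zero F a0 a1 a2,
      ← rho_zero F u0 u1 u2, inv_app, rho_zero F u0 u1 u2]
  have z0 := add_mem (add_mem a0 b0) u0
  obtain ⟨z1, z2⟩ := F.lev_zero z0 (by simp only [map_add, a1, b1, u1, add_zero])
    (by simp only [map_add, a2, b2, u2, add_zero])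
  refine (F.cartan z0 z1 fun β hβ => ?_).elim (fun h1 => ⟨0, by rw [h1, zero_smul]⟩)
    fun h1 => ⟨1, by rw [h1, one_smul]⟩
  by_cases h2 : ips k0 β = 0
  swap
  · exact z2 β hβ h2
  rw [map_add, ← e1, ← neg_neg β, ← F.Bm_sh hβ.neg (h.Dmem F u0)]
  by_cases h3 : 0 ≤ ips (-β) γ
  · rw [h.nn F hβ.neg hγ h3, co_ne hβ.neg (by omega), add_zero]
  rcases ips_cases hβ.neg hγ with ⟨h8, _⟩ | h8 | h8 | ⟨h8, _⟩ | ⟨h8, h9⟩
  · omega
  · omega
  · omega
  · exact absurd h8 (hl β hβ.allL hβ h2)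
  rw [sg_neg, neg_neg, neg_neg] at h9
  have e3 : (sh (-γ) : L K) = sh (-β) := sh_eq (h9.imp (congrArg _) (congrArg Neg.neg))
  have e5 := F.BS_D (h.mem F) h.b0 (F.X_mem_Lo hm) k0_Sh.neg hγ h0'
  rw [← D_app, F.X_M hm (sh_mem k0_Sh.neg), F.X_M hm u0, F.ad_sh_m1 hm k0_Sh.neg m1,
    F.ad_sh_m1 hm hγ m3, m2, m4] at e5
  simp only [map_add, LinearMap.add_apply] at e5
  rw [h.nn F k0_Sh.neg hγ h0'.ge, h.nn F hγ.neg k0_Sh
    (by rw [ips_neg' hγ k0_Sh, ips_comm hγ.2.1 k0_Sh.2.1]; omega),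
    F.Bm_sh k0_Sh.neg (h.Dmem F (sh_mem k0_Sh)), h.Dx F, neg_neg, map_add, co_hs,
    co_sh_self k0_Sh, e3] at e5
  have e6 : co β (sh γ : L K) = 1 := by rw [sh_eq h9, co_sh_self hβ]
  rw [neg_neg, e6]
  linear_combination e5

theorem V.br {u w : L K} {γ : Lat} (hw : V w) (hγ : Sh γ) (h0 : ips k0 γ = 0) (hu : u = sh γ) :
    V (Exc.br u w) := by
  subst hu
  refine ⟨F.br_mem (sh_mem hγ) hw.1, ?_, ?_⟩
  · have := F.jac_sh hγ (hs k0) w
    rw [hw.2.1, F.br_comm _ (hs k0), F.br_hs_sh k0_Sh.2.1 hγ, h0] at this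
    simpa using this.symm
  · rw [F.jac_sh k0_Sh, hw.2.2, F.br_sh_nn k0_Sh hγ h0.ge]; simp

theorem RC.I (h : RC c l) {γ : Lat} (hγ : Sh γ) (h0 : ips k0 γ = 0) {t : K}
    (ht : l (sh γ) + l⁻¹ (sh γ) + sh γ = t • hs k0) {w : L K} (hw : V w) :
    l (br (sh γ) w) = br (sh γ) w + br (sh γ) (l w) + t • w := by
  have e1 := congrArg (fun u => br u w) ht
  have e2 : br (l (sh γ)) w = l (br (sh γ) (w + l w)) := by
    rw [← h.T F hw, (Cfg.G_aut h.lv.1).1, app_inv]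
  have e3 : br (l⁻¹ (sh γ)) w = br (sh γ) (l w) + l (br (sh γ) (l w)) := by
    rw [← h.T F ((h.lv.V F hw).br F hγ h0 rfl), (Cfg.G_aut h.lv.inv.1).1, inv_app]
  simp only [map_add, map_smul, LinearMap.add_apply, LinearMap.smul_apply, hw.2.1, e2, e3] at e1
  linear_combination (norm := module) e1 - F.add_self (l (br (sh γ) (l w)))
    - F.add_self (br (sh γ) (l w)) - F.add_self (br (sh γ) w)

theorem RC.J (h : RC c l) {γ : Lat} (hγ : Sh γ) (h0 : ips k0 γ = 0) {t : K}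
    (ht : l (sh γ) + l⁻¹ (sh γ) + sh γ = t • hs k0) {w : L K} (hw : V w) :
    br (l (sh γ)) w = br (sh γ) (l w) + t • w + t • l w := by
  have e2 : br (l (sh γ)) w = l (br (sh γ) (w + l w)) := by
    rw [← h.T F hw, (Cfg.G_aut h.lv.1).1, app_inv]
  have e3 : l (w + l w) = w := by rw [← h.T F hw, app_inv]
  rw [e2, h.I F hγ h0 ht (hw.add (h.lv.V F hw)), e3, map_add]
  linear_combination (norm := module) F.add_self (br (sh γ) w)

theorem RC.false (h : RC c l) : False := by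
  have s1 : Sh et := by decide +kernel
  have s2 : Sh be := by decide +kernel
  have s0 : Sh (a 0) := by decide +kernel
  have z1 : ips k0 et = 0 := by decide +kernel
  have z2 : ips k0 be = 0 := by decide +kernel
  obtain ⟨t1, h1⟩ := h.U F (m := ts) s1 z1 (by decide +kernel) (by decide +kernel)
    (by decide +kernel) (by decide +kernel) (by decide +kernel) lev0_et
  obtain ⟨t2, h2⟩ := h.U F (m := l3) s2 z2 (by decide +kernel) (by decide +kernel)
    (by decide +kernel) (by decide +kernel) (by decide +kernel) lev0_be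
  have hv := V_sh F s0 (by decide +kernel)
  have cm : ∀ w, br (sh be : L K) (br (sh et) w) = br (sh et) (br (sh be) w) := fun w => by
    rw [F.jac_sh s2, F.br_sh_nn s2 s1 (by decide +kernel)]; simp
  have e1 := F.jac_sh s2 (l (sh et)) (sh (a 0))
  rw [h.J F s1 z1 h1 hv, h.J F s1 z1 h1 (hv.br F s2 z2 rfl), h.I F s2 z2 h2 hv] at e1
  simp only [map_add, map_smul, cm] at e1
  have e2 : br (br (sh be) (l (sh et))) (sh (a 0)) = br (sh et) (br (sh be) (sh (a 0))) +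
      t2 • br (sh et) (sh (a 0)) + t1 • br (sh be) (sh (a 0)) + (t1 * t2) • (sh (a 0) : L K) := by
    linear_combination (norm := module) -e1 - F.add_self (br (sh et) (br (sh be) (sh (a 0))))
      - t2 • F.add_self (br (sh et) (sh (a 0))) - t1 • F.add_self (br (sh be) (sh (a 0)))
      - (t1 * t2) • F.add_self (sh (a 0))
  have n0 := F.br_mem (sh_mem s2) (F.MM_G h.lv.1 (sh_mem s1))
  have sd : Sh (v8 1 1 1 2 1 0 0 0) := by decide +kernel
  have e3 := congrArg (co (v8 1 1 1 2 1 0 0 0)) e2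
  rw [F.br_comm, F.co_br_sh s0 sd (by decide +kernel), n0.1 _ (by decide +kernel),
    n0.1 _ (by decide +kernel), F.br_sh_m1 s2 s0 (by decide +kernel) (by decide +kernel),
    F.br_sh_m1 s1 s0 (by decide +kernel) (by decide +kernel), ← sh_sg et,
    F.br_sh_m1 s1.sg (s2.add s0 (by decide +kernel) (by decide +kernel)) (by decide +kernel)
      (by decide +kernel)] at e3
  simp only [map_add, map_smul] at e3
  rw [co_sh_ne (γ := a 0) (by decide +kernel), co_sh_ne (γ := be + a 0) (by decide +kernel),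
    co_sh_ne (γ := et + a 0) (by decide +kernel),
    show sg true et + (be + a 0) = v8 1 1 1 2 1 0 0 0 by decide +kernel, co_sh_self sd] at e3
  simp at e3

end E2

namespace Cfg

variable {c : Cfg K}

namespace F2

variable (F : c.F2)
include F

theorem rcase {g : Aut K} (hg : g ∈ c.G) (h1 : c.BS 1 g) (h0 : c.BS 0 g)
    (h : g (sh k0) = sh (-k0)) (h' : g⁻¹ (sh k0) = sh k0 + hs k0 + sh (-k0)) : False := by
  have e : E2.rho c * ((E2.rho c)⁻¹ * g) = g := mul_inv_cancel_left _ _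
  have hl := mul_mem (inv_mem (E2.rho_mem F)) hg
  have e1 : ((E2.rho c)⁻¹ * g : Aut K) (sh k0) = sh k0 := by
    rw [LinearEquiv.mul_apply, h, ← E2.rho_x F, inv_app]
  have e2 : ((E2.rho c)⁻¹ * g : Aut K) (sh k0 + hs k0 + sh (-k0)) = sh k0 + hs k0 + sh (-k0) := by
    rw [LinearEquiv.mul_apply, ← h', app_inv, h', E2.rho_x' F]
  have e3 : br (sh k0 : L K) (sh k0 + hs k0 + sh (-k0)) = hs k0 := by
    rw [map_add, map_add, F.br_sh_nn E2.k0_Sh E2.k0_Sh (by rw [E2.k2]; decide),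
      F.br_comm _ (hs k0), E2.hx F, F.br_sh_m2 E2.k0_Sh, zero_add, zero_add]
  have e4 := (G_aut hl).1 (sh k0) (sh k0 + hs k0 + sh (-k0))
  rw [e1, e2, e3] at e4
  rw [map_add, map_add, e1, e4, add_right_inj] at e2
  exact E2.RC.false F (l := (E2.rho c)⁻¹ * g) ⟨⟨hl, e1, e2⟩, e.symm ▸ h1, e.symm ▸ h0⟩

end F2

end Cfg

end Pool.Agent.MP_db74b1_al.Exc

end

section

/-! `F₄(2)` and the final statement for `Eₙ(q)`, `F₄(q)`, `²E₆(q)` over every field. -/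

set_option autoImplicit false

namespace Pool.Agent.MP_db74b1_al.Exc

variable {K : Type} [Field K]

namespace Cfg

variable {c : Cfg K}

namespace F2

variable (F : c.F2)
include F

theorem sq_M {a : Aut K} (ha : a ∈ c.G) (h : ¬ c.QS a) (h1 : c.BS 1 a) (h0 : c.BS 0 a) :
    ∀ m ∈ MM K, a (a m) = m := by
  obtain ⟨g, hc, e⟩ := F.opp_s ha h
  have hg := hc.mem ha
  have k1 := F.BS_conj ha h1 hc
  have k0 := F.BS_conj ha h0 hc
  have k := (F.typ_s hg k1 k0 e).elim (F.ncase hg k1 k0 e) fun e' => (F.rcase hg k1 k0 e e').elim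
  obtain ⟨p, hp, rfl⟩ := hc
  intro m hm
  have := k _ (F.MM_G hp hm)
  simp only [LinearEquiv.mul_apply, inv_app] at this
  exact p.injective this

theorem S_thm {a b : Aut K} (ha : a ∈ c.G) (hb : b ∈ c.G) (h : c.H2 a b) : c.QS a ∨ c.QS b := by
  by_contra h0
  push Not at h0
  have h' := F.H2_symm ha hb h
  have b1 := F.BS_one ha hb h h0.1
  have a1 := F.BS_one hb ha h' h0.2
  exact (F.inv_inv_s ha hb h (F.sq_M ha h0.1 a1 (F.BS_zero hb ha h' h0.2 b1 a1))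
    (F.sq_M hb h0.2 b1 (F.BS_zero ha hb h h0.1 a1 b1))).elim h0.1 h0.2

theorem main_QL2 {a b : Aut K} (ha : a ∈ c.G) (hb : b ∈ c.G) (h : c.SC a b) (hq : c.QL a) :
    c.Triv a ∨ c.Triv b := by
  obtain ⟨p, hp, m, w, u, H, e⟩ := exists_MP ha
  have hc : c.Cj a (m * u) := ⟨p, hp, e⟩
  rcases H.long_struct (hc.QL hq) with h1 | ⟨k1, k2, j0, j1, j2, j3, j4, j5, k3, k4, k5⟩
  · exact Or.inl (hc.symm.triv h1)
  rcases F.S_thm ha hb (h.trace F.MM_le fun g hg v hv => F.MM_G hg hv) with h2 | h2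
  · rcases H.short_struct k1 (hc.QS k1 h2) with h1 | h1
    · exact Or.inl (hc.symm.triv h1)
    · rw [j0] at h1; exact absurd h1.1 (by simp)
  · exact Or.inr (F4_contra hb h hc H ⟨k1, k2, j0, j1, j2, j3, j4, j5, k3, k4, k5⟩ (hc.QL hq) h2)

theorem main4 {a b : Aut K} (ha : a ∈ c.G) (hb : b ∈ c.G) (h : c.SC a b) :
    c.Triv a ∨ c.Triv b := by
  obtain ⟨a1, ha1, b1, hb1, k, k1, k2⟩ := F.sigma ha hb h
  rcases F.S_thm ha1 hb1 k with h1 | h1
  · exact F.main_QL2 ha hb h (k1 h1)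
  · exact (F.main_QL2 hb ha (h.symm ha) (k2 h1)).symm

end F2

theorem main5 (c : Cfg K) : ∀ a ∈ c.G, ∀ b ∈ c.G, c.SC a b → c.Triv a ∨ c.Triv b :=
  fun a ha b hb h => by
  by_cases hn : c.NS
  · exact main3 c (Or.inl hn) a ha b hb h
  by_cases hq : c.Q2
  · exact F2.main4 ⟨(not_not.1 hn).1, (not_not.1 hn).2, hq⟩ ha hb h
  · unfold Q2 at hq
    push Not at hq
    obtain ⟨r, -, h1, h2⟩ := hq
    exact main3 c (Or.inr ⟨r, h1, h2⟩) a ha b hb h

end Cfg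

theorem exceptional2 (n : ℕ) (b : Bool) (τ : K →+* K)
    (h : (b = false ∧ τ = RingHom.id K ∧ (n = 6 ∨ n = 7 ∨ n = 8)) ∨
      (b = true ∧ n = 6 ∧ τ.comp τ = RingHom.id K)) : AHZ (chevP n b τ) := by
  rw [← chevP_eq]
  exact AHZ_congr (Subgroup.equivMapOfInjective _ _ toP_inj)
    (Cfg.final' ⟨n, b, τ, h.imp (fun h => ⟨h.1, fun t => by rw [h.2.1]; rfl, h.2.2⟩)
      fun h => ⟨h.1, h.2.1, fun t => RingHom.congr_fun h.2.2 t⟩⟩ (Cfg.main5 _))

end Pool.Agent.MP_db74b1_al.Exc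

end
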