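import Pool.Agent.MP_db74b1_al.ExcLat

section

set_option autoImplicit false

namespace Pool.Agent.MP_db74b1_al.Exc

variable {R : Type} [CommRing R]

def hv (y : Lat) : L R := (fun i => (y i : R), 0)

theorem hv_add (y z : Lat) : (hv (y + z) : L R) = hv y + hv z := by ext <;> simp [hv]
theorem hv_neg (y : Lat) : (hv (-y) : L R) = -hv y := by ext <;> simp [hv]
theorem hv_sub (y z : Lat) : (hv (y - z) : L R) = hv y - hv z := by ext <;> simp [hv]

theorem co_hv (β y : Lat) : co β (hv y : L R) = 0 := by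
  by_cases h : ip β β = 2
  · rw [co_of_root h]; rfl
  · exact co_of_not h _

theorem hp_hv (β y : Lat) : hp β (hv y : L R) = (ip y β : R) := by
  rw [hp_apply, ← sum_ip y β]; simp [hv]

theorem e_of_not {δ : Lat} (h : ip δ δ ≠ 2) : (e δ : L R) = 0 := by
  ext i
  · rfl
  · have : i.1 ≠ δ := fun h' => h (h' ▸ i.2)
    simp [e, this]

theorem co_e_self {α : Lat} (h : ip α α = 2) : co α (e α : L R) = 1 := by simp [co_e, h]

theorem co_e_ne {α β : Lat} (h : β ≠ α) : co β (e α : L R) = 0 := by simp [co_e, h]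

theorem e_fst (α : Lat) : (e α : L R).1 = 0 := rfl

theorem L_eq {v w : L R} (h1 : v.1 = w.1) (h2 : ∀ β, ip β β = 2 → co β v = co β w) : v = w := by
  ext i
  · rw [h1]
  · have := h2 i.1 i.2
    rwa [co_of_root i.2, co_of_root i.2] at this

theorem L_decomp (v : L R) :
    v = ∑ i : Fin 8, v.1 i • (hv (a i) : L R) + ∑ β : Root, v.2 β • (e β.1 : L R) := by
  ext i
  · simp [Prod.fst_sum, Finset.sum_apply, hv, a, e]
  · simp [Prod.snd_sum, Finset.sum_apply, hv, e, Subtype.val_inj]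

theorem L_ind {P : L R → Prop} (hadd : ∀ v w, P v → P w → P (v + w))
    (hsmul : ∀ (c : R) v, P v → P (c • v)) (h1 : ∀ y, P (hv y))
    (h2 : ∀ β, ip β β = 2 → P (e β)) (v : L R) : P v := by
  have h0 : P 0 := by simpa using hsmul 0 _ (h1 0)
  rw [L_decomp v]
  exact hadd _ _ (Finset.sum_induction _ P hadd h0 fun i _ => hsmul _ _ (h1 _))
    (Finset.sum_induction _ P hadd h0 fun β _ => hsmul _ _ (h2 _ β.2))

theorem L_ext {M : Type} [AddCommGroup M] [Module R M] {f g : L R →ₗ[R] M}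
    (h1 : ∀ y, f (hv y) = g (hv y)) (h2 : ∀ β, ip β β = 2 → f (e β) = g (e β)) : f = g :=
  LinearMap.ext <| L_ind (P := fun v => f v = g v) (fun v w hv hw => by simp [hv, hw])
    (fun c v hv => by simp [hv]) h1 h2

theorem ad_hv {α : Lat} (y : Lat) : ad α (hv y : L R) = -(ip y α : R) • e α := by
  apply L_eq
  · ext i; simp [ad_fst, co_hv, e]
  · intro β hβ
    rw [co_ad, if_pos hβ, hp_hv, co_hv, map_smul, co_e]
    split_ifs with h1 h2 h2 <;> simp_all

theorem ad_e {α β : Lat} (hβ : ip β β = 2) :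
    ad α (e β : L R) = (eps α β : R) • e (α + β) - if α + β = 0 then hv α else 0 := by
  apply L_eq
  · ext i
    rw [ad_fst, co_e]
    by_cases h : α + β = 0
    · have : -α = β := by rw [neg_eq_iff_add_eq_zero, h]
      simp [h, this, hβ, e, hv]
    · have : -α ≠ β := by rwa [Ne, neg_eq_iff_add_eq_zero]
      simp [h, this, e]
  · intro γ hγ
    rw [co_ad, if_pos hγ, hp_e, map_sub, map_smul, co_e, co_e]
    have h0 : co γ (if α + β = 0 then (hv α : L R) else 0) = 0 := by
      split_ifs <;> simp [co_hv]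
    rw [h0]
    by_cases h : γ = α + β
    · have h1 : γ ≠ α := fun h' => root_ne_zero hβ (by rw [h'] at h; simpa using h)
      have h2 : γ - α = β := by rw [h]; simp
      simp [h1, h2, hβ, hγ, ← h]
    · have h2 : γ - α ≠ β := fun h' => h (by rw [← h']; simp)
      simp [h, h2]

theorem ad_e_m2 {α : Lat} (h : ip α α = 2) : ad α (e (-α) : L R) = -hv α := by
  rw [ad_e (root_neg h), e_of_not]
  · simp
  · simp [ip_zero_left]

theorem ad_e_m2' {α : Lat} (h : ip α α = 2) : ad (-α) (e α : L R) = hv α := by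
  have := ad_e_m2 (R := R) (root_neg h)
  rwa [neg_neg, hv_neg, neg_neg] at this

theorem ad_e_ne {α β : Lat} (hβ : ip β β = 2) (h : α + β ≠ 0) :
    ad α (e β : L R) = (eps α β : R) • e (α + β) := by
  rw [ad_e hβ, if_neg h, sub_zero]

theorem add_ne_zero_of_ip {α β : Lat} (hα : ip α α = 2) (h : -1 ≤ ip α β) : α + β ≠ 0 := by
  intro h'
  have : β = -α := by rw [eq_neg_iff_add_eq_zero, add_comm, h']
  rw [this, ip_neg_right] at h; omega

theorem ad_e_m1 {α β : Lat} (hα : ip α α = 2) (hβ : ip β β = 2) (h : ip α β = -1) :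
    ad α (e β : L R) = (eps α β : R) • e (α + β) :=
  ad_e_ne hβ (add_ne_zero_of_ip hα h.ge)

theorem ad_e_nn {α β : Lat} (hα : ip α α = 2) (hβ : ip β β = 2) (h : 0 ≤ ip α β) :
    ad α (e β : L R) = 0 := by
  rw [ad_e_ne hβ (add_ne_zero_of_ip hα (by omega)), e_of_not, smul_zero]
  rw [Ne, root_add hα hβ]; omega

/-- trichotomy -/
theorem ip_cases {α β : Lat} (hα : ip α α = 2) (hβ : ip β β = 2) :
    β = -α ∨ ip α β = -1 ∨ 0 ≤ ip α β := by
  by_cases h : α + β = 0
  · left; rw [eq_neg_iff_add_eq_zero, add_comm, h]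
  · have := neg_one_le_ip hα hβ h; omega

theorem ad_e_swap {α β : Lat} (hα : ip α α = 2) (hβ : ip β β = 2) :
    ad β (e α : L R) = -ad α (e β) := by
  rcases ip_cases hα hβ with rfl | h | h
  · rw [ad_e_m2 hα, ad_e_m2' hα, neg_neg]
  · rw [ad_e_m1 hα hβ h, ad_e_m1 hβ hα (by rw [ip_comm, h]), eps_swap_odd (by rw [h]; rfl),
      add_comm β]
    simp
  · rw [ad_e_nn hα hβ h, ad_e_nn hβ hα (by rwa [ip_comm]), neg_zero]

def dd : L R →ₗ[R] L R →ₗ[R] L R :=
  LinearMap.mk₂ R (fun x y => (0, fun β => hp β.1 x * y.2 β))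
    (fun x x' y => by ext <;> simp [add_mul]) (fun c x y => by ext <;> simp [mul_assoc])
    (fun x y y' => by ext <;> simp [mul_add]) (fun c x y => by ext <;> simp [mul_left_comm])

noncomputable def br : L R →ₗ[R] L R →ₗ[R] L R :=
  (∑ α : Root, (co α.1).smulRight (ad α.1)) + dd

theorem br_e {α : Lat} (h : ip α α = 2) : br (e α : L R) = ad α := by
  have h1 : dd (e α : L R) = 0 := by ext y <;> simp [dd, hp_e]
  rw [br, LinearMap.add_apply, h1, add_zero, LinearMap.sum_apply,
    Finset.sum_eq_single (⟨α, h⟩ : Root)]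
  · simp [co_e_self h]
  · intro β _ hβ
    simp [co_e_ne (fun h' => hβ (Subtype.ext h') : β.1 ≠ α)]
  · simp

theorem br_hv (y : Lat) : br (hv y : L R) = dd (hv y) := by
  simp [br, LinearMap.sum_apply, co_hv]

theorem br_hv_hv (y z : Lat) : br (hv y : L R) (hv z) = 0 := by
  rw [br_hv]; ext <;> simp [dd, hv]

theorem br_hv_e (y β : Lat) : br (hv y : L R) (e β) = (ip y β : R) • e β := by
  rw [br_hv]; ext i
  · simp [dd, e]
  · simp only [dd, LinearMap.mk₂_apply, hp_hv, e, Prod.smul_snd, Pi.smul_apply, smul_eq_mul]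
    split_ifs with h
    · rw [h]
    · simp

theorem br_anti (x y : L R) : br x y = -br y x := by
  induction x using L_ind with
  | hadd v w h1 h2 => simp only [map_add, LinearMap.add_apply, h1, h2]; abel
  | hsmul c v h1 => simp [h1]
  | h1 z =>
    induction y using L_ind with
    | hadd v w h1 h2 => simp only [map_add, LinearMap.add_apply, h1, h2]; abel
    | hsmul c v h1 => simp [h1]
    | h1 z' => simp [br_hv_hv]
    | h2 β hβ => rw [br_hv_e, br_e hβ, ad_hv]; simp
  | h2 α hα =>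
    induction y using L_ind with
    | hadd v w h1 h2 => simp only [map_add, LinearMap.add_apply, h1, h2]; abel
    | hsmul c v h1 => simp [h1]
    | h1 z' => rw [br_hv_e, br_e hα, ad_hv]; simp
    | h2 β hβ => rw [br_e hα, br_e hβ, ad_e_swap hβ hα]

theorem br_e_right {α : Lat} (h : ip α α = 2) (x : L R) : br x (e α) = -ad α x := by
  rw [br_anti, br_e h]

theorem eps_cast_mul_self (x y : Lat) : (eps x y : R) * (eps x y : R) = 1 := by
  rw [← Int.cast_mul, eps_mul_self, Int.cast_one]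

theorem jac_A {α β : Lat} (hα : ip α α = 2) (hβ : ip β β = 2) (hne : α ≠ β) :
    ad α (ad β (e (-β) : L R)) - ad β (ad α (e (-β))) = br (ad α (e β)) (e (-β)) := by
  have hβ' := root_neg hβ
  rw [ad_e_m2 hβ, map_neg, ad_hv, ip_comm β]
  rcases ip_cases hα hβ with rfl | h | h
  · rw [neg_neg, ad_e_self hα, ad_e_m2 hα, map_neg, LinearMap.neg_apply, br_hv_e, ip_neg_right, hα]
    simp
  · have h1 := (root_add hα hβ).2 h
    rw [ad_e_nn hα hβ' (by rw [ip_neg_right]; omega), ad_e_m1 hα hβ h, map_smul,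
      LinearMap.smul_apply, br_e h1, ad_e_m1 h1 hβ' (by rw [ip_neg_right, ip_add_left]; omega),
      eps_neg_right, eps_add_left, eps_self hβ, h, smul_smul, add_neg_cancel_right]
    have := eps_cast_mul_self (R := R) α β
    push_cast
    rw [← mul_assoc, this]; simp
  · rw [ad_e_nn hα hβ h]
    have h2 := ip_le_one hα hβ hne
    by_cases h3 : ip α β = 0
    · rw [ad_e_nn hα hβ' (by rw [ip_neg_right]; omega), h3]; simp
    · have h4 : ip α β = 1 := by omega
      have h5 : ip α (-β) = -1 := by rw [ip_neg_right, h4]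
      rw [ad_e_m1 hα hβ' h5, map_smul, ad_e_m1 hβ ((root_add hα hβ').2 h5)
        (by rw [ip_add_right, ip_neg_right, ip_comm β α]; omega), eps_neg_right, eps_add_right,
        eps_neg_right, eps_self hβ, eps_swap_odd (x := α) (y := β) (by rw [h4]; rfl), h4, smul_smul,
        show β + (α + -β) = α by abel]
      have := eps_cast_mul_self (R := R) α β
      push_cast
      rw [neg_mul_neg, mul_one, this]; simp

theorem ad_ad_e {α β γ : Lat} (hβ : ip β β = 2) (hγ : ip γ γ = 2) (h1 : -1 ≤ ip β γ)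
    (h2 : α + β + γ ≠ 0) : ad α (ad β (e γ : L R)) =
      (if ip β γ = -1 then (eps β γ * (eps α β * eps α γ) : R) else 0) • e (α + β + γ) := by
  split_ifs with h
  · rw [ad_e_m1 hβ hγ h, map_smul, ad_e_ne ((root_add hβ hγ).2 h) (by rwa [← add_assoc]),
      eps_add_right, smul_smul, add_assoc]
    push_cast; rfl
  · rw [ad_e_nn hβ hγ (by omega)]; simp

theorem jac_e {α β γ : Lat} (hα : ip α α = 2) (hβ : ip β β = 2) (hγ : ip γ γ = 2) :
    ad α (ad β (e γ : L R)) - ad β (ad α (e γ)) = br (ad α (e β)) (e γ) := by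
  by_cases hne : α = β
  · subst hne; simp [ad_e_self hα]
  by_cases h1 : β + γ = 0
  · obtain rfl : γ = -β := by rw [eq_neg_iff_add_eq_zero, add_comm, h1]
    exact jac_A hα hβ hne
  by_cases h2 : α + γ = 0
  · obtain rfl : γ = -α := by rw [eq_neg_iff_add_eq_zero, add_comm, h2]
    have := jac_A (R := R) hβ hα (Ne.symm hne)
    rw [ad_e_swap hα hβ, map_neg, LinearMap.neg_apply] at this
    rw [← neg_inj, ← this]; abel
  have h1' := neg_one_le_ip hβ hγ h1
  have h2' := neg_one_le_ip hα hγ h2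
  by_cases h4 : α + β + γ = 0
  · have hγe : γ = -α - β := by rw [← sub_eq_zero, ← h4]; abel
    have hab : ip α β = -1 := by
      rw [← root_add hα hβ, ← norm_neg, ← hγ, hγe]; congr 1 <;> abel
    have hbg : ip β γ = -1 := by rw [hγe, ip_sub_right, ip_neg_right, ip_comm β α]; omega
    have hag : ip α γ = -1 := by rw [hγe, ip_sub_right, ip_neg_right]; omega
    have e1 : β + γ = -α := by rw [hγe]; abel
    have e2 : α + γ = -β := by rw [hγe]; abel
    have e3 : γ = -(α + β) := by rw [hγe]; abel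
    have s1 : eps β γ = eps α β := by
      rw [hγe, eps_sub_right, eps_neg_right, eps_self hβ, eps_swap_odd (x := α) (y := β)
        (by rw [hab]; rfl)]; ring
    have s2 : eps α γ = -eps α β := by
      rw [hγe, eps_sub_right, eps_neg_right, eps_self hα]; ring
    rw [ad_e_m1 hβ hγ hbg, ad_e_m1 hα hγ hag, ad_e_m1 hα hβ hab, e1, e2, map_smul, map_smul,
      map_smul, LinearMap.smul_apply, br_e ((root_add hα hβ).2 hab), ad_e_m2 hα, ad_e_m2 hβ, s1, s2,
      e3, ad_e_m2 ((root_add hα hβ).2 hab), hv_add]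
    push_cast; module
  rw [ad_ad_e hβ hγ h1' h4, ad_ad_e hα hγ h2' (by rwa [add_comm β α]), add_comm β α]
  have hn : ip (α + β + γ) (α + β + γ) = 6 + 2 * (ip α β + ip α γ + ip β γ) := by
    rw [norm_add, norm_add, ip_add_left]; omega
  rcases ip_cases hα hβ with rfl | h | h
  · have h5 : ip α γ ≤ 1 := by rw [ip_neg_left] at h1'; omega
    rw [ad_e_m2 hα, map_neg, LinearMap.neg_apply, br_hv_e, add_neg_cancel, zero_add,
      ip_neg_left, eps_neg_left, eps_neg_right, eps_neg_left, eps_self hα]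
    have := eps_cast_mul_self (R := R) α γ
    have h6 : (eps α γ : R) * (((-1 : ℤ) : R) * eps α γ) = -1 := by
      push_cast; linear_combination -this
    rw [h6]
    have h7 : ip α γ = -1 ∨ ip α γ = 0 ∨ ip α γ = 1 := by omega
    rcases h7 with h7 | h7 | h7 <;> simp [h7]
  · have h5 := (root_add hα hβ).2 h
    rw [ad_e_m1 hα hβ h, map_smul, LinearMap.smul_apply, br_e h5, ad_e_ne hγ h4, eps_add_left,
      eps_swap_odd (x := α) (y := β) (by rw [h]; rfl), smul_smul, ← sub_smul]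
    by_cases h6 : ip (α + β + γ) (α + β + γ) = 2
    · congr 1
      push_cast
      split_ifs with h7 h8 h8
      · omega
      · ring
      · ring
      · omega
    · simp [e_of_not h6]
  · rw [ad_e_nn hα hβ h, map_zero, LinearMap.zero_apply, ← sub_smul]
    by_cases h6 : ip (α + β + γ) (α + β + γ) = 2
    · rw [if_pos (by omega), if_pos (by omega),
        eps_swap_even (x := α) (y := β) (by rw [show ip α β = 0 by omega]; rfl)]
      rw [show (eps β γ * (eps α β * eps α γ) - eps α γ * (eps α β * eps β γ) : R) = 0 by ring,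
        zero_smul]
    · simp [e_of_not h6]

theorem jac_ee {α β : Lat} (hα : ip α α = 2) (hβ : ip β β = 2) (v : L R) :
    ad α (ad β v) - ad β (ad α v) = br (ad α (e β)) v := by
  induction v using L_ind with
  | hadd v w h1 h2 => simp only [map_add, ← h1, ← h2]; abel
  | hsmul c v h1 => simp only [map_smul, ← h1, smul_sub]
  | h2 γ hγ => exact jac_e hα hβ hγ
  | h1 y =>
    rw [ad_hv, ad_hv, map_smul, map_smul, ad_e_swap hα hβ]
    rcases ip_cases hα hβ with rfl | h | h
    · rw [ad_e_m2 hα, map_neg, LinearMap.neg_apply, br_hv_hv, ip_neg_right]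
      push_cast; module
    · rw [ad_e_m1 hα hβ h, map_smul, LinearMap.smul_apply, br_e ((root_add hα hβ).2 h), ad_hv,
        ip_add_right]
      push_cast; module
    · rw [ad_e_nn hα hβ h]; simp

theorem ad_br {α : Lat} (hα : ip α α = 2) (x y : L R) :
    ad α (br x y) = br (ad α x) y + br x (ad α y) := by
  induction x using L_ind with
  | hadd v w h1 h2 => simp only [map_add, LinearMap.add_apply, h1, h2]; abel
  | hsmul c v h1 => simp only [map_smul, LinearMap.smul_apply, h1, smul_add]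
  | h2 β hβ => rw [← jac_ee hα hβ, br_e hβ]; abel
  | h1 z =>
    rw [ad_hv, map_smul, LinearMap.smul_apply, br_e hα]
    induction y using L_ind with
    | hadd v w h1 h2 => simp only [map_add, h1, h2]; module
    | hsmul c v h1 => simp only [map_smul, h1]; module
    | h1 y => rw [br_hv_hv, ad_hv, map_smul, br_hv_e, map_zero]; module
    | h2 β hβ =>
      rw [br_hv_e, map_smul, ad_e hβ]
      split_ifs with h
      · have : β = -α := by rw [eq_neg_iff_add_eq_zero, add_comm, h]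
        rw [h, e_of_not (δ := 0) (by simp [ip_zero_left]), this, ip_neg_right]
        simp [br_hv_hv]
      · simp only [sub_zero, map_smul, br_hv_e, ip_add_right]
        push_cast; module

end Pool.Agent.MP_db74b1_al.Exc

end

section

set_option autoImplicit false

namespace Pool.Agent.MP_db74b1_al.Exc

variable {R : Type} [CommRing R]

noncomputable def gf : L R →ₗ[R] L R →ₗ[R] R :=
  (∑ α : Root, (co α.1).smulRight (co (-α.1))) -
    ∑ i : Fin 8, ((LinearMap.proj i).comp (LinearMap.fst R _ _)).smulRight (hp (a i))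

theorem gf_e {α : Lat} (h : ip α α = 2) : gf (e α : L R) = co (-α) := by
  rw [gf, LinearMap.sub_apply, LinearMap.sum_apply, LinearMap.sum_apply,
    Finset.sum_eq_single (⟨α, h⟩ : Root)]
  · simp [co_e_self h, e_fst]
  · intro β _ hβ
    simp [co_e_ne (fun h' => hβ (Subtype.ext h') : β.1 ≠ α)]
  · simp

theorem gf_hv_e (y β : Lat) : gf (hv y : L R) (e β) = 0 := by
  simp [gf, LinearMap.sum_apply, co_hv, hp_e]

theorem gf_hv_hv (y z : Lat) : gf (hv y : L R) (hv z) = -(ip y z : R) := by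
  have := congrArg (Int.cast : ℤ → R) (sum_ip y z)
  simp only [gf, LinearMap.sub_apply, LinearMap.sum_apply, LinearMap.smulRight_apply, co_hv,
    zero_smul, Finset.sum_const_zero, zero_sub, LinearMap.neg_apply, LinearMap.smul_apply, hp_hv,
    ← this]
  push_cast
  congr 1
  exact Finset.sum_congr rfl fun i _ => by simp [hv, a_eq, ip_comm z, mul_comm]

theorem gf_comm (x y : L R) : gf x y = gf y x := by
  induction x using L_ind with
  | hadd v w h1 h2 => simp only [map_add, LinearMap.add_apply, h1, h2]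
  | hsmul c v h1 => simp [h1]
  | h1 z =>
    induction y using L_ind with
    | hadd v w h1 h2 => simp only [map_add, LinearMap.add_apply, h1, h2]
    | hsmul c v h1 => simp [h1]
    | h1 z' => rw [gf_hv_hv, gf_hv_hv, ip_comm]
    | h2 β hβ => rw [gf_hv_e, gf_e hβ, co_hv]
  | h2 α hα =>
    induction y using L_ind with
    | hadd v w h1 h2 => simp only [map_add, LinearMap.add_apply, h1, h2]
    | hsmul c v h1 => simp [h1]
    | h1 z' => rw [gf_hv_e, gf_e hα, co_hv]
    | h2 β hβ =>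
      rw [gf_e hα, gf_e hβ, co_e, co_e, norm_neg, norm_neg]
      have : -α = β ↔ -β = α := by rw [neg_eq_iff_eq_neg, eq_comm]
      simp [hα, hβ, this]

theorem gf_e_right {α : Lat} (h : ip α α = 2) (x : L R) : gf x (e α) = co (-α) x := by
  rw [gf_comm, gf_e h]

theorem gf_ad {α : Lat} (hα : ip α α = 2) (x y : L R) : gf (ad α x) y = -gf x (ad α y) := by
  have key : ∀ z β : Lat, ip β β = 2 →
      gf (ad α (hv z : L R)) (e β) = -gf (hv z : L R) (ad α (e β)) := by
    intro z β hβ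
    rw [ad_hv, map_smul, LinearMap.smul_apply, gf_e hα, ad_e hβ, map_sub, map_smul, gf_hv_e, co_e]
    by_cases h : α + β = 0
    · have : -α = β := by rw [neg_eq_iff_add_eq_zero, h]
      simp [h, this, hβ, gf_hv_hv]
    · have : -α ≠ β := by rwa [Ne, neg_eq_iff_add_eq_zero]
      simp [h, this]
  induction x using L_ind with
  | hadd v w h1 h2 => simp only [map_add, LinearMap.add_apply, h1, h2]; ring
  | hsmul c v h1 => simp [h1]
  | h1 z =>
    induction y using L_ind with
    | hadd v w h1 h2 => simp only [map_add, h1, h2]; ring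
    | hsmul c v h1 => simp [h1]
    | h1 z' => simp [ad_hv, gf_e hα, co_hv, gf_hv_e]
    | h2 β hβ => exact key z β hβ
  | h2 γ hγ =>
    induction y using L_ind with
    | hadd v w h1 h2 => simp only [map_add, h1, h2]; ring
    | hsmul c v h1 => simp [h1]
    | h1 z' => rw [gf_comm, gf_comm (e γ), key z' γ hγ, neg_neg]
    | h2 β hβ =>
      rw [gf_e_right hβ, gf_e hγ, ad_e hβ, ad_e hγ]
      have h0 : ∀ (δ : Lat) (p : Prop) [Decidable p],
          co δ (if p then (hv α : L R) else 0) = 0 := fun δ p _ => by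
        split_ifs <;> simp [co_hv]
      simp only [map_sub, map_smul, h0, co_e, norm_neg, hβ, hγ, true_and, sub_zero]
      by_cases h : -β = α + γ
      · have h1 : -γ = α + β := by rw [neg_eq_iff_eq_neg] at h; rw [h]; abel
        have h2 : eps α β = -eps α γ := by
          rw [← eps_neg_right, h, eps_add_right, eps_self hα]; ring
        simp [h, h1, h2]
      · have h1 : -γ ≠ α + β := fun h' => h (by rw [neg_eq_iff_eq_neg] at h'; rw [h']; abel)
        simp [h, h1]

/-! Reduction from the integers. -/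

def castL (R : Type) [CommRing R] : L ℤ →+ L R where
  toFun v := (fun i => (v.1 i : R), fun β => (v.2 β : R))
  map_zero' := by ext <;> simp
  map_add' v w := by ext <;> simp

theorem castL_smul (c : ℤ) (v : L ℤ) : castL R (c • v) = (c : R) • castL R v := by
  rw [map_zsmul, Int.cast_smul_eq_zsmul]

theorem castL_co (β : Lat) (v : L ℤ) : co β (castL R v) = ((co β v : ℤ) : R) := by
  by_cases h : ip β β = 2
  · rw [co_of_root h, co_of_root h]; rfl
  · simp [co_of_not h]

theorem castL_hv (y : Lat) : castL R (hv y) = hv y := by ext <;> simp [castL, hv]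

theorem castL_e (y : Lat) : castL R (e y) = e y := by ext <;> simp [castL, e]

theorem castL_ad (α : Lat) (v : L ℤ) : castL R (ad α v) = ad α (castL R v) := by
  induction v using L_ind with
  | hadd v w h1 h2 => simp only [map_add, h1, h2]
  | hsmul c v h1 => rw [map_smul, castL_smul, castL_smul, map_smul, h1]
  | h1 z => rw [castL_hv, ad_hv, ad_hv, castL_smul, castL_e]; simp
  | h2 β hβ =>
    rw [castL_e, ad_e hβ, ad_e hβ, map_sub, castL_smul, castL_e]
    split_ifs <;> simp [castL_hv]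

theorem castL_br (x y : L ℤ) : castL R (br x y) = br (castL R x) (castL R y) := by
  induction x using L_ind with
  | hadd v w h1 h2 => simp only [map_add, LinearMap.add_apply, h1, h2]
  | hsmul c v h1 =>
    rw [map_smul, LinearMap.smul_apply, castL_smul, castL_smul, map_smul, LinearMap.smul_apply, h1]
  | h2 β hβ => rw [castL_e, br_e hβ, br_e hβ, castL_ad]
  | h1 z =>
    induction y using L_ind with
    | hadd v w h1 h2 => simp only [map_add, h1, h2]
    | hsmul c v h1 => rw [map_smul, castL_smul, castL_smul, map_smul, h1]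
    | h1 y => simp [castL_hv, br_hv_hv]
    | h2 β hβ => rw [castL_hv, castL_e, br_hv_e, br_hv_e, castL_smul, castL_e]; simp

theorem premet_int {α : Lat} (hα : ip α α = 2) (x y : L ℤ) : br (ad α x) (ad α y) =
    co (-α) (br x y) • e α + co (-α) y • ad α x - co (-α) x • ad α y := by
  apply smul_right_injective (L ℤ) (two_ne_zero (α := ℤ))
  have h1 := ad_ad hα (br x y)
  rw [ad_br hα, map_add, ad_br hα, ad_br hα, ad_ad hα, ad_ad hα, map_smul, map_smul,
    LinearMap.smul_apply, br_e hα, br_e_right hα] at h1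
  simp only
  linear_combination (exp := 1) h1

theorem premet {α : Lat} (hα : ip α α = 2) (x y : L R) : br (ad α x) (ad α y) =
    co (-α) (br x y) • e α + co (-α) y • ad α x - co (-α) x • ad α y := by
  have key : ∀ x y : L ℤ, br (ad α (castL R x)) (ad α (castL R y)) =
      co (-α) (br (castL R x) (castL R y)) • e α + co (-α) (castL R y) • ad α (castL R x)
        - co (-α) (castL R x) • ad α (castL R y) := fun x y => by
    rw [← castL_ad, ← castL_ad, ← castL_br, ← castL_br, premet_int hα, map_sub, map_add,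
      castL_smul, castL_smul, castL_smul, castL_co, castL_co, castL_co, castL_e]
  have k2 : ∀ x : L ℤ, ∀ y : L R, br (ad α (castL R x)) (ad α y) =
      co (-α) (br (castL R x) y) • e α + co (-α) y • ad α (castL R x)
        - co (-α) (castL R x) • ad α y := fun x y => by
    induction y using L_ind with
    | hadd v w h1 h2 => simp only [map_add, h1, h2]; module
    | hsmul c v h1 => simp only [map_smul, h1, smul_eq_mul]; module
    | h1 z => simpa only [castL_hv] using key x (hv z)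
    | h2 β hβ => simpa only [castL_e] using key x (e β)
  induction x using L_ind with
  | hadd v w h1 h2 => simp only [map_add, LinearMap.add_apply, h1, h2]; module
  | hsmul c v h1 => simp only [map_smul, LinearMap.smul_apply, h1, smul_eq_mul]; module
  | h1 z => simpa only [castL_hv] using k2 (hv z) y
  | h2 β hβ => simpa only [castL_e] using k2 (e β) y

theorem xl_br {α : Lat} (hα : ip α α = 2) (t : R) (x y : L R) :
    xl α t (br x y) = br (xl α t x) (xl α t y) := by
  simp only [xl_apply, map_add, map_smul, LinearMap.add_apply, LinearMap.smul_apply, premet hα,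
    br_e hα, br_e_right hα, ad_ad hα, ad_e_self hα, ad_br hα]
  module

theorem xl_gf {α : Lat} (hα : ip α α = 2) (t : R) (x y : L R) :
    gf (xl α t x) (xl α t y) = gf x y := by
  simp only [xl_apply, map_add, map_smul, LinearMap.add_apply, LinearMap.smul_apply, gf_ad hα,
    gf_e hα, gf_e_right hα, ad_ad hα, ad_e_self hα, co_neg_ad hα, co_e_ne (neg_ne_self hα),
    smul_eq_mul, map_zero]
  ring

/-! The automorphism group. -/

abbrev Aut (R : Type) [CommRing R] : Type := L R ≃ₗ[R] L R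

def AutG (R : Type) [CommRing R] : Subgroup (Aut R) where
  carrier := {g | (∀ x y, g (br x y) = br (g x) (g y)) ∧ ∀ x y, gf (g x) (g y) = gf x y}
  one_mem' := ⟨fun _ _ => rfl, fun _ _ => rfl⟩
  mul_mem' := fun {g h} hg hh => ⟨fun x y => by
    simp only [LinearEquiv.mul_apply, hh.1, hg.1], fun x y => by
    simp only [LinearEquiv.mul_apply, hh.2, hg.2]⟩
  inv_mem' := fun {g} hg => ⟨fun x y => g.injective (by rw [hg.1]; simp), fun x y => by
    rw [← hg.2]; simp⟩

theorem inv_app (g : Aut R) (v : L R) : g⁻¹ (g v) = v := by simp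
theorem app_inv (g : Aut R) (v : L R) : g (g⁻¹ v) = v := by simp

theorem gf_inv {g : Aut R} (hg : g ∈ AutG R) (x y : L R) : gf x (g y) = gf (g⁻¹ x) y := by
  rw [← hg.2 (g⁻¹ x), app_inv]

noncomputable def X (α : Lat) (t : R) : Aut R := if h : ip α α = 2 then x ⟨α, h⟩ t else 1

theorem X_eq (α : Root) (t : R) : x α t = X α.1 t := by simp [X, α.2]

theorem X_xl {α : Lat} (hα : ip α α = 2) (t : R) (v : L R) : X α t v = xl α t v := by
  simp [X, hα, x]

theorem X_apply {α : Lat} (hα : ip α α = 2) (t : R) (v : L R) :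
    X α t v = v + t • ad α v + (t ^ 2 * co (-α) v) • e α := by rw [X_xl hα, xl_apply]

theorem X_add (α : Lat) (s t : R) : X α s * X α t = X α (s + t) := by
  by_cases hα : ip α α = 2
  · ext1 v; rw [LinearEquiv.mul_apply, X_xl hα, X_xl hα, X_xl hα, xl_xl hα]
  · simp [X, hα]

theorem X_zero (α : Lat) : X α (0 : R) = 1 := by
  have := X_add α (0 : R) 0
  rwa [add_zero, mul_eq_left] at this

theorem X_inv (α : Lat) (t : R) : (X α t)⁻¹ = X α (-t) := by
  rw [inv_eq_iff_mul_eq_one, X_add, add_neg_cancel, X_zero]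

theorem X_aut (α : Lat) (t : R) : X α t ∈ AutG R := by
  by_cases hα : ip α α = 2
  · exact ⟨fun x y => by simp only [X_xl hα, xl_br hα], fun x y => by simp only [X_xl hα, xl_gf hα]⟩
  · simp [X, hα]

noncomputable def ex (x v : L R) : L R := v + br x v + gf x v • x

theorem X_ex {α : Lat} (hα : ip α α = 2) (t : R) (v : L R) : X α t v = ex (t • e α) v := by
  simp only [X_apply hα, ex, map_smul, LinearMap.smul_apply, br_e hα, gf_e hα, smul_eq_mul]
  module

theorem aut_ex {g : Aut R} (hg : g ∈ AutG R) (x v : L R) : g (ex x v) = ex (g x) (g v) := by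
  simp only [ex, map_add, map_smul, hg.1, hg.2]

theorem conj_X_apply {g : Aut R} (hg : g ∈ AutG R) {α : Lat} (hα : ip α α = 2) (t : R) (v : L R) :
    (g * X α t * g⁻¹) v = ex (t • g (e α)) v := by
  rw [LinearEquiv.mul_apply, LinearEquiv.mul_apply, X_ex hα, aut_ex hg, app_inv, map_smul]

theorem conj_X {g : Aut R} (hg : g ∈ AutG R) {α β : Lat} (hα : ip α α = 2) (hβ : ip β β = 2)
    {c : R} (h : g (e α) = c • e β) (t : R) : g * X α t * g⁻¹ = X β (c * t) := by
  ext1 v
  rw [conj_X_apply hg hα, h, X_ex hβ, smul_smul, mul_comm]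

theorem X_e_nn {α β : Lat} (hα : ip α α = 2) (hβ : ip β β = 2) (h : 0 ≤ ip α β) (t : R) :
    X α t (e β) = e β := by
  have : -α ≠ β := by rw [Ne, neg_eq_iff_add_eq_zero]; exact add_ne_zero_of_ip hα (by omega)
  simp [X_apply hα, ad_e_nn hα hβ h, co_e_ne this]

theorem X_e_m1 {α β : Lat} (hα : ip α α = 2) (hβ : ip β β = 2) (h : ip α β = -1) (t : R) :
    X α t (e β) = e β + (t * eps α β) • e (α + β) := by
  have : -α ≠ β := by rw [Ne, neg_eq_iff_add_eq_zero]; exact add_ne_zero_of_ip hα (by omega)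
  simp [X_apply hα, ad_e_m1 hα hβ h, co_e_ne this, smul_smul]

theorem X_e_m2 {α : Lat} (hα : ip α α = 2) (t : R) :
    X α t (e (-α)) = e (-α) - t • hv α + t ^ 2 • e α := by
  simp [X_apply hα, ad_e_m2 hα, co_e_self (root_neg hα), sub_eq_add_neg]

theorem X_hv {α : Lat} (hα : ip α α = 2) (t : R) (y : Lat) :
    X α t (hv y) = hv y - (t * ip y α) • e α := by
  simp [X_apply hα, ad_hv, co_hv, sub_eq_add_neg, smul_smul]

theorem X_comm {α β : Lat} (hα : ip α α = 2) (hβ : ip β β = 2) (h : 0 ≤ ip α β) (s t : R) :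
    X α s * X β t = X β t * X α s := by
  have := conj_X (X_aut α s) hβ hβ (c := 1) (by rw [X_e_nn hα hβ h, one_smul]) t
  rw [one_mul] at this
  exact mul_inv_eq_iff_eq_mul.1 this

theorem collinear {μ ν : Lat} (hμ : ip μ μ = 2) (hν : ip ν ν = 2) (h : ip μ ν = 1) (v : L R) :
    ad μ (ad ν v) = co (-μ) v • e ν + co (-ν) v • e μ := by
  induction v using L_ind with
  | hadd v w h1 h2 => simp only [map_add, h1, h2]; module
  | hsmul c v h1 => simp only [map_smul, h1, smul_eq_mul]; module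
  | h1 z => simp [ad_hv, ad_e_nn hμ hν (by omega), co_hv]
  | h2 γ hγ =>
    have hne : -μ ≠ -ν := fun h' => by rw [neg_inj.1 h'] at h; omega
    rcases ip_cases hν hγ with rfl | h1 | h1
    · simp [ad_e_m2 hν, ad_hv, ip_comm ν, h, co_e_ne hne, co_e_self hγ]
    · have h2 : -ν ≠ γ := by
        rw [Ne, neg_eq_iff_add_eq_zero]; exact add_ne_zero_of_ip hν (by omega)
      have h3 := (root_add hν hγ).2 h1
      rw [ad_e_m1 hν hγ h1, map_smul, co_e_ne h2]
      by_cases h4 : γ = -μ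
      · subst h4
        rw [ad_e_m1 hμ h3 (by rw [ip_add_right, ip_neg_right]; omega), co_e_self hγ,
          eps_neg_right, eps_add_right, eps_neg_right, eps_self hμ,
          eps_swap_odd (x := μ) (y := ν) (by rw [h]; rfl), smul_smul,
          show μ + (ν + -μ) = ν by abel]
        have := eps_cast_mul_self (R := R) μ ν
        push_cast
        rw [mul_neg_one, neg_mul_neg, this]; simp
      · have h5 := neg_one_le_ip hμ hγ (fun h' => h4 (by rw [eq_neg_iff_add_eq_zero, add_comm, h']))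
        rw [ad_e_nn hμ h3 (by rw [ip_add_right]; omega), co_e_ne (Ne.symm h4)]; simp
    · have h2 : -ν ≠ γ := by
        rw [Ne, neg_eq_iff_add_eq_zero]; exact add_ne_zero_of_ip hν (by omega)
      have h4 : -μ ≠ γ := by rintro rfl; rw [ip_neg_right, ip_comm] at h1; omega
      simp [ad_e_nn hν hγ h1, co_e_ne h2, co_e_ne h4]

theorem ex_collinear {μ ν : Lat} (hμ : ip μ μ = 2) (hν : ip ν ν = 2) (h : ip μ ν = 1) (s t : R)
    (v : L R) : ex (s • e μ + t • e ν) v = (X μ s * X ν t) v := by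
  have h1 : co (-μ) (ad ν v) = 0 := by
    have hne : -μ ≠ ν := fun h' => by rw [← h', ip_neg_right] at h; omega
    rw [co_ad, if_neg hne, co_of_not (β := -μ - ν), mul_zero, ite_self]
    rw [norm_sub, norm_neg, ip_neg_left]; omega
  have h2 : co (-μ) (e ν : L R) = 0 :=
    co_e_ne fun h' => by rw [← h', ip_neg_right] at h; omega
  simp only [LinearEquiv.mul_apply, X_apply hμ, X_apply hν, ex, map_add, map_smul,
    LinearMap.add_apply, LinearMap.smul_apply, br_e hμ, br_e hν, gf_e hμ, gf_e hν,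
    collinear hμ hν h, h1, h2, ad_e_nn hμ hν (by omega), smul_eq_mul]
  module

theorem X_conj_m1 {α β : Lat} (hα : ip α α = 2) (hβ : ip β β = 2) (h : ip α β = -1) (s t : R) :
    X α s * X β t * (X α s)⁻¹ = X β t * X (α + β) (t * (s * eps α β)) := by
  ext1 v
  rw [conj_X_apply (X_aut α s) hβ, X_e_m1 hα hβ h, smul_add, smul_smul,
    ex_collinear hβ ((root_add hα hβ).2 h) (by rw [ip_add_right, ip_comm]; omega)]

/-- An automorphism transports structure along a bracket. -/
theorem aut_step {g : Aut R} (hg : g ∈ AutG R) {α β α' β' : Lat} (hα : ip α α = 2)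
    (hβ : ip β β = 2) (hα' : ip α' α' = 2) (hβ' : ip β' β' = 2) (h : ip α β = -1)
    (h' : ip α' β' = -1) {c : R} (h1 : g (e α) = e α') (h2 : g (e β) = c • e β') :
    g (e (α + β)) = (c * eps α β * eps α' β') • e (α' + β') := by
  have h3 := hg.1 (e α) (e β)
  rw [h1, h2, br_e hα, br_e hα', map_smul, ad_e_m1 hα hβ h, ad_e_m1 hα' hβ' h', map_smul] at h3
  have h4 := congrArg (fun v => (eps α β : R) • v) h3
  simp only [smul_smul, eps_cast_mul_self, one_smul] at h4
  rw [h4]; congr 1; ring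

theorem aut_neg {g : Aut R} (hg : g ∈ AutG R) {α β γ : Lat} (hα : ip α α = 2) (hβ : ip β β = 2)
    {c d : R} (h1 : g (e α) = c • e β) (h2 : g (e (-α)) = d • e γ) : c * d = 1 := by
  have h3 := hg.2 (e α) (e (-α))
  rw [h1, h2, gf_e hα, co_e_self (root_neg hα), map_smul, map_smul, LinearMap.smul_apply, gf_e hβ,
    co_e] at h3
  split_ifs at h3
  · simpa [mul_comm] using h3
  · have : (0 : R) = 1 := by simpa using h3
    rw [← mul_one (c * d), ← this, mul_zero]

theorem aut_hv {g : Aut R} (hg : g ∈ AutG R) {α β : Lat} (hα : ip α α = 2) (hβ : ip β β = 2)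
    {c d : R} (h1 : g (e α) = c • e β) (h2 : g (e (-α)) = d • e (-β)) : g (hv α) = hv β := by
  have h4 := aut_neg hg hα hβ h1 h2
  have h3 := hg.1 (e α) (e (-α))
  rw [h1, h2, br_e hα, ad_e_m2 hα, map_smul, map_smul, LinearMap.smul_apply, br_e hβ, ad_e_m2 hβ,
    smul_smul, mul_comm, h4, one_smul, map_neg, neg_inj] at h3
  exact h3

end Pool.Agent.MP_db74b1_al.Exc

end

section

set_option autoImplicit false

namespace Pool.Agent.MP_db74b1_al.Exc

def pm : Bool → Fin 8 → Fin 8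
  | true, 0 => 5 | true, 2 => 4 | true, 4 => 2 | true, 5 => 0 | _, i => i

theorem pm_pm : ∀ b i, pm b (pm b i) = i := by decide

def sg (b : Bool) (y : Lat) : Lat := fun i => y (pm b i)

theorem sig_eq (b : Bool) (y : Lat) : sig b y = sg b y := by
  cases b
  · ext i; fin_cases i <;> rfl
  · ext i; fin_cases i <;> rfl

theorem sg_false (y : Lat) : sg false y = y := by ext i; fin_cases i <;> rfl
theorem sg_sg (b : Bool) (y : Lat) : sg b (sg b y) = y := by ext i; simp [sg, pm_pm]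
theorem sg_add (b : Bool) (x y : Lat) : sg b (x + y) = sg b x + sg b y := rfl
theorem sg_sub (b : Bool) (x y : Lat) : sg b (x - y) = sg b x - sg b y := rfl
theorem sg_neg (b : Bool) (x : Lat) : sg b (-x) = -sg b x := rfl
theorem sg_smul (b : Bool) (c : ℤ) (x : Lat) : sg b (c • x) = c • sg b x := rfl
theorem sg_zero (b : Bool) : sg b 0 = 0 := rfl
theorem sg_inj {b : Bool} {x y : Lat} : sg b x = sg b y ↔ x = y :=
  ⟨fun h => by rw [← sg_sg b x, h, sg_sg], fun h => h ▸ rfl⟩
theorem sg_a : ∀ b i, sg b (a i) = a (pm b i) := by decide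
theorem ht_sg (b : Bool) (x : Lat) : ht (sg b x) = ht x := by
  cases b
  · rw [sg_false]
  · simp only [ht, sg, pm]; ring
theorem sg_nonneg {b : Bool} {x : Lat} (h : 0 ≤ x) : 0 ≤ sg b x := fun _ => h _

def Sp (n : ℕ) (x : Lat) : Prop := ∀ j : Fin 8, n ≤ j.1 → x j = 0

instance (n : ℕ) (x : Lat) : Decidable (Sp n x) := by unfold Sp; infer_instance

theorem Sp.add {n : ℕ} {x y : Lat} (hx : Sp n x) (hy : Sp n y) : Sp n (x + y) :=
  fun j hj => by simp [hx j hj, hy j hj]
theorem Sp.neg {n : ℕ} {x : Lat} (hx : Sp n x) : Sp n (-x) := fun j hj => by simp [hx j hj]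
theorem Sp.sub {n : ℕ} {x y : Lat} (hx : Sp n x) (hy : Sp n y) : Sp n (x - y) :=
  fun j hj => by simp [hx j hj, hy j hj]
theorem Sp.smul {n : ℕ} {x : Lat} (hx : Sp n x) (c : ℤ) : Sp n (c • x) :=
  fun j hj => by simp [hx j hj]
theorem Sp_a {n : ℕ} {i : Fin 8} (h : i.1 < n) : Sp n (a i) := fun j hj => by
  have : j ≠ i := by rintro rfl; omega
  simp [a, this]

theorem form_sg6 {x y : Lat} (hx : Sp 6 x) (hy : Sp 6 y) :
    form (sg true x) (sg true y) = form x y := by
  have h1 := hx 6 (by decide); have h2 := hx 7 (by decide)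
  have h3 := hy 6 (by decide); have h4 := hy 7 (by decide)
  simp only [form_x, formx, sg, pm, h1, h2, h3, h4]; ring

theorem sg_orth : ∀ x ∈ posL, Sp 6 x → (∀ i, sg true x i = x i) ∨ ipx x (sg true x) = 0 := by
  decide +kernel

variable {K : Type} [Field K]

structure Cfg (K : Type) [Field K] where
  n : ℕ
  b : Bool
  τ : K →+* K
  ok : (b = false ∧ (∀ t, τ t = t) ∧ (n = 6 ∨ n = 7 ∨ n = 8)) ∨
    (b = true ∧ n = 6 ∧ ∀ t, τ (τ t) = t)

namespace Cfg

variable (c : Cfg K)

theorem ττ (t : K) : c.τ (c.τ t) = t := by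
  rcases c.ok with ⟨_, h, _⟩ | ⟨_, _, h⟩
  · rw [h, h]
  · exact h t

theorem pm_lt (i : Fin 8) : (pm c.b i).1 < c.n ↔ i.1 < c.n := by
  rcases c.ok with ⟨h, _, _⟩ | ⟨h, h', _⟩
  · rw [h]; revert i; intro i; fin_cases i <;> rfl
  · rw [h, h']; revert i; decide

theorem Sp_sg {x : Lat} (h : Sp c.n x) : Sp c.n (sg c.b x) := fun j hj =>
  h _ (by have := c.pm_lt j; omega)

theorem form_sg {x y : Lat} (hx : Sp c.n x) (hy : Sp c.n y) :
    form (sg c.b x) (sg c.b y) = form x y := by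
  rcases c.ok with ⟨h, _, _⟩ | ⟨h, h', _⟩
  · rw [h, sg_false, sg_false]
  · rw [h]; rw [h'] at hx hy; exact form_sg6 hx hy

theorem ip_sg {x y : Lat} (hx : Sp c.n x) (hy : Sp c.n y) :
    ip (sg c.b x) (sg c.b y) = ip x y := by rw [ip_eq, ip_eq, c.form_sg hx hy, c.form_sg hy hx]

theorem ip_sg' {x y : Lat} (hx : Sp c.n x) (hy : Sp c.n y) :
    ip (sg c.b x) y = ip x (sg c.b y) := by rw [← c.ip_sg hx (c.Sp_sg hy), sg_sg]

theorem eps_sg {x y : Lat} (hx : Sp c.n x) (hy : Sp c.n y) :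
    eps (sg c.b x) (sg c.b y) = eps x y := by rw [eps, eps, c.form_sg hx hy]

/-- roots of the subsystem -/
def R (x : Lat) : Prop := ip x x = 2 ∧ Sp c.n x

variable {c}

theorem R.sg {x : Lat} (h : c.R x) : c.R (sg c.b x) := ⟨by rw [c.ip_sg h.2 h.2, h.1], c.Sp_sg h.2⟩
theorem R.neg {x : Lat} (h : c.R x) : c.R (-x) := ⟨root_neg h.1, h.2.neg⟩
theorem R_a {i : Fin 8} (h : i.1 < c.n) : c.R (a i) := ⟨root_a i, Sp_a h⟩

theorem R.orth {x : Lat} (h : c.R x) (h' : Exc.sg c.b x ≠ x) : ip x (Exc.sg c.b x) = 0 := by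
  rcases c.ok with ⟨hb, _, _⟩ | ⟨hb, hn, _⟩
  · rw [hb, sg_false] at h'; exact absurd rfl h'
  · obtain ⟨h1, h2⟩ := h
    rw [hb] at h' ⊢; rw [hn] at h2
    rcases root_dich h1 with h3 | h3
    · rw [ip_x]; exact (sg_orth x (mem_posL h1 h3) h2).resolve_left fun h4 => h' (funext h4)
    · have := (sg_orth (-x) (mem_posL (root_neg h1) (neg_nonneg.2 h3)) h2.neg).resolve_left
        fun h4 => h' (neg_inj.1 (funext h4))
      rwa [← ip_x, sg_neg, ip_neg_left, ip_neg_right, neg_neg] at this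

variable (c)

def G : Subgroup (Aut K) := chev c.n c.b c.τ

noncomputable def Y (α : Lat) (t : K) : Aut K :=
  if sg c.b α = α then X α t else X α t * X (sg c.b α) (c.τ t)

def Al (α : Lat) (t : K) : Prop := sg c.b α = α → c.τ t = t

variable {c}

theorem Y_fix {α : Lat} (h : sg c.b α = α) (t : K) : c.Y α t = X α t := if_pos h
theorem Y_mov {α : Lat} (h : sg c.b α ≠ α) (t : K) :
    c.Y α t = X α t * X (sg c.b α) (c.τ t) := if_neg h

theorem Al.neg {α : Lat} {t : K} (h : c.Al α t) : c.Al α (-t) := fun h' => by rw [map_neg, h h']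
theorem Al.add {α : Lat} {s t : K} (h : c.Al α s) (h2 : c.Al α t) : c.Al α (s + t) :=
  fun h' => by rw [map_add, h h', h2 h']
theorem Al.inv {α : Lat} {t : K} (h : c.Al α t) : c.Al α t⁻¹ := fun h' => by rw [map_inv₀, h h']
theorem Al.neg' {α : Lat} {t : K} (h : c.Al α t) : c.Al (-α) t := fun h' => h (neg_inj.1 h')
theorem Al_fix {t : K} (h : c.τ t = t) (α : Lat) : c.Al α t := fun _ => h
theorem Al_one (α : Lat) : c.Al α 1 := fun _ => map_one _
theorem Al_zero (α : Lat) : c.Al α 0 := fun _ => map_zero _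

theorem Y_mem {α : Lat} (h : c.R α) {t : K} (ht : c.Al α t) : c.Y α t ∈ c.G := by
  apply Subgroup.subset_closure
  refine ⟨⟨α, h.1⟩, ⟨sg c.b α, h.sg.1⟩, t, h.2, (sig_eq _ _).symm, ?_⟩
  by_cases h' : sg c.b α = α
  · exact Or.inl ⟨Subtype.ext h', ht h', by rw [Y_fix h', X_eq]⟩
  · exact Or.inr ⟨fun h2 => h' (congrArg Subtype.val h2), by rw [Y_mov h', X_eq, X_eq]⟩

theorem gen_Y {g : Aut K} (hg : g ∈ {g : Aut K | ∃ (α β : Root) (t : K),
    (∀ j : Fin 8, c.n ≤ j.1 → α.1 j = 0) ∧ β.1 = sig c.b α.1 ∧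
    ((β = α ∧ c.τ t = t ∧ g = x α t) ∨ (β ≠ α ∧ g = x α t * x β (c.τ t)))}) :
    ∃ α t, c.R α ∧ c.Al α t ∧ g = c.Y α t := by
  obtain ⟨α, β, t, h1, h2, h3⟩ := hg
  rw [sig_eq] at h2
  refine ⟨α.1, t, ⟨α.2, h1⟩, ?_⟩
  rcases h3 with ⟨rfl, h4, rfl⟩ | ⟨h4, rfl⟩
  · exact ⟨Al_fix h4 _, by rw [Y_fix h2.symm, X_eq]⟩
  · have h5 : sg c.b α.1 ≠ α.1 := fun h => h4 (Subtype.ext (h2.trans h))
    exact ⟨fun h => absurd h h5, by rw [Y_mov h5, X_eq, X_eq, h2]⟩

theorem G_le {H : Subgroup (Aut K)} (h : ∀ α t, c.R α → c.Al α t → c.Y α t ∈ H) : c.G ≤ H :=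
  (Subgroup.closure_le _).2 fun g hg => by
    obtain ⟨α, t, h1, h2, rfl⟩ := gen_Y hg
    exact h α t h1 h2

theorem Y_aut (α : Lat) (t : K) : c.Y α t ∈ AutG K := by
  unfold Y; split_ifs
  · exact X_aut _ _
  · exact mul_mem (X_aut _ _) (X_aut _ _)

theorem G_aut {g : Aut K} (hg : g ∈ c.G) : g ∈ AutG K := G_le (fun α t _ _ => Y_aut α t) hg

theorem Y_add {α : Lat} (h : c.R α) (s t : K) : c.Y α s * c.Y α t = c.Y α (s + t) := by
  by_cases h' : sg c.b α = α
  · simp only [Y_fix h', X_add]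
  · simp only [Y_mov h', map_add, ← X_add]
    have := X_comm h.1 h.sg.1 (h.orth h').ge t (c.τ s)
    rw [mul_assoc, ← mul_assoc (X (sg c.b α) (c.τ s)), ← this]; simp only [mul_assoc]

theorem Y_zero (α : Lat) : c.Y α 0 = 1 := by
  unfold Y; split_ifs <;> simp [X_zero]

theorem Y_inv {α : Lat} (h : c.R α) (t : K) : (c.Y α t)⁻¹ = c.Y α (-t) := by
  rw [inv_eq_iff_mul_eq_one, Y_add h, add_neg_cancel, Y_zero]

theorem Y_sg {α : Lat} (h : c.R α) {t : K} (ht : c.Al α t) :
    c.Y (sg c.b α) (c.τ t) = c.Y α t := by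
  by_cases h' : sg c.b α = α
  · rw [h', ht h']
  · rw [Y_mov h', Y_mov (by rw [sg_sg]; exact Ne.symm h'), sg_sg, c.ττ,
      X_comm h.1 h.sg.1 (h.orth h').ge]

theorem G_induction {p : Aut K → Prop} (h1 : p 1)
    (h : ∀ α t g, c.R α → c.Al α t → p g → p (c.Y α t * g)) {g : Aut K} (hg : g ∈ c.G) : p g := by
  induction hg using Subgroup.closure_induction_left with
  | one => exact h1
  | mul_left x hx y _ hy =>
    obtain ⟨α, t, h2, h3, rfl⟩ := gen_Y hx
    exact h α t y h2 h3 hy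
  | inv_mul_cancel x hx y _ hy =>
    obtain ⟨α, t, h2, h3, rfl⟩ := gen_Y hx
    rw [Y_inv h2]; exact h α _ y h2 h3.neg hy

/-! The subalgebra and the semilinear graph-field automorphism. -/

variable (c)

def V : Submodule K (L K) where
  carrier := {v | (∀ j : Fin 8, c.n ≤ j.1 → v.1 j = 0) ∧ ∀ β, ¬ Sp c.n β → co β v = 0}
  zero_mem' := ⟨fun _ _ => rfl, fun _ _ => map_zero _⟩
  add_mem' := fun {v w} hv hw => ⟨fun j hj => by simp [hv.1 j hj, hw.1 j hj],
    fun β hβ => by simp [hv.2 β hβ, hw.2 β hβ]⟩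
  smul_mem' := fun r v hv => ⟨fun j hj => by simp [hv.1 j hj], fun β hβ => by simp [hv.2 β hβ]⟩

def st : L K →ₛₗ[c.τ] L K where
  toFun v := (fun i => c.τ (v.1 (pm c.b i)), fun β => c.τ (co (sg c.b β.1) v))
  map_add' v w := by ext <;> simp
  map_smul' r v := by ext <;> simp

variable {c}

theorem hv_mem {y : Lat} (h : Sp c.n y) : (hv y : L K) ∈ c.V :=
  ⟨fun j hj => by simp [hv, h j hj], fun β _ => co_hv _ _⟩

theorem e_mem {y : Lat} (h : Sp c.n y) : (e y : L K) ∈ c.V :=
  ⟨fun _ _ => rfl, fun _ hβ => co_e_ne fun h' => hβ (h' ▸ h)⟩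

theorem V_ind {P : L K → Prop} (hadd : ∀ v w, v ∈ c.V → w ∈ c.V → P v → P w → P (v + w))
    (hsmul : ∀ (r : K) v, v ∈ c.V → P v → P (r • v)) (h1 : ∀ i : Fin 8, i.1 < c.n → P (hv (a i)))
    (h2 : ∀ β, c.R β → P (e β)) {v : L K} (hv' : v ∈ c.V) : P v := by
  have hn : (0 : Fin 8).1 < c.n := by
    rcases c.ok with ⟨_, _, h | h | h⟩ | ⟨_, h, _⟩ <;> simp [h]
  have h0 : P 0 := by simpa using hsmul 0 _ (hv_mem (Sp_a hn)) (h1 0 hn)
  have hadd' : ∀ v w, (v ∈ c.V ∧ P v) → (w ∈ c.V ∧ P w) → (v + w ∈ c.V ∧ P (v + w)) :=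
    fun v w hv hw => ⟨add_mem hv.1 hw.1, hadd v w hv.1 hw.1 hv.2 hw.2⟩
  rw [L_decomp v]
  refine (hadd' _ _ (Finset.sum_induction _ (fun v => v ∈ c.V ∧ P v) hadd' ⟨zero_mem _, h0⟩
    fun i _ => ?_) (Finset.sum_induction _ (fun v => v ∈ c.V ∧ P v) hadd' ⟨zero_mem _, h0⟩
    fun β _ => ?_)).2
  · by_cases hi : i.1 < c.n
    · exact ⟨c.V.smul_mem _ (hv_mem (Sp_a hi)), hsmul _ _ (hv_mem (Sp_a hi)) (h1 i hi)⟩
    · rw [hv'.1 i (by omega), zero_smul]; exact ⟨zero_mem _, h0⟩
  · by_cases hβ : Sp c.n β.1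
    · exact ⟨c.V.smul_mem _ (e_mem hβ), hsmul _ _ (e_mem hβ) (h2 _ ⟨β.2, hβ⟩)⟩
    · rw [← co_of_root β.2, hv'.2 _ hβ, zero_smul]; exact ⟨zero_mem _, h0⟩

theorem st_hv (y : Lat) : c.st (hv y) = hv (sg c.b y) := by
  ext <;> simp [st, hv, sg]
  rw [← hv, co_hv]

theorem st_e {y : Lat} (h : Sp c.n y) : c.st (e y) = e (sg c.b y) := by
  ext i
  · simp [st, e]
  · change c.τ (co (sg c.b i.1) (e y)) = if i.1 = sg c.b y then 1 else 0
    rw [co_e]
    by_cases h1 : i.1 = sg c.b y
    · have h2 : ip y y = 2 := by rw [← c.ip_sg h h, ← h1, i.2]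
      simp [h1, sg_sg, h2]
    · have h2 : sg c.b i.1 ≠ y := fun h' => h1 (by rw [← h', sg_sg])
      simp [h1, h2]

theorem st_fst (v : L K) (i : Fin 8) : (c.st v).1 i = c.τ (v.1 (pm c.b i)) := rfl

theorem ad_mem {α : Lat} (h : c.R α) {v : L K} (hv' : v ∈ c.V) : ad α v ∈ c.V := by
  refine V_ind (P := fun v => ad α v ∈ c.V) (fun v w _ _ h1 h2 => ?_) (fun r v _ h1 => ?_)
    (fun i _ => ?_) (fun β hβ => ?_) hv'
  · rw [map_add]; exact add_mem h1 h2
  · rw [map_smul]; exact c.V.smul_mem _ h1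
  · rw [ad_hv]; exact c.V.smul_mem _ (e_mem h.2)
  · rw [ad_e hβ.1]
    refine sub_mem (c.V.smul_mem _ (e_mem (h.2.add hβ.2))) ?_
    split_ifs
    · exact hv_mem h.2
    · exact zero_mem _

theorem X_mem {α : Lat} (h : c.R α) (t : K) {v : L K} (hv' : v ∈ c.V) : X α t v ∈ c.V := by
  rw [X_apply h.1]
  exact add_mem (add_mem hv' (c.V.smul_mem _ (ad_mem h hv'))) (c.V.smul_mem _ (e_mem h.2))

theorem st_mem {v : L K} (hv' : v ∈ c.V) : c.st v ∈ c.V := by
  refine V_ind (P := fun v => c.st v ∈ c.V) (fun v w _ _ h1 h2 => ?_) (fun r v _ h1 => ?_)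
    (fun i hi => ?_) (fun β hβ => ?_) hv'
  · rw [map_add]; exact add_mem h1 h2
  · rw [map_smulₛₗ]; exact c.V.smul_mem _ h1
  · rw [st_hv]; exact hv_mem (c.Sp_sg (Sp_a hi))
  · rw [st_e hβ.2]; exact e_mem hβ.sg.2

theorem st_st {v : L K} (hv' : v ∈ c.V) : c.st (c.st v) = v := by
  refine V_ind (P := fun v => c.st (c.st v) = v) (fun v w _ _ h1 h2 => ?_) (fun r v _ h1 => ?_)
    (fun i hi => ?_) (fun β hβ => ?_) hv'
  · simp only [map_add, h1, h2]
  · simp only [map_smulₛₗ, h1, c.ττ]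
  · rw [st_hv, st_hv, sg_sg]
  · rw [st_e hβ.2, st_e hβ.sg.2, sg_sg]

theorem co_st {α : Lat} (h : c.R α) (v : L K) : co (sg c.b α) (c.st v) = c.τ (co α v) := by
  rw [co_of_root h.sg.1]
  change c.τ (co (sg c.b (sg c.b α)) v) = _
  rw [sg_sg]

theorem st_ad {α : Lat} (h : c.R α) {v : L K} (hv' : v ∈ c.V) :
    c.st (ad α v) = ad (sg c.b α) (c.st v) := by
  refine V_ind (P := fun v => c.st (ad α v) = ad (sg c.b α) (c.st v)) (fun v w _ _ h1 h2 => ?_)
    (fun r v _ h1 => ?_) (fun i hi => ?_) (fun β hβ => ?_) hv'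
  · simp only [map_add, h1, h2]
  · simp only [map_smulₛₗ, h1, RingHom.id_apply]
  · rw [st_hv, ad_hv, ad_hv, map_smulₛₗ, st_e h.2, c.ip_sg (Sp_a hi) h.2]; simp
  · rw [st_e hβ.2, ad_e hβ.1, ad_e hβ.sg.1, map_sub, map_smulₛₗ, st_e (h.2.add hβ.2),
      c.eps_sg h.2 hβ.2, ← sg_add]
    have : sg c.b (α + β) = 0 ↔ α + β = 0 := by rw [← sg_zero c.b, sg_inj, sg_zero]
    by_cases h1 : α + β = 0
    · simp [h1, sg_zero, st_hv]
    · simp [h1, this]

theorem st_X {α : Lat} (h : c.R α) (t : K) {v : L K} (hv' : v ∈ c.V) :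
    c.st (X α t v) = X (sg c.b α) (c.τ t) (c.st v) := by
  rw [X_apply h.1, X_apply h.sg.1, map_add, map_add, map_smulₛₗ, map_smulₛₗ, st_ad h hv',
    st_e h.2, ← sg_neg, co_st h.neg]
  simp

theorem G_V {g : Aut K} (hg : g ∈ c.G) :
    ∀ v ∈ c.V, g v ∈ c.V ∧ c.st (g v) = g (c.st v) := by
  refine G_induction (p := fun g => ∀ v ∈ c.V, g v ∈ c.V ∧ c.st (g v) = g (c.st v))
    (fun v hv => ⟨hv, rfl⟩) (fun α t g h ht hp v hv => ?_) hg
  obtain ⟨h1, h2⟩ := hp v hv
  simp only [LinearEquiv.mul_apply, ← h2]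
  by_cases h' : sg c.b α = α
  · rw [Y_fix h']
    exact ⟨X_mem h t h1, by rw [st_X h t h1, h', ht h']⟩
  · rw [Y_mov h']
    refine ⟨X_mem h t (X_mem h.sg _ h1), ?_⟩
    rw [LinearEquiv.mul_apply, st_X h t (X_mem h.sg _ h1), st_X h.sg _ h1, sg_sg, c.ττ,
      X_comm h.1 h.sg.1 (h.orth h').ge]
    rfl

theorem G_mem {g : Aut K} (hg : g ∈ c.G) {v : L K} (hv : v ∈ c.V) : g v ∈ c.V := (G_V hg v hv).1

theorem G_st {g : Aut K} (hg : g ∈ c.G) {v : L K} (hv : v ∈ c.V) : c.st (g v) = g (c.st v) :=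
  (G_V hg v hv).2

theorem gf_st {v w : L K} (hv' : v ∈ c.V) (hw : w ∈ c.V) :
    gf (c.st v) (c.st w) = c.τ (gf v w) := by
  refine V_ind (P := fun v => gf (c.st v) (c.st w) = c.τ (gf v w)) (fun v w _ _ h1 h2 => ?_)
    (fun r v _ h1 => ?_) (fun i hi => ?_) (fun β hβ => ?_) hv'
  · simp only [map_add, LinearMap.add_apply, h1, h2]
  · simp only [map_smulₛₗ, LinearMap.smul_apply, h1, RingHom.id_apply, smul_eq_mul, map_mul]
  · refine V_ind (P := fun w => gf (c.st (hv (a i))) (c.st w) = c.τ (gf (hv (a i)) w))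
      (fun v w _ _ h1 h2 => ?_) (fun r v _ h1 => ?_) (fun j hj => ?_) (fun β hβ => ?_) hw
    · simp only [map_add, h1, h2]
    · simp only [map_smulₛₗ, h1, RingHom.id_apply, smul_eq_mul, map_mul]
    · rw [st_hv, st_hv, gf_hv_hv, gf_hv_hv, c.ip_sg (Sp_a hi) (Sp_a hj)]; simp
    · rw [st_hv, st_e hβ.2, gf_hv_e, gf_hv_e, map_zero]
  · rw [st_e hβ.2, gf_e hβ.1, gf_e hβ.sg.1, ← sg_neg, co_st hβ.neg]

end Cfg

end Pool.Agent.MP_db74b1_al.Exc

end
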