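import Pool.Agent.Mg.Fdb74b1.G2350ca
import Pool.Agent.Mg.Fdb74b1.G2d4280
import Pool.Agent.Mg.Fdb74b1.Gde7978
import Pool.Agent.Mg.Fdb74b1.G953703
import Pool.Agent.MP_db74b1_al.LtClDefs

section

/-! Orthogonal groups in characteristic two. -/

set_option autoImplicit false
set_option linter.unusedSectionVars false
set_option linter.unusedSimpArgs false

namespace Pool.Agent.MP_db74b1_al
open Module Submodule

variable {F V : Type} [Field F] [AddCommGroup V] [Module F V] [Finite F] [FiniteDimensional F V]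

lemma sc_inv {a : (End F V)ˣ} {l : F} (hl : a.val + (1 : F) • a⁻¹.val = l • 1) (x : V) :
    a⁻¹.val x = l • x - a.val x := by
  have := LinearMap.congr_fun hl x
  simp only [one_smul, LinearMap.add_apply, LinearMap.smul_apply, End.one_apply] at this
  rw [← this]; abel

namespace OD
variable {Q : QuadraticForm F V} {B : V →ₗ[F] V →ₗ[F] F} {G : Subgroup (End F V)ˣ} (D : OD Q B G)
  {Z : Set F} {a b : (End F V)ˣ} {e : End F V} (h : Bad G Z a b e) (h2 : (2 : F) = 0)
include D h h2

lemma AA0 (hZ : ∀ z ∈ Z, z = 1) (ha : a ∈ G) (hb : b ∈ G) (hA : Alt Q B a.val)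
    (hB : Alt Q B b.val) {l μ : F} (hl : a.val + (1 : F) • a⁻¹.val = l • 1)
    (hμ : b.val + (1 : F) • b⁻¹.val = μ • 1) {u v : V} (hu : Q u = 0) (hv : Q v = 0)
    (huv : B u v = 0) :
    c2 (a.val * b.val) + pp (a.val * b.val) ((op B u (a⁻¹.val v) - op B (a⁻¹.val v) u +
      op B v (a.val u) - op B (a.val u) v) * b.val) +
      (B (b.val u) (a⁻¹.val v) + B (b.val v) (a.val u) + μ * B (a.val u) v +
        B (a.val u) v * B (b.val u) v) ^ 2 = c2 e := by
  obtain ⟨y, hy⟩ : ∃ y, y = a.val u := ⟨_, rfl⟩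
  obtain ⟨w, hw⟩ : ∃ w, w = a⁻¹.val v := ⟨_, rfl⟩
  obtain ⟨ξ, hξ⟩ : ∃ ξ, ξ = B y v := ⟨_, rfl⟩
  rw [← hy, ← hw, ← hξ]
  have ia := sc_inv hl
  have ib := sc_inv hμ
  have hav : a.val v = l • v - w := by rw [hw, ia]; abel
  have hau : a⁻¹.val u = l • u - y := by rw [ia, hy]
  have t2 : B v u = 0 := D.flip0 huv
  have t3 : B v v = 0 := D.self0 hv
  have t4 : B y u = 0 := by rw [hy]; exact hA u hu
  have t5 : B w u = ξ := by rw [hw, D.symm, ← D.adj ha, ← hy, hξ]
  have t6 : B w v = 0 := by rw [hw, D.symm, ← D.adj ha]; exact hA v hv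
  have t8 : ∀ x z, B (b.val z) x = μ * B x z - B (b.val x) z := fun x z => by
    rw [D.adj hb, ib, map_sub, map_smul, smul_eq_mul, D.symm x z, D.symm (b.val x) z]
  have t9 : ∀ x, B (a.val x) u = l * B x u - B x y := fun x => by rw [D.adj ha, hau]; simp
  have t10 : ∀ x, B (a.val x) v = B x w := fun x => by rw [D.adj ha, hw]
  have t11 : B y w = l * ξ := by
    rw [← t10, hy, D.adj ha, D.adj ha, ← hw, ia, map_sub, map_smul, hw, app_inv, huv, ← D.adj ha,
      ← hy, ← hξ, smul_eq_mul, sub_zero]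
  have s1 : B (b.val u) u = 0 := hB u hu
  have s2 : B (b.val v) v = 0 := hB v hv
  have s3 : B (b.val y) y = 0 := hB y (by rw [hy, D.isoQ ha, hu])
  have s4 : B (b.val w) w = 0 := hB w (by rw [hw, D.isoQ (G.inv_mem ha), hv])
  have r1 : B (b.val w) u = μ * ξ - B (b.val u) w := by rw [t8, D.symm w u, t5]
  have r2 : B (b.val y) v = μ * ξ - B (b.val v) y := by rw [t8, D.symm y v, ← hξ]
  have r3 : B (b.val y) u = - B (b.val u) y := by rw [t8, D.symm y u, t4]; ring
  have r4 : B (b.val w) v = - B (b.val v) w := by rw [t8, D.symm w v, t6]; ring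
  have r5 : B (b.val v) u = - B (b.val u) v := by rw [t8, huv]; ring
  have r6 : B (b.val w) y = μ * (l * ξ) - B (b.val y) w := by rw [t8, t11]
  obtain ⟨Y, hY⟩ : ∃ Y : End F V, Y = op B u w - op B w u + op B v y - op B y v := ⟨_, rfl⟩
  obtain ⟨N, hN⟩ : ∃ N : End F V, N = op B u v - op B v u := ⟨_, rfl⟩
  rw [← hY]
  have key : c2 (a.val * b.val + Y * b.val + (-ξ) • (N * b.val)) = c2 e := by
    obtain ⟨z, hz, -, k⟩ := (h.conjL (D.N_mem hu hv huv)).tr
    rw [hZ z hz, one_pow, one_mul] at k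
    rw [← k]
    congr 1
    rw [← smul_mul_assoc, ← add_mul, ← add_mul]
    congr 1
    ext x
    simp [hY, hN, ← hy, hav, t2, t3, t4, t5, t6, t9, t10, huv, ← hξ]
    module
  have p1 : c2 (Y * b.val) = B (b.val u) w ^ 2 + B (b.val v) y ^ 2 + μ * ξ * B (b.val u) w +
      μ * ξ * B (b.val v) y + μ ^ 2 * ξ ^ 2 + μ * l * ξ * B (b.val u) v := by
    simp only [hY, op, sub_mul, add_mul, rk_mul, c2_add, c2_sub, c2_rk, pp, tr_rk, mul_rk, rk_apply,
      map_add, map_sub, map_smul, LinearMap.comp_apply, LinearMap.flip_apply, smul_eq_mul,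
      s1, s2, s3, s4, r1, r2, r3, r4, r5, r6]
    linear_combination (-2 * B (b.val u) w * μ * ξ + 2 * B (b.val u) w * B (b.val v) y -
      2 * μ * ξ * B (b.val v) y - μ * ξ * B (b.val u) v * l - B (b.val v) w * B (b.val u) y +
      B (b.val u) v * B (b.val y) w) * h2
  have p2 : c2 (N * b.val) = B (b.val u) v ^ 2 := by
    simp only [hN, op, sub_mul, rk_mul, c2_sub, c2_rk, pp, tr_rk, mul_rk, rk_apply,
      map_smul, LinearMap.comp_apply, LinearMap.flip_apply, smul_eq_mul, s1, s2, r5]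
    ring
  have p3 : pp (Y * b.val) (N * b.val) = 0 := by
    simp only [hY, hN, op, sub_mul, add_mul, mul_sub, rk_mul, pp, tr_rk, mul_rk, rk_apply,
      map_add, map_sub, map_smul, LinearMap.comp_apply, LinearMap.flip_apply, smul_eq_mul,
      s1, s2, s3, s4, r1, r2, r3, r4, r5, r6]
    linear_combination (B (b.val u) v * (B (b.val u) w - μ * ξ + B (b.val v) y)) * h2
  have p4 : pp (a.val * b.val) (N * b.val) =
      μ * (B (b.val u) w + B (b.val v) y + l * B (b.val u) v) := by
    have e1 : B (b.val (a.val (b.val u))) v = μ * B (b.val u) w - B (a.val (b.val u)) (b.val v) := by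
      rw [D.adj hb, ib, map_sub, map_smul, t10, smul_eq_mul]
    have e2 : B (b.val (a.val (b.val v))) u = - μ * (l * B (b.val u) v + B (b.val v) y) +
        B (a.val (b.val u)) (b.val v) := by
      rw [D.adj hb, ib, map_sub, map_smul, t9, smul_eq_mul, r5, D.adj ha, ia, map_sub, map_smul,
        D.iso hb, t2, D.symm (a.val (b.val u))]
      simp only [smul_eq_mul]
      ring
    simp only [hN, op, sub_mul, mul_sub, rk_mul, pp, tr_rk, mul_rk, End.mul_apply,
      map_sub, map_smul, LinearMap.comp_apply, LinearMap.flip_apply, smul_eq_mul, e1, e2, r5]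
    linear_combination (tr (a.val * b.val) * B (b.val u) v + B (a.val (b.val u)) (b.val v) -
      μ * (B (b.val u) w + B (b.val v) y + l * B (b.val u) v)) * h2
  rw [← key, c2_add, c2_add, c2_smul, p1, p2]
  simp only [pp, add_mul, mul_smul_comm, smul_mul_assoc, map_add, map_smul, smul_eq_mul] at p3 p4 ⊢
  linear_combination ξ * p3 + ξ * p4 + (B (b.val u) w * B (b.val v) y +
    (B (b.val u) w + B (b.val v) y) * (μ * ξ + ξ * B (b.val u) v) + μ * ξ ^ 2 * B (b.val u) v) * h2

lemma altalt (h8 : 8 ≤ finrank F V) (hZ : ∀ z ∈ Z, z = 1) (ha : a ∈ G) (hb : b ∈ G)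
    (na : NS a.val) (nb : NS b.val) (hA : Alt Q B a.val) (hB : Alt Q B b.val) : False := by
  have fr : ∀ c : End F V, Alt Q B c → NS c →
      ∃ u v w, Fr3 Q B u v w ∧ B (c u) v ≠ 0 ∧ B (c u) w = 0 := by
    intro c hc nc
    obtain ⟨u, v, f, hne⟩ := D.alt_frame hc nc
    obtain ⟨w, f3⟩ := D.ext3 f
    refine ⟨u, v, (-(B (c u) w / B (c u) v)) • v + w, ?_, hne, by simp [hne]⟩
    simpa using D.fr3_tr f3 (s := 1) (a1 := 0) (a2 := 1) (a3 := 0) (b1 := 0)
      (b2 := -(B (c u) w / B (c u) v)) (b3 := 1) one_ne_zero (by simp)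
  obtain ⟨u, v, w, f, k1, k2⟩ := fr _ hA na
  obtain ⟨u', v', w', f', j1, j2⟩ := fr _ hB nb
  have f'' : Fr3 Q B u' w' v' := by
    simpa using D.fr3_tr f' (s := 1) (a1 := 0) (a2 := 0) (a3 := 1) (b1 := 0)
      (b2 := 1) (b3 := 0) one_ne_zero (by simp)
  obtain ⟨g, hg, e1, e2, e3⟩ := D.T3 h8 f f''
  rw [D.conjB hg, e1, e3] at j1
  rw [D.conjB hg, e1, e2] at j2
  have hb' : g * b * g⁻¹ ∈ G := G.mul_mem (G.mul_mem hg hb) (G.inv_mem hg)
  have hB' : Alt Q B (g * b * g⁻¹).val := by
    intro x hx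
    rw [← app_inv g x, ← D.conjB hg]
    exact hB _ (by rw [D.isoQ (G.inv_mem hg), hx])
  have h' := h.conjR hg
  generalize g * b * g⁻¹ = b' at j1 j2 hb' hB' h'
  obtain ⟨l, hl⟩ := D.alt_sc ha hA
  obtain ⟨μ, hμ⟩ := D.alt_sc hb' hB'
  have s0 := D.AA0 h' h2 hZ ha hb' hA hB' hl hμ f.f2.qu (v := 0) (by simp) (by simp)
  have s1 := D.AA0 h' h2 hZ ha hb' hA hB' hl hμ f.f2.qu f.f2.qv f.f2.uv
  have s2 := D.AA0 h' h2 hZ ha hb' hA hB' hl hμ f.f2.qu f.qw f.uw
  have s3 := D.AA0 h' h2 hZ ha hb' hA hB' hl hμ f.f2.qu (v := v + w)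
    (by simp [D.pol, f.f2.qv, f.qw, f.vw]) (by simp [f.f2.uv, f.uw])
  simp only [op, sub_mul, add_mul, mul_sub, mul_add, rk_mul, pp, tr_rk, mul_rk, End.mul_apply,
    map_add, map_sub, map_zero, LinearMap.comp_apply, LinearMap.flip_apply, LinearMap.add_apply,
    LinearMap.zero_apply, k2, j2] at s0 s1 s2 s3
  apply pow_ne_zero 2 (mul_ne_zero k1 j1)
  generalize B (b'.val u) (a⁻¹.val v) = x1 at *
  generalize B (b'.val u) (a⁻¹.val w) = x2 at *
  generalize B (b'.val v) (a.val u) = x3 at *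
  generalize B (b'.val w) (a.val u) = x4 at *
  generalize B (a.val u) v = x5 at *
  generalize B (b'.val u) w = x6 at *
  linear_combination s3 - s1 - s2 + s0 - ((x1 + x3 + μ * x5) * (x2 + x4) +
    (x1 + x3 + μ * x5 + x2 + x4) * (x5 * x6)) * h2

theorem main2 (h8 : 8 ≤ finrank F V) (hZ : ∀ z ∈ Z, z = 1) (ha : a ∈ G) (hb : b ∈ G)
    (na : NS a.val) (nb : NS b.val) (hA : Alt Q B a.val) (hS : Sym Q B b.val) : False := by
  by_cases hB : Alt Q B b.val
  · exact D.altalt h h2 h8 hZ ha hb na nb hA hB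
  have two : ∀ x : V, x + x = 0 := fun x => by rw [← two_smul F, h2, zero_smul]
  have m1' : (-1 : F) = 1 := by linear_combination -h2
  obtain ⟨κ, hκ⟩ := D.sym_sc hb hS
  rw [m1'] at hκ
  have ib := sc_inv hκ
  have hκ0 : κ = 0 := by
    simp only [Alt, not_forall] at hB
    obtain ⟨v, hv, hB⟩ := hB
    have e1 := D.isoQ (G.inv_mem hb) v
    rw [ib, D.Qsub, Qsmul, D.isoQ hb, hv, map_smul, LinearMap.smul_apply, D.symm] at e1
    apply mul_right_cancel₀ hB
    rw [smul_eq_mul] at e1
    linear_combination -e1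
  have hbb : ∀ x, b.val (b.val x) = x := by
    intro x
    have := ib (b.val x)
    rw [inv_app, hκ0, zero_smul] at this
    linear_combination (norm := module) this - two x
  have hbs : ∀ x y, B (b.val x) y = B x (b.val y) := fun x y => by rw [← D.iso hb, hbb]
  choose φ0 hφ0 using fun x => exists_sqrt_two h2 (B (b.val x) x)
  let φ : V →ₗ[F] F :=
    { toFun := φ0
      map_add' := fun x y => sq_inj_two h2 (by
        rw [hφ0, add_sq, hφ0, hφ0]
        simp only [map_add, LinearMap.add_apply, hbs y x, D.symm (b.val x) y]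
        linear_combination (B (b.val x) y - φ0 x * φ0 y) * h2)
      map_smul' := fun c x => sq_inj_two h2 (by
        rw [hφ0, RingHom.id_apply, smul_eq_mul, mul_pow, hφ0]
        simp only [map_smul, LinearMap.smul_apply, smul_eq_mul]
        ring) }
  obtain ⟨y, hy⟩ := rep B D.nd φ
  have hy2 : ∀ x, B (b.val x) x = B x y ^ 2 := fun x => by rw [← hy, ← hφ0]; rfl
  obtain ⟨M, hM⟩ : ∃ M : End F V, M = b.val - 1 - op B y y := ⟨_, rfl⟩
  have Ms : ∀ x z, B (M x) z = B x (M z) := by
    intro x z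
    simp [hM, hbs, D.symm y z]
    ring
  have K : ∀ u, u ≠ 0 → Q u = 0 → b.val u = u → ∀ x, B u x = 0 → M x ∈ span F {u} := by
    intro u hu0 hu hbu x hx
    apply D.SC1
    intro v huv hv
    refine D.SPAN u (B.flip v ∘ₗ M) (fun z huz hz => ?_) x hx
    have := D.GO h (fun z hz => by rw [hZ z hz, one_pow]) ha na hA hb hbb (ε := 1) (by ring)
      (by simpa using hbu) hu0 hu hz huz hv huv
    rw [hy2, hy2, ← mul_pow] at this
    have := sq_inj_two h2 this
    simp [hM, D.symm v y]
    linear_combination this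
  have h6 : (b.val - 1) * (b.val - 1) = 0 := by
    ext x
    simp only [End.mul_apply, LinearMap.sub_apply, End.one_apply, map_sub, hbb,
      LinearMap.zero_apply]
    linear_combination (norm := module) h2 • (x - b.val x)
  have := fker_mul h6
  obtain ⟨u1, k1, k2, k3⟩ := D.SING (W := LinearMap.ker (b.val - 1)) (R := ⊥) (by simp; omega)
  have k1 : b.val u1 = u1 := by simpa [sub_eq_zero] using k1
  have k2 : u1 ≠ 0 := by simpa using k2
  obtain ⟨e1, he1, -⟩ := sep B D.nd (nmem0.mpr k2)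
  have im1 : ∀ x, M x ∈ span F {u1, M e1} := by
    intro x
    have := K u1 k2 k3 k1 (x - B u1 x • e1) (by simp [he1])
    have e2 : M x = M (x - B u1 x • e1) + B u1 x • M e1 := by simp
    rw [e2]
    exact add_mem (span_mono (by simp) this) (smul_mem _ _ (m22 _ _))
  have := fs2 (F := F) u1 (M e1)
  have := fs3 (F := F) u1 (M e1) y
  have := fperp B (span F {u1, M e1, y})
  obtain ⟨u2, j1, j2, j3⟩ := D.SING (W := LinearMap.BilinForm.orthogonal B (span F {u1, M e1, y}))
    (R := span F {u1, M e1}) (by omega)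
  have j4 : b.val u2 = u2 := by
    rw [← sub_eq_zero]
    apply D.nd
    intro z
    have e2 : B (M z) u2 = 0 := j1 _ (span_mono (by intro t; simp; tauto) (im1 z))
    have e3 : B u2 y = 0 := D.flip0 (j1 y (m33 _ _ _))
    rw [Ms] at e2
    simpa [hM, e3] using e2
  have hsp : ∀ x, M x ∈ span F {u2} → M x = 0 := by
    intro x hx
    obtain ⟨c, hc⟩ := mem_span_singleton.mp hx
    by_cases hc0 : c = 0
    · rw [← hc, hc0, zero_smul]
    · exact absurd ((smul_mem_iff _ hc0).mp (hc ▸ im1 x)) j2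
  have M0 : ∀ x, M x = 0 := by
    intro x
    apply hsp
    apply D.SC1
    intro v hv _
    rw [Ms, hsp v (K u2 (ne_zero_of_nmem j2) j3 j4 v hv), map_zero]
  have hb1 : ∀ x, b.val x = x + B x y • y := by
    intro x
    have := M0 x
    simp only [hM, LinearMap.sub_apply, End.one_apply, op_apply] at this
    linear_combination (norm := module) this
  have hy0 : y ≠ 0 := by
    rintro rfl
    apply nb 1
    ext x; simp [hb1]
  have hQy : Q y = 1 := by
    obtain ⟨z, hz, -⟩ := sep B D.nd (nmem0.mpr hy0)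
    have := D.isoQ hb z
    rw [hb1, D.pol, Qsmul, map_smul, D.symm, hz] at this
    simp only [smul_eq_mul] at this
    linear_combination this - h2
  apply D.dickson h2 (n := y) (by simp [hQy])
  have : D.refl (n := y) (by simp [hQy]) = b := by
    apply Units.ext
    ext x
    rw [D.refl_app, hb1, hQy]
    linear_combination (norm := module) -two (B x y • y)
  rw [this]
  exact hb

end OD

end Pool.Agent.MP_db74b1_al

end

section

/-! The spinor norm, through the Clifford algebra. -/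

set_option autoImplicit false
set_option linter.unusedSectionVars false

namespace Pool.Agent.MP_db74b1_al
open Module Submodule CliffordAlgebra
open scoped commutatorElement

variable {F V : Type} [Field F] [AddCommGroup V] [Module F V] [Finite F] [FiniteDimensional F V]

/-- `t` in the Clifford algebra induces `g` and has norm `d` -/
def Spn (Q : QuadraticForm F V) (g : (End F V)ˣ) (d : F) : Prop :=
  d ≠ 0 ∧ ∃ t : CliffordAlgebra Q, (∀ x, ι Q (g.val x) * t = involute t * ι Q x) ∧
    t * reverse t = algebraMap F _ d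

lemma Spn.mul {Q : QuadraticForm F V} {g h : (End F V)ˣ} {d d' : F} (hg : Spn Q g d)
    (hh : Spn Q h d') : Spn Q (g * h) (d * d') := by
  obtain ⟨h0, t, h1, h2⟩ := hg
  obtain ⟨k0, s, k1, k2⟩ := hh
  refine ⟨mul_ne_zero h0 k0, t * s, fun x => ?_, ?_⟩
  · rw [Units.val_mul, End.mul_apply, ← mul_assoc, h1, mul_assoc, k1, map_mul, mul_assoc]
  · rw [reverse.map_mul, mul_assoc, ← mul_assoc s, k2, ← mul_assoc, ← Algebra.commutes, mul_assoc,
      h2, ← map_mul, mul_comm]

lemma Spn.one (Q : QuadraticForm F V) : Spn Q 1 1 :=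
  ⟨one_ne_zero, 1, fun x => by simp, by simp⟩

lemma cl_twist {Q : QuadraticForm F V} (x : V) (S : Set V) (h : ∀ y ∈ S, Q.IsOrtho x y)
    {c : CliffordAlgebra Q} (hc : c ∈ Algebra.adjoin F (ι Q '' S)) :
    ι Q x * c = involute c * ι Q x ∧ involute c ∈ Algebra.adjoin F (ι Q '' S) := by
  induction hc using Algebra.adjoin_induction with
  | mem y hy =>
    obtain ⟨y, hy', rfl⟩ := hy
    refine ⟨by rw [involute_ι, ι_mul_ι_comm_of_isOrtho (h y hy'), neg_mul], ?_⟩
    rw [involute_ι]
    exact neg_mem (Algebra.subset_adjoin ⟨y, hy', rfl⟩)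
  | algebraMap r =>
    rw [AlgHom.commutes]
    exact ⟨(Algebra.commutes _ _).symm, Subalgebra.algebraMap_mem _ _⟩
  | add y z _ _ hy hz =>
    rw [map_add, mul_add, add_mul, hy.1, hz.1]
    exact ⟨rfl, add_mem hy.2 hz.2⟩
  | mul y z _ _ hy hz =>
    rw [map_mul, ← mul_assoc, hy.1, mul_assoc, hz.1, mul_assoc]
    exact ⟨rfl, mul_mem hy.2 hz.2⟩

lemma cl_split {Q : QuadraticForm F V} (x : V) (S : Set V) (h : ∀ y ∈ S, Q.IsOrtho x y)
    {c : CliffordAlgebra Q} (hc : c ∈ Algebra.adjoin F (ι Q '' insert x S)) :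
    ∃ c0 ∈ Algebra.adjoin F (ι Q '' S), ∃ c1 ∈ Algebra.adjoin F (ι Q '' S), c = c0 + c1 * ι Q x := by
  induction hc using Algebra.adjoin_induction with
  | mem y hy =>
    obtain ⟨y, hy', rfl⟩ := hy
    rcases hy' with rfl | hy'
    · exact ⟨0, zero_mem _, 1, one_mem _, by simp⟩
    · exact ⟨ι Q y, Algebra.subset_adjoin ⟨y, hy', rfl⟩, 0, zero_mem _, by simp⟩
  | algebraMap r => exact ⟨_, Subalgebra.algebraMap_mem _ r, 0, zero_mem _, by simp⟩
  | add y z _ _ hy hz =>
    obtain ⟨c0, h0, c1, h1, rfl⟩ := hy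
    obtain ⟨d0, k0, d1, k1, rfl⟩ := hz
    exact ⟨c0 + d0, add_mem h0 k0, c1 + d1, add_mem h1 k1, by rw [add_mul]; abel⟩
  | mul y z _ _ hy hz =>
    obtain ⟨c0, h0, c1, h1, rfl⟩ := hy
    obtain ⟨d0, k0, d1, k1, rfl⟩ := hz
    obtain ⟨e0, f0⟩ := cl_twist x S h k0
    obtain ⟨e1, f1⟩ := cl_twist x S h k1
    refine ⟨c0 * d0 + c1 * involute d1 * algebraMap F _ (Q x),
      add_mem (mul_mem h0 k0) (mul_mem (mul_mem h1 f1) (Subalgebra.algebraMap_mem _ _)),
      c0 * d1 + c1 * involute d0, add_mem (mul_mem h0 k1) (mul_mem h1 f0), ?_⟩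
    have e2 : ι Q x * (d1 * ι Q x) = involute d1 * algebraMap F _ (Q x) := by
      rw [← mul_assoc, e1, mul_assoc, ι_sq_scalar]
    simp only [mul_add, add_mul, mul_assoc, e0, e2]
    abel

namespace OD
variable {Q : QuadraticForm F V} {B : V →ₗ[F] V →ₗ[F] F} {G : Subgroup (End F V)ˣ} (D : OD Q B G)
include D

lemma polar_eq (x y : V) : QuadraticMap.polar Q x y = B x y := by
  rw [QuadraticMap.polar, D.pol]; ring

lemma spn_refl {n : V} (hn : Q n ≠ 0) : Spn Q (D.refl hn) (Q n) := by
  refine ⟨hn, ι Q n, fun x => ?_, by simp⟩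
  rw [D.refl_app, map_sub, map_smul, sub_mul, smul_mul_assoc, ι_sq_scalar, involute_ι,
    ι_mul_ι_comm x n, D.polar_eq, Algebra.smul_def, ← map_mul (algebraMap F (CliffordAlgebra Q))]
  have : (Q n)⁻¹ * B x n * Q n = B x n := by field_simp
  rw [this, neg_mul]
  abel

variable (h2 : (2 : F) ≠ 0)
include h2

lemma orth_basis : ∃ e : Basis (Fin (finrank F V)) F V,
    (∀ i j, i ≠ j → B (e i) (e j) = 0) ∧ ∀ i, Q (e i) ≠ 0 := by
  let _ : Invertible (2 : F) := invertibleOfNonzero h2
  obtain ⟨e, he⟩ := LinearMap.BilinForm.exists_orthogonal_basis (B := B) ⟨fun x y => D.symm y x⟩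
  refine ⟨e, fun i j hij => he hij, fun i hi => ?_⟩
  exact he.not_isOrtho_basis_self_of_separatingLeft D.nd' i (D.self0 hi)

lemma spn_one {d : F} (h : Spn Q 1 d) : ∃ s : F, d = s ^ 2 := by
  let _ : Invertible (2 : F) := invertibleOfNonzero h2
  obtain ⟨e, he1, he2⟩ := D.orth_basis h2
  obtain ⟨-, t, h1, h3⟩ := h
  simp only [Units.val_one, End.one_apply] at h1
  have key : ∀ s : Finset (Fin (finrank F V)), t ∈ Algebra.adjoin F (ι Q '' (e '' s)) →
      ∃ r : F, t = algebraMap F _ r := by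
    intro s
    induction s using Finset.induction_on with
    | empty =>
      intro ht
      simp only [Finset.coe_empty, Set.image_empty, Algebra.adjoin_empty] at ht
      obtain ⟨r, hr⟩ := Algebra.mem_bot.mp ht
      exact ⟨r, hr.symm⟩
    | insert i s hi ih =>
      intro ht
      rw [Finset.coe_insert, Set.image_insert_eq] at ht
      have ho : ∀ y ∈ e '' s, Q.IsOrtho (e i) y := by
        rintro _ ⟨j, hj, rfl⟩
        rw [QuadraticMap.isOrtho_def, D.pol, he1 i j (by rintro rfl; exact hi hj), add_zero]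
      obtain ⟨c0, k0, c1, k1, e1⟩ := cl_split _ _ ho ht
      have e2 := h1 (e i)
      rw [e1, mul_add, (cl_twist _ _ ho k0).1, ← mul_assoc, (cl_twist _ _ ho k1).1, map_add, map_mul,
        involute_ι, add_mul, mul_neg, neg_mul, mul_assoc, ι_sq_scalar, add_right_inj,
        ← Algebra.commutes, ← Algebra.smul_def] at e2
      have e3 : (2 * Q (e i)) • involute c1 = 0 := by
        rw [mul_smul, two_smul]
        nth_rewrite 1 [e2]
        exact neg_add_cancel _
      have e4 : c1 = 0 := by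
        have := (smul_eq_zero.mp e3).resolve_left (mul_ne_zero h2 (he2 i))
        rw [← involute_involute c1, this, map_zero]
      apply ih
      rw [e1, e4, zero_mul, add_zero]
      exact k0
  obtain ⟨r, hr⟩ := key Finset.univ (by
    have : Algebra.adjoin F (ι Q '' (e '' (Finset.univ : Finset (Fin (finrank F V))))) = ⊤ := by
      rw [eq_top_iff, ← adjoin_range_ι, Algebra.adjoin_le_iff]
      rintro _ ⟨x, rfl⟩
      rw [← e.sum_repr x, map_sum]
      refine sum_mem fun i _ => ?_
      rw [map_smul]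
      exact Subalgebra.smul_mem _ (Algebra.subset_adjoin (Set.mem_image_of_mem _
        (Set.mem_image_of_mem _ (by simp)))) _
    rw [this]; trivial)
  rw [hr, reverse.commutes, ← map_mul] at h3
  exact ⟨r, by rw [← (algebraMap F (CliffordAlgebra Q)).injective h3, pow_two]⟩

lemma spn_ex {g : (End F V)ˣ} (hg : g ∈ orthGroup Q) : ∃ d, Spn Q g d := by
  obtain ⟨e, he1, he2⟩ := D.orth_basis h2
  have key : ∀ s : Finset (Fin (finrank F V)), ∀ g ∈ orthGroup Q, (∀ i, i ∉ s → g.val (e i) = e i) →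
      ∃ d, Spn Q g d := by
    intro s
    induction s using Finset.induction_on with
    | empty =>
      intro g _ h
      have : g = 1 := Units.ext (e.ext fun i => h i (by simp))
      exact ⟨1, this ▸ Spn.one Q⟩
    | insert i s hi ih =>
      intro g hg h
      have hq : Q (g.val (e i)) = Q (e i) := hg _
      have ho : ∀ j, j ∉ s → j ≠ i → B (e j) (g.val (e i)) = 0 ∧ g.val (e j) = e j := by
        intro j hj hji
        have := h j (by simp [hj, hji])
        exact ⟨by rw [← this, D.isoO hg, he1 j i hji], this⟩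
      by_cases h1 : Q (g.val (e i) - e i) = 0
      · have h3 : Q (g.val (e i) + e i) ≠ 0 := by
          intro hh
          rw [D.Qsub] at h1
          rw [D.pol] at hh
          apply mul_ne_zero (mul_ne_zero h2 h2) (he2 i)
          linear_combination h1 + hh - 2 * hq
        obtain ⟨d, hd⟩ := ih (D.refl (he2 i) * (D.refl h3 * g))
          ((orthGroup Q).mul_mem (D.refl_mem _) ((orthGroup Q).mul_mem (D.refl_mem _) hg)) (by
            intro j hj
            simp only [Units.val_mul, End.mul_apply]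
            by_cases hji : j = i
            · subst hji
              have e1 : (Q (g.val (e j) + e j))⁻¹ * B (g.val (e j)) (g.val (e j) + e j) = 1 := by
                rw [inv_mul_eq_one₀ h3, D.pol, map_add, D.self, hq]; ring
              rw [D.refl_app h3, e1, D.refl_app]
              simp [D.self]
              have := he2 j
              match_scalars; field_simp; ring
            · obtain ⟨k1, k2⟩ := ho j hj hji
              simp [D.refl_app, k1, k2, he1 j i hji])
        have := (D.spn_refl h3).mul ((D.spn_refl (he2 i)).mul hd)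
        rw [← mul_assoc (D.refl (he2 i)),
          show D.refl (he2 i) * D.refl (he2 i) = 1 from Units.ext (D.refl_sq (he2 i)),
          one_mul, ← mul_assoc, show D.refl h3 * D.refl h3 = 1 from Units.ext (D.refl_sq h3),
          one_mul] at this
        exact ⟨_, this⟩
      · obtain ⟨d, hd⟩ := ih (D.refl h1 * g) ((orthGroup Q).mul_mem (D.refl_mem _) hg) (by
            intro j hj
            simp only [Units.val_mul, End.mul_apply]
            by_cases hji : j = i
            · subst hji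
              have e1 : (Q (g.val (e j) - e j))⁻¹ * B (g.val (e j)) (g.val (e j) - e j) = 1 := by
                rw [inv_mul_eq_one₀ h1, D.Qsub, map_sub, D.self, hq]; ring
              rw [D.refl_app h1, e1]
              simp
            · obtain ⟨k1, k2⟩ := ho j hj hji
              simp [D.refl_app, k1, k2, he1 j i hji])
        have := (D.spn_refl h1).mul hd
        rw [← mul_assoc, show D.refl h1 * D.refl h1 = 1 from Units.ext (D.refl_sq h1),
          one_mul] at this
        exact ⟨_, this⟩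
  exact key Finset.univ g hg (by simp)

lemma spn_G {g : (End F V)ˣ} (hg : g ∈ G) : ∃ d, Spn Q g (d ^ 2) := by
  have inv : ∀ g ∈ orthGroup Q, ∀ d, Spn Q g d → ∃ d' s, Spn Q g⁻¹ d' ∧ d * d' = s ^ 2 := by
    intro g hg d hd
    obtain ⟨d', hd'⟩ := D.spn_ex h2 ((orthGroup Q).inv_mem hg)
    have := hd.mul hd'
    rw [mul_inv_cancel] at this
    obtain ⟨s, hs⟩ := D.spn_one h2 this
    exact ⟨d', s, hd', hs⟩
  let K : Subgroup (End F V)ˣ :=
    { carrier := {g | g ∈ orthGroup Q ∧ ∃ d, Spn Q g (d ^ 2)}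
      mul_mem' := by
        rintro a b ⟨ha, d, hd⟩ ⟨hb, d', hd'⟩
        exact ⟨(orthGroup Q).mul_mem ha hb, d * d', mul_pow d d' 2 ▸ hd.mul hd'⟩
      one_mem' := ⟨(orthGroup Q).one_mem, 1, by simpa using Spn.one Q⟩
      inv_mem' := by
        rintro a ⟨ha, d, hd⟩
        obtain ⟨d', s, k1, k2⟩ := inv a ha _ hd
        refine ⟨(orthGroup Q).inv_mem ha, s / d, ?_⟩
        have : (s / d) ^ 2 = d' := by
          rw [div_pow, ← k2, mul_div_cancel_left₀ _ hd.1]
        rwa [this] }
  have hle : ⁅orthGroup Q, orthGroup Q⁆ ≤ K := by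
    rw [Subgroup.commutator_le]
    intro g hg h hh
    refine ⟨Subgroup.commutator_le_self _ (Subgroup.commutator_mem_commutator hg hh), ?_⟩
    obtain ⟨d1, k1⟩ := D.spn_ex h2 hg
    obtain ⟨d2, k2⟩ := D.spn_ex h2 hh
    obtain ⟨d3, s, k3, j3⟩ := inv g hg _ k1
    obtain ⟨d4, t, k4, j4⟩ := inv h hh _ k2
    refine ⟨s * t, ?_⟩
    have : (s * t) ^ 2 = d1 * d2 * d3 * d4 := by rw [mul_pow, ← j3, ← j4]; ring
    rw [this, commutatorElement_def]
    exact ((k1.mul k2).mul k3).mul k4
  exact (hle (D.mem.le hg)).2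

theorem spin {b g : (End F V)ˣ} (hb : b ∈ G) (hg : g ∈ orthGroup Q) {n z : V} (hn : Q n ≠ 0)
    (hz : Q z ≠ 0) (h1 : b.val = -(D.refl hn).val) (h3 : (g * g).val = -(D.refl hz).val) :
    ∃ s : F, Q n * Q z = s ^ 2 := by
  obtain ⟨d1, k1⟩ := D.spn_G h2 hb
  obtain ⟨d2, k2⟩ := D.spn_ex h2 hg
  have := (k1.mul (k2.mul k2)).mul ((D.spn_refl hz).mul (D.spn_refl hn))
  have e1 : b * (g * g) * (D.refl hz * D.refl hn) = 1 := by
    apply Units.ext
    rw [Units.val_mul, Units.val_mul, h1, h3, Units.val_mul, neg_mul_neg, mul_assoc,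
      ← mul_assoc (D.refl hz).val, show (D.refl hz).val * (D.refl hz).val = 1 from D.refl_sq hz,
      one_mul]
    exact D.refl_sq hn
  rw [e1] at this
  obtain ⟨s, hs⟩ := D.spn_one h2 this
  have h4 : d1 ≠ 0 := fun hh => k1.1 (by simp [hh])
  have h5 := k2.1
  refine ⟨s / (d1 * d2), ?_⟩
  field_simp
  linear_combination hs

end OD

end Pool.Agent.MP_db74b1_al

end

section

/-! Orthogonal groups in odd characteristic: involutions and reflections. -/

set_option autoImplicit false
set_option linter.unusedSectionVars false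
set_option linter.unusedSimpArgs false
set_option linter.unnecessarySeqFocus false

namespace Pool.Agent.MP_db74b1_al
open Module Submodule

variable {F V : Type} [Field F] [AddCommGroup V] [Module F V] [Finite F] [FiniteDimensional F V]

namespace OD
variable {Q : QuadraticForm F V} {B : V →ₗ[F] V →ₗ[F] F} {G : Subgroup (End F V)ˣ} (D : OD Q B G)
  (h2 : (2 : F) ≠ 0)
include D h2

lemma inv_refl {b : (End F V)ˣ} (hb : b ∈ G) (hbb : ∀ x, b.val (b.val x) = x) (nb : NS b.val)
    (H : (∀ (ε : F) (u y v : V), ε ^ 2 = 1 → b.val u = ε • u → u ≠ 0 → Q u = 0 → Q y = 0 →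
      B u y = 0 → Q v = 0 → B u v = 0 →
      (B (b.val y) v - ε * B y v) ^ 2 = B (b.val y) y * B (b.val v) v) ∨ Gdeg Q B b.val) :
    ∃ (ε : F) (n : V) (hn : Q n ≠ 0), ε ^ 2 = 1 ∧ b.val = ε • (D.refl hn).val := by
  have hd := D.dim
  have hbs : ∀ x y, B (b.val x) y = B x (b.val y) := fun x y => by rw [← D.iso hb, hbb]
  obtain ⟨ε, hε, h4⟩ : ∃ ε : F, ε ^ 2 = 1 ∧ 4 ≤ finrank F (LinearMap.ker (b.val - ε • 1)) := by
    have hz : (b.val - (1 : F) • 1) * (b.val - (-1 : F) • 1) = 0 := by
      ext x; simp [hbb, add_comm]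
    have := fker_mul hz
    by_cases h : 4 ≤ finrank F (LinearMap.ker (b.val - (1 : F) • 1))
    · exact ⟨1, by ring, h⟩
    · exact ⟨-1, by ring, by omega⟩
  have hε0 : ε ≠ 0 := by rintro rfl; simp at hε
  have memE : ∀ (c : F) (x : V), x ∈ LinearMap.ker (b.val - c • 1) ↔ b.val x = c • x := by
    intro c x; simp [sub_eq_zero]
  have proj : ∀ (c : F), c ^ 2 = 1 → ∀ x, ∃ x', b.val x' = c • x' ∧
      ∀ z, b.val z = c • z → B z x' = B z x := by
    intro c hc x
    refine ⟨(2 : F)⁻¹ • (x + c • b.val x), ?_, fun z hz => ?_⟩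
    · simp only [map_smul, map_add, hbb]
      linear_combination (norm := module) (-(2 : F)⁻¹) • hc • b.val x
    · simp only [map_smul, map_add, ← hbs, hz, LinearMap.smul_apply, smul_eq_mul]
      field_simp
      linear_combination B z x * hc
  have orth : ∀ z z', b.val z = ε • z → b.val z' = (-ε) • z' → B z z' = 0 := by
    intro z z' h1 h3
    have := hbs z z'
    rw [h1, h3] at this
    simp only [map_smul, LinearMap.smul_apply, smul_eq_mul] at this
    apply mul_left_cancel₀ (mul_ne_zero h2 hε0)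
    linear_combination this
  have univE : ∀ u0, b.val u0 = ε • u0 → ∀ d, ∃ z, b.val z = ε • z ∧ B u0 z = 0 ∧ Q z = d := by
    intro u0 hu0 d
    have := fs1 (F := F) u0
    have := fk (LinearMap.ker (b.val - ε • 1)) (B u0)
    obtain ⟨z, ⟨k1, k2⟩, k3⟩ := D.UNIV (W := LinearMap.ker (b.val - ε • 1) ⊓ LinearMap.ker (B u0))
      (R := span F {u0}) (by omega) (fun z hz hz' => by
        obtain ⟨x, j1, j2⟩ := sep B D.nd hz'
        obtain ⟨x', i1, i2⟩ := proj ε hε x
        refine ⟨x', ⟨(memE _ _).mpr i1, ?_⟩, ?_⟩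
        · show B u0 x' = 0
          rw [i2 u0 hu0, j2 u0 (m1 u0)]
        · rw [i2 z ((memE _ _).mp hz.1), j1]; exact one_ne_zero) d
    exact ⟨z, (memE _ _).mp k1, k2, k3⟩
  have zero : ∀ z, b.val z = (-ε) • z → (∀ z', b.val z' = (-ε) • z' → B z z' = 0) → z = 0 := by
    intro z hz h
    apply D.nd'
    intro x
    obtain ⟨x', i1, i2⟩ := proj (-ε) (by rw [neg_sq, hε]) x
    rw [← i2 z hz, h x' i1]
  have dec : ∀ x, b.val (b.val x - ε • x) = (-ε) • (b.val x - ε • x) := by
    intro x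
    simp only [map_sub, map_smul, hbb]
    linear_combination (norm := module) -hε • x
  obtain ⟨n, hn1, hn⟩ : ∃ n, b.val n = (-ε) • n ∧ Q n ≠ 0 := by
    by_contra hh
    push Not at hh
    apply nb ε
    ext x
    rw [← sub_eq_zero]
    refine zero _ (dec x) fun z' hz' => ?_
    have := hh (b.val x - ε • x + z') (by rw [map_add, dec, hz', smul_add])
    rwa [D.pol, hh _ (dec x), hh _ hz', zero_add, zero_add] at this
  by_cases hc : ∃ v, b.val v = (-ε) • v ∧ B n v = 0 ∧ Q v ≠ 0
  · exfalso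
    obtain ⟨v, hv1, hv2, hv⟩ := hc
    have h16 := mul_ne_zero (mul_ne_zero (four_ne h2) (four_ne h2)) (mul_ne_zero hn hv)
    rcases H with H | H
    · obtain ⟨u, k1, k2, k3⟩ := D.SING (W := LinearMap.ker (b.val - ε • 1)) (R := ⊥) (by simp; omega)
      have k1 := (memE _ _).mp k1
      obtain ⟨y, i1, i2, i3⟩ := univE u k1 (-Q n)
      obtain ⟨w, j1, j2, j3⟩ := univE u k1 (-Q v)
      have := H ε u (y + n) (w + v) hε k1 (by simpa using k2) k3
        (by simp [D.pol, i3, orth y n i1 hn1]) (by simp [i2, orth u n k1 hn1])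
        (by simp [D.pol, j3, orth w v j1 hv1]) (by simp [j2, orth u v k1 hv1])
      simp only [map_add, i1, j1, hn1, hv1, map_smul, LinearMap.add_apply, LinearMap.smul_apply,
        smul_eq_mul, orth y n i1 hn1, orth w v j1 hv1, orth y v i1 hv1, D.flip0 (orth y n i1 hn1),
        D.flip0 (orth w v j1 hv1), D.flip0 (orth w n j1 hn1), hv2, D.self, i3, j3] at this
      apply h16
      linear_combination -this - 16 * Q n * Q v * hε
    · obtain ⟨y, i1, -, i3⟩ := univE 0 (by simp) (-Q n)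
      obtain ⟨w, j1, j2, j3⟩ := univE y i1 (-Q v)
      have := H (y + n) (w + v) (by simp [D.pol, i3, orth y n i1 hn1])
        (by simp [D.pol, j3, orth w v j1 hv1])
        (by simp [j2, hv2, orth y v i1 hv1, D.flip0 (orth w n j1 hn1)])
      simp only [map_add, i1, j1, hn1, hv1, map_smul, LinearMap.add_apply, LinearMap.smul_apply,
        smul_eq_mul, orth y n i1 hn1, orth w v j1 hv1, orth y v i1 hv1, D.flip0 (orth y n i1 hn1),
        D.flip0 (orth w v j1 hv1), D.flip0 (orth w n j1 hn1), hv2, D.self, i3, j3, j2] at this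
      apply h16
      linear_combination this - 16 * Q n * Q v * hε
  push Not at hc
  have line : ∀ z, b.val z = (-ε) • z → z = (B n z / (2 * Q n)) • n := by
    intro z hz
    have key : ∀ z, b.val z = (-ε) • z → b.val (z - (B n z / (2 * Q n)) • n) =
        (-ε) • (z - (B n z / (2 * Q n)) • n) ∧ B n (z - (B n z / (2 * Q n)) • n) = 0 := by
      intro z hz
      refine ⟨by rw [map_sub, map_smul, hz, hn1, smul_sub, smul_comm], ?_⟩
      simp [D.self]
      field_simp
      ring
    rw [← sub_eq_zero]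
    obtain ⟨k1, k2⟩ := key z hz
    refine zero _ k1 fun z' hz' => ?_
    obtain ⟨j1, j2⟩ := key z' hz'
    generalize z - (B n z / (2 * Q n)) • n = t at k1 k2
    have := hc (t + (z' - (B n z' / (2 * Q n)) • n)) (by rw [map_add, k1, j1, smul_add])
      (by rw [map_add, k2, j2, add_zero])
    rw [D.pol, hc _ k1 k2, hc _ j1 j2, zero_add, zero_add] at this
    simpa [D.flip0 k2] using this
  refine ⟨ε, n, hn, hε, ?_⟩
  ext x
  have := line _ (dec x)
  rw [map_sub, ← hbs, hn1] at this
  simp only [LinearMap.smul_apply, D.refl_app, map_smul, smul_eq_mul, D.symm x n] at this ⊢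
  have e1 : (-ε * B x n - ε * B x n) / (2 * Q n) = - (ε * ((Q n)⁻¹ * B x n)) := by
    field_simp; ring
  rw [e1] at this
  linear_combination (norm := module) this

lemma det_refl {n : V} (hn : Q n ≠ 0) : LinearMap.det (D.refl hn).val = -1 := by
  have : (D.refl hn).val = 1 + rk n (-(Q n)⁻¹ • B.flip n) := by
    ext x; simp [D.refl_app, sub_eq_add_neg]
  rw [this, det_one_add_rk]
  simp [D.self]
  field_simp
  ring

lemma skew_ker (ho : finrank F V % 2 = 1) (R : End F V) (h : ∀ x y, B (R x) y = - B (R y) x) :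
    ∃ z, z ≠ 0 ∧ R z = 0 := by
  let e := finBasis F V
  let M : Matrix (Fin (finrank F V)) (Fin (finrank F V)) F := Matrix.of fun i j => B (R (e i)) (e j)
  have h1 : M.transpose = -M := by
    ext i j; simp [M, h (e j)]
  have h3 : M.det = 0 := by
    have := Matrix.det_transpose M
    rw [h1, Matrix.det_neg, Fintype.card_fin, Odd.neg_one_pow (Nat.odd_iff.mpr ho)] at this
    apply mul_left_cancel₀ h2
    linear_combination -this
  obtain ⟨v, hv, hv'⟩ := Matrix.exists_vecMul_eq_zero_iff.mpr h3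
  refine ⟨∑ i, v i • e i, fun hh => hv ?_, ?_⟩
  · funext i
    exact Fintype.linearIndependent_iff.mp e.linearIndependent v hh i
  · apply D.nd'
    intro y
    have : B (R (∑ i, v i • e i)) = 0 := by
      apply e.ext
      intro j
      have := congrFun hv' j
      simpa [Matrix.vecMul, dotProduct, M] using this
    rw [this, LinearMap.zero_apply]

lemma sqrt_refl (X : End F V) (hX : ∀ x y, B (X x) y = - B x (X y)) (hXX : ∀ x, X (X x) = 0)
    {z : V} (hz : Q z ≠ 0) (hz1 : X z = 0) (hk : ∀ k, X k = 0 → ∃ (t : V) (c : F), k = X t + c • z) :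
    ∃ g ∈ orthGroup Q, (g * g).val = -(D.refl hz).val := by
  obtain ⟨h, hh⟩ : ∃ h : F, 2 * h = 1 := ⟨2⁻¹, mul_inv_cancel₀ h2⟩
  obtain ⟨c, hc⟩ : ∃ c : F, c * (2 * Q z) = 1 := ⟨_, inv_mul_cancel₀ (mul_ne_zero h2 hz)⟩
  have Xz : ∀ x, B (X x) z = 0 := fun x => by rw [hX, hz1]; simp
  obtain ⟨Y0, hY0⟩ : ∃ Y0 : End F V, ∀ x, X (Y0 (X x)) = X x := by
    obtain ⟨s, hs⟩ := X.rangeRestrict.exists_rightInverse_of_surjective X.range_rangeRestrict
    obtain ⟨g, hg⟩ := LinearMap.exists_extend s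
    refine ⟨g, fun x => ?_⟩
    have e1 : g (X x) = s ⟨X x, LinearMap.mem_range_self X x⟩ :=
      LinearMap.congr_fun hg ⟨X x, LinearMap.mem_range_self X x⟩
    rw [e1]
    exact congrArg Subtype.val (LinearMap.congr_fun hs ⟨X x, LinearMap.mem_range_self X x⟩)
  obtain ⟨Y0', hY0'⟩ : ∃ Y0' : End F V, ∀ x y, B (Y0' x) y = B x (Y0 y) :=
    ⟨_, LinearMap.BilinForm.isAdjointPairLeftAdjointOfNondegenerate B ⟨D.nd', D.nd⟩ Y0⟩
  obtain ⟨Y1, s1, s2⟩ : ∃ Y1 : End F V, (∀ x y, B (Y1 x) y = - B x (Y1 y)) ∧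
      ∀ x, X (Y1 (X x)) = X x := by
    refine ⟨h • (Y0 - Y0'), fun x y => ?_, fun x => ?_⟩
    · simp [hY0', D.symm (Y0' y) x, D.symm (Y0 x) y]
      ring
    · have : X (Y0' (X x)) = - X x := by
        rw [← sub_eq_zero]
        apply D.nd'
        intro y
        simp [hX, hY0', hY0]
      simp only [LinearMap.smul_apply, LinearMap.sub_apply, map_smul, map_sub, hY0, this]
      linear_combination (norm := module) hh • X x
  obtain ⟨Y2, r1, r2, r3⟩ : ∃ Y2 : End F V, (∀ x y, B (Y2 x) y = - B x (Y2 y)) ∧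
      (∀ x, X (Y2 (X x)) = X x) ∧ Y2 z = 0 := by
    refine ⟨(1 - c • op B z z) * Y1 * (1 - c • op B z z), fun x y => ?_, fun x => ?_, ?_⟩
    · have sa : ∀ x y, B ((1 - c • op B z z : End F V) x) y = B x ((1 - c • op B z z : End F V) y) := by
        intro x y
        simp only [LinearMap.sub_apply, End.one_apply, LinearMap.smul_apply, op_apply, map_sub,
          map_smul, smul_eq_mul, D.symm z y]
        ring
      simp only [End.mul_apply]
      rw [sa, s1, sa]
    · simp [Xz, hz1, s2]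
    · have : (1 - c • op B z z : End F V) z = 0 := by
        simp [D.self, smul_smul, hc]
      simp only [End.mul_apply, this, map_zero]
  obtain ⟨Y, t1, t2, t3, t4⟩ : ∃ Y : End F V, (∀ x y, B (Y x) y = - B x (Y y)) ∧
      (∀ x, X (Y (X x)) = X x) ∧ (∀ x, Y (X (Y x)) = Y x) ∧ Y z = 0 := by
    refine ⟨Y2 * X * Y2, fun x y => ?_, fun x => ?_, fun x => ?_, ?_⟩
    · simp [r1, hX]
    · simp [r2]
    · simp [r2]
    · simp [r3]
  have Yz : ∀ x, B (Y x) z = 0 := fun x => by rw [t1, t4]; simp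
  have tau : ∀ x, X (Y (Y (X x))) = X (Y x) + Y (X x) - x + (c * B x z) • z := by
    intro x
    obtain ⟨t, d, e1⟩ := hk (x - Y (X x)) (by simp [t2])
    have e2 : d = c * B x z := by
      have := congrArg (fun v => B v z) e1
      simp [Xz, Yz, D.self] at this
      rw [this]
      linear_combination -d * hc
    have e3 := congrArg (fun v => X (Y v)) e1
    simp only [map_sub, map_add, map_smul, t2, t4, map_zero, smul_zero, add_zero] at e3
    rw [← e2]
    linear_combination (norm := module) e1 - e3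
  obtain ⟨J, hJ⟩ : ∃ J : End F V, J = X - (1 - h • (X * Y)) * Y * (1 - h • (Y * X)) := ⟨_, rfl⟩
  have J1 : ∀ x y, B (J x) y = - B x (J y) := by
    intro x y
    simp [hJ, hX, t1]
    ring
  have J2 : J z = 0 := by simp [hJ, hz1, t4]
  have J3 : ∀ x, B (J x) z = 0 := fun x => by rw [J1, J2]; simp
  have J4 : ∀ x, J (J x) = -x + (c * B x z) • z := by
    intro x
    have : J (J x) = -(X (Y x) + Y (X x) - X (Y (Y (X x)))) := by
      simp only [hJ, LinearMap.sub_apply, End.mul_apply, End.one_apply, LinearMap.smul_apply,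
        map_sub, map_smul, hXX, t2, t3, map_zero, smul_zero]
      linear_combination (norm := module) hh • X (Y (Y (X x))) - hh • Y (Y x) +
        h • hh • X (Y (Y (Y x))) + h • hh • Y (Y (Y (X x))) -
        (h * h) • hh • X (Y (Y (Y (Y (X x)))))
    rw [this, tau]
    module
  have g2 : (J + c • op B z z) * (J + c • op B z z) = -(D.refl hz).val := by
    ext x
    simp only [End.mul_apply, LinearMap.add_apply, LinearMap.smul_apply, op_apply, map_add,
      map_smul, J2, J3, J4, D.self, LinearMap.neg_apply, D.refl_app]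
    have e1 : (Q z)⁻¹ = 2 * c := by field_simp; linear_combination -hc
    rw [e1]
    linear_combination (norm := module) (c * B x z) • hc • z
  have g4 : (J + c • op B z z) * ((J + c • op B z z) * (J + c • op B z z) * (J + c • op B z z)) = 1 := by
    rw [mul_assoc, ← mul_assoc, g2, neg_mul_neg]
    exact D.refl_sq hz
  have g4' : ((J + c • op B z z) * (J + c • op B z z) * (J + c • op B z z)) * (J + c • op B z z) = 1 := by
    rw [mul_assoc, g2, neg_mul_neg]
    exact D.refl_sq hz
  refine ⟨⟨_, _, g4, g4'⟩, fun x => ?_, g2⟩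
  apply mul_left_cancel₀ h2
  rw [← D.self, ← D.self]
  simp only [LinearMap.add_apply, LinearMap.smul_apply, op_apply, map_add, map_smul, J3,
    D.symm (J x) z, smul_eq_mul, D.self z, J1 x (J x), J4, map_neg]
  linear_combination (c * B x z ^ 2) * hc

end OD

end Pool.Agent.MP_db74b1_al

end

section

/-! Orthogonal groups: odd dimension and the main theorem. -/

set_option autoImplicit false
set_option linter.unusedSectionVars false
set_option linter.unusedSimpArgs false
set_option linter.unnecessarySeqFocus false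

namespace Pool.Agent.MP_db74b1_al
open Module Submodule

variable {F V : Type} [Field F] [AddCommGroup V] [Module F V] [Finite F] [FiniteDimensional F V]

/-- `(x ^ 2 - 1) ^ 2 = 0` -/
def Nil (x : End F V) : Prop := (x * x - 1) * (x * x - 1) = 0

lemma Nil.conj {x : End F V} (k : (End F V)ˣ) {z : F} (hz : z ^ 2 = 1) (h : Nil x) :
    Nil (z • (k.val * x * k⁻¹.val)) := by
  have e1 : z • (k.val * x * k⁻¹.val) * z • (k.val * x * k⁻¹.val) - 1 =
      k.val * (x * x - 1) * k⁻¹.val := by
    simp only [smul_mul_assoc, mul_smul_comm, smul_smul, ← pow_two z, hz, one_smul, mul_sub, sub_mul,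
      mul_assoc, Units.inv_mul_cancel_left, one_mul, Units.mul_inv]
  unfold Nil at h ⊢
  rw [e1, mul_assoc, mul_assoc, mul_assoc, Units.inv_mul_cancel_left, ← mul_assoc (x * x - 1), h]
  simp

lemma Bad.nil {G : Subgroup (End F V)ˣ} {Z : Set F} (hZ : ∀ z ∈ Z, z ^ 2 = 1) {a b : (End F V)ˣ}
    {e : End F V} (h : Bad G Z a b e) : Nil (a.val * b.val) ↔ Nil e := by
  obtain ⟨z, hz, k, hk⟩ := h.base
  have hz := hZ z hz
  constructor
  · intro hl
    have := hl.conj k⁻¹ hz
    rw [hk] at this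
    simpa [smul_smul, ← pow_two, hz, ← mul_assoc] using this
  · intro hl
    rw [hk]
    exact hl.conj k hz

namespace OD
variable {Q : QuadraticForm F V} {B : V →ₗ[F] V →ₗ[F] F} {G : Subgroup (End F V)ˣ} (D : OD Q B G)
  {Z : Set F} {a b : (End F V)ˣ} {e : End F V} (h : Bad G Z a b e)
include D h

lemma odd_dim (h2 : (2 : F) ≠ 0) (ho : finrank F V % 2 = 1) (hZ : ∀ z ∈ Z, z ^ 2 = 1) (ha : a ∈ G)
    (hb : b ∈ G) (na : NS a.val) (hA : Alt Q B a.val) {n : V} (hn : Q n ≠ 0)
    (hbn : b.val = -(D.refl hn).val) : False := by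
  have hd := D.dim
  obtain ⟨l, hl⟩ := D.alt_sc ha hA
  have ia := sc_inv hl
  obtain ⟨η, hη, hηl⟩ : ∃ η : F, η ^ 2 = 1 ∧ l = 2 * η := by
    obtain ⟨z, hz, hz'⟩ := D.skew_ker h2 ho (a.val - a⁻¹.val) (fun x y => by
      simp only [LinearMap.sub_apply, map_sub, D.adj ha x y, D.adj ha y x, D.symm x, D.symm y]
      ring)
    obtain ⟨η, rfl⟩ : ∃ η, l = 2 * η := ⟨l / 2, by field_simp⟩
    have e1 : a.val z = η • z := by
      apply smul_right_injective V h2
      simp only [LinearMap.sub_apply, ia] at hz'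
      simp only
      linear_combination (norm := module) hz'
    have e2 := ia (a.val z)
    rw [inv_app, e1, map_smul, e1] at e2
    refine ⟨η, ?_, rfl⟩
    have : (η ^ 2 - 1) • z = 0 := by linear_combination (norm := module) -e2
    exact sub_eq_zero.mp ((smul_eq_zero.mp this).resolve_right hz)
  obtain ⟨X, hXd⟩ : ∃ X : End F V, X = η • a.val - 1 := ⟨_, rfl⟩
  have haX : ∀ x, a.val x = η • (x + X x) := by
    intro x
    simp only [hXd, LinearMap.sub_apply, LinearMap.smul_apply, End.one_apply]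
    linear_combination (norm := module) -hη • a.val x
  have hX : ∀ x y, B (X x) y = - B x (X y) := by
    intro x y
    simp only [hXd, LinearMap.sub_apply, LinearMap.smul_apply, End.one_apply, map_sub, map_smul,
      smul_eq_mul, D.adj ha x y, ia, hηl]
    linear_combination 2 * B x y * hη
  have hXX : ∀ x, X (X x) = 0 := by
    intro x
    have := ia (a.val x)
    rw [inv_app, hηl] at this
    simp only [hXd, LinearMap.sub_apply, LinearMap.smul_apply, End.one_apply, map_sub, map_smul]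
    linear_combination (norm := module) this + hη • a.val (a.val x)
  have hX0 : ∀ x, B (X x) x = 0 := fun x => by
    apply mul_left_cancel₀ h2
    linear_combination hX x x - D.symm (X x) x
  have key : ∀ y, Q y = Q n → (Nil (a.val * -(1 - (Q n)⁻¹ • op B y y)) ↔ Nil e) := by
    intro y hy
    have hn0 : n ≠ 0 := by rintro rfl; simp at hn
    by_cases hyn : y ∈ span F {n}
    · obtain ⟨c, rfl⟩ := mem_span_singleton.mp hyn
      have hc : c ^ 2 = 1 := by
        rw [Qsmul] at hy
        apply mul_right_cancel₀ hn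
        rw [hy, one_mul]
      rw [← h.nil hZ, hbn]
      have : op B (c • n) (c • n) = op B n n := by
        ext x
        simp only [op_apply, map_smul, smul_eq_mul]
        linear_combination (norm := module) B x n • hc • n
      rw [this]; rfl
    · obtain ⟨g, hg, e1⟩ := D.normstep hn0 hyn hy.symm
      rw [← (h.conjR hg).nil hZ, conj_op (D.iso hg) (l := -1) (c := (Q n)⁻¹) (p := n)
        (by rw [hbn]; simp [refl]; abel), e1]
      rw [neg_sub, neg_smul, one_smul, sub_eq_neg_add]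
  have sq : ∀ y, Q y = Q n → ∀ v, ((a.val * -(1 - (Q n)⁻¹ • op B y y)) *
      (a.val * -(1 - (Q n)⁻¹ • op B y y)) - 1 : End F V) v = (2 : F) • X v -
      ((Q n)⁻¹ * B v y) • X y + ((Q n)⁻¹ * B v (X y)) • y + ((Q n)⁻¹ * B v (X y)) • X y := by
    intro y hy v
    have hc : (Q n)⁻¹ * Q n = 1 := inv_mul_cancel₀ hn
    simp only [End.mul_apply, LinearMap.sub_apply, LinearMap.neg_apply, LinearMap.smul_apply,
      op_apply, End.one_apply, haX, map_sub, map_neg, map_add, map_smul, hXX, LinearMap.add_apply,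
      hX v y, hX0, D.self, hy, smul_eq_mul]
    generalize (Q n)⁻¹ = c at hc
    linear_combination (norm := module) hη • (v + (2 : F) • X v - (c * B v y) • X y +
      (c * B v (X y)) • y + (c * B v (X y)) • X y) +
      (2 * η ^ 2 * c * B v y) • hc • (y + X y)
  obtain ⟨y1, k1, k2⟩ : ∃ y, Q y = Q n ∧ X y = 0 := by
    have nd : ∀ z, z ∉ LinearMap.range X → ∃ z', X z' = 0 ∧ B z z' = 1 := by
      intro z hz
      obtain ⟨z', j1, j2⟩ := sep B D.nd hz
      refine ⟨z', D.nd _ fun x => ?_, j1⟩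
      rw [← neg_eq_zero, ← hX]
      exact j2 _ (LinearMap.mem_range_self X x)
    by_cases hk : finrank F (LinearMap.range X) + 2 ≤ finrank F (LinearMap.ker X)
    · obtain ⟨z, j1, j2⟩ := D.UNIV hk (fun z _ hz => by
        obtain ⟨z', i1, i2⟩ := nd z hz
        exact ⟨z', i1, by simp [i2]⟩) (Q n)
      exact ⟨z, j2, j1⟩
    have hle : LinearMap.range X ≤ LinearMap.ker X := by
      rintro _ ⟨x, rfl⟩; exact hXX x
    have := Submodule.finrank_mono hle
    have := X.finrank_range_add_finrank_ker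
    obtain ⟨z, hz, hz'⟩ := out (W := LinearMap.ker X) (R := LinearMap.range X) (by omega)
    have hsup : LinearMap.range X ⊔ span F {z} = LinearMap.ker X := by
      apply Submodule.eq_of_le_of_finrank_le (sup_le hle ((span_singleton_le_iff_mem _ _).mpr hz))
      have : LinearMap.range X < LinearMap.range X ⊔ span F {z} :=
        lt_of_le_of_ne le_sup_left fun hh => hz' (hh ▸ mem_sup_right (m1 z))
      have := Submodule.finrank_lt_finrank_of_lt this
      omega
    have hk' : ∀ k, X k = 0 → ∃ (t : V) (c : F), k = X t + c • z := by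
      intro k hk
      have : k ∈ LinearMap.range X ⊔ span F {z} := hsup ▸ hk
      obtain ⟨_, ⟨t, rfl⟩, y, hy, rfl⟩ := mem_sup.mp this
      obtain ⟨c, rfl⟩ := mem_span_singleton.mp hy
      exact ⟨t, c, rfl⟩
    have hz1 : X z = 0 := hz
    have hQz : Q z ≠ 0 := by
      intro hq
      obtain ⟨z', i1, i2⟩ := nd z hz'
      obtain ⟨t, c, rfl⟩ := hk' z' i1
      simp [D.self0 hq, D.symm (X t) z, hX, hz1] at i2
    obtain ⟨g, hg, hg2⟩ := D.sqrt_refl h2 X hX hXX hQz hz1 hk'
    obtain ⟨s, hs⟩ := D.spin h2 hb hg hn hQz hbn hg2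
    refine ⟨(s / Q z) • z, ?_, by simp [hz1]⟩
    rw [Qsmul]
    field_simp
    linear_combination -hs
  obtain ⟨y2, j1, j2⟩ : ∃ y, Q y = Q n ∧ X y ≠ 0 := by
    by_contra hh
    push Not at hh
    obtain ⟨u, hu, hu'⟩ : ∃ u, Q u = 0 ∧ X u ≠ 0 := by
      by_contra hc
      push Not at hc
      apply na η
      ext x
      have : X x = 0 := D.nd _ fun y =>
        D.SPAN 0 (B y ∘ₗ X) (fun v _ hv => by simp [hc v hv]) x (by simp)
      simp [haX, this]
    obtain ⟨f0, hf0, -⟩ := sep B D.nd (nmem0.mpr (show u ≠ 0 by rintro rfl; simp at hu'))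
    obtain ⟨f, hf1, hf2⟩ : ∃ f, Q f = 0 ∧ B u f = 1 :=
      ⟨f0 - Q f0 • u, by simp [D.Qsub, Qsmul, hu, D.symm u f0, hf0], by simp [hf0, D.self0 hu]⟩
    have := fs2 (F := F) u f
    obtain ⟨z, i1, i2⟩ := D.univ_perp (span F {u, f}) (by omega) 1
    have i3 := i1 u (m21 _ _)
    have i4 := i1 f (m22 _ _)
    have s0 := hh (u + Q n • f) (by simp [D.pol, Qsmul, hu, hf1, hf2])
    have s1 := hh (u + (Q n - 1) • f + z) (by simp [D.pol, Qsmul, hu, hf1, hf2, i2, i3, i4])
    have s2 := hh (u + (Q n - 1) • f - z) (by simp [D.pol, D.Qsub, Qsmul, hu, hf1, hf2, i2, i3, i4])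
    simp only [map_add, map_sub, map_smul] at s0 s1 s2
    apply hu'
    apply smul_right_injective V h2
    simp only
    linear_combination (norm := module) (2 - 2 * Q n) • s0 + Q n • s1 + Q n • s2
  have N1 : Nil (a.val * -(1 - (Q n)⁻¹ • op B y1 y1)) := by
    ext v
    rw [End.mul_apply, sq y1 k1, sq y1 k1]
    simp [hXX, k2]
  have N2 := (key y2 j1).mpr ((key y1 k1).mp N1)
  obtain ⟨z, hz, -⟩ := sep B D.nd (nmem0.mpr j2)
  have := LinearMap.congr_fun N2 z
  have e1 : B (X y2) (X y2) = 0 := by rw [hX, hXX]; simp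
  have e2 : B (X z) (X y2) = 0 := by rw [hX, hXX]; simp
  rw [End.mul_apply, sq y2 j1, sq y2 j1] at this
  simp only [map_add, map_sub, map_smul, hXX, LinearMap.add_apply,
    LinearMap.sub_apply, LinearMap.smul_apply, smul_eq_mul, hX z y2, D.symm (X y2) z, hz, hX0,
    D.self y2, j1, e1, e2, D.flip0 (hX0 y2), LinearMap.zero_apply] at this
  apply j2
  apply smul_right_injective V (mul_ne_zero h2 (inv_ne_zero hn))
  have hc : (Q n)⁻¹ * Q n = 1 := inv_mul_cancel₀ hn
  generalize (Q n)⁻¹ = c at hc this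
  simp only
  linear_combination (norm := module) this + (2 * c) • hc • X y2

lemma sym_inv (h2 : (2 : F) ≠ 0) (hb : b ∈ G) (hS : Sym Q B b.val) (x : V) : b.val (b.val x) = x := by
  obtain ⟨κ, hκ⟩ := D.sym_sc hb hS
  have e1 : ∀ x, b.val x - b⁻¹.val x = κ • x := fun x => by
    simpa [sub_eq_add_neg] using LinearMap.congr_fun hκ x
  have hκ0 : κ = 0 := by
    have := D.dim
    obtain ⟨n, -, hn⟩ := D.univ_perp ⊥ (by simp; omega) 1
    have := congrArg (fun t => B t n) (e1 n)
    simp only [map_sub, LinearMap.sub_apply, map_smul, LinearMap.smul_apply, D.self, hn, D.adj hb,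
      D.symm n, sub_self, smul_eq_mul] at this
    apply mul_left_cancel₀ h2
    linear_combination -this
  have := e1 (b.val x)
  rwa [inv_app, hκ0, zero_smul, sub_eq_zero] at this

lemma main_odd (h2 : (2 : F) ≠ 0) (hZ : ∀ z ∈ Z, z ^ 2 = 1) (ha : a ∈ G) (hb : b ∈ G)
    (na : NS a.val) (nb : NS b.val) (hS : Sym Q B b.val)
    (H : Alt Q B a.val ∨ (finrank F V % 2 = 0 ∧ Gdeg Q B b.val)) : False := by
  have hbb := D.sym_inv h h2 hb hS
  obtain ⟨ε, n, hn, hε, hs⟩ := D.inv_refl h2 hb hbb nb (by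
    rcases H with H | H
    · exact Or.inl fun ε u y v h1 h3 h4 h5 h6 h7 h8 h9 =>
        D.GO h hZ ha na H hb hbb h1 h3 h4 h5 h6 h7 h8 h9
    · exact Or.inr H.2)
  have hd := D.det hb
  rw [hs, LinearMap.det_smul, D.det_refl h2] at hd
  by_cases ho : finrank F V % 2 = 0
  · obtain ⟨k, hk⟩ : ∃ k, finrank F V = 2 * k := ⟨finrank F V / 2, by omega⟩
    rw [hk, pow_mul, hε, one_pow] at hd
    exact h2 (by linear_combination -hd)
  · obtain ⟨k, hk⟩ : ∃ k, finrank F V = 2 * k + 1 := ⟨finrank F V / 2, by omega⟩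
    rw [hk, pow_succ, pow_mul, hε, one_pow] at hd
    have : ε = -1 := by linear_combination -hd
    rw [this, neg_smul, one_smul] at hs
    exact D.odd_dim h h2 (by omega) hZ ha hb na (H.resolve_right fun hh => ho hh.1) hn hs

omit h in
theorem main (hq : finrank F V % 2 = 1 → (2 : F) ≠ 0)
    (h : Bad G {z : F | z ^ 2 = 1 ∧ z ^ finrank F V = 1} a b e) (ha : a ∈ G) (hb : b ∈ G)
    (na : NS a.val) (nb : NS b.val) : False := by
  have hd := D.dim
  have hZ : ∀ z ∈ {z : F | z ^ 2 = 1 ∧ z ^ finrank F V = 1}, z ^ 2 = 1 := fun z hz => hz.1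
  by_cases h2 : (2 : F) = 0
  · have h8 : 8 ≤ finrank F V := by
      by_contra hh
      exact hq (by omega) h2
    have hZ1 : ∀ z ∈ {z : F | z ^ 2 = 1 ∧ z ^ finrank F V = 1}, z = 1 :=
      fun z hz => sq_one_two h2 hz.1
    rcases D.red2 h h2 h8 hZ1 ha hb na nb with ⟨k1, k2⟩ | ⟨k1, k2⟩
    · exact D.main2 h h2 h8 hZ1 ha hb na nb k1 k2
    · exact D.main2 h.swap h2 h8 hZ1 hb ha nb na k1 k2
  by_cases ho : finrank F V % 2 = 0
  · have hZ0 : ∀ z ∈ {z : F | z ^ 2 = 1 ∧ z ^ finrank F V = 1}, z ≠ 0 := by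
      rintro z ⟨hz, -⟩ rfl; simp at hz
    rcases D.skewskew h h2 (by omega) hZ0 with k | k
    · refine D.main_odd h.swap h2 hZ hb ha nb na k ?_
      by_cases hA : Alt Q B b.val
      · exact Or.inl hA
      · exact Or.inr ⟨ho, D.gdeg h.swap h2 (by omega) hZ0 hA k⟩
    · refine D.main_odd h h2 hZ ha hb na nb k ?_
      by_cases hA : Alt Q B a.val
      · exact Or.inl hA
      · exact Or.inr ⟨ho, D.gdeg h h2 (by omega) hZ0 hA k⟩
  have hZ1 : ∀ z ∈ {z : F | z ^ 2 = 1 ∧ z ^ finrank F V = 1}, z = 1 := by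
    rintro z ⟨h1, h3⟩
    obtain ⟨k, hk⟩ : ∃ k, finrank F V = 2 * k + 1 := ⟨finrank F V / 2, by omega⟩
    rwa [hk, pow_succ, pow_mul, h1, one_pow, one_mul] at h3
  have h3 : 2 < Nat.card F := by
    have := odd_card h2
    have := two_le_card (F := F)
    omega
  rcases D.redTZ h h3 hZ1 ha hb na nb with ⟨k1, k2⟩ | ⟨k1, k2⟩
  · exact D.main_odd h h2 hZ ha hb na nb k2 (Or.inl k1)
  · exact D.main_odd h.swap h2 hZ hb ha nb na k2 (Or.inl k1)

end OD

end Pool.Agent.MP_db74b1_al

end

section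

/-! The Arad-Herzog conjecture for all finite simple classical groups. -/

set_option autoImplicit false

namespace Pool.Agent.MP_db74b1_al.Lt

open Pool.Agent.MP_db74b1_al in
theorem classical (F V G : Type) [Field F] [Finite F] [AddCommGroup V] [Module F V]
    [FiniteDimensional F V] [Group G] (hG : IsClassical F V G) :
    ¬ ∃ x y z : G, x ≠ 1 ∧ y ≠ 1 ∧
      {g : G | ∃ a b : G, IsConj x a ∧ IsConj y b ∧ g = a * b} = {g : G | IsConj z g} := by
  rintro ⟨x, y, z, hx, hy, h⟩
  obtain ⟨H, hH, ⟨φ⟩⟩ := hG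
  rcases hH with ⟨h1, h2, h3⟩ | ⟨h1, h2, B, h3, h4, h5⟩ |
    ⟨h1, h2, σ, B, ⟨h3, h4, h5, h6, h7⟩, h8⟩ | ⟨h1, h2, O, ⟨Q, h3, h4⟩, h5⟩
  · obtain ⟨a, -, b, -, na, nb, e, hb⟩ := reduce H _ (sl_center h3 h1) φ x y z hx hy h
    exact sl_main h3 h1 h2 hb na nb
  · have D : SpD B H := ⟨h3, h4.2, h5, h1⟩
    obtain ⟨a, ha, b, hb, na, nb, e, hbad⟩ := reduce H _ D.center φ x y z hx hy h
    exact D.main hbad ha hb (fun hq => by
      by_contra hh
      have := h2 (by omega)
      omega) na nb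
  · let B' : V →ₗ[F] V →ₛₗ[σ] F := LinearMap.mk₂'ₛₗ (RingHom.id F) σ B
      (fun a b c => (h5 c).map_add a b) (fun c a b => (h5 b).map_smul c a)
      (fun a b c => by rw [h6 (b + c) a, (h5 a).map_add, map_add, ← h6, ← h6])
      (fun c a b => by rw [h6 (c • b) a, (h5 a).map_smul, smul_eq_mul, map_mul, ← h6, smul_eq_mul])
    have D : UD σ B' H := ⟨h3, h4, h6, h7, h8, h1⟩
    obtain ⟨a, ha, b, hb, na, nb, e, hbad⟩ := reduce H _ D.center φ x y z hx hy h
    exact D.main h2 hbad ha hb na nb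
  · have hO : O = orthGroup Q := Subgroup.ext h4
    have D : OD Q Q.polarBilin H := ⟨fun x y => QuadraticMap.map_add Q x y, h3.2, by rw [h5, hO],
      h1⟩
    obtain ⟨a, ha, b, hb, na, nb, e, hbad⟩ := reduce H _ D.center φ x y z hx hy h
    refine D.main (fun ho h2' => ?_) hbad ha hb na nb
    obtain ⟨k, hk⟩ := h2 (Nat.odd_iff.mpr ho)
    have := card_cast (F := F)
    rw [hk] at this
    push_cast at this
    exact one_ne_zero (α := F) (by linear_combination this - k * h2')

end Pool.Agent.MP_db74b1_al.Lt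

end
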